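import Mathlib

/-! A nerve lemma for the fundamental group. -/

namespace Pool.Agent.Work.MP_735653_gt

open CategoryTheory in
theorem Nerve_W (E : Type) [TopologicalSpace E] [PathConnectedSpace E] :
    ∃ (H : Type) (_ : Group H) (W : ∀ x y : E, Path x y → H),
      (∀ (x y z : E) (α : Path x y) (β : Path y z), W x z (α.trans β) = W x y α * W y z β) ∧
      (∀ (x y : E) (α β : Path x y), α.Homotopic β → W x y α = W x y β) ∧
      (∀ (x : E) (α : Path x x), W x x α = 1 → α.Homotopic (Path.refl x)) := by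
  obtain ⟨e0⟩ : Nonempty E := inferInstance
  let c : ∀ x : E, FundamentalGroupoid.mk e0 ⟶ FundamentalGroupoid.mk x := fun x =>
    FundamentalGroupoid.fromPath (Path.Homotopic.Quotient.mk (PathConnectedSpace.somePath e0 x))
  let k : ∀ x y : E, Path x y → (FundamentalGroupoid.mk x ⟶ FundamentalGroupoid.mk y) :=
    fun x y α => FundamentalGroupoid.fromPath (Path.Homotopic.Quotient.mk α)
  have hk : ∀ (x y z : E) (α : Path x y) (β : Path y z),
      k x z (α.trans β) = k x y α ≫ k y z β := fun x y z α β => rfl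
  refine ⟨End (FundamentalGroupoid.mk e0), inferInstance,
    fun x y α => c y ≫ inv (k x y α) ≫ inv (c x), ?_, ?_, ?_⟩
  · intro x y z α β
    rw [End.mul_def]
    simp [hk]
  · intro x y α β hαβ
    have : k x y α = k x y β := Path.Homotopic.Quotient.eq.mpr hαβ
    simp only [this]
  · intro x α hα
    replace hα : c x ≫ inv (k x x α) ≫ inv (c x) = 𝟙 _ := hα
    have h1 : inv (k x x α) = 𝟙 _ := by
      have h2 : inv (c x) ≫ (c x ≫ inv (k x x α) ≫ inv (c x)) ≫ c x = inv (c x) ≫ 𝟙 _ ≫ c x := by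
        rw [hα]
      simpa using h2
    have h3 : k x x α = 𝟙 _ := by
      have h4 : k x x α ≫ inv (k x x α) = k x x α ≫ 𝟙 _ := by rw [h1]
      simpa using h4.symm
    exact Path.Homotopic.Quotient.eq.mp h3

theorem Nerve_homotopic {E : Type} [TopologicalSpace E] (U : Set E) [SimplyConnectedSpace U]
    {x y : E} (α β : Path x y) (hα : ∀ t, α t ∈ U) (hβ : ∀ t, β t ∈ U) : α.Homotopic β := by
  have hx : x ∈ U := by simpa using hα 0
  have hy : y ∈ U := by simpa using hα 1
  let α' : Path (⟨x, hx⟩ : U) ⟨y, hy⟩ :=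
    { toFun := fun t => ⟨α t, hα t⟩
      source' := by simp
      target' := by simp }
  let β' : Path (⟨x, hx⟩ : U) ⟨y, hy⟩ :=
    { toFun := fun t => ⟨β t, hβ t⟩
      source' := by simp
      target' := by simp }
  exact (SimplyConnectedSpace.paths_homotopic α' β').map ⟨Subtype.val, continuous_subtype_val⟩

theorem Nerve_D {E H : Type} [TopologicalSpace E] [Group H] (W : ∀ x y : E, Path x y → H)
    (hW : ∀ (x y : E) (α β : Path x y), α.Homotopic β → W x y α = W x y β)
    (U : Set E) (hU : ContractibleSpace U) :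
    ∃ D : E → E → H, (∀ (x y : E) (α : Path x y), (∀ t, α t ∈ U) → W x y α = D x y) := by
  classical
  refine ⟨fun x y => if h : ∃ α : Path x y, ∀ t, α t ∈ U then W x y h.choose else 1, ?_⟩
  intro x y α hα
  have h : ∃ α : Path x y, ∀ t, α t ∈ U := ⟨α, hα⟩
  simp only [dif_pos h]
  exact hW x y _ _ (Nerve_homotopic U α h.choose hα h.choose_spec)

theorem Nerve_joined {E : Type} [TopologicalSpace E] (U : Set E) (hU : ContractibleSpace U)
    {x y : E} (hx : x ∈ U) (hy : y ∈ U) : ∃ α : Path x y, ∀ t, α t ∈ U := by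
  have h : IsPathConnected U := isPathConnected_iff_pathConnectedSpace.mpr inferInstance
  exact h.joinedIn x hx y hy

theorem simplyConnected_of_nerve {E P : Type} [TopologicalSpace E] [PathConnectedSpace E]
    (le : P → P → Prop) (htr : ∀ p q r, le p q → le q r → le p r) (hre : ∀ p, le p p) (r : E → P)
    (ho : ∀ p, IsOpen {x | le (r x) p}) (hc : ∀ p, ContractibleSpace {x | le (r x) p})
    (h : ∀ (H : Type) [Group H] (φ : P → P → H),
      (∀ p q s, le s q → le q p → φ p s = φ p q * φ q s) →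
      ∃ F : P → H, ∀ p q, le q p → φ p q = F p * (F q)⁻¹) :
    SimplyConnectedSpace E := by
  obtain ⟨H, _, W, hWt, hWh, hW1⟩ := Nerve_W E
  choose D hD using fun p => Nerve_D W hWh {x | le (r x) p} (hc p)
  have hb : ∀ p, ∃ x, le (r x) p := fun p => by
    have := hc p
    obtain ⟨x⟩ : Nonempty {x | le (r x) p} := inferInstance
    exact ⟨x.1, x.2⟩
  choose b hb using hb
  have hmul : ∀ p x y z, le (r x) p → le (r y) p → le (r z) p →
      D p x z = D p x y * D p y z := by
    intro p x y z hx hy hz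
    obtain ⟨α, hα⟩ := Nerve_joined _ (hc p) hx hy
    obtain ⟨β, hβ⟩ := Nerve_joined _ (hc p) hy hz
    rw [← hD p x y α hα, ← hD p y z β hβ, ← hWt, hD p x z (α.trans β)]
    intro t
    have ht : (α.trans β) t ∈ Set.range (α.trans β) := ⟨t, rfl⟩
    rw [Path.trans_range] at ht
    rcases ht with ⟨s, hs⟩ | ⟨s, hs⟩
    · rw [← hs]; exact hα s
    · rw [← hs]; exact hβ s
  have hres : ∀ p q x y, le q p → le (r x) q → le (r y) q → D p x y = D q x y := by
    intro p q x y hqp hx hy
    obtain ⟨α, hα⟩ := Nerve_joined _ (hc q) hx hy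
    rw [← hD q x y α hα, ← hD p x y α (fun t => htr _ _ _ (hα t) hqp)]
  obtain ⟨F, hF⟩ := h H (fun p q => D p (b p) (b q)) (by
    intro p q s hsq hqp
    rw [hmul p (b p) (b q) (b s) (hb p) (htr _ _ _ (hb q) hqp)
      (htr _ _ _ (htr _ _ _ (hb s) hsq) hqp), hres p q (b q) (b s) hqp (hb q)
      (htr _ _ _ (hb s) hsq)])
  let L : E → H := fun x => (F (r x))⁻¹ * D (r x) (b (r x)) x
  have hL : ∀ p x, le (r x) p → L x = (F p)⁻¹ * D p (b p) x := by
    intro p x hx
    rw [hmul p (b p) (b (r x)) x (hb p) (htr _ _ _ (hb _) hx) hx, hF p (r x) hx,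
      hres p (r x) (b (r x)) x hx (hb _) (hre _)]
    simp [L, mul_assoc]
  have hloc : ∀ p x y (α : Path x y), (∀ t, le (r (α t)) p) → L x * W x y α = L y := by
    intro p x y α hα
    have hx : le (r x) p := by simpa using hα 0
    have hy : le (r y) p := by simpa using hα 1
    rw [hL p x hx, hL p y hy, hD p x y α hα, hmul p (b p) x y (hb p) hx hy, mul_assoc]
  have hcast : ∀ (x y x' y' : E) (hx : x' = x) (hy : y' = y) (α : Path x y),
      W x' y' (α.cast hx hy) = W x y α := by
    intro x y x' y' hx hy α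
    subst hx hy
    rfl
  rw [simply_connected_iff_loops_nullhomotopic]
  refine ⟨inferInstance, fun x α => hW1 x α ?_⟩
  obtain ⟨t, ht0, htm, ⟨n, hn⟩, hti⟩ := exists_monotone_Icc_subset_open_cover_unitInterval
    (c := fun p => α ⁻¹' {x | le (r x) p}) (fun p => (ho p).preimage α.continuous)
    (fun s _ => Set.mem_iUnion.mpr ⟨r (α s), hre _⟩)
  have hind : ∀ m, L (α 0) * W _ _ (α.subpath 0 (t m)) = L (α (t m)) := by
    intro m
    induction m with
    | zero =>
      refine hloc (r (α 0)) _ _ _ fun s => ?_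
      have hs : α.subpath 0 (t 0) s ∈ Set.range (α.subpath 0 (t 0)) := ⟨s, rfl⟩
      rw [Path.range_subpath] at hs
      obtain ⟨u, hu, hus⟩ := hs
      have : u = 0 := by simpa [ht0] using hu
      rw [← hus, this]
      exact hre _
    | succ m ih =>
      obtain ⟨p, hp⟩ := hti m
      rw [← hWh _ _ _ _ ⟨Path.Homotopy.subpathTransSubpath α 0 (t m) (t (m + 1))⟩, hWt,
        ← mul_assoc, ih]
      refine hloc p _ _ _ fun s => ?_
      have hs : α.subpath (t m) (t (m + 1)) s ∈ Set.range (α.subpath (t m) (t (m + 1))) :=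
        ⟨s, rfl⟩
      rw [Path.range_subpath_of_le _ _ _ (htm (Nat.le_succ m))] at hs
      obtain ⟨u, hu, hus⟩ := hs
      rw [← hus]
      exact hp hu
  have hfin := hind n
  rw [hn n le_rfl, Path.subpath_zero_one, hcast] at hfin
  simpa using hfin

end Pool.Agent.Work.MP_735653_gt
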