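import Pool.Agent.Work.MP_735653_gt.SubLin

/-! Barycentric subdivision of singular chains. -/

set_option autoImplicit false

namespace Pool.Agent.Work.MP_735653_gt

open Finsupp Pool.Agent.Lib.RipsHom

section aux

variable {V M : Type} [AddCommGroup M]

theorem mem_on_subdiv {K : Set (List V)} {S : Submodule ℤ M} (F : Ch ℤ V →ₗ[ℤ] M)
    (h : ∀ l ∈ K, F (single l 1) ∈ S) : ∀ c ∈ C ℤ K, F c ∈ S := by
  refine C_induction (by simp) (fun x y hx hy => by rw [map_add]; exact S.add_mem hx hy) ?_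
  intro l hl r
  have : single l r = r • single l (1 : ℤ) := by simp
  rw [this, map_smul]
  exact S.smul_mem _ (h l hl)

theorem eq_on_subdiv {K : Set (List V)} (F G : Ch ℤ V →ₗ[ℤ] M)
    (h : ∀ l ∈ K, F (single l 1) = G (single l 1)) : ∀ c ∈ C ℤ K, F c = G c :=
  mem_on_subdiv (S := LinearMap.eqLocus F G) LinearMap.id h

theorem exists_ofFn_subdiv (l : List V) : ∃ (n : ℕ) (v : Fin n → V), List.ofFn v = l :=
  ⟨_, l.get, List.ofFn_get l⟩

theorem bdL_ofFn_subdiv {n : ℕ} (v : Fin (n + 1) → V) :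
    bdL ℤ (List.ofFn v) =
      ∑ i : Fin (n + 1), (-1 : ℤ) ^ (i : ℕ) • single (List.ofFn (v ∘ i.succAbove)) 1 := by
  induction n with
  | zero => simp [bdL]
  | succ n ih =>
    rw [List.ofFn_succ, bdL, ih, Fin.sum_univ_succ (n := n + 1), map_sum, sub_eq_add_neg,
      ← Finset.sum_neg_distrib]
    congr 1
    · simp [Function.comp_def]
    · refine Finset.sum_congr rfl fun i _ => ?_
      rw [map_smul, cone_single, Fin.val_succ, pow_succ, mul_neg_one, neg_smul,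
        List.ofFn_succ (f := v ∘ i.succ.succAbove)]
      simp [Function.comp_def]

end aux

variable {X : Type} [TopologicalSpace X] {ι : Type} [Fintype ι]

/-- The affine simplex spanned by points of a standard simplex. -/
noncomputable def affS {κ : Type} [Fintype κ] (v : κ → ι → ℝ) (hv : ∀ i, v i ∈ stdSimplex ℝ ι) :
    C(stdSimplex ℝ κ, stdSimplex ℝ ι) :=
  ⟨fun t => ⟨Fintype.linearCombination ℝ v t.1,
      (convex_stdSimplex ℝ ι).sum_mem (fun i _ => t.2.1 i) t.2.2 fun i _ => hv i⟩,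
    (((Fintype.linearCombination ℝ v).continuous_of_finiteDimensional).comp
      continuous_subtype_val).subtype_mk _⟩

open Classical in
/-- The singular simplex of a tuple of points. -/
noncomputable def tupS (s : C(stdSimplex ℝ ι, X)) : (Σ n : ℕ, Fin n → ι → ℝ) → SC X
  | ⟨0, _⟩ => 0
  | ⟨k + 1, v⟩ => if h : ∀ i, v i ∈ stdSimplex ℝ ι then single ⟨k, s.comp (affS v h)⟩ 1 else 0

/-- Realisation of linear chains in a singular simplex. -/
noncomputable def rea (s : C(stdSimplex ℝ ι, X)) : Ch ℤ (ι → ℝ) →ₗ[ℤ] SC X :=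
  linearCombination ℤ fun l => tupS s (List.equivSigmaTuple l)

theorem rea_ofFn (s : C(stdSimplex ℝ ι, X)) {n : ℕ} (v : Fin n → ι → ℝ) :
    rea s (single (List.ofFn v) 1) = tupS s ⟨n, v⟩ := by
  rw [rea, linearCombination_single, one_smul]
  exact congrArg _ (List.equivSigmaTuple.apply_symm_apply ⟨n, v⟩)

theorem rea_succ (s : C(stdSimplex ℝ ι, X)) {k : ℕ} (v : Fin (k + 1) → ι → ℝ)
    (hv : ∀ i, v i ∈ stdSimplex ℝ ι) :
    rea s (single (List.ofFn v) 1) = single ⟨k, s.comp (affS v hv)⟩ 1 := by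
  rw [rea_ofFn, tupS, dif_pos hv]

theorem rea_nil (s : C(stdSimplex ℝ ι, X)) : rea s (single [] 1) = 0 :=
  rea_ofFn s (n := 0) Fin.elim0

theorem rea_mem (s : C(stdSimplex ℝ ι, X)) {K : Set (List (ι → ℝ))} {P : Set (Sx X)}
    (h : ∀ (k : ℕ) (v : Fin (k + 1) → ι → ℝ) (hv : ∀ i, v i ∈ stdSimplex ℝ ι),
      List.ofFn v ∈ K → (⟨k, s.comp (affS v hv)⟩ : Sx X) ∈ P) :
    ∀ c ∈ C ℤ K, rea s c ∈ supported ℤ ℤ P := by
  refine mem_on_subdiv _ fun l hl => ?_
  obtain ⟨_ | k, v, rfl⟩ := exists_ofFn_subdiv l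
  · rw [List.ofFn_zero, rea_nil]
    exact zero_mem _
  · by_cases hv : ∀ i, v i ∈ stdSimplex ℝ ι
    · rw [rea_succ s v hv]
      exact single_mem_supported ℤ _ (h k v hv hl)
    · rw [rea_ofFn, tupS, dif_neg hv]
      exact zero_mem _

theorem mem_of_full_subdiv {V : Type} {A : Set V} {n : ℕ} {v : Fin n → V}
    (h : List.ofFn v ∈ Full A) (i : Fin n) : v i ∈ A := h _ (List.mem_ofFn.2 ⟨i, rfl⟩)

theorem face_affS (s : C(stdSimplex ℝ ι, X)) {k : ℕ} (v : Fin (k + 2) → ι → ℝ)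
    (hv : ∀ i, v i ∈ stdSimplex ℝ ι) (i : Fin (k + 2)) :
    face (s.comp (affS v hv)) i = s.comp (affS (v ∘ i.succAbove) fun _ => hv _) := by
  have h : (Fintype.linearCombination ℝ v).comp (FunOnFinite.linearMap ℝ ℝ i.succAbove) =
      Fintype.linearCombination ℝ (v ∘ i.succAbove) := by
    refine (Pi.basisFun ℝ _).ext fun j => ?_
    simp
  ext t
  exact congrArg s (Subtype.ext (LinearMap.congr_fun h t.1))

theorem sbd_rea (s : C(stdSimplex ℝ ι, X)) :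
    ∀ c ∈ C ℤ (Full (stdSimplex ℝ ι)), sbd X (rea s c) = rea s (bd ℤ c) := by
  refine eq_on_subdiv (sbd X ∘ₗ rea s) (rea s ∘ₗ bd ℤ) fun l hl => ?_
  simp only [LinearMap.comp_apply, bd_single, one_smul]
  obtain ⟨_ | k, v, rfl⟩ := exists_ofFn_subdiv l
  · simp [rea_nil, bdL]
  have hv := mem_of_full_subdiv hl
  rw [rea_succ s v hv, sbd, linearCombination_single, one_smul, bdL_ofFn_subdiv, map_sum]
  cases k with
  | zero => simp [sbd1, rea_nil]
  | succ k =>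
    rw [sbd1]
    refine Finset.sum_congr rfl fun i _ => ?_
    rw [map_smul, rea_succ s (v ∘ i.succAbove) fun _ => hv _, face_affS]

theorem rea_comp (s : C(stdSimplex ℝ ι, X)) {κ : Type} [Fintype κ] (v : κ → ι → ℝ)
    (hv : ∀ i, v i ∈ stdSimplex ℝ ι) : ∀ c ∈ C ℤ (Full (stdSimplex ℝ κ)),
      rea (s.comp (affS v hv)) c = rea s (push (Fintype.linearCombination ℝ v) c) := by
  refine eq_on_subdiv _ (rea s ∘ₗ push (Fintype.linearCombination ℝ v)) fun l hl => ?_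
  simp only [LinearMap.comp_apply, push_single]
  obtain ⟨_ | k, w, rfl⟩ := exists_ofFn_subdiv l
  · simp [rea_nil]
  have hw := mem_of_full_subdiv hl
  rw [List.map_ofFn, rea_succ _ w hw, rea_succ s (Fintype.linearCombination ℝ v ∘ w)
    fun i => (affS v hv ⟨w i, hw i⟩).2]
  congr 2
  ext t
  refine congrArg s (Subtype.ext ?_)
  change Fintype.linearCombination ℝ v (Fintype.linearCombination ℝ w t.1) =
    Fintype.linearCombination ℝ (Fintype.linearCombination ℝ v ∘ w) t.1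
  rw [Fintype.linearCombination_apply ℝ w, map_sum, Fintype.linearCombination_apply]
  simp

/-- The vertices of the standard simplex. -/
noncomputable def stdL (n : ℕ) : List (Fin n → ℝ) := List.ofFn fun i => Pi.single i 1

theorem stdL_mem (n : ℕ) : stdL n ∈ Full (stdSimplex ℝ (Fin n)) := by
  intro x hx
  obtain ⟨i, rfl⟩ := List.mem_ofFn.1 hx
  exact single_mem_stdSimplex ℝ i

theorem rea_stdL (s : Sx X) : rea s.2 (single (stdL (s.1 + 1)) 1) = single s 1 := by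
  obtain ⟨q, s⟩ := s
  rw [stdL, rea_succ s _ fun i => single_mem_stdSimplex ℝ i]
  congr 2
  ext t
  refine congrArg s (Subtype.ext ?_)
  change Fintype.linearCombination ℝ (fun i => Pi.single i 1) t.1 = t.1
  rw [Fintype.linearCombination_apply]
  exact (pi_eq_sum_univ' t.1).symm

variable (X) in
/-- An operator on linear chains, transported to singular chains. -/
noncomputable def liftOp (op : ∀ (ι : Type) [Fintype ι], Ch ℤ (ι → ℝ) →ₗ[ℤ] Ch ℤ (ι → ℝ)) :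
    SC X →ₗ[ℤ] SC X :=
  linearCombination ℤ fun s : Sx X => rea s.2 (op (Fin (s.1 + 1)) (single (stdL (s.1 + 1)) 1))

theorem liftOp_rea {op : ∀ (ι : Type) [Fintype ι], Ch ℤ (ι → ℝ) →ₗ[ℤ] Ch ℤ (ι → ℝ)}
    (hnat : ∀ (ι ι' : Type) [Fintype ι] [Fintype ι'] (f : (ι → ℝ) →ₗ[ℝ] (ι' → ℝ))
      (c : Ch ℤ (ι → ℝ)), push f (op ι c) = op ι' (push f c))
    (hmem : ∀ (ι : Type) [Fintype ι], ∀ c ∈ C ℤ (Full (stdSimplex ℝ ι)),
      op ι c ∈ C ℤ (Full (stdSimplex ℝ ι)))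
    (s : C(stdSimplex ℝ ι, X)) (hnil : rea s (op ι (single [] 1)) = 0) :
    ∀ c ∈ C ℤ (Full (stdSimplex ℝ ι)), liftOp X op (rea s c) = rea s (op ι c) := by
  refine eq_on_subdiv (liftOp X op ∘ₗ rea s) (rea s ∘ₗ op ι) fun l hl => ?_
  simp only [LinearMap.comp_apply]
  obtain ⟨_ | k, v, rfl⟩ := exists_ofFn_subdiv l
  · simp [rea_nil, hnil]
  have hv := mem_of_full_subdiv hl
  rw [rea_succ s v hv, liftOp, linearCombination_single, one_smul,
    rea_comp s v hv _ (hmem _ _ (single_mem (stdL_mem _) _)), hnat, push_single, stdL,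
    List.map_ofFn]
  congr 4
  funext i
  simp

theorem ext_sx_subdiv {M : Type} [AddCommGroup M] (F G : SC X →ₗ[ℤ] M)
    (h : ∀ s, F (single s 1) = G (single s 1)) (x : SC X) : F x = G x :=
  LinearMap.congr_fun (Finsupp.lhom_ext' fun s => LinearMap.ext_ring (h s)) x

theorem mem_sx_subdiv {P : Set (Sx X)} {S : Submodule ℤ (SC X)} (F : SC X →ₗ[ℤ] SC X)
    (h : ∀ s ∈ P, F (single s 1) ∈ S) : ∀ x ∈ supported ℤ ℤ P, F x ∈ S := by
  intro x hx
  rw [supported_eq_span_single] at hx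
  refine (Submodule.span_le (p := S.comap F)).2 ?_ hx
  rintro _ ⟨s, hs, rfl⟩
  exact h s hs

theorem exists_subdiv (X : Type) [TopologicalSpace X] :
    ∃ Sd T : SC X →ₗ[ℤ] SC X, (∀ x, sbd X (Sd x) = Sd (sbd X x)) ∧
      (∀ x, sbd X (T x) + T (sbd X x) = x - Sd x) ∧
      (∀ (V : Set X) (q : ℕ), ∀ x ∈ SCq V q, Sd x ∈ SCq V q ∧ T x ∈ SCq V (q + 1)) ∧
      ∀ (Y : Type) (U : Y → Set X), (∀ y, IsOpen (U y)) → ∀ s : Sx X, (∀ t, ∃ y, s.2 t ∈ U y) →
        ∃ N : ℕ, (Sd ^ N) (single s 1) ∈ Small U s.1 := by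
  obtain ⟨sd, tt, h1, h2, h3, h4, h5, h6⟩ := exists_subdivLin
  have hd : ∀ (ι : Type) [Fintype ι] (l : List (ι → ℝ)), l ∈ Full (stdSimplex ℝ ι) →
      ∀ x ∈ l, ∀ y ∈ l, dist x y ≤ 1 := fun ι _ l hl x hx y hy =>
    (Metric.dist_le_diam_of_mem (bounded_stdSimplex ι) (hl x hx) (hl y hy)).trans
      diam_stdSimplex_le
  have hsd := fun (ι : Type) [Fintype ι] (l : List (ι → ℝ)) (hl : l ∈ Full (stdSimplex ℝ ι)) =>
    h6 ι _ (convex_stdSimplex ℝ ι) l 1 hl (hd ι l hl)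
  have htt := fun (ι : Type) [Fintype ι] (l : List (ι → ℝ)) (hl : l ∈ Full (stdSimplex ℝ ι)) =>
    h5 ι _ (convex_stdSimplex ℝ ι) l hl
  have msd : ∀ (ι : Type) [Fintype ι], ∀ c ∈ C ℤ (Full (stdSimplex ℝ ι)),
      sd ι c ∈ C ℤ (Full (stdSimplex ℝ ι)) := fun ι _ =>
    map_mem _ fun l hl => C_mono (fun _ h => h.2.1) (hsd ι l hl)
  have mtt : ∀ (ι : Type) [Fintype ι], ∀ c ∈ C ℤ (Full (stdSimplex ℝ ι)),
      tt ι c ∈ C ℤ (Full (stdSimplex ℝ ι)) := fun ι _ =>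
    map_mem _ fun l hl => C_mono (fun _ h => h.2) (htt ι l hl)
  have kS : ∀ s : Sx X, ∀ c ∈ C ℤ (Full (stdSimplex ℝ (Fin (s.1 + 1)))),
      liftOp X sd (rea s.2 c) = rea s.2 (sd _ c) := fun s =>
    liftOp_rea (fun ι ι' _ _ f c => (h4 ι ι' f c).1) msd s.2
      (eq_on_subdiv (rea s.2) 0 (fun l hl => by
        rw [List.length_eq_zero_iff.1 hl.1, rea_nil, LinearMap.zero_apply]) _
        (hsd _ [] (by simp [Full])))
  have kT : ∀ s : Sx X, ∀ c ∈ C ℤ (Full (stdSimplex ℝ (Fin (s.1 + 1)))),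
      liftOp X tt (rea s.2 c) = rea s.2 (tt _ c) := fun s =>
    liftOp_rea (fun ι ι' _ _ f c => (h4 ι ι' f c).2) mtt s.2 (by rw [h3, map_zero])
  have hstd : ∀ n, single (stdL n) (1 : ℤ) ∈ C ℤ (Full (stdSimplex ℝ (Fin n))) := fun n =>
    single_mem (stdL_mem n) _
  have hbd : ∀ n, bd ℤ (single (stdL n) (1 : ℤ)) ∈ C ℤ (Full (stdSimplex ℝ (Fin n))) := fun n =>
    Down.bd_mem (K := Full _) (fun l hl m hm a ha => hl a (hm.subset ha)) _ (hstd n)
  have hlen : ∀ n, (stdL n).length = n := fun n => List.length_ofFn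
  refine ⟨liftOp X sd, liftOp X tt,
    ext_sx_subdiv (sbd X ∘ₗ liftOp X sd) (liftOp X sd ∘ₗ sbd X) fun s => ?_,
    ext_sx_subdiv (sbd X ∘ₗ liftOp X tt + liftOp X tt ∘ₗ sbd X) (LinearMap.id - liftOp X sd)
      fun s => ?_, fun V q x hx => ⟨mem_sx_subdiv _ ?_ x hx, mem_sx_subdiv _ ?_ x hx⟩,
    fun Y U hU s hc => ?_⟩
  · simp only [LinearMap.comp_apply]
    rw [← rea_stdL, kS s _ (hstd _), sbd_rea _ _ (msd _ _ (hstd _)), sbd_rea _ _ (hstd _),
      kS s _ (hbd _), h1]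
  · simp only [LinearMap.add_apply, LinearMap.comp_apply, LinearMap.sub_apply, LinearMap.id_apply]
    rw [← rea_stdL, kS s _ (hstd _), kT s _ (hstd _), sbd_rea _ _ (mtt _ _ (hstd _)),
      sbd_rea _ _ (hstd _), kT s _ (hbd _), ← map_add, h2, map_sub]
  · rintro s ⟨rfl, hs⟩
    rw [← rea_stdL, kS s _ (hstd _)]
    refine rea_mem s.2 (fun k v hv h => And.intro ?_ ?_) _ (hsd _ _ (stdL_mem _))
    · simpa [hlen] using h.1
    · rintro _ ⟨t, rfl⟩
      exact hs ⟨_, rfl⟩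
  · rintro s ⟨rfl, hs⟩
    rw [← rea_stdL, kT s _ (hstd _)]
    refine rea_mem s.2 (fun k v hv h => And.intro ?_ ?_) _ (htt _ _ (stdL_mem _))
    · simpa [hlen] using h.1
    · rintro _ ⟨t, rfl⟩
      exact hs ⟨_, rfl⟩
  · set ρ : ℝ := 1 - 1 / ((s.1 + 1 : ℕ) + 1 : ℝ) with hρ
    have hpow : ∀ N : ℕ, (sd _ ^ N) (single (stdL (s.1 + 1)) 1) ∈
        C ℤ {l | l.length = s.1 + 1 ∧ l ∈ Full (stdSimplex ℝ (Fin (s.1 + 1))) ∧
          ∀ x ∈ l, ∀ y ∈ l, dist x y ≤ ρ ^ N} ∧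
        (liftOp X sd ^ N) (single s 1) = rea s.2 ((sd _ ^ N) (single (stdL (s.1 + 1)) 1)) := by
      intro N
      induction N with
      | zero =>
        refine ⟨single_mem (And.intro (hlen _) ⟨stdL_mem _, ?_⟩) _, (rea_stdL s).symm⟩
        rw [pow_zero]
        exact hd _ _ (stdL_mem _)
      | succ N ih =>
        rw [pow_succ', pow_succ', pow_succ', Module.End.mul_apply, Module.End.mul_apply, ih.2]
        refine ⟨map_mem _ (fun l hl => C_mono (fun l' hl' => ?_)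
          (h6 _ _ (convex_stdSimplex ℝ _) l _ hl.2.1 hl.2.2)) _ ih.1,
          kS s _ (C_mono (fun _ h => h.2.1) ih.1)⟩
        refine ⟨hl'.1.trans hl.1, hl'.2.1, ?_⟩
        have := hl'.2.2
        rwa [hl.1] at this
    obtain ⟨δ, hδ, hL⟩ := lebesgue_number_lemma_of_metric (s := Set.univ)
      (c := fun y => s.2 ⁻¹' U y) isCompact_univ (fun y => (hU y).preimage s.2.continuous)
      fun t _ => Set.mem_iUnion.2 (hc _)
    obtain ⟨N, hN⟩ := exists_pow_lt_of_lt_one hδ (show ρ < 1 from sub_lt_self _ (by positivity))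
    refine ⟨N, ?_⟩
    rw [(hpow N).2]
    refine rea_mem s.2 (fun k v hv h => And.intro ?_ ?_) _ (hpow N).1
    · simpa using h.1
    · obtain ⟨y, hy⟩ := hL ⟨v 0, hv 0⟩ (Set.mem_univ _)
      refine ⟨y, ?_⟩
      rintro _ ⟨t, rfl⟩
      refine hy (lt_of_le_of_lt ?_ hN)
      have hb := (convex_closedBall (v 0) (ρ ^ N)).sum_mem (z := v) (fun i _ => t.2.1 i) t.2.2
        fun i _ => h.2.2 _ (List.mem_ofFn.2 ⟨i, rfl⟩) _ (List.mem_ofFn.2 ⟨0, rfl⟩)
      rw [Metric.mem_closedBall] at hb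
      rw [Subtype.dist_eq]
      exact hb

end Pool.Agent.Work.MP_735653_gt
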