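import Pool.Agent.Work.MP_735653_gt.Defs

/-! Auxiliary definitions for operators on Hilbert modules. -/

namespace Pool.Agent.Work.MP_735653_gt

section

variable (G : Type) [Group G]

/-- the group von Neumann algebra: bounded equivariant operators on `ℓ²(G)` -/
noncomputable abbrev VN : Subring (L2 G →L[ℂ] L2 G) := Subring.centralizer (Set.range lam)

/-- the embedding of the group ring, `g ↦ rho g` -/
noncomputable def toVN : ZG G →+* VN G :=
  (MonoidAlgebra.lift ℤ (VN G) G
    { toFun := fun g => ⟨rho g, by
        rintro _ ⟨h, rfl⟩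
        ext v x
        exact congrArg v (mul_assoc _ _ _)⟩
      map_one' := by
        ext v x
        exact congrArg v (mul_one _)
      map_mul' := fun g h => by
        ext v x
        exact congrArg v (mul_assoc _ _ _).symm }).toRingHom

end

/-- `U` is the ring of fractions of `R` with respect to all non-zero-divisors; for the group von
Neumann algebra this is the algebra of affiliated operators -/
structure IsFrac {R U : Type} [Ring R] [Ring U] (j : R →+* U) : Prop where
  inj : Function.Injective j
  unit : ∀ s ∈ nonZeroDivisors R, IsUnit (j s)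
  frac : ∀ u : U, ∃ a : R, ∃ s ∈ nonZeroDivisors R, u * j s = j a

section

variable {G : Type} [Group G]

/-- the involution of the group ring, as a map to the opposite ring -/
noncomputable def barH (G : Type) [Group G] : ZG G →+* (ZG G)ᵐᵒᵖ :=
  (MonoidAlgebra.lift ℤ (ZG G)ᵐᵒᵖ G
    { toFun := fun g => MulOpposite.op (MonoidAlgebra.single g⁻¹ 1)
      map_one' := by rw [inv_one]; rfl
      map_mul' := fun g h => by
        rw [← MulOpposite.op_mul, MonoidAlgebra.single_mul_single, mul_inv_rev, one_mul] }).toRingHom

/-- the involution of the group ring -/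
noncomputable def bar (a : ZG G) : ZG G := (barH G a).unop

/-- conjugate transpose over the group ring -/
noncomputable def ct {I J : Type} (A : Matrix I J (ZG G)) : Matrix J I (ZG G) :=
  fun j i => bar (A i j)

theorem bar_single (g : G) (c : ℤ) :
    bar (MonoidAlgebra.single g c) = MonoidAlgebra.single g⁻¹ c := by
  have h : barH G (MonoidAlgebra.single g c) =
      c • MulOpposite.op (MonoidAlgebra.single g⁻¹ (1 : ℤ) : ZG G) := MonoidAlgebra.lift_single _ _ _
  rw [bar, h, MulOpposite.unop_smul, MulOpposite.unop_op, MonoidAlgebra.smul_single, smul_eq_mul,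
    mul_one]

theorem bar_mul (a b : ZG G) : bar (a * b) = bar b * bar a := by simp [bar]

theorem bar_add (a b : ZG G) : bar (a + b) = bar a + bar b := by simp [bar]

theorem bar_neg (a : ZG G) : bar (-a) = -bar a := by simp [bar]

theorem bar_sub (a b : ZG G) : bar (a - b) = bar a - bar b := by simp [bar]

theorem bar_zero : bar (0 : ZG G) = 0 := by simp [bar]

theorem bar_one : bar (1 : ZG G) = 1 := by simp [bar]

theorem bar_sum {ι : Type} (s : Finset ι) (f : ι → ZG G) :
    bar (∑ i ∈ s, f i) = ∑ i ∈ s, bar (f i) := by simp [bar]

theorem bar_bar (a : ZG G) : bar (bar a) = a := by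
  induction a using MonoidAlgebra.induction_linear with
  | zero => rw [bar_zero, bar_zero]
  | add a b ha hb => rw [bar_add, bar_add, ha, hb]
  | single g c => rw [bar_single, bar_single, inv_inv]

theorem bar_coeff (a : ZG G) (g : G) : (bar a).coeff g = a.coeff g⁻¹ := by
  classical
  induction a using MonoidAlgebra.induction_linear with
  | zero => rw [bar_zero]; rfl
  | add a b ha hb => simp [bar_add, ha, hb]
  | single h c =>
    rw [bar_single]
    simp only [MonoidAlgebra.coeff_single, Finsupp.single_apply, inv_eq_iff_eq_inv]

theorem ct_mul {I J K : Type} [Fintype J] (A : Matrix I J (ZG G)) (B : Matrix J K (ZG G)) :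
    ct (A * B) = ct B * ct A := by
  ext1 k i
  simp only [ct, Matrix.mul_apply, bar_sum, bar_mul]

theorem ct_ct {I J : Type} (A : Matrix I J (ZG G)) : ct (ct A) = A := by
  ext1 i j
  exact bar_bar _

end

section

variable {I J X Y : Type} [Fintype I] [Fintype J]

open Classical in
/-- point masses -/
noncomputable def dl (i : I) (x : X) : HS I X := PiLp.single 2 i (lp.single 2 x (1 : ℂ))

variable (I) in
/-- the diagonal operator -/
noncomputable def dg (T : L2 X →L[ℂ] L2 Y) : HS I X →L[ℂ] HS I Y :=
  (PiLp.continuousLinearEquiv 2 ℂ fun _ : I => L2 Y).symm.toContinuousLinearMap ∘L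
    ContinuousLinearMap.pi fun i => T ∘L PiLp.proj 2 (fun _ : I => L2 X) i

open Classical in
/-- the matrix of an operator -/
noncomputable def ent (T : HS I X →L[ℂ] HS J Y) : Matrix J I (L2 X →L[ℂ] L2 Y) := fun j i =>
  PiLp.proj 2 (fun _ : J => L2 Y) j ∘L T ∘L
    (PiLp.continuousLinearEquiv 2 ℂ fun _ : I => L2 X).symm.toContinuousLinearMap ∘L
      ContinuousLinearMap.single ℂ (fun _ : I => L2 X) i

/-- the squared norm of the projection of a point mass to the closure of a subspace -/
noncomputable def dwt (K : Submodule ℂ (HS I X)) (i : I) (x : X) : ℝ :=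
  ‖K.topologicalClosure.starProjection (dl i x)‖ ^ 2

variable {G : Type} [Group G]

/-- equivariant operators -/
def Eqv (T : HS I G →L[ℂ] HS J G) : Prop := ∀ g v, T (dg I (lam g) v) = dg J (lam g) (T v)

/-- invariant subspaces -/
def Inv (K : Submodule ℂ (HS I G)) : Prop := ∀ g, ∀ v ∈ K, dg I (lam g) v ∈ K

/-- the operator of a matrix over the von Neumann algebra -/
noncomputable def opN (M : Matrix J I (VN G)) : HS I G →L[ℂ] HS J G :=
  op (M.map fun a => (a : L2 G →L[ℂ] L2 G))

/-- the dimension of the kernel of a matrix over the von Neumann algebra -/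
noncomputable def kd (M : Matrix J I (VN G)) : ℝ := vnDim (opN M).ker

/-- the operator of a permutation -/
noncomputable def prm (e : Equiv.Perm X) : L2 X →L[ℂ] L2 X := res e.symm e.symm.injective

/-- the operator of a matrix over a group ring, for an action of the group -/
noncomputable def opA (a : G →* Equiv.Perm X) (B : Matrix J I (ZG G)) : HS I X →L[ℂ] HS J X :=
  op fun j i => (B j i).coeff.sum fun g c => (c : ℂ) • prm (a g)

/-- the action `x ↦ x * (φ g)⁻¹` -/
def rAct {F : Type} [Group F] (φ : F →* G) : F →* Equiv.Perm G where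
  toFun g := Equiv.mulRight (φ g)⁻¹
  map_one' := by ext; simp
  map_mul' g h := by ext; simp [mul_assoc]

/-- the projection to the functions supported on a set -/
noncomputable def ind (Z : Set X) : L2 X →L[ℂ] L2 X :=
  ContinuousLinearMap.adjoint (res (fun z : Z => (z : X)) Subtype.val_injective) ∘L
    res (fun z : Z => (z : X)) Subtype.val_injective

/-- the left translations and the projections to the level sets of `χ` -/
def lev (χ : G →* Multiplicative ℤ) : Set (L2 G →L[ℂ] L2 G) :=
  Set.range lam ∪ Set.range fun k => ind {x | χ x = k}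

end

/-- the nonzero elements of the subring have an inverse in the subring -/
def IsDiv {U : Type} [Ring U] (D : Subring U) : Prop :=
  ∀ x ∈ D, x ≠ 0 → ∃ y ∈ D, x * y = 1 ∧ y * x = 1

/-- the map of group rings -/
noncomputable abbrev mapG {F G : Type} [Group F] [Group G] (φ : F →* G) : ZG F →+* ZG G :=
  MonoidAlgebra.mapDomainRingHom ℤ φ

end Pool.Agent.Work.MP_735653_gt
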