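import Pool.Agent.Work.MP_735653_gt.CovB

/-! The neighbourhoods of closed cells are contractible. -/

namespace Pool.Agent.Work.MP_735653_gt

variable {D : ℕ} {G : Type} [Group G] {X : LC D G}

/-- the radius of the shrinking box -/
noncomputable def CovC_R (a : Cell D) (s : ℝ) (i : Fin D) : ℝ :=
  ((a i % 2 : ℤ) : ℝ) * min 1 (2 - 2 * s) + max 0 (1 / 2 - s)

/-- clamping to the shrinking box -/
noncomputable def CovC_cl (a : Cell D) (s : ℝ) (x : Fin D → ℝ) : Fin D → ℝ := fun i =>
  max ((a i : ℝ) - CovC_R a s i) (min ((a i : ℝ) + CovC_R a s i) (x i))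

theorem CovC_mod (a : Cell D) (i : Fin D) : (0 : ℝ) ≤ ((a i % 2 : ℤ) : ℝ) := by
  exact_mod_cast (by omega : 0 ≤ a i % 2)

theorem CovC_R_nonneg (a : Cell D) {s : ℝ} (hs : s ≤ 1) (i : Fin D) : 0 ≤ CovC_R a s i :=
  add_nonneg (mul_nonneg (CovC_mod a i) (le_min zero_le_one (by linarith))) (le_max_left _ _)

theorem CovC_cont (a : Cell D) :
    Continuous fun p : ℝ × (Fin D → ℝ) => CovC_cl a p.1 p.2 := by
  refine continuous_pi fun i => ?_
  simp only [CovC_cl, CovC_R]
  fun_prop

theorem CovC_rnd {a : Cell D} {s : ℝ} (hs : s ≤ 1) {x : Fin D → ℝ} (hx : Face (rnd x) a) :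
    Face (rnd (CovC_cl a s x)) a := by
  rw [rnd_face_iff] at hx ⊢
  intro i
  obtain ⟨h1, h2⟩ := hx i
  have h3 := CovC_R_nonneg a hs i
  have h4 := CovC_mod a i
  simp only [CovC_cl]
  rw [Int.cast_sub] at h1 ⊢
  rw [Int.cast_add] at h2 ⊢
  exact ⟨lt_max_of_lt_right (lt_min (by linarith) h1),
    max_lt (by linarith) (min_lt_of_right_lt h2)⟩

theorem CovC_mem {K : Finset (Cell D)} (hK : Down K) {a : Cell D} (ha : a ∈ K) {s : ℝ}
    (hs : s ≤ 1) {x : Fin D → ℝ} (hxK : x ∈ Re K) (hx : Face (rnd x) a) :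
    CovC_cl a s x ∈ Re K := by
  have h4 := CovC_mod a
  rcases le_total s (1 / 2) with h | h
  · refine hK _ hxK _ (cellOf_face_iff.2 fun i => ?_)
    obtain ⟨h1, h2⟩ := rnd_face_iff.1 hx i
    obtain ⟨h5, h6⟩ := cellOf_face_iff.1 (Face.refl (cellOf x)) i
    generalize cellOf x i - cellOf x i % 2 = L at *
    generalize cellOf x i + cellOf x i % 2 = U at *
    have e1 : L < a i + a i % 2 + 1 := by
      have : (L : ℝ) < ((a i + a i % 2 : ℤ) : ℝ) + 1 := by linarith
      exact_mod_cast this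
    have e2 : a i - a i % 2 < U + 1 := by
      have : ((a i - a i % 2 : ℤ) : ℝ) < U + 1 := by linarith
      exact_mod_cast this
    have e3 : (L : ℝ) ≤ ((a i + a i % 2 : ℤ) : ℝ) := by
      exact_mod_cast (by omega : L ≤ a i + a i % 2)
    have e4 : ((a i - a i % 2 : ℤ) : ℝ) ≤ U := by
      exact_mod_cast (by omega : a i - a i % 2 ≤ U)
    rw [Int.cast_add] at e3
    rw [Int.cast_sub] at e4
    have e5 : ((a i % 2 : ℤ) : ℝ) ≤ CovC_R a s i := by
      rw [CovC_R, min_eq_left (by linarith), mul_one]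
      exact le_add_of_nonneg_right (le_max_left _ _)
    simp only [CovC_cl]
    exact ⟨le_max_of_le_right (le_min (by linarith) h5),
      max_le (by linarith) (min_le_of_right_le h6)⟩
  · refine hK _ ha _ (cellOf_face_iff.2 fun i => ?_)
    have h3 := CovC_R_nonneg a hs i
    have e5 : CovC_R a s i ≤ ((a i % 2 : ℤ) : ℝ) := by
      rw [CovC_R, max_eq_left (by linarith), add_zero]
      exact mul_le_of_le_one_right (h4 i) (min_le_left _ _)
    simp only [CovC_cl]
    rw [Int.cast_sub, Int.cast_add]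
    exact ⟨le_max_of_le_left (by linarith),
      max_le (by linarith) (min_le_of_left_le (by linarith))⟩

theorem CovC_zero {a : Cell D} {x : Fin D → ℝ} (hx : Face (rnd x) a) : CovC_cl a 0 x = x := by
  funext i
  obtain ⟨h1, h2⟩ := rnd_face_iff.1 hx i
  rw [Int.cast_sub] at h1
  rw [Int.cast_add] at h2
  have e : CovC_R a 0 i = ((a i % 2 : ℤ) : ℝ) + 1 / 2 := by
    rw [CovC_R, min_eq_left (by norm_num), max_eq_right (by norm_num)]
    ring
  simp only [CovC_cl, e]
  rw [min_eq_right (by linarith), max_eq_right (by linarith)]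

theorem CovC_one (a : Cell D) (x : Fin D → ℝ) : CovC_cl a 1 x = fun i => (a i : ℝ) := by
  funext i
  have e : CovC_R a 1 i = 0 := by
    rw [CovC_R, min_eq_right (by norm_num), max_eq_left (by norm_num)]
    ring
  simp only [CovC_cl, e, sub_zero, add_zero]
  exact max_eq_left (min_le_left _ _)

theorem contractible_base {K : Finset (Cell D)} (hK : Down K) {a : Cell D} (ha : a ∈ K) :
    ContractibleSpace {x : Re K | Face (rnd x.1) a} := by
  have h0 : (fun i => (a i : ℝ)) ∈ Re K := by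
    change cellOf _ ∈ K
    rwa [cellOf_cast]
  have h1 : Face (rnd fun i => (a i : ℝ)) a := by
    rw [rnd_cast]
    exact Face.refl a
  refine (contractible_iff_id_nullhomotopic _).2 ⟨⟨⟨_, h0⟩, h1⟩, ⟨?_⟩⟩
  exact
    { toFun := fun p => ⟨⟨CovC_cl a p.1 p.2.1.1, CovC_mem hK ha p.1.2.2 p.2.1.2 p.2.2⟩,
        CovC_rnd p.1.2.2 p.2.2⟩
      continuous_toFun := by
        refine Continuous.subtype_mk (Continuous.subtype_mk ?_ _) _
        exact (CovC_cont a).comp ((continuous_subtype_val.comp continuous_fst).prodMk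
          (continuous_subtype_val.comp (continuous_subtype_val.comp continuous_snd)))
      map_zero_left := fun x => Subtype.ext (Subtype.ext (CovC_zero x.2))
      map_one_left := fun x => Subtype.ext (Subtype.ext (CovC_one a _)) }

/-- the section over the neighbourhood of a closed cell -/
noncomputable def CovC_sec (c : CC X) (x : Re X.K) : Cov X :=
  ⟨c.1 * X.μ c.2.1 (rnd x.1) * (X.μ (cellOf x.1) (rnd x.1))⁻¹, x⟩

theorem CovC_sec_cont (c : CC X) :
    Continuous fun x : {x : Re X.K | Face (rnd x.1) c.2.1} => CovC_sec c x.1 := by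
  refine continuous_lift _ continuous_subtype_val fun z => ?_
  have hc : Continuous fun w : {x : Re X.K | Face (rnd x.1) c.2.1} => w.1.1 :=
    continuous_subtype_val.comp continuous_subtype_val
  filter_upwards [hc.continuousAt.eventually (eventually_face z.1.1),
    hc.continuousAt.eventually (eventually_rnd z.1.1)] with w hw hw'
  refine ⟨hw, ?_⟩
  change c.1 * X.μ c.2.1 (rnd z.1.1) * (X.μ (cellOf z.1.1) (rnd z.1.1))⁻¹ =
    c.1 * X.μ c.2.1 (rnd w.1.1) * (X.μ (cellOf w.1.1) (rnd w.1.1))⁻¹ *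
      X.μ (cellOf w.1.1) (cellOf z.1.1)
  rw [X.coc _ c.2.2 _ _ z.2 hw', X.coc _ w.1.2 _ _ hw ((hw'.trans (rnd_face _))),
    X.coc _ z.1.2 _ _ (rnd_face _) hw']
  group

theorem contractible_Uc (c : CC X) : ContractibleSpace (Uc X c) := by
  have := contractible_base X.down c.2.2
  let e : Uc X c ≃ₜ {x : Re X.K | Face (rnd x.1) c.2.1} :=
    { toFun := fun p => ⟨p.1.x, p.2.1⟩
      invFun := fun x => ⟨CovC_sec c x.1, x.2, inv_mul_cancel_right _ _⟩
      left_inv := fun p => by
        refine Subtype.ext ?_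
        have h : p.1.g * X.μ (cellOf p.1.x.1) (rnd p.1.x.1) = c.1 * X.μ c.2.1 (rnd p.1.x.1) :=
          p.2.2
        change Cov.mk (c.1 * X.μ c.2.1 (rnd p.1.x.1) *
          (X.μ (cellOf p.1.x.1) (rnd p.1.x.1))⁻¹) p.1.x = p.1
        rw [← h, mul_inv_cancel_right]
      right_inv := fun x => rfl
      continuous_toFun := (Cov.continuous_x.comp continuous_subtype_val).subtype_mk _
      continuous_invFun := (CovC_sec_cont c).subtype_mk _ }
  exact e.contractibleSpace

end Pool.Agent.Work.MP_735653_gt
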