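import Pool.Agent.Work.MP_735653_gt.CovC
import Pool.Agent.Work.MP_735653_gt.Nerve

/-! The covering space is simply connected. -/

namespace Pool.Agent.Work.MP_735653_gt

variable {D : ℕ} {G : Type} [Group G] {X : LC D G}

open Classical in
/-- the transport between the fibres over two cells -/
noncomputable def CovSC_ψ (X : LC D G) {H : Type} [Group H] (φ : CC X → CC X → H) (a b : Cell D) :
    Equiv.Perm (G × H) :=
  if h : a ∈ X.K ∧ b ∈ X.K then (Equiv.mulRight (X.μ a b)⁻¹).prodShear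
    fun g => Equiv.mulLeft (φ (g * (X.μ a b)⁻¹, ⟨a, h.1⟩) (g, ⟨b, h.2⟩)) else 1

theorem CovSC_ψ_apply {H : Type} [Group H] (φ : CC X → CC X → H) {a b : Cell D} (ha : a ∈ X.K)
    (hb : b ∈ X.K) (g : G) (h : H) : CovSC_ψ X φ a b (g, h) =
      (g * (X.μ a b)⁻¹, φ (g * (X.μ a b)⁻¹, ⟨a, ha⟩) (g, ⟨b, hb⟩) * h) := by
  rw [CovSC_ψ, dif_pos ⟨ha, hb⟩]
  rfl

theorem SCp.cobdry (h : SCp X) (H : Type) [Group H] (φ : CC X → CC X → H)
    (hφ : ∀ p q s, CLe X s q → CLe X q p → φ p s = φ p q * φ q s) :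
    ∃ F : CC X → H, ∀ p q, CLe X q p → φ p q = F p * (F q)⁻¹ := by
  obtain ⟨θ, f, hf⟩ := h (Equiv.Perm (G × H)) (CovSC_ψ X φ) fun a ha b c hb hc => by
    have hb' := X.down a ha b hb
    have hc' := X.down b hb' c hc
    refine Equiv.ext fun z => ?_
    obtain ⟨g, k⟩ := z
    rw [Equiv.Perm.mul_apply, CovSC_ψ_apply φ hb' hc', CovSC_ψ_apply φ ha hb',
      CovSC_ψ_apply φ ha hc', X.coc a ha b c hb hc, mul_inv_rev, ← mul_assoc, ← mul_assoc,
      hφ _ (g * (X.μ b c)⁻¹, ⟨b, hb'⟩) _ ⟨hc, by simp⟩ ⟨hb, by simp⟩]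
  let Φ : CC X → H → G × H := fun p k => θ p.1 ((f p.2.1)⁻¹ (p.1, k))
  have inj : ∀ p, Function.Injective (Φ p) := fun p k k' e =>
    (Prod.ext_iff.1 ((f p.2.1)⁻¹.injective ((θ p.1).injective e))).2
  have rel : ∀ p q, CLe X q p → ∀ k, Φ p (φ p q * k) = Φ q k := by
    rintro ⟨g, a, ha⟩ ⟨g', b, hb⟩ ⟨h1, h2⟩ k
    simp only at h1 h2
    subst h2
    have e := congrArg (fun u : Equiv.Perm (G × H) => θ g ((f a)⁻¹ (u (g * X.μ a b, k))))
      (hf a ha b h1)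
    simp only [CovSC_ψ_apply φ ha hb, mul_inv_cancel_right, Equiv.Perm.mul_apply] at e
    simp only [Φ, map_mul, Equiv.Perm.mul_apply]
    exact e.trans (congrArg _ ((f a).symm_apply_apply _))
  have rng : ∀ p q, CLe X q p → Set.range (Φ p) = Set.range (Φ q) := fun p q e => by
    refine Set.ext fun z => ⟨?_, ?_⟩
    · rintro ⟨k, rfl⟩
      exact ⟨(φ p q)⁻¹ * k, by rw [← rel p q e, mul_inv_cancel_left]⟩
    · rintro ⟨k, rfl⟩
      exact ⟨_, rel p q e k⟩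
  have ch : ∀ p, ∃ k, Φ p k = Classical.epsilon fun z => z ∈ Set.range (Φ p) := fun p =>
    Classical.epsilon_spec (p := fun z => z ∈ Set.range (Φ p)) ⟨_, 1, rfl⟩
  choose F hF using ch
  refine ⟨F, fun p q e => eq_mul_inv_of_mul_eq (inj p ?_)⟩
  rw [rel p q e, hF, hF, rng p q e]

theorem CovSC_ne (c : CC X) : (Uc X c).Nonempty :=
  have := contractible_Uc c
  Set.nonempty_coe_sort.1 inferInstance

theorem CovSC_joined {c : CC X} {x y : Cov X} (hx : x ∈ Uc X c) (hy : y ∈ Uc X c) : Joined x y :=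
  have := contractible_Uc c
  ((isPathConnected_iff_pathConnectedSpace.2 inferInstance :
    IsPathConnected (Uc X c)).joinedIn x hx y hy).joined

theorem Conn.pathConnected (h : Conn X) : PathConnectedSpace (Cov X) := by
  obtain ⟨⟨a₀, ha₀⟩, h⟩ := h
  obtain ⟨x₀, -⟩ := CovSC_ne (X := X) (1, ⟨a₀, ha₀⟩)
  refine ⟨⟨x₀⟩, fun x y => ?_⟩
  have key := h (fun g a => ∀ ha : a ∈ X.K, ∀ z ∈ Uc X (g, ⟨a, ha⟩), Joined x z)
    (fun g a ha b hb => ?_) x.rc.1 y.rc.1 _ x.rc.2.2 _ y.rc.2.2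
    fun _ z hz => CovSC_joined (CLe.refl _) hz
  · exact key _ y (CLe.refl _)
  · have sub : ∀ hb', Uc X (g * X.μ a b, ⟨b, hb'⟩) ⊆ Uc X (g, ⟨a, ha⟩) := fun _ _ hz =>
      CLe.trans hz ⟨hb, rfl⟩
    refine ⟨fun k hb' z hz => k ha z (sub hb' hz), fun k _ z hz => ?_⟩
    obtain ⟨w, hw⟩ := CovSC_ne (X := X) (g * X.μ a b, ⟨b, X.down a ha b hb⟩)
    exact (k _ w hw).trans (CovSC_joined (sub _ hw) hz)

theorem simplyConnected_cov (h1 : SCp X) (h2 : Conn X) : SimplyConnectedSpace (Cov X) :=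
  have := h2.pathConnected
  simplyConnected_of_nerve (CLe X) (fun _ _ _ => CLe.trans) CLe.refl Cov.rc isOpen_Uc
    contractible_Uc h1.cobdry

end Pool.Agent.Work.MP_735653_gt
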