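import Mathlib

/-! Polytope groups, Wh-AC groups, singular chains and the polytope of the universal L2-torsion. -/

namespace Pool.Agent.Work.MP_735653_gt

open Pointwise

/-- the integral group ring -/
abbrev ZG (G : Type) [Group G] : Type := MonoidAlgebra ℤ G

/-! ### The polytope group -/

/-- polytopes in `ℝ^n` under Minkowski sum -/
def polys (n : ℕ) : AddSubmonoid (Set (Fin n → ℝ)) where
  carrier := {P | ∃ T : Finset (Fin n → ℝ), T.Nonempty ∧ P = convexHull ℝ (T : Set (Fin n → ℝ))}
  zero_mem' := ⟨{0}, Finset.singleton_nonempty _, by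
    rw [Finset.coe_singleton, convexHull_singleton]; rfl⟩
  add_mem' := by
    classical
    rintro _ _ ⟨S, hS, rfl⟩ ⟨T, hT, rfl⟩
    exact ⟨S + T, hS.add hT, by rw [Finset.coe_add, convexHull_add]⟩

/-- two polytopes are identified if they differ by a translation -/
def transl (n : ℕ) : AddCon (polys n) where
  r P Q := ∃ v : Fin n → ℝ, (Q : Set (Fin n → ℝ)) = {v} + (P : Set (Fin n → ℝ))
  iseqv :=
    ⟨fun P => ⟨0, (zero_add (P : Set (Fin n → ℝ))).symm⟩,
     fun ⟨v, h⟩ => ⟨-v, by
      rw [h, ← add_assoc, Set.singleton_add_singleton, neg_add_cancel]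
      exact (zero_add _).symm⟩,
     fun ⟨v, h⟩ ⟨w, h'⟩ => ⟨w + v, by rw [h', h, ← add_assoc, Set.singleton_add_singleton]⟩⟩
  add' := fun ⟨v, h⟩ ⟨w, h'⟩ => ⟨v + w, by
    rw [AddSubmonoid.coe_add, AddSubmonoid.coe_add, h, h', add_add_add_comm,
      Set.singleton_add_singleton]⟩

/-- the Grothendieck group of translation classes of polytopes -/
abbrev PG (n : ℕ) : Type := Algebra.GrothendieckAddGroup (transl n).Quotient

open Classical in
/-- the class of the convex hull of a nonempty finite set of lattice points -/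
noncomputable def cls {n : ℕ} (T : Finset (Fin n → ℤ)) : PG n :=
  if h : T.Nonempty then
    Algebra.GrothendieckAddGroup.of
      (((⟨convexHull ℝ (T.image fun v i => (v i : ℝ) : Finset (Fin n → ℝ)),
        _, h.image _, rfl⟩ : polys n) : (transl n).Quotient))
  else 0

/-! ### Operators on `ℓ²` -/

/-- square summable functions -/
abbrev L2 (X : Type) : Type := lp (fun _ : X => ℂ) 2

/-- precomposition with an injective map -/
noncomputable def res {X Y : Type} (f : Y → X) (hf : Function.Injective f) : L2 X →L[ℂ] L2 Y :=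
  LinearMap.mkContinuous
    { toFun := fun v => ⟨fun y => v (f y), memℓp_gen
        (((lp.memℓp v).summable (by norm_num)).comp_injective hf)⟩
      map_add' := fun _ _ => rfl
      map_smul' := fun _ _ => rfl } 1 fun v => by
    rw [one_mul]
    refine lp.norm_le_of_tsum_le (by norm_num) (norm_nonneg _) ?_
    rw [lp.norm_rpow_eq_tsum (by norm_num)]
    exact tsum_comp_le_tsum_of_inj ((lp.memℓp v).summable (by norm_num))
      (fun _ => by positivity) hf

/-- a finite Hilbert sum of copies of `ℓ²(X)` -/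
abbrev HS (I X : Type) : Type := PiLp 2 fun _ : I => L2 X

/-- the operator of a matrix of operators: `(op M v) j = ∑ i, M j i (v i)` -/
noncomputable def op {I J X Y : Type} [Fintype I] [Fintype J]
    (M : Matrix J I (L2 X →L[ℂ] L2 Y)) : HS I X →L[ℂ] HS J Y :=
  (PiLp.continuousLinearEquiv 2 ℂ fun _ : J => L2 Y).symm.toContinuousLinearMap ∘L
    ContinuousLinearMap.pi fun j => ∑ i, M j i ∘L PiLp.proj 2 (fun _ : I => L2 X) i

section

variable {G : Type} [Group G]

/-- left translation `δ_x ↦ δ_{g x}` -/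
noncomputable def lam (g : G) : L2 G →L[ℂ] L2 G :=
  res (fun x => g⁻¹ * x) (mul_right_injective _)

/-- right translation `δ_x ↦ δ_{x g⁻¹}` -/
noncomputable def rho (g : G) : L2 G →L[ℂ] L2 G :=
  res (fun x => x * g) (mul_left_injective _)

/-- the map `v ↦ v A` of a matrix over the group ring -/
noncomputable def rmul {I J : Type} [Fintype I] [Fintype J] (A : Matrix I J (ZG G)) :
    HS I G →L[ℂ] HS J G :=
  op fun j i => (A i j).coeff.sum fun g c => (c : ℂ) • rho g⁻¹

open Classical in
/-- the von Neumann dimension of the closure of a subspace: the trace of the projection -/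
noncomputable def vnDim {I : Type} [Fintype I] (K : Submodule ℂ (HS I G)) : ℝ :=
  ∑ i, ‖K.topologicalClosure.starProjection (PiLp.single 2 i (lp.single 2 (1 : G) (1 : ℂ)))‖ ^ 2

variable (G)

/-- the Atiyah conjecture for a torsion-free group -/
def Atiyah : Prop :=
  ∀ (m k : ℕ) (A : Matrix (Fin m) (Fin k) (ZG G)), ∃ z : ℤ, vnDim (rmul A).ker = z

/-- the Whitehead group vanishes: an invertible matrix is stably a product of elementary matrices
and diagonal matrices with entries `± g` -/
def WhZero : Prop :=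
  ∀ (m : ℕ) (A : Matrix (Fin m) (Fin m) (ZG G)), IsUnit A → ∃ k : ℕ,
    Matrix.fromBlocks A 0 0 (1 : Matrix (Fin k) (Fin k) (ZG G)) ∈ Submonoid.closure
      {B | (∃ i j r, i ≠ j ∧ B = 1 + Matrix.single i j r) ∨
        ∃ (g : Fin m ⊕ Fin k → G) (ε : Fin m ⊕ Fin k → ℤˣ),
          B = Matrix.diagonal fun i => MonoidAlgebra.single (g i) (ε i : ℤ)}

/-- torsion-free, trivial Whitehead group, Atiyah conjecture -/
def WhAC : Prop := (∀ (g : G) (k : ℕ), 0 < k → g ^ k = 1 → g = 1) ∧ WhZero G ∧ Atiyah G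

variable {G}

/-- `U` is the algebra of operators affiliated to the group von Neumann algebra: `Γ` is a bijection
from `U` onto the graphs of the closed densely defined operators on `ℓ²(G)` that commute with left
translations, sums and products are the closures of the sums and products of operators, and `ι`
sends `g` to the right translation -/
structure IsAffil {U : Type} [Ring U] (Γ : U → Submodule ℂ (L2 G × L2 G)) (ι : ZG G →+* U) :
    Prop where
  inj : Function.Injective Γ
  range : ∀ W, W ∈ Set.range Γ ↔ IsClosed (W : Set (L2 G × L2 G)) ∧ (∀ y, (0, y) ∈ W → y = 0) ∧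
    Dense (Prod.fst '' (W : Set (L2 G × L2 G))) ∧ ∀ g, ∀ p ∈ W, (lam g p.1, lam g p.2) ∈ W
  add : ∀ u v, (Γ (u + v) : Set (L2 G × L2 G)) =
    closure {p | ∃ y z, (p.1, y) ∈ Γ u ∧ (p.1, z) ∈ Γ v ∧ p.2 = y + z}
  mul : ∀ u v, (Γ (u * v) : Set (L2 G × L2 G)) =
    closure {p | ∃ y, (p.1, y) ∈ Γ v ∧ (y, p.2) ∈ Γ u}
  gen : ∀ g p, p ∈ Γ (ι (MonoidAlgebra.single g 1)) ↔ p.2 = rho g p.1

end

/-- the division closure of a subset of a ring -/
def divCl {U : Type} [Ring U] (S : Set U) : Subring U :=
  sInf {D | S ⊆ D ∧ ∀ u : Uˣ, (u : U) ∈ D → (↑u⁻¹ : U) ∈ D}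

/-! ### Singular chains -/

/-- singular simplices of all degrees -/
abbrev Sx (X : Type) [TopologicalSpace X] : Type := Σ q : ℕ, C(stdSimplex ℝ (Fin (q + 1)), X)

/-- integral singular chains of all degrees -/
abbrev SC (X : Type) [TopologicalSpace X] : Type := Sx X →₀ ℤ

section

variable {X : Type} [TopologicalSpace X]

/-- faces of a singular simplex -/
noncomputable def face {q : ℕ} (s : C(stdSimplex ℝ (Fin (q + 2)), X)) (i : Fin (q + 2)) :
    C(stdSimplex ℝ (Fin (q + 1)), X) :=
  s.comp ⟨stdSimplex.map i.succAbove, stdSimplex.continuous_map _⟩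

/-- boundary of a singular simplex -/
noncomputable def sbd1 : Sx X → SC X
  | ⟨0, _⟩ => 0
  | ⟨q + 1, s⟩ => ∑ i : Fin (q + 2), (-1 : ℤ) ^ (i : ℕ) • Finsupp.single ⟨q, face s i⟩ 1

variable (X)

/-- the singular boundary -/
noncomputable def sbd : SC X →ₗ[ℤ] SC X := Finsupp.linearCombination ℤ sbd1

/-- the singular homology in degree `d` is not zero; for a closed connected `d`-manifold this is
orientability -/
def Orientable (d : ℕ) : Prop :=
  ∃ z : SC X, (∀ s ∈ z.support, s.1 = d) ∧ sbd X z = 0 ∧ ¬ ∃ c, sbd X c = z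

variable (G : Type) [Group G] [MulAction G X] [ContinuousConstSMul G X]

/-- the action of a group on singular chains -/
noncomputable def act : Representation ℤ G (SC X) where
  toFun g := Finsupp.lmapDomain ℤ ℤ fun s =>
    ⟨s.1, (⟨fun x => g • x, continuous_const_smul g⟩ : C(X, X)).comp s.2⟩
  map_one' := by
    refine Eq.trans (congrArg _ (funext fun s => ?_)) (Finsupp.lmapDomain_id ℤ ℤ)
    exact congrArg (Sigma.mk s.1) (ContinuousMap.ext fun x => one_smul G _)
  map_mul' g h := by
    refine Eq.trans (congrArg _ (funext fun s => ?_)) (Finsupp.lmapDomain_comp ℤ ℤ _ _)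
    exact congrArg (Sigma.mk s.1) (ContinuousMap.ext fun x => mul_smul g h _)

variable {X G} {I : Type} [Fintype I] [DecidableEq I]

/-- the equivariant map `x ↦ ∑ x_i f_i` -/
noncomputable def ev (f : I → SC X) (x : I → ZG G) : SC X :=
  ∑ i, (act X G).asAlgebraHom (x i) (f i)

/-- the finite based free chain complex with basis `I`, degrees `deg` and differential
`x ↦ x A` maps by `e_i ↦ f_i` to the singular chains, by a chain map that induces an isomorphism in
homology -/
structure IsModel (deg : I → ℤ) (A : Matrix I I (ZG G)) (f : I → SC X) : Prop where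
  degA : ∀ i j, A i j ≠ 0 → deg i = deg j + 1
  sq : A * A = 0
  degf : ∀ i, ∀ s ∈ (f i).support, (s.1 : ℤ) = deg i
  chain : ∀ i, sbd X (f i) = ev f (A i)
  inj : ∀ x : I → ZG G, Matrix.vecMul x A = 0 → (∃ c, sbd X c = ev f x) →
    ∃ y, Matrix.vecMul y A = x
  surj : ∀ z, sbd X z = 0 →
    ∃ (x : I → ZG G) (c : SC X), Matrix.vecMul x A = 0 ∧ z = ev f x + sbd X c

/-- the reduced `ℓ²`-homology of the complex vanishes -/
def L2Acyc (A : Matrix I I (ZG G)) : Prop :=
  (rmul A).ker ≤ (rmul A).range.topologicalClosure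

end

/-! ### Torsion and its polytope -/

/-- products of elementary matrices -/
def Elem (D ι : Type) [Ring D] [Fintype ι] [DecidableEq ι] : Submonoid (Matrix ι ι D) :=
  Submonoid.closure {B | ∃ i j r, i ≠ j ∧ B = 1 + Matrix.single i j r}

/-- the complex `x ↦ x A` over `D` has a contraction `γ`, and the Dieudonne determinant of
`A + γ` from odd to even degrees is, up to sign, the product of the `u i` -/
def IsTorsion {D I : Type} [Ring D] [Fintype I] [DecidableEq I] (deg : I → ℤ) (A : Matrix I I D)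
    (u : {i // Odd (deg i)} → D) : Prop :=
  ∃ (γ : Matrix I I D) (e : {i // Odd (deg i)} ≃ {i // Even (deg i)}),
    (∀ i j, γ i j ≠ 0 → deg j = deg i + 1) ∧ A * γ + γ * A = 1 ∧
    ∃ E₁ ∈ Elem D {i // Odd (deg i)}, ∃ E₂ ∈ Elem D {i // Odd (deg i)},
      (A + γ).submatrix Subtype.val (fun i => (e i).val) = E₁ * Matrix.diagonal u * E₂

section

variable {G U : Type} [Group G] [Ring U] {n : ℕ}

/-- `f` is a nonzero element `∑ a_h s(h)` of the crossed product, with coefficients in the
division closure of the group ring of the kernel of `ν`, and `T` is its support -/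
def IsPoly (ι : ZG G →+* U) (ν : G →* Multiplicative (Fin n → ℤ)) (s : (Fin n → ℤ) → G) (f : U)
    (T : Finset (Fin n → ℤ)) : Prop :=
  T.Nonempty ∧ ∃ a : (Fin n → ℤ) → U,
    (∀ h ∈ T, a h ≠ 0 ∧ a h ∈ divCl (ι '' {x | ∀ g ∈ x.coeff.support, g ∈ ν.ker})) ∧
    f = ∑ h ∈ T, a h * ι (MonoidAlgebra.single (s h) 1)

/-- `ν` identifies the abelianisation modulo torsion with `ℤ^n`, and `s` is a section of `ν` -/
structure IsAbFree (ν : G →* Multiplicative (Fin n → ℤ)) (s : (Fin n → ℤ) → G) : Prop where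
  sec : ∀ h, ν (s h) = Multiplicative.ofAdd h
  ker : ∀ g, ν g = 1 ↔ ∃ k : ℕ, 0 < k ∧ g ^ k ∈ commutator G

/-- the torsion of the complex `x ↦ x A` over the division closure of the group ring in `U` has
the polytope `-Q` -/
def TorPoly (ι : ZG G →+* U) (ν : G →* Multiplicative (Fin n → ℤ)) (s : (Fin n → ℤ) → G)
    {I : Type} [Fintype I] [DecidableEq I] (deg : I → ℤ) (A : Matrix I I (ZG G)) (Q : PG n) :
    Prop :=
  ∃ (A' : Matrix I I (divCl (Set.range ι))) (u : {i // Odd (deg i)} → divCl (Set.range ι))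
    (a b : {i // Odd (deg i)} → U) (T T' : {i // Odd (deg i)} → Finset (Fin n → ℤ)),
    (∀ i j, (A' i j : U) = ι (A i j)) ∧ IsTorsion deg A' u ∧
    (∀ i, (u i : U) * b i = a i ∧ IsPoly ι ν s (a i) (T i) ∧ IsPoly ι ν s (b i) (T' i)) ∧
    Q = -∑ i, (cls (T i) - cls (T' i))

end

/-- the quotient of the simply connected space `E` by `G` is L2-acyclic and its polytope is `Q` -/
def Realises (G E : Type) [Group G] [TopologicalSpace E] [MulAction G E] [ContinuousConstSMul G E]
    {n : ℕ} (Q : PG n) : Prop :=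
  ∃ (I : Type) (_ : Fintype I) (_ : DecidableEq I) (deg : I → ℤ) (A : Matrix I I (ZG G))
    (f : I → SC E) (U : Type) (_ : Ring U) (Γ : U → Submodule ℂ (L2 G × L2 G)) (ι : ZG G →+* U)
    (ν : G →* Multiplicative (Fin n → ℤ)) (s : (Fin n → ℤ) → G),
    IsModel deg A f ∧ L2Acyc A ∧ IsAffil Γ ι ∧ IsAbFree ν s ∧ TorPoly ι ν s deg A Q

end Pool.Agent.Work.MP_735653_gt
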