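import Pool.Agent.Work.MP_735653_gt.HDefs

/-! Presentations, Fox derivatives and the small chain complex. -/

namespace Pool.Agent.Work.MP_735653_gt

variable {G S Rl C : Type} [Group G]

/-- `G` is presented by the generators `γ` and the relators `r` -/
structure Pres (γ : S → G) (r : Rl → FreeGroup S) : Prop where
  rel : ∀ j, FreeGroup.lift γ (r j) = 1
  univ : ∀ (H : Type) [Group H] (f : S → H), (∀ j, FreeGroup.lift f (r j) = 1) →
    ∃ θ : G →* H, ∀ s, θ (γ s) = f s
  gen : Subgroup.closure (Set.range γ) = ⊤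

/-- the image of a word in the group ring -/
noncomputable def evZ (γ : S → G) (w : FreeGroup S) : ZG G :=
  MonoidAlgebra.single (FreeGroup.lift γ w) 1

/-- Fox derivatives -/
structure IsFox (γ : S → G) (fx : FreeGroup S → S → ZG G) : Prop where
  mul : ∀ u v s, fx (u * v) s = fx u s + evZ γ u * fx v s
  of_self : ∀ s, fx (FreeGroup.of s) s = 1
  of_ne : ∀ s s', s ≠ s' → fx (FreeGroup.of s) s' = 0

/-- basis of the small complex: a vertex, generators, relators, spheres and their caps -/
abbrev IR (S Rl C : Type) : Type := Unit ⊕ S ⊕ Rl ⊕ C ⊕ C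

/-- degrees in the small complex -/
def dR : IR S Rl C → ℤ
  | .inl _ => 0
  | .inr (.inl _) => 1
  | .inr (.inr (.inl _)) => 2
  | .inr (.inr (.inr (.inl _))) => 2
  | .inr (.inr (.inr (.inr _))) => 3

open Classical in
/-- the differential of the small complex -/
noncomputable def AR (γ : S → G) (fx : FreeGroup S → S → ZG G) (wd : Rl ⊕ C → FreeGroup S) :
    Matrix (IR S Rl C) (IR S Rl C) (ZG G)
  | .inr (.inl s), .inl _ => MonoidAlgebra.single (γ s) 1 - 1
  | .inr (.inr (.inl j)), .inr (.inl s) => fx (wd (.inl j)) s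
  | .inr (.inr (.inr (.inr c))), .inr (.inr (.inr (.inl c'))) =>
      if c = c' then evZ γ (wd (.inr c))⁻¹ - 1 else 0
  | _, _ => 0

/-- generators `t = none`, `y = some none`, `x i = some (some i)` -/
abbrev SG (n : ℕ) : Type := Option (Option (Fin n))

/-- the word `w(x) t ^ k` -/
def gw {n : ℕ} (p : FreeGroup (Fin n) × ℤ) : FreeGroup (SG n) :=
  FreeGroup.map (fun i => some (some i)) p.1 * FreeGroup.of none ^ p.2

/-- the relators: a product of conjugates of `y`, and the commutators of `x i` and `t` -/
def rl {n : ℕ} (l : List (FreeGroup (Fin n) × ℤ)) : Option (Fin n) → FreeGroup (SG n)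
  | none => (l.map fun p => gw p * FreeGroup.of (some none) * (gw p)⁻¹).prod
  | some i => FreeGroup.of (some (some i)) * FreeGroup.of none * (FreeGroup.of (some (some i)))⁻¹ *
      (FreeGroup.of none)⁻¹

/-- the images of the generators in `ℤ^(n+1)` -/
def nuG {n : ℕ} (c : Fin n → ℤ) : SG n → Multiplicative (Fin (n + 1) → ℤ)
  | none => Multiplicative.ofAdd (Pi.single 0 1)
  | some none => 1
  | some (some i) => Multiplicative.ofAdd (Pi.single i.succ 1 - Pi.single 0 (c i))

end Pool.Agent.Work.MP_735653_gt
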