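import Pool.Agent.Work.MP_735653_gt.HDefs

/-! Basic facts on graded matrices, homotopy equivalences and quasi-isomorphisms. -/

namespace Pool.Agent.Work.MP_735653_gt

open Matrix

variable {R I J K : Type} [Ring R]

theorem Gr.zero (k : ℤ) (da : I → ℤ) (db : J → ℤ) : Gr k da db (0 : Matrix I J R) := by
  intro i j h
  exact absurd rfl h

theorem Gr.one [DecidableEq I] (d : I → ℤ) : Gr 0 d d (1 : Matrix I I R) := by
  intro i j h
  by_cases hij : i = j
  · rw [hij, add_zero]
  · exact absurd (Matrix.one_apply_ne hij) h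

theorem Gr.add {k : ℤ} {da : I → ℤ} {db : J → ℤ} {F F' : Matrix I J R} (h : Gr k da db F)
    (h' : Gr k da db F') : Gr k da db (F + F') := by
  intro i j hij
  by_cases h1 : F i j = 0
  · refine h' i j fun h2 => hij ?_
    rw [Matrix.add_apply, h1, h2, add_zero]
  · exact h i j h1

theorem Gr.neg {k : ℤ} {da : I → ℤ} {db : J → ℤ} {F : Matrix I J R} (h : Gr k da db F) :
    Gr k da db (-F) := by
  intro i j hij
  refine h i j fun h2 => hij ?_
  rw [Matrix.neg_apply, h2, neg_zero]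

theorem Gr.sub {k : ℤ} {da : I → ℤ} {db : J → ℤ} {F F' : Matrix I J R} (h : Gr k da db F)
    (h' : Gr k da db F') : Gr k da db (F - F') := by
  rw [sub_eq_add_neg]
  exact h.add h'.neg

theorem Gr.mul [Fintype J] {k l m : ℤ} {da : I → ℤ} {db : J → ℤ} {dc : K → ℤ} {F : Matrix I J R}
    {F' : Matrix J K R} (h : Gr k da db F) (h' : Gr l db dc F') (hm : m = k + l) :
    Gr m da dc (F * F') := by
  intro i j hij
  rw [Matrix.mul_apply] at hij
  obtain ⟨p, -, hp⟩ := Finset.exists_ne_zero_of_sum_ne_zero hij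
  have h1 := h i p (left_ne_zero_of_mul hp)
  have h2 := h' p j (right_ne_zero_of_mul hp)
  omega

theorem Gr.inv [Fintype I] [Fintype J] [DecidableEq I] [DecidableEq J] {k : ℤ} {da : I → ℤ}
    {db : J → ℤ} {M : Matrix I J R} {N : Matrix J I R} (h : Gr k da db M) (h1 : M * N = 1)
    (h2 : N * M = 1) : Gr (-k) db da N := by
  have h3 : (Matrix.of fun j i => if da i = db j + -k then N j i else 0 : Matrix J I R) * M = 1 := by
    ext j j'
    rw [Matrix.mul_apply]
    by_cases hj : db j' = db j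
    · rw [← h2, Matrix.mul_apply]
      refine Finset.sum_congr rfl fun i _ => ?_
      by_cases hM : M i j' = 0
      · rw [hM, mul_zero, mul_zero]
      · have := h i j' hM
        rw [Matrix.of_apply, if_pos (by omega)]
    · rw [Matrix.one_apply_ne (fun e => hj (by rw [e]))]
      refine Finset.sum_eq_zero fun i _ => ?_
      by_cases hM : M i j' = 0
      · rw [hM, mul_zero]
      · have := h i j' hM
        rw [Matrix.of_apply, if_neg (by omega), zero_mul]
  have h4 : (Matrix.of fun j i => if da i = db j + -k then N j i else 0 : Matrix J I R) = N := by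
    rw [← Matrix.mul_one (Matrix.of fun j i => if da i = db j + -k then N j i else 0 :
      Matrix J I R), ← h1, ← Matrix.mul_assoc, h3, Matrix.one_mul]
  intro j i hji
  by_contra hne
  apply hji
  rw [← h4, Matrix.of_apply, if_neg hne]

/-- the matrix of a bijection of the bases -/
def HEB_P [DecidableEq J] (R : Type) [Ring R] (e : I ≃ J) : Matrix I J R :=
  Matrix.of fun i j => if e i = j then 1 else 0

theorem HEB_mul_P [Fintype I] [DecidableEq J] (e : I ≃ J) (M : Matrix K I R) (k : K) (j : J) :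
    (M * HEB_P R e) k j = M k (e.symm j) := by
  rw [Matrix.mul_apply, Finset.sum_eq_single (e.symm j)]
  · simp [HEB_P]
  · intro i _ hi
    have : e i ≠ j := fun h => hi (by rw [← h, Equiv.symm_apply_apply])
    simp [HEB_P, this]
  · intro h
    exact absurd (Finset.mem_univ _) h

theorem HEB_P_mul [Fintype J] [DecidableEq J] (e : I ≃ J) (M : Matrix J K R) (i : I) (k : K) :
    (HEB_P R e * M) i k = M (e i) k := by
  rw [Matrix.mul_apply]
  simp [HEB_P]

theorem HEB_P_gr [DecidableEq J] (e : I ≃ J) {da : I → ℤ} {db : J → ℤ}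
    (hd : ∀ i, db (e i) = da i) : Gr 0 da db (HEB_P R e) := by
  intro i j h
  by_cases hij : e i = j
  · rw [← hij, hd, add_zero]
  · exact absurd (by simp [HEB_P, hij]) h

theorem HEB_P_P [Fintype J] [DecidableEq I] [DecidableEq J] (e : I ≃ J) :
    HEB_P R e * HEB_P R e.symm = 1 := by
  ext i i'
  rw [HEB_P_mul]
  simp [HEB_P, Matrix.one_apply]

theorem HEB_ct_add {G : Type} [Group G] (A B : Matrix I J (ZG G)) : ct (A + B) = ct A + ct B := by
  ext1 j i
  exact bar_add _ _

theorem HEB_ct_sub {G : Type} [Group G] (A B : Matrix I J (ZG G)) : ct (A - B) = ct A - ct B := by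
  ext1 j i
  exact bar_sub _ _

theorem HEB_ct_zero {G : Type} [Group G] : ct (0 : Matrix I J (ZG G)) = 0 := by
  ext1 j i
  exact bar_zero

theorem HEB_ct_one {G : Type} [Group G] [DecidableEq I] : ct (1 : Matrix I I (ZG G)) = 1 := by
  ext1 j i
  by_cases h : i = j
  · rw [h, ct, Matrix.one_apply_eq, bar_one]
  · rw [ct, Matrix.one_apply_ne h, Matrix.one_apply_ne (Ne.symm h), bar_zero]

theorem HEB_ct_gr {G : Type} [Group G] {k : ℤ} {da : I → ℤ} {db : J → ℤ} {F : Matrix I J (ZG G)}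
    (h : Gr k da db F) (D : ℤ) : Gr k (fun j => D - db j) (fun i => D - da i) (ct F) := by
  intro j i hji
  have h1 : F i j ≠ 0 := fun h0 => hji (by rw [ct, h0, bar_zero])
  have := h i j h1
  dsimp only
  omega

section

variable {G E : Type} [Group G] [TopologicalSpace E] [MulAction G E] [ContinuousConstSMul G E]

theorem HEB_act_single (g : G) (s : Sx E) (c : ℤ) :
    act E G g (Finsupp.single s c) = Finsupp.single
      ⟨s.1, (⟨fun x => g • x, continuous_const_smul g⟩ : C(E, E)).comp s.2⟩ c :=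
  Finsupp.mapDomain_single

theorem HEB_sbd_act (g : G) (c : SC E) : sbd E (act E G g c) = act E G g (sbd E c) := by
  induction c using Finsupp.induction_linear with
  | zero => simp
  | add a b ha hb => simp only [map_add, ha, hb]
  | single s c =>
    rw [HEB_act_single]
    obtain ⟨q, s⟩ := s
    simp only [sbd, Finsupp.linearCombination_single, map_smul]
    congr 1
    rcases q with _ | q
    · simp [sbd1]
    · simp only [sbd1, map_sum, map_smul, HEB_act_single]
      rfl

theorem HEB_sbd_alg (a : ZG G) (c : SC E) :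
    sbd E ((act E G).asAlgebraHom a c) = (act E G).asAlgebraHom a (sbd E c) := by
  induction a using MonoidAlgebra.induction_linear with
  | zero => simp
  | add a b ha hb => simp only [map_add, LinearMap.add_apply, ha, hb]
  | single g r =>
    simp only [Representation.asAlgebraHom_single, LinearMap.smul_apply, map_smul, HEB_sbd_act]

theorem HEB_deg_act (g : G) (c : SC E) (d : ℤ) (h : ∀ s ∈ c.support, (s.1 : ℤ) = d) :
    ∀ s ∈ (act E G g c).support, (s.1 : ℤ) = d := by
  classical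
  intro s hs
  obtain ⟨s', h1, rfl⟩ := Finset.mem_image.1 (Finsupp.mapDomain_support hs)
  exact h s' h1

theorem HEB_deg_alg (a : ZG G) (c : SC E) (d : ℤ) (h : ∀ s ∈ c.support, (s.1 : ℤ) = d) :
    ∀ s ∈ ((act E G).asAlgebraHom a c).support, (s.1 : ℤ) = d := by
  classical
  induction a using MonoidAlgebra.induction_linear with
  | zero => intro s hs; simp at hs
  | add a b ha hb =>
    intro s hs
    rw [map_add, LinearMap.add_apply] at hs
    rcases Finset.mem_union.1 (Finsupp.support_add hs) with h1 | h1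
    · exact ha s h1
    · exact hb s h1
  | single g r =>
    intro s hs
    rw [Representation.asAlgebraHom_single, LinearMap.smul_apply] at hs
    exact HEB_deg_act g c d h s (Finsupp.support_smul hs)

variable [Fintype I] [Fintype J]

theorem HEB_ev_add (f : J → SC E) (x y : J → ZG G) : ev f (x + y) = ev f x + ev f y := by
  simp only [ev, Pi.add_apply, map_add, LinearMap.add_apply, Finset.sum_add_distrib]

theorem HEB_ev_vecMul (f : J → SC E) (F : Matrix I J (ZG G)) (x : I → ZG G) :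
    ev f (x ᵥ* F) = ev (fun i => ev f (F i)) x := by
  simp only [ev, Matrix.vecMul, dotProduct, map_sum, map_mul, LinearMap.sum_apply,
    Module.End.mul_apply]
  exact Finset.sum_comm

theorem HEB_sbd_ev {f : J → SC E} {B : Matrix J J (ZG G)} (h : ∀ j, sbd E (f j) = ev f (B j))
    (x : J → ZG G) : sbd E (ev f x) = ev f (x ᵥ* B) := by
  rw [HEB_ev_vecMul, ev, ev, map_sum]
  refine Finset.sum_congr rfl fun j _ => ?_
  rw [HEB_sbd_alg, h]

end

variable [Fintype I] [Fintype J] [Fintype K] [DecidableEq I] [DecidableEq J] [DecidableEq K]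
  {da : I → ℤ} {A : Matrix I I R} {db : J → ℤ} {B : Matrix J J R} {dc : K → ℤ} {C : Matrix K K R}

theorem HE.symm (h : HE da A db B) : HE db B da A := by
  obtain ⟨F, F', H, H', h⟩ := h
  exact ⟨F', F, H', H, h.grF', h.grF, h.grH', h.grH, h.chF', h.chF, h.hH', h.hH⟩

omit [DecidableEq K] in
theorem HEB_trans {F : Matrix I J R} {F' : Matrix J I R} {H : Matrix I I R}
    {F₂ : Matrix J K R} {F₂' : Matrix K J R} {H₂ : Matrix J J R}
    (h1 : A * F = F * B) (h2 : B * F' = F' * A) (h3 : 1 - F * F' = A * H + H * A)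
    (h4 : 1 - F₂ * F₂' = B * H₂ + H₂ * B) :
    1 - F * F₂ * (F₂' * F') = A * (H + F * H₂ * F') + (H + F * H₂ * F') * A := by
  have e1 : 1 - F * F₂ * (F₂' * F') = (1 - F * F') + F * (1 - F₂ * F₂') * F' := by
    simp only [Matrix.mul_sub, Matrix.sub_mul, Matrix.mul_one, Matrix.mul_assoc]
    abel
  have e2 : F * (B * H₂) * F' = A * (F * H₂ * F') := by
    rw [← Matrix.mul_assoc F B, ← h1]
    simp only [Matrix.mul_assoc]
  have e3 : F * (H₂ * B) * F' = F * H₂ * F' * A := by
    simp only [Matrix.mul_assoc]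
    rw [h2]
  rw [e1, h3, h4, Matrix.mul_add F, Matrix.add_mul, e2, e3, Matrix.mul_add, Matrix.add_mul]
  abel

theorem HE.trans (h : HE da A db B) (h' : HE db B dc C) : HE da A dc C := by
  obtain ⟨F, F', H, H', h⟩ := h
  obtain ⟨F₂, F₂', H₂, H₂', h'⟩ := h'
  refine ⟨F * F₂, F₂' * F', H + F * H₂ * F', H₂' + F₂' * H' * F₂,
    h.grF.mul h'.grF (by norm_num), h'.grF'.mul h.grF' (by norm_num),
    h.grH.add ((h.grF.mul h'.grH (m := 1) (by norm_num)).mul h.grF' (by norm_num)),
    h'.grH'.add ((h'.grF'.mul h.grH' (m := 1) (by norm_num)).mul h'.grF (by norm_num)),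
    ?_, ?_, HEB_trans h.chF h.chF' h.hH h'.hH, HEB_trans h'.chF' h'.chF h'.hH' h.hH'⟩
  · rw [← Matrix.mul_assoc, h.chF, Matrix.mul_assoc, h'.chF, Matrix.mul_assoc]
  · rw [← Matrix.mul_assoc, h'.chF', Matrix.mul_assoc, h.chF', Matrix.mul_assoc]

theorem HE.of_equiv (e : I ≃ J) (hd : ∀ i, db (e i) = da i) (hA : ∀ i i', B (e i) (e i') = A i i') :
    HE da A db B := by
  refine ⟨HEB_P R e, HEB_P R e.symm, 0, 0, HEB_P_gr e hd,
    HEB_P_gr e.symm fun j => by rw [← hd, Equiv.apply_symm_apply], Gr.zero _ _ _, Gr.zero _ _ _,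
    ?_, ?_, ?_, ?_⟩
  · ext i j
    rw [HEB_mul_P, HEB_P_mul, ← hA, Equiv.apply_symm_apply]
  · ext j i
    rw [HEB_mul_P, HEB_P_mul, ← hA, Equiv.apply_symm_apply, Equiv.symm_symm]
  · rw [HEB_P_P]
    simp
  · have h1 := HEB_P_P (R := R) e.symm
    rw [Equiv.symm_symm] at h1
    rw [h1]
    simp

theorem Cx.of_equiv (e : I ≃ J) (hd : ∀ i, db (e i) = da i) (hA : ∀ i i', B (e i) (e i') = A i i')
    (h : Cx db B) : Cx da A := by
  refine ⟨fun i i' hi => ?_, ?_⟩
  · rw [← hA] at hi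
    rw [← hd, ← hd]
    exact h.gr _ _ hi
  · ext i i'
    have h1 := congrFun (congrFun h.sq (e i)) (e i')
    rw [Matrix.mul_apply, ← e.sum_comp] at h1
    simp only [hA] at h1
    rw [Matrix.mul_apply]
    exact h1

theorem HEd.qi {F : Matrix I J R} {F' : Matrix J I R} {H : Matrix I I R} {H' : Matrix J J R}
    (h : HEd da A db B F F' H H') : QI da A db B F := by
  refine ⟨h.grF, h.chF, fun x hx ⟨y, hy⟩ => ⟨x ᵥ* H + y ᵥ* F', ?_⟩, fun y hy =>
    ⟨y ᵥ* F', y ᵥ* H', ?_, ?_⟩⟩
  · have h1 := congrArg (fun M => x ᵥ* M) h.hH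
    simp only [Matrix.vecMul_sub, Matrix.vecMul_add, Matrix.vecMul_one,
      ← Matrix.vecMul_vecMul, hx, Matrix.zero_vecMul, zero_add] at h1
    rw [Matrix.add_vecMul, ← h1, Matrix.vecMul_vecMul y, ← h.chF', ← Matrix.vecMul_vecMul, hy]
    abel
  · rw [Matrix.vecMul_vecMul, ← h.chF', ← Matrix.vecMul_vecMul, hy, Matrix.zero_vecMul]
  · have h1 := congrArg (fun M => y ᵥ* M) h.hH'
    simp only [Matrix.vecMul_sub, Matrix.vecMul_add, Matrix.vecMul_one,
      ← Matrix.vecMul_vecMul, hy, Matrix.zero_vecMul, zero_add] at h1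
    rw [← h1]
    abel

omit [DecidableEq I] [DecidableEq J] [DecidableEq K] in
theorem QI.comp {F : Matrix I J R} {F' : Matrix J K R} (hB : B * B = 0) (h : QI da A db B F)
    (h' : QI db B dc C F') : QI da A dc C (F * F') := by
  refine ⟨h.gr.mul h'.gr (by norm_num), ?_, fun x hx ⟨y, hy⟩ => ?_, fun y hy => ?_⟩
  · rw [← Matrix.mul_assoc, h.ch, Matrix.mul_assoc, h'.ch, Matrix.mul_assoc]
  · refine h.inj x hx (h'.inj (x ᵥ* F) ?_ ⟨y, by rw [hy, Matrix.vecMul_vecMul]⟩)
    rw [Matrix.vecMul_vecMul, ← h.ch, ← Matrix.vecMul_vecMul, hx, Matrix.zero_vecMul]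
  · obtain ⟨x, z, hx, rfl⟩ := h'.surj y hy
    obtain ⟨x1, z1, hx1, rfl⟩ := h.surj x hx
    refine ⟨x1, z1 ᵥ* F' + z, hx1, ?_⟩
    rw [Matrix.add_vecMul, Matrix.add_vecMul, Matrix.vecMul_vecMul, Matrix.vecMul_vecMul,
      Matrix.vecMul_vecMul, h'.ch, add_assoc]

theorem HE.dual {G : Type} [Group G] {A : Matrix I I (ZG G)} {B : Matrix J J (ZG G)}
    (h : HE da A db B) (D : ℤ) : HE (fun i => D - da i) (ct A) (fun j => D - db j) (ct B) := by
  obtain ⟨F, F', H, H', h⟩ := h
  refine ⟨ct F', ct F, ct H, ct H', HEB_ct_gr h.grF' D, HEB_ct_gr h.grF D, HEB_ct_gr h.grH D,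
    HEB_ct_gr h.grH' D, ?_, ?_, ?_, ?_⟩
  · rw [← ct_mul, ← ct_mul, h.chF']
  · rw [← ct_mul, ← ct_mul, h.chF]
  · rw [← ct_mul, ← ct_mul, ← ct_mul, ← HEB_ct_add, add_comm, ← h.hH, HEB_ct_sub, HEB_ct_one]
  · rw [← ct_mul, ← ct_mul, ← ct_mul, ← HEB_ct_add, add_comm, ← h.hH', HEB_ct_sub, HEB_ct_one]

omit [DecidableEq I] in
theorem Cx.dual {G : Type} [Group G] {A : Matrix I I (ZG G)} (h : Cx da A) (D : ℤ) :
    Cx (fun i => D - da i) (ct A) := by
  refine ⟨HEB_ct_gr h.gr D, ?_⟩
  rw [← ct_mul, h.sq, HEB_ct_zero]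

theorem IsModel.comp {G E : Type} [Group G] [TopologicalSpace E] [MulAction G E]
    [ContinuousConstSMul G E] {A : Matrix I I (ZG G)} {B : Matrix J J (ZG G)}
    {F : Matrix I J (ZG G)} {f : J → SC E} (hA : Cx da A) (h : QI da A db B F)
    (h' : IsModel db B f) : IsModel da A fun i => ev f (F i) := by
  classical
  refine ⟨fun i j hij => ?_, hA.sq, fun i s hs => ?_, fun i => ?_, fun x hx ⟨c, hc⟩ => ?_,
    fun z hz => ?_⟩
  · have := hA.gr i j hij
    omega
  · obtain ⟨j, -, hj⟩ := Finset.mem_biUnion.1 (Finsupp.support_finsetSum hs)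
    have h1 : F i j ≠ 0 := fun h0 => by simp [h0] at hj
    have h2 := h.gr i j h1
    have h3 := HEB_deg_alg (F i j) (f j) (db j) (h'.degf j) s hj
    omega
  · rw [HEB_sbd_ev h'.chain, ← HEB_ev_vecMul]
    congr 1
    exact (congrFun h.ch i).symm
  · refine h.inj x hx (h'.inj (x ᵥ* F) ?_ ⟨c, by rw [hc, HEB_ev_vecMul]⟩)
    rw [Matrix.vecMul_vecMul, ← h.ch, ← Matrix.vecMul_vecMul, hx, Matrix.zero_vecMul]
  · obtain ⟨x, c, hx, rfl⟩ := h'.surj z hz
    obtain ⟨x1, z1, hx1, rfl⟩ := h.surj x hx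
    refine ⟨x1, ev f z1 + c, hx1, ?_⟩
    rw [HEB_ev_add, HEB_ev_vecMul, map_add, HEB_sbd_ev h'.chain, add_assoc]

end Pool.Agent.Work.MP_735653_gt
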