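import Pool.Agent.Work.MP_735653_gt.HEB

/-! Triangular matrices and acyclic matchings. -/

namespace Pool.Agent.Work.MP_735653_gt

open Matrix

variable {R I J : Type} [Ring R] [Fintype I] [Fintype J] [DecidableEq I] [DecidableEq J]

theorem Elem.exists_inv {A : Matrix I I R} (h : A ∈ Elem R I) :
    ∃ B ∈ Elem R I, A * B = 1 ∧ B * A = 1 := by
  induction h using Submonoid.closure_induction with
  | mem A h =>
    obtain ⟨i, j, r, hij, rfl⟩ := h
    refine ⟨1 + Matrix.single i j (-r), Submonoid.subset_closure ⟨i, j, -r, hij, rfl⟩, ?_, ?_⟩ <;>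
    · rw [add_mul, one_mul, mul_add, mul_one, Matrix.single_mul_single_of_ne _ _ _ _ hij.symm,
        add_zero, add_assoc, ← Matrix.single_add]
      simp
  | one => exact ⟨1, one_mem _, one_mul 1, one_mul 1⟩
  | mul A A' _ _ h h' =>
    obtain ⟨B, hB, h1, h2⟩ := h
    obtain ⟨B', hB', h1', h2'⟩ := h'
    refine ⟨B' * B, mul_mem hB' hB, ?_, ?_⟩
    · rw [mul_assoc, ← mul_assoc A', h1', one_mul, h1]
    · rw [mul_assoc, ← mul_assoc B, h2, one_mul, h2']

theorem elem_tri (ρ : I → ℤ) (a : Matrix I I R) (ha : ∀ i j, a i j ≠ 0 → ρ j < ρ i) :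
    1 + a ∈ Elem R I := by
  classical
  suffices H : ∀ (n : ℕ) (a : Matrix I I R), (∀ i j, a i j ≠ 0 → ρ j < ρ i) →
      (Finset.univ.filter fun x : I × I => a x.1 x.2 ≠ 0).card = n → 1 + a ∈ Elem R I from
    H _ a ha rfl
  intro n
  induction n using Nat.strong_induction_on with
  | _ n ih =>
  intro a ha hn
  rcases (Finset.univ.filter fun x : I × I => a x.1 x.2 ≠ 0).eq_empty_or_nonempty with e | e
  · have : a = 0 := by
      funext i j
      by_contra hx
      have : (i, j) ∈ Finset.univ.filter fun x : I × I => a x.1 x.2 ≠ 0 := by simpa using hx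
      rw [e] at this
      simp at this
    rw [this, add_zero]
    exact one_mem _
  · obtain ⟨⟨i, j⟩, hm, hmin⟩ := Finset.exists_min_image _ (fun x : I × I => ρ x.2) e
    have hm' : a i j ≠ 0 := by simpa using hm
    have hij : i ≠ j := fun e => by
      have := ha i j hm'
      rw [e] at this
      exact lt_irrefl _ this
    set b := a - Matrix.single i j (a i j) with hb
    have hbij : b i j = 0 := by simp [hb]
    have hba : ∀ k l, b k l ≠ 0 → a k l ≠ 0 := by
      intro k l hkl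
      by_cases e : i = k ∧ j = l
      · obtain ⟨rfl, rfl⟩ := e
        exact absurd hbij hkl
      · simpa [hb, Matrix.single_apply, e] using hkl
    have hrow : ∀ l, b j l = 0 := by
      intro l
      by_contra hl
      have h1 := hba j l hl
      have h2 := hmin (j, l) (by simpa using h1)
      have h3 := ha j l h1
      simp only at h2
      omega
    have hz : Matrix.single i j (a i j) * b = 0 := by
      funext k l
      by_cases e : k = i
      · subst e
        rw [Matrix.single_mul_apply_same, hrow, mul_zero]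
        rfl
      · rw [Matrix.single_mul_apply_of_ne _ _ _ _ _ e]
        rfl
    have e1 : 1 + a = (1 + Matrix.single i j (a i j)) * (1 + b) := by
      rw [add_mul, one_mul, mul_add, mul_one, hz, hb]
      abel
    rw [e1]
    refine mul_mem (Submonoid.subset_closure ⟨i, j, _, hij, rfl⟩)
      (ih _ ?_ b (fun k l hkl => ha k l (hba k l hkl)) rfl)
    rw [← hn]
    apply Finset.card_lt_card
    refine ⟨fun x hx => ?_, fun hs => ?_⟩
    · simp only [Finset.mem_filter, Finset.mem_univ, true_and] at hx ⊢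
      exact hba _ _ hx
    · have := hs hm
      simp [hbij] at this

theorem Morse_inv (ρ : I → ℤ) (r : I → I → Prop) (hr : ∀ i j, r i j → ρ j < ρ i)
    (ht : ∀ i j k, r i j → r j k → r i k) (a : Matrix I I R) (ha : ∀ i j, a i j ≠ 0 → r i j) :
    ∃ N : Matrix I I R, (1 + a) * N = 1 ∧ N * (1 + a) = 1 ∧
      ∀ i j, N i j ≠ 0 → i = j ∨ r i j := by
  obtain ⟨N, -, h1, h2⟩ := Elem.exists_inv (elem_tri ρ a fun i j h => hr i j (ha i j h))
  refine ⟨N, h1, h2, fun i j => ?_⟩
  have : IsTrans I fun k i => ρ k < ρ i := ⟨fun _ _ _ => lt_trans⟩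
  have : Std.Irrefl fun k i : I => ρ k < ρ i := ⟨fun _ => lt_irrefl _⟩
  induction i using (Finite.wellFounded_of_trans_of_irrefl fun k i : I => ρ k < ρ i).induction with
  | _ i ih =>
  intro hN
  by_cases hij : i = j
  · exact Or.inl hij
  have h3 := congrFun (congrFun h1 i) j
  rw [add_mul, one_mul, Matrix.add_apply, Matrix.one_apply_ne hij, Matrix.mul_apply] at h3
  have h4 : ∑ k, a i k * N k j ≠ 0 := fun h => hN (by rwa [h, add_zero] at h3)
  obtain ⟨k, -, hk⟩ := Finset.exists_ne_zero_of_sum_ne_zero h4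
  have h5 := ha i k (left_ne_zero_of_mul hk)
  rcases ih k (hr i k h5) (right_ne_zero_of_mul hk) with rfl | h6
  · exact Or.inr h5
  · exact Or.inr (ht i k j h5 h6)

open Classical in
theorem Mt.exists_γ {d : I → ℤ} {A : Matrix I I R} (hA : Gr (-1) d d A) (m : Mt A) :
    ∃ γ : Matrix I I R, Gr 1 d d γ ∧ (∀ i j, γ i j ≠ 0 → m.dn i ∧ m.up j) ∧
      (∀ i j, m.up i → (A * γ) i j = (1 : Matrix I I R) i j) ∧
      (∀ i j, m.dn j → (γ * A) i j = (1 : Matrix I I R) i j) ∧
      ∀ i j, γ i j ≠ 0 → j = m.σ i ∨ m.ρ j < m.ρ (m.σ i) := by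
  rcases subsingleton_or_nontrivial R with hR | hR
  · exact ⟨0, fun _ _ h => absurd rfl h, fun _ _ h => absurd rfl h,
      fun _ _ _ => Subsingleton.elim _ _, fun _ _ _ => Subsingleton.elim _ _,
      fun _ _ h => absurd rfl h⟩
  have hv : ∀ u, ∃ v : Rˣ, (m.up u → (v : R) = A u (m.σ u)) ∧ (¬ m.up u → v = 1) := fun u => by
    by_cases h : m.up u
    · exact ⟨(m.unit u h).unit, fun _ => rfl, fun h' => absurd h h'⟩
    · exact ⟨1, fun h' => absurd h' h, fun _ => rfl⟩
  choose v hv1 hv2 using hv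
  have hd : ∀ u, m.up u → d (m.σ u) = d u + -1 := fun u h => hA _ _ (m.unit u h).ne_zero
  let a : Matrix I I R := fun u u' =>
    if m.up u ∧ m.up u' ∧ u ≠ u' then ((v u)⁻¹ : Rˣ) * A u (m.σ u') else 0
  obtain ⟨N, n1, n2, n3⟩ := Morse_inv m.ρ
    (fun u u' => m.up u ∧ m.up u' ∧ m.ρ u' < m.ρ u ∧ d u' = d u) (fun _ _ h => h.2.2.1)
    (fun _ _ _ h h' => ⟨h.1, h'.2.1, h'.2.2.1.trans h.2.2.1, h'.2.2.2.trans h.2.2.2⟩) a (by
      intro u u' h
      by_cases h' : m.up u ∧ m.up u' ∧ u ≠ u'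
      · simp only [a, if_pos h'] at h
        have h1 := right_ne_zero_of_mul h
        have h2 := m.tri u _ h'.1 (m.up_σ u' h'.2.1).1 h1 fun e => h'.2.2 (by
          rw [← (m.up_σ u h'.1).2, ← e, (m.up_σ u' h'.2.1).2])
        rw [(m.up_σ u' h'.2.1).2] at h2
        have h3 := hA _ _ h1
        have h4 := hd u' h'.2.1
        exact ⟨h'.1, h'.2.1, h2, by omega⟩
      · exact absurd (if_neg h') h)
  obtain ⟨M, hM⟩ : ∃ M, M = Matrix.diagonal (fun u => (v u : R)) * (1 + a) := ⟨_, rfl⟩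
  obtain ⟨X, hX⟩ : ∃ X, X = N * Matrix.diagonal (fun u => (((v u)⁻¹ : Rˣ) : R)) := ⟨_, rfl⟩
  have x1 : M * X = 1 := by
    rw [hM, hX, mul_assoc, ← mul_assoc (1 + a), n1, one_mul, Matrix.diagonal_mul_diagonal]
    simp
  have x2 : X * M = 1 := by
    rw [hM, hX, mul_assoc, ← mul_assoc (Matrix.diagonal _), Matrix.diagonal_mul_diagonal]
    simpa using n2
  have x3 : ∀ u j, X u j ≠ 0 → u = j ∨ (m.up u ∧ m.up j ∧ m.ρ j < m.ρ u ∧ d j = d u) := by
    intro u j h
    rw [hX, Matrix.mul_diagonal] at h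
    exact n3 u j (left_ne_zero_of_mul h)
  have x4 : ∀ u u', m.up u → M u u' = if m.up u' then A u (m.σ u') else 0 := by
    intro u u' hu
    rw [hM, Matrix.diagonal_mul, Matrix.add_apply]
    by_cases e : u = u'
    · subst e
      simp [a, hu, hv1 u hu]
    · by_cases hu' : m.up u'
      · simp [a, hu, hu', e]
      · simp [a, hu', e]
  let S : Matrix I I R := fun i u => if m.dn i ∧ m.σ i = u then 1 else 0
  have s1 : ∀ i j, (S * X) i j = if m.dn i then X (m.σ i) j else 0 := by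
    intro i j
    by_cases h : m.dn i <;> simp [S, Matrix.mul_apply, h]
  have s2 : ∀ u u', (A * S) u u' = if m.up u' then A u (m.σ u') else 0 := by
    intro u u'
    have : ∀ i, S i u' = if m.up u' ∧ i = m.σ u' then 1 else 0 := fun i =>
      if_congr ⟨fun h => h.2 ▸ ⟨(m.dn_σ i h.1).1, (m.dn_σ i h.1).2.symm⟩,
        fun h => h.2 ▸ m.up_σ u' h.1⟩ rfl rfl
    by_cases h : m.up u' <;> simp [Matrix.mul_apply, this, h]
  have s3 : ∀ i j, (S * X) i j ≠ 0 → m.dn i ∧ m.up j ∧ d j = d i + 1 ∧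
      (j = m.σ i ∨ m.ρ j < m.ρ (m.σ i)) := by
    intro i j h
    rw [s1] at h
    by_cases hi : m.dn i
    · rw [if_pos hi] at h
      have h1 := m.dn_σ i hi
      have h2 := hd _ h1.1
      rw [h1.2] at h2
      rcases x3 _ _ h with rfl | h3
      · exact ⟨hi, h1.1, by omega, Or.inl rfl⟩
      · exact ⟨hi, h3.2.1, by have := h3.2.2.2; omega, Or.inr h3.2.2.1⟩
    · exact absurd (if_neg hi) h
  refine ⟨S * X, fun i j h => (s3 i j h).2.2.1, fun i j h => ⟨(s3 i j h).1, (s3 i j h).2.1⟩,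
    fun u j hu => ?_, fun i j hj => ?_, fun i j h => (s3 i j h).2.2.2⟩
  · rw [← x1, ← mul_assoc, Matrix.mul_apply, Matrix.mul_apply]
    exact Finset.sum_congr rfl fun u' _ => by rw [s2, x4 u u' hu]
  · by_cases hi : m.dn i
    · have h1 : (1 : Matrix I I R) i j = (X * M) (m.σ i) (m.σ j) := by
        rw [x2, Matrix.one_apply, Matrix.one_apply]
        exact if_congr ⟨fun e => e ▸ rfl, fun e => by
          rw [← (m.dn_σ i hi).2, e, (m.dn_σ j hj).2]⟩ rfl rfl
      rw [h1, Matrix.mul_apply, Matrix.mul_apply]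
      refine Finset.sum_congr rfl fun u _ => ?_
      by_cases h : (S * X) i u = 0
      · rw [h, zero_mul]
        rw [s1, if_pos hi] at h
        rw [h, zero_mul]
      · rw [x4 u _ (s3 i u h).2.1, if_pos (m.dn_σ j hj).1, (m.dn_σ j hj).2, s1, if_pos hi]
    · rw [Matrix.one_apply_ne fun e : i = j => hi (e ▸ hj), Matrix.mul_apply]
      exact Finset.sum_eq_zero fun u _ => by rw [s1, if_neg hi, zero_mul]

theorem Mt.he {da : I → ℤ} {A : Matrix I I R} {db : J → ℤ} {B : Matrix J J R} (hA : Cx da A)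
    (m : Mt A) (P : Matrix I J R) (hP : Gr 0 da db P) (hc : A * P = P * B)
    (h0 : ∀ i j, m.up i → P i j = 0) (c : J → I)
    (h1 : ∀ i, (¬ m.up i ∧ ¬ m.dn i) ↔ i ∈ Set.range c) (h2 : ∀ j j', j ≠ j' → P (c j) j' = 0)
    (h3 : ∀ j, IsUnit (P (c j) j)) (h4 : Function.Injective c) : HE da A db B := by
  obtain ⟨γ, g1, g2, g3, g4, -⟩ := m.exists_γ hA.gr
  let C : Matrix J I R := fun j i => if c j = i then 1 else 0
  have c1 : ∀ {K : Type} (Y : Matrix I K R) j k, (C * Y) j k = Y (c j) k := by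
    intro K Y j k
    simp [C, Matrix.mul_apply]
  obtain ⟨U, hU⟩ : ∃ U : Matrix J J R, U = Matrix.diagonal fun j => (((h3 j).unit⁻¹ : Rˣ) : R) :=
    ⟨_, rfl⟩
  have c2 : C * P = Matrix.diagonal fun j => ((h3 j).unit : R) := by
    funext j j'
    rw [c1]
    by_cases e : j = j'
    · subst e
      rw [Matrix.diagonal_apply_eq]
      rfl
    · rw [Matrix.diagonal_apply_ne _ e, h2 j j' e]
  have u1 : U * (C * P) = 1 := by
    rw [hU, c2, Matrix.diagonal_mul_diagonal]
    simp only [Units.inv_mul, Matrix.diagonal_one]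
  have u2 : C * P * U = 1 := by
    rw [hU, c2, Matrix.diagonal_mul_diagonal]
    simp only [Units.mul_inv, Matrix.diagonal_one]
  have p1 : γ * P = 0 := by
    funext i j
    refine Finset.sum_eq_zero fun k _ => ?_
    by_cases h : γ i k = 0
    · simp [h]
    · simp [h0 k j (g2 i k h).2]
  have p2 : γ * (A * γ) = γ := by
    funext i j
    conv_rhs => rw [← mul_one γ]
    rw [Matrix.mul_apply, Matrix.mul_apply]
    refine Finset.sum_congr rfl fun k _ => ?_
    by_cases h : γ i k = 0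
    · rw [h, zero_mul, zero_mul]
    · rw [g3 k j (g2 i k h).2]
  obtain ⟨φ, hφ⟩ : ∃ φ, φ = 1 - A * γ - γ * A := ⟨_, rfl⟩
  have f1 : A * φ = φ * A := by
    rw [hφ, mul_sub, mul_sub, sub_mul, sub_mul, ← mul_assoc, hA.sq, mul_assoc γ, hA.sq]
    simp [mul_assoc]
  have f2 : γ * A * φ = 0 := by
    rw [hφ, mul_sub, mul_sub, mul_assoc γ A (A * γ), ← mul_assoc A A, hA.sq, ← mul_assoc (γ * A),
      mul_assoc γ A γ, p2]
    simp
  have f3 : φ * P = P := by
    rw [hφ, Matrix.sub_mul, Matrix.sub_mul, Matrix.mul_assoc, Matrix.mul_assoc, p1, hc,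
      ← Matrix.mul_assoc γ, p1]
    simp
  obtain ⟨F, hF⟩ : ∃ F, F = U * C * φ := ⟨_, rfl⟩
  have e1 : F * P = 1 := by rw [hF, Matrix.mul_assoc, f3, Matrix.mul_assoc, u1]
  have e2 : P * F = φ := by
    have y1 : γ * A * (P * F - φ) = 0 := by
      rw [mul_sub, f2, ← Matrix.mul_assoc, Matrix.mul_assoc γ, hc, ← Matrix.mul_assoc γ, p1]
      simp
    have y2 : ∀ l k, ¬ m.dn l → (P * F - φ) l k = 0 := by
      intro l k hl
      rw [Matrix.sub_apply, sub_eq_zero]
      by_cases hu : m.up l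
      · have z1 : (γ * A) l k = 0 := Finset.sum_eq_zero fun q _ => by
          have : γ l q = 0 := by
            by_contra h
            exact hl (g2 l q h).1
          simp [this]
        rw [hφ, Matrix.sub_apply, Matrix.sub_apply, g3 l k hu, z1, sub_self, sub_self]
        exact Finset.sum_eq_zero fun q _ => by simp [h0 l q hu]
      · obtain ⟨j, rfl⟩ := (h1 l).1 ⟨hu, hl⟩
        rw [← c1 (P * F), ← c1 φ, hF, ← Matrix.mul_assoc, ← Matrix.mul_assoc, ← Matrix.mul_assoc, u2,
          Matrix.one_mul]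
    rw [← sub_eq_zero, ← y1]
    funext i k
    conv_lhs => rw [← one_mul (P * F - φ)]
    rw [Matrix.mul_apply, Matrix.mul_apply]
    refine Finset.sum_congr rfl fun l _ => ?_
    by_cases hl : m.dn l
    · rw [g4 i l hl]
    · rw [y2 l k hl, mul_zero, mul_zero]
  refine ⟨P, F, γ, 0, hP, ?_, g1, Gr.zero _ _ _, hc, ?_, ?_, ?_⟩
  · have q1 : Gr 0 db db U := fun j j' h => by
      rw [hU] at h
      by_cases e : j = j'
      · rw [e, add_zero]
      · exact absurd (Matrix.diagonal_apply_ne _ e) h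
    have q2 : Gr 0 db da C := fun j i h => by
      by_cases e : c j = i
      · have : Nontrivial R := nontrivial_of_ne _ _ h
        have := hP _ _ (h3 j).ne_zero
        rw [← e]
        omega
      · exact absurd (if_neg e) h
    have q3 : Gr 0 da da φ :=
      hφ ▸ ((Gr.one da).sub (hA.gr.mul g1 (by norm_num))).sub (g1.mul hA.gr (by norm_num))
    exact hF ▸ (q1.mul q2 (add_zero 0).symm).mul q3 (add_zero 0).symm
  · calc B * F = F * P * B * F := by rw [e1, Matrix.one_mul]
      _ = F * (A * (P * F)) := by rw [Matrix.mul_assoc F, ← hc]; simp only [Matrix.mul_assoc]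
      _ = F * P * F * A := by rw [e2, f1, ← e2]; simp only [Matrix.mul_assoc]
      _ = F * A := by rw [e1, Matrix.one_mul]
  · rw [e2, hφ]
    abel
  · rw [e1]
    simp

end Pool.Agent.Work.MP_735653_gt
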