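import Pool.Agent.Work.MP_735653_gt.LDefs
import Pool.Agent.Work.MP_735653_gt.Morse

/-! Basic facts on cells, incidence numbers and matchings. -/

namespace Pool.Agent.Work.MP_735653_gt

variable {D : ℕ} {G : Type} [Group G] {a b c : Cell D} {i j : Fin D}

lemma LCB_ee (i j : Fin D) : ee i j = if j = i then 1 else 0 := Pi.single_apply _ _ _

lemma LCB_ee_self (i : Fin D) : ee i i = 1 := by rw [LCB_ee, if_pos rfl]

lemma LCB_ee_ne (h : j ≠ i) : ee i j = 0 := by rw [LCB_ee, if_neg h]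

/-- the set of odd coordinates -/
def LCB_odd (a : Cell D) : Finset (Fin D) := Finset.univ.filter fun i => a i % 2 = 1

lemma LCB_mem : i ∈ LCB_odd a ↔ a i % 2 = 1 := by simp [LCB_odd]

lemma LCB_dim (a : Cell D) : dim a = ((LCB_odd a).card : ℕ) := rfl

theorem Face.refl (a : Cell D) : Face a a := by
  exact fun _ => Or.inl rfl

theorem Face.trans (h : Face c b) (h' : Face b a) : Face c a := by
  intro i
  have h1 := h i
  have h2 := h' i
  omega

theorem Face.antisymm (h : Face a b) (h' : Face b a) : a = b := by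
  funext i
  have h1 := h i
  have h2 := h' i
  omega

theorem Fc.face (h : Fc b a) : Face b a := by
  obtain ⟨i, hi, h⟩ := h
  intro j
  by_cases hj : j = i
  · subst hj
    rcases h with rfl | rfl <;> simp [LCB_ee_self, hi]
  · rcases h with rfl | rfl <;> simp [LCB_ee_ne hj]

theorem Fc.dim_eq (h : Fc b a) : dim b + 1 = dim a := by
  obtain ⟨i, hi, h⟩ := h
  have h1 : LCB_odd b = (LCB_odd a).erase i := by
    ext j
    rw [Finset.mem_erase, LCB_mem, LCB_mem]
    by_cases hj : j = i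
    · subst hj
      rcases h with rfl | rfl <;> simp only [Pi.add_apply, Pi.sub_apply, LCB_ee_self] <;> omega
    · rcases h with rfl | rfl <;> simp [LCB_ee_ne hj, hj]
  rw [LCB_dim, LCB_dim, h1, ← Finset.card_erase_add_one (LCB_mem.2 hi)]
  push_cast
  rfl

lemma LCB_sub (h : Face b a) : LCB_odd b ⊆ LCB_odd a := fun i hi => by
  rw [LCB_mem] at hi ⊢
  have := h i
  omega

theorem Face.dim_le (h : Face b a) : dim b ≤ dim a := by
  rw [LCB_dim, LCB_dim]
  exact_mod_cast Finset.card_le_card (LCB_sub h)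

theorem Face.eq_of_dim (h : Face b a) (h' : dim a ≤ dim b) : b = a := by
  rw [LCB_dim, LCB_dim] at h'
  have h1 := Finset.eq_of_subset_of_card_le (LCB_sub h) (by exact_mod_cast h')
  funext i
  have h2 : i ∈ LCB_odd b ↔ i ∈ LCB_odd a := by rw [h1]
  rw [LCB_mem, LCB_mem] at h2
  have := h i
  omega

theorem face_finite (a : Cell D) : {b | Face b a}.Finite := by
  refine (Finset.finite_toSet
    (Fintype.piFinset fun i => Finset.Icc (a i - 1) (a i + 1))).subset fun b hb => ?_
  rw [Finset.mem_coe, Fintype.mem_piFinset]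
  intro i
  have := hb i
  rw [Finset.mem_Icc]
  omega

theorem dim_nonneg (a : Cell D) : 0 ≤ dim a := by
  exact Int.natCast_nonneg _

theorem dim_le (a : Cell D) : dim a ≤ D := by
  rw [LCB_dim]
  have := Finset.card_le_univ (LCB_odd a)
  rw [Fintype.card_fin] at this
  exact_mod_cast this

theorem dim_eq_zero_iff : dim a = 0 ↔ Vtx a := by
  rw [LCB_dim, Nat.cast_eq_zero, Finset.card_eq_zero, Finset.eq_empty_iff_forall_notMem]
  refine forall_congr' fun i => ?_
  rw [LCB_mem]
  omega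

lemma LCB_vtx_bot (a : Cell D) : Vtx (bot a) := fun i => by
  simp only [bot]
  omega

theorem dim_eq_one_iff : dim a = 1 ↔ ∃ v i, Vtx v ∧ a = v + ee i := by
  rw [LCB_dim, Nat.cast_eq_one, Finset.card_eq_one]
  constructor
  · rintro ⟨i, hi⟩
    refine ⟨bot a, i, LCB_vtx_bot a, funext fun k => ?_⟩
    have h1 : k ∈ LCB_odd a ↔ k ∈ ({i} : Finset (Fin D)) := by rw [hi]
    rw [LCB_mem, Finset.mem_singleton] at h1
    simp only [Pi.add_apply, bot, LCB_ee]
    split_ifs <;> omega
  · rintro ⟨v, i, hv, rfl⟩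
    refine ⟨i, Finset.ext fun k => ?_⟩
    have := hv k
    rw [LCB_mem, Finset.mem_singleton, Pi.add_apply, LCB_ee]
    split_ifs <;> omega

theorem dim_eq_two_iff : dim a = 2 ↔ ∃ v i j, Vtx v ∧ i < j ∧ a = v + ee i + ee j := by
  have h0 : dim a = 2 ↔ (LCB_odd a).card = 2 := by
    rw [LCB_dim]
    exact_mod_cast Iff.rfl
  rw [h0, Finset.card_eq_two]
  constructor
  · rintro ⟨i, j, hij, hi⟩
    have key : a = bot a + ee i + ee j := funext fun k => by
      have h1 : k ∈ LCB_odd a ↔ k ∈ ({i, j} : Finset (Fin D)) := by rw [hi]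
      rw [LCB_mem, Finset.mem_insert, Finset.mem_singleton] at h1
      simp only [Pi.add_apply, bot, LCB_ee]
      split_ifs <;> omega
    rcases lt_or_gt_of_ne hij with h | h
    · exact ⟨bot a, i, j, LCB_vtx_bot a, h, key⟩
    · exact ⟨bot a, j, i, LCB_vtx_bot a, h, key.trans (add_right_comm _ _ _)⟩
  · rintro ⟨v, i, j, hv, hij, rfl⟩
    refine ⟨i, j, hij.ne, Finset.ext fun k => ?_⟩
    have := hv k
    rw [LCB_mem, Finset.mem_insert, Finset.mem_singleton, Pi.add_apply, Pi.add_apply, LCB_ee,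
      LCB_ee]
    split_ifs <;> omega

theorem vtx_bot (a : Cell D) : Vtx (bot a) := by
  exact LCB_vtx_bot a

theorem bot_face (a : Cell D) : Face (bot a) a := by
  intro i
  simp only [bot]
  omega

theorem Vtx.bot_eq (h : Vtx a) : bot a = a := by
  funext i
  have := h i
  simp only [bot]
  omega

theorem sg_mul_self (a : Cell D) (i : Fin D) : sg a i * sg a i = 1 := by
  rw [sg, ← mul_pow, neg_mul_neg, one_mul, one_pow]

theorem sg_congr (h : ∀ j, j < i → a j % 2 = b j % 2) : sg a i = sg b i := by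
  unfold sg
  congr 2
  exact Finset.filter_congr fun j _ => and_congr_right fun hj => by rw [h j hj]

lemma LCB_sg (a : Cell D) (i : Fin D) :
    sg a i = ∏ k, if k < i ∧ a k % 2 = 1 then (-1 : ℤ) else 1 := by
  rw [Finset.prod_ite, Finset.prod_const_one, mul_one, Finset.prod_const, sg]

lemma LCB_flip (h : j < i) (h1 : ∀ k, k ≠ j → b k = a k) (h2 : b j % 2 ≠ a j % 2) :
    sg b i = -sg a i := by
  rw [LCB_sg, LCB_sg, ← Finset.mul_prod_erase _ _ (Finset.mem_univ j),
    ← Finset.mul_prod_erase _ _ (Finset.mem_univ j), ← neg_mul]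
  congr 1
  · simp only [h, true_and]
    split_ifs <;> omega
  · exact Finset.prod_congr rfl fun k hk => by rw [h1 k (Finset.mem_erase.1 hk).1]

theorem sg_add_of_lt (h : j < i) (a : Cell D) : sg (a + ee j) i = -sg a i := by
  refine LCB_flip h (fun k hk => ?_) ?_
  · rw [Pi.add_apply, LCB_ee_ne hk, add_zero]
  · rw [Pi.add_apply, LCB_ee_self]
    omega

theorem sg_sub_of_lt (h : j < i) (a : Cell D) : sg (a - ee j) i = -sg a i := by
  refine LCB_flip h (fun k hk => ?_) ?_
  · rw [Pi.sub_apply, LCB_ee_ne hk, sub_zero]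
  · rw [Pi.sub_apply, LCB_ee_self]
    omega

lemma LCB_ne1 (a : Cell D) (i k : Fin D) : a + ee i ≠ a - ee k := fun h => by
  have := congrFun h i
  rw [Pi.add_apply, Pi.sub_apply, LCB_ee_self, LCB_ee] at this
  split_ifs at this <;> omega

lemma LCB_inj : ee i = ee j ↔ i = j := by
  refine ⟨fun h => ?_, fun h => h ▸ rfl⟩
  have := congrFun h i
  rw [LCB_ee_self, LCB_ee] at this
  split_ifs at this with h1
  · exact h1
  · omega

theorem inc_add (h : a i % 2 = 1) : inc a (a + ee i) = sg a i := by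
  rw [inc, Finset.sum_eq_single i]
  · simp [h, LCB_ne1]
  · intro k _ hk
    simp [LCB_ne1, LCB_inj, hk.symm]
  · simp

theorem inc_sub (h : a i % 2 = 1) : inc a (a - ee i) = -sg a i := by
  rw [inc, Finset.sum_eq_single i]
  · simp [h, (LCB_ne1 _ _ _).symm]
  · intro k _ hk
    simp [(LCB_ne1 _ _ _).symm, LCB_inj, hk.symm]
  · simp

theorem fc_of_inc (h : inc a b ≠ 0) : Fc b a := by
  obtain ⟨i, -, hi⟩ := Finset.exists_ne_zero_of_sum_ne_zero h
  by_cases h1 : a i % 2 = 1
  · refine ⟨i, h1, ?_⟩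
    by_contra h2
    rw [not_or] at h2
    simp [h2.1, h2.2] at hi
  · simp [h1] at hi

theorem sum_inc {M : Type} [AddCommGroup M] (S : Finset (Cell D)) (a : Cell D) (f : Cell D → M) :
    ∑ b ∈ S, inc a b • f b = ∑ i, if a i % 2 = 1 then
      sg a i • ((if a + ee i ∈ S then f (a + ee i) else 0) -
        if a - ee i ∈ S then f (a - ee i) else 0) else 0 := by
  simp only [inc, Finset.sum_smul]
  rw [Finset.sum_comm]
  refine Finset.sum_congr rfl fun i _ => ?_
  split_ifs with h
  all_goals simp [mul_smul, sub_smul, ← Finset.smul_sum, *]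

/-- the coboundary of a function on cells -/
def LCB_bd (a : Cell D) (g : Cell D → ℤ) : ℤ :=
  ∑ i, if a i % 2 = 1 then sg a i * (g (a + ee i) - g (a - ee i)) else 0

lemma LCB_bd_bd (a : Cell D) (g : Cell D → ℤ) : LCB_bd a (fun b => LCB_bd b g) = 0 := by
  let T : Fin D → Fin D → ℤ := fun i j => if a i % 2 = 1 ∧ a j % 2 = 1 ∧ j ≠ i then
    sg a i * sg (a + ee i) j * (g (a + ee i + ee j) - g (a + ee i - ee j) -
      g (a - ee i + ee j) + g (a - ee i - ee j)) else 0
  have h1 : LCB_bd a (fun b => LCB_bd b g) = ∑ i, ∑ j, T i j := by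
    refine Finset.sum_congr rfl fun i _ => ?_
    by_cases hi : a i % 2 = 1
    · rw [if_pos hi]
      simp only [LCB_bd, ← Finset.sum_sub_distrib, Finset.mul_sum]
      refine Finset.sum_congr rfl fun j _ => ?_
      have h2 : sg (a - ee i) j = sg (a + ee i) j := sg_congr fun k _ => by
        rw [Pi.add_apply, Pi.sub_apply, LCB_ee]
        split_ifs <;> omega
      by_cases hj : j = i
      · subst hj
        rw [if_neg, if_neg]
        · simp [T]
        · rw [Pi.sub_apply, LCB_ee_self]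
          omega
        · rw [Pi.add_apply, LCB_ee_self]
          omega
      · simp only [T, Pi.add_apply, Pi.sub_apply, LCB_ee_ne hj, add_zero, sub_zero, hi, hj, h2,
          true_and, ne_eq, not_false_eq_true, and_true]
        split_ifs
        · ring
        · ring
    · simp [T, hi]
  have h3 : ∀ i j, i < j → T i j = -T j i := fun i j hij => by
    have h4 : sg (a + ee j) i = sg a i := sg_congr fun k hk => by
      rw [Pi.add_apply, LCB_ee_ne (hk.trans hij).ne, add_zero]
    simp only [T, hij.ne, hij.ne', ne_eq, not_false_eq_true, and_true, h4, sg_add_of_lt hij]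
    by_cases h7 : a i % 2 = 1 ∧ a j % 2 = 1
    · rw [if_pos h7, if_pos h7.symm, add_right_comm a (ee j), add_sub_right_comm a (ee j),
        sub_right_comm a (ee j), ← add_sub_right_comm a (ee i)]
      ring
    · rw [if_neg h7, if_neg fun h8 => h7 h8.symm, neg_zero]
  have h5 : ∀ i j, T i j = -T j i := fun i j => by
    rcases lt_trichotomy i j with h | rfl | h
    · exact h3 i j h
    · simp [T]
    · rw [h3 j i h, neg_neg]
  have h6 : ∑ i, ∑ j, T i j = -∑ i, ∑ j, T i j := by
    conv_rhs => rw [Finset.sum_comm]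
    simp only [← Finset.sum_neg_distrib]
    exact Finset.sum_congr rfl fun i _ => Finset.sum_congr rfl fun j _ => h5 i j
  omega

theorem sum_inc_inc (S : Finset (Cell D)) (a c : Cell D)
    (h : ∀ b, Face b a → Face c b → b ∈ S) : ∑ b ∈ S, inc a b * inc b c = 0 := by
  have h1 : ∀ b, Fc b a → (if b ∈ S then inc b c else 0) = inc b c := fun b hb => by
    split_ifs with h2
    · rfl
    · by_contra h3
      exact h2 (h b hb.face (fc_of_inc (Ne.symm h3)).face)
  have h2 := sum_inc S a fun b => inc b c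
  simp only [smul_eq_mul] at h2
  refine (h2.trans (Finset.sum_congr rfl fun i _ => ?_)).trans
    (LCB_bd_bd a fun b => if c = b then 1 else 0)
  by_cases hi : a i % 2 = 1
  · rw [if_pos hi, if_pos hi, h1 _ ⟨i, hi, Or.inl rfl⟩, h1 _ ⟨i, hi, Or.inr rfl⟩]
    rfl
  · rw [if_neg hi, if_neg hi]

theorem LC.μ_self (X : LC D G) (ha : a ∈ X.K) : X.μ a a = 1 := by
  have := X.coc a ha a a (Face.refl a) (Face.refl a)
  exact (mul_eq_left.1 this.symm)

theorem LC.cx (X : LC D G) {S : Finset (Cell D)} (hS : S ⊆ X.K)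
    (h : ∀ a ∈ S, ∀ c ∈ S, ∀ b, Face b a → Face c b → b ∈ S) : Cx (dimS S) (bdS X.μ S) := by
  constructor
  · intro a b hab
    have h1 := (fc_of_inc (MonoidAlgebra.single_ne_zero.1 hab)).dim_eq
    simp only [dimS]
    omega
  · ext1 a c
    have h1 : ∀ b : S, bdS X.μ S a b * bdS X.μ S b c =
        MonoidAlgebra.singleAddHom (X.μ a.1 c.1) (inc a.1 b.1 * inc b.1 c.1) := fun b => by
      rw [MonoidAlgebra.singleAddHom_apply, bdS, bdS, MonoidAlgebra.single_mul_single]
      by_cases h2 : inc a.1 b.1 * inc b.1 c.1 = 0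
      · rw [h2, MonoidAlgebra.single_zero, MonoidAlgebra.single_zero]
      · rw [X.coc a.1 (hS a.2) b.1 c.1 (fc_of_inc (left_ne_zero_of_mul h2)).face
          (fc_of_inc (right_ne_zero_of_mul h2)).face]
    rw [Matrix.mul_apply, Finset.sum_congr rfl fun b _ => h1 b, ← map_sum,
      Finset.sum_coe_sort S fun b => inc a.1 b * inc b c.1,
      sum_inc_inc S a.1 c.1 (h a.1 a.2 c.1 c.2), map_zero]
    rfl

lemma LCB_unit (g : G) (h : Fc b a) : IsUnit (MonoidAlgebra.single g (inc a b) : ZG G) := by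
  have h1 : inc a b * inc a b = 1 := by
    obtain ⟨i, hi, rfl | rfl⟩ := h
    · rw [inc_add hi, sg_mul_self]
    · rw [inc_sub hi, neg_mul_neg, sg_mul_self]
  refine ⟨⟨_, MonoidAlgebra.single g⁻¹ (inc a b), ?_, ?_⟩, rfl⟩ <;>
    simp [MonoidAlgebra.single_mul_single, h1, MonoidAlgebra.one_def]

open Classical in
/-- the partner of a cell inside the set -/
noncomputable def LCB_σ {S : Finset (Cell D)} (m : LM S) (a : S) : S :=
  if h : m.σ a.1 ∈ S then ⟨m.σ a.1, h⟩ else a

lemma LCB_σ_val {S : Finset (Cell D)} (m : LM S) {a : S} (h : m.σ a.1 ∈ S) :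
    (LCB_σ m a).1 = m.σ a.1 := by
  rw [LCB_σ, dif_pos h]

/-- the matching of the basis -/
noncomputable def LCB_mt (μ : Cell D → Cell D → G) {S : Finset (Cell D)} (m : LM S) :
    Mt (bdS μ S) where
  up a := m.up a.1
  dn a := m.dn a.1
  σ := LCB_σ m
  ρ a := m.ρ a.1
  up_σ a h := by
    obtain ⟨h1, h2, h3, -⟩ := m.up_σ a.1 a.2 h
    have h4 := LCB_σ_val m h1
    refine ⟨h4 ▸ h2, Subtype.ext ?_⟩
    rw [LCB_σ_val m (by rw [h4, h3]; exact a.2), h4, h3]
  dn_σ a h := by
    obtain ⟨h1, h2, h3⟩ := m.dn_σ a.1 a.2 h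
    have h4 := LCB_σ_val m h1
    refine ⟨h4 ▸ h2, Subtype.ext ?_⟩
    rw [LCB_σ_val m (by rw [h4, h3]; exact a.2), h4, h3]
  disj a := m.disj a.1 a.2
  unit a h := by
    obtain ⟨h1, -, -, h3⟩ := m.up_σ a.1 a.2 h
    exact LCB_unit _ (by rw [LCB_σ_val m h1]; exact h3)
  tri a b ha hb hab hne := by
    rw [LCB_σ_val m (m.dn_σ b.1 b.2 hb).1]
    refine m.tri a.1 a.2 b.1 b.2 ha hb (fc_of_inc (MonoidAlgebra.single_ne_zero.1 hab)) fun h => ?_
    exact hne (Subtype.ext (h.trans (LCB_σ_val m (m.up_σ a.1 a.2 ha).1).symm))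

theorem LM.he {μ : Cell D → Cell D → G} {S : Finset (Cell D)} (m : LM S)
    (hS : Cx (dimS S) (bdS μ S)) {J : Type} [Fintype J] [DecidableEq J] {db : J → ℤ}
    {B : Matrix J J (ZG G)} (P : Cell D → J → ZG G) (hP : ∀ a ∈ S, ∀ j, P a j ≠ 0 → db j = dim a)
    (hc : ∀ a ∈ S, ∀ j, ∑ b ∈ S, inc a b • (MonoidAlgebra.single (μ a b) 1 * P b j) =
      ∑ k, P a k * B k j)
    (h0 : ∀ a ∈ S, m.up a → ∀ j, P a j = 0) (cr : J → Cell D) (h1 : ∀ j, cr j ∈ S)
    (h2 : ∀ a ∈ S, (¬ m.up a ∧ ¬ m.dn a) ↔ a ∈ Set.range cr)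
    (h3 : ∀ j j', j ≠ j' → P (cr j) j' = 0) (h4 : ∀ j, IsUnit (P (cr j) j)) :
    HE (dimS S) (bdS μ S) db B := by
  refine Mt.he hS (LCB_mt μ m) (fun a j => P a.1 j) (fun a j h => ?_) ?_
    (fun a j h => h0 a.1 a.2 h j) (fun j => ⟨cr j, h1 j⟩) (fun a => ?_) h3 h4 fun j j' h => ?_
  · rw [add_zero]
    exact hP a.1 a.2 j h
  · ext1 a j
    rw [Matrix.mul_apply, Matrix.mul_apply, ← hc a.1 a.2 j, ← Finset.sum_coe_sort S]
    refine Finset.sum_congr rfl fun b _ => ?_
    rw [← smul_mul_assoc, MonoidAlgebra.smul_single', mul_one]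
    rfl
  · refine (h2 a.1 a.2).trans (exists_congr fun j => ?_)
    exact ⟨fun h => Subtype.ext h, fun h => congrArg Subtype.val h⟩
  · by_contra h5
    have h6 : cr j = cr j' := congrArg Subtype.val h
    have h7 := h4 j'
    rw [← h6, h3 j j' h5] at h7
    exact not_isUnit_zero h7

end Pool.Agent.Work.MP_735653_gt
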