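import Pool.Agent.Work.MP_735653_gt.TDefs
import Pool.Agent.Work.MP_735653_gt.LCB

/-! The covering map. -/

namespace Pool.Agent.Work.MP_735653_gt

open Topology Filter

variable {D : ℕ} {G : Type} [Group G] {X : LC D G}

theorem CovB_fc (t : ℝ) : ⌈t⌉ = ⌊t⌋ ∨ ⌈t⌉ = ⌊t⌋ + 1 := by
  have h1 := Int.floor_le_ceil t
  have h2 := Int.ceil_le_floor_add_one t
  omega

theorem CovB_floor (t : ℝ) : ⌊t / 2⌋ = ⌊t⌋ / 2 := by
  have h1 := Int.floor_le t
  have h2 := Int.lt_floor_add_one t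
  generalize ⌊t⌋ = F at *
  have e1 : ((2 * (F / 2) : ℤ) : ℝ) ≤ F := by exact_mod_cast (by omega : 2 * (F / 2) ≤ F)
  have e2 : (F : ℝ) ≤ ((2 * (F / 2) + 1 : ℤ) : ℝ) := by
    exact_mod_cast (by omega : F ≤ 2 * (F / 2) + 1)
  generalize F / 2 = q at *
  push_cast at e1 e2
  rw [Int.floor_eq_iff]
  constructor <;> linarith

theorem CovB_ceil (t : ℝ) : ⌈t / 2⌉ = (⌈t⌉ + 1) / 2 := by
  have h1 := Int.le_ceil t
  have h2 := Int.ceil_lt_add_one t
  generalize ⌈t⌉ = F at *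
  have e1 : ((2 * ((F + 1) / 2) - 1 : ℤ) : ℝ) ≤ F := by
    exact_mod_cast (by omega : 2 * ((F + 1) / 2) - 1 ≤ F)
  have e2 : (F : ℝ) ≤ ((2 * ((F + 1) / 2) : ℤ) : ℝ) := by
    exact_mod_cast (by omega : F ≤ 2 * ((F + 1) / 2))
  generalize (F + 1) / 2 = q at *
  push_cast at e1 e2
  rw [Int.ceil_eq_iff]
  constructor <;> linarith

theorem CovB_floor4 (t : ℝ) : ⌊t / 2 - 1 / 4⌋ = (⌊2 * t⌋ - 1) / 4 := by
  have h1 := Int.floor_le (2 * t)
  have h2 := Int.lt_floor_add_one (2 * t)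
  generalize ⌊2 * t⌋ = F at *
  have e1 : ((4 * ((F - 1) / 4) + 1 : ℤ) : ℝ) ≤ F := by
    exact_mod_cast (by omega : 4 * ((F - 1) / 4) + 1 ≤ F)
  have e2 : (F : ℝ) ≤ ((4 * ((F - 1) / 4) + 4 : ℤ) : ℝ) := by
    exact_mod_cast (by omega : F ≤ 4 * ((F - 1) / 4) + 4)
  generalize (F - 1) / 4 = q at *
  push_cast at e1 e2
  rw [Int.floor_eq_iff]
  constructor <;> linarith

theorem CovB_ceil4 (t : ℝ) : ⌈t / 2 + 1 / 4⌉ = (⌈2 * t⌉ + 4) / 4 := by
  have h1 := Int.le_ceil (2 * t)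
  have h2 := Int.ceil_lt_add_one (2 * t)
  generalize ⌈2 * t⌉ = F at *
  have e1 : ((4 * ((F + 4) / 4) - 4 : ℤ) : ℝ) ≤ F := by
    exact_mod_cast (by omega : 4 * ((F + 4) / 4) - 4 ≤ F)
  have e2 : (F : ℝ) ≤ ((4 * ((F + 4) / 4) - 1 : ℤ) : ℝ) := by
    exact_mod_cast (by omega : F ≤ 4 * ((F + 4) / 4) - 1)
  generalize (F + 4) / 4 = q at *
  push_cast at e1 e2
  rw [Int.ceil_eq_iff]
  constructor <;> linarith

theorem CovB_cell (x : Fin D → ℝ) (i : Fin D) :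
    cellOf x i = ⌊x i⌋ / 2 + (⌈x i⌉ + 1) / 2 := by
  simp only [cellOf, CovB_floor, CovB_ceil]

theorem CovB_rnd (x : Fin D → ℝ) (i : Fin D) :
    rnd x i = (⌊2 * x i⌋ - 1) / 4 + (⌈2 * x i⌉ + 4) / 4 := by
  simp only [rnd, CovB_floor4, CovB_ceil4]

theorem CovB_lt {c t : ℝ} (z : ℤ) (h : c = z) : c < t ↔ z < ⌈t⌉ := by
  rw [h, Int.lt_ceil]

theorem CovB_gt {c t : ℝ} (z : ℤ) (h : c = z) : t < c ↔ ⌊t⌋ < z := by
  rw [h, Int.floor_lt]

theorem CovB_eq {t : ℝ} (z : ℤ) : t = z ↔ ⌊t⌋ = z ∧ ⌈t⌉ = z := by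
  constructor
  · rintro rfl
    simp
  · rintro ⟨h1, h2⟩
    have h3 := Int.floor_le t
    have h4 := Int.le_ceil t
    rw [h1] at h3
    rw [h2] at h4
    exact le_antisymm h4 h3

theorem CovB_lt2 {c t : ℝ} (z : ℤ) (h : 2 * c = z) : c < t ↔ z < ⌈2 * t⌉ := by
  rw [Int.lt_ceil, ← h]
  constructor <;> intro h <;> linarith

theorem CovB_gt2 {c t : ℝ} (z : ℤ) (h : 2 * c = z) : t < c ↔ ⌊2 * t⌋ < z := by
  rw [Int.floor_lt, ← h]
  constructor <;> intro h <;> linarith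

theorem cellOf_eq_iff {x : Fin D → ℝ} {a : Cell D} : cellOf x = a ↔
    ∀ i, (a i % 2 = 0 ∧ x i = a i) ∨ (a i % 2 = 1 ∧ (a i : ℝ) - 1 < x i ∧ x i < a i + 1) := by
  rw [funext_iff]
  refine forall_congr' fun i => ?_
  rw [CovB_cell, CovB_eq, CovB_lt (a i - 1) (by push_cast; ring),
    CovB_gt (a i + 1) (by push_cast; ring)]
  have := CovB_fc (x i)
  omega

theorem face_cellOf_iff {x : Fin D → ℝ} {a : Cell D} : Face a (cellOf x) ↔
    ∀ i, (a i % 2 = 0 ∧ (a i : ℝ) - 2 < x i ∧ x i < a i + 2) ∨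
      (a i % 2 = 1 ∧ (a i : ℝ) - 1 < x i ∧ x i < a i + 1) := by
  refine forall_congr' fun i => ?_
  rw [CovB_cell, CovB_lt (a i - 1) (by push_cast; ring : (a i : ℝ) - 1 = _),
    CovB_gt (a i + 1) (by push_cast; ring : (a i : ℝ) + 1 = _),
    CovB_lt (a i - 2) (by push_cast; ring : (a i : ℝ) - 2 = _),
    CovB_gt (a i + 2) (by push_cast; ring : (a i : ℝ) + 2 = _)]
  have := CovB_fc (x i)
  omega

theorem cellOf_face_iff {x : Fin D → ℝ} {a : Cell D} : Face (cellOf x) a ↔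
    ∀ i, ((a i - a i % 2 : ℤ) : ℝ) ≤ x i ∧ x i ≤ ((a i + a i % 2 : ℤ) : ℝ) := by
  refine forall_congr' fun i => ?_
  rw [CovB_cell, ← Int.le_floor, ← Int.ceil_le]
  have := CovB_fc (x i)
  omega

theorem rnd_face_iff {x : Fin D → ℝ} {a : Cell D} : Face (rnd x) a ↔
    ∀ i, ((a i - a i % 2 : ℤ) : ℝ) - 1 / 2 < x i ∧ x i < ((a i + a i % 2 : ℤ) : ℝ) + 1 / 2 := by
  refine forall_congr' fun i => ?_
  rw [CovB_rnd, CovB_lt2 (2 * (a i - a i % 2) - 1) (by push_cast; ring),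
    CovB_gt2 (2 * (a i + a i % 2) + 1) (by push_cast; ring)]
  have := CovB_fc (2 * x i)
  omega

theorem cellOf_cast (a : Cell D) : cellOf (fun i => (a i : ℝ)) = a := by
  funext i
  rw [CovB_cell]
  simp only [Int.floor_intCast, Int.ceil_intCast]
  omega

theorem rnd_cast (a : Cell D) : rnd (fun i => (a i : ℝ)) = a := by
  funext i
  rw [CovB_rnd]
  have : (2 : ℝ) * (a i : ℝ) = ((2 * a i : ℤ) : ℝ) := by push_cast; ring
  simp only [this, Int.floor_intCast, Int.ceil_intCast]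
  omega

theorem CovB_open_face (a : Cell D) : IsOpen {y : Fin D → ℝ | Face a (cellOf y)} := by
  simp only [face_cellOf_iff, Set.ofPred_forall]
  refine isOpen_iInter_of_finite fun i => ?_
  have h1 : ∀ c d : ℝ, IsOpen {y : Fin D → ℝ | c < y i ∧ y i < d} := fun c d =>
    (isOpen_lt continuous_const (continuous_apply i)).inter
      (isOpen_lt (continuous_apply i) continuous_const)
  rcases Int.emod_two_eq_zero_or_one (a i) with h | h
  · simpa [h] using h1 _ _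
  · simpa [h] using h1 _ _

theorem CovB_open_rnd (a : Cell D) : IsOpen {y : Fin D → ℝ | Face (rnd y) a} := by
  simp only [rnd_face_iff, Set.ofPred_forall]
  exact isOpen_iInter_of_finite fun i =>
    (isOpen_lt continuous_const (continuous_apply i)).inter
      (isOpen_lt (continuous_apply i) continuous_const)

theorem eventually_face (x : Fin D → ℝ) : ∀ᶠ y in 𝓝 x, Face (cellOf x) (cellOf y) :=
  (CovB_open_face (cellOf x)).mem_nhds (Face.refl _)

theorem eventually_rnd (x : Fin D → ℝ) : ∀ᶠ y in 𝓝 x, Face (rnd y) (rnd x) :=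
  (CovB_open_rnd (rnd x)).mem_nhds (Face.refl _)

theorem isCompact_Re {K : Finset (Cell D)} (hK : Down K) : IsCompact (Re K) := by
  have : Re K = ⋃ a ∈ K, Set.pi Set.univ fun i =>
      Set.Icc ((a i - a i % 2 : ℤ) : ℝ) ((a i + a i % 2 : ℤ) : ℝ) := by
    ext x
    simp only [Re, Set.mem_ofPred_eq, Set.mem_iUnion, Set.mem_pi, Set.mem_univ, Set.mem_Icc,
      forall_true_left, ← cellOf_face_iff]
    exact ⟨fun h => ⟨_, h, Face.refl _⟩, fun ⟨a, ha, h⟩ => hK a ha _ h⟩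
  rw [this]
  exact K.isCompact_biUnion fun a _ => isCompact_univ_pi fun i => isCompact_Icc

theorem CLe.refl (p : CC X) : CLe X p p :=
  ⟨Face.refl _, by rw [X.μ_self p.2.2, mul_one]⟩

theorem CLe.trans {p q r : CC X} (h : CLe X p q) (h' : CLe X q r) : CLe X p r :=
  ⟨h.1.trans h'.1, by rw [h.2, h'.2, mul_assoc, ← X.coc _ r.2.2 _ _ h'.1 h.1]⟩

theorem CLe.antisymm {p q : CC X} (h : CLe X p q) (h' : CLe X q p) : p = q := by
  have e : p.2.1 = q.2.1 := h.1.antisymm h'.1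
  refine Prod.ext ?_ (Subtype.ext e)
  rw [h.2, e, X.μ_self q.2.2, mul_one]

theorem CLe.finite (p : CC X) : {q | CLe X q p}.Finite := by
  refine (Set.finite_range fun b : X.K => ((p.1 * X.μ p.2.1 b.1, b) : CC X)).subset ?_
  intro q hq
  exact ⟨q.2, Prod.ext hq.2.symm rfl⟩

theorem CLe.smul (g : G) {p q : CC X} : CLe X (g * p.1, p.2) (g * q.1, q.2) ↔ CLe X p q := by
  refine and_congr Iff.rfl ?_
  change g * p.1 = g * q.1 * _ ↔ _
  rw [mul_assoc, mul_left_cancel_iff]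

theorem smul_mem_Uc (g : G) {p : Cov X} {c : CC X} : g • p ∈ Uc X (g * c.1, c.2) ↔ p ∈ Uc X c := by
  have : (g • p).rc = (g * p.rc.1, p.rc.2) := Prod.ext (mul_assoc _ _ _) rfl
  change CLe X (g • p).rc _ ↔ CLe X p.rc c
  rw [this]
  exact CLe.smul g

theorem continuous_lift {Z : Type} [TopologicalSpace Z] (f : Z → Cov X)
    (h1 : Continuous fun z => (f z).x)
    (h2 : ∀ z, ∀ᶠ w in 𝓝 z, CLe X (f z).cell (f w).cell) : Continuous f := by
  refine Cov.continuous_iff.2 ⟨h1, fun c => continuous_Prop.2 ?_⟩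
  refine isOpen_iff_mem_nhds.2 fun z hz => ?_
  filter_upwards [h2 z] with w hw
  exact CLe.trans hz hw

theorem CovB_open_st (c : CC X) : IsOpen {p : Cov X | CLe X c p.cell} :=
  continuous_Prop.1 (Cov.continuous_st c)

theorem CovB_rc_le (p : Cov X) : CLe X p.rc p.cell := ⟨rnd_face _, rfl⟩

theorem CovB_le_of_face {p q r : CC X} (hp : CLe X p r) (hq : CLe X q r)
    (h : Face p.2.1 q.2.1) : CLe X p q :=
  ⟨h, by rw [hp.2, hq.2, mul_assoc, ← X.coc _ r.2.2 _ _ hq.1 h]⟩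

theorem isOpen_Uc (c : CC X) : IsOpen (Uc X c) := by
  refine isOpen_iff_mem_nhds.2 fun p hp => ?_
  have h1 : ∀ᶠ q in 𝓝 p, CLe X p.cell (Cov.cell q) :=
    (CovB_open_st p.cell).mem_nhds (CLe.refl _)
  have h2 : ∀ᶠ q in 𝓝 p, Face (rnd (Cov.x q).1) (rnd p.x.1) :=
    (continuous_subtype_val.comp Cov.continuous_x).continuousAt.eventually (eventually_rnd p.x.1)
  filter_upwards [h1, h2] with q hq1 hq2
  exact CLe.trans (CovB_le_of_face (CovB_rc_le q) ((CovB_rc_le p).trans hq1) hq2) hp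

theorem CovB_isOpenMap (X : LC D G) : IsOpenMap (Cov.x : Cov X → Re X.K) := by
  intro U hU
  refine isOpen_iff_mem_nhds.2 ?_
  rintro _ ⟨p, hp, rfl⟩
  let V : Set (Re X.K) := {y | Face (cellOf p.x.1) (cellOf y.1)}
  have hV : IsOpen V := (CovB_open_face (cellOf p.x.1)).preimage continuous_subtype_val
  let s : V → Cov X := fun y => ⟨p.g * (X.μ (cellOf y.1.1) (cellOf p.x.1))⁻¹, y.1⟩
  have hs1 : ∀ y : V, CLe X p.cell (s y).cell := fun y =>
    ⟨y.2, (inv_mul_cancel_right _ _).symm⟩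
  have hs : Continuous s := by
    refine continuous_lift s continuous_subtype_val fun z => ?_
    have h2 : ∀ᶠ w : V in 𝓝 z, Face (cellOf z.1.1) (cellOf w.1.1) :=
      (continuous_subtype_val.comp continuous_subtype_val).continuousAt.eventually
        (eventually_face z.1.1)
    filter_upwards [h2] with w hw
    refine ⟨hw, ?_⟩
    change p.g * (X.μ (cellOf z.1.1) (cellOf p.x.1))⁻¹ =
      p.g * (X.μ (cellOf w.1.1) (cellOf p.x.1))⁻¹ * X.μ (cellOf w.1.1) (cellOf z.1.1)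
    rw [X.coc _ w.1.2 _ _ hw z.2]
    group
  have hW : IsOpen (Subtype.val '' (s ⁻¹' U)) := hV.isOpenMap_subtype_val _ (hU.preimage hs)
  refine mem_of_superset (hW.mem_nhds ⟨⟨p.x, Face.refl _⟩, ?_, rfl⟩) ?_
  · have : s ⟨p.x, Face.refl _⟩ = p := by
      change Cov.mk (p.g * (X.μ (cellOf p.x.1) (cellOf p.x.1))⁻¹) p.x = p
      rw [X.μ_self p.x.2, inv_one, mul_one]
    rw [Set.mem_preimage, this]
    exact hp
  · rintro _ ⟨y, hy, rfl⟩
    exact ⟨s y, hy, rfl⟩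

theorem isQuotientCoveringMap_x (X : LC D G) :
    IsQuotientCoveringMap (Cov.x : Cov X → Re X.K) G where
  toIsQuotientMap := (CovB_isOpenMap X).isQuotientMap Cov.continuous_x fun y => ⟨⟨1, y⟩, rfl⟩
  toContinuousConstSMul := inferInstance
  apply_eq_iff_mem_orbit {p q} := by
    constructor
    · intro h
      refine ⟨p.g * q.g⁻¹, ?_⟩
      change Cov.mk (p.g * q.g⁻¹ * q.g) q.x = p
      rw [inv_mul_cancel_right, ← h]
    · rintro ⟨g, rfl⟩
      rfl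
  disjoint e := by
    refine ⟨{p | CLe X e.cell p.cell}, (CovB_open_st e.cell).mem_nhds (CLe.refl _), ?_⟩
    rintro g ⟨_, ⟨p, hp, rfl⟩, hq⟩
    have h1 : e.g = p.g * X.μ (cellOf p.x.1) (cellOf e.x.1) := hp.2
    have h2 : e.g = g * p.g * X.μ (cellOf p.x.1) (cellOf e.x.1) := hq.2
    rw [mul_assoc, ← h1] at h2
    exact right_eq_mul.1 h2

end Pool.Agent.Work.MP_735653_gt
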