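import Pool.Agent.Work.MP_735653_gt.PD

/-! One half is a regular value. -/

namespace Pool.Agent.Work.MP_735653_gt

open scoped ContDiff

variable {D : ℕ}

theorem Reg_glue {t : ℝ} (h : 0 < t) :
    HasDerivAt expNegInvGlue (Real.exp (-t⁻¹) * (t ^ 2)⁻¹) t := by
  have h1 : HasDerivAt (fun x : ℝ => Real.exp (-x⁻¹)) (Real.exp (-t⁻¹) * (t ^ 2)⁻¹) t := by
    have h2 := ((hasDerivAt_inv h.ne').neg).exp
    simpa using h2
  refine h1.congr_of_eventuallyEq ?_
  filter_upwards [lt_mem_nhds h] with x hx
  simp [expNegInvGlue, not_le.mpr hx]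

theorem Reg_deriv {t : ℝ} (h0 : 0 < t) (h1 : t < 1) :
    ∃ c, 0 < c ∧ HasDerivAt Real.smoothTransition c t := by
  have h2 : 0 < 1 - t := by linarith
  have ha := Reg_glue h0
  have hb : HasDerivAt (fun x => expNegInvGlue (1 - x))
      (Real.exp (-(1 - t)⁻¹) * ((1 - t) ^ 2)⁻¹ * (-1)) t := by
    have h3 : HasDerivAt (fun x : ℝ => 1 - x) (-1) t := by
      simpa using (hasDerivAt_id t).const_sub 1
    exact (Reg_glue h2).comp t h3
  have hd := Real.smoothTransition.pos_denom t
  have hc := ha.div (ha.add hb) hd.ne'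
  refine ⟨_, ?_, hc⟩
  have p1 := expNegInvGlue.pos_of_pos h0
  have p2 := expNegInvGlue.pos_of_pos h2
  have p3 : 0 < Real.exp (-t⁻¹) * (t ^ 2)⁻¹ := by positivity
  have p4 : 0 < Real.exp (-(1 - t)⁻¹) * ((1 - t) ^ 2)⁻¹ := by positivity
  refine div_pos ?_ (pow_pos hd 2)
  simp only [Pi.add_apply]
  nlinarith [mul_pos p3 p2, mul_pos p1 p4]

theorem deriv_smoothTransition_pos {t : ℝ} (h0 : 0 < t) (h1 : t < 1) :
    0 < deriv Real.smoothTransition t := by
  obtain ⟨c, hc, h⟩ := Reg_deriv h0 h1
  rwa [h.deriv]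

theorem smoothTransition_strict {s t : ℝ} (h0 : 0 ≤ s) (h1 : s < t) (h2 : t ≤ 1) :
    Real.smoothTransition s < Real.smoothTransition t := by
  have h : StrictMonoOn Real.smoothTransition (Set.Icc 0 1) := by
    refine strictMonoOn_of_deriv_pos (convex_Icc 0 1)
      Real.smoothTransition.continuous.continuousOn fun x hx => ?_
    rw [interior_Icc] at hx
    exact deriv_smoothTransition_pos hx.1 hx.2
  exact h ⟨h0, by linarith⟩ ⟨by linarith, h2⟩ h1

theorem Reg_psi (j : ℤ) : ContDiff ℝ ∞ (psi j) := by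
  unfold psi
  refine ContDiff.sub (Real.smoothTransition.contDiff.comp ?_)
    (Real.smoothTransition.contDiff.comp ?_) <;> fun_prop

theorem contDiff_FK (K : Finset (Cell D)) : ContDiff ℝ ∞ (FK K) := by
  unfold FK
  refine ContDiff.sum fun a _ => contDiff_prod fun i _ => ?_
  exact (Reg_psi (a i)).comp (contDiff_apply ℝ ℝ i)

theorem Reg_nk (t : ℝ) : |t - 2 * nk t| ≤ 1 := by
  unfold nk
  have h1 := Int.floor_le (t / 2 + 1 / 2)
  have h2 := Int.lt_floor_add_one (t / 2 + 1 / 2)
  rw [abs_le]
  constructor <;> linarith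

theorem Reg_dk (k : ℤ) : dk k ≠ 0 := by
  unfold dk
  split_ifs <;> norm_num

theorem FK_regular {K : Finset (Cell D)} (hK : Down K) (x : Fin D → ℝ) (h : FK K x = 1 / 2) :
    ∃ i, fderiv ℝ (FK K) x (Pi.single i 1) ≠ 0 := by
  set k : Cell D := fun i => nk (x i) with hk
  have hx : ∀ i, |x i - 2 * k i| < 3 / 2 := fun i => by
    have := Reg_nk (x i)
    simp only [hk]
    linarith
  set r : Fin D → ℝ := fun i => Real.smoothTransition (qk (k i) (x i)) with hr
  have he : pD (famK K k) r = 1 / 2 := by rw [← h, FK_eq K k x hx]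
  obtain ⟨i, h0, h1, h2⟩ := pD_pivot (r := r) (famK_down hK k)
    (fun i => Real.smoothTransition.nonneg _) (fun i => Real.smoothTransition.le_one _)
    (by rw [he]; norm_num) (by rw [he]; norm_num)
  have q0 : 0 < qk (k i) (x i) := by
    by_contra hq
    have := Real.smoothTransition.zero_of_nonpos (not_lt.mp hq)
    simp only [hr] at h0
    linarith
  have q1 : qk (k i) (x i) < 1 := by
    by_contra hq
    have := Real.smoothTransition.one_of_one_le (not_lt.mp hq)
    simp only [hr] at h1
    linarith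
  obtain ⟨c, hc, hd⟩ := Reg_deriv q0 q1
  set p1 := pD (famK K k) (Function.update r i 1) with hp1
  set p0 := pD (famK K k) (Function.update r i 0) with hp0
  have hq : HasDerivAt (qk (k i)) (dk (k i)) (x i) := by
    unfold qk
    simpa using (((hasDerivAt_id (x i)).sub_const (2 * (k i : ℝ))).const_mul (dk (k i))).add_const
      (1 / 2 : ℝ)
  have hS : HasDerivAt (fun t => Real.smoothTransition (qk (k i) t)) (c * dk (k i)) (x i) :=
    hd.comp (x i) hq
  have hA : HasDerivAt (fun t => Real.smoothTransition (qk (k i) t) * p1 +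
      (1 - Real.smoothTransition (qk (k i) t)) * p0)
      (c * dk (k i) * p1 + (-(c * dk (k i))) * p0) (x i) :=
    (hS.mul_const p1).add ((hS.const_sub 1).mul_const p0)
  have hB : HasDerivAt (fun t => FK K (Function.update x i t))
      (c * dk (k i) * p1 + (-(c * dk (k i))) * p0) (x i) := by
    refine hA.congr_of_eventuallyEq ?_
    have hcont : Continuous fun t : ℝ => |t - 2 * (k i : ℝ)| := by fun_prop
    filter_upwards [hcont.continuousAt.eventually_lt continuousAt_const (hx i)] with t ht
    have hy : ∀ j, |Function.update x i t j - 2 * k j| < 3 / 2 := fun j => by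
      by_cases hj : j = i
      · subst hj
        simpa using ht
      · simpa [Function.update_of_ne hj] using hx j
    rw [FK_eq K k _ hy, ← pD_update]
    congr 1
    funext j
    by_cases hj : j = i
    · subst hj
      simp
    · simp [Function.update_of_ne hj, hr]
  have hF : HasFDerivAt (FK K) (fderiv ℝ (FK K) x) (Function.update x i (x i)) := by
    rw [Function.update_eq_self]
    exact ((contDiff_FK K).differentiable (by simp) x).hasFDerivAt
  have hC := hF.comp_hasDerivAt (x i) (hasDerivAt_update x i (x i))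
  refine ⟨i, ?_⟩
  rw [← hB.unique hC]
  have : c * dk (k i) * p1 + (-(c * dk (k i))) * p0 = c * dk (k i) * (p1 - p0) := by ring
  rw [this]
  exact mul_ne_zero (mul_ne_zero hc.ne' (Reg_dk _)) (by linarith)

end Pool.Agent.Work.MP_735653_gt
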