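import Pool.Agent.Work.MP_735653_gt.Flw
import Pool.Agent.Work.MP_735653_gt.Reg
import Pool.Agent.Work.MP_735653_gt.CovB

/-! The boundary of the neighbourhood is homeomorphic to the level set. -/

namespace Pool.Agent.Work.MP_735653_gt

open Filter Topology

theorem Homeo_lgs_of_not {q : ℝ} (h : ¬ (0 < q ∧ q < 1)) (l : ℝ) : lgs l q = q := by
  simp only [lgs, if_neg h]

theorem Homeo_lgs_mono (q : ℝ) : Monotone fun l => lgs l q := by
  by_cases h : 0 < q ∧ q < 1
  · exact (lgs_strict h.1 h.2).monotone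
  · intro a b _
    simp only [Homeo_lgs_of_not h, le_refl]

theorem Homeo_lgs_cont (q : ℝ) : Continuous fun l => lgs l q :=
  continuous_lgs.comp (continuous_id.prodMk continuous_const)

theorem Homeo_cross {q l m : ℝ} (h : l < m) (h1 : 1 / 2 ≤ lgs l q) : 1 / 2 < lgs m q := by
  by_cases hq : 0 < q ∧ q < 1
  · exact h1.trans_lt (lgs_strict hq.1 hq.2 h)
  · rw [Homeo_lgs_of_not hq] at h1 ⊢
    rcases not_and_or.1 hq with h2 | h2
    · exact absurd (by linarith) h2
    · linarith [not_lt.1 h2]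

theorem Homeo_atBot (q : ℝ) : Tendsto (fun l => Real.smoothTransition (lgs l q)) atBot
    (𝓝 (if 1 ≤ q then 1 else 0)) := by
  by_cases hq : 0 < q ∧ q < 1
  · rw [if_neg (not_le.2 hq.2)]
    have := (Real.smoothTransition.continuous.tendsto 0).comp (lgs_atBot hq.1 hq.2)
    rwa [Real.smoothTransition.zero] at this
  · simp only [Homeo_lgs_of_not hq]
    split_ifs with h
    · rw [Real.smoothTransition.one_of_one_le h]
      exact tendsto_const_nhds
    · rw [Real.smoothTransition.zero_of_nonpos]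
      · exact tendsto_const_nhds
      · by_contra h'
        exact hq ⟨not_le.1 h', not_le.1 h⟩

theorem Homeo_atTop (q : ℝ) : Tendsto (fun l => Real.smoothTransition (lgs l q)) atTop
    (𝓝 (if 0 < q then 1 else 0)) := by
  by_cases hq : 0 < q ∧ q < 1
  · rw [if_pos hq.1]
    have := (Real.smoothTransition.continuous.tendsto 1).comp (lgs_atTop hq.1 hq.2)
    rwa [Real.smoothTransition.one] at this
  · simp only [Homeo_lgs_of_not hq]
    split_ifs with h
    · rw [Real.smoothTransition.one_of_one_le]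
      · exact tendsto_const_nhds
      · by_contra h'
        exact hq ⟨h, not_le.1 h'⟩
    · rw [Real.smoothTransition.zero_of_nonpos (not_lt.1 h)]
      exact tendsto_const_nhds

variable {D : ℕ}

theorem Homeo_pD_cont (𝒟 : Finset (Finset (Fin D))) : Continuous (pD 𝒟) := by
  unfold pD
  refine continuous_finsetSum _ fun T _ => continuous_finsetProd _ fun i _ => ?_
  split_ifs
  · exact continuous_apply i
  · exact continuous_const.sub (continuous_apply i)

/-- the probabilities along the flow -/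
noncomputable def Homeo_r (q : Fin D → ℝ) (l : ℝ) : Fin D → ℝ :=
  fun i => Real.smoothTransition (lgs l (q i))

/-- the coordinates strictly past the middle -/
noncomputable def Homeo_lo (q : Fin D → ℝ) (l : ℝ) : Finset (Fin D) :=
  Finset.univ.filter fun i => 1 / 2 < lgs l (q i)

/-- the coordinates weakly past the middle -/
noncomputable def Homeo_hi (q : Fin D → ℝ) (l : ℝ) : Finset (Fin D) :=
  Finset.univ.filter fun i => 1 / 2 ≤ lgs l (q i)

theorem Homeo_r_mono (q : Fin D → ℝ) {l m : ℝ} (h : l ≤ m) (i : Fin D) :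
    Homeo_r q l i ≤ Homeo_r q m i :=
  Real.smoothTransition.monotone (Homeo_lgs_mono (q i) h)

theorem Homeo_r_nonneg (q : Fin D → ℝ) (l : ℝ) (i : Fin D) : 0 ≤ Homeo_r q l i :=
  Real.smoothTransition.nonneg _

theorem Homeo_r_le (q : Fin D → ℝ) (l : ℝ) (i : Fin D) : Homeo_r q l i ≤ 1 :=
  Real.smoothTransition.le_one _

theorem Homeo_r_cont (q : Fin D → ℝ) : Continuous (Homeo_r q) :=
  continuous_pi fun i => Real.smoothTransition.continuous.comp (Homeo_lgs_cont (q i))

theorem Homeo_r_strict (q : Fin D → ℝ) {l₀ l m : ℝ} {i : Fin D} (h0 : 0 < Homeo_r q l₀ i)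
    (h1 : Homeo_r q l₀ i < 1) (h : l < m) : Homeo_r q l i < Homeo_r q m i := by
  have hq : 0 < q i ∧ q i < 1 := by
    by_contra hq
    simp only [Homeo_r, Homeo_lgs_of_not hq] at h0 h1
    rcases not_and_or.1 hq with h2 | h2
    · rw [Real.smoothTransition.zero_of_nonpos (not_lt.1 h2)] at h0
      exact lt_irrefl _ h0
    · rw [Real.smoothTransition.one_of_one_le (not_lt.1 h2)] at h1
      exact lt_irrefl _ h1
  exact smoothTransition_strict (lgs_mem hq.1 hq.2 l).1.le (lgs_strict hq.1 hq.2 h)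
    (lgs_mem hq.1 hq.2 m).2.le

variable {𝒟 : Finset (Finset (Fin D))}

theorem Homeo_g_atBot (𝒟 : Finset (Finset (Fin D))) (q : Fin D → ℝ) :
    Tendsto (fun l => pD 𝒟 (Homeo_r q l)) atBot
      (𝓝 (if Finset.univ.filter (fun i => 1 ≤ q i) ∈ 𝒟 then 1 else 0)) := by
  rw [← pD_indicator]
  refine ((Homeo_pD_cont 𝒟).tendsto _).comp (tendsto_pi_nhds.2 fun i => ?_)
  simpa only [Finset.mem_filter, Finset.mem_univ, true_and, Homeo_r] using Homeo_atBot (q i)

theorem Homeo_g_atTop (𝒟 : Finset (Finset (Fin D))) (q : Fin D → ℝ) :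
    Tendsto (fun l => pD 𝒟 (Homeo_r q l)) atTop
      (𝓝 (if Finset.univ.filter (fun i => 0 < q i) ∈ 𝒟 then 1 else 0)) := by
  rw [← pD_indicator]
  refine ((Homeo_pD_cont 𝒟).tendsto _).comp (tendsto_pi_nhds.2 fun i => ?_)
  simpa only [Finset.mem_filter, Finset.mem_univ, true_and, Homeo_r] using Homeo_atTop (q i)

theorem Homeo_g_anti (h : ∀ T ∈ 𝒟, ∀ S ⊆ T, S ∈ 𝒟) (q : Fin D → ℝ) :
    Antitone fun l => pD 𝒟 (Homeo_r q l) := fun _ _ hl =>
  pD_anti h (Homeo_r_nonneg q _) (Homeo_r_mono q hl) (Homeo_r_le q _)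

theorem Homeo_h3 (h : ∀ T ∈ 𝒟, ∀ S ⊆ T, S ∈ 𝒟) (q : Fin D → ℝ) (h1 : Homeo_lo q 0 ∈ 𝒟)
    (h2 : Homeo_hi q 0 ∉ 𝒟) : ∃ l, (∀ m, m < l → 1 / 2 < pD 𝒟 (Homeo_r q m)) ∧
      ∀ m, l < m → pD 𝒟 (Homeo_r q m) < 1 / 2 := by
  have hO : Finset.univ.filter (fun i => 1 ≤ q i) ∈ 𝒟 := by
    refine h _ h1 _ fun i hi => ?_
    simp only [Homeo_lo, Finset.mem_filter, Finset.mem_univ, true_and, lgs_zero] at hi ⊢
    linarith
  have hO' : Finset.univ.filter (fun i => 0 < q i) ∉ 𝒟 := by
    refine fun h' => h2 (h _ h' _ fun i hi => ?_)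
    simp only [Homeo_hi, Finset.mem_filter, Finset.mem_univ, true_and, lgs_zero] at hi ⊢
    linarith
  have hb := Homeo_g_atBot 𝒟 q
  have ht := Homeo_g_atTop 𝒟 q
  rw [if_pos hO] at hb
  rw [if_neg hO'] at ht
  obtain ⟨a, ha⟩ := (hb.eventually (lt_mem_nhds (show (1 / 2 : ℝ) < 1 by norm_num))).exists
  obtain ⟨b, hb'⟩ := (ht.eventually (gt_mem_nhds (show (0 : ℝ) < 1 / 2 by norm_num))).exists
  have hc : Continuous fun l => pD 𝒟 (Homeo_r q l) := (Homeo_pD_cont 𝒟).comp (Homeo_r_cont q)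
  obtain ⟨l, hl⟩ := intermediate_value_univ b a hc ⟨hb'.le, ha.le⟩
  have hl' : pD 𝒟 (Homeo_r q l) = 1 / 2 := hl
  obtain ⟨i, hi0, hi1, hi⟩ := pD_pivot h (Homeo_r_nonneg q l) (Homeo_r_le q l)
    (by rw [hl']; norm_num) (by rw [hl']; norm_num)
  have he := pD_update 𝒟 (Homeo_r q l) i (Homeo_r q l i)
  rw [Function.update_eq_self, hl'] at he
  refine ⟨l, fun m hm => ?_, fun m hm => ?_⟩
  · have h3 := Homeo_r_strict q hi0 hi1 hm
    have h4 : pD 𝒟 (Function.update (Homeo_r q l) i (Homeo_r q m i)) ≤ pD 𝒟 (Homeo_r q m) := by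
      refine pD_anti h (Homeo_r_nonneg q m) (fun j => ?_) fun j => ?_
      · by_cases hj : j = i
        · rw [hj, Function.update_self]
        · rw [Function.update_of_ne hj]
          exact Homeo_r_mono q hm.le j
      · by_cases hj : j = i
        · rw [hj, Function.update_self]
          exact Homeo_r_le q m i
        · rw [Function.update_of_ne hj]
          exact Homeo_r_le q l j
    rw [pD_update] at h4
    nlinarith [mul_pos (sub_pos.2 h3) (sub_pos.2 hi)]
  · have h3 := Homeo_r_strict q hi0 hi1 hm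
    have h4 : pD 𝒟 (Homeo_r q m) ≤ pD 𝒟 (Function.update (Homeo_r q l) i (Homeo_r q m i)) := by
      refine pD_anti h (fun j => ?_) (fun j => ?_) (Homeo_r_le q m)
      · by_cases hj : j = i
        · rw [hj, Function.update_self]
          exact Homeo_r_nonneg q m i
        · rw [Function.update_of_ne hj]
          exact Homeo_r_nonneg q l j
      · by_cases hj : j = i
        · rw [hj, Function.update_self]
        · rw [Function.update_of_ne hj]
          exact Homeo_r_mono q hm.le j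
    rw [pD_update] at h4
    nlinarith [mul_pos (sub_pos.2 h3) (sub_pos.2 hi)]

theorem Homeo_near (q : Fin D → ℝ) (l : ℝ) : ∀ᶠ m in 𝓝 l,
    Homeo_hi q m ⊆ Homeo_hi q l ∧ Homeo_lo q l ⊆ Homeo_hi q m := by
  have h1 : ∀ᶠ m in 𝓝 l, ∀ i, (lgs l (q i) < 1 / 2 → lgs m (q i) < 1 / 2) ∧
      (1 / 2 < lgs l (q i) → 1 / 2 < lgs m (q i)) := by
    refine eventually_all.2 fun i => Eventually.and ?_ ?_
    · by_cases h : lgs l (q i) < 1 / 2
      · exact (((Homeo_lgs_cont (q i)).tendsto l).eventually (gt_mem_nhds h)).mono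
          fun m hm _ => hm
      · exact Eventually.of_forall fun m hm => absurd hm h
    · by_cases h : 1 / 2 < lgs l (q i)
      · exact (((Homeo_lgs_cont (q i)).tendsto l).eventually (lt_mem_nhds h)).mono
          fun m hm _ => hm
      · exact Eventually.of_forall fun m hm => absurd hm h
  refine h1.mono fun m hm => ⟨fun i hi => ?_, fun i hi => ?_⟩
  · simp only [Homeo_hi, Finset.mem_filter, Finset.mem_univ, true_and] at hi ⊢
    by_contra h
    exact absurd ((hm i).1 (not_le.1 h)) (not_lt.2 hi)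
  · simp only [Homeo_hi, Homeo_lo, Finset.mem_filter, Finset.mem_univ, true_and] at hi ⊢
    exact ((hm i).2 hi).le

theorem Homeo_h4 (h : ∀ T ∈ 𝒟, ∀ S ⊆ T, S ∈ 𝒟) (q : Fin D → ℝ)
    (h1 : pD 𝒟 (Homeo_r q 0) = 1 / 2) : ∃ l, Homeo_lo q l ∈ 𝒟 ∧ Homeo_hi q l ∉ 𝒟 := by
  have hO : Finset.univ.filter (fun i => 1 ≤ q i) ∈ 𝒟 := by
    by_contra h'
    have hb := Homeo_g_atBot 𝒟 q
    rw [if_neg h'] at hb
    have := ge_of_tendsto hb ((eventually_le_atBot (0 : ℝ)).mono fun l hl => Homeo_g_anti h q hl)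
    simp only [h1] at this
    norm_num at this
  have hO' : Finset.univ.filter (fun i => 0 < q i) ∉ 𝒟 := by
    intro h'
    have ht := Homeo_g_atTop 𝒟 q
    rw [if_pos h'] at ht
    have := le_of_tendsto ht ((eventually_ge_atTop (0 : ℝ)).mono fun l hl => Homeo_g_anti h q hl)
    simp only [h1] at this
    norm_num at this
  have hT : ∀ᶠ l in atTop, ∀ i, 0 < q i → 1 / 2 ≤ lgs l (q i) := by
    refine eventually_all.2 fun i => ?_
    by_cases hq : 0 < q i ∧ q i < 1
    · exact ((lgs_atTop hq.1 hq.2).eventually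
        (lt_mem_nhds (show (1 / 2 : ℝ) < 1 by norm_num))).mono fun l hl _ => hl.le
    · refine Eventually.of_forall fun l h0 => ?_
      rw [Homeo_lgs_of_not hq]
      by_contra h'
      exact hq ⟨h0, by linarith [not_le.1 h']⟩
  have hB : ∀ᶠ l in atBot, ∀ i, 1 / 2 ≤ lgs l (q i) → 1 ≤ q i := by
    refine eventually_all.2 fun i => ?_
    by_cases hq : 0 < q i ∧ q i < 1
    · exact ((lgs_atBot hq.1 hq.2).eventually
        (gt_mem_nhds (show (0 : ℝ) < 1 / 2 by norm_num))).mono fun l hl h0 =>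
          absurd hl (not_lt.2 h0)
    · refine Eventually.of_forall fun l h0 => ?_
      rw [Homeo_lgs_of_not hq] at h0
      by_contra h'
      exact hq ⟨by linarith, not_le.1 h'⟩
  set L : Set ℝ := {l | Homeo_hi q l ∉ 𝒟} with hL
  have hne : L.Nonempty := by
    obtain ⟨l, hl⟩ := hT.exists
    refine ⟨l, fun h' => hO' (h _ h' _ fun i hi => ?_)⟩
    simp only [Homeo_hi, Finset.mem_filter, Finset.mem_univ, true_and] at hi ⊢
    exact hl i hi
  have hbd : BddBelow L := by
    obtain ⟨b, hb⟩ := eventually_atBot.1 hB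
    refine ⟨b, fun l hl => ?_⟩
    by_contra h'
    refine hl (h _ hO _ fun i hi => ?_)
    simp only [Homeo_hi, Finset.mem_filter, Finset.mem_univ, true_and] at hi ⊢
    exact hb l (not_le.1 h').le i hi
  refine ⟨sInf L, ?_, ?_⟩
  · obtain ⟨m, hm1, hm2⟩ := (((Homeo_near q (sInf L)).filter_mono
      (nhdsWithin_le_nhds (s := Set.Iio (sInf L)))).and self_mem_nhdsWithin).exists
    have hm : m ∉ L := fun h' => absurd (csInf_le hbd h') (not_le.2 hm2)
    exact h _ (not_not.1 hm) _ hm1.2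
  · obtain ⟨m, hm1, hm2⟩ := ((mem_closure_iff_frequently.1 (csInf_mem_closure hne hbd)).and_eventually
      (Homeo_near q (sInf L))).exists
    exact fun h' => hm1 (h _ h' _ hm2.1)

theorem Homeo_h5 (h : ∀ T ∈ 𝒟, ∀ S ⊆ T, S ∈ 𝒟) (q : Fin D → ℝ) {l m : ℝ}
    (h1 : Homeo_hi q l ∉ 𝒟) (h2 : Homeo_lo q m ∈ 𝒟) : m ≤ l := by
  by_contra h'
  refine h1 (h _ h2 _ fun i hi => ?_)
  simp only [Homeo_hi, Homeo_lo, Finset.mem_filter, Finset.mem_univ, true_and] at hi ⊢
  exact Homeo_cross (not_le.1 h') hi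

theorem Homeo_FK (K : Finset (Cell D)) (x : Fin D → ℝ) (l : ℝ) :
    FK K (fun i => flw l (x i)) =
      pD (famK K fun i => nk (x i)) (Homeo_r (fun i => qk (nk (x i)) (x i)) l) := by
  rw [FK_eq K (fun i => nk (x i))]
  · simp only [qk_flw]
    rfl
  · intro i
    have := nk_spec (flw l (x i))
    rw [nk_flw] at this
    rw [abs_lt]
    constructor <;> linarith [this.1, this.2]

theorem Homeo_mem (K : Finset (Cell D)) (x : Fin D → ℝ) (l : ℝ) :
    (fun i => flw l (x i)) ∈ Re (EK K) ↔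
      Homeo_lo (fun i => qk (nk (x i)) (x i)) l ∈ (famK K fun i => nk (x i)) ∧
        Homeo_hi (fun i => qk (nk (x i)) (x i)) l ∉ famK K fun i => nk (x i) := by
  simp only [Re, Set.mem_ofPred_eq, mem_EK, lo_cellOf, hi_cellOf, nk_flw, qk_flw, famK,
    Finset.mem_filter, Finset.mem_univ, true_and, Homeo_lo, Homeo_hi]

theorem homeo_level {D : ℕ} {G : Type} [Group G] (X : LC D G) :
    Nonempty (Re (EK X.K) ≃ₜ {x // FK X.K x = 1 / 2}) := by
  have e0 : ∀ x : Fin D → ℝ, (fun i => flw 0 (x i)) = x := fun x => funext fun i => flw_zero _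
  refine homeo_of_flow (fun l (x : Fin D → ℝ) i => flw l (x i)) e0
    (fun l m x => funext fun i => flw_add _ _ _)
    (continuous_pi fun i => continuous_flw.comp
      (continuous_fst.prodMk ((continuous_apply i).comp continuous_snd)))
    (FK X.K) (contDiff_FK X.K).continuous (1 / 2) (isCompact_Re X.E.down) ?_ ?_ ?_
  · intro x hx
    have hx' := (Homeo_mem X.K x 0).1 (by rw [e0]; exact hx)
    simp only [Homeo_FK]
    exact Homeo_h3 (famK_down X.down _) _ hx'.1 hx'.2
  · intro x hx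
    have h1 := Homeo_FK X.K x 0
    rw [e0, hx] at h1
    obtain ⟨l, hl⟩ := Homeo_h4 (famK_down X.down _) _ h1.symm
    exact ⟨l, (Homeo_mem X.K x l).2 hl⟩
  · intro x hx l hl
    have hx' := (Homeo_mem X.K x 0).1 (by rw [e0]; exact hx)
    have hl' := (Homeo_mem X.K x l).1 hl
    exact le_antisymm (Homeo_h5 (famK_down X.down _) _ hx'.2 hl'.1)
      (Homeo_h5 (famK_down X.down _) _ hl'.2 hx'.1)

end Pool.Agent.Work.MP_735653_gt
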