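import Pool.Agent.Work.MP_735653_gt.Orbit

attribute [-instance] Subring.toCommRing

-- merged part: Pool.Agent.Work.MP_735653_gt.Mono
section
/-! Monotonicity and additivity of the von Neumann dimension. -/

namespace Pool.Agent.Work.MP_735653_gt

open scoped InnerProductSpace
open ContinuousLinearMap

section hilbert

open Filter Topology

variable {H H' : Type} [NormedAddCommGroup H] [InnerProductSpace ℂ H] [CompleteSpace H]
  [NormedAddCommGroup H'] [InnerProductSpace ℂ H'] [CompleteSpace H']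

theorem Mono_contr (T : H →L[ℂ] H') (hT : ‖T‖ ≤ 1) (z : H) :
    ‖adjoint T (T z)‖ ^ 2 + ‖z - adjoint T (T z)‖ ^ 2 ≤ ‖z‖ ^ 2 := by
  have h1 : ‖adjoint T (T z)‖ ≤ ‖T z‖ := by
    refine (le_opNorm _ _).trans ?_
    rw [LinearIsometryEquiv.norm_map]
    exact mul_le_of_le_one_left (norm_nonneg _) hT
  have h2 : RCLike.re ⟪z, adjoint T (T z)⟫_ℂ = ‖T z‖ ^ 2 := by
    rw [adjoint_inner_right, inner_self_eq_norm_sq]
  rw [norm_sub_sq (𝕜 := ℂ), h2]
  have := pow_le_pow_left₀ (norm_nonneg _) h1 2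
  linarith

theorem Mono_pow (T : H →L[ℂ] H') (hT : ‖T‖ ≤ 1) {u : H} (hu : u ∈ T.kerᗮ) :
    Tendsto (fun n : ℕ => ((1 - adjoint T ∘L T) ^ n) u) atTop (𝓝 0) := by
  rw [← ker_adjoint_comp_self, orthogonal_ker, adjoint_comp, adjoint_adjoint] at hu
  set A : H →L[ℂ] H := adjoint T ∘L T with hA
  set B : H →L[ℂ] H := 1 - A with hB
  have hBz : ∀ z, ‖A z‖ ^ 2 + ‖B z‖ ^ 2 ≤ ‖z‖ ^ 2 := fun z => Mono_contr T hT z
  have hB1 : ∀ z, ‖B z‖ ≤ ‖z‖ := fun z => by
    have := hBz z
    exact (abs_le_of_sq_le_sq' (by nlinarith [sq_nonneg ‖A z‖]) (norm_nonneg _)).2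
  have hBn : ∀ n : ℕ, ∀ z, ‖(B ^ n) z‖ ≤ ‖z‖ := by
    intro n
    induction n with
    | zero => intro z; simp
    | succ n ih => intro z; rw [pow_succ']; exact (hB1 _).trans (ih z)
  have hcomm : ∀ n : ℕ, ∀ y, (B ^ n) (A y) = A ((B ^ n) y) := by
    intro n y
    have : Commute (B ^ n) A := (((Commute.one_left A).sub_left (Commute.refl A))).pow_left n
    exact congrArg (fun X : H →L[ℂ] H => X y) this.eq
  have hrange : ∀ y, Tendsto (fun n : ℕ => (B ^ n) (A y)) atTop (𝓝 0) := by
    intro y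
    have hs : Summable fun n : ℕ => ‖A ((B ^ n) y)‖ ^ 2 := by
      refine summable_of_sum_range_le (c := ‖y‖ ^ 2) (fun n => sq_nonneg _) fun n => ?_
      have : ∑ i ∈ Finset.range n, ‖A ((B ^ i) y)‖ ^ 2 + ‖(B ^ n) y‖ ^ 2 ≤ ‖y‖ ^ 2 := by
        induction n with
        | zero => simp
        | succ n ih =>
          rw [Finset.sum_range_succ, pow_succ' B]
          have := hBz ((B ^ n) y)
          change _ + ‖B ((B ^ n) y)‖ ^ 2 ≤ _
          linarith
      nlinarith [sq_nonneg ‖(B ^ n) y‖]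
    have h1 := hs.tendsto_atTop_zero
    simp only [hcomm]
    rw [tendsto_zero_iff_norm_tendsto_zero]
    have h2 := h1.sqrt
    simpa [Real.sqrt_sq (norm_nonneg _)] using h2
  rw [Metric.tendsto_atTop]
  intro ε hε
  obtain ⟨x, hx, hxu⟩ := Metric.mem_closure_iff.1 hu (ε / 2) (by positivity)
  obtain ⟨y, rfl⟩ := hx
  obtain ⟨N, hN⟩ := Metric.tendsto_atTop.1 (hrange y) (ε / 2) (by positivity)
  refine ⟨N, fun n hn => ?_⟩
  have h1 := hN n hn
  rw [dist_zero_right] at h1 ⊢
  rw [dist_eq_norm] at hxu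
  have h2 : (B ^ n) u = (B ^ n) (u - A y) + (B ^ n) (A y) := by rw [map_sub]; abel
  have h3 := hBn n (u - A y)
  have h4 := norm_add_le ((B ^ n) (u - A y)) ((B ^ n) (A y))
  change ‖u - A y‖ < _ at hxu
  rw [h2]; linarith

omit [CompleteSpace H] in
theorem Mono_succ (A : H →L[ℂ] H) (n : ℕ) (x : H) :
    ((1 - A) ^ (n + 1)) x = ((1 - A) ^ n) (x - A x) := by
  rw [pow_succ]
  rfl

theorem Mono_lim (T : H →L[ℂ] H') (hT : ‖T‖ ≤ 1) (x : H) :
    Tendsto (fun n : ℕ => RCLike.re ⟪x, x - ((1 - adjoint T ∘L T) ^ n) x⟫_ℂ) atTop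
      (𝓝 (‖T.kerᗮ.starProjection x‖ ^ 2)) := by
  have hw : T (x - T.kerᗮ.starProjection x) = 0 := by
    have := T.kerᗮ.sub_starProjection_mem_orthogonal x
    rwa [Submodule.orthogonal_orthogonal] at this
  have h1 : ∀ (w : H), T w = 0 → ∀ n : ℕ, ((1 - adjoint T ∘L T) ^ n) w = w := by
    intro w hw n
    induction n with
    | zero => rfl
    | succ n ih =>
      rw [Mono_succ, comp_apply, hw, map_zero, sub_zero, ih]
  have h2 := (Mono_pow T hT (T.kerᗮ.starProjection_apply_mem x)).const_sub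
    (T.kerᗮ.starProjection x)
  have h3 := (RCLike.continuous_re.tendsto _).comp (Tendsto.inner (𝕜 := ℂ) (tendsto_const_nhds
    (x := x)) h2)
  have h4 : RCLike.re ⟪x, T.kerᗮ.starProjection x - 0⟫_ℂ = ‖T.kerᗮ.starProjection x‖ ^ 2 := by
    rw [sub_zero, inner_re_symm, Submodule.re_inner_starProjection_eq_normSq]
    rfl
  rw [h4] at h3
  refine h3.congr fun n => ?_
  have h5 := h1 _ hw n
  rw [map_sub, sub_eq_iff_eq_add] at h5
  rw [Function.comp_apply, h5]
  congr 2
  abel

theorem Mono_dim {ι ι' : Type} [Fintype ι] [Fintype ι'] (d : ι → H) (d' : ι' → H')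
    (T : H →L[ℂ] H') (hT : ‖T‖ ≤ 1)
    (htr : ∀ k : ℕ, ∑ i, ⟪d i, ((1 - adjoint T ∘L T) ^ k) (adjoint T (T (d i)))⟫_ℂ =
      ∑ j, ⟪d' j, T (((1 - adjoint T ∘L T) ^ k) (adjoint T (d' j)))⟫_ℂ) :
    ∑ i, ‖T.kerᗮ.starProjection (d i)‖ ^ 2 =
      ∑ j, ‖(adjoint T).kerᗮ.starProjection (d' j)‖ ^ 2 := by
  have hTB : ∀ (k : ℕ) (x : H), T (((1 - adjoint T ∘L T) ^ k) x) =
      ((1 - T ∘L adjoint T) ^ k) (T x) := by
    intro k
    induction k with
    | zero => exact fun _ => rfl
    | succ k ih =>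
      intro x
      rw [Mono_succ, Mono_succ, ih, map_sub T]
      rfl
  have h1 : ∀ n : ℕ, ∑ i, ⟪d i, d i - ((1 - adjoint T ∘L T) ^ n) (d i)⟫_ℂ =
      ∑ j, ⟪d' j, d' j - ((1 - T ∘L adjoint T) ^ n) (d' j)⟫_ℂ := by
    intro n
    induction n with
    | zero => simp
    | succ n ih =>
      have h := htr n
      simp only [hTB] at h
      simp only [Mono_succ, comp_apply, map_sub, ← sub_add, inner_add_right,
        Finset.sum_add_distrib]
      rw [ih, h]
  have h2 := tendsto_finsetSum Finset.univ fun j _ =>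
    Mono_lim (adjoint T) ((LinearIsometryEquiv.norm_map _ _).trans_le hT) (d' j)
  rw [adjoint_adjoint] at h2
  refine tendsto_nhds_unique (tendsto_finsetSum _ fun i _ => Mono_lim T hT (d i)) ?_
  simpa only [← map_sum, h1] using h2

omit [CompleteSpace H] in
theorem Mono_proj {U V : Submodule ℂ H} [U.HasOrthogonalProjection] [V.HasOrthogonalProjection]
    (h : U ≤ V) (x : H) : ‖U.starProjection x‖ ^ 2 ≤ ‖V.starProjection x‖ ^ 2 := by
  refine pow_le_pow_left₀ (norm_nonneg _) ?_ 2
  rw [← Submodule.starProjection_comp_starProjection_of_le h]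
  exact U.norm_starProjection_apply_le _

end hilbert

variable {I J : Type} [Fintype I] [Fintype J] {G : Type} [Group G]

theorem Mono_trace {S : HS J G →L[ℂ] HS I G} (hS : Eqv S) (i : I) (v : HS J G) :
    ⟪dl i (1 : G), S v⟫_ℂ = ∑ j, ∑' x, v j x * S (dl j 1) i x⁻¹ := by
  rw [← adjoint_inner_left, PiLp.inner_apply]
  refine Finset.sum_congr rfl fun j _ => ?_
  rw [lp.inner_eq_tsum]
  refine tsum_congr fun x => ?_
  have h : dl j x = dg J (lam x) (dl j (1 : G)) := by rw [dg_lam_dl, mul_one]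
  rw [RCLike.inner_apply, ← inner_dl j x (adjoint S _), inner_conj_symm, adjoint_inner_left, h, hS,
    inner_dl, dg_apply, lam_apply, mul_one]

theorem trace_comm {S : HS J G →L[ℂ] HS I G} {T : HS I G →L[ℂ] HS J G} (hS : Eqv S)
    (hT : Eqv T) :
    ∑ i, ⟪dl i (1 : G), S (T (dl i 1))⟫_ℂ = ∑ j, ⟪dl j (1 : G), T (S (dl j 1))⟫_ℂ := by
  simp only [Mono_trace hS, Mono_trace hT]
  rw [Finset.sum_comm]
  refine Finset.sum_congr rfl fun j _ => Finset.sum_congr rfl fun i _ => ?_
  rw [← (Equiv.inv G).tsum_eq]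
  exact tsum_congr fun x => by rw [Equiv.inv_apply, inv_inv, mul_comm]

theorem Mono_eqv {S : HS I G →L[ℂ] HS J G} (hS : Eqv S) (k : ℕ) :
    Eqv ((1 - adjoint S ∘L S) ^ k) := by
  induction k with
  | zero => exact fun _ _ => rfl
  | succ k ih =>
    intro g v
    rw [Mono_succ, Mono_succ, hS.adj.comp hS g v, ← map_sub, ih]

theorem Mono_le {S : HS I G →L[ℂ] HS J G} (hS : Eqv S) (h1 : ‖S‖ ≤ 1) {W : Submodule ℂ (HS I G)}
    {W' : Submodule ℂ (HS J G)} (hm : ∀ v, S v ∈ W')
    (hi : ∀ v, S v = 0 → v ∈ W.topologicalClosureᗮ) : vnDim W ≤ vnDim W' := by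
  have h2 : W.topologicalClosure ≤ S.kerᗮ :=
    (Submodule.le_orthogonal_orthogonal _).trans (Submodule.orthogonal_le fun v hv => hi v hv)
  have h3 : (adjoint S).kerᗮ ≤ W'.topologicalClosure := by
    rw [orthogonal_ker, adjoint_adjoint]
    refine Submodule.topologicalClosure_mono ?_
    rintro _ ⟨v, rfl⟩
    exact hm v
  have h4 := Mono_dim (fun i => dl i (1 : G)) (fun j => dl j (1 : G)) S h1 fun k => by
    simpa only [comp_apply] using trace_comm ((Mono_eqv hS k).comp hS.adj) hS
  simp only [vnDim_eq, dwt]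
  exact (Finset.sum_le_sum fun i _ => Mono_proj h2 (dl i (1 : G))).trans
    (h4.trans_le (Finset.sum_le_sum fun j _ => Mono_proj h3 (dl j (1 : G))))

theorem vn_mono {T : HS I G →L[ℂ] HS J G} (hT : Eqv T) {W : Submodule ℂ (HS I G)}
    {W' : Submodule ℂ (HS J G)} (hW : Inv W) (hc : IsClosed (W : Set (HS I G)))
    (hm : ∀ v ∈ W, T v ∈ W') (hi : ∀ v ∈ W, T v = 0 → v = 0) : vnDim W ≤ vnDim W' := by
  have h0 : 0 < ‖T‖ + 1 := by positivity
  obtain ⟨c, hc0, hc1⟩ : ∃ c : ℂ, c ≠ 0 ∧ ‖c‖ = (‖T‖ + 1)⁻¹ :=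
    ⟨((‖T‖ + 1)⁻¹ : ℝ), Complex.ofReal_ne_zero.2 (inv_ne_zero h0.ne'),
      Complex.norm_of_nonneg (inv_nonneg.2 h0.le)⟩
  have hP : ∀ v, W.topologicalClosure.starProjection v ∈ W := fun v =>
    hc.submodule_topologicalClosure_eq.le (W.topologicalClosure.starProjection_apply_mem v)
  have hS : ∀ v, (c • T ∘L W.topologicalClosure.starProjection) v =
      c • T (W.topologicalClosure.starProjection v) := fun _ => rfl
  refine Mono_le (S := c • T ∘L W.topologicalClosure.starProjection) (fun g v => ?_)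
    (opNorm_le_bound _ zero_le_one fun v => ?_) (fun v => ?_) fun v hv => ?_
  · rw [hS, hS, hW.eqv_proj g v, hT, map_smul]
  · rw [hS, norm_smul, hc1, inv_mul_le_iff₀ h0]
    have h1 := T.le_opNorm (W.topologicalClosure.starProjection v)
    have h2 := mul_le_mul_of_nonneg_left
      (W.topologicalClosure.norm_starProjection_apply_le v) (norm_nonneg T)
    nlinarith [norm_nonneg v]
  · rw [hS]
    exact W'.smul_mem c (hm _ (hP v))
  · rw [hS] at hv
    exact (W.topologicalClosure.starProjection_apply_eq_zero_iff).1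
      (hi _ (hP v) ((smul_eq_zero.1 hv).resolve_left hc0))

end Pool.Agent.Work.MP_735653_gt
end

-- merged part: Pool.Agent.Work.MP_735653_gt.Rank
section
/-! Rank and nullity. -/

namespace Pool.Agent.Work.MP_735653_gt

open scoped InnerProductSpace
open ContinuousLinearMap

variable {I J K : Type} [Fintype I] [Fintype J] [Fintype K] {G : Type} [Group G]

theorem Rank_proj {E : Type} [NormedAddCommGroup E] [InnerProductSpace ℂ E] {A B : Submodule ℂ E}
    [A.HasOrthogonalProjection] [B.HasOrthogonalProjection] (h : A = B) :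
    A.starProjection = B.starProjection := by
  subst h
  rfl

theorem Rank_congr {W W' : Submodule ℂ (HS I G)}
    (h : W.topologicalClosure = W'.topologicalClosure) : vnDim W = vnDim W' := by
  simp only [vnDim_eq, dwt, Rank_proj h]

omit [Group G] in
theorem Rank_ker {T : HS I G →L[ℂ] HS J G} : T.ker.topologicalClosure = T.ker :=
  T.isClosed_ker.submodule_topologicalClosure_eq

theorem vn_nonneg (W : Submodule ℂ (HS I G)) : 0 ≤ vnDim W := by
  rw [vnDim_eq]
  exact Finset.sum_nonneg fun i _ => sq_nonneg _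

theorem vn_closure (W : Submodule ℂ (HS I G)) : vnDim W.topologicalClosure = vnDim W := by
  exact Rank_congr W.isClosed_topologicalClosure.submodule_topologicalClosure_eq

theorem vn_orth (W : Submodule ℂ (HS I G)) : vnDim W + vnDim Wᗮ = Fintype.card I := by
  have h : Wᗮ.topologicalClosure = W.topologicalClosureᗮ := by
    rw [W.isClosed_orthogonal.submodule_topologicalClosure_eq, Submodule.orthogonal_closure]
  rw [vnDim_eq, vnDim_eq, ← Finset.sum_add_distrib, ← Finset.card_univ, Finset.card_eq_sum_ones,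
    Nat.cast_sum]
  refine Finset.sum_congr rfl fun i _ => ?_
  rw [dwt, dwt, Rank_proj h, ← Submodule.norm_sq_eq_add_norm_sq_starProjection, norm_dl]
  simp

theorem vn_le_card (W : Submodule ℂ (HS I G)) : vnDim W ≤ Fintype.card I := by
  linarith [vn_orth W, vn_nonneg Wᗮ]

theorem vn_bot : vnDim (⊥ : Submodule ℂ (HS I G)) = 0 := by
  rw [vnDim_eq]
  refine Finset.sum_eq_zero fun i _ => ?_
  rw [dwt, (Submodule.starProjection_apply_eq_zero_iff _).2 (by
    rw [Submodule.orthogonal_closure, Submodule.bot_orthogonal_eq_top]; trivial)]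
  simp

theorem vn_top : vnDim (⊤ : Submodule ℂ (HS I G)) = Fintype.card I := by
  have h := vn_orth (⊤ : Submodule ℂ (HS I G))
  rwa [Submodule.top_orthogonal_eq_bot, vn_bot, add_zero] at h

theorem vn_eq_zero {W : Submodule ℂ (HS I G)} (hW : Inv W) (h : vnDim W ≤ 0) : W = ⊥ := by
  have h0 : ∀ i, dwt W i 1 = 0 := fun i =>
    (Finset.sum_eq_zero_iff_of_nonneg fun i _ => sq_nonneg _).1
      (le_antisymm h (vn_nonneg W)) i (Finset.mem_univ i)
  refine (Submodule.eq_bot_iff _).2 fun w hw => ?_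
  ext i x
  have h1 := (hW.dwt_eq i x).trans (h0 i)
  rw [dwt, sq_eq_zero_iff, norm_eq_zero, Submodule.starProjection_apply_eq_zero_iff] at h1
  rw [← inner_dl]
  exact Submodule.inner_left_of_mem_orthogonal (W.le_topologicalClosure hw) h1

theorem vn_dense {W : Submodule ℂ (HS I G)} (hW : Inv W) (h : (Fintype.card I : ℝ) ≤ vnDim W) :
    W.topologicalClosure = ⊤ := by
  exact Submodule.topologicalClosure_eq_top_iff.2 (vn_eq_zero hW.orth (by linarith [vn_orth W]))

theorem rank_null {T : HS I G →L[ℂ] HS J G} (hT : Eqv T) :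
    vnDim T.ker + vnDim T.range = Fintype.card I := by
  have h1 : vnDim T.kerᗮ ≤ vnDim T.range :=
    vn_mono hT hT.inv_ker.orth (Submodule.isClosed_orthogonal _) (fun v _ => ⟨v, rfl⟩)
      fun v hv h0 => inner_self_eq_zero.1 (Submodule.inner_right_of_mem_orthogonal h0 hv)
  have h2 : vnDim T.range.topologicalClosure ≤ vnDim T.kerᗮ := by
    refine vn_mono hT.adj hT.inv_range.closure T.range.isClosed_topologicalClosure
      (fun v _ u hu => ?_) fun v hv h0 => ?_
    · rw [adjoint_inner_right, show T u = 0 from hu, inner_zero_left]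
    · refine inner_self_eq_zero.1 (Submodule.inner_right_of_mem_orthogonal hv ?_)
      rw [Submodule.orthogonal_closure]
      rintro _ ⟨u, rfl⟩
      show ⟪T u, v⟫_ℂ = 0
      rw [← adjoint_inner_right, h0, inner_zero_right]
  rw [vn_closure] at h2
  linarith [vn_orth T.ker]

theorem inj_iff_dense {T : HS I G →L[ℂ] HS I G} (hT : Eqv T) :
    T.ker = ⊥ ↔ T.range.topologicalClosure = ⊤ := by
  have h1 := rank_null hT
  refine ⟨fun h => vn_dense hT.inv_range ?_, fun h => vn_eq_zero hT.inv_ker ?_⟩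
  · rw [h, vn_bot] at h1
    linarith
  · rw [← vn_closure T.range, h, vn_top] at h1
    linarith

theorem kd_mul_left (P : Matrix K J (VN G)) (M : Matrix J I (VN G)) (hP : (opN P).ker = ⊥) :
    kd (P * M) = kd M := by
  rw [kd, kd, opN_mul]
  congr 1
  ext v
  refine ⟨fun h => (Submodule.eq_bot_iff _).1 hP _ h, fun h => ?_⟩
  show opN P (opN M v) = 0
  rw [show opN M v = 0 from h, map_zero]

theorem kd_mul_right (M : Matrix J I (VN G)) (Q : Matrix I I (VN G)) (hQ : (opN Q).ker = ⊥) :
    kd (M * Q) = kd M := by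
  have hd := (inj_iff_dense (eqv_opN Q)).1 hQ
  have h1 : vnDim (opN (M * Q)).range = vnDim (opN M).range := by
    refine Rank_congr (le_antisymm (Submodule.topologicalClosure_mono ?_)
      (Submodule.topologicalClosure_minimal _ ?_ (Submodule.isClosed_topologicalClosure _)))
    · rintro _ ⟨v, rfl⟩
      exact ⟨opN Q v, by rw [opN_mul]; rfl⟩
    · rintro _ ⟨v, rfl⟩
      have hv : v ∈ closure ((opN Q).range : Set (HS I G)) :=
        show v ∈ (opN Q).range.topologicalClosure from hd ▸ Submodule.mem_top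
      refine map_mem_closure (opN M).continuous hv ?_
      rintro _ ⟨u, rfl⟩
      exact ⟨u, by rw [opN_mul]; rfl⟩
  have h2 := rank_null (eqv_opN (M * Q))
  have h3 := rank_null (eqv_opN M)
  rw [kd, kd]
  linarith

/-- rearrangement of coordinates -/
noncomputable def Rank_co (c : J → Option I) : HS I G →ₗ[ℂ] HS J G where
  toFun v := WithLp.toLp 2 fun j => (c j).elim 0 fun i => v i
  map_add' v w := by
    ext1 j
    show (c j).elim (0 : L2 G) _ = (c j).elim (0 : L2 G) _ + (c j).elim (0 : L2 G) _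
    cases c j <;> simp
  map_smul' a v := by
    ext1 j
    show (c j).elim (0 : L2 G) _ = a • (c j).elim (0 : L2 G) _
    cases c j <;> simp

omit [Fintype I] [Fintype J] [Group G] in
theorem Rank_co_apply (c : J → Option I) (v : HS I G) (j : J) :
    Rank_co c v j = (c j).elim 0 fun i => v i := rfl

theorem Rank_emb {A : Submodule ℂ (HS J G)} {B : Submodule ℂ (HS I G)}
    (hA : A.topologicalClosure = A) (hB : B.topologicalClosure = B) (c : J → Option I) (e : I → J)
    (hc : ∀ j i, c j = some i ↔ j = e i) (h1 : ∀ u ∈ B, Rank_co c u ∈ A)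
    (h2 : ∀ v ∈ A, Rank_co (fun i => some (e i)) v ∈ B) (i : I) :
    dwt A (e i) 1 = dwt B i 1 := by
  classical
  have hce : ∀ i, c (e i) = some i := fun i => (hc _ _).2 rfl
  have he : Function.Injective e := fun i i' h =>
    Option.some.inj ((hce i).symm.trans (h ▸ hce i'))
  have hin : ∀ (v : HS J G) (u : HS I G),
      ⟪v, Rank_co c u⟫_ℂ = ⟪Rank_co (fun i => some (e i)) v, u⟫_ℂ := by
    intro v u
    rw [PiLp.inner_apply, PiLp.inner_apply]
    refine (Fintype.sum_of_injective e he _ _ (fun j hj => ?_) fun i => ?_).symm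
    · rw [Rank_co_apply]
      cases hj' : c j with
      | none => exact inner_zero_right _
      | some i => exact absurd ⟨i, ((hc _ _).1 hj').symm⟩ hj
    · rw [Rank_co_apply, Rank_co_apply, hce]
      rfl
  have hRE : ∀ u : HS I G, Rank_co (fun i => some (e i)) (Rank_co c u) = u := fun u => by
    ext1 i
    show Rank_co c u (e i) = u i
    rw [Rank_co_apply, hce]
    rfl
  have hdl : Rank_co c (dl i (1 : G)) = dl (e i) 1 := by
    refine ext_inner_right ℂ fun v => ?_
    rw [← inner_conj_symm, hin, inner_conj_symm, inner_dl, inner_dl]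
    rfl
  have hP : A.topologicalClosure.starProjection (dl (e i) 1) =
      Rank_co c (B.topologicalClosure.starProjection (dl i 1)) := by
    refine Submodule.eq_starProjection_of_mem_orthogonal ?_ fun v hv => ?_
    · exact A.le_topologicalClosure (h1 _ (hB.le (Submodule.starProjection_apply_mem _ _)))
    · rw [← hdl, ← map_sub, hin]
      exact Submodule.sub_starProjection_mem_orthogonal _ _
        (B.le_topologicalClosure (h2 v (hA.le hv)))
  rw [dwt, dwt, hP, ← inner_self_eq_norm_sq (𝕜 := ℂ), ← inner_self_eq_norm_sq (𝕜 := ℂ), hin, hRE]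

theorem Rank_mem (M : Matrix J I (VN G)) (v : HS I G) :
    v ∈ (opN M).ker ↔ ∀ j, ∑ i, (M j i : L2 G →L[ℂ] L2 G) (v i) = 0 := by
  refine ⟨fun h j => ?_, fun h => ?_⟩
  · rw [← opN_apply, show opN M v = 0 from h]
    rfl
  · show opN M v = 0
    ext1 j
    rw [opN_apply, h]
    rfl

theorem kd_fromBlocks {I' J' : Type} [Fintype I'] [Fintype J'] (M : Matrix J I (VN G))
    (M' : Matrix J' I' (VN G)) : kd (Matrix.fromBlocks M 0 0 M') = kd M + kd M' := by
  rw [kd, kd, kd, vnDim_eq, vnDim_eq, vnDim_eq, Fintype.sum_sum_type]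
  congr 1
  · refine Finset.sum_congr rfl fun i _ => Rank_emb Rank_ker Rank_ker
      (Sum.elim some fun _ => none) Sum.inl (fun j i => ?_) (fun u hu => ?_) (fun v hv => ?_) i
    · cases j <;> simp
    · rw [Rank_mem] at hu ⊢
      rintro (j | j)
      · simpa [Rank_co_apply] using hu j
      · simp [Rank_co_apply]
    · rw [Rank_mem] at hv ⊢
      intro j
      simpa [Rank_co_apply] using hv (Sum.inl j)
  · refine Finset.sum_congr rfl fun i _ => Rank_emb Rank_ker Rank_ker
      (Sum.elim (fun _ => none) some) Sum.inr (fun j i => ?_) (fun u hu => ?_) (fun v hv => ?_) i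
    · cases j <;> simp
    · rw [Rank_mem] at hu ⊢
      rintro (j | j)
      · simp [Rank_co_apply]
      · simpa [Rank_co_apply] using hu j
    · rw [Rank_mem] at hv ⊢
      intro j
      simpa [Rank_co_apply] using hv (Sum.inr j)

theorem kd_one [DecidableEq I] : kd (1 : Matrix I I (VN G)) = 0 := by
  rw [kd, opN_one, show (ContinuousLinearMap.id ℂ (HS I G)).ker = ⊥ from LinearMap.ker_id, vn_bot]

theorem kd_submatrix {I' J' : Type} [Fintype I'] [Fintype J'] (M : Matrix J I (VN G))
    (e : J' ≃ J) (f : I' ≃ I) : kd (M.submatrix e f) = kd M := by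
  rw [kd, kd, vnDim_eq, vnDim_eq, ← f.sum_comp]
  refine Finset.sum_congr rfl fun i _ => (Rank_emb Rank_ker Rank_ker
    (fun i => some (f.symm i)) f (fun j i => ?_) (fun u hu => ?_) (fun v hv => ?_) i).symm
  · rw [Option.some_inj, Equiv.symm_apply_eq]
  · rw [Rank_mem] at hu ⊢
    intro j
    rw [← f.sum_comp]
    simpa [Rank_co_apply] using hu (e.symm j)
  · rw [Rank_mem] at hv ⊢
    intro j
    have := hv (e j)
    rw [← f.sum_comp] at this
    exact this

theorem kd_unit_le (a : VN G) : kd (Matrix.of fun _ _ : Unit => a) ≤ 1 := by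
  simpa [kd] using vn_le_card (opN (Matrix.of fun _ _ : Unit => a)).ker

theorem Rank_unit (a : VN G) (v : HS Unit G) :
    opN (Matrix.of fun _ _ : Unit => a) v () = (a : L2 G →L[ℂ] L2 G) (v ()) := by
  rw [opN_apply, Fintype.sum_unique]
  rfl

theorem Rank_unit_ker (a : VN G) : (opN (Matrix.of fun _ _ : Unit => a)).ker = ⊥ ↔
    Function.Injective (a : L2 G →L[ℂ] L2 G) := by
  rw [Submodule.eq_bot_iff, injective_iff_map_eq_zero]
  refine ⟨fun h v hv => ?_, fun h v hv => ?_⟩
  · have h1 := h (WithLp.toLp 2 fun _ => v) ((Rank_mem _ _).2 fun _ => by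
      rw [Fintype.sum_unique]
      exact hv)
    exact congrArg (fun w : HS Unit G => w ()) h1
  · have h1 := (Rank_mem _ _).1 hv ()
    rw [Fintype.sum_unique] at h1
    ext1 i
    exact h _ h1

theorem kd_unit_eq_zero (a : VN G) :
    kd (Matrix.of fun _ _ : Unit => a) = 0 ↔ Function.Injective (a : L2 G →L[ℂ] L2 G) := by
  rw [← Rank_unit_ker, kd]
  exact ⟨fun h => vn_eq_zero (eqv_opN _).inv_ker h.le, fun h => by rw [h, vn_bot]⟩

theorem kd_unit_eq_one (a : VN G) : kd (Matrix.of fun _ _ : Unit => a) = 1 ↔ a = 0 := by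
  refine ⟨fun h => ?_, fun h => ?_⟩
  · have h1 := vn_dense (eqv_opN (Matrix.of fun _ _ : Unit => a)).inv_ker
      (by simpa [kd] using h.ge)
    rw [Rank_ker] at h1
    refine Subtype.ext (ContinuousLinearMap.ext fun v => ?_)
    have h2 := (Rank_mem _ (WithLp.toLp 2 fun _ => v)).1 (h1 ▸ Submodule.mem_top) ()
    rw [Fintype.sum_unique] at h2
    exact h2
  · have h1 : (opN (Matrix.of fun _ _ : Unit => a)).ker = ⊤ :=
      eq_top_iff.2 fun v _ => (Rank_mem _ _).2 fun _ => by simp [h]
    rw [kd, h1, vn_top]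
    simp

theorem kd_pperm [DecidableEq I] (c : J → Option I) :
    ∃ z : ℤ, kd (Matrix.of fun j i => if c j = some i then (1 : VN G) else 0) = z := by
  classical
  set M : Matrix J I (VN G) := Matrix.of fun j i => if c j = some i then (1 : VN G) else 0 with hM
  have hmem : ∀ v : HS I G, v ∈ (opN M).ker ↔ ∀ j i, c j = some i → v i = 0 := by
    intro v
    rw [Rank_mem]
    refine forall_congr' fun j => ?_
    cases hj : c j with
    | none => simp [hM, hj]
    | some i =>
      rw [Finset.sum_eq_single i (fun i' _ hi => by simp [hM, hj, hi.symm]) (by simp)]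
      simp [hM, hj]
  refine ⟨∑ i, if ∃ j, c j = some i then 0 else 1, ?_⟩
  rw [kd, vnDim_eq, Int.cast_sum]
  refine Finset.sum_congr rfl fun i _ => ?_
  split_ifs with h
  · obtain ⟨j, hj⟩ := h
    rw [dwt, (Submodule.starProjection_apply_eq_zero_iff _).2, norm_zero]
    · simp
    · rw [Rank_ker, Submodule.mem_orthogonal']
      intro u hu
      rw [inner_dl, (hmem u).1 hu j i hj]
      rfl
  · rw [dwt, Submodule.starProjection_eq_self_iff.2, norm_dl]
    · simp
    · refine Submodule.le_topologicalClosure _ ((hmem _).2 fun j i' hj => ?_)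
      ext x
      exact dl_apply_ne fun e => h ⟨j, hj.trans (congrArg (fun z => some z.1) e)⟩

theorem vn_inj_adjoint {a : L2 G →L[ℂ] L2 G} (ha : a ∈ VN G) (h : Function.Injective a) :
    Function.Injective (adjoint a) := by
  have h1 := Submodule.topologicalClosure_eq_top_iff.1
    ((inj_iff_dense (eqv_opN _)).1 ((Rank_unit_ker ⟨a, ha⟩).2 h))
  rw [injective_iff_map_eq_zero]
  intro v hv
  have h2 := (Submodule.eq_bot_iff _).1 h1 (WithLp.toLp 2 fun _ => v) (by
    rintro _ ⟨u, rfl⟩
    rw [PiLp.inner_apply, Fintype.sum_unique]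
    refine (congrArg (⟪·, v⟫_ℂ) (Rank_unit ⟨a, ha⟩ u)).trans ?_
    show ⟪a (u ()), v⟫_ℂ = 0
    rw [← adjoint_inner_right, hv, inner_zero_right])
  exact congrArg (fun w : HS Unit G => w ()) h2

theorem mem_nzd_iff (a : VN G) :
    a ∈ nonZeroDivisors (VN G) ↔ Function.Injective (a : L2 G →L[ℂ] L2 G) := by
  rw [mem_nonZeroDivisors_iff]
  refine ⟨fun h => (Rank_unit_ker a).1 ?_, fun h => ⟨fun b hb => ?_, fun b hb => ?_⟩⟩
  · obtain ⟨M, hM⟩ := (eqv_opN (Matrix.of fun _ _ : Unit => a)).inv_ker.eqv_proj.exists_opN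
    have h1 : Matrix.of (fun _ _ : Unit => a) * M = 0 := by
      refine opN_injective ?_
      rw [opN_mul, opN_zero, hM]
      exact ContinuousLinearMap.ext fun v => (Rank_ker (T := opN (Matrix.of fun _ _ : Unit => a))).le
        (Submodule.starProjection_apply_mem _ v)
    have h2 : M = 0 := by
      ext1 i j
      refine h.1 _ ?_
      have := congrFun (congrFun h1 i) j
      rwa [Matrix.mul_apply, Fintype.sum_unique] at this
    rw [h2, opN_zero] at hM
    refine (Submodule.eq_bot_iff _).2 fun v hv => ?_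
    rw [← Submodule.starProjection_eq_self_iff.2 (Submodule.le_topologicalClosure _ hv), ← hM]
    rfl
  · refine Subtype.ext (ContinuousLinearMap.ext fun v => h ?_)
    exact (congrArg (fun c : VN G => (c : L2 G →L[ℂ] L2 G) v) hb).trans (map_zero _).symm
  · have h1 : (b : L2 G →L[ℂ] L2 G) ∘L (a : L2 G →L[ℂ] L2 G) = 0 := congrArg Subtype.val hb
    have h2 := congrArg adjoint h1
    rw [adjoint_comp, map_zero] at h2
    have h3 : adjoint (b : L2 G →L[ℂ] L2 G) = 0 :=
      ContinuousLinearMap.ext fun v => vn_inj_adjoint a.2 h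
        ((congrArg (fun c : L2 G →L[ℂ] L2 G => c v) h2).trans (map_zero _).symm)
    exact Subtype.ext ((map_eq_zero_iff _ adjoint.injective).1 h3)

end Pool.Agent.Work.MP_735653_gt
end

-- merged part: Pool.Agent.Work.MP_735653_gt.Win
section
/-! A Laurent polynomial with injective top coefficient is injective. -/

namespace Pool.Agent.Work.MP_735653_gt

open scoped InnerProductSpace

variable {G : Type} [Group G]

theorem Win_hasSum {X : Type} (v : L2 X) : HasSum (fun g => ‖v g‖ ^ 2) (‖v‖ ^ 2) := by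
  have h := lp.hasSum_norm (p := 2) (by norm_num) v
  simpa using h

theorem Win_norm_rho (g : G) (v : L2 G) : ‖rho g v‖ ^ 2 = ‖v‖ ^ 2 := by
  have h1 := Win_hasSum (rho g v)
  have h2 := (Equiv.mulRight g).hasSum_iff.2 (Win_hasSum v)
  exact h1.unique h2

theorem Win_rho_rho (g h : G) (v : L2 G) : rho g (rho h v) = rho (g * h) v := by
  ext x
  rw [rho_apply, rho_apply, rho_apply, mul_assoc]

theorem Win_rho_lam (g h : G) (v : L2 G) : rho g (lam h v) = lam h (rho g v) := by
  ext x
  rw [rho_apply, lam_apply, lam_apply, rho_apply, mul_assoc]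

theorem Win_rho_inj (g : G) {v : L2 G} (h : rho g v = 0) : v = 0 := by
  have h1 := Win_norm_rho g v
  rw [h, norm_zero] at h1
  exact norm_eq_zero.1 (pow_eq_zero_iff two_ne_zero |>.1 (by rw [← h1]; norm_num))

theorem Win_eqv {I J : Type} [Fintype I] [Fintype J] (M : Matrix J I (L2 G →L[ℂ] L2 G))
    (h : ∀ j i g v, M j i (lam g v) = lam g (M j i v)) : Eqv (op M) := by
  intro g v
  ext1 j
  rw [dg_apply, op_apply, op_apply, map_sum]
  exact Finset.sum_congr rfl fun i _ => by rw [dg_apply, h]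

theorem Win_inner {I : Type} [Fintype I] (W : Submodule ℂ (HS I G)) (e : HS I G) {y : HS I G}
    (hy : y ∈ W.topologicalClosure) : ⟪e, y⟫_ℂ = ⟪W.topologicalClosure.starProjection e, y⟫_ℂ := by
  have h := W.topologicalClosure.starProjection_inner_eq_zero e y hy
  rw [inner_sub_left] at h
  exact sub_eq_zero.1 h

theorem Win_ind_rho (χ : G →* Multiplicative ℤ) (t : G) (ht : χ t = Multiplicative.ofAdd 1)
    (l k : ℕ) (v : L2 G) :
    ind {x | χ x = Multiplicative.ofAdd (l : ℤ)} (rho (t ^ k) v) =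
      rho (t ^ k) (ind {x | χ x = Multiplicative.ofAdd ((l + k : ℕ) : ℤ)} v) := by
  ext x
  have e : χ (x * t ^ k) = χ x * Multiplicative.ofAdd (k : ℤ) := by
    rw [map_mul, map_pow, ht, ← ofAdd_nsmul]
    simp
  rw [rho_apply]
  by_cases hx : χ x = Multiplicative.ofAdd (l : ℤ)
  · rw [ind_of_mem _ (show x ∈ {x | χ x = Multiplicative.ofAdd (l : ℤ)} from hx), rho_apply,
      ind_of_mem]
    show χ (x * t ^ k) = _
    rw [e, hx, ← ofAdd_add]
    push_cast
    rfl
  · rw [ind_of_not_mem _ (show x ∉ {x | χ x = Multiplicative.ofAdd (l : ℤ)} from hx),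
      ind_of_not_mem]
    intro h
    apply hx
    have h2 : χ (x * t ^ k) = Multiplicative.ofAdd ((l + k : ℕ) : ℤ) := h
    rw [e] at h2
    push_cast at h2
    rw [ofAdd_add] at h2
    exact mul_right_cancel h2

theorem Win_levels (χ : G →* Multiplicative ℤ) (n : ℕ) (v : L2 G) :
    ∑ c : Fin n, ‖ind {x | χ x = Multiplicative.ofAdd ((c : ℕ) : ℤ)} v‖ ^ 2 ≤ ‖v‖ ^ 2 := by
  classical
  have h1 := hasSum_sum (s := (Finset.univ : Finset (Fin n)))
    (fun c _ => Win_hasSum (ind {x | χ x = Multiplicative.ofAdd ((c : ℕ) : ℤ)} v))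
  refine hasSum_le (fun g => ?_) h1 (Win_hasSum v)
  by_cases h : ∃ c : Fin n, χ g = Multiplicative.ofAdd ((c : ℕ) : ℤ)
  · obtain ⟨c, hc⟩ := h
    rw [Finset.sum_eq_single c]
    · rw [ind_of_mem _ (show g ∈ {x | χ x = Multiplicative.ofAdd ((c : ℕ) : ℤ)} from hc)]
    · intro c' _ hne
      rw [ind_of_not_mem, norm_zero]
      · norm_num
      · intro h'
        have h2 : χ g = Multiplicative.ofAdd ((c' : ℕ) : ℤ) := h'
        rw [hc] at h2
        have h3 := Multiplicative.ofAdd.injective h2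
        exact hne (Fin.ext (by exact_mod_cast h3.symm))
    · intro h'
      exact absurd (Finset.mem_univ c) h'
  · rw [Finset.sum_eq_zero]
    · positivity
    · intro c _
      rw [ind_of_not_mem, norm_zero]
      · norm_num
      · intro h'
        exact h ⟨c, h'⟩

/-- the band matrix -/
noncomputable def Win_M (t : G) (m N : ℕ) (b : ℕ → (L2 G →L[ℂ] L2 G)) :
    Matrix (Fin N) (Fin (N + m)) (L2 G →L[ℂ] L2 G) := fun l c =>
  if (l : ℕ) ≤ c ∧ (c : ℕ) ≤ l + m then b (c - l) * rho (t ^ (l : ℕ))⁻¹ else 0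

theorem Win_dim (t : G) (m N : ℕ) (b : ℕ → (L2 G →L[ℂ] L2 G))
    (hb : ∀ k g v, b k (lam g v) = lam g (b k v)) (hm : Function.Injective (b m)) :
    vnDim (op (Win_M t m N b)).ker ≤ m := by
  have hT : Eqv (op (Win_M t m N b)) := by
    apply Win_eqv
    intro j i g v
    unfold Win_M
    split_ifs
    · rw [ContinuousLinearMap.mul_apply, ContinuousLinearMap.mul_apply, Win_rho_lam, hb]
    · simp
  let R : Matrix (Fin m) (Fin (N + m)) (L2 G →L[ℂ] L2 G) := fun j i =>
    if (i : ℕ) = j then 1 else 0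
  have hR : Eqv (op R) := by
    apply Win_eqv
    intro j i g v
    simp only [R]
    split_ifs
    · simp
    · simp
  have h := vn_mono hR (W' := ⊤) hT.inv_ker (ContinuousLinearMap.isClosed_ker _)
    (fun _ _ => Submodule.mem_top) (by
      intro v hv hRv
      have key : ∀ n : ℕ, ∀ c : Fin (N + m), (c : ℕ) = n → v c = 0 := by
        intro n
        induction n using Nat.strong_induction_on with
        | _ n ih =>
          intro c hc
          by_cases hcm : n < m
          · have h1 : op R v ⟨n, hcm⟩ = 0 := by rw [hRv]; rfl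
            rw [op_apply, Finset.sum_eq_single c] at h1
            · simpa [R, hc] using h1
            · intro c' _ hne
              have : (c' : ℕ) ≠ n := fun e => hne (Fin.ext (by rw [e, hc]))
              simp [R, this]
            · intro h'
              exact absurd (Finset.mem_univ c) h'
          · have hl : n - m < N := by have := c.2; omega
            have h0 : op (Win_M t m N b) v = 0 := hv
            have h1 : op (Win_M t m N b) v ⟨n - m, hl⟩ = 0 := by rw [h0]; rfl
            rw [op_apply, Finset.sum_eq_single c] at h1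
            · unfold Win_M at h1
              rw [if_pos (by simp only; omega), ContinuousLinearMap.mul_apply] at h1
              have e : (c : ℕ) - (n - m) = m := by omega
              simp only [e] at h1
              exact Win_rho_inj _ (hm (h1.trans (map_zero _).symm))
            · intro c' _ hne
              have h2 : (c' : ℕ) ≠ n := fun e => hne (Fin.ext (by rw [e, hc]))
              rcases lt_or_gt_of_ne h2 with h3 | h3
              · rw [ih c' h3 c' rfl, map_zero]
              · unfold Win_M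
                rw [if_neg (by simp only; omega)]
                rfl
            · intro h'
              exact absurd (Finset.mem_univ c) h'
      ext1 c
      exact key c c rfl)
  rw [vn_top, Fintype.card_fin] at h
  exact h

theorem Win_mem (χ : G →* Multiplicative ℤ) (t : G) (ht : χ t = Multiplicative.ofAdd 1) (m N : ℕ)
    (b : ℕ → (L2 G →L[ℂ] L2 G))
    (hb : ∀ k j v, b k (ind {x | χ x = j} v) = ind {x | χ x = j} (b k v)) {x : L2 G}
    (hx : ∑ k ∈ Finset.range (m + 1), b k (rho (t ^ k) x) = 0) :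
    op (Win_M t m N b) (WithLp.toLp 2 fun c : Fin (N + m) =>
      rho (t ^ (c : ℕ)) (ind {x | χ x = Multiplicative.ofAdd ((c : ℕ) : ℤ)} x)) = 0 := by
  ext1 l
  rw [op_apply]
  let f : ℕ → L2 G := fun c => if (l : ℕ) ≤ c ∧ c ≤ l + m then
    b (c - l) (rho (t ^ (l : ℕ))⁻¹ (rho (t ^ c) (ind {x | χ x = Multiplicative.ofAdd (c : ℤ)} x)))
    else 0
  have h1 : ∀ c : Fin (N + m), Win_M t m N b l c
      ((WithLp.toLp 2 fun c : Fin (N + m) =>
        rho (t ^ (c : ℕ)) (ind {x | χ x = Multiplicative.ofAdd ((c : ℕ) : ℤ)} x) :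
          HS (Fin (N + m)) G) c) = f c := by
    intro c
    unfold Win_M
    simp only [f]
    split_ifs
    · rfl
    · rfl
  rw [Finset.sum_congr rfl (fun c _ => h1 c), Fin.sum_univ_eq_sum_range f (N + m)]
  have h2 : ∑ c ∈ Finset.range (N + m), f c = ∑ c ∈ Finset.Ico (l : ℕ) (l + (m + 1)), f c := by
    symm
    apply Finset.sum_subset
    · intro c hc
      rw [Finset.mem_Ico] at hc
      rw [Finset.mem_range]
      have := l.2
      omega
    · intro c _ hc
      rw [Finset.mem_Ico] at hc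
      simp only [f]
      rw [if_neg (by omega)]
  rw [h2, Finset.sum_Ico_eq_sum_range, Nat.add_sub_cancel_left]
  have h3 : ∀ k ∈ Finset.range (m + 1), f (l + k) =
      ind {x | χ x = Multiplicative.ofAdd ((l : ℕ) : ℤ)} (b k (rho (t ^ k) x)) := by
    intro k hk
    rw [Finset.mem_range] at hk
    simp only [f]
    rw [if_pos (by omega), Nat.add_sub_cancel_left, Win_rho_rho, pow_add, inv_mul_cancel_left,
      ← Win_ind_rho χ t ht, hb]
  rw [Finset.sum_congr rfl h3, ← map_sum, hx, map_zero]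
  rfl

theorem window (χ : G →* Multiplicative ℤ) (t : G) (ht : χ t = Multiplicative.ofAdd 1) (m : ℕ)
    (b : ℕ → (L2 G →L[ℂ] L2 G)) (hb : ∀ k, b k ∈ Subring.centralizer (lev χ))
    (hm : Function.Injective (b m)) :
    Function.Injective (∑ k ∈ Finset.range (m + 1), b k * rho (t ^ k) : L2 G →L[ℂ] L2 G) := by
  have hb1 : ∀ k g v, b k (lam g v) = lam g (b k v) := by
    intro k g v
    have := Subring.mem_centralizer_iff.1 (hb k) (lam g) (Or.inl ⟨g, rfl⟩)
    exact (congrArg (fun T : L2 G →L[ℂ] L2 G => T v) this).symm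
  have hb2 : ∀ k j v, b k (ind {x | χ x = j} v) = ind {x | χ x = j} (b k v) := by
    intro k j v
    have := Subring.mem_centralizer_iff.1 (hb k) (ind {x | χ x = j}) (Or.inr ⟨j, rfl⟩)
    exact (congrArg (fun T : L2 G →L[ℂ] L2 G => T v) this).symm
  set a : L2 G →L[ℂ] L2 G := ∑ k ∈ Finset.range (m + 1), b k * rho (t ^ k) with ha
  have ha1 : ∀ v, a v = ∑ k ∈ Finset.range (m + 1), b k (rho (t ^ k) v) := by
    intro v
    rw [ha, ContinuousLinearMap.sum_apply]
    rfl
  let A : HS Unit G →L[ℂ] HS Unit G := op fun _ _ => a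
  have hA1 : ∀ v : HS Unit G, A v () = a (v ()) := by
    intro v
    simp only [A]
    rw [op_apply]
    simp
  have hA : Eqv A := by
    apply Win_eqv
    intro _ _ g v
    rw [ha1, ha1, map_sum]
    exact Finset.sum_congr rfl fun k _ => by rw [Win_rho_lam, hb1]
  have hcl : A.ker.topologicalClosure ≤ A.ker :=
    Submodule.topologicalClosure_minimal _ le_rfl (ContinuousLinearMap.isClosed_ker _)
  have hd : vnDim A.ker = dwt A.ker () 1 := by
    rw [vnDim_eq]; simp
  have key : ∀ N : ℕ, ∀ c : Fin (N + m), 0 < vnDim A.ker →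
      vnDim A.ker ≤ dwt (op (Win_M t m N b)).ker c 1 := by
    intro N c hpos
    set X := A.ker.topologicalClosure.starProjection (dl () (t ^ (c : ℕ))) with hX
    have hXm : X ∈ A.ker.topologicalClosure := Submodule.starProjection_apply_mem _ _
    have hXn : ‖X‖ ^ 2 = vnDim A.ker := by
      rw [hd, ← hA.inv_ker.dwt_eq () (t ^ (c : ℕ))]
      rfl
    have hXv : ‖X () (t ^ (c : ℕ))‖ = vnDim A.ker := by
      rw [← inner_dl, Win_inner A.ker _ hXm, ← hX, inner_self_eq_norm_sq_to_K, ← hXn]
      simp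
    have hX0 : a (X ()) = 0 := by
      have h0 : A X = 0 := hcl hXm
      rw [← hA1, h0]
      rfl
    rw [ha1] at hX0
    have hy := Win_mem χ t ht m N b hb2 hX0
    set y : HS (Fin (N + m)) G := WithLp.toLp 2 fun c : Fin (N + m) =>
      rho (t ^ (c : ℕ)) (ind {x | χ x = Multiplicative.ofAdd ((c : ℕ) : ℤ)} (X ())) with hyd
    have hym : y ∈ (op (Win_M t m N b)).ker.topologicalClosure :=
      Submodule.le_topologicalClosure _ hy
    have hyn : ‖y‖ ^ 2 ≤ vnDim A.ker := by
      rw [← hXn, PiLp.norm_sq_eq_of_L2, PiLp.norm_sq_eq_of_L2 _ X]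
      simp only [Finset.univ_unique, Finset.sum_singleton]
      refine le_trans (le_of_eq ?_) (Win_levels χ (N + m) (X ()))
      exact Finset.sum_congr rfl fun c _ => Win_norm_rho _ _
    have hyv : y c 1 = X () (t ^ (c : ℕ)) := by
      show rho (t ^ (c : ℕ)) (ind {x | χ x = Multiplicative.ofAdd ((c : ℕ) : ℤ)} (X ())) 1 = _
      rw [rho_apply, one_mul, ind_of_mem]
      show χ (t ^ (c : ℕ)) = _
      rw [map_pow, ht, ← ofAdd_nsmul]
      simp
    have h1 : vnDim A.ker ≤
        ‖(op (Win_M t m N b)).ker.topologicalClosure.starProjection (dl c 1)‖ * ‖y‖ := by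
      rw [← hXv, ← hyv, ← inner_dl, Win_inner _ _ hym]
      exact norm_inner_le_norm _ _
    have h2 : vnDim A.ker ^ 2 ≤ dwt (op (Win_M t m N b)).ker c 1 * vnDim A.ker := by
      calc vnDim A.ker ^ 2 ≤ (‖(op (Win_M t m N b)).ker.topologicalClosure.starProjection
            (dl c 1)‖ * ‖y‖) ^ 2 := pow_le_pow_left₀ hpos.le h1 2
        _ = dwt (op (Win_M t m N b)).ker c 1 * ‖y‖ ^ 2 := by rw [mul_pow]; rfl
        _ ≤ _ := mul_le_mul_of_nonneg_left hyn (by unfold dwt; positivity)
    rw [sq] at h2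
    exact le_of_mul_le_mul_right h2 hpos
  have hK : A.ker = ⊥ := by
    apply vn_eq_zero hA.inv_ker
    by_contra hpos
    rw [not_le] at hpos
    obtain ⟨N, hN⟩ := exists_nat_gt ((m : ℝ) / vnDim A.ker)
    have h1 := Win_dim t m N b hb1 hm
    rw [vnDim_eq] at h1
    have h2 := Finset.sum_le_sum (s := Finset.univ) (fun c _ => key N c hpos)
    rw [Finset.sum_const, Finset.card_univ, Fintype.card_fin, nsmul_eq_mul] at h2
    rw [div_lt_iff₀ hpos] at hN
    push_cast at h2
    have h3 : (0 : ℝ) ≤ m * vnDim A.ker := by positivity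
    nlinarith
  rw [injective_iff_map_eq_zero]
  intro v hv
  have h1 : (WithLp.toLp 2 fun _ : Unit => v : HS Unit G) ∈ A.ker := by
    show A _ = 0
    ext1 j
    rw [hA1]
    exact hv
  rw [hK, Submodule.mem_bot] at h1
  exact congrArg (fun w : HS Unit G => w ()) h1

end Pool.Agent.Work.MP_735653_gt
end
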