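import Pool.Agent.Work.MP_735653_gt.KdEq
import Pool.Agent.Work.MP_735653_gt.Win

attribute [-instance] Subring.toCommRing

-- merged part: Pool.Agent.Work.MP_735653_gt.RatCl
section
/-! Integral kernel dimensions make the division closure a division ring. -/

namespace Pool.Agent.Work.MP_735653_gt

theorem subset_divCl {U : Type} [Ring U] (S : Set U) : S ⊆ divCl S :=
  fun _ hx => Subring.mem_sInf.2 fun _ hD => hD.1 hx

theorem inv_mem_divCl {U : Type} [Ring U] {S : Set U} (u : Uˣ) (h : (u : U) ∈ divCl S) :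
    (↑u⁻¹ : U) ∈ divCl S :=
  Subring.mem_sInf.2 fun D hD => hD.2 u (Subring.mem_sInf.1 h D hD)

theorem divCl_le {U : Type} [Ring U] {S : Set U} {D : Subring U} (h1 : S ⊆ D)
    (h2 : ∀ u : Uˣ, (u : U) ∈ D → (↑u⁻¹ : U) ∈ D) : divCl S ≤ D :=
  sInf_le ⟨h1, h2⟩

theorem isDiv_divCl {U : Type} [Ring U] {S : Set U} (h : ∀ x ∈ divCl S, x ≠ 0 → IsUnit x) :
    IsDiv (divCl S) := by
  intro x hx h0
  obtain ⟨u, rfl⟩ := h x hx h0
  exact ⟨_, inv_mem_divCl u hx, u.mul_inv, u.inv_mul⟩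

theorem isDiv_of_le {U : Type} [Ring U] [Nontrivial U] {S : Set U} {D : Subring U} (h1 : S ⊆ D)
    (h2 : IsDiv D) : IsDiv (divCl S) := by
  have hle : divCl S ≤ D := divCl_le h1 fun u hu => by
    obtain ⟨y, hy, h, -⟩ := h2 u hu u.ne_zero
    rwa [Units.inv_eq_of_mul_eq_one_right h]
  refine isDiv_divCl fun x hx h0 => ?_
  obtain ⟨y, -, h, h'⟩ := h2 x (hle hx) h0
  exact ⟨⟨x, y, h, h'⟩, rfl⟩

open Matrix

/-- one by one matrices -/
def RatCl_sc (U : Type) [Ring U] : U →+* Matrix Unit Unit U where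
  toFun a := Matrix.of fun _ _ => a
  map_one' := by ext; simp
  map_mul' a b := by ext; simp [Matrix.mul_apply]
  map_zero' := by ext; simp
  map_add' a b := by ext; simp

theorem RatCl_up {U I J : Type} [Ring U] [Fintype I] [DecidableEq I] [Fintype J] [DecidableEq J]
    {A : Matrix I I U} {D : Matrix J J U} (hA : IsUnit A) (B : Matrix I J U) (hD : IsUnit D) :
    IsUnit (fromBlocks A B 0 D) := by
  obtain ⟨A, rfl⟩ := hA
  obtain ⟨D, rfl⟩ := hD
  refine isUnit_iff_exists.2 ⟨fromBlocks (A⁻¹).1 (-((A⁻¹).1 * B * (D⁻¹).1)) 0 (D⁻¹).1, ?_, ?_⟩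
  · rw [fromBlocks_multiply, Matrix.mul_neg, ← Matrix.mul_assoc, ← Matrix.mul_assoc, A.mul_inv,
      D.mul_inv, ← fromBlocks_one]
    simp only [Matrix.mul_zero, Matrix.zero_mul, add_zero, zero_add, Matrix.one_mul,
      neg_add_cancel]
  · rw [fromBlocks_multiply, Matrix.neg_mul _ D.1, Matrix.mul_assoc _ _ D.1, A.inv_mul, D.inv_mul,
      ← fromBlocks_one]
    simp only [Matrix.mul_zero, Matrix.zero_mul, add_zero, zero_add, Matrix.mul_one,
      add_neg_cancel]

theorem RatCl_low {U I J : Type} [Ring U] [Fintype I] [DecidableEq I] [Fintype J] [DecidableEq J]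
    (C : Matrix J I U) : IsUnit (fromBlocks (1 : Matrix I I U) 0 C (1 : Matrix J J U)) :=
  isUnit_iff_exists.2
    ⟨fromBlocks 1 0 (-C) 1, by simp [fromBlocks_multiply], by simp [fromBlocks_multiply]⟩

/-- elements of the rational closure -/
def RatCl_rat {R U : Type} [Ring R] [Ring U] (ι : R →+* U) (a : U) : Prop :=
  ∃ (I : Type) (_ : Fintype I) (_ : DecidableEq I) (M : Matrix I I R) (u : Matrix Unit I R)
    (v : Matrix I Unit R) (x : Matrix I Unit U),
    IsUnit (M.map ι) ∧ M.map ι * x = v.map ι ∧ u.map ι * x = RatCl_sc U a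

theorem RatCl_fac {R U I : Type} [Ring R] [Ring U] (ι : R →+* U) [Fintype I] [DecidableEq I]
    {M : Matrix I I R} {u : Matrix Unit I R} {v : Matrix I Unit R} {x : Matrix I Unit U}
    {A : Matrix Unit Unit U} (h1 : M.map ι * x = v.map ι) (h2 : u.map ι * x = A) :
    (fromBlocks 0 u v M).map ι =
      fromBlocks (-1) (u.map ι) 0 (M.map ι) * fromBlocks A 0 0 1 * fromBlocks 1 0 x 1 := by
  simp [fromBlocks_multiply, fromBlocks_map, h1, h2]

theorem RatCl_map {R U : Type} [Ring R] [Ring U] (ι : R →+* U) (r : R) : RatCl_rat ι (ι r) :=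
  ⟨Unit, inferInstance, inferInstance, 1, 1, RatCl_sc R r, RatCl_sc U (ι r), by simp,
    by rw [Matrix.map_one _ (map_zero ι) (map_one ι), Matrix.one_mul]; rfl, by simp⟩

/-- the rational closure -/
def RatCl_sub {R U : Type} [Ring R] [Ring U] (ι : R →+* U) : Subring U where
  carrier := {a | RatCl_rat ι a}
  one_mem' := map_one ι ▸ RatCl_map ι 1
  zero_mem' := map_zero ι ▸ RatCl_map ι 0
  add_mem' := by
    rintro a b ⟨I, _, _, M, u, v, x, h0, h1, h2⟩ ⟨J, _, _, M', u', v', x', h0', h1', h2'⟩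
    refine ⟨I ⊕ J, inferInstance, inferInstance, fromBlocks M 0 0 M', fromCols u u', fromRows v v',
      fromRows x x', ?_, ?_, ?_⟩
    · simpa [fromBlocks_map] using RatCl_up h0 0 h0'
    · simp [fromBlocks_map, fromRows_map, fromBlocks_mul_fromRows, h1, h1']
    · rw [fromCols_map, fromCols_mul_fromRows, h2, h2', map_add]
  neg_mem' := by
    rintro a ⟨I, _, _, M, u, v, x, h0, h1, h2⟩
    exact ⟨I, inferInstance, inferInstance, M, -u, v, x, h0, h1, by
      rw [Matrix.map_neg _ (map_neg ι), Matrix.neg_mul, h2, map_neg]⟩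
  mul_mem' := by
    rintro a b ⟨I, _, _, M, u, v, x, h0, h1, h2⟩ ⟨J, _, _, M', u', v', x', h0', h1', h2'⟩
    refine ⟨I ⊕ J, inferInstance, inferInstance, fromBlocks M (-(v * u')) 0 M', fromCols u 0,
      fromRows 0 v', fromRows (x * RatCl_sc U b) x', ?_, ?_, ?_⟩
    · simpa [fromBlocks_map] using RatCl_up h0 ((-(v * u')).map ι) h0'
    · rw [fromBlocks_map, fromBlocks_mul_fromRows, fromRows_map, Matrix.map_neg _ (map_neg ι),
        Matrix.map_mul, ← Matrix.mul_assoc, h1, h1', Matrix.neg_mul, Matrix.mul_assoc, h2']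
      simp
    · rw [fromCols_map, fromCols_mul_fromRows, ← Matrix.mul_assoc, h2, map_mul]
      simp

theorem RatCl_inv {R U : Type} [Ring R] [Ring U] (ι : R →+* U) (a : Uˣ)
    (h : RatCl_rat ι a) : RatCl_rat ι (↑a⁻¹ : U) := by
  obtain ⟨I, _, _, M, u, v, x, h0, h1, h2⟩ := h
  refine ⟨Unit ⊕ I, inferInstance, inferInstance, fromBlocks 0 u v M, fromCols 1 0,
    fromRows (-1) 0, fromRows (RatCl_sc U ↑a⁻¹) (-(x * RatCl_sc U ↑a⁻¹)), ?_, ?_, ?_⟩
  · rw [RatCl_fac ι h1 h2]
    exact ((RatCl_up (isUnit_one (M := Matrix Unit Unit U)).neg _ h0).mul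
      (RatCl_up (a.isUnit.map _) 0 isUnit_one)).mul (RatCl_low x)
  · rw [fromBlocks_map, fromBlocks_mul_fromRows, fromRows_map, Matrix.mul_neg, Matrix.mul_neg,
      ← Matrix.mul_assoc, ← Matrix.mul_assoc, h1, h2, ← map_mul, a.mul_inv,
      Matrix.map_neg _ (map_neg ι)]
    simp
  · simp [fromCols_map, fromCols_mul_fromRows]

theorem isDiv_of_kd {G U R : Type} [Group G] [Ring U] [Ring R] {j : VN G →+* U} (hj : IsFrac j)
    (φ : R →+* VN G)
    (h : ∀ (I : Type) [Fintype I] (B : Matrix I I R), ∃ z : ℤ, kd (B.map φ) = z) :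
    IsDiv (divCl (Set.range (j.comp φ))) := by
  have hle : divCl (Set.range (j.comp φ)) ≤ RatCl_sub (j.comp φ) :=
    divCl_le (by rintro _ ⟨r, rfl⟩; exact RatCl_map _ r) (RatCl_inv _)
  refine isDiv_divCl fun a ha h0 => ?_
  obtain ⟨I, _, _, M, u, v, x, hM, h1, h2⟩ := hle ha
  obtain ⟨b, s, hs, hb⟩ := hj.frac a
  obtain ⟨t, ht⟩ := hj.unit s hs
  have hab : a = j b * ↑t⁻¹ := by rw [← hb, ← ht, Units.mul_inv_cancel_right]
  obtain ⟨z, hz⟩ := h _ (fromBlocks 0 u v M)
  have e : ((fromBlocks 0 u v M).map φ).map j =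
      fromBlocks (-1) (u.map (j.comp φ)) 0 (M.map (j.comp φ)) *
        (fromBlocks (Matrix.of fun _ _ : Unit => b) 0 0 (1 : Matrix I I (VN G))).map j *
        (fromBlocks (RatCl_sc U ↑t⁻¹) 0 0 1 * fromBlocks 1 0 x 1) := by
    rw [Matrix.map_map, ← RingHom.coe_comp, RatCl_fac _ h1 h2, hab, map_mul, ← Matrix.mul_assoc,
      Matrix.mul_assoc _ _ (fromBlocks (RatCl_sc U ↑t⁻¹) 0 0 1), fromBlocks_map,
      fromBlocks_multiply _ _ _ _ (RatCl_sc U ↑t⁻¹)]
    simp only [Matrix.map_zero _ j.map_zero, Matrix.map_one _ j.map_zero j.map_one,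
      Matrix.mul_zero, Matrix.zero_mul, add_zero, zero_add, Matrix.mul_one]
    rfl
  rw [hj.kd_eq (RatCl_up (isUnit_one (M := Matrix Unit Unit U)).neg _ hM)
    ((RatCl_up (t⁻¹.isUnit.map _) 0 isUnit_one).mul (RatCl_low x)) e, kd_fromBlocks, kd_one,
    add_zero] at hz
  have hz0 : (0 : ℝ) ≤ z := hz ▸ vn_nonneg _
  have hz1 : (z : ℝ) ≤ 1 := hz ▸ kd_unit_le b
  have hz2 : z = 0 ∨ z = 1 := by
    have := Int.cast_nonneg_iff.1 hz0
    have : z ≤ 1 := by exact_mod_cast hz1
    omega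
  rcases hz2 with rfl | rfl
  · rw [hab]
    exact ((hj.isUnit_iff b).2 ((kd_unit_eq_zero b).1 (by simpa using hz))).mul t⁻¹.isUnit
  · rw [(kd_unit_eq_one b).1 (by simpa using hz), j.map_zero, zero_mul] at hab
    exact (h0 hab).elim

end Pool.Agent.Work.MP_735653_gt
end

-- merged part: Pool.Agent.Work.MP_735653_gt.LauU
section
/-! Nonzero Laurent polynomials over the division closure of the kernel are units. -/

namespace Pool.Agent.Work.MP_735653_gt

variable {G U : Type} [Group G] [Ring U] {j : VN G →+* U}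

theorem LauU_ore (χ : G →* Multiplicative ℤ) {a s : VN G}
    (ha : (a : L2 G →L[ℂ] L2 G) ∈ Subring.centralizer (lev χ))
    (hs : (s : L2 G →L[ℂ] L2 G) ∈ Subring.centralizer (lev χ))
    (hi : Function.Injective (s : L2 G →L[ℂ] L2 G)) :
    ∃ b t : VN G, (b : L2 G →L[ℂ] L2 G) ∈ Subring.centralizer (lev χ) ∧
      (t : L2 G →L[ℂ] L2 G) ∈ Subring.centralizer (lev χ) ∧
      Function.Injective (t : L2 G →L[ℂ] L2 G) ∧ t * a = b * s := by
  have h1 : Set.range lam ⊆ lev χ := Set.subset_union_left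
  have h2 : ∀ a ∈ lev χ, ContinuousLinearMap.adjoint a ∈ lev χ := by
    rintro _ (⟨g, rfl⟩ | ⟨k, rfl⟩)
    · rw [adjoint_lam]; exact Or.inl ⟨_, rfl⟩
    · dsimp only
      rw [adjoint_ind]; exact Or.inr ⟨_, rfl⟩
  have hle : Subring.centralizer (lev χ) ≤ VN G := Subring.centralizer_le _ _ h1
  obtain ⟨b, hb, t, ht, hti, h⟩ := ore_left h1 h2 ha hs hi
  exact ⟨⟨b, hle hb⟩, ⟨t, hle ht⟩, hb, ht, hti, Subtype.ext h⟩

theorem LauU_inj_mul {s t : VN G} (hs : Function.Injective (s : L2 G →L[ℂ] L2 G))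
    (ht : Function.Injective (t : L2 G →L[ℂ] L2 G)) :
    Function.Injective ((s * t : VN G) : L2 G →L[ℂ] L2 G) :=
  hs.comp ht

/-- left fractions over the commutant of the level projections -/
def LauU_Fr (j : VN G →+* U) (χ : G →* Multiplicative ℤ) : Subring U where
  carrier := {u | ∃ s a : VN G, (s : L2 G →L[ℂ] L2 G) ∈ Subring.centralizer (lev χ) ∧
    (a : L2 G →L[ℂ] L2 G) ∈ Subring.centralizer (lev χ) ∧
    Function.Injective (s : L2 G →L[ℂ] L2 G) ∧ j s * u = j a}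
  one_mem' := ⟨1, 1, one_mem _, one_mem _, Function.injective_id, mul_one _⟩
  zero_mem' := ⟨1, 0, one_mem _, zero_mem _, Function.injective_id, by rw [mul_zero, map_zero]⟩
  neg_mem' := by
    rintro u ⟨s, a, hs, ha, hi, h⟩
    exact ⟨s, -a, hs, neg_mem ha, hi, by rw [mul_neg, h, map_neg]⟩
  add_mem' := by
    rintro u v ⟨s, a, hs, ha, hi, h⟩ ⟨s', a', hs', ha', hi', h'⟩
    obtain ⟨b, t, hb, ht, hti, e⟩ := LauU_ore χ hs hs' hi'
    refine ⟨t * s, t * a + b * a', mul_mem ht hs, add_mem (mul_mem ht ha) (mul_mem hb ha'),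
      LauU_inj_mul hti hi, ?_⟩
    rw [mul_add, map_add, map_mul j t a, map_mul j b a', ← h, ← h', ← mul_assoc, ← mul_assoc,
      ← map_mul j b, ← e, ← map_mul j t]
  mul_mem' := by
    rintro u v ⟨s, a, hs, ha, hi, h⟩ ⟨s', a', hs', ha', hi', h'⟩
    obtain ⟨b, t, hb, ht, hti, e⟩ := LauU_ore χ ha hs' hi'
    refine ⟨t * s, b * a', mul_mem ht hs, mul_mem hb ha', LauU_inj_mul hti hi, ?_⟩
    rw [map_mul j b a', ← h', ← mul_assoc (j b), ← map_mul j b, ← e, map_mul j t a, ← h,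
      map_mul j t s]
    simp only [mul_assoc]

theorem LauU_rho_mem (χ : G →* Multiplicative ℤ) {g : G} (hg : χ g = 1) :
    rho g ∈ Subring.centralizer (lev χ) := by
  rw [Subring.mem_centralizer_iff]
  rintro _ (⟨h, rfl⟩ | ⟨k, rfl⟩)
  · ext v x
    exact congrArg v (mul_assoc _ _ _)
  · ext v x
    change ind {x | χ x = k} (rho g v) x = ind {x | χ x = k} v (x * g)
    by_cases hx : χ x = k
    · rw [ind_of_mem _ (show x ∈ {x | χ x = k} from hx), ind_of_mem _
        (show x * g ∈ {x | χ x = k} by rw [Set.mem_setOf_eq, map_mul, hg, mul_one, hx])]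
      rfl
    · rw [ind_of_not_mem _ (show x ∉ {x | χ x = k} from hx), ind_of_not_mem _
        (show x * g ∉ {x | χ x = k} by rw [Set.mem_setOf_eq, map_mul, hg, mul_one]; exact hx)]

theorem LauU_ker_mem (χ : G →* Multiplicative ℤ) (x : ZG χ.ker) :
    ((((toVN G).comp (mapG χ.ker.subtype)) x : VN G) : L2 G →L[ℂ] L2 G) ∈
      Subring.centralizer (lev χ) := by
  induction x using MonoidAlgebra.induction_linear with
  | zero => rw [RingHom.map_zero]; exact zero_mem _
  | add a b ha hb => rw [RingHom.map_add]; exact add_mem ha hb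
  | single g c =>
    have h1 : (MonoidAlgebra.single g c : ZG χ.ker) = c • MonoidAlgebra.single g 1 := by
      rw [MonoidAlgebra.smul_single, smul_eq_mul, mul_one]
    have h2 : mapG χ.ker.subtype (MonoidAlgebra.single g 1) = MonoidAlgebra.single (g : G) 1 := by
      simp
    rw [h1, map_zsmul, RingHom.comp_apply, h2]
    refine zsmul_mem (?_ : ((toVN G (MonoidAlgebra.single (g : G) 1) : VN G) :
      L2 G →L[ℂ] L2 G) ∈ Subring.centralizer (lev χ)) c
    rw [coe_toVN_single]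
    exact LauU_rho_mem χ g.2

theorem LauU_le (hj : IsFrac j) (χ : G →* Multiplicative ℤ) :
    divCl (Set.range (j.comp ((toVN G).comp (mapG χ.ker.subtype)))) ≤ LauU_Fr j χ := by
  refine divCl_le ?_ ?_
  · rintro _ ⟨x, rfl⟩
    exact ⟨1, _, one_mem _, LauU_ker_mem χ x, Function.injective_id, by
      rw [j.map_one, one_mul]; rfl⟩
  · rintro u ⟨s, a, hs, ha, hi, h⟩
    have hu : IsUnit (j a) := h ▸ ((hj.isUnit_iff s).2 hi).mul u.isUnit
    refine ⟨a, s, ha, hs, (hj.isUnit_iff a).1 hu, ?_⟩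
    rw [← h, mul_assoc, Units.mul_inv, mul_one]

theorem LauU_den (χ : G →* Multiplicative ℤ) {ι : Type} (u : ι → U) (F : Finset ι)
    (hu : ∀ i, u i ∈ LauU_Fr j χ) :
    ∃ (s : VN G), (s : L2 G →L[ℂ] L2 G) ∈ Subring.centralizer (lev χ) ∧
      Function.Injective (s : L2 G →L[ℂ] L2 G) ∧
      ∀ i ∈ F, ∃ a : VN G, (a : L2 G →L[ℂ] L2 G) ∈ Subring.centralizer (lev χ) ∧
        j s * u i = j a := by
  classical
  induction F using Finset.induction_on with
  | empty => exact ⟨1, one_mem _, Function.injective_id, fun i hi => absurd hi (by simp)⟩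
  | insert i F _ ih =>
    obtain ⟨s, hs, hi, h⟩ := ih
    obtain ⟨s', a', hs', ha', hi', h'⟩ := hu i
    obtain ⟨b, t, hb, ht, hti, e⟩ := LauU_ore χ hs hs' hi'
    refine ⟨t * s, mul_mem ht hs, LauU_inj_mul hti hi, fun k hk => ?_⟩
    rcases Finset.mem_insert.1 hk with rfl | hk
    · exact ⟨b * a', mul_mem hb ha', by rw [e, j.map_mul, j.map_mul, mul_assoc, h']⟩
    · obtain ⟨a, ha, h1⟩ := h k hk
      exact ⟨t * a, mul_mem ht ha, by rw [j.map_mul, j.map_mul, mul_assoc, h1]⟩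

theorem lev_den (hj : IsFrac j) (χ : G →* Multiplicative ℤ) {ι : Type} [Finite ι] (u : ι → U)
    (hu : ∀ i, u i ∈ divCl (Set.range (j.comp ((toVN G).comp (mapG χ.ker.subtype))))) :
    ∃ (s : VN G) (a : ι → VN G), Function.Injective (s : L2 G →L[ℂ] L2 G) ∧
      ∀ i, (a i : L2 G →L[ℂ] L2 G) ∈ Subring.centralizer (lev χ) ∧ j s * u i = j (a i) := by
  haveI := Fintype.ofFinite ι
  obtain ⟨s, -, hi, h⟩ := LauU_den χ u Finset.univ fun i => LauU_le hj χ (hu i)
  choose a ha using fun i => h i (Finset.mem_univ i)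
  exact ⟨s, a, hi, ha⟩

theorem laurent_unit (hj : IsFrac j) (χ : G →* Multiplicative ℤ) (t : G)
    (ht : χ t = Multiplicative.ofAdd 1)
    (hD : IsDiv (divCl (Set.range (j.comp ((toVN G).comp (mapG χ.ker.subtype))))))
    (τ : Uˣ) (hτ : (τ : U) = j (toVN G (MonoidAlgebra.single t 1))) (T : Finset ℤ) (a : ℤ → U)
    (ha : ∀ k ∈ T, a k ∈ divCl (Set.range (j.comp ((toVN G).comp (mapG χ.ker.subtype)))))
    (h0 : ∃ k ∈ T, a k ≠ 0) : IsUnit (∑ k ∈ T, a k * (↑(τ ^ k) : U)) := by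
  classical
  set T' := T.filter fun k => a k ≠ 0 with hT'
  have hne : T'.Nonempty := by
    obtain ⟨k, hk, hk0⟩ := h0
    exact ⟨k, Finset.mem_filter.2 ⟨hk, hk0⟩⟩
  set k0 := T'.min' hne with hk0
  set k1 := T'.max' hne with hk1
  have h01 : k0 ≤ k1 := Finset.min'_le_max' _ _
  obtain ⟨m, hm⟩ : ∃ m : ℕ, k1 = k0 + m := ⟨(k1 - k0).toNat, by omega⟩
  set a' : ℕ → U := fun n => if k0 + n ∈ T then a (k0 + n) else 0 with ha'
  have ha'D : ∀ n, a' n ∈ divCl (Set.range (j.comp ((toVN G).comp (mapG χ.ker.subtype)))) := by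
    intro n
    simp only [ha']
    split_ifs with h
    · exact ha _ h
    · exact zero_mem _
  have hk1T : k1 ∈ T' := Finset.max'_mem _ _
  have ham : a' m ≠ 0 := by
    have := Finset.mem_filter.1 hk1T
    simp only [ha', ← hm, this.1, if_true]
    exact this.2
  have hsum : ∑ k ∈ T, a k * (↑(τ ^ k) : U) =
      (∑ n ∈ Finset.range (m + 1), a' n * (τ : U) ^ n) * (↑(τ ^ k0) : U) := by
    rw [Finset.sum_mul]
    symm
    refine Finset.sum_bij_ne_zero (fun n _ _ => k0 + n) ?_ ?_ ?_ ?_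
    · intro n _ hn
      by_contra h
      apply hn
      simp only [ha', h, if_false, zero_mul]
    · intro n _ _ n' _ _ h
      omega
    · intro k hk hk0'
      have hak : a k ≠ 0 := fun h => hk0' (by rw [h, zero_mul])
      have hkT : k ∈ T' := Finset.mem_filter.2 ⟨hk, hak⟩
      have h1 : k0 ≤ k := Finset.min'_le _ _ hkT
      have h2 : k ≤ k1 := Finset.le_max' _ _ hkT
      obtain ⟨n, rfl⟩ : ∃ n : ℕ, k = k0 + n := ⟨(k - k0).toNat, by omega⟩
      refine ⟨n, Finset.mem_range.2 (by omega), ?_, rfl⟩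
      simp only [ha', hk, if_true]
      rw [mul_assoc, ← Units.val_pow_eq_pow_val, ← Units.val_mul, ← zpow_natCast, ← zpow_add,
        add_comm (n : ℤ)]
      exact hk0'
    · intro n _ hn
      have h : k0 + n ∈ T := by
        by_contra h
        apply hn
        simp only [ha', h, if_false, zero_mul]
      simp only [ha', h, if_true]
      rw [mul_assoc, ← Units.val_pow_eq_pow_val, ← Units.val_mul, ← zpow_natCast, ← zpow_add,
        add_comm (n : ℤ)]
  rw [hsum]
  refine IsUnit.mul ?_ (τ ^ k0).isUnit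
  obtain ⟨s, hs, hi, h⟩ := LauU_den χ a' (Finset.range (m + 1)) fun n => LauU_le hj χ (ha'D n)
  choose! b hb using h
  have hsu := (hj.isUnit_iff s).2 hi
  have hbm : Function.Injective (b m : L2 G →L[ℂ] L2 G) := by
    rw [← hj.isUnit_iff, ← (hb m (Finset.self_mem_range_succ m)).2]
    obtain ⟨y, -, h1, h2⟩ := hD _ (ha'D m) ham
    exact hsu.mul ⟨⟨a' m, y, h1, h2⟩, rfl⟩
  have hw := window χ t ht m
    (fun n => if n ∈ Finset.range (m + 1) then (b n : L2 G →L[ℂ] L2 G) else 0)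
    (fun n => by
      split_ifs with h
      · exact (hb n h).1
      · exact zero_mem _)
    (by simpa only [Finset.self_mem_range_succ, if_true] using hbm)
  have he : j s * ∑ n ∈ Finset.range (m + 1), a' n * (τ : U) ^ n =
      j (∑ n ∈ Finset.range (m + 1), b n * toVN G (MonoidAlgebra.single (t ^ n) 1)) := by
    rw [Finset.mul_sum, map_sum]
    refine Finset.sum_congr rfl fun n hn => ?_
    rw [← mul_assoc, (hb n hn).2, j.map_mul, hτ, ← j.map_pow, ← (toVN G).map_pow,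
      MonoidAlgebra.single_pow, one_pow]
  have hu : IsUnit (j (∑ n ∈ Finset.range (m + 1),
      b n * toVN G (MonoidAlgebra.single (t ^ n) 1))) := by
    rw [hj.isUnit_iff]
    have hc : ((∑ n ∈ Finset.range (m + 1), b n * toVN G (MonoidAlgebra.single (t ^ n) 1) :
        VN G) : L2 G →L[ℂ] L2 G) = ∑ n ∈ Finset.range (m + 1),
          (if n ∈ Finset.range (m + 1) then (b n : L2 G →L[ℂ] L2 G) else 0) * rho (t ^ n) := by
      rw [AddSubmonoidClass.coe_finsetSum]
      refine Finset.sum_congr rfl fun n hn => ?_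
      rw [if_pos hn, MulMemClass.coe_mul, coe_toVN_single]
    rw [hc]
    exact hw
  rw [← he] at hu
  exact (Units.isUnit_units_mul hsu.unit _).1 hu

theorem conj_divCl {S : Set U} (τ : Uˣ) (h : ∀ x ∈ S, (τ : U) * x * (↑τ⁻¹ : U) ∈ S) :
    ∀ x ∈ divCl S, (τ : U) * x * (↑τ⁻¹ : U) ∈ divCl S := by
  let φ : U →+* U :=
    { toFun := fun x => (τ : U) * x * (↑τ⁻¹ : U)
      map_one' := by rw [mul_one, Units.mul_inv]
      map_mul' := fun x y => by simp only [mul_assoc, Units.inv_mul_cancel_left]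
      map_zero' := by rw [mul_zero, zero_mul]
      map_add' := fun x y => by rw [mul_add, add_mul] }
  have hle : divCl S ≤ (divCl S).comap φ := by
    refine divCl_le (fun x hx => subset_divCl S (h x hx)) fun u hu => ?_
    have := inv_mem_divCl (Units.map (φ : U →* U) u) hu
    exact this
  exact fun x hx => hle hx

end Pool.Agent.Work.MP_735653_gt
end
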