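import Pool.Agent.Work.MP_735653_gt.ADefs

attribute [-instance] Subring.toCommRing

-- merged part: Pool.Agent.Work.MP_735653_gt.L2B
section
/-! Basic facts on operators on Hilbert modules. -/

namespace Pool.Agent.Work.MP_735653_gt

open scoped InnerProductSpace
open ContinuousLinearMap

set_option linter.unusedSectionVars false

variable {I J K X Y : Type} [Fintype I] [Fintype J] [Fintype K] {G : Type} [Group G]

theorem res_apply (f : Y → X) (hf : Function.Injective f) (v : L2 X) (y : Y) :
    res f hf v y = v (f y) := rfl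

theorem lam_apply (g : G) (v : L2 G) (x : G) : lam g v x = v (g⁻¹ * x) := rfl

theorem rho_apply (g : G) (v : L2 G) (x : G) : rho g v x = v (x * g) := rfl

theorem prm_apply (e : Equiv.Perm X) (v : L2 X) (x : X) : prm e v x = v (e.symm x) := rfl

theorem dg_apply (T : L2 X →L[ℂ] L2 Y) (v : HS I X) (i : I) : dg I T v i = T (v i) := rfl

theorem vnDim_eq (W : Submodule ℂ (HS I G)) : vnDim W = ∑ i, dwt W i 1 := rfl

theorem op_apply (M : Matrix J I (L2 X →L[ℂ] L2 Y)) (v : HS I X) (j : J) :
    op M v j = ∑ i, M j i (v i) := by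
  simp [op]

theorem opN_apply (M : Matrix J I (VN G)) (v : HS I G) (j : J) :
    opN M v j = ∑ i, (M j i : L2 G →L[ℂ] L2 G) (v i) := by
  rw [opN, op_apply]
  rfl

theorem L2B_ent_apply [d : DecidableEq I] (T : HS I X →L[ℂ] HS J Y) (j : J) (i : I) (v : L2 X) :
    ent T j i v = T (PiLp.single 2 i v) j := by
  obtain rfl : d = fun a b => Classical.propDecidable (a = b) := Subsingleton.elim _ _
  rfl

theorem L2B_sum_apply {ι : Type} (s : Finset ι) (f : ι → HS J Y) (j : J) :
    (∑ i ∈ s, f i) j = ∑ i ∈ s, f i j :=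
  map_sum (PiLp.proj (𝕜 := ℂ) 2 (fun _ : J => L2 Y) j) f s

theorem L2B_sum_single [DecidableEq I] (v : HS I X) : v = ∑ i, PiLp.single 2 i (v i) := by
  ext1 j
  rw [L2B_sum_apply, Finset.sum_eq_single j]
  · rw [PiLp.single_eq_same]
  · intro k _ hk
    rw [PiLp.single_eq_of_ne _ (Ne.symm hk)]
  · intro h
    exact absurd (Finset.mem_univ _) h

theorem op_ent (T : HS I X →L[ℂ] HS J Y) : op (ent T) = T := by
  classical
  ext1 v
  ext1 j
  rw [op_apply]
  conv_rhs => rw [L2B_sum_single v, map_sum, L2B_sum_apply]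
  exact Finset.sum_congr rfl fun i _ => L2B_ent_apply T j i (v i)

theorem ent_op (M : Matrix J I (L2 X →L[ℂ] L2 Y)) : ent (op M) = M := by
  classical
  ext1 j i
  ext1 v
  rw [L2B_ent_apply, op_apply, Finset.sum_eq_single i]
  · simp
  · intro k _ hk
    rw [PiLp.single_eq_of_ne _ hk, map_zero]
  · intro h
    exact absurd (Finset.mem_univ _) h

theorem ent_apply [DecidableEq I] (T : HS I X →L[ℂ] HS J Y) (j : J) (i : I) (v : L2 X) :
    ent T j i v = T (PiLp.single 2 i v) j := by
  exact L2B_ent_apply T j i v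

theorem opN_mul (M : Matrix K J (VN G)) (N : Matrix J I (VN G)) :
    opN (M * N) = opN M ∘L opN N := by
  ext1 v
  ext1 k
  rw [ContinuousLinearMap.comp_apply, opN_apply, opN_apply]
  simp only [opN_apply, map_sum, Matrix.mul_apply, AddSubmonoidClass.coe_finsetSum,
    _root_.sum_apply, Subring.coe_mul, mul_apply_eq_comp]
  exact Finset.sum_comm

theorem opN_add (M N : Matrix J I (VN G)) : opN (M + N) = opN M + opN N := by
  ext1 v
  ext1 k
  simp only [_root_.add_apply, PiLp.add_apply, opN_apply, Matrix.add_apply,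
    Subring.coe_add, Finset.sum_add_distrib]

theorem opN_sub (M N : Matrix J I (VN G)) : opN (M - N) = opN M - opN N := by
  ext1 v
  ext1 k
  simp only [_root_.sub_apply, PiLp.sub_apply, opN_apply, Matrix.sub_apply,
    AddSubgroupClass.coe_sub, Finset.sum_sub_distrib]

theorem opN_zero : opN (0 : Matrix J I (VN G)) = 0 := by
  ext1 v
  ext1 k
  simp only [opN_apply, Matrix.zero_apply, Subring.coe_zero, _root_.zero_apply,
    Finset.sum_const_zero, PiLp.zero_apply]

theorem opN_one [DecidableEq I] : opN (1 : Matrix I I (VN G)) = ContinuousLinearMap.id ℂ _ := by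
  ext1 v
  ext1 k
  rw [opN_apply, Finset.sum_eq_single k]
  · simp
  · intro i _ hi
    rw [Matrix.one_apply_ne (Ne.symm hi)]
    simp
  · intro h
    exact absurd (Finset.mem_univ _) h

theorem opN_diagonal [DecidableEq I] (s : VN G) :
    opN (Matrix.diagonal fun _ : I => s) = dg I (s : L2 G →L[ℂ] L2 G) := by
  ext1 v
  ext1 k
  rw [opN_apply, dg_apply, Finset.sum_eq_single k]
  · simp
  · intro i _ hi
    rw [Matrix.diagonal_apply_ne _ (Ne.symm hi)]
    simp
  · intro h
    exact absurd (Finset.mem_univ _) h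

theorem opN_injective : Function.Injective (opN : Matrix J I (VN G) → _) := by
  intro M N h
  have h' := congrArg ent h
  rw [opN, opN, ent_op, ent_op] at h'
  ext1 j i
  exact Subtype.ext (congrFun (congrFun h' j) i)

theorem L2B_dl [d : DecidableEq I] [d' : DecidableEq X] (i : I) (x : X) :
    (dl i x : HS I X) = PiLp.single 2 i (lp.single 2 x (1 : ℂ)) := by
  obtain rfl : d = fun a b => Classical.propDecidable (a = b) := Subsingleton.elim _ _
  obtain rfl : d' = fun a b => Classical.propDecidable (a = b) := Subsingleton.elim _ _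
  rfl

theorem L2B_inner_single [DecidableEq I] (i : I) (u : L2 X) (v : HS I X) :
    ⟪(PiLp.single 2 i u : HS I X), v⟫_ℂ = ⟪u, v i⟫_ℂ := by
  rw [PiLp.inner_apply, Finset.sum_eq_single i]
  · rw [PiLp.single_eq_same]
  · intro k _ hk
    rw [PiLp.single_eq_of_ne _ hk, inner_zero_left]
  · intro h
    exact absurd (Finset.mem_univ _) h

theorem inner_dl (i : I) (x : X) (v : HS I X) : ⟪dl i x, v⟫_ℂ = v i x := by
  classical
  rw [L2B_dl, L2B_inner_single, lp.inner_single_left]
  simp

theorem norm_dl (i : I) (x : X) : ‖(dl i x : HS I X)‖ = 1 := by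
  classical
  rw [L2B_dl, PiLp.norm_single, lp.norm_single (by norm_num), norm_one]

theorem dl_apply_self (i : I) (x : X) : (dl i x : HS I X) i x = 1 := by
  classical
  rw [L2B_dl, PiLp.single_eq_same, lp.single_apply_self]

theorem dl_apply_ne {i j : I} {x y : X} (h : (j, y) ≠ (i, x)) : (dl i x : HS I X) j y = 0 := by
  classical
  rw [L2B_dl]
  by_cases hj : j = i
  · subst hj
    have hy : y ≠ x := fun hy => h (by rw [hy])
    rw [PiLp.single_eq_same, lp.single_apply_ne _ _ _ hy]
  · rw [PiLp.single_eq_of_ne _ hj]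
    rfl

theorem hasSum_norm_sq (v : HS I X) : HasSum (fun x => ∑ i, ‖v i x‖ ^ 2) (‖v‖ ^ 2) := by
  rw [PiLp.norm_sq_eq_of_L2]
  refine hasSum_sum fun i _ => ?_
  have h := lp.hasSum_norm (p := 2) (by norm_num) (v i)
  simpa using h

theorem L2B_adjoint_res [DecidableEq X] (f : Y → X) (hf : Function.Injective f) (v : L2 Y)
    (x : X) : adjoint (res f hf) v x = ⟪res f hf (lp.single 2 x (1 : ℂ)), v⟫_ℂ := by
  rw [← adjoint_inner_right, lp.inner_single_left]
  simp

theorem L2B_res_single [DecidableEq X] [DecidableEq Y] (f : Y → X) (hf : Function.Injective f)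
    (y : Y) : res f hf (lp.single 2 (f y) (1 : ℂ)) = lp.single 2 y (1 : ℂ) := by
  ext z
  rw [res_apply]
  by_cases h : z = y
  · subst h
    rw [lp.single_apply_self, lp.single_apply_self]
  · rw [lp.single_apply_ne _ _ _ h, lp.single_apply_ne _ _ _ (fun h' => h (hf h'))]

theorem L2B_res_single_not [DecidableEq X] (f : Y → X) (hf : Function.Injective f) {x : X}
    (hx : x ∉ Set.range f) : res f hf (lp.single 2 x (1 : ℂ)) = 0 := by
  ext z
  rw [res_apply, lp.single_apply_ne _ _ _ (fun h' => hx ⟨z, h'⟩)]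
  rfl

theorem res_adjoint_res (f : Y → X) (hf : Function.Injective f) (v : L2 Y) :
    res f hf (adjoint (res f hf) v) = v := by
  classical
  ext y
  rw [res_apply, L2B_adjoint_res, L2B_res_single, lp.inner_single_left]
  simp

theorem adjoint_res_of_not_mem (f : Y → X) (hf : Function.Injective f) (v : L2 Y) {x : X}
    (hx : x ∉ Set.range f) : adjoint (res f hf) v x = 0 := by
  classical
  rw [L2B_adjoint_res, L2B_res_single_not f hf hx, inner_zero_left]

theorem norm_adjoint_res (f : Y → X) (hf : Function.Injective f) (v : L2 Y) :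
    ‖adjoint (res f hf) v‖ = ‖v‖ := by
  have h : ⟪adjoint (res f hf) v, adjoint (res f hf) v⟫_ℂ = ⟪v, v⟫_ℂ := by
    rw [adjoint_inner_left, res_adjoint_res]
  rw [@norm_eq_sqrt_re_inner ℂ, h, ← @norm_eq_sqrt_re_inner ℂ]

theorem L2B_adjoint_res_mem (f : Y → X) (hf : Function.Injective f) (v : L2 Y) (y : Y) :
    adjoint (res f hf) v (f y) = v y := by
  rw [← res_apply f hf, res_adjoint_res]

theorem ind_of_mem {Z : Set X} (v : L2 X) {x : X} (hx : x ∈ Z) : ind Z v x = v x := by
  rw [ind, ContinuousLinearMap.comp_apply]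
  exact L2B_adjoint_res_mem (fun z : Z => (z : X)) Subtype.val_injective _ ⟨x, hx⟩

theorem ind_of_not_mem {Z : Set X} (v : L2 X) {x : X} (hx : x ∉ Z) : ind Z v x = 0 := by
  rw [ind, ContinuousLinearMap.comp_apply]
  refine adjoint_res_of_not_mem (fun z : Z => (z : X)) Subtype.val_injective _ ?_
  rintro ⟨z, rfl⟩
  exact hx z.2

theorem adjoint_ind (Z : Set X) : adjoint (ind Z) = ind Z := by
  rw [ind, adjoint_comp, adjoint_adjoint]

theorem L2B_adjoint_res_equiv (f : Y → X) (hf : Function.Injective f) (g : X → Y)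
    (hg : Function.Injective g) (h₁ : ∀ x, f (g x) = x) (_h₂ : ∀ y, g (f y) = y) :
    adjoint (res f hf) = res g hg := by
  ext v x
  have h := congrArg (fun w : L2 Y => w (g x)) (res_adjoint_res f hf v)
  simp only [res_apply, h₁] at h
  rw [h, res_apply]

theorem adjoint_prm (e : Equiv.Perm X) : adjoint (prm e) = prm e⁻¹ := by
  exact L2B_adjoint_res_equiv _ _ _ _ (fun x => e.symm_apply_apply x)
    (fun x => e.apply_symm_apply x)

theorem adjoint_lam (g : G) : adjoint (lam g) = lam g⁻¹ := by
  exact L2B_adjoint_res_equiv _ _ _ _ (fun x => by simp) (fun x => by simp)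

theorem adjoint_rho (g : G) : adjoint (rho g) = rho g⁻¹ := by
  exact L2B_adjoint_res_equiv _ _ _ _ (fun x => by simp) (fun x => by simp)

theorem adjoint_op (M : Matrix J I (L2 X →L[ℂ] L2 Y)) :
    adjoint (op M) = op fun i j => adjoint (M j i) := by
  symm
  rw [eq_adjoint_iff]
  intro w v
  simp only [PiLp.inner_apply, op_apply, sum_inner, inner_sum, adjoint_inner_left]
  exact Finset.sum_comm

theorem adjoint_dg (T : L2 X →L[ℂ] L2 Y) : adjoint (dg I T) = dg I (adjoint T) := by
  symm
  rw [eq_adjoint_iff]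
  intro w v
  simp only [PiLp.inner_apply, dg_apply, adjoint_inner_left]

theorem dg_lam_dl (g : G) (i : I) (x : G) : dg I (lam g) (dl i x) = dl i (g * x) := by
  ext j y
  rw [dg_apply, lam_apply]
  by_cases h : (j, y) = (i, g * x)
  · obtain ⟨rfl, rfl⟩ := Prod.mk.inj h
    rw [inv_mul_cancel_left, dl_apply_self, dl_apply_self]
  · rw [dl_apply_ne h, dl_apply_ne]
    intro h'
    obtain ⟨h1, h2⟩ := Prod.mk.inj h'
    exact h (by rw [h1, ← h2, mul_inv_cancel_left])

theorem L2B_dg_lam_inv (g : G) (v : HS I G) : dg I (lam g⁻¹) (dg I (lam g) v) = v := by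
  ext i x
  rw [dg_apply, lam_apply, dg_apply, lam_apply, inv_inv, inv_mul_cancel_left]

theorem norm_dg_lam (g : G) (v : HS I G) : ‖dg I (lam g) v‖ = ‖v‖ := by
  have h : ⟪dg I (lam g) v, dg I (lam g) v⟫_ℂ = ⟪v, v⟫_ℂ := by
    rw [← adjoint_inner_right, adjoint_dg, adjoint_lam, L2B_dg_lam_inv]
  rw [@norm_eq_sqrt_re_inner ℂ, h, ← @norm_eq_sqrt_re_inner ℂ]

theorem mem_VN {a : L2 G →L[ℂ] L2 G} : a ∈ VN G ↔ ∀ g v, a (lam g v) = lam g (a v) := by
  rw [Subring.mem_centralizer_iff]
  constructor
  · intro h g v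
    exact (congrArg (fun T : L2 G →L[ℂ] L2 G => T v) (h _ ⟨g, rfl⟩)).symm
  · rintro h _ ⟨g, rfl⟩
    ext1 v
    exact (h g v).symm

theorem adjoint_mem_VN {a : L2 G →L[ℂ] L2 G} (ha : a ∈ VN G) : adjoint a ∈ VN G := by
  rw [mem_VN] at ha ⊢
  intro g v
  refine ext_inner_left ℂ fun w => ?_
  rw [adjoint_inner_right, ← adjoint_inner_left (lam g), ← adjoint_inner_left (lam g), adjoint_lam,
    adjoint_inner_right, ha]

theorem eqv_opN (M : Matrix J I (VN G)) : Eqv (opN M) := by
  intro g v
  ext1 j
  rw [dg_apply, opN_apply, opN_apply, map_sum]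
  exact Finset.sum_congr rfl fun i _ => mem_VN.1 (M j i).2 g (v i)

theorem Eqv.exists_opN {T : HS I G →L[ℂ] HS J G} (hT : Eqv T) : ∃ M, opN M = T := by
  classical
  have h : ∀ j i, ent T j i ∈ VN G := fun j i => mem_VN.2 fun g v => by
    have e : (PiLp.single 2 i (lam g v) : HS I G) = dg I (lam g) (PiLp.single 2 i v) := by
      ext1 k
      rw [dg_apply]
      by_cases hk : k = i
      · subst hk
        rw [PiLp.single_eq_same, PiLp.single_eq_same]
      · rw [PiLp.single_eq_of_ne _ hk, PiLp.single_eq_of_ne _ hk, map_zero]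
    rw [ent_apply, ent_apply, ← dg_apply (lam g) (T (PiLp.single 2 i v)) j, ← hT, e]
  exact ⟨fun j i => ⟨ent T j i, h j i⟩, op_ent T⟩

theorem Eqv.comp {S : HS J G →L[ℂ] HS K G} {T : HS I G →L[ℂ] HS J G} (hS : Eqv S) (hT : Eqv T) :
    Eqv (S ∘L T) := by
  intro g v
  rw [ContinuousLinearMap.comp_apply, ContinuousLinearMap.comp_apply, hT, hS]

theorem Eqv.adj {T : HS I G →L[ℂ] HS J G} (hT : Eqv T) : Eqv (adjoint T) := by
  intro g v
  refine ext_inner_left ℂ fun w => ?_
  rw [adjoint_inner_right, ← adjoint_inner_left (dg J (lam g)), ← adjoint_inner_left (dg I (lam g)),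
    adjoint_dg, adjoint_dg, adjoint_lam, adjoint_inner_right, hT]

theorem Eqv.inv_ker {T : HS I G →L[ℂ] HS J G} (hT : Eqv T) : Inv T.ker := by
  intro g v hv
  have hv' : T v = 0 := hv
  change T (dg I (lam g) v) = 0
  rw [hT, hv', map_zero]

theorem Eqv.inv_range {T : HS I G →L[ℂ] HS J G} (hT : Eqv T) : Inv T.range := by
  rintro g _ ⟨v, rfl⟩
  exact ⟨dg I (lam g) v, hT g v⟩

theorem Inv.closure {W : Submodule ℂ (HS I G)} (h : Inv W) : Inv W.topologicalClosure := by
  intro g v hv
  exact map_mem_closure (dg I (lam g)).continuous hv (h g)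

theorem Inv.orth {W : Submodule ℂ (HS I G)} (h : Inv W) : Inv Wᗮ := by
  intro g v hv
  rw [Submodule.mem_orthogonal] at hv ⊢
  intro u hu
  rw [← adjoint_inner_left, adjoint_dg, adjoint_lam]
  exact hv _ (h _ _ hu)

theorem Inv.eqv_proj {W : Submodule ℂ (HS I G)} (h : Inv W) :
    Eqv W.topologicalClosure.starProjection := by
  intro g v
  refine Submodule.eq_starProjection_of_mem_orthogonal
    (h.closure g _ (Submodule.starProjection_apply_mem _ _)) ?_
  rw [← map_sub]
  exact h.closure.orth g _ (Submodule.sub_starProjection_mem_orthogonal v)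

theorem Inv.dwt_eq {W : Submodule ℂ (HS I G)} (h : Inv W) (i : I) (x : G) :
    dwt W i x = dwt W i 1 := by
  have h1 : (dl i x : HS I G) = dg I (lam x) (dl i 1) := by rw [dg_lam_dl, mul_one]
  rw [dwt, dwt, h1, h.eqv_proj, norm_dg_lam]

theorem L2B_toVN_single (g : G) (c : ℤ) :
    (toVN G (MonoidAlgebra.single g c) : L2 G →L[ℂ] L2 G) = (c : ℂ) • rho g := by
  have h : toVN G (MonoidAlgebra.single g c) = c • _ := MonoidAlgebra.lift_single _ _ _
  rw [h, AddSubgroupClass.coe_zsmul, Int.cast_smul_eq_zsmul]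
  rfl

theorem coe_toVN (a : ZG G) :
    (toVN G a : L2 G →L[ℂ] L2 G) = a.coeff.sum fun g c => (c : ℂ) • rho g := by
  induction a using MonoidAlgebra.induction_linear with
  | zero => simp
  | add a b ha hb =>
    rw [RingHom.map_add, Subring.coe_add, ha, hb, MonoidAlgebra.coeff_add, Finsupp.sum_add_index']
    · intro g
      simp
    · intro g c d
      rw [Int.cast_add, add_smul]
  | single g c =>
    rw [L2B_toVN_single, MonoidAlgebra.coeff_single, Finsupp.sum_single_index]
    simp

theorem coe_toVN_single (g : G) :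
    (toVN G (MonoidAlgebra.single g 1) : L2 G →L[ℂ] L2 G) = rho g := by
  rw [L2B_toVN_single, Int.cast_one, one_smul]

theorem L2B_toVN_eval [DecidableEq G] (a : ZG G) (g : G) :
    (toVN G a : L2 G →L[ℂ] L2 G) (lp.single 2 1 (1 : ℂ)) g⁻¹ = (a.coeff g : ℂ) := by
  induction a using MonoidAlgebra.induction_linear with
  | zero => simp
  | add a b ha hb =>
    rw [RingHom.map_add, Subring.coe_add, _root_.add_apply, lp.coeFn_add, Pi.add_apply, ha, hb]
    simp
  | single h c =>
    rw [L2B_toVN_single, _root_.smul_apply, lp.coeFn_smul, Pi.smul_apply, rho_apply,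
      MonoidAlgebra.coeff_single]
    by_cases hh : h = g
    · subst hh
      rw [inv_mul_cancel, lp.single_apply_self]
      simp
    · rw [lp.single_apply_ne _ _ _ (fun h' => hh (inv_mul_eq_one.1 h').symm),
        Finsupp.single_eq_of_ne (Ne.symm hh)]
      simp

theorem toVN_injective : Function.Injective (toVN G) := by
  classical
  intro a b h
  ext g
  have h1 := L2B_toVN_eval a g
  rw [h, L2B_toVN_eval] at h1
  exact Int.cast_injective (α := ℂ) h1.symm

theorem adjoint_toVN (a : ZG G) :
    adjoint (toVN G a : L2 G →L[ℂ] L2 G) = (toVN G (bar a) : L2 G →L[ℂ] L2 G) := by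
  induction a using MonoidAlgebra.induction_linear with
  | zero => simp [bar_zero]
  | add a b ha hb =>
    rw [bar_add, RingHom.map_add, RingHom.map_add, Subring.coe_add, Subring.coe_add, map_add, ha, hb]
  | single g c =>
    rw [bar_single, L2B_toVN_single, L2B_toVN_single, map_smulₛₗ, adjoint_rho]
    simp

theorem L2B_toVN_bar (a : ZG G) :
    (toVN G (bar a) : L2 G →L[ℂ] L2 G) = a.coeff.sum fun g c => (c : ℂ) • rho g⁻¹ := by
  induction a using MonoidAlgebra.induction_linear with
  | zero => simp [bar_zero]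
  | add a b ha hb =>
    rw [bar_add, RingHom.map_add, Subring.coe_add, ha, hb, MonoidAlgebra.coeff_add,
      Finsupp.sum_add_index']
    · intro g
      simp
    · intro g c d
      rw [Int.cast_add, add_smul]
  | single g c =>
    rw [bar_single, L2B_toVN_single, MonoidAlgebra.coeff_single, Finsupp.sum_single_index]
    simp

theorem rmul_eq (A : Matrix I J (ZG G)) : rmul A = opN ((ct A).map (toVN G)) := by
  rw [rmul, opN]
  congr 1
  ext1 j i
  exact (L2B_toVN_bar (A i j)).symm

theorem adjoint_opN_toVN (A : Matrix I J (ZG G)) : adjoint (opN (A.map (toVN G))) = rmul A := by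
  rw [rmul_eq, opN, opN, adjoint_op]
  congr 1
  ext1 j i
  exact adjoint_toVN (A i j)

theorem L2B_toVN_mapG {F : Type} [Group F] (φ : F →* G) (a : ZG F) :
    (toVN G (mapG φ a) : L2 G →L[ℂ] L2 G) =
      a.coeff.sum fun g c => (c : ℂ) • prm (rAct φ g) := by
  induction a using MonoidAlgebra.induction_linear with
  | zero => simp
  | add a b ha hb =>
    rw [RingHom.map_add, RingHom.map_add, Subring.coe_add, ha, hb, MonoidAlgebra.coeff_add,
      Finsupp.sum_add_index']
    · intro g
      simp
    · intro g c d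
      rw [Int.cast_add, add_smul]
  | single g c =>
    have h : mapG φ (MonoidAlgebra.single g c) = MonoidAlgebra.single (φ g) c := by simp
    have h' : prm (rAct φ g) = rho (φ g) := by
      ext v x
      rw [prm_apply, rho_apply]
      simp [rAct]
    rw [h, L2B_toVN_single, MonoidAlgebra.coeff_single, Finsupp.sum_single_index, h']
    simp

theorem opA_rAct {F : Type} [Group F] (φ : F →* G) (B : Matrix J I (ZG F)) :
    opA (rAct φ) B = opN (B.map ((toVN G).comp (mapG φ))) := by
  rw [opA, opN]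
  congr 1
  ext1 j i
  exact (L2B_toVN_mapG φ (B j i)).symm

end Pool.Agent.Work.MP_735653_gt
end

-- merged part: Pool.Agent.Work.MP_735653_gt.Orbit
section
/-! Diagonal entries of kernel projections along free orbits; finite codimension. -/

namespace Pool.Agent.Work.MP_735653_gt

open scoped InnerProductSpace
open ContinuousLinearMap

variable {I J X Y : Type} [Fintype I] [Fintype J] {F : Type} [Group F]

theorem Orbit_proj_comm {E E' : Type} [NormedAddCommGroup E] [InnerProductSpace ℂ E]
    [CompleteSpace E] [NormedAddCommGroup E'] [InnerProductSpace ℂ E'] [CompleteSpace E']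
    (R : E →L[ℂ] E') (K : Submodule ℂ E) (K' : Submodule ℂ E') [K.HasOrthogonalProjection]
    [K'.HasOrthogonalProjection] (h1 : ∀ v ∈ K, R v ∈ K') (h2 : ∀ v ∈ K', adjoint R v ∈ K)
    (w : E') : K.starProjection (adjoint R w) = adjoint R (K'.starProjection w) := by
  refine Submodule.eq_starProjection_of_mem_of_inner_eq_zero
    (h2 _ (K'.starProjection_apply_mem w)) fun z hz => ?_
  rw [← map_sub, adjoint_inner_left]
  exact Submodule.starProjection_inner_eq_zero _ _ (h1 z hz)

theorem dwt_transfer (f : Y → X) (hf : Function.Injective f) {W : Submodule ℂ (HS I X)}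
    {W' : Submodule ℂ (HS I Y)} (h1 : ∀ v ∈ W, dg I (res f hf) v ∈ W')
    (h2 : ∀ v ∈ W', dg I (adjoint (res f hf)) v ∈ W) (i : I) (y : Y) :
    dwt W i (f y) = dwt W' i y := by
  have h1' : ∀ v ∈ W.topologicalClosure, dg I (res f hf) v ∈ W'.topologicalClosure :=
    fun v hv => map_mem_closure (dg I (res f hf)).continuous hv h1
  have h2' : ∀ v ∈ W'.topologicalClosure,
      adjoint (dg I (res f hf)) v ∈ W.topologicalClosure := by
    rw [adjoint_dg]
    exact fun v hv => map_mem_closure (dg I (adjoint (res f hf))).continuous hv h2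
  have hd : (dl i (f y) : HS I X) = adjoint (dg I (res f hf)) (dl i y) := by
    refine ext_inner_right ℂ fun v => ?_
    rw [adjoint_inner_left, inner_dl, inner_dl, dg_apply, res_apply]
  have hn : ∀ w : HS I Y, ‖adjoint (dg I (res f hf)) w‖ ^ 2 = ‖w‖ ^ 2 := fun w => by
    rw [adjoint_dg, PiLp.norm_sq_eq_of_L2, PiLp.norm_sq_eq_of_L2]
    exact Finset.sum_congr rfl fun j _ => by rw [dg_apply, norm_adjoint_res]
  rw [dwt, dwt, hd, Orbit_proj_comm _ _ _ h1' h2', hn]

theorem Orbit_dg_opA (a : F →* Equiv.Perm X) (b : F →* Equiv.Perm Y) (T : L2 X →L[ℂ] L2 Y)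
    (hT : ∀ g v, T (prm (a g) v) = prm (b g) (T v)) (B : Matrix J I (ZG F)) (v : HS I X) :
    opA b B (dg I T v) = dg J T (opA a B v) := by
  refine PiLp.ext fun j => ?_
  rw [dg_apply, opA, opA, op_apply, op_apply, map_sum]
  refine Finset.sum_congr rfl fun i _ => ?_
  rw [dg_apply, Finsupp.sum, Finsupp.sum, _root_.sum_apply,
    _root_.sum_apply, map_sum]
  refine Finset.sum_congr rfl fun g _ => ?_
  rw [_root_.smul_apply, _root_.smul_apply, map_smul, hT]

theorem dwt_orbit (a : F →* Equiv.Perm X) (B : Matrix J I (ZG F)) (x : X)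
    (hx : Function.Injective fun g : F => a g x) (i : I) :
    dwt (opA a B).ker i x = dwt (opA (rAct (MonoidHom.id F)) B).ker i 1 := by
  have hf : Function.Injective fun g : F => a g⁻¹ x := fun g h hgh => inv_injective (hx hgh)
  have hR : ∀ g v, res _ hf (prm (a g) v) = prm (rAct (MonoidHom.id F) g) (res _ hf v) := by
    intro g v
    refine lp.ext (funext fun h => ?_)
    change v ((a g).symm (a h⁻¹ x)) = v (a ((Equiv.mulRight g⁻¹).symm h)⁻¹ x)
    rw [Equiv.mulRight_symm, inv_inv, Equiv.coe_mulRight, mul_inv_rev, map_mul, map_inv a g]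
    rfl
  have hR' : ∀ g w, adjoint (res _ hf) (prm (rAct (MonoidHom.id F) g) w) =
      prm (a g) (adjoint (res _ hf) w) := by
    intro g w
    refine ext_inner_right ℂ fun v => ?_
    have e1 : prm (rAct (MonoidHom.id F) g) = adjoint (prm (rAct (MonoidHom.id F) g⁻¹)) := by
      rw [adjoint_prm, map_inv, inv_inv]
    have e2 : prm (a g) = adjoint (prm (a g⁻¹)) := by
      rw [adjoint_prm, map_inv, inv_inv]
    rw [e1, e2, adjoint_inner_left, adjoint_inner_left, adjoint_inner_left, adjoint_inner_left, hR]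
  have key := dwt_transfer (fun g : F => a g⁻¹ x) hf (W := (opA a B).ker)
    (W' := (opA (rAct (MonoidHom.id F)) B).ker) (fun v hv => ?_) (fun v hv => ?_) i 1
  · simpa using key
  · have hv' : opA a B v = 0 := hv
    change opA (rAct (MonoidHom.id F)) B _ = 0
    rw [Orbit_dg_opA a _ _ hR, hv', map_zero]
  · have hv' : opA (rAct (MonoidHom.id F)) B v = 0 := hv
    change opA a B _ = 0
    rw [Orbit_dg_opA _ a _ hR', hv', map_zero]

theorem Orbit_norm_diff {E : Type} [NormedAddCommGroup E] [InnerProductSpace ℂ E]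
    (A A₀ : Submodule ℂ E) [A.HasOrthogonalProjection] [A₀.HasOrthogonalProjection]
    (hle : A₀ ≤ A) [FiniteDimensional ℂ (A₀ᗮ ⊓ A : Submodule ℂ E)] (u : E) :
    ‖A.starProjection u‖ ^ 2 - ‖A₀.starProjection u‖ ^ 2 =
      ∑ k, ‖⟪u, (stdOrthonormalBasis ℂ (A₀ᗮ ⊓ A : Submodule ℂ E) k : E)⟫_ℂ‖ ^ 2 := by
  have hm : A.starProjection u - A₀.starProjection u ∈ A₀ᗮ := by
    rw [Submodule.mem_orthogonal']
    intro z hz
    have e : A.starProjection u - A₀.starProjection u =
        (u - A₀.starProjection u) - (u - A.starProjection u) := by abel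
    rw [e, inner_sub_left, Submodule.starProjection_inner_eq_zero _ _ hz,
      Submodule.starProjection_inner_eq_zero _ _ (hle hz), sub_zero]
  have hV : (A₀ᗮ ⊓ A).starProjection u = A.starProjection u - A₀.starProjection u := by
    refine Submodule.eq_starProjection_of_mem_of_inner_eq_zero
      ⟨hm, A.sub_mem (A.starProjection_apply_mem u) (hle (A₀.starProjection_apply_mem u))⟩
      fun z hz => ?_
    have e : u - (A.starProjection u - A₀.starProjection u) =
        (u - A.starProjection u) + A₀.starProjection u := by abel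
    rw [e, inner_add_left, Submodule.starProjection_inner_eq_zero _ _ hz.2, zero_add]
    exact hz.1 _ (A₀.starProjection_apply_mem u)
  have hp := norm_add_sq_eq_norm_sq_add_norm_sq_of_inner_eq_zero (𝕜 := ℂ) (A₀.starProjection u)
    (A.starProjection u - A₀.starProjection u) (hm _ (A₀.starProjection_apply_mem u))
  rw [add_sub_cancel, ← hV] at hp
  have hs := (stdOrthonormalBasis ℂ (A₀ᗮ ⊓ A : Submodule ℂ E)).sum_sq_norm_inner_left
    ((A₀ᗮ ⊓ A).orthogonalProjectionOnto u)
  simp only [Submodule.inner_orthogonalProjectionOnto_eq_of_mem_right] at hs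
  rw [hs, sq, sq, sq, hp, add_sub_cancel_left]
  rfl

theorem dwt_codim {W W₀ : Submodule ℂ (HS I X)} (hc : IsClosed (W : Set (HS I X))) (Z : Finset X)
    (h : ∀ v, v ∈ W₀ ↔ v ∈ W ∧ ∀ i, ∀ x ∈ Z, v i x = 0) :
    ∃ n : ℕ, HasSum (fun x => ∑ i, (dwt W i x - dwt W₀ i x)) n := by
  have hle : W₀.topologicalClosure ≤ W.topologicalClosure :=
    Submodule.topologicalClosure_mono fun v hv => ((h v).1 hv).1
  have hW : W.topologicalClosure = W := hc.submodule_topologicalClosure_eq
  let L : (W₀.topologicalClosureᗮ ⊓ W.topologicalClosure : Submodule ℂ (HS I X)) →ₗ[ℂ]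
      (I × Z → ℂ) :=
    { toFun := fun v p => (v : HS I X) p.1 p.2
      map_add' := fun _ _ => rfl
      map_smul' := fun _ _ => rfl }
  have hL : Function.Injective L := by
    rw [injective_iff_map_eq_zero]
    intro v hv
    have h0 : (v : HS I X) ∈ W₀ :=
      (h _).2 ⟨hW.le v.2.2, fun i x hx => congrFun hv (i, ⟨x, hx⟩)⟩
    exact Subtype.ext (inner_self_eq_zero.1 (v.2.1 _ (W₀.le_topologicalClosure h0)))
  have : FiniteDimensional ℂ
      (W₀.topologicalClosureᗮ ⊓ W.topologicalClosure : Submodule ℂ (HS I X)) :=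
    FiniteDimensional.of_injective L hL
  set b := stdOrthonormalBasis ℂ
    (W₀.topologicalClosureᗮ ⊓ W.topologicalClosure : Submodule ℂ (HS I X)) with hb
  have hs := hasSum_sum (s := Finset.univ) fun k _ => hasSum_norm_sq (b k : HS I X)
  refine ⟨Module.finrank ℂ
    (W₀.topologicalClosureᗮ ⊓ W.topologicalClosure : Submodule ℂ (HS I X)), ?_⟩
  convert hs using 1
  · funext x
    rw [Finset.sum_comm]
    refine Finset.sum_congr rfl fun i _ => ?_
    rw [dwt, dwt, Orbit_norm_diff _ _ hle]
    exact Finset.sum_congr rfl fun k _ => by rw [inner_dl]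
  · have h1 : ∀ k, ‖(b k : HS I X)‖ ^ 2 = 1 := fun k => by
      rw [← Submodule.coe_norm, b.orthonormal.1 k, one_pow]
    simp only [h1, Finset.sum_const, Finset.card_univ, Fintype.card_fin, nsmul_eq_mul, mul_one]

end Pool.Agent.Work.MP_735653_gt
end
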