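import Mathlib
import Pool.Agent.Work.MP_735653_gt.Orbit
import Pool.Agent.Work.MP_735653_gt.ADefs
import Pool.Agent.Work.MP_735653_gt.LauU
import Pool.Agent.Work.MP_9d1ffa_al.UFa

attribute [-instance] Subring.toCommRing

-- merged part: Pool.Agent.Work.MP_735653_gt.Far
section
/-! The far endpoints of the edges of the Cayley tree of a free group. -/

namespace Pool.Agent.Work.MP_735653_gt

open FreeGroup

variable {α : Type} [DecidableEq α]

/-- the endpoint of the edge from `x` to `s * x` that is further from the identity -/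
def far (e : FreeGroup α × α) : FreeGroup α :=
  if norm e.1 < norm (of e.2 * e.1) then of e.2 * e.1 else e.1

lemma Far_left (w : α × Bool) (x : FreeGroup α) :
    ((toWord x).head? ≠ some (w.1, !w.2) ∧ toWord (mk [w] * x) = w :: toWord x) ∨
      toWord x = (w.1, !w.2) :: toWord (mk [w] * x) := by
  have h : toWord (mk [w] * x) = reduce (w :: toWord x) := by
    rw [toWord_mul, toWord_mk, reduce_singleton, List.singleton_append]
  rw [h, reduce.cons, reduce_toWord]
  rcases toWord x with _ | ⟨⟨a, b⟩, t⟩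
  · simp
  · obtain ⟨s, c⟩ := w
    by_cases h1 : s = a ∧ c = !b
    · obtain ⟨rfl, rfl⟩ := h1
      simp
    · left
      simp only [h1, if_false, and_true, List.head?_cons, ne_eq, Option.some.injEq, Prod.mk.injEq]
      rintro ⟨rfl, rfl⟩
      simp at h1

lemma Far_of (s : α) (x : FreeGroup α) :
    ((toWord x).head? ≠ some (s, false) ∧ toWord (of s * x) = (s, true) :: toWord x) ∨
      toWord x = (s, false) :: toWord (of s * x) :=
  Far_left (s, true) x

omit [DecidableEq α] in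
lemma Far_inv (w : α × Bool) : (mk [w])⁻¹ = mk [(w.1, !w.2)] := by
  rw [inv_mk]
  rfl

lemma Far_right (w : α × Bool) (x : FreeGroup α) :
    toWord (x * mk [w]) = toWord x ++ [w] ∨
      toWord x = toWord (x * mk [w]) ++ [(w.1, !w.2)] := by
  have h0 : mk [(w.1, !w.2)] * x⁻¹ = (x * mk [w])⁻¹ := by rw [mul_inv_rev, Far_inv]
  rcases Far_left (w.1, !w.2) x⁻¹ with ⟨-, h⟩ | h
  · left
    rw [h0, toWord_inv, toWord_inv] at h
    have h2 := congrArg invRev h
    rw [invRev_invRev, invRev_cons, invRev_invRev] at h2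
    rw [h2]
    simp [invRev]
  · right
    rw [h0, toWord_inv, toWord_inv] at h
    have h2 := congrArg invRev h
    rw [invRev_invRev, invRev_cons, invRev_invRev] at h2
    rw [h2]
    simp [invRev]

theorem norm_of_mul (s : α) (x : FreeGroup α) :
    norm (of s * x) = norm x + 1 ∨ norm (of s * x) + 1 = norm x := by
  unfold FreeGroup.norm
  rcases Far_of s x with ⟨-, h⟩ | h
  · left
    rw [h, List.length_cons]
  · right
    rw [h, List.length_cons]

lemma Far_lt_iff (s : α) (x : FreeGroup α) :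
    norm x < norm (of s * x) ↔ (toWord x).head? ≠ some (s, false) := by
  unfold FreeGroup.norm
  rcases Far_of s x with ⟨h1, h⟩ | h
  · rw [h, List.length_cons]
    simp [h1]
  · have h2 := congrArg List.length h
    have h3 := congrArg List.head? h
    rw [List.length_cons] at h2
    rw [List.head?_cons] at h3
    constructor
    · intro h4
      omega
    · intro h4
      exact absurd h3 h4

lemma Far_cases (e : FreeGroup α × α) :
    toWord (far e) = (e.2, true) :: toWord e.1 ∨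
      (far e = e.1 ∧ (toWord (far e)).head? = some (e.2, false)) := by
  unfold far
  by_cases h : norm e.1 < norm (of e.2 * e.1)
  · rw [if_pos h]
    rcases Far_of e.2 e.1 with ⟨-, h1⟩ | h1
    · exact Or.inl h1
    · exact absurd (congrArg List.head? h1) ((Far_lt_iff _ _).1 h)
  · rw [if_neg h]
    exact Or.inr ⟨rfl, not_not.1 fun h1 => h ((Far_lt_iff _ _).2 h1)⟩

theorem far_injective : Function.Injective (far : FreeGroup α × α → FreeGroup α) := by
  intro e e' h
  rcases Far_cases e with h1 | ⟨h1, h2⟩ <;> rcases Far_cases e' with h3 | ⟨h3, h4⟩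
  · rw [h, h3] at h1
    obtain ⟨h5, h6⟩ := List.cons.inj h1
    exact Prod.ext (toWord_injective h6).symm (congrArg Prod.fst h5).symm
  · rw [← h, h1] at h4
    simp at h4
  · rw [h, h3] at h2
    simp at h2
  · rw [h, h4] at h2
    exact Prod.ext (h1.symm.trans (h.trans h3)) (congrArg Prod.fst (Option.some.inj h2)).symm

theorem range_far : Set.range (far : FreeGroup α × α → FreeGroup α) = {1}ᶜ := by
  ext z
  simp only [Set.mem_range, Set.mem_compl_iff, Set.mem_singleton_iff]
  constructor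
  · rintro ⟨e, rfl⟩ h
    rcases Far_cases e with h1 | ⟨-, h1⟩ <;> rw [h] at h1 <;> simp at h1
  · intro hz
    rcases hw : toWord z with _ | ⟨⟨s, b⟩, t⟩
    · exact absurd (toWord_eq_nil_iff.1 hw) hz
    cases b
    · refine ⟨(z, s), ?_⟩
      unfold far
      rw [if_neg]
      rw [Far_lt_iff, hw]
      simp
    · refine ⟨(mk [(s, false)] * z, s), ?_⟩
      have h0 : of s * (mk [(s, false)] * z) = z := by
        have h1 : mk [(s, false)] = (of s)⁻¹ := (Far_inv (s, true)).symm
        rw [h1, mul_inv_cancel_left]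
      unfold far
      simp only [h0]
      rw [if_pos]
      rcases Far_left (s, false) z with ⟨h1, -⟩ | h1
      · rw [hw] at h1
        simp at h1
      · have h2 := congrArg List.length h1
        rw [List.length_cons] at h2
        unfold FreeGroup.norm
        omega

lemma Far_head (L : List (α × Bool)) : ∀ x : FreeGroup α, L.length < norm x →
    (toWord (x * mk L)).head? = (toWord x).head? := by
  induction L with
  | nil =>
    intro x _
    rw [← one_eq_mk, mul_one]
  | cons w L ih =>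
    intro x hx
    rw [List.length_cons] at hx
    have h0 : x * mk (w :: L) = x * mk [w] * mk L := by
      rw [mul_assoc, mul_mk, List.singleton_append]
    unfold FreeGroup.norm at hx ih
    rw [h0]
    rcases Far_right w x with h | h
    · have h2 := congrArg List.length h
      rw [List.length_append] at h2
      rw [ih _ (by omega), h]
      rcases hw : toWord x with _ | ⟨a, t⟩
      · rw [hw] at hx
        simp at hx
      · simp
    · have h2 := congrArg List.length h
      rw [List.length_append, List.length_singleton] at h2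
      rw [ih _ (by omega), h]
      rcases hw : toWord (x * mk [w]) with _ | ⟨a, t⟩
      · rw [hw, List.length_nil] at h2
        omega
      · simp

theorem far_mul [Finite α] (g : FreeGroup α) :
    {e : FreeGroup α × α | far (e.1 * g, e.2) ≠ far e * g}.Finite := by
  have h1 : {x : FreeGroup α | norm x ≤ norm g}.Finite :=
    (List.finite_length_le (α × Bool) (norm g)).preimage toWord_injective.injOn
  refine (h1.prod (Set.toFinite (Set.univ : Set α))).subset fun e he => ⟨?_, trivial⟩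
  by_contra h2
  apply he
  have h3 := Far_head (toWord g) e.1 (not_le.1 h2)
  rw [mk_toWord] at h3
  unfold far
  simp only [Far_lt_iff, h3]
  split_ifs
  · rw [mul_assoc]
  · rfl

lemma Far_end (e : FreeGroup α × α) (y : FreeGroup α) (hy : y = e.1 ∨ y = of e.2 * e.1)
    (h : norm (far e) ≤ norm y) : far e = y := by
  have h1 := norm_of_mul e.2 e.1
  unfold far at h ⊢
  split_ifs at h ⊢ with h2
  · rcases hy with rfl | rfl
    · omega
    · rfl
  · rcases hy with rfl | rfl
    · rfl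
    · omega

theorem leaf [Fintype α] {B : Type} [AddCommGroup B] (p q : FreeGroup α × α →₀ B)
    (h1 : ∀ e, p e = 0 ↔ q e = 0)
    (h2 : ∀ x, ∑ s, p (x, s) = ∑ s, q (x * (of s)⁻¹, s)) : p = 0 := by
  by_contra hp
  obtain ⟨⟨x, s⟩, he, hmax⟩ := p.support.exists_max_image
    (fun e => norm (far ((e.1 * of e.2)⁻¹, e.2))) (Finsupp.support_nonempty_iff.2 hp)
  have he0 : p (x, s) ≠ 0 := Finsupp.mem_support_iff.1 he
  obtain ⟨z, hz⟩ : ∃ z, far ((x * of s)⁻¹, s) = z⁻¹ := ⟨_, (inv_inv _).symm⟩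
  have key : ∀ y t, p (y, t) ≠ 0 → (z = y * of t ∨ z = y) → y = x ∧ t = s := by
    intro y t h hy
    have h3 := hmax (y, t) (Finsupp.mem_support_iff.2 h)
    simp only [hz] at h3
    have h4 := Far_end ((y * of t)⁻¹, t) z⁻¹ (by
      rcases hy with rfl | rfl
      · exact Or.inl rfl
      · right
        simp) h3
    obtain ⟨h5, h6⟩ := Prod.mk.inj (far_injective (h4.trans hz.symm))
    subst h6
    exact ⟨mul_right_cancel (inv_injective h5), rfl⟩
  have hzz : z = x * of s ∨ z = x := by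
    unfold far at hz
    split_ifs at hz
    · right
      apply inv_injective
      rw [← hz]
      simp
    · exact Or.inl (inv_injective hz).symm
  have h3 := h2 z
  rcases hzz with hzz | hzz
  · rw [Finset.sum_eq_zero, Finset.sum_eq_single s] at h3
    · rw [hzz, mul_inv_cancel_right] at h3
      exact he0 ((h1 _).2 h3.symm)
    · intro t _ ht
      by_contra h4
      exact ht (key _ t (fun h5 => h4 ((h1 _).1 h5)) (Or.inl (by simp))).2
    · simp
    · intro t _
      by_contra h4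
      have h5 := (key z t h4 (Or.inr rfl)).1
      rw [hzz] at h5
      simp at h5
  · rw [Finset.sum_eq_single s, Finset.sum_eq_zero] at h3
    · rw [hzz] at h3
      exact he0 h3
    · intro t _
      by_contra h4
      have h5 := (key _ t (fun h5 => h4 ((h1 _).1 h5)) (Or.inl (by simp))).1
      rw [hzz] at h5
      simp at h5
    · intro t _ ht
      by_contra h4
      exact ht (key z t h4 (Or.inr rfl)).2
    · simp

end Pool.Agent.Work.MP_735653_gt
end

-- merged part: Pool.Agent.Work.MP_735653_gt.JV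
section
/-! Integrality of kernel dimensions over the group ring of a free subgroup. -/

namespace Pool.Agent.Work.MP_735653_gt

variable {I J : Type} [Fintype I] [Fintype J]

theorem JV_opA_apply {F X : Type} [Group F] (a : F →* Equiv.Perm X) (B : Matrix J I (ZG F))
    (v : HS I X) (j : J) (x : X) :
    opA a B v j x =
      ∑ i, ∑ g ∈ (B j i).coeff.support, ((B j i).coeff g : ℂ) * v i ((a g).symm x) := by
  rw [opA, op_apply, lp.coeFn_sum, Finset.sum_apply]
  refine Finset.sum_congr rfl fun i _ => ?_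
  rw [Finsupp.sum, ContinuousLinearMap.sum_apply, lp.coeFn_sum, Finset.sum_apply]
  rfl

theorem JV_ext {X : Type} {v : HS I X} (h : ∀ i x, v i x = 0) : v = 0 := by
  ext i x
  exact h i x

/-- the action on the edges of the Cayley tree -/
def JV_a2 (F α : Type) [Group F] : F →* Equiv.Perm (F × α) where
  toFun g := Equiv.prodCongr (Equiv.mulRight g⁻¹) (Equiv.refl α)
  map_one' := by ext <;> simp
  map_mul' g h := by ext <;> simp [mul_assoc]

/-- the elements of `W` that vanish on `Z` -/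
def JV_van {X : Type} (W : Submodule ℂ (HS I X)) (Z : Finset X) : Submodule ℂ (HS I X) where
  carrier := {v | v ∈ W ∧ ∀ i, ∀ x ∈ Z, v i x = 0}
  zero_mem' := ⟨W.zero_mem, fun _ _ _ => rfl⟩
  add_mem' := fun {a b} ha hb => ⟨W.add_mem ha.1 hb.1, fun i x hx => by
    change a i x + b i x = 0
    rw [ha.2 i x hx, hb.2 i x hx, add_zero]⟩
  smul_mem' := fun c a ha => ⟨W.smul_mem c ha.1, fun i x hx => by
    change c • a i x = 0
    rw [ha.2 i x hx, smul_zero]⟩

theorem JV_dwt_zero {X : Type} {W : Submodule ℂ (HS I X)} {i : I} {x : X}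
    (h : ∀ v ∈ W, v i x = 0) : dwt W i x = 0 := by
  have : W.topologicalClosure.starProjection (dl i x) = 0 := by
    rw [Submodule.starProjection_apply_eq_zero_iff, Submodule.orthogonal_closure,
      Submodule.mem_orthogonal']
    intro v hv
    rw [inner_dl, h v hv]
  rw [dwt, this, norm_zero, zero_pow two_ne_zero]

theorem jv_free {α : Type} [Fintype α] (B : Matrix J I (ZG (FreeGroup α))) :
    ∃ z : ℤ, ∑ i, dwt (opA (rAct (MonoidHom.id (FreeGroup α))) B).ker i 1 = z := by
  classical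
  obtain ⟨S, hS⟩ : ∃ S : Finset (FreeGroup α), ∀ j i, ∀ g ∈ (B j i).coeff.support, g ∈ S :=
    ⟨Finset.univ.biUnion fun j => Finset.univ.biUnion fun i => (B j i).coeff.support,
      fun j i g hg => Finset.mem_biUnion.2 ⟨j, Finset.mem_univ _,
        Finset.mem_biUnion.2 ⟨i, Finset.mem_univ _, hg⟩⟩⟩
  obtain ⟨Bad, hBad⟩ : ∃ Bad : Finset (FreeGroup α × α),
      ∀ e, e ∉ Bad → ∀ g ∈ S, far (e.1 * g, e.2) = far e * g := by
    refine ⟨S.biUnion fun g => (far_mul g).toFinset, fun e he g hg => ?_⟩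
    by_contra hne
    exact he (Finset.mem_biUnion.2 ⟨g, hg, (far_mul g).mem_toFinset.2 hne⟩)
  obtain ⟨ZF, hZ1, hZS, hZB⟩ : ∃ ZF : Finset (FreeGroup α), 1 ∈ ZF ∧ (∀ g ∈ S, g ∈ ZF) ∧
      ∀ e ∈ Bad, ∀ g ∈ S, far (e.1 * g, e.2) ∈ ZF ∧ far e * g ∈ ZF := by
    refine ⟨insert 1 (S ∪ ((Bad ×ˢ S).image fun p => far (p.1.1 * p.2, p.1.2)) ∪
      ((Bad ×ˢ S).image fun p => far p.1 * p.2)), Finset.mem_insert_self _ _, fun g hg => ?_,
      fun e he g hg => ⟨?_, ?_⟩⟩
    · simp [hg]
    · exact Finset.mem_insert_of_mem (Finset.mem_union_left _ (Finset.mem_union_right _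
        (Finset.mem_image.2 ⟨(e, g), Finset.mem_product.2 ⟨he, hg⟩, rfl⟩)))
    · exact Finset.mem_insert_of_mem (Finset.mem_union_right _
        (Finset.mem_image.2 ⟨(e, g), Finset.mem_product.2 ⟨he, hg⟩, rfl⟩))
  obtain ⟨ZE, hZE⟩ : ∃ ZE : Finset (FreeGroup α × α), ∀ e, e ∈ ZE ↔ far e ∈ ZF :=
    ⟨ZF.preimage far far_injective.injOn, fun e => Finset.mem_preimage⟩
  have hcase : ∀ x : FreeGroup α, x = 1 ∨ ∃ e, far e = x := fun x => by
    by_cases h : x = 1
    · exact Or.inl h
    · exact Or.inr (show x ∈ Set.range far by rw [range_far]; exact h)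
  have hF : ∀ (v : HS I (FreeGroup α)) j x, opA (rAct (MonoidHom.id (FreeGroup α))) B v j x =
      ∑ i, ∑ g ∈ (B j i).coeff.support, ((B j i).coeff g : ℂ) * v i (x * g) := by
    intro v j x
    rw [JV_opA_apply]
    simp [rAct]
  have hE : ∀ (v : HS I (FreeGroup α × α)) j e, opA (JV_a2 (FreeGroup α) α) B v j e =
      ∑ i, ∑ g ∈ (B j i).coeff.support, ((B j i).coeff g : ℂ) * v i (e.1 * g, e.2) := by
    intro v j e
    rw [JV_opA_apply]
    simp [JV_a2, Prod.map]
  have key : ∀ v : HS I (FreeGroup α), (∀ i, ∀ x ∈ ZF, v i x = 0) → ∀ j e,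
      opA (JV_a2 (FreeGroup α) α) B (dg I (res far far_injective) v) j e =
        opA (rAct (MonoidHom.id (FreeGroup α))) B v j (far e) := by
    intro v hv j e
    rw [hE, hF]
    refine Finset.sum_congr rfl fun i _ => Finset.sum_congr rfl fun g hg => ?_
    change _ * v i (far (e.1 * g, e.2)) = _
    by_cases he : e ∈ Bad
    · rw [hv i _ (hZB e he g (hS j i g hg)).1, hv i _ (hZB e he g (hS j i g hg)).2]
    · rw [hBad e he g (hS j i g hg)]
  have key1 : ∀ v : HS I (FreeGroup α), (∀ i, ∀ x ∈ ZF, v i x = 0) → ∀ j,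
      opA (rAct (MonoidHom.id (FreeGroup α))) B v j 1 = 0 := by
    intro v hv j
    rw [hF]
    refine Finset.sum_eq_zero fun i _ => Finset.sum_eq_zero fun g hg => ?_
    rw [one_mul, hv i g (hZS g (hS j i g hg)), mul_zero]
  have htr : ∀ i e, dwt (JV_van (opA (rAct (MonoidHom.id (FreeGroup α))) B).ker ZF) i (far e) =
      dwt (JV_van (opA (JV_a2 (FreeGroup α) α) B).ker ZE) i e := by
    refine dwt_transfer far far_injective (fun v hv => ⟨JV_ext fun j e => ?_, fun i e he => ?_⟩)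
      fun w hw => ?_
    · refine (key v hv.2 j e).trans ?_
      rw [show opA (rAct (MonoidHom.id (FreeGroup α))) B v = 0 from hv.1]
      rfl
    · exact hv.2 i _ ((hZE e).1 he)
    · obtain ⟨v, hv⟩ : ∃ v, v = dg I (ContinuousLinearMap.adjoint (res far far_injective)) w :=
        ⟨_, rfl⟩
      have h1 : dg I (res far far_injective) v = w := by
        ext i : 1
        rw [hv]
        exact res_adjoint_res far far_injective (w i)
      have h2 : ∀ i, ∀ x ∈ ZF, v i x = 0 := by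
        intro i x hx
        rcases hcase x with rfl | ⟨e, rfl⟩
        · rw [hv]
          exact adjoint_res_of_not_mem far far_injective (w i) (by rw [range_far]; simp)
        · have : v i (far e) = w i e := by
            rw [← h1]
            rfl
          rw [this]
          exact hw.2 i e ((hZE e).2 hx)
      rw [← hv]
      refine ⟨JV_ext fun j x => ?_, h2⟩
      rcases hcase x with rfl | ⟨e, rfl⟩
      · exact key1 v h2 j
      · refine (key v h2 j e).symm.trans ?_
        rw [h1, show opA (JV_a2 (FreeGroup α) α) B w = 0 from hw.1]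
        rfl
  obtain ⟨nF, hnF⟩ := dwt_codim (W₀ := JV_van (opA (rAct (MonoidHom.id (FreeGroup α))) B).ker ZF)
    (opA (rAct (MonoidHom.id (FreeGroup α))) B).isClosed_ker ZF fun v => Iff.rfl
  obtain ⟨nE, hnE⟩ := dwt_codim (W₀ := JV_van (opA (JV_a2 (FreeGroup α) α) B).ker ZE)
    (opA (JV_a2 (FreeGroup α) α) B).isClosed_ker ZE fun v => Iff.rfl
  obtain ⟨f, hf⟩ : ∃ f : FreeGroup α → ℝ, f = fun x => ∑ i,
      (dwt (opA (rAct (MonoidHom.id (FreeGroup α))) B).ker i x -
        dwt (JV_van (opA (rAct (MonoidHom.id (FreeGroup α))) B).ker ZF) i x) := ⟨_, rfl⟩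
  have hf1 : f 1 = ∑ i, dwt (opA (rAct (MonoidHom.id (FreeGroup α))) B).ker i 1 := by
    rw [hf]
    exact Finset.sum_congr rfl fun i _ => by
      rw [JV_dwt_zero (W := JV_van _ ZF) fun v hv => hv.2 i 1 hZ1, sub_zero]
  have hfe : HasSum ((fun x => if x = 1 then 0 else f x) ∘ far) nE := by
    convert hnE using 2 with e
    have hne : far e ≠ 1 := by
      have : far e ∈ Set.range (far : FreeGroup α × α → FreeGroup α) := ⟨e, rfl⟩
      rwa [range_far] at this
    rw [Function.comp_apply, if_neg hne, hf]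
    refine Finset.sum_congr rfl fun i _ => ?_
    rw [htr, dwt_orbit (rAct (MonoidHom.id (FreeGroup α))) B (far e) fun g h hgh => ?_,
      dwt_orbit (JV_a2 (FreeGroup α) α) B e fun g h hgh => ?_]
    · simpa [JV_a2] using congrArg Prod.fst hgh
    · simpa [rAct] using hgh
  rw [far_injective.hasSum_iff fun x hx => if_pos (by
    rw [range_far] at hx
    simpa using hx)] at hfe
  rw [← hf] at hnF
  have h3 : HasSum f (nE + f 1) := by
    convert hfe.add (hasSum_ite_eq (1 : FreeGroup α) (f 1)) using 2 with x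
    split_ifs with hx
    · rw [hx, zero_add]
    · rw [add_zero]
  refine ⟨nF - nE, ?_⟩
  rw [← hf1]
  push_cast
  linarith [hnF.unique h3]

theorem jv {G H α : Type} [Group G] [Group H] [Fintype α] (e : H ≃* FreeGroup α) (φ : H →* G)
    (hφ : Function.Injective φ) (B : Matrix J I (ZG H)) :
    ∃ z : ℤ, kd (B.map ((toVN G).comp (mapG φ))) = z := by
  obtain ⟨z, hz⟩ := jv_free (B.map (mapG e.toMonoidHom))
  refine ⟨z, ?_⟩
  have h1 : (mapG (φ.comp e.symm.toMonoidHom)).comp (mapG e.toMonoidHom) = mapG φ := by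
    rw [← MonoidAlgebra.mapDomainRingHom_comp]
    congr 1
    ext x
    simp
  have h2 : B.map ((toVN G).comp (mapG φ)) = (B.map (mapG e.toMonoidHom)).map
      ((toVN G).comp (mapG (φ.comp e.symm.toMonoidHom))) := by
    rw [← h1]
    rfl
  rw [kd, h2, ← opA_rAct, vnDim_eq, ← hz]
  refine Finset.sum_congr rfl fun i _ => dwt_orbit _ _ 1 (fun g h hgh => ?_) i
  have : φ (e.symm g) = φ (e.symm h) := by simpa [rAct] using hgh
  exact e.symm.injective (hφ this)

end Pool.Agent.Work.MP_735653_gt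
end

-- merged part: Pool.Agent.Work.MP_735653_gt.SkewL
section
/-! Fractions of twisted Laurent polynomials; normal forms of matrices over division rings. -/

namespace Pool.Agent.Work.MP_735653_gt

section

variable {U : Type} [Ring U] {D₀ : Subring U} {τ : Uˣ}

theorem SkewL_conj (h1 : ∀ x ∈ D₀, (τ : U) * x * (↑τ⁻¹ : U) ∈ D₀)
    (h2 : ∀ x ∈ D₀, (↑τ⁻¹ : U) * x * (τ : U) ∈ D₀) (k : ℤ) :
    ∀ x ∈ D₀, (↑(τ ^ k) : U) * x * (↑(τ ^ k)⁻¹ : U) ∈ D₀ := by
  induction k using Int.induction_on with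
  | zero => simp
  | succ k ih =>
    intro x hx
    have := ih _ (h1 x hx)
    rw [zpow_add_one, mul_inv_rev, Units.val_mul, Units.val_mul]
    simpa only [mul_assoc] using this
  | pred k ih =>
    intro x hx
    have := ih _ (h2 x hx)
    rw [zpow_sub_one, mul_inv_rev, inv_inv, Units.val_mul, Units.val_mul]
    simpa only [mul_assoc] using this

variable (D₀ τ) in
/-- the left span of the powers with exponent in `S` -/
def SkewL_sp (S : Set ℤ) : Submodule D₀ U := Submodule.span D₀ ((fun k : ℤ => (↑(τ ^ k) : U)) '' S)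

theorem SkewL_mem {S : Set ℤ} {k : ℤ} (hk : k ∈ S) : (↑(τ ^ k) : U) ∈ SkewL_sp D₀ τ S :=
  Submodule.subset_span ⟨k, hk, rfl⟩

theorem SkewL_mono {S S' : Set ℤ} (h : S ⊆ S') : SkewL_sp D₀ τ S ≤ SkewL_sp D₀ τ S' :=
  Submodule.span_mono (Set.image_mono h)

theorem SkewL_shift (h1 : ∀ x ∈ D₀, (τ : U) * x * (↑τ⁻¹ : U) ∈ D₀)
    (h2 : ∀ x ∈ D₀, (↑τ⁻¹ : U) * x * (τ : U) ∈ D₀) {S S' : Set ℤ} {k : ℤ}
    (h : ∀ l ∈ S, k + l ∈ S') {f : U} (hf : f ∈ SkewL_sp D₀ τ S) :
    (↑(τ ^ k) : U) * f ∈ SkewL_sp D₀ τ S' := by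
  induction hf using Submodule.span_induction with
  | mem x hx =>
    obtain ⟨l, hl, rfl⟩ := hx
    rw [← Units.val_mul, ← zpow_add]
    exact SkewL_mem (h l hl)
  | zero =>
    rw [mul_zero]
    exact zero_mem _
  | add x y _ _ hx hy =>
    rw [mul_add]
    exact add_mem hx hy
  | smul a x _ hx =>
    have e : (↑(τ ^ k) : U) * (a • x) =
        (⟨_, SkewL_conj h1 h2 k a a.2⟩ : D₀) • ((↑(τ ^ k) : U) * x) := by
      change _ * ((a : U) * x) = _ * _ * _ * _
      rw [mul_assoc, mul_assoc, Units.inv_mul_cancel_left]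
    rw [e]
    exact Submodule.smul_mem _ _ hx

theorem SkewL_mul (h1 : ∀ x ∈ D₀, (τ : U) * x * (↑τ⁻¹ : U) ∈ D₀)
    (h2 : ∀ x ∈ D₀, (↑τ⁻¹ : U) * x * (τ : U) ∈ D₀) {f g : U}
    (hf : f ∈ SkewL_sp D₀ τ Set.univ) (hg : g ∈ SkewL_sp D₀ τ Set.univ) :
    f * g ∈ SkewL_sp D₀ τ Set.univ := by
  induction hf using Submodule.span_induction with
  | mem x hx =>
    obtain ⟨l, -, rfl⟩ := hx
    exact SkewL_shift h1 h2 (fun _ _ => Set.mem_univ _) hg
  | zero =>
    rw [zero_mul]
    exact zero_mem _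
  | add x y _ _ hx hy =>
    rw [add_mul]
    exact add_mem hx hy
  | smul a x _ hx =>
    have e : (a • x) * g = a • (x * g) := mul_assoc (a : U) x g
    rw [e]
    exact Submodule.smul_mem _ _ hx

theorem SkewL_bdd {f : U} (hf : f ∈ SkewL_sp D₀ τ Set.univ) :
    ∃ c : ℕ, f ∈ SkewL_sp D₀ τ (Set.Icc (-(c : ℤ)) c) := by
  induction hf using Submodule.span_induction with
  | mem x hx =>
    obtain ⟨l, -, rfl⟩ := hx
    exact ⟨l.natAbs, SkewL_mem ⟨by omega, by omega⟩⟩
  | zero => exact ⟨0, zero_mem _⟩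
  | add x y _ _ hx hy =>
    obtain ⟨c, hc⟩ := hx
    obtain ⟨d, hd⟩ := hy
    exact ⟨c + d, add_mem (SkewL_mono (Set.Icc_subset_Icc (by omega) (by omega)) hc)
      (SkewL_mono (Set.Icc_subset_Icc (by omega) (by omega)) hd)⟩
  | smul a x _ hx =>
    obtain ⟨c, hc⟩ := hx
    exact ⟨c, Submodule.smul_mem _ _ hc⟩

theorem SkewL_unit
    (h3 : ∀ (T : Finset ℤ) (a : ℤ → U), (∀ k ∈ T, a k ∈ D₀) → (∃ k ∈ T, a k ≠ 0) →
      IsUnit (∑ k ∈ T, a k * (↑(τ ^ k) : U))) {f : U} (hf : f ∈ SkewL_sp D₀ τ Set.univ)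
    (h0 : f ≠ 0) : IsUnit f := by
  rw [SkewL_sp, Set.image_univ, Finsupp.mem_span_range_iff_exists_finsupp] at hf
  obtain ⟨c, rfl⟩ := hf
  refine h3 c.support (fun k => c k) (fun k _ => (c k).2) ?_
  by_contra h
  push Not at h
  refine h0 (Finset.sum_eq_zero fun k hk => ?_)
  change (c k : U) * _ = 0
  rw [h k hk, zero_mul]

theorem SkewL_li [Nontrivial U]
    (h3 : ∀ (T : Finset ℤ) (a : ℤ → U), (∀ k ∈ T, a k ∈ D₀) → (∃ k ∈ T, a k ≠ 0) →
      IsUnit (∑ k ∈ T, a k * (↑(τ ^ k) : U))) :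
    LinearIndependent D₀ fun k : ℤ => (↑(τ ^ k) : U) := by
  rw [linearIndependent_iff']
  intro T a h k hk
  by_contra h0
  exact (h3 T (fun k => a k) (fun k _ => (a k).2) ⟨k, hk, fun e => h0 (Subtype.ext e)⟩).ne_zero h

theorem SkewL_src [Nontrivial U] (h0 : IsDiv D₀) : StrongRankCondition D₀ := by
  have h : ∀ a : D₀, IsUnit a ∨ a = 0 := fun a => by
    by_cases ha : a = 0
    · exact Or.inr ha
    · obtain ⟨y, hy, e, e'⟩ := h0 a a.2 fun e => ha (Subtype.ext e)
      exact Or.inl ⟨⟨a, ⟨y, hy⟩, Subtype.ext e, Subtype.ext e'⟩, rfl⟩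
  let := DivisionRing.ofIsUnitOrEqZero h
  infer_instance

theorem SkewL_ore [Nontrivial U] (h0 : IsDiv D₀) (h1 : ∀ x ∈ D₀, (τ : U) * x * (↑τ⁻¹ : U) ∈ D₀)
    (h2 : ∀ x ∈ D₀, (↑τ⁻¹ : U) * x * (τ : U) ∈ D₀)
    (h3 : ∀ (T : Finset ℤ) (a : ℤ → U), (∀ k ∈ T, a k ∈ D₀) → (∃ k ∈ T, a k ≠ 0) →
      IsUnit (∑ k ∈ T, a k * (↑(τ ^ k) : U))) {f g : U}
    (hf : f ∈ SkewL_sp D₀ τ Set.univ) (hg : g ∈ SkewL_sp D₀ τ Set.univ) (hg0 : g ≠ 0) :
    ∃ u ∈ SkewL_sp D₀ τ Set.univ, ∃ v ∈ SkewL_sp D₀ τ Set.univ, u ≠ 0 ∧ u * f = v * g := by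
  classical
  have := SkewL_src h0
  obtain ⟨c₁, hc₁⟩ := SkewL_bdd hf
  obtain ⟨c₂, hc₂⟩ := SkewL_bdd hg
  let w : Fin (2 * (c₁ + c₂) + 1) ⊕ Fin (2 * (c₁ + c₂) + 1) → U :=
    Sum.elim (fun i => (↑(τ ^ ((i : ℕ) : ℤ)) : U) * f) fun i => (↑(τ ^ ((i : ℕ) : ℤ)) : U) * g
  have hw : ¬ LinearIndependent D₀ w := by
    intro hw
    have h4 := linearIndependent_le_span_aux' w hw
      ((Finset.Icc (-((c₁ + c₂ : ℕ) : ℤ)) (3 * (c₁ + c₂ : ℕ))).image
        (fun k : ℤ => (↑(τ ^ k) : U)) : Finset U) (by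
      rw [Finset.coe_image, Finset.coe_Icc]
      rintro _ ⟨i | i, rfl⟩
      · exact SkewL_shift h1 h2 (fun l hl => Set.mem_Icc.2
          ⟨by have := hl.1; omega, by have := hl.2; omega⟩) hc₁
      · exact SkewL_shift h1 h2 (fun l hl => Set.mem_Icc.2
          ⟨by have := hl.1; omega, by have := hl.2; omega⟩) hc₂)
    have h5 := Finset.card_image_le (s := Finset.Icc (-((c₁ + c₂ : ℕ) : ℤ)) (3 * (c₁ + c₂ : ℕ)))
      (f := fun k : ℤ => (↑(τ ^ k) : U))
    simp only [Fintype.card_sum, Fintype.card_fin, Finset.coe_sort_coe, Fintype.card_coe,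
      Int.card_Icc] at h4 h5
    omega
  obtain ⟨a, ha, i₀, hi₀⟩ := Fintype.not_linearIndependent_iff.1 hw
  rw [Fintype.sum_sum_type] at ha
  have hli := Fintype.linearIndependent_iff.1 ((SkewL_li h3).comp
    (fun i : Fin (2 * (c₁ + c₂) + 1) => ((i : ℕ) : ℤ)) fun i j h => Fin.ext (Nat.cast_injective h))
  have hm : ∀ b : Fin (2 * (c₁ + c₂) + 1) → D₀,
      ∑ i, b i • (↑(τ ^ ((i : ℕ) : ℤ)) : U) ∈ SkewL_sp D₀ τ Set.univ := fun b =>
    Submodule.sum_mem _ fun i _ => Submodule.smul_mem _ _ (SkewL_mem trivial)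
  have he : (∑ i, a (.inl i) • (↑(τ ^ ((i : ℕ) : ℤ)) : U)) * f =
      (-∑ i, a (.inr i) • (↑(τ ^ ((i : ℕ) : ℤ)) : U)) * g := by
    rw [neg_mul, eq_neg_iff_add_eq_zero, ← ha, Finset.sum_mul, Finset.sum_mul]
    congr 1 <;> exact Finset.sum_congr rfl fun i _ => mul_assoc _ _ _
  refine ⟨_, hm _, _, neg_mem (hm _), fun h => hi₀ ?_, he⟩
  rw [h, zero_mul, eq_comm, (SkewL_unit h3 hg hg0).mul_left_eq_zero, neg_eq_zero] at he
  rcases i₀ with i | i
  · exact hli _ h i
  · exact hli _ he i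

end

theorem skew_laurent {U : Type} [Ring U] [Nontrivial U] (D₀ : Subring U) (h0 : IsDiv D₀) (τ : Uˣ)
    (h1 : ∀ x ∈ D₀, (τ : U) * x * (↑τ⁻¹ : U) ∈ D₀)
    (h2 : ∀ x ∈ D₀, (↑τ⁻¹ : U) * x * (τ : U) ∈ D₀)
    (h3 : ∀ (T : Finset ℤ) (a : ℤ → U), (∀ k ∈ T, a k ∈ D₀) → (∃ k ∈ T, a k ≠ 0) →
      IsUnit (∑ k ∈ T, a k * (↑(τ ^ k) : U))) :
    ∃ D : Subring U, IsDiv D ∧ D₀ ≤ D ∧ ∀ k : ℤ, (↑(τ ^ k) : U) ∈ D := by
  have hone : (1 : U) ∈ SkewL_sp D₀ τ Set.univ := by
    simpa using SkewL_mem (D₀ := D₀) (τ := τ) (Set.mem_univ 0)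
  have hne : ∀ a ∈ SkewL_sp D₀ τ Set.univ, ∀ u : U, a ≠ 0 → u ≠ 0 → a * u ≠ 0 :=
    fun a ha u h h' e => h' ((SkewL_unit h3 ha h).mul_right_eq_zero.1 e)
  let D : Subring U :=
    { carrier := {x | ∃ u ∈ SkewL_sp D₀ τ Set.univ, u ≠ 0 ∧ u * x ∈ SkewL_sp D₀ τ Set.univ}
      mul_mem' := by
        rintro x y ⟨u, hu, hu0, hx⟩ ⟨u', hu', hu0', hy⟩
        obtain ⟨a, ha, b, hb, ha0, e⟩ := SkewL_ore h0 h1 h2 h3 hx hu' hu0'
        refine ⟨a * u, SkewL_mul h1 h2 ha hu, hne a ha u ha0 hu0, ?_⟩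
        rw [← mul_assoc, mul_assoc a, e, mul_assoc]
        exact SkewL_mul h1 h2 hb hy
      one_mem' := ⟨1, hone, one_ne_zero, by rwa [mul_one]⟩
      add_mem' := by
        rintro x y ⟨u, hu, hu0, hx⟩ ⟨u', hu', hu0', hy⟩
        obtain ⟨a, ha, b, hb, ha0, e⟩ := SkewL_ore h0 h1 h2 h3 hu hu' hu0'
        refine ⟨a * u, SkewL_mul h1 h2 ha hu, hne a ha u ha0 hu0, ?_⟩
        rw [mul_add]
        refine add_mem ?_ ?_
        · rw [mul_assoc]
          exact SkewL_mul h1 h2 ha hx
        · rw [e, mul_assoc]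
          exact SkewL_mul h1 h2 hb hy
      zero_mem' := ⟨1, hone, one_ne_zero, by rw [mul_zero]; exact zero_mem _⟩
      neg_mem' := by
        rintro x ⟨u, hu, hu0, hx⟩
        exact ⟨u, hu, hu0, by rw [mul_neg]; exact neg_mem hx⟩ }
  refine ⟨D, ?_, fun x hx => ⟨1, hone, one_ne_zero, ?_⟩, fun k => ⟨1, hone, one_ne_zero, ?_⟩⟩
  · rintro x ⟨u, hu, hu0, hx⟩ hx0
    have h4 := hne u hu x hu0 hx0
    obtain ⟨y, rfl⟩ : IsUnit x := by
      obtain ⟨u', rfl⟩ := SkewL_unit h3 hu hu0
      exact (Units.isUnit_units_mul u' x).1 (SkewL_unit h3 hx h4)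
    refine ⟨↑y⁻¹, ⟨u * y, hx, h4, ?_⟩, y.mul_inv, y.inv_mul⟩
    rwa [Units.mul_inv_cancel_right]
  · have := Submodule.smul_mem _ (⟨x, hx⟩ : D₀) hone
    rw [one_mul, ← mul_one x]
    exact this
  · rw [one_mul]
    exact SkewL_mem trivial

theorem SkewL_basis {D I : Type} [DivisionRing D] [Fintype I] [DecidableEq I] {s : Set (I → D)}
    (hs : LinearIndepOn D id s) : ∃ Q : Matrix I I D, IsUnit Q ∧ ∀ x ∈ s, ∃ i, Q i = x := by
  let b := (Module.Basis.extend hs).reindex ((Module.Basis.extend hs).indexEquiv (Pi.basisFun D I))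
  refine ⟨Matrix.of b, ⟨⟨Matrix.of b, Matrix.of fun i j => b.repr (Pi.single i 1) j, ?_, ?_⟩, rfl⟩,
    fun x hx => ?_⟩
  · ext i j
    have h : b i = ∑ k, b i k • (Pi.single k 1 : I → D) := pi_eq_sum_univ' (b i)
    have h' := congrArg (fun x => b.repr x j) h
    simp only [Module.Basis.repr_self, map_sum, map_smul, Finsupp.finsetSum_apply,
      Finsupp.smul_apply, smul_eq_mul, Finsupp.single_apply] at h'
    simp only [Matrix.mul_apply, Matrix.of_apply, Matrix.one_apply, ← h']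
  · ext i j
    have h := congrFun (b.sum_repr (Pi.single i 1)) j
    simp only [Finset.sum_apply, Pi.smul_apply, smul_eq_mul, Pi.single_apply] at h
    simp only [Matrix.mul_apply, Matrix.of_apply, Matrix.one_apply, h, eq_comm]
  · have h : x ∈ Set.range b := by
      rw [Module.Basis.range_reindex, Module.Basis.range_extend]
      exact Module.Basis.subset_extend hs hx
    exact h

theorem normal_form {D I J : Type} [DivisionRing D] [Fintype I] [DecidableEq I] [Fintype J]
    [DecidableEq J] (A : Matrix J I D) :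
    ∃ (P : Matrix J J D) (Q : Matrix I I D) (c : J → Option I), IsUnit P ∧ IsUnit Q ∧
      A = P * (Matrix.of fun j i => if c j = some i then (1 : D) else 0) * Q := by
  classical
  obtain ⟨b, -, -, hb, hli⟩ := exists_linearIndepOn_extension (K := D) (v := fun j : J => A j)
    (linearIndepOn_empty D _) (Set.empty_subset Set.univ)
  obtain ⟨Q, hQ, hQ'⟩ := SkewL_basis hli.id_image
  have h1 : ∀ j : b, ∃ i, Q i = A j := fun j => hQ' _ ⟨j, j.2, rfl⟩
  choose c hc using h1
  have h2 : ∀ j, ∃ l : J → D, (∀ j', j' ∉ b → l j' = 0) ∧ ∑ j', l j' • A j' = A j := fun j => by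
    obtain ⟨l, hl, e⟩ := (Finsupp.mem_span_image_iff_linearCombination D).1 (hb ⟨j, trivial, rfl⟩)
    refine ⟨l, (Finsupp.mem_supported' D l).1 hl, ?_⟩
    rw [Finsupp.linearCombination_apply, Finsupp.sum_fintype _ _ (fun _ => by simp)] at e
    exact e
  choose l hl hl' using h2
  let N : Matrix J J D := Matrix.of fun j j' => if j ∈ b then 0 else l j j'
  have hN : N * N = 0 := by
    ext j j'
    refine Finset.sum_eq_zero fun k _ => ?_
    by_cases hk : k ∈ b
    · simp [N, hk]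
    · simp [N, hl j k hk]
  refine ⟨1 + N, Q, fun j => if h : j ∈ b then some (c ⟨j, h⟩) else none,
    ⟨⟨1 + N, 1 - N, ?_, ?_⟩, rfl⟩, hQ, ?_⟩
  · rw [add_mul, one_mul, mul_sub, mul_one, hN, sub_zero, sub_add_cancel]
  · rw [sub_mul, one_mul, mul_add, mul_one, hN, add_zero, add_sub_cancel_right]
  · have h3 : (Matrix.of fun j i => if (if h : j ∈ b then some (c ⟨j, h⟩) else none) = some i
        then (1 : D) else 0) * Q = Matrix.of fun j i => if j ∈ b then A j i else 0 := by
      ext j i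
      by_cases hj : j ∈ b
      · simp [Matrix.mul_apply, hj, hc]
      · simp [Matrix.mul_apply, hj]
    rw [Matrix.mul_assoc, h3, Matrix.add_mul, Matrix.one_mul]
    ext j i
    by_cases hj : j ∈ b
    · simp [Matrix.mul_apply, N, hj]
    · have h4 := congrFun (hl' j) i
      simp only [Finset.sum_apply, Pi.smul_apply, smul_eq_mul] at h4
      simp only [Matrix.add_apply, Matrix.of_apply, Matrix.mul_apply, N, hj, if_false, zero_add,
        ← h4]
      refine Finset.sum_congr rfl fun k _ => ?_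
      by_cases hk : k ∈ b
      · rw [if_pos hk]
      · rw [hl j k hk, zero_mul, zero_mul]

end Pool.Agent.Work.MP_735653_gt
end

-- merged part: Pool.Agent.Work.MP_735653_gt.Ati
section
/-! The Atiyah conjecture for free-by-cyclic groups. -/

namespace Pool.Agent.Work.MP_735653_gt

variable {G U : Type} [Group G] [Ring U] {j : VN G →+* U}

theorem IsFrac.nontrivial (hj : IsFrac j) : Nontrivial U :=
  (hj.inj.comp (toVN_injective (G := G))).nontrivial

theorem atiyah_of_isDiv (hj : IsFrac j) (hD : IsDiv (divCl (Set.range (j.comp (toVN G))))) :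
    Atiyah G := by
  intro m k A
  have := hj.nontrivial
  obtain ⟨D, hDd⟩ : ∃ D, D = divCl (Set.range (j.comp (toVN G))) := ⟨_, rfl⟩
  have hsub : ∀ x, j (toVN G x) ∈ D := fun x => hDd ▸ subset_divCl _ ⟨x, rfl⟩
  rw [← hDd] at hD
  let _ : DivisionRing D := DivisionRing.ofIsUnitOrEqZero fun x => by
    by_cases hx : x = 0
    · exact Or.inr hx
    · obtain ⟨y, hy, h1, h2⟩ := hD x x.2 fun h => hx (Subtype.ext h)
      exact Or.inl ⟨⟨x, ⟨y, hy⟩, Subtype.ext h1, Subtype.ext h2⟩, rfl⟩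
  obtain ⟨P, Q, c, hP, hQ, h⟩ := normal_form (D := D)
    (Matrix.of fun a b => (⟨j (toVN G (ct A a b)), hsub _⟩ : D))
  obtain ⟨z, hz⟩ := kd_pperm (G := G) c
  refine ⟨z, ?_⟩
  rw [rmul_eq, ← hz]
  refine hj.kd_eq (P := P.map D.subtype) (Q := Q.map D.subtype)
    (hP.map D.subtype.mapMatrix) (hQ.map D.subtype.mapMatrix) ?_
  have h' := congrArg (fun M => Matrix.map M D.subtype) h
  simp only [Matrix.map_mul] at h'
  refine Eq.trans ?_ (h'.trans ?_)
  · rfl
  · congr 2
    ext a b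
    simp only [Matrix.map_apply, Matrix.of_apply]
    split_ifs <;> simp

theorem Ati_conj (ι : ZG G →+* U) (H : Subgroup G) [hH : H.Normal] (g : G) :
    ∀ x ∈ Set.range (ι.comp (mapG H.subtype)),
      ι (MonoidAlgebra.single g 1) * x * ι (MonoidAlgebra.single g⁻¹ 1) ∈
        Set.range (ι.comp (mapG H.subtype)) := by
  rintro _ ⟨x, rfl⟩
  change _ ∈ (ι.comp (mapG H.subtype)).range
  induction x using MonoidAlgebra.induction_linear with
  | zero => simp
  | add a b ha hb =>
    rw [map_add, mul_add, add_mul]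
    exact add_mem ha hb
  | single h c =>
    refine ⟨MonoidAlgebra.single ⟨g * h * g⁻¹, hH.conj_mem _ h.2 g⟩ c, ?_⟩
    simp only [RingHom.comp_apply, ← map_mul]
    congr 1
    simp [MonoidAlgebra.single_mul_single]

theorem isDiv_cyc (hj : IsFrac j) (χ : G →* Multiplicative ℤ) (t : G)
    (ht : χ t = Multiplicative.ofAdd 1) {α : Type} [Fintype α] (e : χ.ker ≃* FreeGroup α) :
    IsDiv (divCl (Set.range (j.comp (toVN G)))) := by
  have := hj.nontrivial
  have h0 := isDiv_of_kd hj ((toVN G).comp (mapG χ.ker.subtype)) fun I _ B =>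
    jv e χ.ker.subtype χ.ker.subtype_injective B
  obtain ⟨u, hu⟩ : ∃ u : G →* Uˣ, ∀ g, (u g : U) = j (toVN G (MonoidAlgebra.single g 1)) :=
    ⟨((j.comp (toVN G)).toMonoidHom.comp (MonoidAlgebra.of ℤ G)).toHomUnits, fun _ => rfl⟩
  have hc : ∀ g, ∀ x ∈ divCl (Set.range (j.comp ((toVN G).comp (mapG χ.ker.subtype)))),
      (u g : U) * x * (↑(u g)⁻¹ : U) ∈
        divCl (Set.range (j.comp ((toVN G).comp (mapG χ.ker.subtype)))) := fun g =>
    conj_divCl (u g) fun x hx => by
      rw [← map_inv, hu, hu]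
      exact Ati_conj (j.comp (toVN G)) χ.ker g x hx
  obtain ⟨D, hD, hle, hτ⟩ := skew_laurent _ h0 (u t) (hc t)
    (fun x hx => by simpa only [map_inv, inv_inv] using hc t⁻¹ x hx)
    (laurent_unit hj χ t ht h0 (u t) (hu t))
  refine isDiv_of_le ?_ hD
  have hg : ∀ g, (u g : U) ∈ D := fun g => by
    have hk : g * (t ^ (χ g).toAdd)⁻¹ ∈ χ.ker := by
      rw [MonoidHom.mem_ker, map_mul, map_inv, map_zpow, ht, ← ofAdd_zsmul, smul_eq_mul, mul_one,
        ofAdd_toAdd, mul_inv_cancel]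
    have h1 : (u (g * (t ^ (χ g).toAdd)⁻¹) : U) ∈ D := by
      refine hle (subset_divCl _ ⟨MonoidAlgebra.single ⟨_, hk⟩ 1, ?_⟩)
      rw [hu]
      simp
    have h2 := mul_mem h1 (hτ (χ g).toAdd)
    rwa [← map_zpow, ← Units.val_mul, ← map_mul, inv_mul_cancel_right] at h2
  rintro _ ⟨x, rfl⟩
  induction x using MonoidAlgebra.induction_linear with
  | zero => simp
  | add a b ha hb =>
    rw [map_add]
    exact add_mem ha hb
  | single g c =>
    have : MonoidAlgebra.single g c = c • MonoidAlgebra.single g (1 : ℤ) := by simp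
    rw [this, map_zsmul]
    exact zsmul_mem (hu g ▸ hg g) c

end Pool.Agent.Work.MP_735653_gt
end

-- merged part: Pool.Agent.Work.MP_735653_gt.KTen
section
/-! Induced modules have finite free resolutions. -/

namespace Pool.Agent.Work.MP_735653_gt

open Pool.Agent.Work.MP_9d1ffa_al TensorProduct

theorem KTen_tensor (R : Type) [Ring R] [Module.Flat ℤ R] (A : Type) [AddCommGroup A]
    [Module.Finite ℤ A] : FF R 1 (R ⊗[ℤ] A) := by
  obtain ⟨b, f, hf⟩ := Module.Finite.exists_fin' ℤ A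
  let i : R ⊗[ℤ] LinearMap.ker f →ₗ[R] R ⊗[ℤ] (Fin b → ℤ) :=
    AlgebraTensorModule.lTensor R R (LinearMap.ker f).subtype
  let q : R ⊗[ℤ] (Fin b → ℤ) →ₗ[R] R ⊗[ℤ] A := AlgebraTensorModule.lTensor R R f
  have hi : Function.Injective i :=
    Module.Flat.lTensor_preserves_injective_linearMap _ (LinearMap.ker f).injective_subtype
  have he : Function.Exact i q := lTensor_exact R (LinearMap.exact_subtype_ker_map f) hf
  refine UFa_of_surj q (LinearMap.lTensor_surjective R hf) ?_
  have h0 : FF R 0 (R ⊗[ℤ] LinearMap.ker f) := ⟨inferInstance, inferInstance⟩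
  rw [LinearMap.exact_iff.1 he]
  exact h0.equiv (LinearEquiv.ofInjective i hi)

theorem ff_tensor (G : Type) [Group G] (A : Type) [AddCommGroup A] [Module.Finite ℤ A] :
    FF (ZG G) 1 (ZG G ⊗[ℤ] A) :=
  KTen_tensor (ZG G) A

theorem ff_pi {S : Type} [Ring S] {ι : Type} [Finite ι] (M : ι → Type) [∀ i, AddCommGroup (M i)]
    [∀ i, Module S (M i)] (h : ∀ i, ∃ n, FF S n (M i)) : ∃ n, FF S n (∀ i, M i) := by
  induction ι using Finite.induction_empty_option with
  | of_equiv e ih =>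
    obtain ⟨n, hn⟩ := ih (fun i => M (e i)) fun i => h (e i)
    exact ⟨n, hn.equiv (LinearEquiv.piCongrLeft S M e)⟩
  | h_empty => exact ⟨0, inferInstance, inferInstance⟩
  | h_option ih =>
    obtain ⟨n, hn⟩ := ih (fun i => M (some i)) fun i => h (some i)
    obtain ⟨k, hk⟩ := h none
    exact ⟨max k n, (FF.ext _ _ LinearMap.inl_injective Function.Exact.inl_snd
      LinearMap.snd_surjective (hk.mono (le_max_left _ _)) (hn.mono (le_max_right _ _))).equiv
        (LinearEquiv.piOptionEquivProd S).symm⟩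

theorem KTen_fpr {S : Type} [Ring S] {n : ℕ} {M : Type} [AddCommGroup M] [Module S M]
    (h : FF S n M) : FPR S n M := by
  induction n generalizing M with
  | zero =>
    obtain ⟨h1, h2⟩ := h
    exact ⟨h1, inferInstance⟩
  | succ n ih =>
    obtain ⟨k, f, hf, hk⟩ := h
    exact ⟨Fin k → S, inferInstance, inferInstance, f, inferInstance, inferInstance, hf, ih hk⟩

theorem k0_rc_of_ff (G : Type) [Group G]
    (h : ∀ (M : Type) [AddCommGroup M] [Module (ZG G) M],
      Module.FinitePresentation (ZG G) M → ∃ n, FF (ZG G) n M) : K0Zero G ∧ RC G := by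
  refine ⟨fun M _ _ h1 h2 => ?_, fun M _ _ h1 => ?_⟩
  · obtain ⟨n, hn⟩ := h M (Module.finitePresentation_of_projective _ _)
    exact hn.stablyFree h2
  · obtain ⟨n, hn⟩ := h M h1
    exact ⟨n, KTen_fpr hn⟩

theorem k0_rc_triv (H : Type) [Group H] [Subsingleton H] : K0Zero H ∧ RC H := by
  have hs : ∀ r : ZG H, ∃ k : ℤ, r = k • 1 := fun r => by
    induction r using MonoidAlgebra.induction_on with
    | of g => exact ⟨1, by rw [Subsingleton.elim g 1, map_one, one_smul]⟩
    | add a b ha hb =>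
      obtain ⟨k, rfl⟩ := ha
      obtain ⟨l, rfl⟩ := hb
      exact ⟨k + l, (add_smul _ _ _).symm⟩
    | smul c a ha =>
      obtain ⟨k, rfl⟩ := ha
      exact ⟨c * k, (mul_smul _ _ _).symm⟩
  refine k0_rc_of_ff H fun M _ _ hM => ⟨1, ?_⟩
  have : Module.Finite ℤ (ZG H) := Module.Finite.of_surjective
    (LinearMap.toSpanSingleton ℤ (ZG H) 1) fun r => (hs r).imp fun k hk => hk.symm
  have : Module.Finite ℤ M := Module.Finite.trans (ZG H) M
  let φ : ZG H ⊗[ℤ] M →ₗ[ZG H] M := AlgebraTensorModule.lift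
    (LinearMap.toSpanSingleton (ZG H) (M →ₗ[ℤ] M) LinearMap.id)
  have hφ : ∀ m : M, φ (1 ⊗ₜ m) = m := fun m => by simp [φ]
  have ht : ∀ t : ZG H ⊗[ℤ] M, (1 : ZG H) ⊗ₜ φ t = t := fun t => by
    induction t using TensorProduct.induction_on with
    | zero => simp
    | tmul r m =>
      obtain ⟨k, rfl⟩ := hs r
      rw [smul_tmul, hφ]
    | add a b ha hb => rw [map_add, tmul_add, ha, hb]
  exact (ff_tensor H M).equiv (LinearEquiv.ofBijective φ
    ⟨fun a b e => by rw [← ht a, e, ht], fun m => ⟨_, hφ m⟩⟩)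

end Pool.Agent.Work.MP_735653_gt
end

-- merged part: Pool.Agent.Work.MP_735653_gt.KMV
section
/-! Finitely presented modules over the group ring of a free group have finite free
resolutions. -/

namespace Pool.Agent.Work.MP_735653_gt

open Pool.Agent.Work.MP_9d1ffa_al TensorProduct

section
variable {G : Type} [Group G] {M : Type} [AddCommGroup M] [Module (ZG G) M]

/-- group elements in the group ring -/
noncomputable abbrev KMV_o (g : G) : ZG G := MonoidAlgebra.single g 1

theorem KMV_o_mul (g h : G) : KMV_o (g * h) = KMV_o g * KMV_o h := by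
  simp [KMV_o, MonoidAlgebra.single_mul_single]

theorem KMV_o_one : KMV_o (1 : G) = 1 := rfl

theorem KMV_cancel {N : Type} [AddCommGroup N] [Module (ZG G) N] (g : G) {a b : N}
    (h : KMV_o g • a = KMV_o g • b) : a = b := by
  have := congrArg (fun z => KMV_o g⁻¹ • z) h
  simpa only [← mul_smul, ← KMV_o_mul, inv_mul_cancel, KMV_o_one, one_smul] using this

/-- the edge group -/
def KMV_A (B : Submodule ℤ M) (x : G) : Submodule ℤ (B × B) where
  carrier := {p | (p.1 : M) = KMV_o x • (p.2 : M)}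
  add_mem' := by
    intro a b ha hb
    simp only [Set.mem_setOf_eq] at *
    simp [ha, hb]
  zero_mem' := by simp
  smul_mem' := by
    intro c a ha
    simp only [Set.mem_setOf_eq] at *
    simp [ha, smul_comm c]

/-- the edge map -/
noncomputable def KMV_phi (B : Submodule ℤ M) (x : G) :
    ZG G ⊗[ℤ] KMV_A B x →ₗ[ZG G] ZG G ⊗[ℤ] B :=
  AlgebraTensorModule.map LinearMap.id (LinearMap.fst ℤ B B ∘ₗ (KMV_A B x).subtype) -
    AlgebraTensorModule.map (LinearMap.toSpanSingleton (ZG G) (ZG G) (KMV_o x))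
      (LinearMap.snd ℤ B B ∘ₗ (KMV_A B x).subtype)

theorem KMV_phi_tmul (B : Submodule ℤ M) (x : G) (r : ZG G) (a : KMV_A B x) :
    KMV_phi B x (r ⊗ₜ a) = r ⊗ₜ a.1.1 - (r * KMV_o x) ⊗ₜ a.1.2 := by
  simp [KMV_phi]

/-- the augmentation -/
noncomputable def KMV_q (B : Submodule ℤ M) : ZG G ⊗[ℤ] B →ₗ[ZG G] M :=
  AlgebraTensorModule.lift (LinearMap.toSpanSingleton (ZG G) (B →ₗ[ℤ] M) B.subtype)

theorem KMV_q_tmul (B : Submodule ℤ M) (r : ZG G) (b : B) :
    KMV_q B (r ⊗ₜ b) = r • (b : M) := by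
  simp [KMV_q]

theorem KMV_q_phi (B : Submodule ℤ M) (x : G) (t : ZG G ⊗[ℤ] KMV_A B x) :
    KMV_q B (KMV_phi B x t) = 0 := by
  induction t using TensorProduct.induction_on with
  | zero => simp
  | add a b ha hb => simp [ha, hb]
  | tmul r a =>
    have ha : (a.1.1 : M) = KMV_o x • (a.1.2 : M) := a.2
    rw [KMV_phi_tmul, map_sub, KMV_q_tmul, KMV_q_tmul, ha, mul_smul, sub_self]

open Classical in
/-- coordinates -/
noncomputable def KMV_c (G : Type) [Group G] (A : Type) [AddCommGroup A] :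
    ZG G ⊗[ℤ] A ≃+ (G →₀ A) :=
  (TensorProduct.equivFinsuppOfBasisLeft (MonoidAlgebra.basis G ℤ)).toAddEquiv

theorem KMV_c_tmul (A : Type) [AddCommGroup A] (r : ZG G) (a : A) (g : G) :
    KMV_c G A (r ⊗ₜ a) g = r.coeff g • a := by
  classical
  exact TensorProduct.equivFinsuppOfBasisLeft_apply_tmul_apply (MonoidAlgebra.basis G ℤ) r a g

theorem KMV_c_phi (B : Submodule ℤ M) (x : G) (t : ZG G ⊗[ℤ] KMV_A B x) (g : G) :
    KMV_c G B (KMV_phi B x t) g = (KMV_c G _ t g).1.1 - (KMV_c G _ t (g * x⁻¹)).1.2 := by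
  induction t using TensorProduct.induction_on with
  | zero => simp
  | add a b ha hb =>
    simp only [map_add, Finsupp.add_apply, ha, hb, Submodule.coe_add, Prod.fst_add, Prod.snd_add]
    abel
  | tmul r a =>
    rw [KMV_phi_tmul, map_sub, Finsupp.sub_apply, KMV_c_tmul, KMV_c_tmul, KMV_c_tmul, KMV_c_tmul,
      MonoidAlgebra.coeff_mul_single_apply]
    simp

variable {α : Type} [Fintype α] [DecidableEq α]

/-- the total edge map -/
noncomputable def KMV_Phi (B : Submodule ℤ M) (x : α → G) :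
    (∀ s, ZG G ⊗[ℤ] KMV_A B (x s)) →ₗ[ZG G] ZG G ⊗[ℤ] B :=
  ∑ s, KMV_phi B (x s) ∘ₗ LinearMap.proj s

theorem KMV_Phi_apply (B : Submodule ℤ M) (x : α → G) (t : ∀ s, ZG G ⊗[ℤ] KMV_A B (x s)) :
    KMV_Phi B x t = ∑ s, KMV_phi B (x s) (t s) := by
  simp [KMV_Phi]

theorem KMV_inj (e : G ≃* FreeGroup α) (B : Submodule ℤ M) :
    Function.Injective (KMV_Phi B fun s => e.symm (FreeGroup.of s)) := by
  rw [injective_iff_map_eq_zero]
  intro t ht
  let c : FreeGroup α × α → B × B := fun y => (KMV_c G _ (t y.2) (e.symm y.1)).1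
  have hfin : (Function.support c).Finite := by
    refine (Set.finite_iUnion fun s : α => ((KMV_c G _ (t s)).support.finite_toSet.image
      fun g => (e g, s))).subset fun y hy => ?_
    refine Set.mem_iUnion.2 ⟨y.2, e.symm y.1, ?_, by simp⟩
    simp only [Finset.mem_coe, Finsupp.mem_support_iff]
    intro h
    exact hy (by simp [c, h])
  have hrel : ∀ y, ((c y).1 : M) = KMV_o (e.symm (FreeGroup.of y.2)) • ((c y).2 : M) :=
    fun y => (KMV_c G _ (t y.2) (e.symm y.1)).2
  let p : FreeGroup α × α →₀ B := Finsupp.ofSupportFinite (fun y => (c y).1)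
    (hfin.subset fun y hy h => hy (by simp [h]))
  let q : FreeGroup α × α →₀ B := Finsupp.ofSupportFinite (fun y => (c y).2)
    (hfin.subset fun y hy h => hy (by simp [h]))
  have hp : ∀ y, p y = (c y).1 := fun _ => rfl
  have hq : ∀ y, q y = (c y).2 := fun _ => rfl
  have h1 : ∀ y, p y = 0 ↔ q y = 0 := by
    intro y
    rw [hp, hq]
    constructor
    · intro h
      have h2 := hrel y
      rw [h] at h2
      refine Subtype.ext (KMV_cancel (e.symm (FreeGroup.of y.2)) ?_)
      rw [← h2]; simp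
    · intro h
      refine Subtype.ext ?_
      rw [hrel y, h]; simp
  have h0 : p = 0 := by
    refine leaf p q h1 fun y => ?_
    have h2 := congrArg (fun z => KMV_c G B z (e.symm y)) ht
    simp only [KMV_Phi_apply, map_sum, Finsupp.finsetSum_apply, KMV_c_phi, map_zero,
      Finsupp.zero_apply, Finset.sum_sub_distrib, sub_eq_zero] at h2
    simp only [hp, hq, c, map_mul, map_inv]
    exact h2
  funext s
  refine (KMV_c G _).injective (Finsupp.ext fun g => ?_)
  have h3 : p (e g, s) = 0 := by rw [h0]; rfl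
  have h4 := (h1 _).1 h3
  rw [hp] at h3
  rw [hq] at h4
  simp only [c, MulEquiv.symm_apply_apply] at h3 h4
  simp only [Pi.zero_apply, map_zero, Finsupp.zero_apply]
  exact Subtype.ext (Prod.ext h3 h4)

omit [Fintype α] in
theorem KMV_step (e : G ≃* FreeGroup α) {δ : G} (h : δ ≠ 1) : ∃ (s : α) (δ' : G),
    FreeGroup.norm (e δ') < FreeGroup.norm (e δ) ∧
      (δ = e.symm (FreeGroup.of s) * δ' ∨ δ' = e.symm (FreeGroup.of s) * δ) := by
  have h1 : e δ ∈ Set.range (far : FreeGroup α × α → FreeGroup α) := by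
    rw [range_far]; simpa using h
  obtain ⟨⟨y, s⟩, hy⟩ := h1
  unfold far at hy
  split_ifs at hy with h2
  · refine ⟨s, e.symm y, by simpa [← hy] using h2, Or.inl (e.injective ?_)⟩
    simpa using hy.symm
  · refine ⟨s, e.symm (FreeGroup.of s) * δ, ?_, Or.inr rfl⟩
    simp only at hy h2
    subst hy
    have := norm_of_mul s (e δ)
    simp only [map_mul, MulEquiv.apply_symm_apply]
    omega

theorem KMV_ball (e : G ≃* FreeGroup α) (N : ℕ) : {g | FreeGroup.norm (e g) ≤ N}.Finite := by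
  refine Set.Finite.of_finite_image (f := fun g => (e g).toWord)
    ((List.finite_length_le (α × Bool) N).subset ?_)
    (FreeGroup.toWord_injective.comp e.injective).injOn
  rintro _ ⟨g, hg, rfl⟩
  exact hg

theorem KMV_exact (e : G ≃* FreeGroup α) {k l : ℕ} (π : (Fin k → ZG G) →ₗ[ZG G] M)
    (ρ : (Fin l → ZG G) →ₗ[ZG G] (Fin k → ZG G)) (hex : Function.Exact ρ π) (N : ℕ)
    (hN : ∀ i j, ∀ g ∈ (ρ (Pi.single i 1) j).coeff.support, FreeGroup.norm (e g) ≤ N)
    (B : Submodule ℤ M) (hB : B = Submodule.span ℤ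
      {b | ∃ g j, FreeGroup.norm (e g) ≤ N ∧ b = KMV_o g • π (Pi.single j 1)}) :
    Function.Exact (KMV_Phi B fun s => e.symm (FreeGroup.of s)) (KMV_q B) := by
  set Φ := KMV_Phi B fun s => e.symm (FreeGroup.of s) with hΦ
  have hle : LinearMap.range Φ ≤ LinearMap.ker (KMV_q B) := by
    rintro _ ⟨t, rfl⟩
    simp [hΦ, KMV_Phi_apply, KMV_q_phi]
  have hmem : ∀ g j, FreeGroup.norm (e g) ≤ N → KMV_o g • π (Pi.single j 1) ∈ B :=
    fun g j hg => hB ▸ Submodule.subset_span ⟨g, j, hg, rfl⟩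
  let lam : B →+ (ZG G ⊗[ℤ] B) ⧸ LinearMap.range Φ :=
    AddMonoidHom.mk' (fun b => (LinearMap.range Φ).mkQ (1 ⊗ₜ b)) fun a b => by
      rw [TensorProduct.tmul_add, map_add]
  have hlam : ∀ (r : ZG G) (b : B), (LinearMap.range Φ).mkQ (r ⊗ₜ b) = r • lam b := by
    intro r b
    show _ = r • (LinearMap.range Φ).mkQ (1 ⊗ₜ b)
    rw [← map_smul, TensorProduct.smul_tmul', smul_eq_mul, mul_one]
  have hedge : ∀ s (b b' : B), (b : M) = KMV_o (e.symm (FreeGroup.of s)) • (b' : M) →
      lam b = KMV_o (e.symm (FreeGroup.of s)) • lam b' := by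
    intro s b b' h
    have h1 : (LinearMap.range Φ).mkQ (Φ (Pi.single s (1 ⊗ₜ ⟨(b, b'), h⟩))) = 0 := by
      simp
    rw [hΦ, KMV_Phi_apply, Finset.sum_eq_single s (fun s' _ hs => by simp [hs]) (by simp),
      Pi.single_eq_same, KMV_phi_tmul, map_sub, hlam, hlam, one_smul, one_mul] at h1
    exact sub_eq_zero.1 h1
  have h1N : FreeGroup.norm (e 1) ≤ N := by simp
  let m : Fin k → B := fun j => ⟨_, hmem 1 j h1N⟩
  have hm : ∀ j, (m j : M) = π (Pi.single j 1) := fun j => one_smul _ _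
  have hkey : ∀ (n : ℕ) g j (hg : FreeGroup.norm (e g) ≤ N), FreeGroup.norm (e g) = n →
      lam ⟨_, hmem g j hg⟩ = KMV_o g • lam (m j) := by
    intro n
    induction n using Nat.strong_induction_on with
    | _ n ih =>
      intro g j hg hn
      by_cases h1 : g = 1
      · subst h1
        exact (one_smul _ _).symm
      obtain ⟨s, g', hlt, h2⟩ := KMV_step e h1
      have hg' : FreeGroup.norm (e g') ≤ N := hlt.le.trans hg
      have h3 := ih _ (hn ▸ hlt) g' j hg' rfl
      rcases h2 with h2 | h2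
      · rw [hedge s _ ⟨_, hmem g' j hg'⟩ (by rw [← mul_smul, ← KMV_o_mul, ← h2]), h3,
          ← mul_smul, ← KMV_o_mul, ← h2]
      · refine KMV_cancel (e.symm (FreeGroup.of s)) ?_
        rw [← hedge s ⟨_, hmem g' j hg'⟩ _ (by rw [← mul_smul, ← KMV_o_mul, ← h2]), h3,
          ← mul_smul, ← KMV_o_mul, ← h2]
  have hsupp : ∀ j (r : ZG G), (∀ g ∈ r.coeff.support, FreeGroup.norm (e g) ≤ N) →
      ∃ b : B, (b : M) = r • π (Pi.single j 1) ∧ lam b = r • lam (m j) := by
    intro j r hr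
    have hr' : r = ∑ g ∈ r.coeff.support.attach, r.coeff g • KMV_o (g : G) := by
      conv_lhs => rw [← r.sum_coeff_single, Finsupp.sum, ← Finset.sum_attach]
      simp [KMV_o]
    refine ⟨∑ g ∈ r.coeff.support.attach, r.coeff g • ⟨_, hmem g j (hr g g.2)⟩, ?_, ?_⟩
    · conv_rhs => rw [hr', Finset.sum_smul]
      simp only [Submodule.coe_sum, Submodule.coe_smul, smul_assoc]
    · conv_rhs => rw [hr', Finset.sum_smul]
      simp only [map_sum, map_zsmul, smul_assoc]
      exact Finset.sum_congr rfl fun g _ => congrArg _ (hkey _ _ _ (hr g g.2) rfl)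
  let ψ : (Fin k → ZG G) →ₗ[ZG G] (ZG G ⊗[ℤ] B) ⧸ LinearMap.range Φ :=
    Fintype.linearCombination (ZG G) fun j => lam (m j)
  have hπ : ∀ v, π v = ∑ j, v j • π (Pi.single j 1) := by
    intro v
    conv_lhs => rw [pi_eq_sum_univ' v]
    simp only [map_sum, map_smul]
  have hψρ : ψ ∘ₗ ρ = 0 := by
    refine LinearMap.pi_ext' fun i => LinearMap.ext_ring ?_
    choose b hb1 hb2 using fun j => hsupp j _ (hN i j)
    have h0 : ∑ j, b j = 0 := by
      refine Subtype.ext ?_
      rw [Submodule.coe_sum, Finset.sum_congr rfl fun j _ => hb1 j, ← hπ]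
      exact hex.apply_apply_eq_zero _
    simp only [ψ, LinearMap.comp_apply, LinearMap.coe_single, Fintype.linearCombination_apply,
      ← hb2, LinearMap.zero_apply, ← map_sum, h0, map_zero]
  have hsurj : ∀ b : B, lam b ∈ LinearMap.range ψ := by
    rintro ⟨b, hb⟩
    have hb' := hb
    rw [hB] at hb'
    induction hb' using Submodule.span_induction with
    | mem x hx =>
      obtain ⟨g, j, hg, rfl⟩ := hx
      rw [hkey _ g j hg rfl]
      exact Submodule.smul_mem _ _ ⟨Pi.single j 1, by simp [ψ]⟩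
    | zero => exact (congrArg lam rfl).trans (map_zero lam) ▸ zero_mem _
    | add x y hx hy ihx ihy =>
      have := add_mem (ihx (hB ▸ hx)) (ihy (hB ▸ hy))
      rwa [← map_add] at this
    | smul a x hx ih =>
      have := zsmul_mem (ih (hB ▸ hx)) a
      rwa [← map_zsmul] at this
  let qb := (LinearMap.range Φ).liftQ (KMV_q B) hle
  have hqψ : ∀ v, qb (ψ v) = π v := by
    intro v
    rw [hπ]
    simp only [ψ, Fintype.linearCombination_apply, map_sum, map_smul]
    refine Finset.sum_congr rfl fun j _ => congrArg _ ?_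
    rw [← one_smul (ZG G) (lam (m j)), ← hlam]
    exact (KMV_q_tmul B 1 (m j)).trans ((one_smul _ _).trans (hm j))
  refine LinearMap.exact_iff.2 (le_antisymm (fun z hz => ?_) hle)
  have h1 : (LinearMap.range Φ).mkQ z ∈ LinearMap.range ψ := by
    clear hz
    induction z using TensorProduct.induction_on with
    | zero => simp
    | add a b ha hb => rw [map_add]; exact add_mem ha hb
    | tmul r b => rw [hlam]; exact Submodule.smul_mem _ _ (hsurj b)
  obtain ⟨v, hv⟩ := h1
  have h2 : π v = 0 := by rw [← hqψ, hv]; exact hz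
  obtain ⟨w, rfl⟩ := (hex v).1 h2
  have h3 : ψ (ρ w) = 0 := LinearMap.congr_fun hψρ w
  rw [h3] at hv
  exact (Submodule.Quotient.mk_eq_zero _).1 hv.symm

end

theorem ff_free {G α : Type} [Group G] [Fintype α] (e : G ≃* FreeGroup α) (M : Type)
    [AddCommGroup M] [Module (ZG G) M] (h : Module.FinitePresentation (ZG G) M) :
    ∃ n, FF (ZG G) n M := by
  classical
  obtain ⟨k, l, π, ρ, hπ, hex⟩ := Module.FinitePresentation.exists_fin' (ZG G) M
  let N := Finset.univ.sup fun ij : Fin l × Fin k =>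
    (ρ (Pi.single ij.1 1) ij.2).coeff.support.sup fun g => FreeGroup.norm (e g)
  have hN : ∀ i j, ∀ g ∈ (ρ (Pi.single i 1) j).coeff.support, FreeGroup.norm (e g) ≤ N :=
    fun i j g hg => (Finset.le_sup (f := fun g => FreeGroup.norm (e g)) hg).trans
      (Finset.le_sup (f := fun ij : Fin l × Fin k =>
        (ρ (Pi.single ij.1 1) ij.2).coeff.support.sup fun g => FreeGroup.norm (e g))
        (Finset.mem_univ (i, j)))
  let S : Set M := {b | ∃ g j, FreeGroup.norm (e g) ≤ N ∧ b = KMV_o g • π (Pi.single j 1)}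
  have hS : S.Finite := by
    refine (((KMV_ball e N).prod (Set.finite_univ (α := Fin k))).image
      fun p => KMV_o p.1 • π (Pi.single p.2 1)).subset ?_
    rintro _ ⟨g, j, hg, rfl⟩
    exact ⟨(g, j), ⟨hg, trivial⟩, rfl⟩
  let B := Submodule.span ℤ S
  have hfin : Module.Finite ℤ B := Module.Finite.span_of_finite ℤ hS
  have hq : Function.Surjective (KMV_q (G := G) B) := by
    intro z
    obtain ⟨v, rfl⟩ := hπ z
    refine ⟨∑ j, v j ⊗ₜ ⟨KMV_o (1 : G) • π (Pi.single j 1),
      Submodule.subset_span ⟨1, j, by simp, rfl⟩⟩, ?_⟩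
    conv_rhs => rw [pi_eq_sum_univ' v]
    simp only [map_sum, map_smul, KMV_q_tmul, KMV_o_one, one_smul]
  obtain ⟨n, hn⟩ := ff_pi (S := ZG G)
    (fun s : α => ZG G ⊗[ℤ] KMV_A B (e.symm (FreeGroup.of s))) fun s => ⟨1, ff_tensor G _⟩
  exact FF.coker _ _ (KMV_inj e B) (KMV_exact e π ρ hex N hN B rfl) hq hn (ff_tensor G B)

end Pool.Agent.Work.MP_735653_gt
end
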