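import Mathlib

/-! Regular level sets are smooth manifolds. -/

namespace Pool.Agent.Work.MP_735653_gt

open scoped Manifold ContDiff

theorem Level_equiv {n : ℕ} (L : (Fin n → ℝ) →L[ℝ] ℝ) (i : Fin n) (h : L (Pi.single i 1) ≠ 0) :
    ∃ e : (Fin n → ℝ) ≃L[ℝ] (Fin n → ℝ), ∀ v, e v = Function.update v i (L v) := by
  let A : (Fin n → ℝ) →ₗ[ℝ] (Fin n → ℝ) :=
    { toFun := fun v => Function.update v i (L v)
      map_add' := by
        intro u v
        funext j
        by_cases hj : j = i
        · subst hj; simp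
        · simp [hj]
      map_smul' := by
        intro a v
        funext j
        by_cases hj : j = i
        · subst hj; simp
        · simp [hj] }
  have hA : Function.Injective A := by
    rw [injective_iff_map_eq_zero]
    intro v hv
    have h1 : ∀ j, Function.update v i (L v) j = 0 := fun j => congrFun hv j
    have h2 : v = v i • Pi.single i (1 : ℝ) := by
      funext j
      by_cases hj : j = i
      · subst hj; simp
      · have := h1 j
        rw [Function.update_of_ne hj] at this
        simp [hj, this]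
    have h3 : L v = 0 := by simpa using h1 i
    rw [h2, map_smul, smul_eq_mul, mul_eq_zero] at h3
    rw [h2, h3.resolve_right h, zero_smul]
  exact ⟨(LinearEquiv.ofInjectiveEndo A hA).toContinuousLinearEquiv, fun v => rfl⟩

theorem Level_smooth {n : ℕ} {F : (Fin n → ℝ) → ℝ} (hF : ContDiff ℝ ∞ F) (i : Fin n) :
    ContDiff ℝ ∞ fun x => Function.update x i (F x) := by
  refine contDiff_pi.2 fun j => ?_
  by_cases hj : j = i
  · subst hj
    simpa using hF
  · simp only [Function.update_of_ne hj]
    exact contDiff_apply ℝ ℝ j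

theorem Level_deriv {n : ℕ} {F : (Fin n → ℝ) → ℝ} (hF : ContDiff ℝ ∞ F) (i : Fin n)
    {x : Fin n → ℝ} (h : fderiv ℝ F x (Pi.single i 1) ≠ 0) :
    ∃ e : (Fin n → ℝ) ≃L[ℝ] (Fin n → ℝ), HasFDerivAt (fun x => Function.update x i (F x))
      (e : (Fin n → ℝ) →L[ℝ] (Fin n → ℝ)) x := by
  obtain ⟨e, he⟩ := Level_equiv (fderiv ℝ F x) i h
  refine ⟨e, hasFDerivAt_pi'.2 fun j => ?_⟩
  by_cases hj : j = i
  · subst hj
    simp only [Function.update_self]
    refine (hF.differentiable (by simp) x).hasFDerivAt.congr_fderiv ?_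
    ext1 v
    simp [he]
  · simp only [Function.update_of_ne hj]
    refine (hasFDerivAt_apply j x).congr_fderiv ?_
    ext1 v
    simp [he, hj]

theorem Level_local {n : ℕ} {F : (Fin n → ℝ) → ℝ} (hF : ContDiff ℝ ∞ F) (i : Fin n)
    {p : Fin n → ℝ} (h : fderiv ℝ F p (Pi.single i 1) ≠ 0) :
    ∃ Φ : OpenPartialHomeomorph (Fin n → ℝ) (Fin n → ℝ), p ∈ Φ.source ∧
      (∀ x, Φ x = Function.update x i (F x)) ∧ ContDiffOn ℝ ∞ Φ.symm Φ.target := by
  obtain ⟨e, he⟩ := Level_deriv hF i h
  have hs := Level_smooth hF i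
  have hU : IsOpen {x | fderiv ℝ F x (Pi.single i 1) ≠ 0} :=
    isOpen_ne_fun ((hF.continuous_fderiv (by simp)).clm_apply continuous_const) continuous_const
  let Φ := (hs.contDiffAt.toOpenPartialHomeomorph _ he (by simp)).restrOpen _ hU
  refine ⟨Φ, ⟨hs.contDiffAt.mem_toOpenPartialHomeomorph_source he (by simp), h⟩, fun x => rfl,
    fun y hy => ?_⟩
  obtain ⟨e', he'⟩ := Level_deriv hF i (Φ.map_target hy).2
  exact (Φ.contDiffAt_symm hy he' hs.contDiffAt).contDiffWithinAt

theorem Level_ins {d : ℕ} (i : Fin (d + 1)) (c : ℝ) :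
    ContDiff ℝ ∞ fun y : EuclideanSpace ℝ (Fin d) =>
      (i.insertNth c y.ofLp : Fin (d + 1) → ℝ) := by
  refine contDiff_pi.2 fun j => ?_
  refine Fin.succAboveCases i ?_ (fun k => ?_) j
  · simpa using contDiff_const
  · simp only [Fin.insertNth_apply_succAbove]
    fun_prop

theorem Level_rem {d : ℕ} (i : Fin (d + 1)) :
    ContDiff ℝ ∞ fun x : Fin (d + 1) → ℝ =>
      (WithLp.toLp 2 (i.removeNth x) : EuclideanSpace ℝ (Fin d)) := by
  rw [contDiff_euclidean]
  intro k
  exact contDiff_apply ℝ ℝ (i.succAbove k)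

theorem Level_chart {d : ℕ} {F : (Fin (d + 1) → ℝ) → ℝ} (hF : ContDiff ℝ ∞ F) {c : ℝ}
    (p : {x // F x = c}) {i : Fin (d + 1)} (h : fderiv ℝ F p.1 (Pi.single i 1) ≠ 0) :
    ∃ e : OpenPartialHomeomorph {x // F x = c} (EuclideanSpace ℝ (Fin d)), p ∈ e.source ∧
      (∀ x, e x = WithLp.toLp 2 (i.removeNth x.1)) ∧
      ContDiffOn ℝ ∞ (fun y => (e.symm y).1) e.target := by
  classical
  obtain ⟨Φ, hp, hΦ, hs⟩ := Level_local hF i h
  have h1 : ∀ x : {x // F x = c}, i.insertNth c (i.removeNth x.1) = Φ x.1 := by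
    intro x
    rw [hΦ, x.2, Fin.insertNth_removeNth]
  have h2 : ∀ y : Fin d → ℝ, i.insertNth c y ∈ Φ.target → F (Φ.symm (i.insertNth c y)) = c := by
    intro y hy
    have := congrFun (Φ.right_inv hy) i
    rwa [hΦ, Function.update_self, Fin.insertNth_apply_same] at this
  let g : EuclideanSpace ℝ (Fin d) → {x // F x = c} := fun y =>
    if hy : F (Φ.symm (i.insertNth c y.ofLp)) = c then ⟨_, hy⟩ else p
  have h3 : ∀ y : EuclideanSpace ℝ (Fin d), i.insertNth c y.ofLp ∈ Φ.target →
      (g y).1 = Φ.symm (i.insertNth c y.ofLp) := by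
    intro y hy
    simp only [g, dif_pos (h2 _ hy)]
  have h4 : ContDiffOn ℝ ∞ (fun y => (g y).1)
      {y : EuclideanSpace ℝ (Fin d) | i.insertNth c y.ofLp ∈ Φ.target} :=
    (hs.comp (Level_ins i c).contDiffOn fun y hy => hy).congr h3
  refine ⟨{ toFun := fun x => WithLp.toLp 2 (i.removeNth x.1)
            invFun := g
            source := {x | x.1 ∈ Φ.source}
            target := {y : EuclideanSpace ℝ (Fin d) |
              (i.insertNth c y.ofLp : Fin (d + 1) → ℝ) ∈ Φ.target}
            map_source' := fun x hx => ?_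
            map_target' := fun y hy => ?_
            left_inv' := fun x hx => ?_
            right_inv' := fun y hy => ?_
            open_source := Φ.open_source.preimage continuous_subtype_val
            open_target := Φ.open_target.preimage (Level_ins i c).continuous
            continuousOn_toFun := ((Level_rem i).continuous.comp continuous_subtype_val).continuousOn
            continuousOn_invFun :=
              Topology.IsInducing.subtypeVal.continuousOn_iff.2 h4.continuousOn },
    hp, fun x => rfl, h4⟩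
  · show i.insertNth c (i.removeNth x.1) ∈ Φ.target
    rw [h1]
    exact Φ.map_source hx
  · show (g y).1 ∈ Φ.source
    rw [h3 y hy]
    exact Φ.map_target hy
  · have h5 : i.insertNth c (i.removeNth x.1) ∈ Φ.target := by
      rw [h1]
      exact Φ.map_source hx
    apply Subtype.ext
    rw [h3 _ h5]
    show Φ.symm (i.insertNth c (i.removeNth x.1)) = x.1
    rw [h1]
    exact Φ.left_inv hx
  · have h5 := congrArg (Fin.removeNth i) (Φ.right_inv hy)
    rw [hΦ, Fin.removeNth_update, Fin.removeNth_insertNth] at h5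
    show WithLp.toLp 2 (i.removeNth (g y).1) = y
    rw [h3 y hy, h5]

theorem level_manifold {d : ℕ} (F : (Fin (d + 1) → ℝ) → ℝ) (hF : ContDiff ℝ ∞ F) (c : ℝ)
    (h : ∀ x, F x = c → ∃ i, fderiv ℝ F x (Pi.single i 1) ≠ 0) :
    ∃ _ : ChartedSpace (EuclideanSpace ℝ (Fin d)) {x // F x = c},
      IsManifold (𝓡 d) ∞ {x // F x = c} := by
  choose i hi using fun p : {x // F x = c} => h p.1 p.2
  choose e h1 h2 h3 using fun p : {x // F x = c} => Level_chart hF p (hi p)
  let C : ChartedSpace (EuclideanSpace ℝ (Fin d)) {x // F x = c} :=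
    { atlas := Set.range e
      chartAt := e
      mem_chart_source := h1
      chart_mem_atlas := fun p => Set.mem_range_self p }
  refine ⟨C, isManifold_of_contDiffOn _ _ _ ?_⟩
  rintro _ _ ⟨p, rfl⟩ ⟨q, rfl⟩
  refine (((Level_rem (i q)).comp_contDiffOn (h3 p)).mono fun y hy => hy.1.1).congr fun y _ => ?_
  exact h2 q _

end Pool.Agent.Work.MP_735653_gt
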