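import Mathlib

/-! Polytope groups, Wh-AC groups, singular chains and the polytope of the universal L2-torsion. -/

namespace Pool.Agent.Work.MP_735653_gt.St

open Pointwise

/-- the integral group ring -/
abbrev ZG (G : Type) [Group G] : Type := MonoidAlgebra ℤ G

/-! ### The polytope group -/

section

variable (V : Type) [AddCommGroup V] [Module ℝ V]

/-- polytopes in `V` under Minkowski sum -/
def polys : AddSubmonoid (Set V) where
  carrier := {P | ∃ T : Finset V, T.Nonempty ∧ P = convexHull ℝ (T : Set V)}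
  zero_mem' := ⟨{0}, Finset.singleton_nonempty _, by
    rw [Finset.coe_singleton, convexHull_singleton]; rfl⟩
  add_mem' := by
    classical
    rintro _ _ ⟨S, hS, rfl⟩ ⟨T, hT, rfl⟩
    exact ⟨S + T, hS.add hT, by rw [Finset.coe_add, convexHull_add]⟩

/-- two polytopes are identified if they differ by a translation -/
def transl : AddCon (polys V) where
  r P Q := ∃ v : V, (Q : Set V) = {v} + (P : Set V)
  iseqv :=
    ⟨fun P => ⟨0, (zero_add (P : Set V)).symm⟩,
     fun ⟨v, h⟩ => ⟨-v, by
      rw [h, ← add_assoc, Set.singleton_add_singleton, neg_add_cancel]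
      exact (zero_add _).symm⟩,
     fun ⟨v, h⟩ ⟨w, h'⟩ => ⟨w + v, by rw [h', h, ← add_assoc, Set.singleton_add_singleton]⟩⟩
  add' := fun ⟨v, h⟩ ⟨w, h'⟩ => ⟨v + w, by
    rw [AddSubmonoid.coe_add, AddSubmonoid.coe_add, h, h', add_add_add_comm,
      Set.singleton_add_singleton]⟩

/-- the Grothendieck group of translation classes of polytopes -/
def GG : Type := Algebra.GrothendieckAddGroup (transl V).Quotient

/-- the group structure of the Grothendieck group -/
noncomputable instance instGG : AddCommGroup (GG V) :=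
  Algebra.GrothendieckAddGroup.instAddCommGroup

variable {V}

/-- the class of the convex hull of a nonempty finite set -/
noncomputable def hull (T : Finset V) (h : T.Nonempty) : GG V :=
  Algebra.GrothendieckAddGroup.of
    ((⟨convexHull ℝ (T : Set V), T, h, rfl⟩ : polys V) : (transl V).Quotient)

end

/-- the polytope group of `ℝ^n` -/
abbrev PG (n : ℕ) : Type := GG (Fin n → ℝ)

open Classical in
/-- the class of the convex hull of a nonempty finite set of lattice points -/
noncomputable def cls {n : ℕ} (T : Finset (Fin n → ℤ)) : PG n :=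
  if h : T.Nonempty then hull (T.image fun v i => (v i : ℝ)) (h.image _) else 0

/-! ### Operators on `ℓ²` -/

/-- square summable functions -/
abbrev L2 (X : Type) : Type := lp (fun _ : X => ℂ) 2

/-- a finite Hilbert sum of copies of `ℓ²(X)` -/
abbrev HS (I X : Type) : Type := PiLp 2 fun _ : I => L2 X

/-- coordinates of a vector -/
def fn {I X : Type} (v : HS I X) (i : I) (x : X) : ℂ := v i x

/-- precomposition with an injective map -/
def res {X Y : Type} (f : Y → X) (hf : Function.Injective f) (v : L2 X) : L2 Y :=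
  ⟨fun y => v (f y), memℓp_gen (((lp.memℓp v).summable (by norm_num)).comp_injective hf)⟩

/-- the squared norm of the orthogonal projection of `e` to the closed span of `S` -/
noncomputable def wt {H : Type} [NormedAddCommGroup H] [InnerProductSpace ℂ H] [CompleteSpace H]
    (S : Set H) (e : H) : ℝ :=
  ‖(Submodule.span ℂ S).topologicalClosure.starProjection e‖ ^ 2

section

variable {G : Type} [Group G]

/-- left translation `δ_x ↦ δ_{g x}` -/
def lam (g : G) : L2 G → L2 G := res (fun x => g⁻¹ * x) (mul_right_injective _)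

/-- right translation `δ_x ↦ δ_{x g⁻¹}` -/
def rho (g : G) : L2 G → L2 G := res (fun x => x * g) (mul_left_injective _)

/-- the map `v ↦ v A` of a matrix over the group ring, in coordinates -/
noncomputable def rmul {I J : Type} [Fintype I] (A : Matrix I J (ZG G)) (v : I → G → ℂ) (j : J)
    (x : G) : ℂ :=
  ∑ i, (A i j).coeff.sum fun g c => (c : ℂ) * v i (x * g⁻¹)

open Classical in
/-- the von Neumann dimension of the closed span of a set: the trace of the projection -/
noncomputable def vnDim {I : Type} [Fintype I] (S : Set (HS I G)) : ℝ :=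
  ∑ i, wt S (PiLp.single 2 i (lp.single 2 (1 : G) (1 : ℂ)))

variable (G)

/-- the Atiyah conjecture for a torsion-free group -/
def Atiyah : Prop :=
  ∀ (m k : ℕ) (A : Matrix (Fin m) (Fin k) (ZG G)),
    ∃ z : ℤ, vnDim {v : HS (Fin m) G | ∀ j x, rmul A (fn v) j x = 0} = z

/-- the Whitehead group vanishes: an invertible matrix is stably a product of elementary matrices
and diagonal matrices with entries `± g` -/
def WhZero : Prop :=
  ∀ (m : ℕ) (A : Matrix (Fin m) (Fin m) (ZG G)), IsUnit A → ∃ k : ℕ,
    Matrix.fromBlocks A 0 0 (1 : Matrix (Fin k) (Fin k) (ZG G)) ∈ Submonoid.closure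
      {B | (∃ i j r, i ≠ j ∧ B = 1 + Matrix.single i j r) ∨
        ∃ (g : Fin m ⊕ Fin k → G) (ε : Fin m ⊕ Fin k → ℤˣ),
          B = Matrix.diagonal fun i => MonoidAlgebra.single (g i) (ε i : ℤ)}

/-- torsion-free, trivial Whitehead group, Atiyah conjecture -/
def WhAC : Prop := (∀ (g : G) (k : ℕ), 0 < k → g ^ k = 1 → g = 1) ∧ WhZero G ∧ Atiyah G

variable {G}

/-- `Γ` is a bijection from the ring `U` onto the graphs of the closed densely defined operators on
`H` that commute with all `l g`, sums and products are the closures of the sums and products of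
operators, and `ι` sends `g` to `r g`. For `H = ℓ²(G)` with the left and right translations, `U` is
the algebra of operators affiliated to the group von Neumann algebra. -/
structure IsAffil {H U : Type} [NormedAddCommGroup H] [NormedSpace ℂ H] [Ring U]
    (l r : G → H → H) (Γ : U → Set (H × H)) (ι : ZG G →+* U) : Prop where
  inj : Function.Injective Γ
  range : ∀ W, W ∈ Set.range Γ ↔ (∃ M : Submodule ℂ (H × H), W = M) ∧ IsClosed W ∧
    (∀ y, (0, y) ∈ W → y = 0) ∧ Dense (Prod.fst '' W) ∧ ∀ g, ∀ p ∈ W, (l g p.1, l g p.2) ∈ W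
  add : ∀ u v, Γ (u + v) = closure {p | ∃ y z, (p.1, y) ∈ Γ u ∧ (p.1, z) ∈ Γ v ∧ p.2 = y + z}
  mul : ∀ u v, Γ (u * v) = closure {p | ∃ y, (p.1, y) ∈ Γ v ∧ (y, p.2) ∈ Γ u}
  gen : ∀ g p, p ∈ Γ (ι (MonoidAlgebra.single g 1)) ↔ p.2 = r g p.1

/-- the reduced `ℓ²`-homology of the complex `v ↦ v A` vanishes -/
def L2Acyc {I : Type} [Fintype I] (A : Matrix I I (ZG G)) : Prop :=
  ∀ v : HS I G, (∀ j x, rmul A (fn v) j x = 0) →
    v ∈ closure {w : HS I G | ∃ u : HS I G, fn w = rmul A (fn u)}

end

/-- the division closure of a subset of a ring -/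
def divCl {U : Type} [Ring U] (S : Set U) : Subring U :=
  sInf {D | S ⊆ D ∧ ∀ u : Uˣ, (u : U) ∈ D → (↑u⁻¹ : U) ∈ D}

/-! ### Singular chains -/

/-- singular `q`-simplices -/
def Sm (X : Type) [TopologicalSpace X] (q : ℕ) : Type := C(stdSimplex ℝ (Fin (q + 1)), X)

/-- singular simplices of all degrees -/
abbrev Sx (X : Type) [TopologicalSpace X] : Type := Σ q : ℕ, Sm X q

/-- integral singular chains of all degrees -/
abbrev SC (X : Type) [TopologicalSpace X] : Type := Sx X →₀ ℤ

section

variable {X : Type} [TopologicalSpace X]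

/-- faces of a singular simplex -/
noncomputable def face {q : ℕ} (s : Sm X (q + 1)) (i : Fin (q + 2)) : Sm X q :=
  ContinuousMap.comp s ⟨stdSimplex.map i.succAbove, stdSimplex.continuous_map _⟩

/-- boundary of a singular simplex -/
noncomputable def sbd1 : Sx X → SC X
  | ⟨0, _⟩ => 0
  | ⟨q + 1, s⟩ => ∑ i : Fin (q + 2), Finsupp.single ⟨q, face s i⟩ ((-1) ^ (i : ℕ))

/-- the singular boundary -/
noncomputable def sbd (c : SC X) : SC X := c.sum fun s k => k • sbd1 s

variable (X) in
/-- the singular homology in degree `d` is not zero; for a closed connected `d`-manifold this is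
orientability -/
def Orientable (d : ℕ) : Prop :=
  ∃ z : SC X, (∀ s ∈ z.support, s.1 = d) ∧ sbd z = 0 ∧ ¬ ∃ c, sbd c = z

variable {G : Type} [Group G] [MulAction G X] [ContinuousConstSMul G X]

/-- the translate of a singular simplex -/
def act (g : G) (s : Sx X) : Sx X :=
  ⟨s.1, ContinuousMap.comp ⟨fun x => g • x, continuous_const_smul g⟩ s.2⟩

variable {I : Type} [Fintype I]

/-- the equivariant map `x ↦ ∑ x_i f_i` -/
noncomputable def ev (f : I → SC X) (x : I → ZG G) : SC X :=
  ∑ i, (x i).coeff.sum fun g k => k • Finsupp.mapDomain (act g) (f i)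

/-- the finite based free chain complex with basis `I`, degrees `deg` and differential
`x ↦ x A` maps by `e_i ↦ f_i` to the singular chains, by a chain map that induces an isomorphism in
homology -/
structure IsModel (deg : I → ℤ) (A : Matrix I I (ZG G)) (f : I → SC X) : Prop where
  degA : ∀ i j, A i j ≠ 0 → deg i = deg j + 1
  sq : A * A = 0
  degf : ∀ i, ∀ s ∈ (f i).support, (s.1 : ℤ) = deg i
  chain : ∀ i, sbd (f i) = ev f (A i)
  inj : ∀ x : I → ZG G, Matrix.vecMul x A = 0 → (∃ c, sbd c = ev f x) →
    ∃ y, Matrix.vecMul y A = x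
  surj : ∀ z, sbd z = 0 →
    ∃ (x : I → ZG G) (c : SC X), Matrix.vecMul x A = 0 ∧ z = ev f x + sbd c

end

/-! ### Torsion and its polytope -/

/-- products of elementary matrices -/
def Elem (D ι : Type) [Ring D] [Fintype ι] [DecidableEq ι] : Submonoid (Matrix ι ι D) :=
  Submonoid.closure {B | ∃ i j r, i ≠ j ∧ B = 1 + Matrix.single i j r}

/-- the complex `x ↦ x A` over `D` has a contraction `γ`, and the Dieudonne determinant of
`A + γ` from odd to even degrees is, up to sign, the product of the `u i` -/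
def IsTorsion {D I : Type} [Ring D] [Fintype I] [DecidableEq I] (deg : I → ℤ) (A : Matrix I I D)
    (u : {i // Odd (deg i)} → D) : Prop :=
  ∃ (γ : Matrix I I D) (e : {i // Odd (deg i)} ≃ {i // Even (deg i)}),
    (∀ i j, γ i j ≠ 0 → deg j = deg i + 1) ∧ A * γ + γ * A = 1 ∧
    ∃ E₁ ∈ Elem D {i // Odd (deg i)}, ∃ E₂ ∈ Elem D {i // Odd (deg i)},
      (A + γ).submatrix Subtype.val (fun i => (e i).val) = E₁ * Matrix.diagonal u * E₂

section

variable {G U : Type} [Group G] [Ring U] {n : ℕ}

/-- `f` is a nonzero element `∑ a_h s(h)` of the crossed product, with coefficients in the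
division closure of the group ring of the kernel of `ν`, and `T` is its support -/
def IsPoly (ι : ZG G →+* U) (ν : G → Fin n → ℤ) (s : (Fin n → ℤ) → G) (f : U)
    (T : Finset (Fin n → ℤ)) : Prop :=
  T.Nonempty ∧ ∃ a : (Fin n → ℤ) → U,
    (∀ h ∈ T, a h ≠ 0 ∧ a h ∈ divCl (ι '' {x | ∀ g ∈ x.coeff.support, ν g = 0})) ∧
    f = ∑ h ∈ T, a h * ι (MonoidAlgebra.single (s h) 1)

/-- `ν` is a homomorphism that identifies the abelianisation modulo torsion with `ℤ^n`, and `s` is
a section of `ν` -/
structure IsAbFree (ν : G → Fin n → ℤ) (s : (Fin n → ℤ) → G) : Prop where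
  hom : ∀ g h, ν (g * h) = ν g + ν h
  sec : ∀ h, ν (s h) = h
  ker : ∀ g, ν g = 0 ↔ ∃ k : ℕ, 0 < k ∧ g ^ k ∈ commutator G

/-- the torsion of the complex `x ↦ x A` over the division closure of the group ring in `U` has
the polytope `-Q` -/
def TorPoly (ι : ZG G →+* U) (ν : G → Fin n → ℤ) (s : (Fin n → ℤ) → G)
    {I : Type} [Fintype I] [DecidableEq I] (deg : I → ℤ) (A : Matrix I I (ZG G)) (Q : PG n) :
    Prop :=
  ∃ (A' : Matrix I I (divCl (Set.range ι))) (u : {i // Odd (deg i)} → divCl (Set.range ι))
    (a b : {i // Odd (deg i)} → U) (T T' : {i // Odd (deg i)} → Finset (Fin n → ℤ)),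
    (∀ i j, (A' i j : U) = ι (A i j)) ∧ IsTorsion deg A' u ∧
    (∀ i, (u i : U) * b i = a i ∧ IsPoly ι ν s (a i) (T i) ∧ IsPoly ι ν s (b i) (T' i)) ∧
    Q = -∑ i, (cls (T i) - cls (T' i))

end

/-- the quotient of the simply connected space `E` by `G` is L2-acyclic and its polytope is `Q` -/
def Realises (G E : Type) [Group G] [TopologicalSpace E] [MulAction G E] [ContinuousConstSMul G E]
    {n : ℕ} (Q : PG n) : Prop :=
  ∃ (I : Type) (_ : Fintype I) (_ : DecidableEq I) (deg : I → ℤ) (A : Matrix I I (ZG G))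
    (f : I → SC E) (U : Type) (_ : Ring U) (Γ : U → Set (L2 G × L2 G)) (ι : ZG G →+* U)
    (ν : G → Fin n → ℤ) (s : (Fin n → ℤ) → G),
    IsModel deg A f ∧ L2Acyc A ∧ IsAffil lam rho Γ ι ∧ IsAbFree ν s ∧ TorPoly ι ν s deg A Q

end Pool.Agent.Work.MP_735653_gt.St
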