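import Pool.Agent.Work.MP_735653_gt.SingG

/-! Singular chains: comparison with the library, contractible sets. -/

namespace Pool.Agent.Work.MP_735653_gt

open Finsupp

variable {X : Type} [TopologicalSpace X]

variable (X) in
/-- The augmentation. -/
noncomputable def aug : SC X →ₗ[ℤ] ℤ :=
  linearCombination ℤ (fun s : Sx X => if s.1 = 0 then 1 else 0)

/-- Chains of degree `q` in `U`. -/
def SCq (U : Set X) (q : ℕ) : Submodule ℤ (SC X) :=
  supported ℤ ℤ {s | s.1 = q ∧ Set.range s.2 ⊆ U}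

/-- Chains of all degrees in `U`. -/
def SCs (U : Set X) : Submodule ℤ (SC X) := supported ℤ ℤ {s | Set.range s.2 ⊆ U}

/-- Chains of degree `q` that are small for a family of sets. -/
def Small {Y : Type} (U : Y → Set X) (q : ℕ) : Submodule ℤ (SC X) :=
  supported ℤ ℤ {s | s.1 = q ∧ ∃ y, Set.range s.2 ⊆ U y}

theorem map_supported_cmp {S : Set (Sx X)} {V : Type} [AddCommGroup V]
    (T : Submodule ℤ V) (F : SC X →ₗ[ℤ] V) (h : ∀ s ∈ S, F (single s 1) ∈ T) {x : SC X}
    (hx : x ∈ supported ℤ ℤ S) : F x ∈ T := by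
  have : supported ℤ ℤ S ≤ T.comap F := by
    rw [supported_eq_span_single, Submodule.span_le]
    rintro _ ⟨s, hs, rfl⟩
    exact h s hs
  exact this hx

theorem sbd_single_cmp (s : Sx X) : sbd X (single s 1) = sbd1 s := by
  rw [sbd, linearCombination_single, one_smul]

theorem sbd_mem (U : Set X) (q : ℕ) {x : SC X} (hx : x ∈ SCq U (q + 1)) : sbd X x ∈ SCq U q := by
  refine map_supported_cmp _ _ ?_ hx
  rintro ⟨q', s⟩ ⟨rfl, hs⟩
  rw [sbd_single_cmp, sbd1]
  refine Submodule.sum_mem _ fun i _ => Submodule.smul_mem _ _ (single_mem_supported ℤ _ ?_)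
  refine ⟨rfl, ?_⟩
  rintro _ ⟨y, rfl⟩
  exact hs ⟨_, rfl⟩

theorem sbd_zero (U : Set X) {x : SC X} (hx : x ∈ SCq U 0) : sbd X x = 0 := by
  refine (Submodule.mem_bot ℤ).mp (map_supported_cmp _ _ ?_ hx)
  rintro ⟨q', s⟩ ⟨rfl, hs⟩
  rw [sbd_single_cmp, sbd1]
  exact zero_mem _

theorem sbd_eq_gsbd (x : SC X) : sbd X x = SingG.gsbd ℤ X x := by
  have h : (sbd1 : Sx X → SC X) = SingG.gsbd1 ℤ := by
    funext s
    obtain ⟨q, s⟩ := s
    cases q <;> rfl
  rw [sbd, h]
  rfl

theorem sbd_sbd (x : SC X) : sbd X (sbd X x) = 0 := by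
  rw [sbd_eq_gsbd, sbd_eq_gsbd]
  exact SingG.sbd_sbd x

theorem aug_sbd (x : SC X) : aug X (sbd X x) = 0 := by
  have : aug X ∘ₗ sbd X = 0 := by
    refine Finsupp.lhom_ext' fun s => LinearMap.ext_ring ?_
    change aug X (sbd X (single s 1)) = 0
    obtain ⟨q, s⟩ := s
    rw [sbd_single_cmp]
    rcases q with _ | _ | q
    · rw [sbd1, map_zero]
    · simp [sbd1, aug, Fin.sum_univ_two]
    · simp [sbd1, aug]
  exact LinearMap.congr_fun this x


/-- Push-forward of simplices. -/
def spushSx {Z : Type} [TopologicalSpace Z] (f : C(Z, X)) (s : Sx Z) : Sx X := ⟨s.1, f.comp s.2⟩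

/-- Push-forward of chains. -/
noncomputable def spush {Z : Type} [TopologicalSpace Z] (f : C(Z, X)) : SC Z →ₗ[ℤ] SC X :=
  lmapDomain ℤ ℤ (spushSx f)

theorem spush_single {Z : Type} [TopologicalSpace Z] (f : C(Z, X)) (s : Sx Z) (c : ℤ) :
    spush f (single s c) = single (spushSx f s) c := by
  simp [spush]

theorem sbd_single (s : Sx X) (c : ℤ) : sbd X (single s c) = c • sbd1 s := by
  simp [sbd]

theorem sbd_spush {Z : Type} [TopologicalSpace Z] (f : C(Z, X)) (x : SC Z) :
    sbd X (spush f x) = spush f (sbd Z x) := by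
  induction x using Finsupp.induction_linear with
  | zero => simp
  | add a b ha hb => simp [ha, hb]
  | single s c =>
    rw [spush_single, sbd_single, sbd_single, map_smul]
    congr 1
    obtain ⟨q, s⟩ := s
    cases q with
    | zero => simp [spushSx, sbd1]
    | succ q =>
      simp only [spushSx, sbd1, map_sum, map_smul, spush_single]
      rfl

theorem spushSx_injective {Z : Type} [TopologicalSpace Z] (f : C(Z, X))
    (hf : Function.Injective f) : Function.Injective (spushSx f) := by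
  rintro ⟨q, s⟩ ⟨q', s'⟩ h
  simp only [spushSx, Sigma.mk.injEq] at h
  obtain ⟨rfl, h⟩ := h
  have h' := eq_of_heq h
  congr 1
  ext t
  exact hf (congrArg (fun g : C(_, X) => g t) h')

theorem spush_injective {Z : Type} [TopologicalSpace Z] (f : C(Z, X))
    (hf : Function.Injective f) : Function.Injective (spush f) :=
  mapDomain_injective (spushSx_injective f hf)

/-- The sinclusion of a subset. -/
def sincl (U : Set X) : C(U, X) := ⟨Subtype.val, continuous_subtype_val⟩

theorem map_spush_sincl (U : Set X) (q : ℕ) :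
    (SCq (Set.univ : Set U) q).map (spush (sincl U)) = SCq U q := by
  unfold SCq spush
  rw [lmapDomain_supported]
  congr 1
  ext s
  constructor
  · rintro ⟨t, ⟨h, -⟩, rfl⟩
    refine ⟨h, ?_⟩
    rintro _ ⟨a, rfl⟩
    exact (t.2 a).2
  · rintro ⟨h, hr⟩
    obtain ⟨p, s⟩ := s
    refine ⟨⟨p, ⟨fun a => ⟨s a, hr ⟨a, rfl⟩⟩, s.continuous.subtype_mk _⟩⟩,
      ⟨h, Set.subset_univ _⟩, rfl⟩

/-- The constant `0`-simplex. -/
def pt (a : X) : Sx X := ⟨0, ContinuousMap.const _ a⟩

theorem eq_pt (s : C(stdSimplex ℝ (Fin (0 + 1)), X)) :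
    (⟨0, s⟩ : Sx X) = pt (s (stdSimplex.vertex 0)) := by
  unfold pt
  congr 1
  ext t
  have : Subsingleton (Fin (0 + 1)) := inferInstanceAs (Subsingleton (Fin 1))
  rw [Subsingleton.elim t (stdSimplex.vertex 0)]
  rfl

theorem aug_single (s : Sx X) (c : ℤ) : aug X (single s c) = if s.1 = 0 then c else 0 := by
  simp [aug]

theorem path_bd (U : Set X) {a b : U} (h : Joined a b) :
    ∃ y ∈ SCq U 1, sbd X y = single (pt (b : X)) 1 - single (pt (a : X)) 1 := by
  obtain ⟨γ⟩ := h
  let σ : C(stdSimplex ℝ (Fin (0 + 2)), X) :=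
    ⟨fun t => (γ (stdSimplexHomeomorphUnitInterval t) : X),
      continuous_subtype_val.comp
        (γ.continuous.comp stdSimplexHomeomorphUnitInterval.continuous)⟩
  refine ⟨single ⟨0 + 1, σ⟩ 1, single_mem_supported _ _ ⟨rfl, ?_⟩, ?_⟩
  · rintro _ ⟨t, rfl⟩
    exact (γ _).2
  · have h0 : (⟨0, face σ 0⟩ : Sx X) = pt (b : X) := by
      rw [eq_pt]
      congr 1
      change (γ (stdSimplexHomeomorphUnitInterval
        (stdSimplex.map (Fin.succAbove (0 : Fin 2)) (stdSimplex.vertex 0))) : X) = b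
      rw [stdSimplex.map_vertex]
      have : stdSimplexHomeomorphUnitInterval
          (stdSimplex.vertex (Fin.succAbove (0 : Fin 2) 0)) = 1 :=
        stdSimplexHomeomorphUnitInterval_one
      rw [this, γ.target]
    have h1 : (⟨0, face σ 1⟩ : Sx X) = pt (a : X) := by
      rw [eq_pt]
      congr 1
      change (γ (stdSimplexHomeomorphUnitInterval
        (stdSimplex.map (Fin.succAbove (1 : Fin 2)) (stdSimplex.vertex 0))) : X) = a
      rw [stdSimplex.map_vertex]
      have : stdSimplexHomeomorphUnitInterval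
          (stdSimplex.vertex (Fin.succAbove (1 : Fin 2) 0)) = 0 :=
        stdSimplexHomeomorphUnitInterval_zero
      rw [this, γ.source]
    rw [sbd_single, one_smul]
    change ∑ i : Fin 2, (-1 : ℤ) ^ (i : ℕ) • single (⟨0, face σ i⟩ : Sx X) (1 : ℤ) = _
    rw [Fin.sum_univ_two, h0, h1]
    simp [sub_eq_add_neg]

theorem small_eq {Y : Type} (U : Y → Set X) (q : ℕ) : Small U q = ⨆ y, SCq (U y) q := by
  unfold Small SCq
  rw [← supported_iUnion]
  congr 1
  ext s
  simp

theorem small_le {Y : Type} (U : Y → Set X) (q : ℕ) : Small U q ≤ SCq Set.univ q :=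
  supported_mono fun _ h => ⟨h.1, Set.subset_univ _⟩

theorem map_small {Y : Type} (U : Y → Set X) (L : SC X →ₗ[ℤ] SC X) (q q' : ℕ)
    (h : ∀ y, ∀ x ∈ SCq (U y) q, L x ∈ SCq (U y) q') {x : SC X} (hx : x ∈ Small U q) :
    L x ∈ Small U q' := by
  have : Small U q ≤ (Small U q').comap L := by
    rw [small_eq U q]
    refine iSup_le fun y x hx => ?_
    rw [Submodule.mem_comap, small_eq]
    exact Submodule.mem_iSup_of_mem y (h y x hx)
  exact this hx



theorem acyclic (U : Set X) [ContractibleSpace U] (q : ℕ) {x : SC X} (hx : x ∈ SCq U (q + 1))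
    (h0 : sbd X x = 0) : ∃ y ∈ SCq U (q + 2), sbd X y = x := by
  rw [← map_spush_sincl] at hx
  obtain ⟨x', hx', rfl⟩ := hx
  have hinj : Function.Injective (spush (sincl U)) := spush_injective _ Subtype.val_injective
  have h0' : sbd U x' = 0 := by
    apply hinj
    rw [← sbd_spush, h0, map_zero]
  rw [sbd_eq_gsbd] at h0'
  obtain ⟨y', hy', hyx⟩ := SingG.acyclic U q hx' h0'
  rw [← sbd_eq_gsbd] at hyx
  refine ⟨spush (sincl U) y', ?_, ?_⟩
  · rw [← map_spush_sincl]
    exact Submodule.mem_map_of_mem hy'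
  · rw [sbd_spush, hyx]

theorem acyclic_zero (U : Set X) [ContractibleSpace U] {x : SC X} (hx : x ∈ SCq U 0)
    (h0 : aug X x = 0) : ∃ y ∈ SCq U 1, sbd X y = x := by
  obtain ⟨a⟩ : Nonempty U := inferInstance
  have key : ∀ x ∈ SCq U 0,
      x - aug X x • single (pt (a : X)) 1 ∈ (SCq U 1).map (sbd X) := by
    intro x hx
    unfold SCq at hx
    rw [supported_eq_span_single] at hx
    induction hx using Submodule.span_induction with
    | mem z hz =>
      obtain ⟨⟨q, s⟩, ⟨hq, hs⟩, rfl⟩ := hz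
      obtain rfl : q = 0 := hq
      obtain ⟨y, hy, hb⟩ := path_bd U
        (PathConnectedSpace.joined a ⟨s (stdSimplex.vertex 0), hs ⟨_, rfl⟩⟩)
      refine ⟨y, hy, ?_⟩
      rw [hb, aug_single, if_pos rfl, one_smul]
      exact congrArg (fun t : Sx X => single t (1 : ℤ) - single (pt (a : X)) 1) (eq_pt s).symm
    | zero => simp
    | add u v _ _ hu hv =>
      have := Submodule.add_mem _ hu hv
      rw [map_add, add_smul]
      convert this using 1
      abel
    | smul c u _ hu =>
      have := Submodule.smul_mem _ c hu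
      rw [map_smul, smul_eq_mul, mul_smul, ← smul_sub]
      exact this
  have := key x hx
  rw [h0, zero_smul, sub_zero] at this
  exact this

theorem aug_surj {U : Set X} (hU : U.Nonempty) (c : ℤ) : ∃ x ∈ SCq U 0, aug X x = c := by
  obtain ⟨a, ha⟩ := hU
  refine ⟨single (pt a) c, single_mem_supported _ _ ⟨rfl, ?_⟩, ?_⟩
  · rintro _ ⟨t, rfl⟩
    exact ha
  · rw [aug_single]
    exact if_pos rfl

end Pool.Agent.Work.MP_735653_gt
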