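import Pool.Agent.Work.MP_735653_gt.LDefs
import Pool.Agent.Work.MP_735653_gt.Sing

/-! Geometric realisation of a lattice complex and of its covering complex. -/

namespace Pool.Agent.Work.MP_735653_gt

variable {D : ℕ} {G : Type} [Group G]

/-- the open cell that contains a point -/
noncomputable def cellOf (x : Fin D → ℝ) : Cell D := fun i => ⌊x i / 2⌋ + ⌈x i / 2⌉

/-- rounding: a coordinate at distance less than one half from an even integer is replaced by
that integer -/
noncomputable def rnd (x : Fin D → ℝ) : Cell D := fun i => ⌊x i / 2 - 1 / 4⌋ + ⌈x i / 2 + 1 / 4⌉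

theorem rnd_face (x : Fin D → ℝ) : Face (rnd x) (cellOf x) := fun i => by
  simp only [rnd, cellOf]
  have h1 := Int.floor_le (x i / 2)
  have h2 := Int.lt_floor_add_one (x i / 2)
  have h3 := Int.le_ceil (x i / 2)
  have h4 := Int.ceil_lt_add_one (x i / 2)
  have h5 := Int.floor_le (x i / 2 - 1 / 4)
  have h6 := Int.lt_floor_add_one (x i / 2 - 1 / 4)
  have h7 := Int.le_ceil (x i / 2 + 1 / 4)
  have h8 := Int.ceil_lt_add_one (x i / 2 + 1 / 4)
  generalize ⌊x i / 2⌋ = a at *
  generalize ⌈x i / 2⌉ = b at *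
  generalize ⌊x i / 2 - 1 / 4⌋ = c at *
  generalize ⌈x i / 2 + 1 / 4⌉ = d at *
  have e1 : a < b + 1 := by exact_mod_cast (by linarith : (a : ℝ) < b + 1)
  have e2 : b < a + 2 := by exact_mod_cast (by linarith : (b : ℝ) < a + 2)
  have e3 : c < a + 1 := by exact_mod_cast (by linarith : (c : ℝ) < a + 1)
  have e4 : a < c + 2 := by exact_mod_cast (by linarith : (a : ℝ) < c + 2)
  have e5 : b < d + 1 := by exact_mod_cast (by linarith : (b : ℝ) < d + 1)
  have e6 : d < b + 2 := by exact_mod_cast (by linarith : (d : ℝ) < b + 2)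
  have e7 : d < c + 3 := by exact_mod_cast (by linarith : (d : ℝ) < c + 3)
  have e8 : c < b := by exact_mod_cast (by linarith : (c : ℝ) < b)
  have e9 : a < d := by exact_mod_cast (by linarith : (a : ℝ) < d)
  omega

/-- the realisation -/
def Re (K : Finset (Cell D)) : Set (Fin D → ℝ) := {x | cellOf x ∈ K}

/-- cells of the covering complex -/
abbrev CC (X : LC D G) : Type := G × X.K

/-- the face relation of the covering complex -/
def CLe (X : LC D G) (p q : CC X) : Prop := Face p.2.1 q.2.1 ∧ p.1 = q.1 * X.μ q.2.1 p.2.1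

/-- the covering space -/
structure Cov (X : LC D G) : Type where
  g : G
  x : Re X.K

variable {X : LC D G}

/-- the open cell that contains a point of the covering space -/
noncomputable def Cov.cell (p : Cov X) : CC X := (p.g, ⟨cellOf p.x.1, p.x.2⟩)

/-- the rounded cell -/
noncomputable def Cov.rc (p : Cov X) : CC X :=
  (p.g * X.μ (cellOf p.x.1) (rnd p.x.1), ⟨rnd p.x.1, X.down _ p.x.2 _ (rnd_face _)⟩)

instance : TopologicalSpace (Cov X) :=
  TopologicalSpace.induced (fun p => (p.x, fun c : CC X => CLe X c p.cell)) inferInstance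

instance : MulAction G (Cov X) where
  smul g p := ⟨g * p.g, p.x⟩
  one_smul p := congrArg (fun g => Cov.mk g p.x) (one_mul _)
  mul_smul _ _ p := congrArg (fun g => Cov.mk g p.x) (mul_assoc _ _ _)

theorem Cov.smul_g (g : G) (p : Cov X) : (g • p).g = g * p.g := rfl

theorem Cov.smul_x (g : G) (p : Cov X) : (g • p).x = p.x := rfl

theorem Cov.continuous_pair :
    Continuous fun p : Cov X => (p.x, fun c : CC X => CLe X c p.cell) :=
  continuous_induced_dom

theorem Cov.continuous_x : Continuous (Cov.x : Cov X → Re X.K) :=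
  Cov.continuous_pair.fst

theorem Cov.continuous_st (c : CC X) : Continuous fun p : Cov X => CLe X c p.cell :=
  (continuous_apply c).comp Cov.continuous_pair.snd

theorem Cov.continuous_iff {Z : Type} [TopologicalSpace Z] {f : Z → Cov X} :
    Continuous f ↔ Continuous (fun z => (f z).x) ∧ ∀ c, Continuous fun z => CLe X c (f z).cell :=
  ⟨fun h => ⟨Cov.continuous_x.comp h, fun c => (Cov.continuous_st c).comp h⟩,
    fun h => continuous_induced_rng.2 (h.1.prodMk (continuous_pi h.2))⟩

instance : ContinuousConstSMul G (Cov X) where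
  continuous_const_smul g := Cov.continuous_iff.2 ⟨Cov.continuous_x, fun c => by
    refine (Cov.continuous_st (g⁻¹ * c.1, c.2)).congr fun p => propext ?_
    refine and_congr Iff.rfl ?_
    change g⁻¹ * c.1 = p.g * _ ↔ c.1 = g * p.g * _
    rw [inv_mul_eq_iff_eq_mul, mul_assoc]
    rfl⟩

variable (X)

/-- an open neighbourhood of a closed cell of the covering space -/
def Uc (c : CC X) : Set (Cov X) := {p | CLe X p.rc c}

/-- the boundary operator of the covering complex -/
noncomputable def cbd : (CC X →₀ ℤ) →ₗ[ℤ] (CC X →₀ ℤ) :=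
  Finsupp.linearCombination ℤ fun p =>
    ∑ b : X.K, Finsupp.single (p.1 * X.μ p.2.1 b.1, b) (inc p.2.1 b.1)

/-- the augmentation of the covering complex -/
noncomputable def caug : (CC X →₀ ℤ) →ₗ[ℤ] ℤ :=
  Finsupp.linearCombination ℤ fun p => if dim p.2.1 = 0 then 1 else 0

/-- `F` induces an isomorphism from the homology of the chains on `L` to the singular homology
of `U` -/
structure QIon {P E : Type} [TopologicalSpace E] (d : (P →₀ ℤ) →ₗ[ℤ] (P →₀ ℤ))
    (F : (P →₀ ℤ) →ₗ[ℤ] SC E) (L : Set P) (U : Set E) : Prop where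
  inj : ∀ x ∈ Finsupp.supported ℤ ℤ L, d x = 0 → (∃ c ∈ SCs U, sbd E c = F x) →
    ∃ y ∈ Finsupp.supported ℤ ℤ L, d y = x
  surj : ∀ z ∈ SCs U, sbd E z = 0 →
    ∃ x ∈ Finsupp.supported ℤ ℤ L, ∃ c ∈ SCs U, d x = 0 ∧ z = F x + sbd E c

end Pool.Agent.Work.MP_735653_gt
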