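import Pool.Agent.Work.MP_735653_gt.GDefs

/-! Fox calculus. -/

namespace Pool.Agent.Work.MP_735653_gt

variable {G S Rl C : Type} [Group G] {γ : S → G} {fx : FreeGroup S → S → ZG G}

theorem evZ_mul (u v : FreeGroup S) : evZ γ (u * v) = evZ γ u * evZ γ v := by
  rw [evZ, evZ, evZ, MonoidAlgebra.single_mul_single, map_mul, one_mul]

theorem evZ_one : evZ γ 1 = 1 := by
  rw [evZ, map_one, MonoidAlgebra.one_def]

/-- the semidirect product of the group ring and the group -/
structure Fox_P (G : Type) [Group G] where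
  v : ZG G
  g : G

theorem Fox_ext {a b : Fox_P G} (h1 : a.v = b.v) (h2 : a.g = b.g) : a = b := by
  cases a
  cases b
  congr

noncomputable instance Fox_mul : Mul (Fox_P G) :=
  ⟨fun a b => ⟨a.v + MonoidAlgebra.single a.g 1 * b.v, a.g * b.g⟩⟩

noncomputable instance Fox_one : One (Fox_P G) := ⟨⟨0, 1⟩⟩

noncomputable instance Fox_inv : _root_.Inv (Fox_P G) :=
  ⟨fun a => ⟨-(MonoidAlgebra.single a.g⁻¹ 1 * a.v), a.g⁻¹⟩⟩

noncomputable instance Fox_group : Group (Fox_P G) :=
  Group.ofLeftAxioms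
    (fun a b c => Fox_ext (by
      change a.v + MonoidAlgebra.single a.g 1 * b.v + MonoidAlgebra.single (a.g * b.g) 1 * c.v =
        a.v + MonoidAlgebra.single a.g 1 * (b.v + MonoidAlgebra.single b.g 1 * c.v)
      rw [mul_add, ← mul_assoc, MonoidAlgebra.single_mul_single, one_mul, add_assoc])
      (mul_assoc a.g b.g c.g))
    (fun a => Fox_ext (by
      change 0 + MonoidAlgebra.single 1 1 * a.v = a.v
      rw [← MonoidAlgebra.one_def, one_mul, zero_add]) (one_mul a.g))
    (fun a => Fox_ext (neg_add_cancel (MonoidAlgebra.single a.g⁻¹ 1 * a.v)) (inv_mul_cancel a.g))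

/-- the projection to the group -/
noncomputable def Fox_pr : Fox_P G →* G := MonoidHom.mk' (fun a => a.g) fun _ _ => rfl

theorem exists_isFox (γ : S → G) : ∃ fx, IsFox γ fx := by
  classical
  let φ : S → FreeGroup S →* Fox_P G := fun s =>
    FreeGroup.lift fun s' => ⟨if s' = s then 1 else 0, γ s'⟩
  have h : ∀ s u, (φ s u).g = FreeGroup.lift γ u := fun s u =>
    DFunLike.congr_fun (show Fox_pr.comp (φ s) = FreeGroup.lift γ from
      FreeGroup.ext_hom _ _ fun a => by
        rw [MonoidHom.comp_apply, FreeGroup.lift_apply_of, FreeGroup.lift_apply_of]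
        rfl) u
  refine ⟨fun u s => (φ s u).v, fun u v s => ?_, fun s => ?_, fun s s' hs => ?_⟩
  · rw [map_mul, evZ, ← h s]
    rfl
  · rw [FreeGroup.lift_apply_of, if_pos rfl]
  · rw [FreeGroup.lift_apply_of, if_neg hs]

theorem IsFox.one (h : IsFox γ fx) (s : S) : fx 1 s = 0 := by
  have h1 := h.mul 1 1 s
  rw [mul_one, evZ_one, one_mul] at h1
  exact left_eq_add.1 h1

theorem IsFox.inv (h : IsFox γ fx) (u : FreeGroup S) (s : S) :
    fx u⁻¹ s = -(evZ γ u⁻¹ * fx u s) := by
  have h1 := h.mul u⁻¹ u s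
  rw [inv_mul_cancel, h.one] at h1
  exact eq_neg_of_add_eq_zero_left h1.symm

theorem IsFox.fund [Fintype S] (h : IsFox γ fx) (u : FreeGroup S) :
    ∑ s, fx u s * (MonoidAlgebra.single (γ s) 1 - 1) = evZ γ u - 1 := by
  induction u using FreeGroup.induction_on with
  | C1 => simp only [h.one, zero_mul, Finset.sum_const_zero, evZ_one, sub_self]
  | of x =>
    rw [Finset.sum_eq_single x (fun s _ hs => by rw [h.of_ne _ _ hs.symm, zero_mul])
      (fun hx => absurd (Finset.mem_univ x) hx), h.of_self, one_mul, evZ, FreeGroup.lift_apply_of]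
  | inv_of x ih =>
    simp only [h.inv, neg_mul, mul_assoc]
    rw [Finset.sum_neg_distrib, ← Finset.mul_sum, ih, mul_sub, ← evZ_mul, inv_mul_cancel, evZ_one,
      mul_one, neg_sub]
  | mul x y hx hy =>
    simp only [h.mul, add_mul, mul_assoc]
    rw [Finset.sum_add_distrib, ← Finset.mul_sum, hx, hy, evZ_mul, mul_sub, mul_one]
    abel

theorem cx_AR [Fintype S] [Fintype Rl] [Fintype C] (h : IsFox γ fx) (wd : Rl ⊕ C → FreeGroup S)
    (hr : ∀ j, FreeGroup.lift γ (wd (.inl j)) = 1) : Cx dR (AR γ fx wd) := by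
  refine ⟨fun i j hij => ?_, Matrix.ext fun i j => ?_⟩
  · rcases i with i | i | i | i | i <;> rcases j with j | j | j | j | j <;>
      first | rfl | exact absurd rfl hij
  · rw [Matrix.mul_apply, Matrix.zero_apply]
    simp only [Fintype.sum_sum_type]
    rcases i with i | i | i | i | i <;> rcases j with j | j | j | j | j <;>
      simp only [AR, mul_zero, zero_mul, Finset.sum_const_zero, add_zero, zero_add]
    rw [h.fund, evZ, hr, ← MonoidAlgebra.one_def, sub_self]

/-- the words with a vanishing derivative -/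
def Fox_K (h : IsFox γ fx) (s : S) : Subgroup (FreeGroup S) where
  carrier := {u | fx u s = 0}
  one_mem' := h.one s
  mul_mem' := fun {u v} (hu : fx u s = 0) (hv : fx v s = 0) => by
    change fx (u * v) s = 0
    rw [h.mul, hu, hv, mul_zero, add_zero]
  inv_mem' := fun {u} (hu : fx u s = 0) => by
    change fx u⁻¹ s = 0
    rw [h.inv, hu, mul_zero, neg_zero]

theorem Fox_conj (h : IsFox γ fx) {s : S} {g : FreeGroup S} (hg : g ∈ Fox_K h s) :
    fx (g * FreeGroup.of s * g⁻¹) s = evZ γ g := by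
  have h1 : fx g s = 0 := hg
  have h2 : fx g⁻¹ s = 0 := (Fox_K h s).inv_mem hg
  rw [h.mul, h.mul, h1, h2, h.of_self, mul_zero, add_zero, zero_add, mul_one]

theorem Fox_nsupp_mul {m : ℕ} (ν : G →* Multiplicative (Fin m → ℤ)) {k : G} (hk : ν k = 1)
    (x : ZG G) : nsupp ν (MonoidAlgebra.single k 1 * x) = nsupp ν x := by
  ext v
  simp only [nsupp, Finset.mem_image, Finsupp.mem_support_iff,
    MonoidAlgebra.coeff_single_mul_apply, one_mul]
  refine ⟨fun ⟨a, h1, h2⟩ => ⟨_, h1, ?_⟩, fun ⟨a, h1, h2⟩ => ⟨k * a, ?_, ?_⟩⟩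
  · rw [map_mul, map_inv, hk, inv_one, one_mul, h2]
  · rwa [inv_mul_cancel_left]
  · rw [map_mul, hk, one_mul, h2]

theorem Fox_nsupp_add {m : ℕ} (ν : G →* Multiplicative (Fin m → ℤ)) (g : G) {x : ZG G}
    (hx : ∀ a, 0 ≤ x.coeff a) :
    nsupp ν (MonoidAlgebra.single g 1 + x) = insert (ν g).toAdd (nsupp ν x) := by
  classical
  rw [nsupp, nsupp, ← Finset.image_insert (fun g => (ν g).toAdd)]
  congr 1
  ext a
  have h1 := hx a
  rw [Finset.mem_insert, Finsupp.mem_support_iff, Finsupp.mem_support_iff, MonoidAlgebra.coeff_add,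
    Finsupp.add_apply, MonoidAlgebra.coeff_single, Finsupp.single_apply]
  split_ifs with h
  · exact ⟨fun _ => Or.inl h.symm, fun _ => by omega⟩
  · rw [zero_add]
    exact ⟨Or.inr, fun h2 => h2.resolve_left fun h3 => h h3.symm⟩

section

variable {n : ℕ} {γ : SG n → G} {fx : FreeGroup (SG n) → SG n → ZG G}
  {l : List (FreeGroup (Fin n) × ℤ)}

theorem fox_comm_self (h : IsFox γ fx) (hr : ∀ j, FreeGroup.lift γ (rl l j) = 1) (i : Fin n) :
    fx (rl l (some i)) (some (some i)) = 1 - MonoidAlgebra.single (γ none) 1 := by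
  have h1 := hr (some i)
  have h2 : fx (FreeGroup.of none) (some (some i)) = 0 := h.of_ne _ _ (Option.some_ne_none _).symm
  rw [rl, map_mul, map_inv, mul_inv_eq_one, FreeGroup.lift_apply_of] at h1
  rw [rl, h.mul, h.mul, h.mul, h.inv, h.inv, h2, h.of_self, mul_zero, mul_zero, neg_zero, mul_zero,
    add_zero, add_zero, mul_one, mul_neg, ← evZ_mul, evZ, h1, sub_eq_add_neg]

theorem fox_comm_ne (h : IsFox γ fx) (i : Fin n) (s : Option (Fin n)) (hs : s ≠ some i) :
    fx (rl l (some i)) (some s) = 0 := by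
  have h1 : FreeGroup.of (some (some i)) ∈ Fox_K h (some s) :=
    h.of_ne _ _ fun e => hs (Option.some.inj e).symm
  have h2 : FreeGroup.of none ∈ Fox_K h (some s) := h.of_ne _ _ (Option.some_ne_none _).symm
  exact mul_mem (mul_mem (mul_mem h1 h2) (inv_mem h1)) (inv_mem h2)

theorem Fox_gw (h : IsFox γ fx) (p : FreeGroup (Fin n) × ℤ) : gw p ∈ Fox_K h (some none) := by
  refine mul_mem ?_ (zpow_mem (h.of_ne _ _ (Option.some_ne_none _).symm :
    FreeGroup.of none ∈ Fox_K h (some none)) _)
  have h1 : ∀ i : Fin n, FreeGroup.map (fun i => (some (some i) : SG n)) (FreeGroup.of i) ∈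
      Fox_K h (some none) := fun i =>
    h.of_ne _ _ fun e => Option.some_ne_none _ (Option.some.inj e)
  induction p.1 using FreeGroup.induction_on with
  | C1 => rw [map_one]; exact one_mem _
  | of x => exact h1 x
  | inv_of x ih => rw [map_inv]; exact inv_mem ih
  | mul x y hx hy => rw [map_mul]; exact mul_mem hx hy

theorem Fox_cons (h : IsFox γ fx) (p : FreeGroup (Fin n) × ℤ) (l : List (FreeGroup (Fin n) × ℤ)) :
    fx (rl (p :: l) none) (some none) = MonoidAlgebra.single (FreeGroup.lift γ (gw p)) 1 +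
      MonoidAlgebra.single (FreeGroup.lift γ (gw p * FreeGroup.of (some none) * (gw p)⁻¹)) 1 *
        fx (rl l none) (some none) := by
  rw [rl, List.map_cons, List.prod_cons, h.mul, Fox_conj h (Fox_gw h p)]
  rfl

theorem Fox_nonneg (h : IsFox γ fx) (l : List (FreeGroup (Fin n) × ℤ)) :
    ∀ a, 0 ≤ (fx (rl l none) (some none)).coeff a := by
  classical
  induction l with
  | nil =>
    intro a
    rw [rl, List.map_nil, List.prod_nil, h.one]
    exact le_rfl
  | cons p l ih =>
    intro a
    rw [Fox_cons h, MonoidAlgebra.coeff_add, Finsupp.add_apply,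
      MonoidAlgebra.coeff_single_mul_apply, one_mul, MonoidAlgebra.coeff_single,
      Finsupp.single_apply]
    refine add_nonneg ?_ (ih _)
    split_ifs
    exacts [zero_le_one, le_rfl]

theorem fox_main (h : IsFox γ fx) {m : ℕ} (ν : G →* Multiplicative (Fin m → ℤ))
    (hy : ν (γ (some none)) = 1) :
    nsupp ν (fx (rl l none) (some none)) =
      (l.map fun p => (ν (FreeGroup.lift γ (gw p))).toAdd).toFinset := by
  induction l with
  | nil =>
    rw [rl, List.map_nil, List.prod_nil, h.one]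
    rfl
  | cons p l ih =>
    rw [Fox_cons h, Fox_nsupp_add, Fox_nsupp_mul, ih, List.map_cons, List.toFinset_cons]
    · rw [map_mul, map_mul, map_mul, map_mul, FreeGroup.lift_apply_of, hy, mul_one, ← map_mul,
        ← map_mul, mul_inv_cancel, map_one, map_one]
    · intro a
      rw [MonoidAlgebra.coeff_single_mul_apply, one_mul]
      exact Fox_nonneg h l _

end

end Pool.Agent.Work.MP_735653_gt
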