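import Pool.Agent.Work.MP_735653_gt.KdEq
import Pool.Agent.Work.MP_735653_gt.Morse
import Pool.Agent.Work.MP_735653_gt.Defs
import Pool.Agent.Work.MP_735653_gt.LauU
import Pool.Agent.Work.MP_735653_gt.Fox

attribute [-instance] Subring.toCommRing

-- merged part: Pool.Agent.Work.MP_735653_gt.Aff
section
/-! The ring of fractions is the algebra of affiliated operators. -/

namespace Pool.Agent.Work.MP_735653_gt

open scoped InnerProductSpace
open ContinuousLinearMap

variable {G U : Type} [Group G] [Ring U] {j : VN G →+* U}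

theorem Aff_proj {H : Type} [NormedAddCommGroup H] [InnerProductSpace ℂ H] [CompleteSpace H]
    (V : Submodule ℂ (H × H)) (hV : IsClosed (V : Set (H × H))) :
    ∃ P : (H × H) →L[ℂ] (H × H), (∀ w, P w ∈ V) ∧
      ∀ w, ∀ y ∈ V, ⟪y.1, (w - P w).1⟫_ℂ + ⟪y.2, (w - P w).2⟫_ℂ = 0 := by
  let e := WithLp.prodContinuousLinearEquiv 2 ℂ H H
  let V' : Submodule ℂ (WithLp 2 (H × H)) := V.comap e.toLinearMap
  have hc : IsClosed (V' : Set (WithLp 2 (H × H))) := hV.preimage e.continuous
  haveI : CompleteSpace V' := hc.completeSpace_coe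
  refine ⟨e.toContinuousLinearMap ∘L V'.starProjection ∘L e.symm.toContinuousLinearMap,
    fun w => V'.starProjection_apply_mem _, fun w y hy => ?_⟩
  have h := V'.sub_starProjection_mem_orthogonal (e.symm w) (e.symm y) (by simpa [V'] using hy)
  rw [WithLp.prod_inner_apply] at h
  exact h

theorem Aff_self {H : Type} [NormedAddCommGroup H] [InnerProductSpace ℂ H] {y : H × H}
    (h : ⟪y.1, y.1⟫_ℂ + ⟪y.2, y.2⟫_ℂ = 0) : y = 0 := by
  rw [inner_self_eq_norm_sq_to_K, inner_self_eq_norm_sq_to_K] at h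
  have h' : ‖y.1‖ ^ 2 + ‖y.2‖ ^ 2 = 0 := by
    refine Complex.ofReal_eq_zero.1 ?_
    push_cast
    exact h
  have h1 : ‖y.1‖ = 0 := by nlinarith [sq_nonneg ‖y.1‖, sq_nonneg ‖y.2‖]
  have h2 : ‖y.2‖ = 0 := by nlinarith [sq_nonneg ‖y.1‖, sq_nonneg ‖y.2‖]
  exact Prod.ext (norm_eq_zero.1 h1) (norm_eq_zero.1 h2)

theorem Aff_inner_lam (g : G) (x y : L2 G) : ⟪x, lam g y⟫_ℂ = ⟪lam g⁻¹ x, y⟫_ℂ := by
  rw [← adjoint_lam, adjoint_inner_left]

theorem Aff_col (V : Submodule ℂ (L2 G × L2 G)) (hV : IsClosed (V : Set (L2 G × L2 G)))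
    (hi : ∀ g, ∀ p ∈ V, (lam g p.1, lam g p.2) ∈ V) :
    ∃ c d : VN G, (∀ x, (c.1 x, d.1 x) ∈ V) ∧
      ∀ x, ∀ y ∈ V, ⟪y.1, x⟫_ℂ = ⟪y.1, c.1 x⟫_ℂ + ⟪y.2, d.1 x⟫_ℂ := by
  obtain ⟨P, h1, h2⟩ := Aff_proj V hV
  have he : ∀ g x, P (lam g x, 0) = (lam g (P (x, 0)).1, lam g (P (x, 0)).2) := by
    intro g x
    have hm := V.sub_mem (h1 (lam g x, 0)) (hi g _ (h1 (x, 0)))
    refine sub_eq_zero.1 (Aff_self ?_)
    set y := P (lam g x, 0) - (lam g (P (x, 0)).1, lam g (P (x, 0)).2) with hy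
    have e1 := h2 (lam g x, 0) y hm
    have e2 := h2 (x, 0) _ (hi g⁻¹ y hm)
    rw [← Aff_inner_lam, ← Aff_inner_lam] at e2
    simp only [Prod.fst_sub, Prod.snd_sub, map_sub, map_zero, inner_sub_right] at e1 e2
    have e3 : ⟪y.1, y.1⟫_ℂ = ⟪y.1, (P (lam g x, 0)).1⟫_ℂ - ⟪y.1, lam g (P (x, 0)).1⟫_ℂ := by
      rw [← inner_sub_right]; rfl
    have e4 : ⟪y.2, y.2⟫_ℂ = ⟪y.2, (P (lam g x, 0)).2⟫_ℂ - ⟪y.2, lam g (P (x, 0)).2⟫_ℂ := by
      rw [← inner_sub_right]; rfl
    rw [e3, e4]
    linear_combination e2 - e1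
  refine ⟨⟨fst ℂ _ _ ∘L P ∘L inl ℂ _ _, mem_VN.2 fun g x => congrArg Prod.fst (he g x)⟩,
    ⟨snd ℂ _ _ ∘L P ∘L inl ℂ _ _, mem_VN.2 fun g x => congrArg Prod.snd (he g x)⟩,
    fun x => h1 (x, 0), fun x y hy => ?_⟩
  have e := h2 (x, 0) y hy
  simp only [Prod.fst_sub, Prod.snd_sub, inner_sub_right, inner_zero_right] at e
  change _ = ⟪y.1, (P (x, 0)).1⟫_ℂ + ⟪y.2, (P (x, 0)).2⟫_ℂ
  linear_combination e

theorem Aff_dense {s : VN G} (hs : s ∈ nonZeroDivisors (VN G)) : DenseRange s.1 := by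
  have h := vn_inj_adjoint s.2 ((mem_nzd_iff s).1 hs)
  have h2 : (s.1.range).topologicalClosure = ⊤ := by
    rw [Submodule.topologicalClosure_eq_top_iff, orthogonal_range]
    exact LinearMap.ker_eq_bot.2 h
  exact Submodule.dense_iff_topologicalClosure_eq_top.2 h2

omit [Group G] in
theorem Aff_zero {D : Set (L2 G)} (hD : Dense D) {v : L2 G} (h : ∀ x ∈ D, ⟪v, x⟫_ℂ = 0) :
    v = 0 := by
  have hc : IsClosed {x : L2 G | ⟪v, x⟫_ℂ = 0} :=
    isClosed_eq (continuous_const.inner continuous_id) continuous_const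
  exact inner_self_eq_zero.1 (hc.closure_subset_iff.2 h (hD v))

/-- a closed invariant graph is the closure of any column it contains -/
theorem Aff_max {W : Submodule ℂ (L2 G × L2 G)} (hW : IsClosed (W : Set (L2 G × L2 G)))
    (hg : ∀ y, (0, y) ∈ W → y = 0) (hi : ∀ g, ∀ p ∈ W, (lam g p.1, lam g p.2) ∈ W) {s a : VN G}
    (hs : s ∈ nonZeroDivisors (VN G)) (h : ∀ x, (s.1 x, a.1 x) ∈ W) :
    (W : Set (L2 G × L2 G)) ⊆ closure (Set.range fun x => (s.1 x, a.1 x)) := by
  let V : Submodule ℂ (L2 G × L2 G) :=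
    { carrier := {y | y ∈ W ∧ ∀ x, ⟪s.1 x, y.1⟫_ℂ + ⟪a.1 x, y.2⟫_ℂ = 0}
      add_mem' := fun {y z} hy hz => ⟨W.add_mem hy.1 hz.1, fun x => by
        rw [Prod.fst_add, Prod.snd_add, inner_add_right, inner_add_right]
        linear_combination hy.2 x + hz.2 x⟩
      zero_mem' := ⟨W.zero_mem, fun x => by simp⟩
      smul_mem' := fun c y hy => ⟨W.smul_mem c hy.1, fun x => by
        rw [Prod.smul_fst, Prod.smul_snd, inner_smul_right, inner_smul_right, ← mul_add, hy.2 x,
          mul_zero]⟩ }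
  have hVc : IsClosed (V : Set (L2 G × L2 G)) := by
    refine hW.inter (?_ : IsClosed {y : L2 G × L2 G | ∀ x, _})
    rw [Set.ofPred_forall]
    exact isClosed_iInter fun x => isClosed_eq (by fun_prop) continuous_const
  obtain ⟨c, d, h1, h2⟩ := Aff_col V hVc fun g p hp => ⟨hi g p hp.1, fun x => by
    rw [Aff_inner_lam, Aff_inner_lam, ← mem_VN.1 s.2, ← mem_VN.1 a.2]
    exact hp.2 _⟩
  obtain ⟨b, t, ht, e⟩ := KdEq_ore_right c hs
  have e1 : ∀ x, c.1 (t.1 x) = s.1 (b.1 x) := fun x =>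
    congrArg (fun f : VN G => f.1 x) e
  have e2 : ∀ x, d.1 (t.1 x) = a.1 (b.1 x) := fun x => by
    refine sub_eq_zero.1 (hg _ ?_)
    have := W.sub_mem (h1 (t.1 x)).1 (h (b.1 x))
    rwa [Prod.mk_sub_mk, e1, sub_self] at this
  have hV0 : ∀ y ∈ V, y = 0 := by
    intro y hy
    have h0 : y.1 = 0 := by
      refine Aff_zero (Aff_dense ht) ?_
      rintro _ ⟨x, rfl⟩
      rw [h2 _ y hy, e1, e2, ← inner_conj_symm, ← inner_conj_symm y.2, ← map_add, hy.2, map_zero]
    refine Prod.ext h0 (hg _ ?_)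
    rw [← h0]
    exact hy.1
  let W₀ : Submodule ℂ (L2 G × L2 G) := (s.1.prod a.1).range.topologicalClosure
  have hle : W₀ ≤ W := Submodule.topologicalClosure_minimal _ (by
    rintro _ ⟨x, rfl⟩
    exact h x) hW
  obtain ⟨P, p1, p2⟩ := Aff_proj W₀ (Submodule.isClosed_topologicalClosure _)
  intro w hw
  have hm : w - P w ∈ V := ⟨W.sub_mem hw (hle (p1 w)), fun x =>
    p2 w (s.1 x, a.1 x) (Submodule.le_topologicalClosure _ ⟨x, rfl⟩)⟩
  rw [sub_eq_zero.1 (hV0 _ hm)]
  exact p1 w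

/-- the graph of a fraction -/
def Aff_gr (j : VN G →+* U) (u : U) : Submodule ℂ (L2 G × L2 G) where
  carrier := {p | ∀ t b : VN G, j t * u = j b → t.1 p.2 = b.1 p.1}
  add_mem' {p q} hp hq t b h := by
    rw [Prod.fst_add, Prod.snd_add, map_add, map_add, hp t b h, hq t b h]
  zero_mem' t b _ := by simp
  smul_mem' c p hp t b h := by
    rw [Prod.smul_fst, Prod.smul_snd, map_smul, map_smul, hp t b h]

theorem Aff_mem (hj : IsFrac j) {u : U} {t b : VN G} (ht : t ∈ nonZeroDivisors (VN G))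
    (h : j t * u = j b) {p : L2 G × L2 G} : p ∈ Aff_gr j u ↔ t.1 p.2 = b.1 p.1 := by
  refine ⟨fun hp => hp t b h, fun hp t' b' h' => ?_⟩
  obtain ⟨c, c', hc, e⟩ := KdEq_ore_left t' ht
  have e' : c' * b' = c * b := hj.inj (by
    rw [j.map_mul, j.map_mul, ← h, ← h', ← mul_assoc, ← mul_assoc, ← j.map_mul, ← j.map_mul, e])
  refine (mem_nzd_iff c').1 hc ?_
  have e1 : c'.1 (t'.1 p.2) = c.1 (t.1 p.2) := congrArg (fun f : VN G => f.1 p.2) e
  have e2 : c'.1 (b'.1 p.1) = c.1 (b.1 p.1) := congrArg (fun f : VN G => f.1 p.1) e'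
  rw [e1, e2, hp]

theorem Aff_col_mem (hj : IsFrac j) {u : U} {s a : VN G} (h : u * j s = j a) (x : L2 G) :
    (s.1 x, a.1 x) ∈ Aff_gr j u := fun t b h' => by
  have e : t * a = b * s := hj.inj (by rw [j.map_mul, j.map_mul, ← h, ← h', mul_assoc])
  exact congrArg (fun f : VN G => f.1 x) e

theorem Aff_closed (u : U) : IsClosed (Aff_gr j u : Set (L2 G × L2 G)) := by
  change IsClosed {p : L2 G × L2 G | ∀ t b : VN G, j t * u = j b → t.1 p.2 = b.1 p.1}
  simp only [Set.ofPred_forall]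
  exact isClosed_iInter fun t => isClosed_iInter fun b => isClosed_iInter fun _ =>
    isClosed_eq (by fun_prop) (by fun_prop)

theorem Aff_graph (hj : IsFrac j) (u : U) (y : L2 G) (h : (0, y) ∈ Aff_gr j u) : y = 0 := by
  obtain ⟨t, ht, b, e⟩ := hj.den_left fun _ : Unit => u
  have := h t (b ()) (e ())
  rw [map_zero] at this
  exact (mem_nzd_iff t).1 ht (this.trans (map_zero _).symm)

theorem Aff_inv (u : U) (g : G) : ∀ p ∈ Aff_gr j u, (lam g p.1, lam g p.2) ∈ Aff_gr j u :=
  fun p hp t b h => by rw [mem_VN.1 t.2, mem_VN.1 b.2, hp t b h]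

theorem Aff_eq (hj : IsFrac j) {u : U} {s a : VN G} (hs : s ∈ nonZeroDivisors (VN G))
    (h : u * j s = j a) {A : Set (L2 G × L2 G)} (h1 : A ⊆ Aff_gr j u)
    (h2 : ∀ x, (s.1 x, a.1 x) ∈ A) : (Aff_gr j u : Set (L2 G × L2 G)) = closure A :=
  Set.Subset.antisymm
    ((Aff_max (Aff_closed u) (Aff_graph hj u) (Aff_inv u) hs (Aff_col_mem hj h)).trans
      (closure_mono (Set.range_subset_iff.2 h2)))
    ((Aff_closed u).closure_subset_iff.2 h1)

theorem IsFrac.exists_isAffil {G U : Type} [Group G] [Ring U] {j : VN G →+* U} (hj : IsFrac j) :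
    ∃ Γ, IsAffil Γ (j.comp (toVN G)) := by
  refine ⟨Aff_gr j, fun u v h => ?_, fun W => ⟨?_, ?_⟩, fun u v => ?_, fun u v => ?_,
    fun g p => ?_⟩
  · obtain ⟨a, s, hs, e⟩ := hj.frac u
    obtain ⟨t, ht, b, e'⟩ := hj.den_left fun _ : Unit => v
    have e1 : t * a = b () * s := Subtype.ext (ContinuousLinearMap.ext fun x =>
      (h ▸ Aff_col_mem hj e x : (s.1 x, a.1 x) ∈ Aff_gr j v) t _ (e' ()))
    refine (hj.unit t ht).mul_left_cancel ((hj.unit s hs).mul_right_cancel ?_)
    rw [e' (), mul_assoc, e, ← j.map_mul, ← j.map_mul, e1]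
  · rintro ⟨u, rfl⟩
    obtain ⟨a, s, hs, e⟩ := hj.frac u
    refine ⟨Aff_closed u, Aff_graph hj u, (Aff_dense hs).mono ?_, Aff_inv u⟩
    rintro _ ⟨x, rfl⟩
    exact ⟨_, Aff_col_mem hj e x, rfl⟩
  · rintro ⟨h1, h2, h3, h4⟩
    obtain ⟨s, a, e1, e2⟩ := Aff_col W h1 h4
    have hs : s ∈ nonZeroDivisors (VN G) := by
      refine (mem_nzd_iff s).2 ((injective_iff_map_eq_zero _).2 fun x hx => ?_)
      have hax : a.1 x = 0 := h2 _ (by rw [← hx]; exact e1 x)
      refine Aff_zero h3 ?_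
      rintro _ ⟨y, hy, rfl⟩
      rw [← inner_conj_symm, e2 x y hy, hx, hax]
      simp
    obtain ⟨w, hw⟩ := hj.unit s hs
    have e : j a * (↑w⁻¹ : U) * j s = j a := by rw [← hw, Units.inv_mul_cancel_right]
    refine ⟨j a * (↑w⁻¹ : U), SetLike.coe_injective (Set.Subset.antisymm ?_ ?_)⟩
    · exact (Aff_max (Aff_closed _) (Aff_graph hj _) (Aff_inv _) hs (Aff_col_mem hj e)).trans
        (h1.closure_subset_iff.2 (Set.range_subset_iff.2 e1))
    · exact (Aff_max h1 h2 h4 hs e1).trans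
        ((Aff_closed _).closure_subset_iff.2 (Set.range_subset_iff.2 (Aff_col_mem hj e)))
  · obtain ⟨s, hs, a, e⟩ := hj.den_right fun i : Bool => if i then u else v
    obtain ⟨t, ht, b, e'⟩ := hj.den_left fun i : Bool => if i then u else v
    have e1 : u * j s = j (a true) := e true
    have e2 : v * j s = j (a false) := e false
    have e3 : j t * u = j (b true) := e' true
    have e4 : j t * v = j (b false) := e' false
    refine Aff_eq hj hs (a := a true + a false) (by rw [add_mul, e1, e2, j.map_add]) ?_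
      fun x => ⟨_, _, Aff_col_mem hj e1 x, Aff_col_mem hj e2 x, rfl⟩
    rintro p ⟨y, z, hy, hz, hp⟩
    refine (Aff_mem hj ht (b := b true + b false) (by rw [mul_add, e3, e4, j.map_add])).2 ?_
    rw [hp, map_add, hy t _ e3, hz t _ e4]
    rfl
  · obtain ⟨a', s, hs, e1⟩ := hj.frac v
    obtain ⟨a, r, hr, e2⟩ := hj.frac u
    obtain ⟨d, c, hc, e3⟩ := KdEq_ore_right a' hr
    refine Aff_eq hj (mul_mem hs hc) (a := a * d) (by
      rw [j.map_mul, mul_assoc, ← mul_assoc v, e1, ← j.map_mul, e3, j.map_mul, ← mul_assoc, e2,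
        j.map_mul])
      ?_ fun x => ⟨a'.1 (c.1 x), Aff_col_mem hj e1 (c.1 x), ?_⟩
    · rintro p ⟨y, hy, hz⟩
      obtain ⟨t, ht, b, e4⟩ := hj.den_left fun _ : Unit => u
      obtain ⟨t', ht', b', e5⟩ := hj.den_left fun _ : Unit => v
      obtain ⟨k, l, hl, e6⟩ := KdEq_ore_left (b ()) ht'
      refine (Aff_mem hj (mul_mem hl ht) (b := k * b' ()) (by
        rw [j.map_mul, mul_assoc, ← mul_assoc (j t), e4 (), ← mul_assoc, ← j.map_mul, e6,
          j.map_mul, mul_assoc, e5 (), j.map_mul])).2 ?_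
      have e7 : l.1 ((b ()).1 y) = k.1 (t'.1 y) := congrArg (fun f : VN G => f.1 y) e6
      change l.1 (t.1 p.2) = k.1 ((b' ()).1 p.1)
      rw [hz t _ (e4 ()), e7, hy t' _ (e5 ())]
    · have e4 : a'.1 (c.1 x) = r.1 (d.1 x) := congrArg (fun f : VN G => f.1 x) e3
      rw [e4]
      exact Aff_col_mem hj e2 (d.1 x)
  · rw [Aff_mem hj (one_mem _) (b := toVN G (MonoidAlgebra.single g 1)) (by
      rw [j.map_one, one_mul]; rfl), coe_toVN_single]
    rfl

end Pool.Agent.Work.MP_735653_gt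
end

-- merged part: Pool.Agent.Work.MP_735653_gt.Tor
section
/-! The torsion of a complex with a perfect acyclic matching. -/

namespace Pool.Agent.Work.MP_735653_gt

open Matrix

variable {D I : Type} [Ring D] [Fintype I] [DecidableEq I]

theorem Tor_alg {R : Type} [Ring R] {A g E F : R} (hEF : E + F = 1) (hA : A * A = 0)
    (h1 : E * (A * g) = E) (h2 : g * A * F = F) (h3 : E * g = 0) (h4 : g * F = 0) :
    A * g + g * A = 1 ∧ (1 + g * A * E) * (A + g) = E * A + g := by
  have hE : E = 1 - F := by rw [← hEF]; abel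
  have k1 : g * A * E = g * A - F := by rw [hE, mul_sub, mul_one, h2]
  have k2 : F * (A * g) = A * g - E := by
    have hF : F = 1 - E := by rw [← hEF]; abel
    rw [hF, sub_mul, one_mul, h1]
  have k3 : g * A * (A * g) = 0 := by
    rw [mul_assoc, ← mul_assoc A A, hA, zero_mul, mul_zero]
  have k4 : g * A * E + F * (A * g) = 0 := by
    calc g * A * E + F * (A * g) = g * A * (E * (A * g)) + g * A * F * (A * g) := by rw [h1, h2]
      _ = g * A * ((E + F) * (A * g)) := by noncomm_ring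
      _ = 0 := by rw [hEF, one_mul, k3]
  have _ := h4
  constructor
  · rw [k1, k2] at k4
    rw [← hEF]
    calc A * g + g * A = (g * A - F + (A * g - E)) + (E + F) := by abel
      _ = E + F := by rw [k4, zero_add]
  · have k5 : g * A * E * A = -(F * A) := by
      rw [k1, sub_mul, mul_assoc, hA, mul_zero, zero_sub]
    have k6 : g * A * E * g = 0 := by rw [mul_assoc, h3, mul_zero]
    rw [add_mul, one_mul, mul_add, k5, k6, hE, sub_mul, one_mul]
    abel

theorem Tor_tri (r : I → ℤ) (T : Matrix I I D) (hT : ∀ i j, i ≠ j → T i j ≠ 0 → r j < r i)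
    (hu : ∀ i, IsUnit (T i i)) :
    ∃ E ∈ Elem D I, T = Matrix.diagonal (fun i => T i i) * E := by
  refine ⟨1 + Matrix.of fun i j => if i = j then 0 else ((hu i).unit⁻¹ : Dˣ) * T i j,
    elem_tri r _ ?_, ?_⟩
  · intro i j h
    rw [Matrix.of_apply] at h
    by_cases e : i = j
    · rw [if_pos e] at h
      exact absurd rfl h
    · rw [if_neg e] at h
      exact hT i j e (fun h0 => h (by rw [h0, mul_zero]))
  · ext i j
    rw [Matrix.diagonal_mul, Matrix.add_apply, Matrix.of_apply, Matrix.one_apply]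
    by_cases e : i = j
    · subst e
      simp
    · rw [if_neg e, if_neg e, zero_add, ← mul_assoc, IsUnit.mul_val_inv, one_mul]

theorem Mt.torsion [Nontrivial D] {d : I → ℤ} {A : Matrix I I D} (hA : Cx d A) (m : Mt A)
    (hm : ∀ i, m.up i ∨ m.dn i) :
    ∃ u : {i // Odd (d i)} → D, IsTorsion d A u ∧ (∀ i, m.up i.1 → u i = A i.1 (m.σ i.1)) ∧
      ∀ i, m.dn i.1 → u i * A (m.σ i.1) i.1 = 1 := by
  classical
  obtain ⟨γ, hγ, h2, h3, h4, h5⟩ := Mt.exists_γ hA.gr m
  have hσ : ∀ i, m.σ (m.σ i) = i := fun i =>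
    (hm i).elim (fun h => (m.up_σ i h).2) (fun h => (m.dn_σ i h).2)
  have hσi : ∀ i j, m.σ i = m.σ j → i = j := fun i j h => by rw [← hσ i, h, hσ]
  have hdup : ∀ i, m.up i → d (m.σ i) = d i + -1 := fun i h =>
    hA.gr i _ (m.unit i h).ne_zero
  have hpar : ∀ i, Odd (d i) ↔ Even (d (m.σ i)) := by
    intro i
    rcases hm i with h | h
    · rw [hdup i h, Int.odd_iff, Int.even_iff]
      omega
    · have := hdup _ (m.dn_σ i h).1
      rw [hσ] at this
      rw [Int.odd_iff, Int.even_iff]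
      omega
  let e : {i // Odd (d i)} ≃ {i // Even (d i)} :=
    { toFun := fun i => ⟨m.σ i.1, (hpar i.1).1 i.2⟩
      invFun := fun i => ⟨m.σ i.1, (hpar _).2 (by rw [hσ]; exact i.2)⟩
      left_inv := fun i => Subtype.ext (hσ _)
      right_inv := fun i => Subtype.ext (hσ _) }
  let E : Matrix I I D := Matrix.diagonal fun i => if m.up i then 1 else 0
  let F : Matrix I I D := Matrix.diagonal fun i => if m.up i then 0 else 1
  have hdn : ∀ i, ¬ m.up i → m.dn i := fun i h => (hm i).resolve_left h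
  have hEF : E + F = 1 := by
    simp only [E, F]
    rw [Matrix.diagonal_add, ← Matrix.diagonal_one]
    congr 1
    funext i
    split_ifs <;> simp
  have k1 : E * (A * γ) = E := by
    ext i j
    simp only [E]
    rw [Matrix.diagonal_mul, Matrix.diagonal_apply]
    by_cases h : m.up i
    · rw [if_pos h, one_mul, h3 i j h, Matrix.one_apply]
    · rw [if_neg h, zero_mul, ite_self]
  have k2 : γ * A * F = F := by
    ext i j
    simp only [F]
    rw [Matrix.mul_diagonal, Matrix.diagonal_apply]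
    by_cases h : m.up j
    · rw [if_pos h, mul_zero]
      split_ifs with h' h''
      · rfl
      · exact absurd (h' ▸ h) h''
      · rfl
    · rw [if_neg h, mul_one, h4 i j (hdn j h), Matrix.one_apply]
      split_ifs with h' h''
      · exact absurd (h' ▸ h'') h
      · rfl
      · rfl
  have k3 : E * γ = 0 := by
    ext i j
    simp only [E]
    rw [Matrix.diagonal_mul, Matrix.zero_apply]
    by_cases h : m.up i
    · rw [if_pos h, one_mul]
      by_contra h0
      exact m.disj i h (h2 i j h0).1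
    · rw [if_neg h, zero_mul]
  have k4 : γ * F = 0 := by
    ext i j
    simp only [F]
    rw [Matrix.mul_diagonal, Matrix.zero_apply]
    by_cases h : m.up j
    · rw [if_pos h, mul_zero]
    · rw [if_neg h, mul_one]
      by_contra h0
      exact h (h2 i j h0).2
  obtain ⟨c1, c2⟩ := Tor_alg hEF hA.sq k1 k2 k3 k4
  have tup : ∀ i j, m.up i → (E * A + γ) i j = A i j := by
    intro i j h
    have : γ i j = 0 := by
      by_contra h0
      exact m.disj i h (h2 i j h0).1
    simp only [E]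
    rw [Matrix.add_apply, Matrix.diagonal_mul, if_pos h, one_mul, this, add_zero]
  have tdn : ∀ i j, ¬ m.up i → (E * A + γ) i j = γ i j := by
    intro i j h
    simp only [E]
    rw [Matrix.add_apply, Matrix.diagonal_mul, if_neg h, zero_mul, zero_add]
  have hinv : ∀ i, m.dn i → γ i (m.σ i) * A (m.σ i) i = 1 := by
    intro i h
    have := h4 i i h
    rw [Matrix.one_apply_eq, Matrix.mul_apply, Finset.sum_eq_single (m.σ i)] at this
    · exact this
    · intro k _ hk
      by_contra h0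
      have a1 : γ i k ≠ 0 := fun z => h0 (by rw [z, zero_mul])
      have a2 : A k i ≠ 0 := fun z => h0 (by rw [z, mul_zero])
      have a3 := (h5 i k a1).resolve_left hk
      have a4 := m.tri k i (h2 i k a1).2 h a2 (fun z => hk (by rw [z, hσ]))
      omega
    · intro h'
      exact absurd (Finset.mem_univ _) h'
  let T : Matrix {i // Odd (d i)} {i // Odd (d i)} D :=
    (E * A + γ).submatrix Subtype.val (fun i => m.σ i.1)
  have hT : ∀ i j, T i j = (E * A + γ) i.1 (m.σ j.1) := fun _ _ => rfl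
  have hbig : ∀ i, |m.ρ i| ≤ ∑ k, |m.ρ k| := fun i =>
    Finset.single_le_sum (f := fun k => |m.ρ k|) (fun k _ => abs_nonneg _) (Finset.mem_univ i)
  obtain ⟨E₂, hE₂, hT2⟩ := Tor_tri
    (fun i : {i // Odd (d i)} =>
      if m.up i.1 then m.ρ i.1 + (2 * ∑ k, |m.ρ k| + 1) else m.ρ (m.σ i.1)) T
    (by
      intro i j hij h0
      have hij' : m.σ j.1 ≠ m.σ i.1 := fun z => hij (Subtype.ext (hσi _ _ z).symm)
      rw [hT] at h0
      by_cases hi : m.up i.1
      · rw [tup _ _ hi] at h0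
        by_cases hj : m.up j.1
        · have := m.tri i.1 _ hi (m.up_σ _ hj).1 h0 hij'
          rw [hσ] at this
          simp only [if_pos hi, if_pos hj]
          omega
        · simp only [if_pos hi, if_neg hj]
          have a1 := abs_le.1 (hbig i.1)
          have a2 := abs_le.1 (hbig (m.σ j.1))
          omega
      · rw [tdn _ _ hi] at h0
        have hj : ¬ m.up j.1 := fun hj => m.disj _ (h2 _ _ h0).2 (m.up_σ _ hj).1
        simp only [if_neg hi, if_neg hj]
        exact (h5 _ _ h0).resolve_left hij')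
    (by
      intro i
      rw [hT]
      by_cases hi : m.up i.1
      · rw [tup _ _ hi]
        exact m.unit _ hi
      · rw [tdn _ _ hi]
        have a1 := hinv _ (hdn _ hi)
        have a2 := m.unit _ (m.dn_σ _ (hdn _ hi)).1
        rw [hσ] at a2
        obtain ⟨w, hw⟩ := a2
        rw [← hw] at a1
        have a3 : γ i.1 (m.σ i.1) = ↑w⁻¹ := Units.eq_inv_of_mul_eq_one_right a1
        rw [a3]
        exact Units.isUnit _)
  have hE0 : Gr 0 d d E := by
    intro i j h
    simp only [E] at h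
    by_cases e' : i = j
    · rw [e', add_zero]
    · rw [Matrix.diagonal_apply_ne _ e'] at h
      exact absurd rfl h
  have hX : Gr 0 d d (1 + γ * A * E) :=
    (Gr.one d).add (Gr.mul (Gr.mul (m := 0) hγ hA.gr (by norm_num)) hE0 (by norm_num))
  let X : Matrix {i // Odd (d i)} {i // Odd (d i)} D :=
    (γ * A * E).submatrix Subtype.val Subtype.val
  have hXe : 1 + X ∈ Elem D {i // Odd (d i)} := by
    apply elem_tri (fun i : {i // Odd (d i)} => if m.up i.1 then 0 else 1)
    intro i j h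
    have h' : (γ * A * E) i.1 j.1 ≠ 0 := h
    have hj : m.up j.1 := by
      by_contra hj
      apply h'
      simp only [E]
      rw [Matrix.mul_diagonal, if_neg hj, mul_zero]
    have hi : ¬ m.up i.1 := by
      intro hi
      apply h'
      rw [Matrix.mul_assoc, Matrix.mul_apply]
      apply Finset.sum_eq_zero
      intro k _
      have : γ i.1 k = 0 := by
        by_contra h0
        exact m.disj _ hi (h2 _ _ h0).1
      rw [this, zero_mul]
    simp only [if_pos hj, if_neg hi]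
    norm_num
  obtain ⟨E₁, hE₁, _, hE₁'⟩ := Elem.exists_inv hXe
  have hmul : (1 + X) * (A + γ).submatrix Subtype.val (fun i => (e i).val) = T := by
    ext i j
    rw [hT, ← c2, Matrix.mul_apply, Matrix.mul_apply]
    have a1 : ∀ k : {i // Odd (d i)}, (1 + X) i k = (1 + γ * A * E) i.1 k.1 := by
      intro k
      rw [Matrix.add_apply, Matrix.add_apply, Matrix.one_apply, Matrix.one_apply]
      congr 1
      simp only [Subtype.ext_iff]
    rw [Finset.sum_congr rfl (fun k _ => by rw [a1 k])]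
    refine (Finset.sum_subtype (Finset.univ.filter fun k => Odd (d k)) (p := fun k => Odd (d k))
      (by simp) (fun k => (1 + γ * A * E) i.1 k * (A + γ) k (m.σ j.1))).symm.trans ?_
    apply Finset.sum_subset (Finset.filter_subset _ _)
    intro k _ hk
    have : (1 + γ * A * E) i.1 k = 0 := by
      by_contra h0
      apply hk
      rw [Finset.mem_filter, hX _ _ h0, add_zero]
      exact ⟨Finset.mem_univ _, i.2⟩
    rw [this, zero_mul]
  refine ⟨fun i => T i i, ⟨γ, e, hγ, c1, E₁, hE₁, E₂, hE₂, ?_⟩, fun i hi => ?_, fun i hi => ?_⟩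
  · rw [Matrix.mul_assoc, ← hT2, ← hmul, ← Matrix.mul_assoc, hE₁', Matrix.one_mul]
  · show T i i = _
    rw [hT, tup _ _ hi]
  · show T i i * _ = _
    rw [hT, tdn _ _ (fun h => m.disj _ h hi)]
    exact hinv _ hi

end Pool.Agent.Work.MP_735653_gt
end

-- merged part: Pool.Agent.Work.MP_735653_gt.Poly
section
/-! Calculations in the polytope group. -/

namespace Pool.Agent.Work.MP_735653_gt

open Pointwise

variable {n : ℕ}

/-- lattice points as real points -/
def Poly_c (n : ℕ) : (Fin n → ℤ) →+ (Fin n → ℝ) where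
  toFun v i := (v i : ℝ)
  map_zero' := by ext; simp
  map_add' u v := by ext; simp

/-- the convex hull of a finite set of lattice points -/
def Poly_hull (T : Finset (Fin n → ℤ)) : Set (Fin n → ℝ) :=
  convexHull ℝ (Poly_c n '' (T : Set (Fin n → ℤ)))

theorem Poly_mem {T : Finset (Fin n → ℤ)} (hT : T.Nonempty) : Poly_hull T ∈ polys n := by
  classical
  exact ⟨T.image (Poly_c n), hT.image _, by rw [Finset.coe_image]; rfl⟩

/-- the class of a polytope -/
noncomputable def Poly_of (n : ℕ) : polys n →+ PG n :=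
  Algebra.GrothendieckAddGroup.of.comp (transl n).mk'

theorem Poly_cls {T : Finset (Fin n → ℤ)} (hT : T.Nonempty) :
    cls T = Poly_of n ⟨Poly_hull T, Poly_mem hT⟩ := by
  unfold cls
  rw [dif_pos hT]
  refine congrArg (Poly_of n) (Subtype.ext ?_)
  dsimp only
  rw [Finset.coe_image]
  rfl

theorem Poly_of_eq {P Q : polys n} (v : Fin n → ℝ)
    (h : (Q : Set (Fin n → ℝ)) = {v} + (P : Set (Fin n → ℝ))) : Poly_of n P = Poly_of n Q :=
  congrArg Algebra.GrothendieckAddGroup.of ((transl n).eq.2 ⟨v, h⟩)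

theorem Poly_hull_add (S T : Finset (Fin n → ℤ)) :
    Poly_hull (S + T) = Poly_hull S + Poly_hull T := by
  unfold Poly_hull
  rw [Finset.coe_add, Set.image_add, convexHull_add]

theorem Poly_hull_neg (T : Finset (Fin n → ℤ)) : Poly_hull (-T) = -Poly_hull T := by
  unfold Poly_hull
  rw [Finset.coe_neg, Set.image_neg, convexHull_neg]

theorem cls_add {S T : Finset (Fin n → ℤ)} (hS : S.Nonempty) (hT : T.Nonempty) :
    cls (S + T) = cls S + cls T := by
  rw [Poly_cls hS, Poly_cls hT, Poly_cls (hS.add hT), ← map_add]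
  exact congrArg (Poly_of n) (Subtype.ext (Poly_hull_add S T))

theorem cls_singleton (v : Fin n → ℤ) : cls {v} = 0 := by
  rw [Poly_cls (Finset.singleton_nonempty v), ← map_zero (Poly_of n)]
  refine (Poly_of_eq (Poly_c n v) ?_).symm
  change Poly_hull {v} = {Poly_c n v} + 0
  rw [add_zero, Poly_hull, Finset.coe_singleton, Set.image_singleton, convexHull_singleton]

theorem cls_pair (u v : Fin n → ℤ) : cls {u, v} = cls {0, v - u} := by
  have h : ({u, v} : Finset (Fin n → ℤ)) = {u} + {0, v - u} := by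
    rw [Finset.singleton_add, Finset.vadd_finset_insert, Finset.vadd_finset_singleton, vadd_eq_add,
      vadd_eq_add, add_zero, add_sub_cancel]
  rw [h, cls_add (Finset.singleton_nonempty u) (Finset.insert_nonempty _ _), cls_singleton,
    zero_add]

theorem cls_pair_neg (v : Fin n → ℤ) : cls {0, -v} = cls {0, v} := by
  rw [Finset.pair_comm, cls_pair, zero_sub, neg_neg]

/-- the reflection of polytopes -/
def Poly_neg (n : ℕ) : polys n →+ polys n where
  toFun P := ⟨-(P : Set (Fin n → ℝ)), by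
    classical
    obtain ⟨T, hT, h⟩ := P.2
    exact ⟨-T, hT.neg, by rw [h, Finset.coe_neg, convexHull_neg]⟩⟩
  map_zero' := Subtype.ext neg_zero
  map_add' P Q := Subtype.ext (neg_add (P : Set (Fin n → ℝ)) Q)

theorem exists_mir (n : ℕ) : ∃ mir : PG n →+ PG n, ∀ T, mir (cls T) = cls (-T) := by
  have H : transl n ≤ AddCon.ker ((Poly_of n).comp (Poly_neg n)) := by
    rintro P Q ⟨v, h⟩
    refine Poly_of_eq (P := Poly_neg n P) (Q := Poly_neg n Q) (-v) ?_
    change -(Q : Set (Fin n → ℝ)) = {-v} + -(P : Set (Fin n → ℝ))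
    rw [h, neg_add, Set.neg_singleton]
  refine ⟨Algebra.GrothendieckAddGroup.lift ((transl n).lift _ H), fun T => ?_⟩
  rcases T.eq_empty_or_nonempty with rfl | hT
  · rw [Finset.neg_empty, cls, dif_neg Finset.not_nonempty_empty, map_zero]
  · rw [Poly_cls hT, Poly_cls hT.neg]
    have h1 := DFunLike.congr_fun
      (Algebra.GrothendieckAddGroup.lift.left_inv ((transl n).lift _ H))
      ((transl n).mk' ⟨Poly_hull T, Poly_mem hT⟩)
    exact h1.trans (congrArg (Poly_of n) (Subtype.ext (Poly_hull_neg T).symm))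

theorem Poly_sum {ι : Type} (s : Finset ι) (F : ι → Finset (Fin n → ℤ))
    (hF : ∀ i ∈ s, (F i).Nonempty) :
    (∑ i ∈ s, F i).Nonempty ∧ cls (∑ i ∈ s, F i) = ∑ i ∈ s, cls (F i) := by
  classical
  induction s using Finset.induction_on with
  | empty =>
    rw [Finset.sum_empty, Finset.sum_empty]
    exact ⟨Finset.zero_nonempty, cls_singleton 0⟩
  | insert a s ha ih =>
    obtain ⟨h1, h2⟩ := ih fun i hi => hF i (Finset.mem_insert_of_mem hi)
    have h3 := hF a (Finset.mem_insert_self a s)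
    rw [Finset.sum_insert ha, Finset.sum_insert ha, cls_add h3 h1, h2]
    exact ⟨h3.add h1, rfl⟩

theorem Poly_mem_sum {ι : Type} (s : Finset ι) (F : ι → Finset (Fin n → ℤ)) (z : Fin n → ℤ) :
    z ∈ ∑ i ∈ s, F i ↔ ∃ g : ι → Fin n → ℤ, (∀ i ∈ s, g i ∈ F i) ∧ ∑ i ∈ s, g i = z := by
  rw [← Finset.mem_coe, Finset.coe_sum, Set.mem_finsetSum]
  exact ⟨fun ⟨g, h1, h2⟩ => ⟨g, fun _ hi => h1 hi, h2⟩, fun ⟨g, h1, h2⟩ => ⟨g, fun hi => h1 _ hi, h2⟩⟩

/-- the lattice points of the zonotope -/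
def Poly_Z (T : Finset (Fin n → ℤ)) : Finset (Fin n → ℤ) := ∑ p ∈ T.offDiag, {p.1, p.2}

/-- the complementary summand -/
def Poly_R (T : Finset (Fin n → ℤ)) : Finset (Fin n → ℤ) :=
  (Poly_Z T - T).filter fun r => ∀ b ∈ T, b + r ∈ Poly_Z T

theorem Poly_key {T : Finset (Fin n → ℤ)} (hT : T.Nonempty) (ξ : (Fin n → ℤ) →+ ℝ)
    {z : Fin n → ℤ} (hz : z ∈ Poly_Z T) : ∃ a ∈ T, ∃ r ∈ Poly_R T, ξ z ≤ ξ (a + r) := by
  obtain ⟨a, ha, hmax⟩ := T.exists_max_image ξ hT
  obtain ⟨g, hg, rfl⟩ := (Poly_mem_sum _ _ _).1 hz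
  set f : (Fin n → ℤ) × (Fin n → ℤ) → Fin n → ℤ := fun p =>
    if p.1 = a ∨ p.2 = a then a else if ξ p.1 ≤ ξ p.2 then p.2 else p.1 with hf
  have hf1 : ∀ p, f p ∈ ({p.1, p.2} : Finset (Fin n → ℤ)) := by
    intro p
    simp only [hf, Finset.mem_insert, Finset.mem_singleton]
    split_ifs with h1 h2
    · exact h1.imp Eq.symm Eq.symm
    · exact Or.inr rfl
    · exact Or.inl rfl
  have hf2 : ∀ p ∈ T.offDiag, ξ (g p) ≤ ξ (f p) := by
    intro p hp
    have h0 := hg p hp
    obtain ⟨h1, h2, -⟩ := Finset.mem_offDiag.1 hp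
    simp only [Finset.mem_insert, Finset.mem_singleton] at h0
    simp only [hf]
    split_ifs with h3 h4
    · rcases h0 with h0 | h0 <;> rw [h0]
      exacts [hmax _ h1, hmax _ h2]
    · rcases h0 with h0 | h0 <;> rw [h0]
      exact h4
    · rcases h0 with h0 | h0 <;> rw [h0]
      exact (not_le.1 h4).le
  have hZ : ∑ p ∈ T.offDiag, f p ∈ Poly_Z T := (Poly_mem_sum _ _ _).2 ⟨f, fun p _ => hf1 p, rfl⟩
  refine ⟨a, ha, ∑ p ∈ T.offDiag, f p - a, Finset.mem_filter.2
    ⟨Finset.sub_mem_sub hZ ha, fun b hb => ?_⟩, ?_⟩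
  · by_cases hab : b = a
    · rwa [hab, add_sub_cancel]
    · have hp : (a, b) ∈ T.offDiag := Finset.mem_offDiag.2 ⟨ha, hb, Ne.symm hab⟩
      refine (Poly_mem_sum _ _ _).2 ⟨Function.update f (a, b) b, fun p _ => ?_, ?_⟩
      · by_cases h : p = (a, b)
        · rw [h, Function.update_self]
          exact Finset.mem_insert_of_mem (Finset.mem_singleton_self b)
        · rw [Function.update_of_ne h]
          exact hf1 p
      · have h1 : f (a, b) = a := if_pos (Or.inl rfl)
        rw [Finset.sum_update_of_mem hp, Finset.sdiff_singleton_eq_erase,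
          ← Finset.add_sum_erase _ f hp, h1, add_sub_cancel_left]
  · rw [add_sub_cancel, map_sum, map_sum]
    exact Finset.sum_le_sum hf2

theorem Poly_hull_eq {T : Finset (Fin n → ℤ)} (hT : T.Nonempty) :
    Poly_hull (T + Poly_R T) = Poly_hull (Poly_Z T) := by
  refine Set.Subset.antisymm (convexHull_mono (Set.image_mono fun x hx => ?_))
    (convexHull_min ?_ (convex_convexHull ℝ _))
  · obtain ⟨b, hb, r, hr, rfl⟩ := Finset.mem_add.1 hx
    exact (Finset.mem_filter.1 hr).2 b hb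
  · rintro _ ⟨z, hz, rfl⟩
    by_contra hn
    obtain ⟨ξ, u, h1, h2⟩ := geometric_hahn_banach_closed_point (convex_convexHull ℝ _)
      (((T + Poly_R T).finite_toSet.image _).isClosed_convexHull ℝ) hn
    obtain ⟨a, ha, r, hr, h3⟩ := Poly_key hT
      (ξ.toLinearMap.toAddMonoidHom.comp (Poly_c n)) hz
    have h4 := h1 _ (subset_convexHull ℝ _ ⟨a + r, Finset.add_mem_add ha hr, rfl⟩)
    exact lt_irrefl _ ((h4.trans h2).trans_le h3)

theorem zonotope {T : Finset (Fin n → ℤ)} (hT : T.Nonempty) :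
    ∃ R : Finset (Fin n → ℤ), R.Nonempty ∧
      ∑ p ∈ T.offDiag, cls {0, p.2 - p.1} = cls T + cls R := by
  obtain ⟨h1, h2⟩ := Poly_sum T.offDiag (fun p => {p.1, p.2})
    fun p _ => Finset.insert_nonempty _ _
  obtain ⟨z, hz⟩ := h1
  obtain ⟨-, -, r, hr, -⟩ := Poly_key hT 0 hz
  have hR : (Poly_R T).Nonempty := ⟨r, hr⟩
  refine ⟨Poly_R T, hR, ?_⟩
  rw [← cls_add hT hR, ← Finset.sum_congr rfl fun p _ => cls_pair p.1 p.2, ← h2,
    Poly_cls (hT.add hR), Poly_cls ⟨z, hz⟩]
  exact congrArg (Poly_of n) (Subtype.ext (Poly_hull_eq hT).symm)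

end Pool.Agent.Work.MP_735653_gt
end

-- merged part: Pool.Agent.Work.MP_735653_gt.TorZ
section
/-! The torsion polytope of a complex over the group ring with a perfect matching. -/

namespace Pool.Agent.Work.MP_735653_gt

variable {G U : Type} [Group G] [Ring U] {n : ℕ} {ι : ZG G →+* U}
  {ν : G →* Multiplicative (Fin n → ℤ)} {s : (Fin n → ℤ) → G}

theorem isPoly_of (hι : Function.Injective ι) (hs : ∀ h, ν (s h) = Multiplicative.ofAdd h)
    {x : ZG G} (hx : x ≠ 0) : IsPoly ι ν s (ι x) (nsupp ν x) := by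
  classical
  refine ⟨(Finsupp.support_nonempty_iff.2 (mt MonoidAlgebra.coeff_eq_zero.1 hx)).image _,
    fun h => ι (MonoidAlgebra.ofCoeff (x.coeff.filter fun g => (ν g).toAdd = h) *
      MonoidAlgebra.single (s h)⁻¹ 1), fun h hh => ⟨fun e => ?_, subset_divCl _ ⟨_, ?_, rfl⟩⟩, ?_⟩
  · obtain ⟨g, hg, rfl⟩ := Finset.mem_image.1 hh
    have h1 := congrArg (fun y : ZG G => y.coeff (g * (s (ν g).toAdd)⁻¹))
      (hι (e.trans (map_zero ι).symm))
    simp only [MonoidAlgebra.coeff_mul_single_apply] at h1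
    simp [Finsupp.mem_support_iff.1 hg] at h1
  · intro g hg
    rw [Finsupp.mem_support_iff, MonoidAlgebra.coeff_mul_single_apply, mul_one, inv_inv,
      Finsupp.filter_apply] at hg
    have h1 : (ν (g * s h)).toAdd = h := by
      by_contra h2
      exact hg (if_neg h2)
    rw [map_mul, hs, toAdd_mul, toAdd_ofAdd, add_eq_right] at h1
    exact h1
  · simp only [← map_mul, mul_assoc, MonoidAlgebra.single_mul_single, inv_mul_cancel, mul_one,
      ← MonoidAlgebra.one_def, ← map_sum]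
    congr 1
    ext g
    simp only [MonoidAlgebra.coeff_sum, Finsupp.finsetSum_apply, Finsupp.filter_apply,
      Finset.sum_ite_eq]
    split_ifs with h
    · rfl
    · by_contra h1
      exact h (Finset.mem_image_of_mem _ (Finsupp.mem_support_iff.2 h1))

open Classical in
theorem torPoly_of_matching (hι : Function.Injective ι) (hD : IsDiv (divCl (Set.range ι)))
    (hs : ∀ h, ν (s h) = Multiplicative.ofAdd h) {I : Type} [Fintype I] [DecidableEq I]
    {d : I → ℤ} {A : Matrix I I (ZG G)} (hA : Cx d A) (up : I → Prop) (σ : I → I) (ρ : I → ℤ)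
    (h1 : ∀ i, σ (σ i) = i) (h2 : ∀ i, up (σ i) ↔ ¬ up i) (h3 : ∀ i, up i → A i (σ i) ≠ 0)
    (h4 : ∀ i j, up i → ¬ up j → A i j ≠ 0 → j ≠ σ i → ρ (σ j) < ρ i) :
    TorPoly ι ν s d A (∑ i ∈ Finset.univ.filter up, sgn (d i) • cls (nsupp ν (A i (σ i)))) ∧
      ∃ γ : Matrix I I U, A.map ι * γ + γ * A.map ι = 1 := by
  let φ : ZG G →+* divCl (Set.range ι) :=
    ι.codRestrict _ fun x => subset_divCl _ (Set.mem_range_self x)
  have hφ : ∀ x, φ x ≠ 0 ↔ x ≠ 0 := fun x => not_congr (map_eq_zero_iff φ fun a b e =>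
    hι (congrArg Subtype.val e))
  have hA' : Cx d (A.map φ) :=
    ⟨fun i j h => hA.gr i j ((hφ _).1 h), by rw [← Matrix.map_mul, hA.sq]; simp⟩
  let m : Mt (A.map φ) :=
    { up := up
      dn := fun i => ¬ up i
      σ := σ
      ρ := ρ
      up_σ := fun i h => ⟨fun h' => (h2 i).1 h' h, h1 i⟩
      dn_σ := fun i h => ⟨(h2 i).2 h, h1 i⟩
      disj := fun i h h' => h' h
      unit := fun i h => by
        obtain ⟨y, hy, e₁, e₂⟩ := hD _ (φ (A i (σ i))).2 fun e =>
          (hφ _).2 (h3 i h) (Subtype.ext e)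
        exact ⟨⟨φ (A i (σ i)), ⟨y, hy⟩, Subtype.ext e₁, Subtype.ext e₂⟩, rfl⟩
      tri := fun i j hi hj h => h4 i j hi hj ((hφ _).1 h) }
  haveI : Nontrivial (divCl (Set.range ι)) := ⟨⟨φ 1, 0, (hφ 1).2 one_ne_zero⟩⟩
  obtain ⟨u, hu, hup, hdn⟩ := Mt.torsion hA' m fun i => Classical.em _
  have hone : IsPoly ι ν s (ι 1) (nsupp ν 1) := isPoly_of hι hs one_ne_zero
  have hc1 : cls (nsupp ν (1 : ZG G)) = 0 := by
    rw [nsupp, MonoidAlgebra.one_def, MonoidAlgebra.coeff_single,
      Finsupp.support_single _ one_ne_zero, Finset.image_singleton, cls_singleton]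
  have h3' : ∀ i, ¬ up i → A (σ i) i ≠ 0 := fun i h => by
    have := h3 _ ((h2 i).2 h)
    rwa [h1] at this
  have hpar : ∀ i, Odd (d (σ i)) ↔ ¬ Odd (d i) := fun i => by
    by_cases h : up i
    · rw [hA.gr _ _ (h3 i h), Int.odd_iff, Int.odd_iff]
      omega
    · rw [hA.gr _ _ (h3' i h), Int.odd_iff, Int.odd_iff]
      omega
  refine ⟨⟨A.map φ, u, fun i => ι (if up i then A i (σ i) else 1),
    fun i => ι (if up i then 1 else A (σ i) i), fun i => nsupp ν (if up i then A i (σ i) else 1),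
    fun i => nsupp ν (if up i then 1 else A (σ i) i), fun _ _ => rfl, hu, fun i => ?_, ?_⟩, ?_⟩
  · by_cases h : up i
    · simp only [if_pos h]
      exact ⟨by rw [hup i h, map_one, mul_one]; rfl, isPoly_of hι hs (h3 _ h), hone⟩
    · simp only [if_neg h]
      exact ⟨by rw [map_one]; exact congrArg Subtype.val (hdn i h), hone,
        isPoly_of hι hs (h3' _ h)⟩
  · rw [Finset.sum_filter]
    generalize hc : (fun i => if up i then sgn (d i) • cls (nsupp ν (A i (σ i))) else 0) = c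
    have e₁ : ∑ i ∈ Finset.univ.filter (fun i => ¬ Odd (d i)), c i =
        ∑ i ∈ Finset.univ.filter (fun i => Odd (d i)), c (σ i) :=
      Finset.sum_nbij' σ σ (fun i => by simp [hpar])
        (fun i => by simp only [Finset.mem_filter, Finset.mem_univ, true_and, hpar, not_not, imp_self])
        (fun i _ => h1 i)
        (fun i _ => h1 i) fun i _ => by rw [h1]
    rw [← Finset.sum_filter_add_sum_filter_not _ fun i => Odd (d i), e₁, ← Finset.sum_add_distrib,
      ← Finset.sum_neg_distrib,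
      Finset.sum_subtype _ (p := fun i => Odd (d i)) (fun i => by simp)]
    refine Finset.sum_congr rfl fun i _ => ?_
    subst hc
    by_cases h : up i
    · have h' : ¬ up (σ i) := fun h' => (h2 _).1 h' h
      simp [h, h', hc1, sgn, Int.not_even_iff_odd.2 i.2]
    · have h' : Even (d (σ i)) := Int.not_odd_iff_even.1 fun h' => (hpar _).1 h' i.2
      simp [h, (h2 _).2 h, hc1, sgn, h', h1]
  · obtain ⟨γ, -, -, hγ, -⟩ := hu
    refine ⟨γ.map (divCl (Set.range ι)).subtype, ?_⟩
    have e : A.map ι = (A.map φ).map (divCl (Set.range ι)).subtype := rfl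
    rw [e, ← Matrix.map_mul, ← Matrix.map_mul, ← Matrix.map_add _ (map_add _), hγ]
    simp

end Pool.Agent.Work.MP_735653_gt
end

-- merged part: Pool.Agent.Work.MP_735653_gt.TorC
section
/-! The torsion polytope of the doubled small complex. -/

namespace Pool.Agent.Work.MP_735653_gt

open Pointwise

section

variable {G : Type} [Group G] {m : ℕ} {ν : G →* Multiplicative (Fin m → ℤ)}

theorem TorC_mem_nsupp {x : ZG G} {v : Fin m → ℤ} :
    v ∈ nsupp ν x ↔ ∃ g, x.coeff g ≠ 0 ∧ (ν g).toAdd = v := by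
  simp only [nsupp, Finset.mem_image, Finsupp.mem_support_iff]

theorem TorC_nsupp_zero : nsupp ν (0 : ZG G) = ∅ := by
  ext v
  simp [TorC_mem_nsupp]

theorem TorC_ne_zero {x : ZG G} (h : (nsupp ν x).Nonempty) : x ≠ 0 := by
  rintro rfl
  rw [TorC_nsupp_zero] at h
  exact Finset.not_nonempty_empty h

theorem TorC_nsupp_neg (x : ZG G) : nsupp ν (-x) = nsupp ν x := by
  ext v
  simp [TorC_mem_nsupp]

theorem TorC_nsupp_bar (x : ZG G) : nsupp ν (bar x) = -nsupp ν x := by
  ext v
  rw [Finset.mem_neg', TorC_mem_nsupp, TorC_mem_nsupp]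
  constructor
  · rintro ⟨g, hg, rfl⟩
    rw [bar_coeff] at hg
    exact ⟨g⁻¹, hg, by rw [map_inv, toAdd_inv]⟩
  · rintro ⟨g, hg, hv⟩
    refine ⟨g⁻¹, by rwa [bar_coeff, inv_inv], ?_⟩
    rw [map_inv, toAdd_inv, hv, neg_neg]

theorem TorC_nsupp_sub {g : G} (hg : ν g ≠ 1) :
    nsupp ν (MonoidAlgebra.single g 1 - 1) = {0, (ν g).toAdd} := by
  classical
  have hg1 : g ≠ 1 := by
    rintro rfl
    exact hg (map_one ν)
  have hc : ∀ h : G, (MonoidAlgebra.single g (1 : ℤ) - 1 : ZG G).coeff h =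
      (if g = h then 1 else 0) - if 1 = h then 1 else 0 := by
    intro h
    rw [MonoidAlgebra.one_def]
    simp only [MonoidAlgebra.coeff_sub, Finsupp.sub_apply, MonoidAlgebra.coeff_single,
      Finsupp.single_apply]
  ext v
  rw [TorC_mem_nsupp, Finset.mem_insert, Finset.mem_singleton]
  constructor
  · rintro ⟨h, hh, rfl⟩
    rw [hc] at hh
    by_cases h1 : g = h
    · exact Or.inr (by rw [h1])
    · by_cases h2 : 1 = h
      · exact Or.inl (by rw [← h2, map_one, toAdd_one])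
      · rw [if_neg h1, if_neg h2, sub_zero] at hh
        exact absurd rfl hh
  · rintro (rfl | rfl)
    · refine ⟨1, ?_, by rw [map_one, toAdd_one]⟩
      rw [hc, if_neg hg1, if_pos rfl]
      norm_num
    · refine ⟨g, ?_, rfl⟩
      rw [hc, if_pos rfl, if_neg hg1.symm]
      norm_num

theorem TorC_bar_ne {x : ZG G} (h : x ≠ 0) : -bar x ≠ 0 := by
  intro h1
  apply h
  rw [← bar_bar x, neg_eq_zero.1 h1, bar_zero]

end

theorem TorC_sgn (D : ℕ) (k : ℤ) : sgn ((D : ℤ) - k) = (-1) ^ D * sgn k := by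
  unfold sgn
  rcases Nat.even_or_odd D with hD | hD
  · have h1 : Even (D : ℤ) := by exact_mod_cast hD
    rw [hD.neg_one_pow, one_mul]
    have h2 : Even ((D : ℤ) - k) ↔ Even k := by
      rw [Int.even_sub]
      exact ⟨fun h => h.1 h1, fun h => ⟨fun _ => h, fun _ => h1⟩⟩
    simp only [h2]
  · have h1 : ¬ Even (D : ℤ) := by
      rw [Int.not_even_iff_odd]
      exact_mod_cast hD
    rw [hD.neg_one_pow]
    have h2 : Even ((D : ℤ) - k) ↔ ¬ Even k := by
      rw [Int.even_sub]
      exact ⟨fun h h' => h1 (h.2 h'), fun h => ⟨fun h' => absurd h' h1, fun h' => absurd h' h⟩⟩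
    by_cases hk : Even k
    · rw [if_neg (fun h => h2.1 h hk), if_pos hk, mul_one]
    · rw [if_pos (h2.2 hk), if_neg hk]
      norm_num

open Classical in
/-- a perfect acyclic matching of a complex gives one of its double -/
theorem TorC_double {G U I : Type} [Group G] [Ring U] {m : ℕ} [Fintype I] [DecidableEq I]
    {ι : ZG G →+* U} {ν : G →* Multiplicative (Fin m → ℤ)} {s : (Fin m → ℤ) → G}
    (hι : Function.Injective ι) (hD : IsDiv (divCl (Set.range ι)))
    (hs : ∀ h, ν (s h) = Multiplicative.ofAdd h) {d : I → ℤ} {A Φ : Matrix I I (ZG G)} (D : ℕ)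
    (hc : Cx (Sum.elim d fun j => (D : ℤ) - d j - 1) (Matrix.fromBlocks A Φ 0 (-ct A)))
    (up : I → Prop) (σ : I → I) (ρ : I → ℤ) (hρ : ∀ i, 0 < ρ i)
    (h1 : ∀ i, σ (σ i) = i) (h2 : ∀ i, up (σ i) ↔ ¬ up i) (h3 : ∀ i, up i → A i (σ i) ≠ 0)
    (h4 : ∀ i j, up i → ¬ up j → A i j ≠ 0 → j ≠ σ i → ρ (σ j) < ρ i)
    (mir : PG m →+ PG m) (hmir : ∀ T, mir (cls T) = cls (-T)) (P : PG m)
    (hP : P = ∑ i, if up i then sgn (d i) • cls (nsupp ν (A i (σ i))) else 0) :
    TorPoly ι ν s (Sum.elim d fun j => (D : ℤ) - d j - 1) (Matrix.fromBlocks A Φ 0 (-ct A))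
      (P + (-1 : ℤ) ^ D • mir P) ∧
    ∃ Γ : Matrix _ _ U, (Matrix.fromBlocks A Φ 0 (-ct A)).map ι * Γ +
      Γ * (Matrix.fromBlocks A Φ 0 (-ct A)).map ι = 1 := by
  have key := torPoly_of_matching hι hD hs hc (Sum.elim up fun j => ¬ up j) (Sum.map σ σ)
    (Sum.elim ρ fun j => -ρ (σ j))
    (by rintro (i | i) <;> simp [h1])
    (by rintro (i | i) <;> simp [h2])
    (by
      rintro (i | i) hi
      · exact h3 i hi
      · have h5 := h3 (σ i) ((h2 i).2 hi)
        rw [h1] at h5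
        exact TorC_bar_ne h5)
    (by
      rintro (i | i) (j | j) hi hj hA hne
      · exact h4 i j hi hj hA fun h => hne (by rw [h]; rfl)
      · have h5 := hρ i
        have h6 := hρ (σ (σ j))
        change -ρ (σ (σ j)) < ρ i
        omega
      · exact absurd rfl hA
      · have h5 : A j i ≠ 0 := by
          intro h
          apply hA
          change -bar (A j i) = 0
          rw [h, bar_zero, neg_zero]
        have h6 := h4 j i (not_not.1 hj) hi h5 fun h => hne (by rw [h]; exact congrArg _ (h1 j).symm)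
        change -ρ (σ (σ j)) < -ρ (σ i)
        rw [h1]
        omega)
  refine ⟨?_, key.2⟩
  convert key.1 using 1
  rw [Finset.sum_filter, Fintype.sum_sum_type]
  refine congrArg₂ (· + ·) ?_ ?_
  · rw [hP]
    refine Finset.sum_congr rfl fun i _ => ?_
    by_cases hi : up i
    · rw [if_pos hi, if_pos (show Sum.elim up (fun j => ¬ up j) (Sum.inl i) from hi)]
      rfl
    · rw [if_neg hi, if_neg (show ¬ Sum.elim up (fun j => ¬ up j) (Sum.inl i) from hi)]
  · rw [hP, map_sum, Finset.smul_sum]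
    refine Fintype.sum_equiv (Function.Involutive.toPerm σ h1) _ _ fun i => ?_
    rw [Function.Involutive.coe_toPerm]
    by_cases hi : up i
    · have h5 : ¬ up (σ i) := fun h => (h2 i).1 h hi
      rw [if_pos hi, if_pos (show Sum.elim up (fun j => ¬ up j) (Sum.inr (σ i)) from h5)]
      have h6 : d (σ i) = d i + -1 := hc.gr (Sum.inl i) (Sum.inl (σ i)) (h3 i hi)
      change _ = sgn ((D : ℤ) - d (σ i) - 1) • cls (nsupp ν (-bar (A (σ (σ i)) (σ i))))
      rw [h1, TorC_nsupp_neg, TorC_nsupp_bar, h6, map_zsmul, hmir, smul_smul,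
        show (D : ℤ) - (d i + -1) - 1 = D - d i by ring, TorC_sgn]
    · have h5 : ¬ ¬ up (σ i) := not_not.2 ((h2 i).2 hi)
      rw [if_neg hi, if_neg (show ¬ Sum.elim up (fun j => ¬ up j) (Sum.inr (σ i)) from h5),
        map_zero, smul_zero]

/-- the upper cells of the matching of the small complex -/
def TorC_up {S C : Type} : IR (Option S) S C → Prop
  | .inl _ => False
  | .inr (.inl none) => True
  | .inr (.inl (some _)) => False
  | .inr (.inr (.inl _)) => True
  | .inr (.inr (.inr (.inl _))) => False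
  | .inr (.inr (.inr (.inr _))) => True

/-- the matching of the small complex -/
def TorC_σ {S C : Type} : IR (Option S) S C → IR (Option S) S C
  | .inl _ => .inr (.inl none)
  | .inr (.inl none) => .inl ()
  | .inr (.inl (some s)) => .inr (.inr (.inl s))
  | .inr (.inr (.inl s)) => .inr (.inl (some s))
  | .inr (.inr (.inr (.inl k))) => .inr (.inr (.inr (.inr k)))
  | .inr (.inr (.inr (.inr k))) => .inr (.inr (.inr (.inl k)))

/-- the order of the matched pairs -/
def TorC_ρ {S T C : Type} : IR S (Option T) C → ℤ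
  | .inr (.inr (.inl none)) => 2
  | _ => 1

theorem torPoly_double {G U C : Type} [Group G] [Ring U] [Fintype C] {n : ℕ}
    [DecidableEq (IR (SG n) (Option (Fin n)) C)]
    {ι : ZG G →+* U} {ν : G →* Multiplicative (Fin (n + 1) → ℤ)} {s : (Fin (n + 1) → ℤ) → G}
    (hι : Function.Injective ι) (hD : IsDiv (divCl (Set.range ι)))
    (hs : ∀ h, ν (s h) = Multiplicative.ofAdd h) {γ : SG n → G}
    {fx : FreeGroup (SG n) → SG n → ZG G} (hf : IsFox γ fx) {l : List (FreeGroup (Fin n) × ℤ)}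
    (hl : l ≠ []) (hr : ∀ j, FreeGroup.lift γ (rl l j) = 1) {c : Fin n → ℤ}
    (hν : ∀ x, ν (γ x) = nuG c x) (g : C → FreeGroup (SG n))
    (hg : ∀ k, ν (FreeGroup.lift γ (g k)) ≠ 1) (d : ℕ)
    (Φ : Matrix (IR (SG n) (Option (Fin n)) C) (IR (SG n) (Option (Fin n)) C) (ZG G))
    (hc : Cx (Sum.elim dR fun j => ((d + 1 : ℕ) : ℤ) - dR j - 1)
      (Matrix.fromBlocks (AR γ fx (Sum.elim (rl l) g)) Φ 0 (-ct (AR γ fx (Sum.elim (rl l) g)))))
    (mir : PG (n + 1) →+ PG (n + 1)) (hmir : ∀ T, mir (cls T) = cls (-T)) (P : PG (n + 1))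
    (hP : P = cls (l.map fun p => (FreeGroup.lift (nuG c) (gw p)).toAdd).toFinset +
      ((n : ℤ) - 1) • cls {0, Pi.single 0 1} -
      ∑ k, cls {0, (ν (FreeGroup.lift γ (g k))).toAdd}) :
    TorPoly ι ν s (Sum.elim dR fun j => ((d + 1 : ℕ) : ℤ) - dR j - 1)
      (Matrix.fromBlocks (AR γ fx (Sum.elim (rl l) g)) Φ 0 (-ct (AR γ fx (Sum.elim (rl l) g))))
      (P + (-1 : ℤ) ^ (d + 1) • mir P) ∧
    ∃ Γ : Matrix _ _ U,
      (Matrix.fromBlocks (AR γ fx (Sum.elim (rl l) g)) Φ 0
        (-ct (AR γ fx (Sum.elim (rl l) g)))).map ι * Γ +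
      Γ * (Matrix.fromBlocks (AR γ fx (Sum.elim (rl l) g)) Φ 0
        (-ct (AR γ fx (Sum.elim (rl l) g)))).map ι = 1 := by
  classical
  have hlift : ∀ w, ν (FreeGroup.lift γ w) = FreeGroup.lift (nuG c) w := fun w =>
    DFunLike.congr_fun (show ν.comp (FreeGroup.lift γ) = FreeGroup.lift (nuG c) from
      FreeGroup.ext_hom _ _ fun x => by simp [hν]) w
  have ht : (ν (γ none)).toAdd = Pi.single 0 1 := by rw [hν]; rfl
  have ht1 : ν (γ none) ≠ 1 := by
    intro h
    rw [h, toAdd_one] at ht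
    have := congrFun ht 0
    simp at this
  have e1 : nsupp ν (AR γ fx (Sum.elim (rl l) g) (.inr (.inl none)) (.inl ())) =
      {0, Pi.single 0 1} := by
    rw [← ht]
    exact TorC_nsupp_sub ht1
  have e2 : nsupp ν (AR γ fx (Sum.elim (rl l) g) (.inr (.inr (.inl none)))
      (.inr (.inl (some none)))) =
      (l.map fun p => (FreeGroup.lift (nuG c) (gw p)).toAdd).toFinset := by
    simp only [← hlift]
    exact fox_main hf ν (hν _)
  have e3 : ∀ i : Fin n, nsupp ν (AR γ fx (Sum.elim (rl l) g) (.inr (.inr (.inl (some i))))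
      (.inr (.inl (some (some i))))) = {0, Pi.single 0 1} := by
    intro i
    change nsupp ν (fx (rl l (some i)) (some (some i))) = _
    rw [fox_comm_self hf hr, ← neg_sub, TorC_nsupp_neg, TorC_nsupp_sub ht1, ht]
  have e4 : ∀ k : C, nsupp ν (AR γ fx (Sum.elim (rl l) g) (.inr (.inr (.inr (.inr k))))
      (.inr (.inr (.inr (.inl k))))) = {0, -(ν (FreeGroup.lift γ (g k))).toAdd} := by
    intro k
    have h1 : ν (FreeGroup.lift γ (g k)⁻¹) ≠ 1 := by
      rw [map_inv, map_inv, inv_ne_one]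
      exact hg k
    have h2 := TorC_nsupp_sub h1
    have h3 : AR γ fx (Sum.elim (rl l) g) (.inr (.inr (.inr (.inr k))))
        (.inr (.inr (.inr (.inl k)))) = MonoidAlgebra.single (FreeGroup.lift γ (g k)⁻¹) 1 - 1 := by
      simp only [AR, if_true, evZ, Sum.elim_inr]
    rw [h3, h2, map_inv, map_inv, toAdd_inv]
  refine TorC_double hι hD hs (d + 1) hc TorC_up TorC_σ TorC_ρ ?_ ?_ ?_ ?_ ?_ mir hmir P ?_
  · rintro (_ | _ | (_ | _) | _) <;> simp [TorC_ρ]
  · rintro (_ | (_ | _) | _ | _ | _) <;> rfl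
  · rintro (_ | (_ | _) | _ | _ | _) <;> simp [TorC_up, TorC_σ]
  · rintro (_ | (_ | _) | (_ | i) | _ | k) hi
    · exact hi.elim
    · exact TorC_ne_zero (ν := ν) (by erw [e1]; exact Finset.insert_nonempty _ _)
    · exact hi.elim
    · refine TorC_ne_zero (ν := ν) ?_
      erw [e2]
      rw [List.toFinset_nonempty_iff]
      simpa using hl
    · exact TorC_ne_zero (ν := ν) (by erw [e3 i]; exact Finset.insert_nonempty _ _)
    · exact hi.elim
    · exact TorC_ne_zero (ν := ν) (by erw [e4 k]; exact Finset.insert_nonempty _ _)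
  · rintro (_ | (_ | _) | (_ | i) | _ | k) (_ | (_ | _ | j) | _ | k' | _) hi hj hA hne
    all_goals first
      | exact hi.elim
      | exact (hj trivial).elim
      | exact absurd rfl hA
      | exact absurd rfl hne
      | skip
    · change (1 : ℤ) < 2
      norm_num
    · exact absurd (fox_comm_ne (l := l) hf i none (by simp)) hA
    · refine absurd (fox_comm_ne (l := l) hf i (some j) ?_) hA
      intro h
      apply hne
      rw [h]
      rfl
    · refine absurd ?_ hA
      have h : k ≠ k' := by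
        rintro rfl
        exact hne rfl
      simp only [AR, if_neg h]
  · have s1 : sgn 1 = -1 := by decide
    have s2 : sgn 2 = 1 := by decide
    have s3 : sgn 3 = -1 := by decide
    simp only [Fintype.sum_sum_type, Fintype.sum_option, TorC_up, TorC_σ, dR, if_true, if_false,
      Finset.sum_const_zero, e1, e2, e3, e4, s1, s2, s3, cls_pair_neg, Finset.sum_const,
      Finset.card_univ, Fintype.card_fin, one_smul, neg_smul, zero_add, add_zero,
      Finset.sum_neg_distrib]
    rw [hP, sub_smul, one_smul, natCast_zsmul]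
    abel

end Pool.Agent.Work.MP_735653_gt
end
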