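import Pool.Agent.Work.MP_735653_gt.LCB

/-! From edge cocycles to cocycles on the face poset. -/

namespace Pool.Agent.Work.MP_735653_gt

variable {D : ℕ} {G : Type} [Group G]

/-- `w` on the first `k` coordinates, `v` on the others -/
def PtoE_mix (v w : Cell D) (k : ℕ) : Cell D := fun j => if (j : ℕ) < k then w j else v j

/-- the holonomy along the staircase path -/
def PtoE_phi (ε : Cell D → Fin D → G) (v w : Cell D) : ℕ → G
  | 0 => 1
  | k + 1 => PtoE_phi ε v w k *
      if h : k < D then (if w ⟨k, h⟩ = v ⟨k, h⟩ then 1 else ε (PtoE_mix v w k) ⟨k, h⟩) else 1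

lemma PtoE_two (w : Cell D) (i j : Fin D) : (w + 2 • ee i) j = w j + if j = i then 2 else 0 := by
  rw [Pi.add_apply, Pi.smul_apply, LCB_ee]
  split_ifs <;> simp

lemma PtoE_mix_top (v w : Cell D) : PtoE_mix v w D = w := funext fun j => if_pos j.2

lemma PtoE_mix_zero (v w : Cell D) : PtoE_mix v w 0 = v :=
  funext fun j => if_neg (Nat.not_lt_zero j)

lemma PtoE_mix_same {v w : Cell D} {j : Fin D} (h : w j = v j) :
    PtoE_mix v w (j + 1) = PtoE_mix v w j := by
  funext l
  unfold PtoE_mix
  by_cases hl : l = j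
  · subst hl
    simp [h]
  · have : (l : ℕ) ≠ j := fun e => hl (Fin.ext e)
    split_ifs <;> first | rfl | omega

lemma PtoE_mix_two {v w : Cell D} {j : Fin D} (h : w j = v j + 2) :
    PtoE_mix v w (j + 1) = PtoE_mix v w j + 2 • ee j := by
  funext l
  rw [PtoE_two]
  unfold PtoE_mix
  by_cases hl : l = j
  · subst hl
    simp [h]
  · have : (l : ℕ) ≠ j := fun e => hl (Fin.ext e)
    rw [if_neg hl, add_zero]
    split_ifs <;> first | rfl | omega

lemma PtoE_succ (ε : Cell D → Fin D → G) (v w : Cell D) (j : Fin D) :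
    PtoE_phi ε v w (j + 1) =
      PtoE_phi ε v w j * if w j = v j then 1 else ε (PtoE_mix v w j) j := by
  rw [PtoE_phi, dif_pos j.2]

lemma PtoE_self (ε : Cell D → Fin D → G) (v : Cell D) (k : ℕ) : PtoE_phi ε v v k = 1 := by
  induction k with
  | zero => rfl
  | succ k ih => simp [PtoE_phi, ih]

lemma PtoE_move {K : Finset (Cell D)} (hK : Down K) {ε : Cell D → Fin D → G} (h : ECoc K ε)
    {a w : Cell D} (ha : a ∈ K) (hw : Vtx w) (hwa : Face w a) {i : Fin D} (hi : a i % 2 = 1)
    (hwi : w i = a i - 1) (k : ℕ) (hk : k ≤ D) :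
    PtoE_phi ε (bot a) (w + 2 • ee i) k =
      PtoE_phi ε (bot a) w k * if (i : ℕ) < k then ε (PtoE_mix (bot a) w k) i else 1 := by
  induction k with
  | zero => simp [PtoE_phi]
  | succ k ih =>
    obtain ⟨j, rfl⟩ : ∃ j : Fin D, (j : ℕ) = k := ⟨⟨k, hk⟩, rfl⟩
    have hb : w i = bot a i := by
      simp only [bot]
      omega
    rw [PtoE_succ, PtoE_succ, ih j.2.le, PtoE_two]
    rcases lt_trichotomy (j : ℕ) i with hj | hj | hj
    · have h1 : PtoE_mix (bot a) (w + 2 • ee i) j = PtoE_mix (bot a) w j := by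
        funext l
        unfold PtoE_mix
        split_ifs with hl
        · rw [PtoE_two, if_neg, add_zero]
          rintro rfl
          omega
        · rfl
      rw [if_neg (by omega : ¬ (i : ℕ) < j), if_neg (by omega : ¬ (i : ℕ) < j + 1),
        if_neg (show ¬ j = i by rintro rfl; omega), add_zero, h1, mul_one, mul_one]
    · obtain rfl : j = i := Fin.ext hj
      have h1 : PtoE_mix (bot a) (w + 2 • ee j) j = PtoE_mix (bot a) w j := by
        funext l
        unfold PtoE_mix
        split_ifs with hl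
        · rw [PtoE_two, if_neg, add_zero]
          rintro rfl
          omega
        · rfl
      rw [if_neg (lt_irrefl _), if_pos rfl, if_neg (by omega), if_pos hb,
        if_pos (Nat.lt_succ_self _), h1, PtoE_mix_same hb, mul_one]
    · have hij : i ≠ j := by
        rintro rfl
        omega
      rw [if_pos hj, if_neg hij.symm, add_zero, if_pos (by omega : (i : ℕ) < j + 1)]
      by_cases h2 : w j = bot a j
      · rw [if_pos h2, if_pos h2, PtoE_mix_same h2, mul_one, mul_one]
      have h3 : a j % 2 = 1 ∧ w j = bot a j + 2 := by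
        have := hw j
        have := hwa j
        simp only [bot] at h2 ⊢
        omega
      have h1 : PtoE_mix (bot a) (w + 2 • ee i) j = PtoE_mix (bot a) w j + 2 • ee i := by
        funext l
        rw [PtoE_two]
        unfold PtoE_mix
        by_cases hl : (l : ℕ) < j
        · rw [if_pos hl, if_pos hl, PtoE_two]
        · rw [if_neg hl, if_neg hl, if_neg, add_zero]
          rintro rfl
          exact hl hj
      rw [if_neg h2, if_neg h2, h1, PtoE_mix_two h3.2, mul_assoc, mul_assoc]
      congr 1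
      refine h _ i j (fun l => ?_) hij (hK a ha _ fun l => ?_)
      · unfold PtoE_mix
        split_ifs
        · exact hw l
        · exact vtx_bot a l
      · have h4 := hw l
        have h5 := hwa l
        rw [Pi.add_apply, Pi.add_apply, LCB_ee, LCB_ee]
        unfold PtoE_mix
        by_cases h6 : l = i
        · subst h6
          rw [if_pos hj, if_pos rfl, if_neg hij]
          omega
        by_cases h7 : l = j
        · subst h7
          rw [if_neg (lt_irrefl _), if_neg h6, if_pos rfl]
          simp only [bot]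
          omega
        rw [if_neg h6, if_neg h7]
        simp only [bot]
        split_ifs <;> omega

lemma PtoE_move' {K : Finset (Cell D)} (hK : Down K) {ε : Cell D → Fin D → G} (h : ECoc K ε)
    {a w : Cell D} (ha : a ∈ K) (hw : Vtx w) (hwa : Face w a) {i : Fin D} (hi : a i % 2 = 1)
    (hwi : w i = a i - 1) :
    PtoE_phi ε (bot a) (w + 2 • ee i) D = PtoE_phi ε (bot a) w D * ε w i := by
  rw [PtoE_move hK h ha hw hwa hi hwi D le_rfl, if_pos i.2, PtoE_mix_top]

lemma PtoE_comp {K : Finset (Cell D)} (hK : Down K) {ε : Cell D → Fin D → G} (h : ECoc K ε)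
    {a v w : Cell D} (ha : a ∈ K) (hv : Vtx v) (hva : Face v a) (hw : Vtx w) (hwa : Face w a)
    (hvw : ∀ j, w j = v j ∨ (w j = v j + 2 ∧ a j % 2 = 1 ∧ v j = a j - 1)) (k : ℕ) (hk : k ≤ D) :
    PtoE_phi ε (bot a) v D * PtoE_phi ε v w k = PtoE_phi ε (bot a) (PtoE_mix v w k) D := by
  induction k with
  | zero => rw [PtoE_mix_zero, PtoE_phi, mul_one]
  | succ k ih =>
    obtain ⟨j, rfl⟩ : ∃ j : Fin D, (j : ℕ) = k := ⟨⟨k, hk⟩, rfl⟩
    rw [PtoE_succ, ← mul_assoc, ih j.2.le]
    rcases hvw j with h1 | ⟨h1, h2, h3⟩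
    · rw [if_pos h1, mul_one, PtoE_mix_same h1]
    · rw [if_neg (by omega), PtoE_mix_two h1]
      refine (PtoE_move' hK h ha (fun l => ?_) (fun l => ?_) h2 ?_).symm
      · unfold PtoE_mix
        split_ifs
        · exact hw l
        · exact hv l
      · unfold PtoE_mix
        split_ifs
        · exact hwa l
        · exact hva l
      · unfold PtoE_mix
        rw [if_neg (lt_irrefl _), h3]

theorem exists_coc {K : Finset (Cell D)} (hK : Down K) {ε : Cell D → Fin D → G} (h : ECoc K ε) :
    ∃ μ, Coc K μ ∧ ∀ a ∈ K, ∀ i, a i % 2 = 1 →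
      μ a (a - ee i) = 1 ∧ μ a (a + ee i) = ε (bot a) i := by
  refine ⟨fun a b => PtoE_phi ε (bot a) (bot b) D, fun a ha b c hb hc => ?_, fun a ha i hi => ?_⟩
  · beta_reduce
    rw [PtoE_comp hK h ha (vtx_bot b) ((bot_face b).trans hb) (vtx_bot c)
      ((bot_face c).trans (hc.trans hb)) (fun j => ?_) D le_rfl, PtoE_mix_top]
    have := hb j
    have := hc j
    simp only [bot]
    omega
  · have h1 : bot (a - ee i) = bot a := by
      funext j
      simp only [bot, Pi.sub_apply, LCB_ee]
      split_ifs with hj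
      · subst hj
        omega
      · omega
    have h2 : bot (a + ee i) = bot a + 2 • ee i := by
      funext j
      rw [PtoE_two]
      simp only [bot, Pi.add_apply, LCB_ee]
      split_ifs with hj
      · subst hj
        omega
      · omega
    beta_reduce
    rw [h1, h2, PtoE_move' hK h ha (vtx_bot a) (bot_face a) hi (by simp only [bot]; omega),
      PtoE_self, one_mul]
    exact ⟨rfl, rfl⟩

theorem SCp.sce {X : LC D G} (h : SCp X) : SCe X := by
  intro H _ ε hε
  obtain ⟨μ, hμ, hμ'⟩ := exists_coc X.down hε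
  obtain ⟨θ, f, hf⟩ := h H μ hμ
  refine ⟨θ, f, fun v i hv he => ?_⟩
  have hi : (v + ee i) i % 2 = 1 := by
    have := hv i
    rw [Pi.add_apply, LCB_ee_self]
    omega
  have h1 : bot (v + ee i) = v := by
    funext j
    have := hv j
    simp only [bot, Pi.add_apply, LCB_ee]
    split_ifs <;> omega
  have h2 : v + ee i + ee i = v + 2 • ee i := by rw [two_smul, add_assoc]
  obtain ⟨h3, h4⟩ := hμ' _ he i hi
  have h5 := hf _ he _ (Fc.face ⟨i, hi, Or.inr rfl⟩)
  have h6 := hf _ he _ (Fc.face ⟨i, hi, Or.inl rfl⟩)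
  rw [h3, add_sub_cancel_right] at h5
  rw [h4, h1, h2] at h6
  rw [eq_mul_inv_iff_mul_eq, one_mul] at h5
  rw [h6, mue, map_mul, map_inv, h5]
  group

end Pool.Agent.Work.MP_735653_gt
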