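import Pool.Agent.Work.MP_735653_gt.EtoP
import Pool.Agent.Work.MP_735653_gt.PtoE

/-! The fundamental group of the neighbourhood and of its boundary; block form. -/

namespace Pool.Agent.Work.MP_735653_gt

variable {D : ℕ} {G : Type} [Group G] {X : LC D G}

/-- the fat cell -/
def WSC_fat (a : Cell D) : Cell D := fun i => 2 * a i + 1

/-- the common face of two fat cells -/
def WSC_m (a b : Cell D) : Cell D := fun i => a i + b i + 1

theorem WSC_lo (a : Cell D) : lo (WSC_fat a) = a := by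
  funext i
  simp only [lo, WSC_fat]
  split_ifs <;> omega

theorem WSC_face (y : Cell D) : Face y (WSC_fat (lo y)) := fun i => by
  simp only [lo, WSC_fat]
  split_ifs <;> omega

theorem WSC_m1 {a b : Cell D} (h : Face b a) : Face (WSC_m a b) (WSC_fat a) := fun i => by
  have := h i
  simp only [WSC_m, WSC_fat]
  omega

theorem WSC_m2 {a b : Cell D} (h : Face b a) : Face (WSC_m a b) (WSC_fat b) := fun i => by
  have := h i
  simp only [WSC_m, WSC_fat]
  omega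

theorem WSC_mem {a : Cell D} (ha : a ∈ X.K) : WSC_fat a ∈ X.W.K :=
  mem_WK.2 (by rwa [WSC_lo])

theorem SCp.W (h : SCp X) : SCp X.W := by
  intro H _ ψ hψ
  let φ : Cell D → Cell D → H := fun a b =>
    ψ (WSC_fat a) (WSC_m a b) * (ψ (WSC_fat b) (WSC_m a b))⁻¹
  have key : ∀ a ∈ X.K, ∀ b z, Face b a → Face z (WSC_m a b) →
      φ a b = ψ (WSC_fat a) z * (ψ (WSC_fat b) z)⁻¹ := by
    intro a ha b z hb hz
    rw [hψ _ (WSC_mem ha) _ z (WSC_m1 hb) hz, hψ _ (WSC_mem (X.down a ha b hb)) _ z (WSC_m2 hb) hz]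
    simp only [φ]
    group
  obtain ⟨θ, f, hf⟩ := h H φ fun a ha b c hb hc => by
    have h1 : Face (WSC_m a c) (WSC_m a b) := fun i => by
      have := hb i
      have := hc i
      simp only [WSC_m]
      omega
    have h2 : Face (WSC_m a c) (WSC_m b c) := fun i => by
      have := hb i
      have := hc i
      simp only [WSC_m]
      omega
    rw [key a ha b _ hb h1, key b (X.down a ha b hb) c _ hc h2]
    simp only [φ]
    group
  refine ⟨θ, fun y => (ψ (WSC_fat (lo y)) y)⁻¹ * f (lo y), fun y hy z hz => ?_⟩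
  have hy' := mem_WK.1 hy
  have h1 : Face z (WSC_m (lo y) (lo z)) := fun i => by
    have := hz i
    simp only [WSC_m, lo]
    split_ifs <;> omega
  have h2 := hf _ hy' _ hz.lo
  rw [key _ hy' _ z hz.lo h1, hψ _ (WSC_mem hy') y z (WSC_face y) hz] at h2
  change ψ y z = _ * θ (X.μ (lo y) (lo z)) * _
  calc ψ y z = (ψ (WSC_fat (lo y)) y)⁻¹ * (ψ (WSC_fat (lo y)) y * ψ y z *
        (ψ (WSC_fat (lo z)) z)⁻¹) * ψ (WSC_fat (lo z)) z := by group
    _ = _ := by rw [h2]; group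

theorem Conn.W (h : Conn X) : Conn X.W := by
  obtain ⟨⟨a, ha⟩, h⟩ := h
  refine ⟨⟨_, WSC_mem ha⟩, fun φ hφ g g' y hy z hz => ?_⟩
  have key : ∀ g, ∀ y ∈ X.W.K, φ g (WSC_fat (lo y)) ↔ φ g y := fun g y hy => by
    have := hφ g _ (WSC_mem (mem_WK.1 hy)) y (WSC_face y)
    change _ ↔ φ (g * X.μ (lo _) (lo y)) y at this
    rwa [WSC_lo, X.μ_self (mem_WK.1 hy), mul_one] at this
  rw [← key g y hy, ← key g' z hz]
  refine h (fun g a => φ g (WSC_fat a)) (fun g a ha b hb => ?_) g g' _ (mem_WK.1 hy) _ (mem_WK.1 hz)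
  have hl : lo (WSC_m a b) = b := by
    funext i
    have := hb i
    simp only [lo, WSC_m]
    split_ifs <;> omega
  have h1 := hφ g _ (WSC_mem ha) _ (WSC_m1 hb)
  have h2 := key (g * X.μ a b) _ (X.W.down _ (WSC_mem ha) _ (WSC_m1 hb))
  change _ ↔ φ (g * X.μ (lo _) (lo _)) _ at h1
  rw [WSC_lo, hl] at h1
  rw [hl] at h2
  exact h1.trans h2.symm

theorem mem_EK_of_dim (hd : ∀ a ∈ X.K, dim a + 3 ≤ D) {y : Cell D} (hy : y ∈ WK X.K)
    (h : dim y ≤ 2) : y ∈ EK X.K := by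
  refine mem_EK.2 ⟨mem_WK.1 hy, fun h1 => ?_⟩
  have h2 := hd _ h1
  have h3 : (Finset.univ : Finset (Fin D)) ⊆ (Finset.univ.filter fun i => y i % 2 = 1) ∪
      Finset.univ.filter fun i => hi y i % 2 = 1 := by
    intro i _
    simp only [Finset.mem_union, Finset.mem_filter, Finset.mem_univ, true_and, hi]
    split_ifs <;> omega
  have h4 := (Finset.card_le_card h3).trans (Finset.card_union_le _ _)
  rw [Finset.card_univ, Fintype.card_fin] at h4
  simp only [dim] at h h2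
  omega

theorem WSC_sq {v : Cell D} (hv : Vtx v) {i j : Fin D} (h : i ≠ j) : dim (v + ee i + ee j) = 2 := by
  rcases lt_or_gt_of_ne h with h | h
  · exact dim_eq_two_iff.2 ⟨v, i, j, hv, h, rfl⟩
  · exact dim_eq_two_iff.2 ⟨v, j, i, hv, h, add_right_comm _ _ _⟩

theorem WSC_sub {y : Cell D} (hy : y ∈ EK X.K) : y ∈ WK X.K := mem_WK.2 (mem_EK.1 hy).1

theorem SCp.E (h : SCp X) (hd : ∀ a ∈ X.K, dim a + 3 ≤ D) : SCp X.E := by
  refine SCe.scp fun H _ ε hε => ?_
  obtain ⟨θ, f, hf⟩ := h.W.sce H ε fun v i j hv hij hm =>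
    hε v i j hv hij (mem_EK_of_dim hd hm (WSC_sq hv hij).le)
  exact ⟨θ, f, fun v i hv hm => hf v i hv (WSC_sub hm)⟩

theorem Conn.E (h : Conn X) (hd : ∀ a ∈ X.K, dim a + 3 ≤ D) : Conn X.E := by
  obtain ⟨⟨v, hv, hv'⟩, h2⟩ := h.W.connE
  refine ConnE.conn ⟨⟨v, mem_EK_of_dim hd hv (by rw [dim_eq_zero_iff.2 hv']; omega), hv'⟩,
    fun φ hφ g g' a ha b hb => h2 φ (fun g v i hv hm => hφ g v i hv (mem_EK_of_dim hd hm ?_)) g g'
      a (WSC_sub ha) b (WSC_sub hb)⟩
  rw [dim_eq_one_iff.2 ⟨v, i, hv, rfl⟩]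
  omega

theorem LC.block (X : LC D G) : ∃ Θ : Matrix (QK X.K) (EK X.K) (ZG G),
    Cx (Sum.elim (dimS (EK X.K)) (dimS (QK X.K)))
      (Matrix.fromBlocks (bdS X.E.μ (EK X.K)) 0 Θ (bdS X.W.μ (QK X.K))) ∧
    HE (Sum.elim (dimS (EK X.K)) (dimS (QK X.K)))
      (Matrix.fromBlocks (bdS X.E.μ (EK X.K)) 0 Θ (bdS X.W.μ (QK X.K)))
      (dimS (WK X.K)) (bdS X.W.μ (WK X.K)) := by
  let f : EK X.K ⊕ QK X.K → WK X.K := Sum.elim (fun y => ⟨y.1, WSC_sub y.2⟩)
    fun y => ⟨y.1, (Finset.mem_filter.1 y.2).1⟩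
  have hf : Function.Bijective f := by
    constructor
    · rintro (y | y) (z | z) h
      · have e : y.1 = z.1 := congrArg (fun w : WK X.K => w.1) h
        exact congrArg _ (Subtype.ext e)
      · have e : y.1 = z.1 := congrArg Subtype.val h
        exact absurd (e ▸ (Finset.mem_filter.1 z.2).2) (mem_EK.1 y.2).2
      · have e : y.1 = z.1 := congrArg Subtype.val h
        exact absurd (e ▸ (Finset.mem_filter.1 y.2).2) (mem_EK.1 z.2).2
      · have e : y.1 = z.1 := congrArg (fun w : WK X.K => w.1) h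
        exact congrArg _ (Subtype.ext e)
    · rintro ⟨y, hy⟩
      by_cases h : hi y ∈ X.K
      · exact ⟨.inr ⟨y, Finset.mem_filter.2 ⟨hy, h⟩⟩, rfl⟩
      · exact ⟨.inl ⟨y, Finset.mem_filter.2 ⟨hy, h⟩⟩, rfl⟩
  let Θ : Matrix (QK X.K) (EK X.K) (ZG G) := fun q e =>
    MonoidAlgebra.single (X.W.μ q.1 e.1) (inc q.1 e.1)
  have h1 : ∀ i, dimS (WK X.K) (Equiv.ofBijective f hf i) =
      Sum.elim (dimS (EK X.K)) (dimS (QK X.K)) i := by
    rintro (y | y) <;> rfl
  have h2 : ∀ i i', bdS X.W.μ (WK X.K) (Equiv.ofBijective f hf i) (Equiv.ofBijective f hf i') =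
      Matrix.fromBlocks (bdS X.E.μ (EK X.K)) 0 Θ (bdS X.W.μ (QK X.K)) i i' := by
    rintro (y | y) (z | z)
    · rfl
    · have e : inc y.1 z.1 = 0 := by
        by_contra h
        exact (mem_EK.1 (X.E.down _ y.2 _ (fc_of_inc h).face)).2 (Finset.mem_filter.1 z.2).2
      change MonoidAlgebra.single _ (inc y.1 z.1) = 0
      rw [e, MonoidAlgebra.single_zero]
    · rfl
    · rfl
  exact ⟨Θ, Cx.of_equiv _ h1 h2 (X.W.cx subset_rfl fun a ha _ _ b hb _ => X.W.down a ha b hb),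
    HE.of_equiv _ h1 h2⟩

end Pool.Agent.Work.MP_735653_gt
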