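import Pool.Agent.Work.MP_735653_gt.LCB

/-! From edges to the face poset. -/

namespace Pool.Agent.Work.MP_735653_gt

variable {D : ℕ} {G : Type} [Group G] {X : LC D G}

theorem EtoP_ee (i j : Fin D) : ee i j = if j = i then 1 else 0 := Pi.single_apply _ _ _

theorem EtoP_face_lo {w : Cell D} {k : Fin D} (h : w k % 2 = 0) : Face w (w + ee k) := fun j => by
  simp only [Pi.add_apply, EtoP_ee]
  split_ifs with hj
  · subst hj
    omega
  · omega

theorem EtoP_face_hi {w : Cell D} {k : Fin D} (h : w k % 2 = 0) :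
    Face (w + 2 • ee k) (w + ee k) := fun j => by
  simp only [Pi.add_apply, two_nsmul, EtoP_ee]
  split_ifs with hj
  · subst hj
    omega
  · omega

theorem EtoP_vtx_add {v : Cell D} (h : Vtx v) (k : Fin D) : Vtx (v + 2 • ee k) := fun j => by
  have := h j
  simp only [Pi.add_apply, two_nsmul]
  omega

theorem EtoP_mue {H : Type} [Group H] {K : Finset (Cell D)} {ψ : Cell D → Cell D → H}
    (hψ : Coc K ψ) {a v : Cell D} {i : Fin D} (ha : a ∈ K) (hv : Vtx v)
    (hf : Face (v + ee i) a) : ψ a (v + 2 • ee i) = ψ a v * mue ψ v i := by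
  rw [hψ a ha _ _ hf (EtoP_face_lo (hv i)), hψ a ha _ _ hf (EtoP_face_hi (hv i)), mue, mul_assoc,
    mul_inv_cancel_left]

theorem vtx_induction {a : Cell D} (φ : Cell D → Prop) (h0 : φ (bot a))
    (h1 : ∀ v i, Vtx v → Face (v + ee i) a → φ v → φ (v + 2 • ee i)) :
    ∀ v, Vtx v → Face v a → φ v := by
  intro v
  induction hn : (Finset.univ.filter fun i => v i ≠ bot a i).card using Nat.strong_induction_on
    generalizing v with
  | _ n ih =>
    intro hv hf
    by_cases hb : v = bot a
    · exact hb ▸ h0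
    obtain ⟨i, hi⟩ := Function.ne_iff.1 hb
    have hi' : a i % 2 = 1 ∧ v i = a i + 1 := by
      have h2 := hv i
      have h3 := hf i
      simp only [bot] at hi
      omega
    have hw : Vtx (v - 2 • ee i) := fun j => by
      have := hv j
      simp only [Pi.sub_apply, two_nsmul, Pi.add_apply]
      omega
    have hf1 : Face (v - 2 • ee i + ee i) a := fun j => by
      have := hf j
      simp only [Pi.sub_apply, two_nsmul, Pi.add_apply, EtoP_ee]
      split_ifs with hj
      · subst hj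
        omega
      · omega
    have h := h1 (v - 2 • ee i) i hw hf1 (ih _ ?_ _ rfl hw ((EtoP_face_lo (hw i)).trans hf1))
    · rwa [sub_add_cancel] at h
    · rw [← hn]
      refine Finset.card_lt_card ⟨fun j hj => ?_, fun hs => ?_⟩
      · simp only [Finset.mem_filter, Finset.mem_univ, true_and, Pi.sub_apply, two_nsmul,
          Pi.add_apply, EtoP_ee] at hj ⊢
        split_ifs at hj with hji
        · subst hji
          exact hi
        · simpa using hj
      · have := hs (Finset.mem_filter.2 ⟨Finset.mem_univ i, hi⟩)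
        simp only [Finset.mem_filter, Finset.mem_univ, true_and, Pi.sub_apply, two_nsmul,
          Pi.add_apply, EtoP_ee, if_true, bot] at this
        omega

theorem EtoP_ecoc {H : Type} [Group H] {K : Finset (Cell D)} {ψ : Cell D → Cell D → H}
    (hψ : Coc K ψ) : ECoc K (mue ψ) := by
  have key : ∀ v i j, Vtx v → i ≠ j → v + ee i + ee j ∈ K →
      ψ (v + ee i + ee j) v * (mue ψ v i * mue ψ (v + 2 • ee i) j) =
        ψ (v + ee i + ee j) (v + 2 • ee i + 2 • ee j) := by
    intro v i j hv hij hs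
    have h1 : Face (v + ee i) (v + ee i + ee j) := EtoP_face_lo (by
      rw [Pi.add_apply, EtoP_ee, if_neg hij.symm, add_zero]
      exact hv j)
    have h2 : Face (v + 2 • ee i + ee j) (v + ee i + ee j) := by
      rw [add_right_comm v (2 • ee i), add_right_comm v (ee i)]
      refine EtoP_face_hi ?_
      rw [Pi.add_apply, EtoP_ee, if_neg hij, add_zero]
      exact hv i
    rw [EtoP_mue hψ hs (EtoP_vtx_add hv i) h2, EtoP_mue hψ hs hv h1, mul_assoc]
  intro v i j hv hij hs
  have h1 := key v i j hv hij hs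
  have h2 := key v j i hv hij.symm (by rwa [add_right_comm])
  rw [add_right_comm v (ee j), add_right_comm v (2 • ee j), ← h1] at h2
  exact (mul_left_cancel h2).symm

theorem SCe.scp (h : SCe X) : SCp X := by
  intro H _ ψ hψ
  obtain ⟨θ, f, hf⟩ := h H (mue ψ) (EtoP_ecoc hψ)
  have key : ∀ a ∈ X.K, ∀ v, Vtx v → Face v a → ψ a v * f v * (θ (X.μ a v))⁻¹ =
      ψ a (bot a) * f (bot a) * (θ (X.μ a (bot a)))⁻¹ := by
    intro a ha
    refine vtx_induction _ rfl fun v i hv hfa ih => ?_
    rw [← ih, EtoP_mue hψ ha hv hfa, EtoP_mue X.coc ha hv hfa, hf v i hv (X.down a ha _ hfa),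
      map_mul]
    group
  refine ⟨θ, fun a => ψ a (bot a) * f (bot a) * (θ (X.μ a (bot a)))⁻¹, fun a ha b hb => ?_⟩
  beta_reduce
  rw [← key a ha (bot b) (vtx_bot b) ((bot_face b).trans hb), hψ a ha b _ hb (bot_face b),
    X.coc a ha b _ hb (bot_face b), map_mul]
  group

theorem ConnE.conn (h : ConnE X) : Conn X := by
  obtain ⟨⟨v, hv, -⟩, h⟩ := h
  refine ⟨⟨v, hv⟩, fun φ hφ g g' a ha b hb hg => ?_⟩
  refine (hφ g' b hb _ (bot_face b)).2 (h φ (fun g v i hv he => ?_) _ _ _
    (X.down a ha _ (bot_face a)) _ (X.down b hb _ (bot_face b)) (vtx_bot a) (vtx_bot b)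
    ((hφ g a ha _ (bot_face a)).1 hg))
  have h1 := hφ (g * (X.μ (v + ee i) v)⁻¹) _ he _ (EtoP_face_lo (hv i))
  have h2 := hφ (g * (X.μ (v + ee i) v)⁻¹) _ he _ (EtoP_face_hi (hv i))
  rw [inv_mul_cancel_right] at h1
  rw [mul_assoc] at h2
  exact h1.symm.trans h2

theorem Conn.connE (h : Conn X) : ConnE X := by
  obtain ⟨⟨a, ha⟩, h⟩ := h
  refine ⟨⟨bot a, X.down a ha _ (bot_face a), vtx_bot a⟩,
    fun φ hφ g g' a ha b hb hva hvb hg => ?_⟩
  have key : ∀ a ∈ X.K, ∀ v, Vtx v → Face v a → ∀ g,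
      φ (g * X.μ a (bot a)) (bot a) ↔ φ (g * X.μ a v) v := by
    intro a ha
    refine vtx_induction _ (fun _ => Iff.rfl) fun v i hv hfa ih g => ?_
    rw [ih g, hφ _ v i hv (X.down a ha _ hfa), EtoP_mue X.coc ha hv hfa, mul_assoc]
  have := h (fun g a => φ (g * X.μ a (bot a)) (bot a)) (fun g a ha b hb => ?_) g g' a ha b hb ?_
  · rwa [hvb.bot_eq, X.μ_self hb, mul_one] at this
  · rw [key a ha (bot b) (vtx_bot b) ((bot_face b).trans hb), X.coc a ha b _ hb (bot_face b),
      mul_assoc]
  · rwa [hva.bot_eq, X.μ_self ha, mul_one]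

end Pool.Agent.Work.MP_735653_gt
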