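import Pool.Agent.Work.MP_735653_gt.LDefs
import Pool.Agent.Work.MP_735653_gt.GDefs

/-! A lattice model of a presentation complex with caps. -/

namespace Pool.Agent.Work.MP_735653_gt

variable {D : ℕ} {S Rl C : Type}

/-- the boundary word of the square at `v` in the directions `i`, `j` -/
def relw (w : Cell D → Fin D → FreeGroup S) (v : Cell D) (i j : Fin D) : FreeGroup S :=
  w v i * w (v + 2 • ee i) j * (w (v + 2 • ee j) i)⁻¹ * (w v j)⁻¹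

/-- a matching and an edge labelling which exhibit the complex as a model of the small complex -/
structure PM (K : Finset (Cell D)) (wd : Rl ⊕ C → FreeGroup S) where
  m : LM K
  w : Cell D → Fin D → FreeGroup S
  cr : IR S Rl C → Cell D
  top : Cell D → C → Prop
  uw : Cell D → FreeGroup S
  dim_le : ∀ a ∈ K, dim a ≤ 3
  cr_mem : ∀ j, cr j ∈ K
  cr_dim : ∀ j, dim (cr j) = dR j
  cr_inj : Function.Injective cr
  crit : ∀ a ∈ K, (¬ m.up a ∧ ¬ m.dn a) ↔ a ∈ Set.range cr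
  up_edge : ∀ v i, Vtx v → v + ee i ∈ K → m.up (v + ee i) → w v i = 1
  cr_edge : ∀ v i s, Vtx v → v + ee i = cr (.inr (.inl s)) → w v i = FreeGroup.of s
  rel_one : ∀ v i j, Vtx v → i < j → v + ee i + ee j ∈ K →
    (∀ k, v + ee i + ee j ≠ cr (.inr (.inr (.inl k)))) → relw w v i j = 1
  rel_cr : ∀ v i j k, Vtx v → i < j → v + ee i + ee j = cr (.inr (.inr (.inl k))) →
    relw w v i j = (wd (.inl k))⁻¹
  top_dim : ∀ a ∈ K, ∀ c, top a c → dim a = 2 ∧ ¬ m.up a ∧ ∀ k, a ≠ cr (.inr (.inr (.inl k)))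
  top_cr : ∀ c c', top (cr (.inr (.inr (.inr (.inl c))))) c' ↔ c = c'
  uw_cr : ∀ c, uw (cr (.inr (.inr (.inr (.inl c))))) = 1
  cube_rel : ∀ a ∈ K, dim a = 3 → ∀ k, ¬ Fc (cr (.inr (.inr (.inl k)))) a
  cube : ∀ a ∈ K, dim a = 3 → ∀ c,
    ((∀ b, Fc b a → ¬ top b c) ∧ a ≠ cr (.inr (.inr (.inr (.inr c))))) ∨
    ∃ i, a i % 2 = 1 ∧ sg a i = 1 ∧ top (a + ee i) c ∧ top (a - ee i) c ∧
      (∀ j, j ≠ i → a j % 2 = 1 → ¬ top (a + ee j) c ∧ ¬ top (a - ee j) c) ∧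
      (a ≠ cr (.inr (.inr (.inr (.inr c)))) → uw (a + ee i) = uw (a - ee i) * w (bot a) i) ∧
      (a = cr (.inr (.inr (.inr (.inr c)))) →
        uw (a - ee i) = 1 ∧ w (bot a) i = 1 ∧ uw (a + ee i) = wd (.inr c))

/-- the generator of the `k`-th loop -/
def lab {m : ℕ} (e : S ≃ Fin m) (k : ℤ) : FreeGroup S :=
  if h : 0 ≤ k ∧ k < m then FreeGroup.of (e.symm ⟨k.toNat, by omega⟩) else 1

/-- the letter read by a step from `a` to `b` -/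
def ltr {m : ℕ} (e : S ≃ Fin m) (a b : ℤ × ℤ) : FreeGroup S :=
  if a.2 = 2 ∧ b.2 = 2 then (if a.1 < b.1 then lab e (a.1 / 4) else (lab e (b.1 / 4))⁻¹) else 1

/-- vertices of the comb -/
def CVtx (m : ℕ) (a : ℤ × ℤ) : Prop :=
  a.1 % 2 = 0 ∧ 0 ≤ a.1 ∧ a.1 ≤ 4 * m + 2 ∧ (a.2 = 0 ∨ a.2 = 2)

/-- steps along the comb and its top edges -/
def CStep (a b : ℤ × ℤ) : Prop :=
  (a.2 = b.2 ∧ (b.1 = a.1 + 2 ∨ b.1 = a.1 - 2) ∧ (a.2 = 0 ∨ (a.1 + b.1) / 2 % 4 = 3)) ∨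
    (a.1 = b.1 ∧ a.2 ≠ b.2)

/-- a closed walk whose returns to the root cut it into pieces that read the given words -/
structure Sch (wd : Rl ⊕ C → FreeGroup S) where
  m : ℕ
  e : S ≃ Fin m
  N : ℤ
  p : ℤ → ℤ × ℤ
  gid : ℤ → Rl ⊕ C
  u : ℤ → FreeGroup S
  fs : Rl ⊕ C → ℤ
  ls : Rl ⊕ C → ℤ
  N_nonneg : 0 ≤ N
  p_zero : p 0 = (0, 0)
  p_N : p N = (0, 0)
  vtx : ∀ s, 0 ≤ s → s ≤ N → CVtx m (p s)
  step : ∀ s, 0 ≤ s → s < N → CStep (p s) (p (s + 1))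
  last : ∀ s, 0 ≤ s → s < N → p (s + 1) = (0, 0) → p s = (2, 0)
  gid_succ : ∀ s, 0 ≤ s → s < N → p (s + 1) ≠ (0, 0) → gid (s + 1) = gid s
  fs_spec : ∀ j, 0 ≤ fs j ∧ fs j < N ∧ p (fs j) = (0, 0) ∧ gid (fs j) = j
  fs_uniq : ∀ s, 0 ≤ s → s < N → p s = (0, 0) → fs (gid s) = s
  ls_spec : ∀ j, 0 ≤ ls j ∧ ls j < N ∧ p (ls j + 1) = (0, 0) ∧ gid (ls j) = j
  ls_uniq : ∀ s, 0 ≤ s → s < N → p (s + 1) = (0, 0) → ls (gid s) = s
  u_fst : ∀ s, 0 ≤ s → s < N → p s = (0, 0) → u s = 1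
  u_succ : ∀ s, 0 ≤ s → s < N → p (s + 1) ≠ (0, 0) → u (s + 1) = u s * ltr e (p s) (p (s + 1))
  u_lst : ∀ s, 0 ≤ s → s < N → p (s + 1) = (0, 0) → u s = wd (gid s)

/-- cells of the comb -/
def Tt (m : ℕ) (k h : ℤ) : Prop := 0 ≤ k ∧ k ≤ 4 * m + 2 ∧ 0 ≤ h ∧ h ≤ 2 ∧ (k % 2 = 1 → h = 0)

/-- top edges -/
def Tp (m : ℕ) (k h : ℤ) : Prop := 0 ≤ k ∧ k ≤ 4 * m + 2 ∧ k % 4 = 3 ∧ h = 2

/-- the tree rule -/
def trR (x : Cell 6) : Option (Bool × Cell 6) :=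
  if x 0 % 2 = 0 then
    (if x 1 = 1 then some (true, x + ee 1) else if x 1 = 2 then some (false, x - ee 1)
      else if x 0 = 0 then none else some (false, x - ee 0))
  else if x 1 = 0 then some (true, x + ee 0) else none

/-- the sphere rule -/
def srR (x : Cell 6) : Option (Bool × Cell 6) :=
  if x 3 = 1 then some (true, x + ee 3) else if x 3 = 2 then some (false, x - ee 3)
  else if x 4 = 1 then some (true, x + ee 4) else if x 4 = 2 then some (false, x - ee 4)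
  else if x 5 = 1 then some (true, x + ee 5) else some (false, x - ee 5)

/-- replace the first two coordinates -/
def setkh (x : Cell 6) (a : ℤ × ℤ) : Cell 6 := ![a.1, a.2, x 2, x 3, x 4, x 5]

/-- the rank -/
def rkX (x : Cell 6) : ℤ := x 0 + 3 * x 1 + 4 * x 2 + 2 * x 3 + x 4 + x 5

namespace Sch

variable {wd : Rl ⊕ C → FreeGroup S} (sc : Sch wd)

/-- the edge of a step -/
def E (s : ℤ) : ℤ × ℤ := (((sc.p s).1 + (sc.p (s + 1)).1) / 2, ((sc.p s).2 + (sc.p (s + 1)).2) / 2)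

/-- the step belongs to a relator -/
def Rel (s : ℤ) : Prop := (sc.gid s).isLeft = true

instance (s : ℤ) : Decidable (sc.Rel s) := inferInstanceAs (Decidable (_ = _))

/-- levels that belong to a piece -/
def Lv (t : ℤ) : Prop := 0 ≤ t ∧ t < 2 * sc.N ∧ (t % 2 = 0 ∨ sc.p (t / 2 + 1) ≠ (0, 0))

/-- cells of the closed curves -/
def Kap (k h t : ℤ) : Prop :=
  sc.Lv t ∧ ((k, h) = (0, 0) ∨ (k, h) = sc.p (t / 2 + 1) ∨
    (t % 2 = 0 ∧ ((k, h) = sc.p (t / 2) ∨ (k, h) = sc.E (t / 2))))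

/-- the graph times an interval -/
def Base (x : Cell 6) : Prop :=
  (Tt sc.m (x 0) (x 1) ∨ Tp sc.m (x 0) (x 1)) ∧ 0 ≤ x 2 ∧ x 2 ≤ 2 * sc.N ∧
    x 3 = 0 ∧ x 4 = 0 ∧ x 5 = 0

/-- the walls over the curves of the relators -/
def Vert (x : Cell 6) : Prop :=
  sc.Kap (x 0) (x 1) (x 2) ∧ sc.Rel (x 2 / 2) ∧ x 3 = 1 ∧ x 4 = 0 ∧ x 5 = 0

/-- the contractible lids -/
def Lid (x : Cell 6) : Prop :=
  sc.Lv (x 2) ∧ sc.Rel (x 2 / 2) ∧ x 3 = 2 ∧ x 4 = 0 ∧ x 5 = 0 ∧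
    (Tt sc.m (x 0) (x 1) ∨ (x 2 % 2 = 0 ∧ Tp sc.m (sc.E (x 2 / 2)).1 (sc.E (x 2 / 2)).2 ∧
      x 0 = (sc.E (x 2 / 2)).1 ∧ (x 1 = 1 ∨ x 1 = 2)))

/-- curves times spheres -/
def Cap (x : Cell 6) : Prop :=
  sc.Kap (x 0) (x 1) (x 2) ∧ ¬ sc.Rel (x 2 / 2) ∧ 0 ≤ x 3 ∧ x 3 ≤ 2 ∧ 0 ≤ x 4 ∧ x 4 ≤ 2 ∧
    0 ≤ x 5 ∧ x 5 ≤ 2 ∧ ¬ (x 3 = 1 ∧ x 4 = 1 ∧ x 5 = 1)

/-- the cells of the complex -/
def InX (x : Cell 6) : Prop := sc.Base x ∨ sc.Vert x ∨ sc.Lid x ∨ sc.Cap x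

open Classical in
/-- the complex -/
noncomputable def K : Finset (Cell 6) :=
  (Fintype.piFinset fun _ => Finset.Icc 0 (4 * sc.m + 2 * sc.N + 2)).filter sc.InX

/-- the curve rule -/
def cmR (x : Cell 6) : Option (Bool × Cell 6) :=
  if x 2 % 2 = 1 then some (true, x + ee 2)
  else if (x 0, x 1) = sc.E (x 2 / 2) then
    (if sc.p (x 2 / 2 + 1) = (0, 0) then none else some (true, setkh x (sc.p (x 2 / 2 + 1))))
  else if (x 0, x 1) = sc.p (x 2 / 2 + 1) ∧ sc.p (x 2 / 2 + 1) ≠ (0, 0) then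
    some (false, setkh x (sc.E (x 2 / 2)))
  else if sc.p (x 2 / 2) = (0, 0) then none else some (false, x - ee 2)

/-- the matching: `true` marks the upper cell of a pair -/
def mv (x : Cell 6) : Option (Bool × Cell 6) :=
  if x 3 = 0 ∧ x 4 = 0 ∧ x 5 = 0 then
    (if x 2 % 2 = 1 then some (true, x + ee 2) else if x 2 ≠ 0 then some (false, x - ee 2)
      else trR x)
  else if sc.Rel (x 2 / 2) then
    (if x 3 = 2 then
      (if x 0 % 2 = 1 ∧ x 1 = 1 then some (true, x + ee 1)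
        else if x 0 % 2 = 1 ∧ x 1 = 2 then some (false, x - ee 1)
        else if x 2 % 2 = 1 then some (true, x + ee 2)
        else if sc.p (x 2 / 2) ≠ (0, 0) then some (false, x - ee 2)
        else if x 0 = 0 ∧ x 1 = 0 then some (false, x - ee 3) else trR x)
    else if x 2 % 2 = 0 ∧ sc.p (x 2 / 2) = (0, 0) ∧ x 0 = 0 ∧ x 1 = 0 then some (true, x + ee 3)
    else sc.cmR x)
  else if x 3 = 2 ∧ x 4 = 1 ∧ x 5 = 1 then sc.cmR x else srR x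

/-- the word read along the curve up to a point -/
def uw (x : Cell 6) : FreeGroup S :=
  if (x 0, x 1) = (0, 0) then 1 else if (x 0, x 1) = sc.p (x 2 / 2) then sc.u (x 2 / 2)
  else sc.u (x 2 / 2) * ltr sc.e (sc.p (x 2 / 2)) (sc.p (x 2 / 2 + 1))

/-- the labels of the edges -/
def w (v : Cell 6) (i : Fin 6) : FreeGroup S :=
  if i = 0 then
    (if v 1 = 2 ∧ v 0 % 4 = 2 ∧ ¬ (sc.Rel (v 2 / 2) ∧ v 3 = 2) then lab sc.e (v 0 / 4) else 1)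
  else if i = 3 then (if sc.Rel (v 2 / 2) ∧ v 3 = 0 then (sc.uw v)⁻¹ else 1) else 1

/-- the top squares of the spheres -/
def top (x : Cell 6) (c : C) : Prop :=
  sc.gid (x 2 / 2) = .inr c ∧ x 3 = 2 ∧ x 4 = 1 ∧ x 5 = 1 ∧ x 0 % 2 = 0 ∧ x 1 % 2 = 0 ∧ x 2 % 2 = 0

/-- the critical cells -/
def cr : IR S Rl C → Cell 6
  | .inl _ => ![0, 0, 0, 0, 0, 0]
  | .inr (.inl s) => ![4 * ((sc.e s).1 : ℤ) + 3, 2, 0, 0, 0, 0]
  | .inr (.inr (.inl j)) => ![1, 0, 2 * sc.ls (.inl j), 1, 0, 0]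
  | .inr (.inr (.inr (.inl c))) => ![0, 0, 2 * sc.fs (.inr c), 2, 1, 1]
  | .inr (.inr (.inr (.inr c))) => ![1, 0, 2 * sc.ls (.inr c), 2, 1, 1]

end Sch

end Pool.Agent.Work.MP_735653_gt
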