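import Pool.Agent.Work.MP_735653_gt.LCB
import Pool.Agent.Work.MP_735653_gt.Fox
import Pool.Agent.Work.MP_735653_gt.XDefs

/-! The chain complex of a model. -/

namespace Pool.Agent.Work.MP_735653_gt

section cells

variable {D : ℕ} {v : Cell D} {i j : Fin D}

theorem PMh_odd1 (hv : Vtx v) (k : Fin D) : (v + ee i) k % 2 = 1 ↔ k = i := by
  have := hv k
  rw [Pi.add_apply, LCB_ee]
  split_ifs with h
  · exact iff_of_true (by omega) h
  · exact iff_of_false (by omega) h

theorem PMh_odd2 (hv : Vtx v) (h : i ≠ j) (k : Fin D) :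
    (v + ee i + ee j) k % 2 = 1 ↔ k = i ∨ k = j := by
  have := hv k
  rw [Pi.add_apply, Pi.add_apply, LCB_ee, LCB_ee]
  by_cases h1 : k = i
  · rw [if_pos h1, if_neg (h1 ▸ h)]
    simp only [h1, true_or, iff_true] at this ⊢
    omega
  · by_cases h2 : k = j
    · rw [if_neg h1, if_pos h2]
      simp only [h2, or_true, iff_true] at this ⊢
      omega
    · rw [if_neg h1, if_neg h2]
      simp only [h1, h2, or_self, iff_false]
      omega

theorem PMh_bot1 (hv : Vtx v) : bot (v + ee i) = v := by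
  funext k
  have := hv k
  simp only [bot, Pi.add_apply, LCB_ee]
  split_ifs <;> omega

theorem PMh_bot2 (hv : Vtx v) (h : i ≠ j) : bot (v + ee i + ee j) = v := by
  funext k
  have := hv k
  simp only [bot, Pi.add_apply, LCB_ee]
  split_ifs with h1 h2
  · exact absurd (h1.symm.trans h2) h
  all_goals omega

theorem PMh_vtx (hv : Vtx v) (i : Fin D) : Vtx (v + 2 • ee i) := fun k => by
  have := hv k
  simp only [Pi.add_apply, two_smul]
  omega

theorem PMh_sg0 (hv : Vtx v) (i : Fin D) : sg v i = 1 := by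
  rw [sg, Finset.filter_false_of_mem fun k _ h => by have := hv k; omega]
  rfl

theorem PMh_sg_le (a : Cell D) (h : i ≤ j) : sg (a + ee j) i = sg a i :=
  sg_congr fun k hk => by
    rw [Pi.add_apply, LCB_ee_ne (ne_of_lt (hk.trans_le h)), add_zero]

end cells

variable {D : ℕ} {G S Rl C : Type} [Group G] {K : Finset (Cell D)} {wd : Rl ⊕ C → FreeGroup S}

open Classical in
/-- the chain map to the small complex -/
noncomputable def PMh_P (M : PM K wd) (γ : S → G) (fx : FreeGroup S → S → ZG G) (a : Cell D) :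
    IR S Rl C → ZG G
  | .inl _ => if dim a = 0 then 1 else 0
  | .inr (.inl s) =>
      if dim a = 1 then ∑ i, if a i % 2 = 1 then fx (M.w (bot a) i) s else 0 else 0
  | .inr (.inr (.inl k)) => if a = M.cr (.inr (.inr (.inl k))) then -1 else 0
  | .inr (.inr (.inr (.inl c))) => if M.top a c then evZ γ (M.uw a)⁻¹ else 0
  | .inr (.inr (.inr (.inr c))) => if a = M.cr (.inr (.inr (.inr (.inr c)))) then 1 else 0

variable (M : PM K wd) {γ : S → G} {fx : FreeGroup S → S → ZG G}

theorem PMh_edge {v : Cell D} (hv : Vtx v) (i : Fin D) (s : S) :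
    PMh_P M γ fx (v + ee i) (.inr (.inl s)) = fx (M.w v i) s := by
  simp only [PMh_P, PMh_odd1 hv, PMh_bot1 hv]
  rw [if_pos (dim_eq_one_iff.2 ⟨v, i, hv, rfl⟩), Finset.sum_ite_eq', if_pos (Finset.mem_univ _)]

theorem PMh_deg {a : Cell D} (ha : a ∈ K) (j : IR S Rl C) (h : PMh_P M γ fx a j ≠ 0) :
    dR j = dim a := by
  rcases j with _ | s | k | c | c <;> simp only [PMh_P] at h <;> split_ifs at h with h1 <;>
    try exact absurd rfl h
  · exact h1.symm
  · exact h1.symm
  · rw [h1, M.cr_dim]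
  · exact (M.top_dim a ha c h1).1.symm
  · rw [h1, M.cr_dim]

theorem PMh_up (hf : IsFox γ fx) {a : Cell D} (ha : a ∈ K) (hu : M.m.up a) (j : IR S Rl C) :
    PMh_P M γ fx a j = 0 := by
  have hc : ∀ j, a ≠ M.cr j := fun j h => ((M.crit a ha).2 ⟨j, h.symm⟩).1 hu
  rcases j with _ | s | k | c | c
  · have h1 := (M.m.up_σ a ha hu).2.2.2.dim_eq
    have h2 := dim_nonneg (M.m.σ a)
    exact if_neg (by omega)
  · by_cases h : dim a = 1
    · obtain ⟨v, i, hv, rfl⟩ := dim_eq_one_iff.1 h
      rw [PMh_edge M hv, M.up_edge v i hv ha hu, hf.one]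
    · exact if_neg h
  · exact if_neg (hc _)
  · exact if_neg fun h => (M.top_dim a ha c h).2.1 hu
  · exact if_neg (hc _)

theorem PMh_gen (s s' : S) :
    PMh_P M γ fx (M.cr (.inr (.inl s))) (.inr (.inl s')) = fx (FreeGroup.of s) s' := by
  obtain ⟨v, i, hv, e⟩ := dim_eq_one_iff.1 (M.cr_dim (.inr (.inl s)))
  rw [e, PMh_edge M hv, M.cr_edge v i s hv e.symm]

theorem PMh_ne (hf : IsFox γ fx) (j j' : IR S Rl C) (h : j ≠ j') :
    PMh_P M γ fx (M.cr j) j' = 0 := by
  by_contra h0
  have hd := (PMh_deg M (M.cr_mem j) j' h0).trans (M.cr_dim j)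
  rcases j' with _ | s' | k' | c' | c'
  · rcases j with _ | s | k | c | c <;> simp only [dR] at hd <;> first | omega | exact h rfl
  · rcases j with _ | s | k | c | c <;> simp only [dR] at hd <;> try omega
    exact h0 ((PMh_gen M s s').trans (hf.of_ne s s' fun e => h (by rw [e])))
  · exact h0 (if_neg fun e => h (M.cr_inj e))
  · refine h0 (if_neg fun e => ?_)
    rcases j with _ | s | k | c | c <;> simp only [dR] at hd <;> try omega
    · exact (M.top_dim _ (M.cr_mem _) c' e).2.2 k rfl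
    · exact h (by rw [(M.top_cr c c').1 e])
  · exact h0 (if_neg fun e => h (M.cr_inj e))

theorem PMh_unit (hf : IsFox γ fx) (j : IR S Rl C) : IsUnit (PMh_P M γ fx (M.cr j) j) := by
  rcases j with _ | s | k | c | c
  · simp only [PMh_P, M.cr_dim, dR, if_true]
    exact isUnit_one
  · rw [PMh_gen, hf.of_self]
    exact isUnit_one
  · simp only [PMh_P, if_true]
    exact isUnit_one.neg
  · simp only [PMh_P, M.top_cr, if_true, M.uw_cr, inv_one, evZ_one]
    exact isUnit_one
  · simp only [PMh_P, if_true]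
    exact isUnit_one

theorem PMh_rel (hf : IsFox γ fx) (w : Cell D → Fin D → FreeGroup S) (v : Cell D) (i j : Fin D)
    (h : evZ γ (relw w v i j) = 1) (s : S) :
    evZ γ (w v i) * fx (w (v + 2 • ee i) j) s - fx (w v j) s -
      (evZ γ (w v j) * fx (w (v + 2 • ee j) i) s - fx (w v i) s) = fx (relw w v i j) s := by
  have e : w v i * w (v + 2 • ee i) j = relw w v i j * (w v j * w (v + 2 • ee j) i) := by
    simp [relw, mul_assoc]
  have h1 := congrArg (fun u => fx u s) e
  simp only [hf.mul, h, one_mul] at h1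
  rw [← sub_eq_iff_eq_add] at h1
  rw [← h1]
  abel

variable [Fintype S] [Fintype Rl] [Fintype C]

theorem PMh_chain (hK : Down K) (hf : IsFox γ fx) (hr : ∀ j, FreeGroup.lift γ (wd (.inl j)) = 1)
    {a : Cell D} (ha : a ∈ K) (j : IR S Rl C) :
    ∑ i, (if a i % 2 = 1 then sg a i • (evZ γ (M.w (bot a) i) * PMh_P M γ fx (a + ee i) j -
      PMh_P M γ fx (a - ee i) j) else 0) = ∑ k, PMh_P M γ fx a k * AR γ fx wd k j := by
  classical
  have f1 : ∀ i, a i % 2 = 1 → Fc (a + ee i) a := fun i h => ⟨i, h, Or.inl rfl⟩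
  have f2 : ∀ i, a i % 2 = 1 → Fc (a - ee i) a := fun i h => ⟨i, h, Or.inr rfl⟩
  have z : (∀ b, Fc b a → PMh_P M γ fx b j = 0) →
      ∑ i, (if a i % 2 = 1 then sg a i • (evZ γ (M.w (bot a) i) * PMh_P M γ fx (a + ee i) j -
        PMh_P M γ fx (a - ee i) j) else 0) = 0 := fun h =>
    Finset.sum_eq_zero fun i _ => by
      split_ifs with hi
      · rw [h _ (f1 i hi), h _ (f2 i hi), mul_zero, sub_zero, smul_zero]
      · rfl
  have z' : dR j + 1 ≠ dim a → ∀ b, Fc b a → PMh_P M γ fx b j = 0 := fun h b hb => by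
    by_contra h0
    have h1 := PMh_deg M (hK a ha b hb.face) j h0
    have h2 := hb.dim_eq
    omega
  have p0 : ∀ k, dR k ≠ dim a → PMh_P M γ fx a k = 0 := fun k h =>
    not_not.1 fun h0 => h (PMh_deg M ha k h0)
  simp only [Fintype.sum_sum_type]
  rcases j with _ | s | k | c | c <;>
    simp only [AR, mul_zero, Finset.sum_const_zero, add_zero, zero_add]
  · by_cases h : dim a = 1
    · obtain ⟨v, i, hv, rfl⟩ := dim_eq_one_iff.1 h
      have e1 := (f1 i ((PMh_odd1 hv i).2 rfl)).dim_eq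
      have e2 := (f2 i ((PMh_odd1 hv i).2 rfl)).dim_eq
      simp only [PMh_odd1 hv, Finset.sum_ite_eq', Finset.mem_univ, if_true, PMh_edge M hv,
        hf.fund, PMh_bot1 hv, PMh_sg_le v le_rfl, PMh_sg0 hv, one_smul]
      simp only [PMh_P]
      rw [if_pos (by omega), if_pos (by omega), mul_one]
    · rw [z (z' fun e => h (by simpa [dR] using e.symm))]
      refine (Finset.sum_eq_zero fun s _ => ?_).symm
      rw [p0 (.inr (.inl s)) fun e => h e.symm, zero_mul]
  · by_cases h : dim a = 2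
    · obtain ⟨v, i, j, hv, hij, rfl⟩ := dim_eq_two_iff.1 h
      have a1 : v + ee i + ee j + ee i = v + 2 • ee i + ee j := by rw [two_smul]; abel
      have a2 : v + ee i + ee j - ee i = v + ee j := by abel
      have a3 : v + ee i + ee j + ee j = v + 2 • ee j + ee i := by rw [two_smul]; abel
      have a4 : v + ee i + ee j - ee j = v + ee i := by abel
      rw [Finset.sum_eq_add_of_mem i j (Finset.mem_univ _) (Finset.mem_univ _) hij.ne
        fun k _ hk => if_neg fun e => ((PMh_odd2 hv hij.ne k).1 e).elim hk.1 hk.2,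
        if_pos ((PMh_odd2 hv hij.ne i).2 (Or.inl rfl)),
        if_pos ((PMh_odd2 hv hij.ne j).2 (Or.inr rfl)), a1, a2, a3, a4, PMh_edge M hv,
        PMh_edge M hv, PMh_edge M (PMh_vtx hv i), PMh_edge M (PMh_vtx hv j), PMh_bot2 hv hij.ne,
        PMh_sg_le _ hij.le, PMh_sg_le _ le_rfl, PMh_sg_le _ le_rfl, sg_add_of_lt hij,
        PMh_sg0 hv, PMh_sg0 hv, one_smul, neg_smul, one_smul, ← sub_eq_add_neg]
      by_cases hk : ∃ k, v + ee i + ee j = M.cr (.inr (.inr (.inl k)))
      · obtain ⟨k, hk⟩ := hk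
        have e := M.rel_cr v i j k hv hij hk
        have e1 : evZ γ (wd (.inl k))⁻¹ = 1 := by rw [evZ, map_inv, hr, inv_one]; rfl
        rw [PMh_rel hf _ _ _ _ (e ▸ e1), e, hf.inv, e1, one_mul, hk,
          Finset.sum_eq_single k (fun k' _ hk' => by
            rw [PMh_ne M hf _ _ (by simpa using hk'.symm), zero_mul]) (by simp)]
        simp [PMh_P]
      · push Not at hk
        have e := M.rel_one v i j hv hij ha hk
        rw [PMh_rel hf _ _ _ _ (e ▸ evZ_one), e, hf.one]
        refine (Finset.sum_eq_zero fun k _ => ?_).symm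
        simp only [PMh_P, if_neg (hk k), zero_mul]
    · rw [z (z' fun e => h (by simpa [dR] using e.symm))]
      refine (Finset.sum_eq_zero fun k _ => ?_).symm
      rw [p0 (.inr (.inr (.inl k))) fun e => h e.symm, zero_mul]
  · by_cases h : dim a = 3
    · exact z fun b hb => if_neg fun e : b = M.cr (.inr (.inr (.inl k))) =>
        M.cube_rel a ha h k (e ▸ hb)
    · exact z (z' fun e => h (by simpa [dR] using e.symm))
  · simp only [mul_ite, mul_zero, Finset.sum_ite_eq', Finset.mem_univ, if_true]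
    by_cases h : dim a = 3
    · rcases M.cube a ha h c with ⟨h1, h2⟩ | ⟨i, hi, hs, t1, t2, h3, h4, h5⟩
      · rw [z fun b hb => if_neg (h1 b hb)]
        simp only [PMh_P, if_neg h2, zero_mul]
      · rw [Finset.sum_eq_single i (fun k _ hk => by
          split_ifs with ho
          · simp only [PMh_P, if_neg (h3 k hk ho).1, if_neg (h3 k hk ho).2, mul_zero, sub_zero,
              smul_zero]
          · rfl) (by simp), if_pos hi, hs, one_smul]
        simp only [PMh_P, if_pos t1, if_pos t2]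
        split_ifs with hc
        · obtain ⟨u1, u2, u3⟩ := h5 hc
          rw [u1, u2, u3, inv_one, evZ_one, one_mul, one_mul]
        · rw [h4 hc, ← evZ_mul, mul_inv_rev, mul_inv_cancel_left, sub_self, zero_mul]
    · rw [z (z' fun e => h (by simpa [dR] using e.symm)),
        p0 (.inr (.inr (.inr (.inr c)))) fun e => h e.symm, zero_mul]
  · refine z (z' ?_)
    have := M.dim_le a ha
    simp only [dR]
    omega

theorem PM.he {D : ℕ} {G S Rl C : Type} [Group G] [Fintype S] [Fintype Rl] [Fintype C]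
    [DecidableEq (IR S Rl C)] {γ : S → G} {fx : FreeGroup S → S → ZG G}
    {wd : Rl ⊕ C → FreeGroup S} {X : LC D G} (M : PM X.K wd) (hf : IsFox γ fx)
    (hr : ∀ j, FreeGroup.lift γ (wd (.inl j)) = 1)
    (hμ : ∀ a ∈ X.K, ∀ i, a i % 2 = 1 →
      X.μ a (a - ee i) = 1 ∧ X.μ a (a + ee i) = FreeGroup.lift γ (M.w (bot a) i)) :
    HE (dimS X.K) (bdS X.μ X.K) dR (AR γ fx wd) := by
  refine M.m.he (X.cx subset_rfl fun a ha _ _ b hb _ => X.down a ha b hb) (PMh_P M γ fx)
    (fun a ha j h => PMh_deg M ha j h) (fun a ha j => ?_) (fun a ha hu j => PMh_up M hf ha hu j)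
    M.cr M.cr_mem M.crit (PMh_ne M hf) (PMh_unit M hf)
  rw [sum_inc, ← PMh_chain M X.down hf hr ha j]
  refine Finset.sum_congr rfl fun i _ => ?_
  by_cases hi : a i % 2 = 1
  · rw [if_pos hi, if_pos hi, if_pos (X.down a ha _ (Fc.face ⟨i, hi, Or.inl rfl⟩)),
      if_pos (X.down a ha _ (Fc.face ⟨i, hi, Or.inr rfl⟩)), (hμ a ha i hi).1, (hμ a ha i hi).2,
      ← MonoidAlgebra.one_def, one_mul]
    rfl
  · rw [if_neg hi, if_neg hi]

end Pool.Agent.Work.MP_735653_gt
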