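import Pool.Agent.Work.MP_735653_gt.LCB
import Pool.Agent.Work.MP_735653_gt.XDefs

/-! The fundamental group of a model. -/

namespace Pool.Agent.Work.MP_735653_gt

variable {D : ℕ} {G S Rl C : Type} [Group G] {γ : S → G} {wd : Rl ⊕ C → FreeGroup S}

theorem PMs_ind {α : Type} (K : Finset α) (r : α → ℤ) (P : α → Prop)
    (h : ∀ a ∈ K, (∀ b ∈ K, r b < r a → P b) → P a) : ∀ a ∈ K, P a := by
  classical
  by_contra hc
  push Not at hc
  obtain ⟨a, ha, hm⟩ := Finset.exists_min_image (K.filter fun a => ¬ P a) r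
    (hc.imp fun a ha => Finset.mem_filter.2 ha)
  rw [Finset.mem_filter] at ha
  refine ha.2 (h a ha.1 fun b hb hr => ?_)
  by_contra hP
  exact (hm b (Finset.mem_filter.2 ⟨hb, hP⟩)).not_gt hr

theorem PMs_forest {α H : Type} [Group H] (r : α → ℤ) (par : α → α) (g : α → H) (T : Finset α)
    (h : ∀ v ∈ T, par v ∈ T → r (par v) < r v) : ∃ f : α → H, ∀ v ∈ T, f v = g v * f (par v) := by
  classical
  induction T using Finset.induction_on_max_value r with
  | empty => exact ⟨1, by simp⟩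
  | insert a s ha hm ih =>
    obtain ⟨f, hf⟩ := ih fun v hv hp =>
      h v (Finset.mem_insert_of_mem hv) (Finset.mem_insert_of_mem hp)
    refine ⟨Function.update f a (g a * f (par a)), fun v hv => ?_⟩
    have h1 : par v ≠ a := fun e => by
      have h2 := h v hv (e ▸ Finset.mem_insert_self _ _)
      rw [e] at h2
      rcases Finset.mem_insert.1 hv with rfl | hv
      · exact h2.false
      · exact (hm v hv).not_gt h2
    rw [Function.update_of_ne h1]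
    rcases Finset.mem_insert.1 hv with rfl | hv
    · rw [Function.update_self]
    · rw [Function.update_of_ne (fun e : v = a => ha (e ▸ hv)), hf v hv]

theorem PMs_vtx {v : Cell D} (hv : Vtx v) (i : Fin D) : Vtx (v + 2 • ee i) := fun k => by
  have := hv k
  rw [two_nsmul, Pi.add_apply, Pi.add_apply]
  omega

theorem PMs_ne (v : Cell D) (i : Fin D) : v + 2 • ee i ≠ v := fun e => by
  have := congrFun e i
  simp [LCB_ee_self] at this

theorem PMs_edge_inj {u u' : Cell D} {i i' : Fin D} (hu : Vtx u) (hu' : Vtx u')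
    (e : u + ee i = u' + ee i') : u = u' ∧ i = i' := by
  have h1 : i = i' := by
    by_contra h
    have h2 := congrFun e i
    have h3 := hu i
    have h4 := hu' i
    simp only [Pi.add_apply, LCB_ee_self, LCB_ee_ne h] at h2
    omega
  subst h1
  exact ⟨add_right_cancel e, rfl⟩

theorem PMs_fc_lo {v : Cell D} (hv : Vtx v) (i : Fin D) : Fc v (v + ee i) :=
  ⟨i, by have := hv i; simp only [Pi.add_apply, LCB_ee_self]; omega, Or.inr (by abel)⟩

theorem PMs_fc_hi {v : Cell D} (hv : Vtx v) (i : Fin D) : Fc (v + 2 • ee i) (v + ee i) :=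
  ⟨i, by have := hv i; simp only [Pi.add_apply, LCB_ee_self]; omega, Or.inl (by abel)⟩

theorem PMs_fc_edge {v b : Cell D} (hv : Vtx v) {i : Fin D} (h : Fc b (v + ee i)) :
    b = v ∨ b = v + 2 • ee i := by
  obtain ⟨l, hl, h⟩ := h
  have h1 : l = i := by
    by_contra h1
    have := hv l
    simp only [Pi.add_apply, LCB_ee_ne h1] at hl
    omega
  subst h1
  rcases h with rfl | rfl
  · right; abel
  · left; abel

theorem PMs_sq {v : Cell D} (hv : Vtx v) {j k : Fin D} (h : j ≠ k) :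
    Fc (v + ee j) (v + ee j + ee k) ∧ Fc (v + 2 • ee j + ee k) (v + ee j + ee k) ∧
      Fc (v + 2 • ee k + ee j) (v + ee j + ee k) ∧ Fc (v + ee k) (v + ee j + ee k) := by
  have hj : (v + ee j + ee k) j % 2 = 1 := by
    have := hv j; simp only [Pi.add_apply, LCB_ee_self, LCB_ee_ne h]; omega
  have hk : (v + ee j + ee k) k % 2 = 1 := by
    have := hv k; simp only [Pi.add_apply, LCB_ee_self, LCB_ee_ne h.symm]; omega
  exact ⟨⟨k, hk, Or.inr (by abel)⟩, ⟨j, hj, Or.inl (by abel)⟩, ⟨k, hk, Or.inl (by abel)⟩,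
    ⟨j, hj, Or.inr (by abel)⟩⟩

theorem PMs_faces {v u : Cell D} (hv : Vtx v) (hu : Vtx u) {i j k : Fin D}
    (h : Fc (u + ee i) (v + ee j + ee k)) : (u = v ∧ i = j) ∨ (u = v + 2 • ee j ∧ i = k) ∨
      (u = v + 2 • ee k ∧ i = j) ∨ (u = v ∧ i = k) := by
  obtain ⟨l, hl, h⟩ := h
  have h1 : l = j ∨ l = k := by
    by_contra h1
    push Not at h1
    have := hv l
    simp only [Pi.add_apply, LCB_ee_ne h1.1, LCB_ee_ne h1.2] at hl
    omega
  rcases h1 with rfl | rfl <;> rcases h with h | h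
  · exact Or.inr (Or.inl (PMs_edge_inj hu (PMs_vtx hv l) (h.trans (by abel))))
  · exact Or.inr (Or.inr (Or.inr (PMs_edge_inj hu hv (h.trans (by abel)))))
  · exact Or.inr (Or.inr (Or.inl (PMs_edge_inj hu (PMs_vtx hv l) (h.trans (by abel)))))
  · exact Or.inl (PMs_edge_inj hu hv (h.trans (by abel)))

theorem PMs_not_up {K : Finset (Cell D)} (m : LM K) {v : Cell D} (hK : v ∈ K) (hv : Vtx v) :
    ¬ m.up v := fun h => by
  obtain ⟨i, hi, -⟩ := (m.up_σ v hK h).2.2.2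
  have := hv i
  omega

theorem PMs_dn {K : Finset (Cell D)} (M : PM K wd) {v : Cell D} (hK : v ∈ K) (hv : Vtx v) :
    M.m.dn v ∨ v = M.cr (.inl ()) := by
  by_cases h : M.m.dn v
  · exact Or.inl h
  · obtain ⟨j, rfl⟩ := (M.crit v hK).1 ⟨PMs_not_up M.m hK hv, h⟩
    have h1 := M.cr_dim j
    rw [dim_eq_zero_iff.2 hv] at h1
    rcases j with j | j | j | j | j
    · exact Or.inr rfl
    all_goals simp [dR] at h1

/-- a matched vertex is an endpoint of an upper edge -/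
theorem PMs_par {K : Finset (Cell D)} (hD : Down K) (m : LM K) {v : Cell D} (hK : v ∈ K)
    (hv : Vtx v) (h : m.dn v) : ∃ u i v', Vtx u ∧ m.σ v = u + ee i ∧ u + ee i ∈ K ∧
      m.up (u + ee i) ∧ v' ∈ K ∧ Vtx v' ∧ (m.dn v' → m.ρ (m.σ v') < m.ρ (m.σ v)) ∧
      ((v = u ∧ v' = u + 2 • ee i) ∨ (v' = u ∧ v = u + 2 • ee i)) := by
  obtain ⟨h1, h2, h3⟩ := m.dn_σ v hK h
  have h4 := (m.up_σ _ h1 h2).2.2.2
  rw [h3] at h4
  have h5 := h4.dim_eq
  rw [dim_eq_zero_iff.2 hv, zero_add] at h5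
  obtain ⟨u, i, hu, e⟩ := dim_eq_one_iff.1 h5.symm
  have key : ∀ v', Fc v' (u + ee i) → v' ≠ v → v' ∈ K ∧ (m.dn v' → m.ρ (m.σ v') < m.ρ (m.σ v)) :=
    fun v' hf hne => ⟨hD _ h1 _ (e ▸ hf.face), fun hd =>
      m.tri _ h1 _ (hD _ h1 _ (e ▸ hf.face)) h2 hd (e ▸ hf) (h3.symm ▸ hne)⟩
  rcases PMs_fc_edge hu (e ▸ h4) with e' | e'
  · obtain ⟨k1, k2⟩ := key _ (PMs_fc_hi hu i) (e' ▸ PMs_ne v i)
    exact ⟨u, i, _, hu, e, e ▸ h1, e ▸ h2, k1, PMs_vtx hu i, k2, Or.inl ⟨e', rfl⟩⟩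
  · obtain ⟨k1, k2⟩ := key _ (PMs_fc_lo hu i) (by rw [e']; exact (PMs_ne u i).symm)
    exact ⟨u, i, _, hu, e, e ▸ h1, e ▸ h2, k1, hu, k2, Or.inr ⟨rfl, e'⟩⟩

theorem PMs_gauge {K : Finset (Cell D)} (hD : Down K) (m : LM K) {H : Type} [Group H]
    (ε : Cell D → Fin D → H) : ∃ f : Cell D → H, ∀ u i, Vtx u → u + ee i ∈ K → m.up (u + ee i) →
      f u = ε u i * f (u + 2 • ee i) := by
  classical
  have h1 : ∀ v, ∃ (v' : Cell D) (g : H), v ∈ K → Vtx v → m.dn v →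
      (m.dn v' → m.ρ (m.σ v') < m.ρ (m.σ v)) ∧ ∀ f : Cell D → H, f v = g * f v' →
        ∀ u i, Vtx u → m.σ v = u + ee i → f u = ε u i * f (u + 2 • ee i) := fun v => by
    by_cases hv : v ∈ K ∧ Vtx v ∧ m.dn v
    · obtain ⟨u, i, v', hu, e, -, -, -, -, hr, h⟩ := PMs_par hD m hv.1 hv.2.1 hv.2.2
      rcases h with ⟨rfl, rfl⟩ | ⟨rfl, rfl⟩
      · refine ⟨_, ε v i, fun _ _ _ => ⟨hr, fun f hf u' i' hu' e' => ?_⟩⟩
        obtain ⟨rfl, rfl⟩ := PMs_edge_inj hu hu' (e.symm.trans e')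
        exact hf
      · refine ⟨_, (ε v' i)⁻¹, fun _ _ _ => ⟨hr, fun f hf u' i' hu' e' => ?_⟩⟩
        obtain ⟨rfl, rfl⟩ := PMs_edge_inj hu hu' (e.symm.trans e')
        rw [hf, mul_inv_cancel_left]
    · exact ⟨v, 1, fun a b c => (hv ⟨a, b, c⟩).elim⟩
  choose par g hp using h1
  obtain ⟨f, hf⟩ := PMs_forest (fun v => m.ρ (m.σ v)) par g (K.filter fun v => Vtx v ∧ m.dn v)
    fun v hv hv' => by
      rw [Finset.mem_filter] at hv hv'
      exact (hp v hv.1 hv.2.1 hv.2.2).1 hv'.2.2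
  refine ⟨f, fun u i hu hK hup => ?_⟩
  obtain ⟨a1, a2, a3, a4⟩ := m.up_σ _ hK hup
  have a5 : Vtx (m.σ (u + ee i)) := by
    rcases PMs_fc_edge hu a4 with e | e <;> rw [e]
    exacts [hu, PMs_vtx hu i]
  exact (hp _ a1 a5 a2).2 f (hf _ (Finset.mem_filter.2 ⟨a1, a5, a2⟩)) u i hu a3

theorem PMs_cr_edge {K : Finset (Cell D)} (M : PM K wd) (s : S) :
    ∃ v i, Vtx v ∧ M.cr (.inr (.inl s)) = v + ee i := dim_eq_one_iff.1 (M.cr_dim _)

theorem PMs_relw {H : Type} [Group H] (θ : FreeGroup S →* H) {w : Cell D → Fin D → FreeGroup S}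
    {v : Cell D} {i j : Fin D} : θ (relw w v i j) = 1 ↔
      θ (w v i) * θ (w (v + 2 • ee i) j) = θ (w v j) * θ (w (v + 2 • ee j) i) := by
  simp only [relw, map_mul, map_inv]
  rw [mul_inv_eq_one, mul_inv_eq_iff_eq_mul]

theorem PMs_claim {K : Finset (Cell D)} (hD : Down K) (M : PM K wd) {H : Type} [Group H]
    {ε : Cell D → Fin D → H} (hε : ECoc K ε)
    (h1 : ∀ u i, Vtx u → u + ee i ∈ K → M.m.up (u + ee i) → ε u i = 1) (θ : FreeGroup S →* H)
    (h2 : ∀ u i s, Vtx u → u + ee i = M.cr (.inr (.inl s)) → ε u i = θ (FreeGroup.of s)) :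
    ∀ e ∈ K, ∀ u i, Vtx u → e = u + ee i → ε u i = θ (M.w u i) := by
  refine PMs_ind K (fun e => M.m.ρ (M.m.σ e)) _ fun e he ih => ?_
  have easy : ∀ u i, Vtx u → u + ee i ∈ K → ¬ M.m.dn (u + ee i) → ε u i = θ (M.w u i) := by
    intro u i hu hK hd
    by_cases hup : M.m.up (u + ee i)
    · rw [h1 u i hu hK hup, M.up_edge u i hu hK hup, map_one]
    · obtain ⟨j, hj⟩ := (M.crit _ hK).1 ⟨hup, hd⟩
      have h3 := M.cr_dim j
      rw [hj, dim_eq_one_iff.2 ⟨u, i, hu, rfl⟩] at h3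
      rcases j with j | j | j | j | j
      any_goals (simp [dR] at h3; done)
      rw [h2 u i j hu hj.symm, M.cr_edge u i j hu hj.symm]
  rintro u i hu rfl
  by_cases hd : M.m.dn (u + ee i)
  swap
  · exact easy u i hu he hd
  obtain ⟨a1, a2, a3⟩ := M.m.dn_σ _ he hd
  have a4 := (M.m.up_σ _ a1 a2).2.2.2
  rw [a3] at a4
  have a5 := a4.dim_eq
  rw [dim_eq_one_iff.2 ⟨u, i, hu, rfl⟩] at a5
  obtain ⟨v, j, k, hv, hjk, e⟩ := dim_eq_two_iff.1 a5.symm
  have oth : ∀ u' i', Vtx u' → Fc (u' + ee i') (v + ee j + ee k) → ¬ (u' = u ∧ i' = i) →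
      ε u' i' = θ (M.w u' i') := fun u' i' hu' hf hne => by
    rw [← e] at hf
    have b1 := hD _ a1 _ hf.face
    by_cases hd' : M.m.dn (u' + ee i')
    · exact ih _ b1 (M.m.tri _ a1 _ b1 a2 hd' hf fun e' =>
        hne (PMs_edge_inj hu' hu (e'.trans a3))) u' i' hu' rfl
    · exact easy u' i' hu' b1 hd'
  have r1 := hε v j k hv hjk.ne (e ▸ a1)
  have r2 := (PMs_relw θ).1 (by
    rw [M.rel_one v j k hv hjk (e ▸ a1) fun l e' =>
      ((M.crit _ a1).2 ⟨_, (e.trans e').symm⟩).1 a2, map_one])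
  obtain ⟨f1, f2, f3, f4⟩ := PMs_sq hv hjk.ne
  have g1 := oth _ _ hv f1
  have g2 := oth _ _ (PMs_vtx hv j) f2
  have g3 := oth _ _ (PMs_vtx hv k) f3
  have g4 := oth _ _ hv f4
  rcases PMs_faces hv hu (e ▸ a4) with ⟨rfl, rfl⟩ | ⟨rfl, rfl⟩ | ⟨rfl, rfl⟩ | ⟨rfl, rfl⟩
  · rw [g2 fun h => hjk.ne' h.2, g3 fun h => PMs_ne _ _ h.1, g4 fun h => hjk.ne' h.2, ← r2] at r1
    exact mul_right_cancel r1
  · rw [g1 fun h => hjk.ne h.2, g3 fun h => hjk.ne h.2, g4 fun h => PMs_ne _ _ h.1.symm,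
      ← r2] at r1
    exact mul_left_cancel r1
  · rw [g1 fun h => PMs_ne _ _ h.1.symm, g2 fun h => hjk.ne' h.2, g4 fun h => hjk.ne' h.2,
      r2] at r1
    exact (mul_left_cancel r1).symm
  · rw [g1 fun h => hjk.ne h.2, g2 fun h => PMs_ne _ _ h.1, g3 fun h => hjk.ne h.2, r2] at r1
    exact (mul_right_cancel r1).symm

theorem PM.ecoc {K : Finset (Cell D)} (M : PM K wd) (h : Pres γ fun j => wd (.inl j)) :
    ECoc K fun v i => FreeGroup.lift γ (M.w v i) := by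
  have key : ∀ v i j, Vtx v → i < j → v + ee i + ee j ∈ K →
      FreeGroup.lift γ (relw M.w v i j) = 1 := fun v i j hv hij hK => by
    by_cases hc : ∃ k, v + ee i + ee j = M.cr (.inr (.inr (.inl k)))
    · obtain ⟨k, hk⟩ := hc
      rw [M.rel_cr v i j k hv hij hk, map_inv, h.rel k, inv_one]
    · rw [M.rel_one v i j hv hij hK fun k hk => hc ⟨k, hk⟩, map_one]
  intro v i j hv hij hK
  rcases lt_or_gt_of_ne hij with h1 | h1
  · exact (PMs_relw _).1 (key v i j hv h1 hK)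
  · exact ((PMs_relw _).1 (key v j i hv h1 (by rwa [add_right_comm]))).symm

theorem PM.sce {X : LC D G} (M : PM X.K wd) (h : Pres γ fun j => wd (.inl j))
    (hμ : ∀ v i, Vtx v → v + ee i ∈ X.K → mue X.μ v i = FreeGroup.lift γ (M.w v i)) : SCe X := by
  intro H _ ε hε
  obtain ⟨f, hf⟩ := PMs_gauge X.down M.m ε
  have hε' : ECoc X.K fun v i => (f v)⁻¹ * ε v i * f (v + 2 • ee i) := fun v i j hv hij hK => by
    have h1 := hε v i j hv hij hK
    simp only [mul_assoc, mul_inv_cancel_left, mul_right_inj]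
    rw [← mul_assoc, h1, add_right_comm v, mul_assoc]
  choose u k hu e using PMs_cr_edge M
  obtain ⟨θ₀, hθ₀⟩ : ∃ θ₀ : S → H, ∀ s, θ₀ s = (f (u s))⁻¹ * ε (u s) (k s) * f (u s + 2 • ee (k s)) :=
    ⟨_, fun _ => rfl⟩
  have cl := PMs_claim X.down M hε' (fun v i hv hK hup => by
    rw [mul_assoc, ← hf v i hv hK hup, inv_mul_cancel]) (FreeGroup.lift θ₀) fun v i s hv e' => by
      obtain ⟨rfl, rfl⟩ := PMs_edge_inj hv (hu s) (e'.trans (e s))
      rw [FreeGroup.lift_apply_of, hθ₀]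
  obtain ⟨θ, hθ⟩ := h.univ H θ₀ fun l => by
    obtain ⟨v, i, j, hv, hij, e'⟩ := dim_eq_two_iff.1 (M.cr_dim (.inr (.inr (.inl l))))
    have hK := e' ▸ M.cr_mem (.inr (.inr (.inl l)))
    obtain ⟨f1, f2, f3, f4⟩ := PMs_sq hv hij.ne
    have r := hε' v i j hv hij.ne hK
    beta_reduce at r
    rw [cl _ (X.down _ hK _ f1.face) _ _ hv rfl, cl _ (X.down _ hK _ f2.face) _ _ (PMs_vtx hv i) rfl,
      cl _ (X.down _ hK _ f3.face) _ _ (PMs_vtx hv j) rfl, cl _ (X.down _ hK _ f4.face) _ _ hv rfl,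
      ← PMs_relw, M.rel_cr v i j l hv hij e'.symm, map_inv, inv_eq_one] at r
    exact r
  have hθ' : θ.comp (FreeGroup.lift γ) = FreeGroup.lift θ₀ :=
    FreeGroup.ext_hom _ _ fun s => by simp [hθ]
  refine ⟨θ, f, fun v i hv hK => ?_⟩
  rw [hμ v i hv hK, ← MonoidHom.comp_apply, hθ', ← cl _ hK v i hv rfl]
  group

theorem PM.connE {X : LC D G} (M : PM X.K wd) (h : Pres γ fun j => wd (.inl j))
    (hμ : ∀ v i, Vtx v → v + ee i ∈ X.K → mue X.μ v i = FreeGroup.lift γ (M.w v i)) :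
    ConnE X := by
  refine ⟨⟨_, M.cr_mem (.inl ()), dim_eq_zero_iff.1 (M.cr_dim _)⟩, fun φ hφ => ?_⟩
  have h1 : ∀ g, ∀ v ∈ X.K, Vtx v → (φ g v ↔ φ g (M.cr (.inl ()))) := fun g => by
    refine PMs_ind X.K (fun e => M.m.ρ (M.m.σ e)) _ fun v hK ih hv => ?_
    rcases PMs_dn M hK hv with hd | rfl
    · obtain ⟨u, i, v', hu, -, b1, b2, b3, b4, b5, b6⟩ := PMs_par X.down M.m hK hv hd
      have c1 := hφ g u i hu b1
      rw [hμ u i hu b1, M.up_edge u i hu b1 b2, map_one, mul_one] at c1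
      have c2 : φ g v' ↔ φ g (M.cr (.inl ())) := by
        rcases PMs_dn M b3 b4 with hd' | e
        · exact ih v' b3 (b5 hd') b4
        · rw [e]
      rcases b6 with ⟨rfl, rfl⟩ | ⟨rfl, rfl⟩
      · exact c1.trans c2
      · exact c1.symm.trans c2
    · rfl
  have h2 : ∀ x ∈ Subgroup.closure (Set.range γ), ∀ g,
      (φ g (M.cr (.inl ())) ↔ φ (g * x) (M.cr (.inl ()))) := fun x hx => by
    induction hx using Subgroup.closure_induction with
    | mem x hx =>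
      obtain ⟨s, rfl⟩ := hx
      intro g
      obtain ⟨u, i, hu, e⟩ := PMs_cr_edge M s
      have hK := e ▸ M.cr_mem (.inr (.inl s))
      have c1 := hφ g u i hu hK
      rwa [hμ u i hu hK, M.cr_edge u i s hu e.symm, FreeGroup.lift_apply_of,
        h1 g u (X.down _ hK _ (PMs_fc_lo hu i).face) hu,
        h1 _ _ (X.down _ hK _ (PMs_fc_hi hu i).face) (PMs_vtx hu i)] at c1
    | one => intro g; rw [mul_one]
    | mul x y _ _ hx hy => intro g; rw [← mul_assoc, ← hy, ← hx]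
    | inv x _ hx => intro g; rw [hx (g * x⁻¹), inv_mul_cancel_right]
  intro g g' a ha b hb va vb H
  rw [h1 g a ha va, h2 (g⁻¹ * g') (h.gen ▸ Subgroup.mem_top _), mul_inv_cancel_left] at H
  exact (h1 g' b hb vb).2 H

end Pool.Agent.Work.MP_735653_gt
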