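import Pool.Agent.Work.MP_735653_gt.LCB

/-! Changing the dimension of the ambient lattice. -/

namespace Pool.Agent.Work.MP_735653_gt

/-- the coordinates of a cell, extended by zero -/
def Resize_ex {a : ℕ} (x : Cell a) (n : ℕ) : ℤ := if h : n < a then x ⟨n, h⟩ else 0

/-- the same cell in another lattice -/
def Resize_rs {a : ℕ} (b : ℕ) (x : Cell a) : Cell b := fun i => Resize_ex x i.1

/-- two cells with the same extended coordinates -/
def Resize_R {a b : ℕ} (x : Cell a) (y : Cell b) : Prop := ∀ n, Resize_ex x n = Resize_ex y n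

variable {a b : ℕ}

theorem Resize_ex_val (x : Cell a) (i : Fin a) : Resize_ex x i.1 = x i := by
  simp [Resize_ex]

theorem Resize_ex_ge (x : Cell a) {n : ℕ} (h : a ≤ n) : Resize_ex x n = 0 := by
  simp [Resize_ex, not_lt.2 h]

theorem Resize_R.symm {x : Cell a} {y : Cell b} (h : Resize_R x y) : Resize_R y x :=
  fun n => (h n).symm

theorem Resize_R.rs_eq {x : Cell a} {y : Cell b} (h : Resize_R x y) : Resize_rs b x = y := by
  funext i
  rw [Resize_rs, h, Resize_ex_val]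

theorem Resize_R.val {x : Cell a} {y : Cell b} (h : Resize_R x y) {i : Fin a} {j : Fin b}
    (hij : i.1 = j.1) : x i = y j := by
  rw [← Resize_ex_val x, h, hij, Resize_ex_val]

theorem Resize_R.lt {x : Cell a} {y : Cell b} (h : Resize_R x y) {i : Fin a}
    (hi : x i ≠ 0) : i.1 < b := by
  by_contra hb
  apply hi
  rw [← Resize_ex_val x, h, Resize_ex_ge _ (not_lt.1 hb)]

theorem Resize_R_rs {x : Cell a} (h : ∀ i : Fin a, b ≤ i.1 → x i = 0) :
    Resize_R x (Resize_rs b x) := fun n => by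
  by_cases hn : n < b
  · exact (Resize_ex_val (Resize_rs b x) ⟨n, hn⟩).symm
  · rw [Resize_ex_ge _ (not_lt.1 hn)]
    by_cases hn' : n < a
    · rw [show n = (⟨n, hn'⟩ : Fin a).1 from rfl, Resize_ex_val]
      exact h _ (not_lt.1 hn)
    · exact Resize_ex_ge _ (not_lt.1 hn')

theorem Resize_face_iff {x y : Cell a} : Face y x ↔ ∀ n, Resize_ex y n = Resize_ex x n ∨
    (Resize_ex x n % 2 = 1 ∧ (Resize_ex y n = Resize_ex x n + 1 ∨
      Resize_ex y n = Resize_ex x n - 1)) := by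
  constructor
  · intro h n
    by_cases hn : n < a
    · have := h ⟨n, hn⟩
      rwa [← Resize_ex_val x, ← Resize_ex_val y] at this
    · left
      rw [Resize_ex_ge _ (not_lt.1 hn), Resize_ex_ge _ (not_lt.1 hn)]
  · intro h i
    have := h i.1
    rwa [Resize_ex_val, Resize_ex_val] at this

theorem Resize_R.face {x y : Cell a} {x' y' : Cell b} (hx : Resize_R x x') (hy : Resize_R y y')
    (h : Face y x) : Face y' x' := by
  rw [Resize_face_iff] at h ⊢
  intro n
  rw [← hx n, ← hy n]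
  exact h n

theorem Resize_R.of_face {x y : Cell a} {x' : Cell b} (hx : Resize_R x x') (h : Face y x) :
    Resize_R y (Resize_rs b y) := by
  refine Resize_R_rs fun i hi => ?_
  have h0 : x i = 0 := by
    by_contra h1
    exact absurd (hx.lt h1) (not_lt.2 hi)
  have := h i
  omega

theorem Resize_sum (f : Fin a → ℤ) (g : Fin b → ℤ) (hf : ∀ i, f i ≠ 0 → i.1 < b)
    (hg : ∀ j, g j ≠ 0 → j.1 < a) (h : ∀ i j, i.1 = j.1 → f i = g j) : ∑ i, f i = ∑ j, g j := by
  refine Finset.sum_bij_ne_zero (fun i _ hi => ⟨i.1, hf i hi⟩) (fun _ _ _ => Finset.mem_univ _)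
    (fun i _ _ i' _ _ e => Fin.ext (by simpa using e)) (fun j _ hj => ?_) fun i _ hi => h _ _ rfl
  refine ⟨⟨j.1, hg j hj⟩, Finset.mem_univ _, ?_, rfl⟩
  rwa [h ⟨j.1, hg j hj⟩ j rfl]

theorem Resize_card (p : Fin a → Prop) (q : Fin b → Prop) [DecidablePred p] [DecidablePred q]
    (hp : ∀ i, p i → i.1 < b) (hq : ∀ j, q j → j.1 < a) (h : ∀ i j, i.1 = j.1 → (p i ↔ q j)) :
    (Finset.univ.filter p).card = (Finset.univ.filter q).card := by
  refine Finset.card_bij (fun i hi => ⟨i.1, hp i (Finset.mem_filter.1 hi).2⟩) (fun i hi => ?_)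
    (fun i _ i' _ e => Fin.ext (by simpa using e)) fun j hj => ?_
  · exact Finset.mem_filter.2 ⟨Finset.mem_univ _, (h i _ rfl).1 (Finset.mem_filter.1 hi).2⟩
  · have hj' := (Finset.mem_filter.1 hj).2
    exact ⟨⟨j.1, hq j hj'⟩, Finset.mem_filter.2 ⟨Finset.mem_univ _, (h _ j rfl).2 hj'⟩, rfl⟩

theorem Resize_R.dim_eq {x : Cell a} {x' : Cell b} (hx : Resize_R x x') : dim x = dim x' := by
  unfold dim
  rw [Resize_card _ (fun j => x' j % 2 = 1) (fun i hi => hx.lt (by omega))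
    (fun j hj => hx.symm.lt (by omega)) fun i j hij => by rw [hx.val hij]]

theorem Resize_R.sg_eq {x : Cell a} {x' : Cell b} (hx : Resize_R x x') {i : Fin a} {j : Fin b}
    (hij : i.1 = j.1) : sg x i = sg x' j := by
  unfold sg
  rw [Resize_card _ (fun k => k < j ∧ x' k % 2 = 1) (fun k hk => hx.lt (by omega))
    (fun k hk => hx.symm.lt (by omega)) fun k k' hk => by
      rw [hx.val hk, Fin.lt_def, Fin.lt_def, hk, hij]]

theorem Resize_R_ee {i : Fin a} {j : Fin b} (hij : i.1 = j.1) : Resize_R (ee i) (ee j) := by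
  have key : ∀ {c : ℕ} (k : Fin c) (n : ℕ), Resize_ex (ee k) n = if n = k.1 then 1 else 0 := by
    intro c k n
    by_cases hn : n < c
    · rw [show n = (⟨n, hn⟩ : Fin c).1 from rfl, Resize_ex_val, ee, Pi.single_apply]
      simp [Fin.ext_iff]
    · rw [Resize_ex_ge _ (not_lt.1 hn), if_neg (by omega)]
  intro n
  rw [key, key, hij]

theorem Resize_ex_add (x y : Cell a) (n : ℕ) :
    Resize_ex (x + y) n = Resize_ex x n + Resize_ex y n := by
  unfold Resize_ex
  split_ifs <;> simp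

theorem Resize_ex_sub (x y : Cell a) (n : ℕ) :
    Resize_ex (x - y) n = Resize_ex x n - Resize_ex y n := by
  unfold Resize_ex
  split_ifs <;> simp

theorem Resize_R.eq_iff {x y : Cell a} {x' y' : Cell b} (hx : Resize_R x x')
    (hy : Resize_R y y') : x = y ↔ x' = y' := by
  constructor
  · rintro rfl
    rw [← hx.rs_eq, hy.rs_eq]
  · rintro rfl
    rw [← hx.symm.rs_eq, hy.symm.rs_eq]

theorem Resize_R.inc_eq {x y : Cell a} {x' y' : Cell b} (hx : Resize_R x x')
    (hy : Resize_R y y') : inc x y = inc x' y' := by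
  unfold inc
  refine Resize_sum _ _ (fun i hi => hx.lt fun h0 => hi (by simp [h0]))
    (fun i hi => hx.symm.lt fun h0 => hi (by simp [h0])) fun i j hij => ?_
  have h1 : Resize_R (x + ee i) (x' + ee j) := fun n => by
    rw [Resize_ex_add, Resize_ex_add, hx n, Resize_R_ee hij n]
  have h2 : Resize_R (x - ee i) (x' - ee j) := fun n => by
    rw [Resize_ex_sub, Resize_ex_sub, hx n, Resize_R_ee hij n]
  simp only [hx.val hij, hx.sg_eq hij, hy.eq_iff h1, hy.eq_iff h2]

theorem LC.resize {D : ℕ} {G : Type} [Group G] (X : LC D G) (D' : ℕ)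
    (h : ∀ a ∈ X.K, ∀ i : Fin D, D' ≤ i.1 → a i = 0) :
    ∃ X' : LC D' G, (∀ a' ∈ X'.K, ∃ a ∈ X.K, dim a' = dim a) ∧ (SCp X → SCp X') ∧
      (Conn X → Conn X') ∧ HE (dimS X'.K) (bdS X'.μ X'.K) (dimS X.K) (bdS X.μ X.K) := by
  have hR : ∀ x ∈ X.K, Resize_R x (Resize_rs D' x) := fun x hx => Resize_R_rs (h x hx)
  have hK : ∀ y ∈ X.K.image (Resize_rs D'), Resize_rs D y ∈ X.K ∧ Resize_R y (Resize_rs D y) := by
    intro y hy
    obtain ⟨x, hx, rfl⟩ := Finset.mem_image.1 hy
    rw [(hR x hx).symm.rs_eq]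
    exact ⟨hx, (hR x hx).symm⟩
  have hK' : ∀ x ∈ X.K, Resize_rs D' x ∈ X.K.image (Resize_rs D') :=
    fun x hx => Finset.mem_image_of_mem _ hx
  have hdown : Down (X.K.image (Resize_rs D')) := by
    intro y hy z hz
    obtain ⟨h1, h2⟩ := hK y hy
    have h3 := h2.of_face hz
    rw [← h3.symm.rs_eq]
    exact hK' _ (X.down _ h1 _ (h2.face h3 hz))
  have hf : ∀ y ∈ X.K.image (Resize_rs D'), ∀ z, Face z y →
      Face (Resize_rs D z) (Resize_rs D y) :=
    fun y hy z hz => (hK y hy).2.face ((hK y hy).2.of_face hz) hz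
  have hf' : ∀ x ∈ X.K, ∀ z, Face z x → Face (Resize_rs D' z) (Resize_rs D' x) :=
    fun x hx z hz => (hR x hx).face ((hR x hx).of_face hz) hz
  refine ⟨⟨X.K.image (Resize_rs D'), fun y z => X.μ (Resize_rs D y) (Resize_rs D z), hdown,
    fun y hy z w hz hw => X.coc _ (hK y hy).1 _ _ (hf y hy z hz) (hf z (hdown y hy z hz) w hw)⟩,
    fun y hy => ⟨_, (hK y hy).1, (hK y hy).2.dim_eq⟩, fun hS H _ ψ hψ => ?_, fun hC => ?_, ?_⟩
  · obtain ⟨θ, f, hθ⟩ := hS H (fun x z => ψ (Resize_rs D' x) (Resize_rs D' z))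
      fun x hx z w hz hw => hψ _ (hK' x hx) _ _ (hf' x hx z hz) (hf' z (X.down x hx z hz) w hw)
    refine ⟨θ, fun y => f (Resize_rs D y), fun y hy z hz => ?_⟩
    have := hθ _ (hK y hy).1 _ (hf y hy z hz)
    rwa [(hK y hy).2.symm.rs_eq, (hK z (hdown y hy z hz)).2.symm.rs_eq] at this
  · refine ⟨hC.1.image _, fun φ hφ g g' y hy z hz hg => ?_⟩
    have := hC.2 (fun g x => φ g (Resize_rs D' x)) (fun g x hx w hw => ?_) g g' _ (hK y hy).1 _
      (hK z hz).1
    · simp only [(hK y hy).2.symm.rs_eq, (hK z hz).2.symm.rs_eq] at this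
      exact this hg
    · have := hφ g _ (hK' x hx) _ (hf' x hx w hw)
      simp only [(hR x hx).symm.rs_eq, (hR w (X.down x hx w hw)).symm.rs_eq] at this
      exact this
  · refine HE.of_equiv
      (⟨fun y => ⟨Resize_rs D y.1, (hK y.1 y.2).1⟩, fun x => ⟨Resize_rs D' x.1, hK' x.1 x.2⟩,
        fun y => Subtype.ext (hK y.1 y.2).2.symm.rs_eq,
        fun x => Subtype.ext (hR x.1 x.2).symm.rs_eq⟩ : X.K.image (Resize_rs D') ≃ X.K)
      (fun y => (hK y.1 y.2).2.dim_eq.symm) fun y z => ?_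
    change MonoidAlgebra.single _ (inc _ _) = MonoidAlgebra.single _ (inc _ _)
    rw [(hK y.1 y.2).2.inc_eq (hK z.1 z.2).2]
    rfl

end Pool.Agent.Work.MP_735653_gt
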