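import Pool.Agent.Work.MP_735653_gt.XK

/-! The critical cells and the cubes. -/

namespace Pool.Agent.Work.MP_735653_gt

variable {S Rl C : Type} {wd : Rl ⊕ C → FreeGroup S} (sc : Sch wd)

theorem XCr_dim (x : Cell 6) :
    dim x = x 0 % 2 + x 1 % 2 + x 2 % 2 + x 3 % 2 + x 4 % 2 + x 5 % 2 := by
  have h : ∀ a : ℤ, (if a % 2 = 1 then (1 : ℤ) else 0) = a % 2 := fun a => by
    split_ifs <;> omega
  unfold dim
  rw [Finset.card_filter]
  push_cast
  rw [Fin.sum_univ_six]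
  simp only [h]

theorem XCr_ext {x : Cell 6} {a b c d e f : ℤ} (h0 : x 0 = a) (h1 : x 1 = b) (h2 : x 2 = c)
    (h3 : x 3 = d) (h4 : x 4 = e) (h5 : x 5 = f) : ![a, b, c, d, e, f] = x := by
  ext i
  fin_cases i <;> simp [*]

theorem XCr_half (s : ℤ) : 2 * s / 2 = s := by omega

theorem XCr_E {s : ℤ} (h0 : 0 ≤ s) (h1 : s < sc.N) (h : sc.p (s + 1) = (0, 0)) :
    sc.E s = (1, 0) := by
  rw [Sch.E, h, sc.last s h0 h1 h]
  rfl

theorem XCr_E_odd {s : ℤ} (h0 : 0 ≤ s) (h1 : s < sc.N) :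
    (sc.E s).1 % 2 = 1 ∨ (sc.E s).2 = 1 := by
  obtain ⟨-, -, h | h⟩ := sc.step_cases h0 h1
  · exact Or.inl h.2.2.1
  · exact Or.inr h.2.2.1

theorem XCr_rel_inl {s : ℤ} {j : Rl} (h : sc.gid s = .inl j) : sc.Rel s := by
  rw [Sch.Rel, h]
  rfl

theorem XCr_rel_inr {s : ℤ} {c : C} (h : sc.gid s = .inr c) : ¬ sc.Rel s := by
  rw [Sch.Rel, h]
  simp

theorem XCr_tr {x : Cell 6} (h : trR x = none) :
    (x 0 = 0 ∧ x 1 ≠ 1 ∧ x 1 ≠ 2) ∨ (x 0 % 2 = 1 ∧ x 1 ≠ 0) := by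
  unfold trR at h
  split_ifs at h <;> omega

theorem XCr_sr (x : Cell 6) : srR x ≠ none := by
  unfold srR
  split_ifs <;> simp

theorem XCr_cm {x : Cell 6} (hk : sc.Kap (x 0) (x 1) (x 2)) (h : sc.cmR x = none) :
    x 2 % 2 = 0 ∧ ((x 0 = 1 ∧ x 1 = 0 ∧ sc.p (x 2 / 2 + 1) = (0, 0)) ∨
      (x 0 = 0 ∧ x 1 = 0 ∧ sc.p (x 2 / 2) = (0, 0))) := by
  obtain ⟨⟨l0, l1, -⟩, hk⟩ := hk
  unfold Sch.cmR at h
  split_ifs at h with c1 c2 c3 c4 c5
  · rw [XCr_E sc (by omega) (by omega) c3, Prod.mk.injEq] at c2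
    exact ⟨by omega, Or.inl ⟨c2.1, c2.2, c3⟩⟩
  · have h0 : (x 0, x 1) = (0, 0) := by
      rcases hk with h1 | h1 | ⟨-, h1 | h1⟩
      · exact h1
      · by_contra h2
        exact c4 ⟨h1, h1 ▸ h2⟩
      · exact h1.trans c5
      · exact absurd h1 c2
    rw [Prod.mk.injEq] at h0
    exact ⟨by omega, Or.inr ⟨h0.1, h0.2, c5⟩⟩

theorem XCr_base {x : Cell 6} (hg : Tt sc.m (x 0) (x 1) ∨ Tp sc.m (x 0) (x 1))
    (h0 : x 3 = 0 ∧ x 4 = 0 ∧ x 5 = 0) (h : sc.mv x = none) : x ∈ Set.range sc.cr := by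
  unfold Sch.mv at h
  rw [if_pos h0] at h
  split_ifs at h with c1 c2
  push Not at c2
  unfold Tt Tp at hg
  rcases XCr_tr h with h1 | h1
  · exact ⟨.inl (), XCr_ext h1.1 (by omega) c2 h0.1 h0.2.1 h0.2.2⟩
  · have h2 : (x 0 / 4).toNat < sc.m := by omega
    refine ⟨.inr (.inl (sc.e.symm ⟨_, h2⟩)), XCr_ext ?_ (by omega) c2 h0.1 h0.2.1 h0.2.2⟩
    rw [Equiv.apply_symm_apply]
    simp only
    omega

theorem XCr_cm_ls (j : Rl ⊕ C) (a b c : ℤ) : sc.cmR ![1, 0, 2 * sc.ls j, a, b, c] = none := by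
  obtain ⟨l0, l1, l2, -⟩ := sc.ls_spec j
  simp [Sch.cmR, XCr_E sc l0 l1 l2, l2]

theorem XCr_cm_fs (j : Rl ⊕ C) (a b c : ℤ) : sc.cmR ![0, 0, 2 * sc.fs j, a, b, c] = none := by
  obtain ⟨l0, l1, l2, -⟩ := sc.fs_spec j
  have h1 : ((0 : ℤ), (0 : ℤ)) ≠ sc.E (sc.fs j) := by
    intro h
    have := XCr_E_odd sc l0 l1
    rw [← h] at this
    simp at this
  have h2 : ¬ (((0 : ℤ), (0 : ℤ)) = sc.p (sc.fs j + 1) ∧ sc.p (sc.fs j + 1) ≠ (0, 0)) :=
    fun h => h.2 h.1.symm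
  unfold Sch.cmR
  simp only [Matrix.cons_val, XCr_half]
  rw [if_neg (by omega), if_neg h1, if_neg h2, if_pos l2]

theorem XCr_kap_ls (j : Rl ⊕ C) : sc.Kap 1 0 (2 * sc.ls j) := by
  obtain ⟨l0, l1, l2, -⟩ := sc.ls_spec j
  refine ⟨⟨by omega, by omega, Or.inl (by omega)⟩, Or.inr (Or.inr ⟨by omega, Or.inr ?_⟩)⟩
  rw [XCr_half, XCr_E sc l0 l1 l2]

theorem XCr_kap_fs (j : Rl ⊕ C) : sc.Kap 0 0 (2 * sc.fs j) := by
  obtain ⟨l0, l1, -, -⟩ := sc.fs_spec j
  exact ⟨⟨by omega, by omega, Or.inl (by omega)⟩, Or.inl rfl⟩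

theorem Sch.cr_mem (j : IR S Rl C) : sc.InX (sc.cr j) := by
  have hN := sc.N_nonneg
  rcases j with _ | s | j | c | c
  · refine Or.inl ?_
    simp only [Sch.cr, Sch.Base, Tt, Tp, Matrix.cons_val]
    exact ⟨Or.inl ⟨le_rfl, by omega, le_rfl, by omega, fun _ => trivial⟩, le_rfl, by omega,
      trivial, trivial, trivial⟩
  · refine Or.inl ?_
    have := (sc.e s).2
    simp only [Sch.cr, Sch.Base, Tt, Tp, Matrix.cons_val]
    exact ⟨Or.inr ⟨by omega, by omega, by omega, trivial⟩, le_rfl, by omega,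
      trivial, trivial, trivial⟩
  · refine Or.inr (Or.inl ?_)
    simp only [Sch.cr, Sch.Vert, Matrix.cons_val, XCr_half, and_self, and_true]
    exact ⟨XCr_kap_ls sc _, XCr_rel_inl sc (sc.ls_spec _).2.2.2⟩
  · refine Or.inr (Or.inr (Or.inr ?_))
    simp only [Sch.cr, Sch.Cap, Matrix.cons_val, XCr_half]
    exact ⟨XCr_kap_fs sc _, XCr_rel_inr sc (sc.fs_spec _).2.2.2, by omega⟩
  · refine Or.inr (Or.inr (Or.inr ?_))
    simp only [Sch.cr, Sch.Cap, Matrix.cons_val, XCr_half]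
    exact ⟨XCr_kap_ls sc _, XCr_rel_inr sc (sc.ls_spec _).2.2.2, by omega⟩

theorem Sch.cr_dim (j : IR S Rl C) : dim (sc.cr j) = dR j := by
  rw [XCr_dim]
  rcases j with _ | s | j | c | c <;> simp only [Sch.cr, dR, Matrix.cons_val] <;> omega

theorem Sch.cr_inj : Function.Injective sc.cr := by
  have hl : Function.Injective sc.ls := fun a b h => by
    rw [← (sc.ls_spec a).2.2.2, h, (sc.ls_spec b).2.2.2]
  have hf : Function.Injective sc.fs := fun a b h => by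
    rw [← (sc.fs_spec a).2.2.2, h, (sc.fs_spec b).2.2.2]
  intro a b h
  have h0 := congrFun h 0
  have h1 := congrFun h 1
  have h2 := congrFun h 2
  have h3 := congrFun h 3
  rcases a with _ | s | j | c | c <;> rcases b with _ | s' | j' | c' | c' <;>
    simp only [Sch.cr, Matrix.cons_val] at h0 h1 h2 h3 <;> try omega
  · rfl
  · rw [sc.e.injective (Fin.ext (by omega) : sc.e s = sc.e s')]
  · rw [Sum.inl_injective (hl (by omega) : (Sum.inl j : Rl ⊕ C) = .inl j')]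
  · rw [Sum.inr_injective (hf (by omega) : (Sum.inr c : Rl ⊕ C) = .inr c')]
  · rw [Sum.inr_injective (hl (by omega) : (Sum.inr c : Rl ⊕ C) = .inr c')]

theorem Sch.crit {x : Cell 6} (hx : sc.InX x) : sc.mv x = none ↔ x ∈ Set.range sc.cr := by
  constructor
  · intro h
    rcases hx with hx | ⟨hk, hr, h3, h4, h5⟩ | ⟨-, hr, h3, h4, h5, hg⟩ | ⟨hk, hr, -⟩
    · exact XCr_base sc hx.1 hx.2.2.2 h
    · unfold Sch.mv at h
      rw [if_neg (by omega), if_pos hr, if_neg (by omega)] at h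
      split_ifs at h with c1
      obtain ⟨e2, e | e⟩ := XCr_cm sc hk h
      · obtain ⟨⟨l0, l1, -⟩, -⟩ := hk
        have hs := sc.ls_uniq (x 2 / 2) (by omega) (by omega) e.2.2
        rcases hg : sc.gid (x 2 / 2) with j | c
        · rw [hg] at hs
          exact ⟨.inr (.inr (.inl j)), XCr_ext e.1 e.2.1 (by omega) h3 h4 h5⟩
        · exact absurd hr (XCr_rel_inr sc hg)
      · exact absurd ⟨e2, e.2.2, e.1, e.2.1⟩ c1
    · unfold Sch.mv at h
      rw [if_neg (by omega), if_pos hr, if_pos h3] at h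
      split_ifs at h with c1 c2 c3 c4 c5
      have h1 := XCr_tr h
      unfold Tt at hg
      omega
    · by_cases h0 : x 3 = 0 ∧ x 4 = 0 ∧ x 5 = 0
      · exact XCr_base sc (sc.kap_graph hk) h0 h
      unfold Sch.mv at h
      rw [if_neg h0, if_neg hr] at h
      split_ifs at h with c1
      · obtain ⟨e2, e⟩ := XCr_cm sc hk h
        obtain ⟨⟨l0, l1, -⟩, -⟩ := hk
        rcases hg : sc.gid (x 2 / 2) with j | c
        · exact absurd (XCr_rel_inl sc hg) hr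
        rcases e with e | e
        · have hs := sc.ls_uniq (x 2 / 2) (by omega) (by omega) e.2.2
          rw [hg] at hs
          exact ⟨.inr (.inr (.inr (.inr c))), XCr_ext e.1 e.2.1 (by omega) c1.1 c1.2.1 c1.2.2⟩
        · have hs := sc.fs_uniq (x 2 / 2) (by omega) (by omega) e.2.2
          rw [hg] at hs
          exact ⟨.inr (.inr (.inr (.inl c))), XCr_ext e.1 e.2.1 (by omega) c1.1 c1.2.1 c1.2.2⟩
      · exact absurd h (XCr_sr x)
  · rintro ⟨j, rfl⟩
    rcases j with _ | s | j | c | c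
    · simp [Sch.cr, Sch.mv, trR]
    · have h1 : ¬ (4 * ((sc.e s).1 : ℤ) + 3) % 2 = 0 := by omega
      unfold Sch.mv trR
      simp only [Sch.cr, Matrix.cons_val]
      rw [if_pos (by simp), if_neg (by simp), if_neg (by simp), if_neg h1]
      rfl
    · unfold Sch.mv
      simp only [Sch.cr, Matrix.cons_val, XCr_half]
      rw [if_neg (by simp), if_pos (XCr_rel_inl sc (sc.ls_spec _).2.2.2), if_neg (by simp),
        if_neg (by simp), XCr_cm_ls]
    · unfold Sch.mv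
      simp only [Sch.cr, Matrix.cons_val, XCr_half]
      rw [if_neg (by simp), if_neg (XCr_rel_inr sc (sc.fs_spec _).2.2.2), if_pos (by simp),
        XCr_cm_fs]
    · unfold Sch.mv
      simp only [Sch.cr, Matrix.cons_val, XCr_half]
      rw [if_neg (by simp), if_neg (XCr_rel_inr sc (sc.ls_spec _).2.2.2), if_pos (by simp),
        XCr_cm_ls]

theorem Sch.top_dim {a : Cell 6} (ha : sc.InX a) {c : C} (h : sc.top a c) :
    dim a = 2 ∧ (∀ y, sc.mv a ≠ some (true, y)) ∧ ∀ k, a ≠ sc.cr (.inr (.inr (.inl k))) := by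
  obtain ⟨hg, h3, h4, h5, h0, h1, h2⟩ := h
  refine ⟨by rw [XCr_dim]; omega, fun y hy => ?_, fun k hk => ?_⟩
  · have hl : 0 ≤ a 2 ∧ a 2 < 2 * sc.N := by
      rcases ha with hx | hx | hx | hx
      · exact absurd hx.2.2.2.1 (by omega)
      · exact absurd hx.2.2.1 (by omega)
      · exact absurd hx.2.2.2.1 (by omega)
      · exact ⟨hx.1.1.1, hx.1.1.2.1⟩
    have hE : (a 0, a 1) ≠ sc.E (a 2 / 2) := by
      intro h
      have := XCr_E_odd sc (s := a 2 / 2) (by omega) (by omega)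
      rw [← h] at this
      simp only at this
      omega
    unfold Sch.mv Sch.cmR at hy
    rw [if_neg (by omega), if_neg (XCr_rel_inr sc hg), if_pos ⟨h3, h4, h5⟩, if_neg (by omega),
      if_neg hE] at hy
    split_ifs at hy <;> simp at hy
  · rw [hk] at h3
    simp [Sch.cr] at h3

theorem Sch.top_cr (c c' : C) : sc.top (sc.cr (.inr (.inr (.inr (.inl c))))) c' ↔ c = c' := by
  simp only [Sch.top, Sch.cr, Matrix.cons_val, XCr_half, (sc.fs_spec _).2.2.2]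
  simp

theorem Sch.uw_cr (c : C) : sc.uw (sc.cr (.inr (.inr (.inr (.inl c))))) = 1 := by
  simp [Sch.uw, Sch.cr]

theorem Sch.cube_rel {a : Cell 6} (ha : sc.InX a) (k : Rl) :
    ¬ Fc (sc.cr (.inr (.inr (.inl k)))) a := by
  rintro ⟨i, hi, h⟩
  have hr : sc.Rel (sc.ls (.inl k)) := XCr_rel_inl sc (sc.ls_spec _).2.2.2
  have hc : ∀ j, sc.cr (.inr (.inr (.inl k))) j = a j + (if j = i then 1 else 0) ∨
      sc.cr (.inr (.inr (.inl k))) j = a j - (if j = i then 1 else 0) := by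
    intro j
    rcases h with h | h
    · exact Or.inl (by rw [h, Pi.add_apply, LCB_ee])
    · exact Or.inr (by rw [h, Pi.sub_apply, LCB_ee])
  have h0 := hc 0
  have h1 := hc 1
  have h2 := hc 2
  have h3 := hc 3
  have h4 := hc 4
  have h5 := hc 5
  simp only [Sch.cr, Matrix.cons_val] at h0 h1 h2 h3 h4 h5
  have hk : a 3 = 1 → sc.Kap (a 0) (a 1) (a 2) ∧ ((a 4 = 0 ∧ a 5 = 0) ∨ ¬ sc.Rel (a 2 / 2)) := by
    intro e
    rcases ha with hx | hx | hx | hx
    · exact absurd hx.2.2.2.1 (by omega)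
    · exact ⟨hx.1, Or.inl hx.2.2.2⟩
    · exact absurd hx.2.2.1 (by omega)
    · exact ⟨hx.1, Or.inr hx.2.1⟩
  fin_cases i <;> simp at hi h0 h1 h2 h3 h4 h5
  · omega
  · have := sc.kap_graph (hk (by omega)).1
    unfold Tt Tp at this
    omega
  · obtain ⟨⟨l0, l1, -⟩, e | e | e⟩ := (hk (by omega)).1
    · rw [Prod.mk.injEq] at e
      omega
    · have := (sc.vtx (a 2 / 2 + 1) (by omega) (by omega)).1
      rw [← e] at this
      simp only at this
      omega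
    · omega
  · omega
  · rcases (hk (by omega)).2 with e | e
    · omega
    · exact e (by rwa [show a 2 / 2 = sc.ls (.inl k) by omega])
  · rcases (hk (by omega)).2 with e | e
    · omega
    · exact e (by rwa [show a 2 / 2 = sc.ls (.inl k) by omega])

end Pool.Agent.Work.MP_735653_gt
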