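import Pool.Agent.Work.MP_735653_gt.XK

/-! The cubes. -/

namespace Pool.Agent.Work.MP_735653_gt

variable {S Rl C : Type} {wd : Rl ⊕ C → FreeGroup S} (sc : Sch wd)

theorem XCube_cap {a : Cell 6} (ha : sc.InX a) (h4 : a 4 = 1) : sc.Cap a := by
  rcases ha with h | h | h | h
  · have := h.2.2.2.2.1
    omega
  · have := h.2.2.2.1
    omega
  · have := h.2.2.2.1
    omega
  · exact h

theorem XCube_uw (x : Cell 6) {k h s : ℤ} (h0 : x 0 = k) (h1 : x 1 = h) (h2 : x 2 / 2 = s) :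
    sc.uw x = if (k, h) = (0, 0) then 1 else if (k, h) = sc.p s then sc.u s
      else sc.u s * ltr sc.e (sc.p s) (sc.p (s + 1)) := by
  subst h0 h1 h2
  rfl

theorem XCube_uw_p (x : Cell 6) {s : ℤ} (hs : 0 ≤ s) (hN : s < sc.N) (h0 : x 0 = (sc.p s).1)
    (h1 : x 1 = (sc.p s).2) (h2 : x 2 / 2 = s) : sc.uw x = sc.u s := by
  rw [XCube_uw sc x h0 h1 h2]
  split_ifs with h h'
  · exact (sc.u_fst s hs hN h).symm
  · rfl
  · exact absurd rfl h'

theorem XCube_uw_q (x : Cell 6) {s : ℤ} (hs : 0 ≤ s) (hN : s < sc.N)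
    (hp : sc.p (s + 1) ≠ (0, 0)) (h0 : x 0 = (sc.p (s + 1)).1)
    (h1 : x 1 = (sc.p (s + 1)).2) (h2 : x 2 / 2 = s) :
    sc.uw x = sc.u s * ltr sc.e (sc.p s) (sc.p (s + 1)) := by
  rw [XCube_uw sc x h0 h1 h2, if_neg hp, if_neg]
  have := (sc.step_cases hs hN).2.2
  have h3 := (sc.step_cases hs hN).1
  have h4 := (sc.step_cases hs hN).2.1
  unfold CVtx at h3 h4
  rw [Prod.ext_iff]
  dsimp only
  omega

theorem XCube_sg {a : Cell 6} {i : Fin 6} (h : ∀ j, j < i → a j % 2 ≠ 1) : sg a i = 1 := by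
  unfold sg
  rw [Finset.filter_eq_empty_iff.2 fun j _ hj => h j hj.1 hj.2]
  rfl

theorem XCube_side {a : Cell 6} {c : C} {i : Fin 6} (h3 : a 3 = 2) (h4 : a 4 = 1) (h5 : a 5 = 1)
    (h : ∀ j, j ≠ i → j < 3 → a j % 2 ≠ 1) :
    ∀ j, j ≠ i → a j % 2 = 1 → ¬ sc.top (a + ee j) c ∧ ¬ sc.top (a - ee j) c := by
  intro j hj ho
  by_cases hlt : j < 3
  · exact absurd ho (h j hj hlt)
  fin_cases j
  · exact absurd (by decide) hlt
  · exact absurd (by decide) hlt
  · exact absurd (by decide) hlt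
  · simp [h3] at ho
  · constructor <;> rintro ⟨-, -, h', -⟩ <;> simp [ee, h4] at h'
  · constructor <;> rintro ⟨-, -, -, h', -⟩ <;> simp [ee, h5] at h'

theorem Sch.cube {a : Cell 6} (ha : sc.InX a) (h3 : dim a = 3) (c : C) :
    ((∀ b, Fc b a → ¬ sc.top b c) ∧ a ≠ sc.cr (.inr (.inr (.inr (.inr c))))) ∨
    ∃ i, a i % 2 = 1 ∧ sg a i = 1 ∧ sc.top (a + ee i) c ∧ sc.top (a - ee i) c ∧
      (∀ j, j ≠ i → a j % 2 = 1 → ¬ sc.top (a + ee j) c ∧ ¬ sc.top (a - ee j) c) ∧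
      (a ≠ sc.cr (.inr (.inr (.inr (.inr c)))) →
        sc.uw (a + ee i) = sc.uw (a - ee i) * sc.w (bot a) i) ∧
      (a = sc.cr (.inr (.inr (.inr (.inr c)))) →
        sc.uw (a - ee i) = 1 ∧ sc.w (bot a) i = 1 ∧ sc.uw (a + ee i) = wd (.inr c)) := by
  by_cases hc : sc.gid (a 2 / 2) = .inr c ∧ a 3 = 2 ∧ a 4 = 1 ∧ a 5 = 1
  swap
  · refine Or.inl ⟨?_, ?_⟩
    · rintro b ⟨i, ho, hb⟩ ⟨t0, t3, t4, t5, -, -, t2⟩
      apply hc
      fin_cases i
      · rcases hb with rfl | rfl <;> simp [ee] at t0 t3 t4 t5 <;> exact ⟨t0, t3, t4, t5⟩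
      · rcases hb with rfl | rfl <;> simp [ee] at t0 t3 t4 t5 <;> exact ⟨t0, t3, t4, t5⟩
      · change a 2 % 2 = 1 at ho
        rcases hb with rfl | rfl
        · simp [ee] at t0 t3 t4 t5
          obtain ⟨⟨⟨l0, l1, l2⟩, -⟩, -⟩ := XCube_cap sc ha t4
          have e := sc.gid_succ (a 2 / 2) (by omega) (by omega) (l2.resolve_left (by omega))
          rw [show (a 2 + 1) / 2 = a 2 / 2 + 1 by omega, e] at t0
          exact ⟨t0, t3, t4, t5⟩
        · simp [ee] at t0 t3 t4 t5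
          rw [show (a 2 - 1) / 2 = a 2 / 2 by omega] at t0
          exact ⟨t0, t3, t4, t5⟩
      · change a 3 % 2 = 1 at ho
        rcases hb with rfl | rfl <;> simp [ee] at t3 t4 t5 <;>
          obtain ⟨-, -, c1, c2, -, -, -, -, c3⟩ := XCube_cap sc ha t4 <;> omega
      · change a 4 % 2 = 1 at ho
        rcases hb with rfl | rfl <;> simp [ee] at t4 <;> omega
      · change a 5 % 2 = 1 at ho
        rcases hb with rfl | rfl <;> simp [ee] at t5 <;> omega
    · rintro rfl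
      apply hc
      simp [Sch.cr, (sc.ls_spec _).2.2.2]
  obtain ⟨hg, a3, a4, a5⟩ := hc
  obtain ⟨hk, hrel, -⟩ := XCube_cap sc ha a4
  have hgr := sc.kap_graph hk
  obtain ⟨⟨l0, l1, l2⟩, hk⟩ := hk
  have hdim := dim_six a (by
    unfold Tt Tp at hgr
    intro i
    fin_cases i <;> simp <;> omega)
  rw [h3, a3, a4, a5] at hdim
  obtain ⟨s, hs⟩ : ∃ s, a 2 / 2 = s := ⟨_, rfl⟩
  rw [hs] at hg hk l2 hrel
  have s0 : 0 ≤ s := by omega
  have s1 : s < sc.N := by omega
  obtain ⟨v0, v1, st⟩ := sc.step_cases s0 s1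
  unfold CVtx at v0 v1
  simp only [Prod.ext_iff] at hk
  have hcr : a = sc.cr (.inr (.inr (.inr (.inr c)))) ↔ a 0 = 1 ∧ a 1 = 0 ∧ a 2 = 2 * sc.ls (.inr c) := by
    constructor
    · rintro rfl
      simp [Sch.cr]
    · rintro ⟨e0, e1, e2⟩
      ext i
      fin_cases i <;> simp [Sch.cr, *]
  have hlast : sc.p (s + 1) = (0, 0) → (sc.p s).1 = 2 ∧ (sc.p s).2 = 0 ∧ (sc.p (s + 1)).1 = 0 ∧
      (sc.p (s + 1)).2 = 0 ∧ sc.ls (.inr c) = s := fun h => by
    have := sc.ls_uniq s s0 s1 h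
    rw [hg] at this
    simp [sc.last s s0 s1 h, h, this]
  right
  by_cases o2 : a 2 % 2 = 1
  · have hp : sc.p (s + 1) ≠ (0, 0) := l2.resolve_left (by lia)
    refine ⟨2, o2, XCube_sg ?_, ⟨?_, ?_⟩, ⟨?_, ?_⟩, XCube_side sc a3 a4 a5 ?_, fun _ => ?_,
      fun h => ?_⟩
    · intro j hj
      fin_cases j <;> simp at hj ⊢ <;> lia
    · simp only [ee, Pi.add_apply, Pi.single_eq_same]
      rw [show (a 2 + 1) / 2 = s + 1 by lia, sc.gid_succ s s0 s1 hp, hg]
    · simp [ee, *]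
      lia
    · simp only [ee, Pi.sub_apply, Pi.single_eq_same]
      rw [show (a 2 - 1) / 2 = s by lia, hg]
    · simp [ee, *]
      lia
    · intro j hj hj'
      fin_cases j <;> simp at hj hj' ⊢ <;> lia
    · have hw : sc.w (bot a) 2 = 1 := by simp [Sch.w]
      rw [hw, mul_one]
      by_cases hz : a 0 = 0 ∧ a 1 = 0
      · rw [XCube_uw sc _ (k := 0) (h := 0) (by simp [ee, hz.1]) (by simp [ee, hz.2]) rfl,
          XCube_uw sc _ (k := 0) (h := 0) (by simp [ee, hz.1]) (by simp [ee, hz.2]) rfl]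
        simp
      · have e : a 0 = (sc.p (s + 1)).1 ∧ a 1 = (sc.p (s + 1)).2 := by lia
        rw [XCube_uw_q sc (a - ee 2) s0 s1 hp (by simp [ee, e.1]) (by simp [ee, e.2])
          (by simp [ee]; lia), ← sc.u_succ s s0 s1 hp,
          XCube_uw sc _ (k := (sc.p (s + 1)).1) (h := (sc.p (s + 1)).2) (s := s + 1)
            (by simp [ee, e.1]) (by simp [ee, e.2]) (by simp [ee]; lia), if_neg hp, if_pos rfl]
    · have := (hcr.1 h).2.2
      lia
  by_cases o0 : a 0 % 2 = 1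
  · have e : a 0 = (sc.E s).1 ∧ a 1 = (sc.E s).2 := by lia
    have hw : sc.w (bot a) 0 = if a 1 = 2 then lab sc.e ((a 0 - 1) / 4) else 1 := by
      have b0 : bot a 0 = a 0 - 1 := by simp [bot, o0]
      have b1 : bot a 1 = a 1 := by
        unfold bot
        lia
      have b2 : bot a 2 / 2 = s := by
        unfold bot
        lia
      unfold Sch.w
      rw [if_pos rfl, b0, b1, b2]
      by_cases h : a 1 = 2
      · rw [if_pos h, if_pos ⟨h, by lia, fun h' => hrel h'.1⟩]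
      · rw [if_neg h, if_neg fun h' => h h'.1]
    refine ⟨0, o0, XCube_sg ?_, ⟨?_, ?_⟩, ⟨?_, ?_⟩, XCube_side sc a3 a4 a5 ?_, fun hne => ?_,
      fun h => ?_⟩
    · intro j hj
      simp at hj
    · simpa [ee, hs] using hg
    · simp [ee, a3, a4, a5]
      lia
    · simpa [ee, hs] using hg
    · simp [ee, a3, a4, a5]
      lia
    · intro j hj hj'
      fin_cases j <;> simp at hj hj' ⊢ <;> lia
    · have hp : sc.p (s + 1) ≠ (0, 0) := fun h => hne (hcr.2 (by
        have := hlast h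
        lia))
      rw [hw]
      by_cases hf : (sc.p s).1 < (sc.p (s + 1)).1
      · rw [XCube_uw_q sc (a + ee 0) s0 s1 hp (by simp [ee]; lia) (by simp [ee]; lia)
          (by simp [ee]; lia), XCube_uw_p sc (a - ee 0) s0 s1 (by simp [ee]; lia)
          (by simp [ee]; lia) (by simp [ee]; lia)]
        congr 1
        unfold ltr
        by_cases h : a 1 = 2
        · rw [if_pos h, if_pos (by lia), if_pos hf, show (sc.p s).1 = a 0 - 1 by lia]
        · rw [if_neg h, if_neg (by lia)]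
      · rw [XCube_uw_q sc (a - ee 0) s0 s1 hp (by simp [ee]; lia) (by simp [ee]; lia)
          (by simp [ee]; lia), XCube_uw_p sc (a + ee 0) s0 s1 (by simp [ee]; lia)
          (by simp [ee]; lia) (by simp [ee]; lia)]
        unfold ltr
        by_cases h : a 1 = 2
        · rw [if_pos h, if_pos (by lia), if_neg hf, show (sc.p (s + 1)).1 = a 0 - 1 by lia,
            inv_mul_cancel_right]
        · rw [if_neg h, if_neg (by lia), mul_one, mul_one]
    · obtain ⟨e0, e1, e2⟩ := hcr.1 h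
      have hp : sc.p (s + 1) = (0, 0) := by
        rw [show s = sc.ls (.inr c) by lia]
        exact (sc.ls_spec _).2.2.1
      have := hlast hp
      refine ⟨?_, by rw [hw, if_neg (by lia)], ?_⟩
      · rw [XCube_uw sc _ (k := 0) (h := 0) (by simp [ee, e0]) (by simp [ee, e1]) rfl, if_pos rfl]
      · rw [XCube_uw_p sc (a + ee 0) s0 s1 (by simp [ee]; lia) (by simp [ee]; lia)
          (by simp [ee]; lia), sc.u_lst s s0 s1 hp, hg]
  · have o1 : a 1 % 2 = 1 := by lia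
    have e : a 0 = (sc.E s).1 ∧ a 1 = (sc.E s).2 := by lia
    have hp : sc.p (s + 1) ≠ (0, 0) := fun h => by
      have := hlast h
      lia
    have hl : ltr sc.e (sc.p s) (sc.p (s + 1)) = 1 := by
      unfold ltr
      rw [if_neg (by lia)]
    refine ⟨1, o1, XCube_sg ?_, ⟨?_, ?_⟩, ⟨?_, ?_⟩, XCube_side sc a3 a4 a5 ?_, fun _ => ?_,
      fun h => ?_⟩
    · intro j hj
      fin_cases j <;> simp at hj ⊢ <;> lia
    · simpa [ee, hs] using hg
    · simp [ee, a3, a4, a5]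
      lia
    · simpa [ee, hs] using hg
    · simp [ee, a3, a4, a5]
      lia
    · intro j hj hj'
      fin_cases j <;> simp at hj hj' ⊢ <;> lia
    · have hw : sc.w (bot a) 1 = 1 := by simp [Sch.w]
      rw [hw, mul_one]
      by_cases hf : (sc.p s).2 = 0
      · rw [XCube_uw_q sc (a + ee 1) s0 s1 hp (by simp [ee]; lia) (by simp [ee]; lia)
          (by simp [ee]; lia), XCube_uw_p sc (a - ee 1) s0 s1 (by simp [ee]; lia)
          (by simp [ee]; lia) (by simp [ee]; lia), hl, mul_one]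
      · rw [XCube_uw_q sc (a - ee 1) s0 s1 hp (by simp [ee]; lia) (by simp [ee]; lia)
          (by simp [ee]; lia), XCube_uw_p sc (a + ee 1) s0 s1 (by simp [ee]; lia)
          (by simp [ee]; lia) (by simp [ee]; lia), hl, mul_one]
    · have := (hcr.1 h).2.1
      lia

end Pool.Agent.Work.MP_735653_gt
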