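import Pool.Agent.Work.MP_735653_gt.XK

/-! The matching is an involution. -/

namespace Pool.Agent.Work.MP_735653_gt

variable {S Rl C : Type} {wd : Rl ⊕ C → FreeGroup S} (sc : Sch wd)

/-- a cell given by its coordinates -/
def XInv_V (k h t w a b : ℤ) : Cell 6 := ![k, h, t, w, a, b]

section

variable {k h t w a b : ℤ}

theorem XInv_ex (x : Cell 6) : ∃ k h t w a b, x = XInv_V k h t w a b :=
  ⟨x 0, x 1, x 2, x 3, x 4, x 5, by
    funext i
    fin_cases i <;> rfl⟩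

theorem XInv_0 : XInv_V k h t w a b 0 = k := rfl
theorem XInv_1 : XInv_V k h t w a b 1 = h := rfl
theorem XInv_2 : XInv_V k h t w a b 2 = t := rfl
theorem XInv_3 : XInv_V k h t w a b 3 = w := rfl
theorem XInv_4 : XInv_V k h t w a b 4 = a := rfl
theorem XInv_5 : XInv_V k h t w a b 5 = b := rfl

theorem XInv_a0 : XInv_V k h t w a b + ee 0 = XInv_V (k + 1) h t w a b := by
  funext i
  fin_cases i <;> simp [XInv_V, ee]
theorem XInv_a1 : XInv_V k h t w a b + ee 1 = XInv_V k (h + 1) t w a b := by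
  funext i
  fin_cases i <;> simp [XInv_V, ee]
theorem XInv_a2 : XInv_V k h t w a b + ee 2 = XInv_V k h (t + 1) w a b := by
  funext i
  fin_cases i <;> simp [XInv_V, ee]
theorem XInv_a3 : XInv_V k h t w a b + ee 3 = XInv_V k h t (w + 1) a b := by
  funext i
  fin_cases i <;> simp [XInv_V, ee]
theorem XInv_a4 : XInv_V k h t w a b + ee 4 = XInv_V k h t w (a + 1) b := by
  funext i
  fin_cases i <;> simp [XInv_V, ee]
theorem XInv_a5 : XInv_V k h t w a b + ee 5 = XInv_V k h t w a (b + 1) := by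
  funext i
  fin_cases i <;> simp [XInv_V, ee]
theorem XInv_s0 : XInv_V k h t w a b - ee 0 = XInv_V (k - 1) h t w a b := by
  funext i
  fin_cases i <;> simp [XInv_V, ee]
theorem XInv_s1 : XInv_V k h t w a b - ee 1 = XInv_V k (h - 1) t w a b := by
  funext i
  fin_cases i <;> simp [XInv_V, ee]
theorem XInv_s2 : XInv_V k h t w a b - ee 2 = XInv_V k h (t - 1) w a b := by
  funext i
  fin_cases i <;> simp [XInv_V, ee]
theorem XInv_s3 : XInv_V k h t w a b - ee 3 = XInv_V k h t (w - 1) a b := by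
  funext i
  fin_cases i <;> simp [XInv_V, ee]
theorem XInv_s4 : XInv_V k h t w a b - ee 4 = XInv_V k h t w (a - 1) b := by
  funext i
  fin_cases i <;> simp [XInv_V, ee]
theorem XInv_s5 : XInv_V k h t w a b - ee 5 = XInv_V k h t w a (b - 1) := by
  funext i
  fin_cases i <;> simp [XInv_V, ee]

theorem XInv_set (c : ℤ × ℤ) : setkh (XInv_V k h t w a b) c = XInv_V c.1 c.2 t w a b := rfl

theorem XInv_fc {x : Cell 6} (i : Fin 6) (hi : x i % 2 = 1) : Fc (x + ee i) x :=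
  ⟨i, hi, Or.inl rfl⟩

theorem XInv_trR : trR (XInv_V k h t w a b) =
    if k % 2 = 0 then
      (if h = 1 then some (true, XInv_V k (h + 1) t w a b)
        else if h = 2 then some (false, XInv_V k (h - 1) t w a b)
        else if k = 0 then none else some (false, XInv_V (k - 1) h t w a b))
    else if h = 0 then some (true, XInv_V (k + 1) h t w a b) else none := by
  rw [← XInv_a0, ← XInv_a1, ← XInv_s0, ← XInv_s1]
  rfl

theorem XInv_srR : srR (XInv_V k h t w a b) =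
    if w = 1 then some (true, XInv_V k h t (w + 1) a b)
    else if w = 2 then some (false, XInv_V k h t (w - 1) a b)
    else if a = 1 then some (true, XInv_V k h t w (a + 1) b)
    else if a = 2 then some (false, XInv_V k h t w (a - 1) b)
    else if b = 1 then some (true, XInv_V k h t w a (b + 1))
    else some (false, XInv_V k h t w a (b - 1)) := by
  rw [← XInv_a3, ← XInv_a4, ← XInv_a5, ← XInv_s3, ← XInv_s4, ← XInv_s5]
  rfl

theorem XInv_cmR : sc.cmR (XInv_V k h t w a b) =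
    if t % 2 = 1 then some (true, XInv_V k h (t + 1) w a b)
    else if (k, h) = sc.E (t / 2) then
      (if sc.p (t / 2 + 1) = (0, 0) then none
        else some (true, XInv_V (sc.p (t / 2 + 1)).1 (sc.p (t / 2 + 1)).2 t w a b))
    else if (k, h) = sc.p (t / 2 + 1) ∧ sc.p (t / 2 + 1) ≠ (0, 0) then
      some (false, XInv_V (sc.E (t / 2)).1 (sc.E (t / 2)).2 t w a b)
    else if sc.p (t / 2) = (0, 0) then none else some (false, XInv_V k h (t - 1) w a b) := by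
  rw [← XInv_a2, ← XInv_s2]
  rfl

theorem XInv_mv0 : sc.mv (XInv_V k h t 0 0 0) =
    if t % 2 = 1 then some (true, XInv_V k h (t + 1) 0 0 0)
    else if t ≠ 0 then some (false, XInv_V k h (t - 1) 0 0 0) else trR (XInv_V k h t 0 0 0) := by
  rw [← XInv_a2, ← XInv_s2]
  exact if_pos ⟨rfl, rfl, rfl⟩

theorem XInv_mvL (hr : sc.Rel (t / 2)) : sc.mv (XInv_V k h t 2 0 0) =
    if k % 2 = 1 ∧ h = 1 then some (true, XInv_V k (h + 1) t 2 0 0)
    else if k % 2 = 1 ∧ h = 2 then some (false, XInv_V k (h - 1) t 2 0 0)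
    else if t % 2 = 1 then some (true, XInv_V k h (t + 1) 2 0 0)
    else if sc.p (t / 2) ≠ (0, 0) then some (false, XInv_V k h (t - 1) 2 0 0)
    else if k = 0 ∧ h = 0 then some (false, XInv_V k h t 1 0 0)
    else trR (XInv_V k h t 2 0 0) := by
  have e : XInv_V k h t 1 0 0 = XInv_V k h t 2 0 0 - ee 3 := by
    rw [XInv_s3]
    rfl
  rw [← XInv_a1, ← XInv_a2, ← XInv_s1, ← XInv_s2, e]
  exact (if_neg fun h' => absurd (show (2 : ℤ) = 0 from h'.1) (by decide)).trans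
    ((if_pos hr).trans (if_pos rfl))

theorem XInv_mvV (hr : sc.Rel (t / 2)) : sc.mv (XInv_V k h t 1 0 0) =
    if t % 2 = 0 ∧ sc.p (t / 2) = (0, 0) ∧ k = 0 ∧ h = 0 then some (true, XInv_V k h t 2 0 0)
    else sc.cmR (XInv_V k h t 1 0 0) := by
  have e : XInv_V k h t 2 0 0 = XInv_V k h t 1 0 0 + ee 3 := by
    rw [XInv_a3]
    rfl
  rw [e]
  exact (if_neg fun h' => absurd (show (1 : ℤ) = 0 from h'.1) (by decide)).trans
    ((if_pos hr).trans (if_neg fun h' => absurd (show (1 : ℤ) = 2 from h') (by decide)))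

theorem XInv_mvC (hr : ¬ sc.Rel (t / 2)) :
    sc.mv (XInv_V k h t 2 1 1) = sc.cmR (XInv_V k h t 2 1 1) :=
  (if_neg fun h' => absurd (show (2 : ℤ) = 0 from h'.1) (by decide)).trans
    ((if_neg hr).trans (if_pos ⟨rfl, rfl, rfl⟩))

theorem XInv_mvS (hr : ¬ sc.Rel (t / 2)) (h0 : ¬ (w = 0 ∧ a = 0 ∧ b = 0))
    (h1 : ¬ (w = 2 ∧ a = 1 ∧ b = 1)) : sc.mv (XInv_V k h t w a b) = srR (XInv_V k h t w a b) :=
  (if_neg h0).trans ((if_neg hr).trans (if_neg h1))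

/-- the part of the sphere on which the sphere rule is used -/
def XInv_Sp (w a b : ℤ) : Prop :=
  0 ≤ w ∧ w ≤ 2 ∧ 0 ≤ a ∧ a ≤ 2 ∧ 0 ≤ b ∧ b ≤ 2 ∧ ¬ (w = 1 ∧ a = 1 ∧ b = 1) ∧
    ¬ (w = 0 ∧ a = 0 ∧ b = 0) ∧ ¬ (w = 2 ∧ a = 1 ∧ b = 1)

theorem XInv_base (h1 : Tt sc.m k h ∨ Tp sc.m k h) (h2 : 0 ≤ t) (h3 : t ≤ 2 * sc.N) :
    sc.InX (XInv_V k h t 0 0 0) :=
  Or.inl ⟨h1, h2, h3, rfl, rfl, rfl⟩

theorem XInv_vert (h1 : sc.Kap k h t) (h2 : sc.Rel (t / 2)) : sc.InX (XInv_V k h t 1 0 0) :=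
  Or.inr (Or.inl ⟨h1, h2, rfl, rfl, rfl⟩)

theorem XInv_lid (h1 : sc.Lv t) (h2 : sc.Rel (t / 2))
    (h3 : Tt sc.m k h ∨ (t % 2 = 0 ∧ Tp sc.m (sc.E (t / 2)).1 (sc.E (t / 2)).2 ∧
      k = (sc.E (t / 2)).1 ∧ (h = 1 ∨ h = 2))) : sc.InX (XInv_V k h t 2 0 0) :=
  Or.inr (Or.inr (Or.inl ⟨h1, h2, rfl, rfl, rfl, h3⟩))

theorem XInv_top (h1 : sc.Kap k h t) (h2 : ¬ sc.Rel (t / 2)) : sc.InX (XInv_V k h t 2 1 1) :=
  Or.inr (Or.inr (Or.inr ⟨h1, h2, by simp [XInv_3, XInv_4, XInv_5]⟩))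

theorem XInv_sph (h1 : sc.Kap k h t) (h2 : ¬ sc.Rel (t / 2)) (h3 : XInv_Sp w a b) :
    sc.InX (XInv_V k h t w a b) :=
  Or.inr (Or.inr (Or.inr ⟨h1, h2, h3.1, h3.2.1, h3.2.2.1, h3.2.2.2.1, h3.2.2.2.2.1,
    h3.2.2.2.2.2.1, h3.2.2.2.2.2.2.1⟩))

theorem XInv_cases (hx : sc.InX (XInv_V k h t w a b)) :
    (w = 0 ∧ a = 0 ∧ b = 0 ∧ (Tt sc.m k h ∨ Tp sc.m k h) ∧ 0 ≤ t ∧ t ≤ 2 * sc.N) ∨
    (w = 1 ∧ a = 0 ∧ b = 0 ∧ sc.Kap k h t ∧ sc.Rel (t / 2)) ∨
    (w = 2 ∧ a = 0 ∧ b = 0 ∧ sc.Lv t ∧ sc.Rel (t / 2) ∧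
      (Tt sc.m k h ∨ (t % 2 = 0 ∧ Tp sc.m (sc.E (t / 2)).1 (sc.E (t / 2)).2 ∧
        k = (sc.E (t / 2)).1 ∧ (h = 1 ∨ h = 2)))) ∨
    (w = 2 ∧ a = 1 ∧ b = 1 ∧ sc.Kap k h t ∧ ¬ sc.Rel (t / 2)) ∨
    (sc.Kap k h t ∧ ¬ sc.Rel (t / 2) ∧ XInv_Sp w a b) := by
  rcases hx with ⟨h1, h2, h3, h4, h5, h6⟩ | ⟨h1, h2, h3, h4, h5⟩ | ⟨h1, h2, h3, h4, h5, h6⟩ |
    ⟨h1, h2, h3⟩
  · exact Or.inl ⟨h4, h5, h6, h1, h2, h3⟩
  · exact Or.inr (Or.inl ⟨h3, h4, h5, h1, h2⟩)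
  · exact Or.inr (Or.inr (Or.inl ⟨h3, h4, h5, h1, h2, h6⟩))
  · by_cases c0 : w = 0 ∧ a = 0 ∧ b = 0
    · exact Or.inl ⟨c0.1, c0.2.1, c0.2.2, sc.kap_graph h1, h1.1.1, h1.1.2.1.le⟩
    · by_cases c1 : w = 2 ∧ a = 1 ∧ b = 1
      · exact Or.inr (Or.inr (Or.inr (Or.inl ⟨c1.1, c1.2.1, c1.2.2, h1, h2⟩)))
      · exact Or.inr (Or.inr (Or.inr (Or.inr ⟨h1, h2, h3.1, h3.2.1, h3.2.2.1, h3.2.2.2.1,
          h3.2.2.2.2.1, h3.2.2.2.2.2.1, h3.2.2.2.2.2.2, c0, c1⟩)))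

theorem XInv_tr {m : ℕ} {u : Bool} {y : Cell 6} (h1 : Tt m k h ∨ Tp m k h)
    (hy : trR (XInv_V k h t w a b) = some (u, y)) :
    ∃ k' h', y = XInv_V k' h' t w a b ∧ Tt m k' h' ∧ ¬ (k' = 0 ∧ h' = 0) ∧
      trR y = some (!u, XInv_V k h t w a b) ∧ (u = true → Fc y (XInv_V k h t w a b)) := by
  rw [XInv_trR] at hy
  unfold Tt Tp at *
  split_ifs at hy with c1 c2 c3 c4 c5 <;>
    obtain ⟨rfl, rfl⟩ := Prod.mk.inj (Option.some.inj hy)
  · refine ⟨_, _, rfl, by omega, by omega, ?_, fun _ => ?_⟩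
    · rw [XInv_trR, if_pos c1, if_neg (by omega), if_pos (by omega), add_sub_cancel_right]
      rfl
    · rw [← XInv_a1]
      exact XInv_fc 1 (by rw [XInv_1]; omega)
  · refine ⟨_, _, rfl, by omega, by omega, ?_, fun h => absurd h (by decide)⟩
    rw [XInv_trR, if_pos c1, if_pos (by omega), sub_add_cancel]
    rfl
  · refine ⟨_, _, rfl, by omega, by omega, ?_, fun h => absurd h (by decide)⟩
    rw [XInv_trR, if_neg (by omega), if_pos (by omega), sub_add_cancel]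
    rfl
  · refine ⟨_, _, rfl, by omega, by omega, ?_, fun _ => ?_⟩
    · rw [XInv_trR, if_pos (by omega), if_neg (by omega), if_neg (by omega), if_neg (by omega),
        add_sub_cancel_right]
      rfl
    · rw [← XInv_a0]
      exact XInv_fc 0 (by rw [XInv_0]; omega)

theorem XInv_sr {u : Bool} {y : Cell 6} (h1 : XInv_Sp w a b)
    (hy : srR (XInv_V k h t w a b) = some (u, y)) :
    ∃ w' a' b', y = XInv_V k h t w' a' b' ∧ XInv_Sp w' a' b' ∧
      srR y = some (!u, XInv_V k h t w a b) ∧ (u = true → Fc y (XInv_V k h t w a b)) := by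
  rw [XInv_srR] at hy
  unfold XInv_Sp at *
  split_ifs at hy with c1 c2 c3 c4 c5 <;>
    obtain ⟨rfl, rfl⟩ := Prod.mk.inj (Option.some.inj hy)
  · refine ⟨_, _, _, rfl, by omega, ?_, fun _ => ?_⟩
    · rw [XInv_srR, if_neg (by omega), if_pos (by omega), add_sub_cancel_right]
      rfl
    · rw [← XInv_a3]
      exact XInv_fc 3 (by rw [XInv_3]; omega)
  · refine ⟨_, _, _, rfl, by omega, ?_, fun h => absurd h (by decide)⟩
    rw [XInv_srR, if_pos (by omega), sub_add_cancel]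
    rfl
  · refine ⟨_, _, _, rfl, by omega, ?_, fun _ => ?_⟩
    · rw [XInv_srR, if_neg c1, if_neg c2, if_neg (by omega), if_pos (by omega),
        add_sub_cancel_right]
      rfl
    · rw [← XInv_a4]
      exact XInv_fc 4 (by rw [XInv_4]; omega)
  · refine ⟨_, _, _, rfl, by omega, ?_, fun h => absurd h (by decide)⟩
    rw [XInv_srR, if_neg c1, if_neg c2, if_pos (by omega), sub_add_cancel]
    rfl
  · refine ⟨_, _, _, rfl, by omega, ?_, fun _ => ?_⟩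
    · rw [XInv_srR, if_neg c1, if_neg c2, if_neg c3, if_neg c4, if_neg (by omega),
        add_sub_cancel_right]
      rfl
    · rw [← XInv_a5]
      exact XInv_fc 5 (by rw [XInv_5]; omega)
  · refine ⟨_, _, _, rfl, by omega, ?_, fun h => absurd h (by decide)⟩
    rw [XInv_srR, if_neg c1, if_neg c2, if_neg c3, if_neg c4, if_pos (by omega), sub_add_cancel]
    rfl

theorem XInv_up (h1 : sc.Lv t) (h2 : t % 2 = 1) :
    sc.Lv (t + 1) ∧ (t + 1) / 2 = t / 2 + 1 ∧ sc.p (t / 2 + 1) ≠ (0, 0) ∧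
      sc.gid ((t + 1) / 2) = sc.gid (t / 2) := by
  obtain ⟨l1, l2, l3⟩ := h1
  have l4 : sc.p (t / 2 + 1) ≠ (0, 0) := l3.resolve_left (by omega)
  have l5 : t / 2 + 1 ≠ sc.N := fun e => l4 (e ▸ sc.p_N)
  have l6 : (t + 1) / 2 = t / 2 + 1 := by omega
  exact ⟨⟨by omega, by omega, Or.inl (by omega)⟩, l6, l4,
    l6 ▸ sc.gid_succ _ (by omega) (by omega) l4⟩

theorem XInv_dn (h1 : sc.Lv t) (h2 : ¬ t % 2 = 1) (h3 : sc.p (t / 2) ≠ (0, 0)) :
    sc.Lv (t - 1) ∧ (t - 1) / 2 + 1 = t / 2 ∧ sc.gid ((t - 1) / 2) = sc.gid (t / 2) := by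
  obtain ⟨l1, l2, -⟩ := h1
  have l5 : t / 2 ≠ 0 := fun e => h3 (e ▸ sc.p_zero)
  have l6 : (t - 1) / 2 + 1 = t / 2 := by omega
  refine ⟨⟨by omega, by omega, Or.inr (l6 ▸ h3)⟩, l6, ?_⟩
  have := sc.gid_succ ((t - 1) / 2) (by omega) (by omega) (l6 ▸ h3)
  rw [← this, l6]

theorem XInv_cm {u : Bool} {y : Cell 6} (h1 : sc.Kap k h t)
    (hy : sc.cmR (XInv_V k h t w a b) = some (u, y)) :
    ∃ k' h' t', y = XInv_V k' h' t' w a b ∧ sc.Kap k' h' t' ∧ sc.gid (t' / 2) = sc.gid (t / 2) ∧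
      ¬ (t' % 2 = 0 ∧ sc.p (t' / 2) = (0, 0) ∧ k' = 0 ∧ h' = 0) ∧
      sc.cmR y = some (!u, XInv_V k h t w a b) ∧ (u = true → Fc y (XInv_V k h t w a b)) := by
  rw [XInv_cmR] at hy
  obtain ⟨hl, hk⟩ := h1
  split_ifs at hy with c1 c2 c3 c4 c5 <;>
    obtain ⟨rfl, rfl⟩ := Prod.mk.inj (Option.some.inj hy)
  · obtain ⟨l1, l2, l3, l4⟩ := XInv_up sc hl c1
    have hs := sc.step_cases (s := (t + 1) / 2) (by have := l1.1; omega)
      (by have := l1.2.1; omega)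
    have hk' : (k, h) = (0, 0) ∨ (k, h) = sc.p ((t + 1) / 2) := by
      rw [l2]
      rcases hk with e | e | e
      · exact Or.inl e
      · exact Or.inr e
      · omega
    rw [← l2] at l3
    refine ⟨_, _, _, rfl, ⟨l1, ?_⟩, l4, fun e => l3 e.2.1, ?_, fun _ => ?_⟩
    · rcases hk' with e | e
      · exact Or.inl e
      · exact Or.inr (Or.inr ⟨by omega, Or.inl e⟩)
    · rw [XInv_cmR, if_neg (by omega), if_neg, if_neg, if_neg l3, add_sub_cancel_right]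
      · rfl
      · simp only [CVtx, Prod.ext_iff, ne_eq] at hs hk' ⊢
        omega
      · simp only [CVtx, Prod.ext_iff] at hs hk' ⊢
        omega
    · rw [← XInv_a2]
      exact XInv_fc 2 c1
  · have hs := sc.step_cases (s := t / 2) (by have := hl.1; omega) (by have := hl.2.1; omega)
    refine ⟨_, _, _, rfl, ⟨hl, Or.inr (Or.inl rfl)⟩, rfl,
      fun e => c3 (Prod.ext e.2.2.1 e.2.2.2), ?_, fun _ => ?_⟩
    · rw [XInv_cmR, if_neg c1, if_neg, if_pos ⟨rfl, c3⟩, ← c2]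
      · rfl
      · simp only [CVtx, Prod.ext_iff] at hs ⊢
        omega
    · simp only [CVtx, Prod.ext_iff] at hs c2
      obtain ⟨v1, v2, ⟨e1, e2, e3, e4, e5 | e5⟩ | ⟨e1, e2, e3, e4⟩⟩ := hs
      · refine ⟨0, by rw [XInv_0]; omega, Or.inl ?_⟩
        rw [XInv_a0]
        congr 1 <;> omega
      · refine ⟨0, by rw [XInv_0]; omega, Or.inr ?_⟩
        rw [XInv_s0]
        congr 1 <;> omega
      · rcases v2.2.2.2 with e | e
        · refine ⟨1, by rw [XInv_1]; omega, Or.inr ?_⟩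
          rw [XInv_s1]
          congr 1 <;> omega
        · refine ⟨1, by rw [XInv_1]; omega, Or.inl ?_⟩
          rw [XInv_a1]
          congr 1 <;> omega
  · have hs := sc.step_cases (s := t / 2) (by have := hl.1; omega) (by have := hl.2.1; omega)
    refine ⟨_, _, _, rfl, ⟨hl, Or.inr (Or.inr ⟨by omega, Or.inr rfl⟩)⟩, rfl, fun e => ?_, ?_,
      fun h => absurd h (by decide)⟩
    · omega
    · rw [XInv_cmR, if_neg c1, if_pos rfl, if_neg c4.2, ← c4.1]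
      rfl
  · obtain ⟨l1, l2, l3⟩ := XInv_dn sc hl c1 c5
    refine ⟨_, _, _, rfl, ⟨l1, ?_⟩, l3, fun e => by omega, ?_, fun h => absurd h (by decide)⟩
    · rw [l2]
      rcases hk with e | e | ⟨-, e | e⟩
      · exact Or.inl e
      · exact Or.inl (e.trans (by_contra fun n => c4 ⟨e, n⟩))
      · exact Or.inr (Or.inl e)
      · exact absurd e c2
    · rw [XInv_cmR, if_pos (by omega), sub_add_cancel]
      rfl

end

theorem XInv_rel {s s' : ℤ} (h : sc.gid s' = sc.gid s) : sc.Rel s' ↔ sc.Rel s := by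
  unfold Sch.Rel
  rw [h]

theorem XInv_main {x y : Cell 6} {u : Bool} (hx : sc.InX x) (hy : sc.mv x = some (u, y)) :
    sc.InX y ∧ sc.mv y = some (!u, x) ∧ (u = true → Fc y x) := by
  obtain ⟨k, h, t, w, a, b, rfl⟩ := XInv_ex x
  rcases XInv_cases sc hx with ⟨rfl, rfl, rfl, h1, h2, h3⟩ | ⟨rfl, rfl, rfl, h1, h2⟩ |
    ⟨rfl, rfl, rfl, h1, h2, h3⟩ | ⟨rfl, rfl, rfl, h1, h2⟩ | ⟨h1, h2, h3⟩
  · rw [XInv_mv0] at hy
    split_ifs at hy with c1 c2
    · obtain ⟨rfl, rfl⟩ := Prod.mk.inj (Option.some.inj hy)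
      refine ⟨XInv_base sc h1 (by omega) (by omega), ?_, fun _ => ?_⟩
      · rw [XInv_mv0, if_neg (by omega), if_pos (by omega), add_sub_cancel_right]
        rfl
      · rw [← XInv_a2]
        exact XInv_fc 2 c1
    · obtain ⟨rfl, rfl⟩ := Prod.mk.inj (Option.some.inj hy)
      refine ⟨XInv_base sc h1 (by omega) (by omega), ?_, fun h => absurd h (by decide)⟩
      rw [XInv_mv0, if_pos (by omega), sub_add_cancel]
      rfl
    · obtain ⟨k', h', rfl, e1, -, e3, e4⟩ := XInv_tr h1 hy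
      exact ⟨XInv_base sc (Or.inl e1) h2 h3, by rw [XInv_mv0, if_neg c1, if_neg c2, e3], e4⟩
  · rw [XInv_mvV sc h2] at hy
    split_ifs at hy with c1
    · obtain ⟨rfl, rfl⟩ := Prod.mk.inj (Option.some.inj hy)
      obtain ⟨c1, c2, rfl, rfl⟩ := c1
      refine ⟨XInv_lid sc h1.1 h2 (Or.inl (by unfold Tt; omega)), ?_, fun _ => ?_⟩
      · rw [XInv_mvL sc h2, if_neg (by omega), if_neg (by omega), if_neg (by omega),
          if_neg (not_not.2 c2), if_pos ⟨rfl, rfl⟩]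
        rfl
      · refine ⟨3, rfl, Or.inl ?_⟩
        rw [XInv_a3]
        rfl
    · obtain ⟨k', h', t', rfl, e1, e2, e3, e4, e5⟩ := XInv_cm sc h1 hy
      have r := (XInv_rel sc e2).2 h2
      exact ⟨XInv_vert sc e1 r, by rw [XInv_mvV sc r, if_neg e3, e4], e5⟩
  · rw [XInv_mvL sc h2] at hy
    split_ifs at hy with c1 c2 c3 c4 c5
    · obtain ⟨rfl, rfl⟩ := Prod.mk.inj (Option.some.inj hy)
      have h4 := h3.resolve_left (by unfold Tt; omega)
      refine ⟨XInv_lid sc h1 h2 (Or.inr ⟨h4.1, h4.2.1, h4.2.2.1, by omega⟩), ?_, fun _ => ?_⟩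
      · rw [XInv_mvL sc h2, if_neg (by omega), if_pos (by omega), add_sub_cancel_right]
        rfl
      · rw [← XInv_a1]
        exact XInv_fc 1 (by rw [XInv_1]; omega)
    · obtain ⟨rfl, rfl⟩ := Prod.mk.inj (Option.some.inj hy)
      have h4 := h3.resolve_left (by unfold Tt; omega)
      refine ⟨XInv_lid sc h1 h2 (Or.inr ⟨h4.1, h4.2.1, h4.2.2.1, by omega⟩), ?_,
        fun h => absurd h (by decide)⟩
      rw [XInv_mvL sc h2, if_pos (by omega), sub_add_cancel]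
      rfl
    · obtain ⟨rfl, rfl⟩ := Prod.mk.inj (Option.some.inj hy)
      obtain ⟨l1, l2, l3, l4⟩ := XInv_up sc h1 c3
      have r := (XInv_rel sc l4).2 h2
      refine ⟨XInv_lid sc l1 r (Or.inl (h3.resolve_right (by omega))), ?_, fun _ => ?_⟩
      · rw [XInv_mvL sc r, if_neg c1, if_neg c2, if_neg (by omega), if_pos (l2 ▸ l3),
          add_sub_cancel_right]
        rfl
      · rw [← XInv_a2]
        exact XInv_fc 2 c3
    · obtain ⟨rfl, rfl⟩ := Prod.mk.inj (Option.some.inj hy)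
      obtain ⟨l1, l2, l4⟩ := XInv_dn sc h1 c3 c4
      have r := (XInv_rel sc l4).2 h2
      refine ⟨XInv_lid sc l1 r (Or.inl (h3.resolve_right (by unfold Tp; omega))), ?_,
        fun h => absurd h (by decide)⟩
      rw [XInv_mvL sc r, if_neg c1, if_neg c2, if_pos (by omega), sub_add_cancel]
      rfl
    · obtain ⟨rfl, rfl⟩ := Prod.mk.inj (Option.some.inj hy)
      obtain ⟨rfl, rfl⟩ := c5
      refine ⟨XInv_vert sc ⟨h1, Or.inl rfl⟩ h2, ?_, fun h => absurd h (by decide)⟩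
      rw [XInv_mvV sc h2, if_pos ⟨by omega, not_not.1 c4, rfl, rfl⟩]
      rfl
    · obtain ⟨k', h', rfl, e1, e2, e3, e4⟩ :=
        XInv_tr (Or.inl (h3.resolve_right (by unfold Tp; omega))) hy
      refine ⟨XInv_lid sc h1 h2 (Or.inl e1), ?_, e4⟩
      unfold Tt at e1
      rw [XInv_mvL sc h2, if_neg (by omega), if_neg (by omega), if_neg c3, if_neg c4, if_neg e2,
        e3]
  · rw [XInv_mvC sc h2] at hy
    obtain ⟨k', h', t', rfl, e1, e2, -, e4, e5⟩ := XInv_cm sc h1 hy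
    have r := mt (XInv_rel sc e2).1 h2
    exact ⟨XInv_top sc e1 r, by rw [XInv_mvC sc r, e4], e5⟩
  · rw [XInv_mvS sc h2 h3.2.2.2.2.2.2.2.1 h3.2.2.2.2.2.2.2.2] at hy
    obtain ⟨w', a', b', rfl, e1, e2, e3⟩ := XInv_sr h3 hy
    exact ⟨XInv_sph sc h1 h2 e1,
      by rw [XInv_mvS sc h2 e1.2.2.2.2.2.2.2.1 e1.2.2.2.2.2.2.2.2, e2], e3⟩

theorem Sch.mv_up {x y : Cell 6} (hx : sc.InX x) (h : sc.mv x = some (true, y)) :
    sc.InX y ∧ sc.mv y = some (false, x) ∧ Fc y x :=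
  have h1 := XInv_main sc hx h
  ⟨h1.1, h1.2.1, h1.2.2 rfl⟩

theorem Sch.mv_dn {x y : Cell 6} (hx : sc.InX x) (h : sc.mv x = some (false, y)) :
    sc.InX y ∧ sc.mv y = some (true, x) :=
  have h1 := XInv_main sc hx h
  ⟨h1.1, h1.2.1⟩

end Pool.Agent.Work.MP_735653_gt
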