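import Pool.Agent.Work.MP_735653_gt.XK

/-! Boundary words of squares. -/

namespace Pool.Agent.Work.MP_735653_gt

variable {S Rl C : Type} {wd : Rl ⊕ C → FreeGroup S} (sc : Sch wd)

/-- the label in direction `0` -/
def XRel_W0 (k h t a : ℤ) : FreeGroup S :=
  if h = 2 ∧ k % 4 = 2 ∧ ¬ (sc.Rel (t / 2) ∧ a = 2) then lab sc.e (k / 4) else 1

/-- the word read along the curve -/
def XRel_U (k h s : ℤ) : FreeGroup S :=
  if (k, h) = (0, 0) then 1 else if (k, h) = sc.p s then sc.u s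
  else sc.u s * ltr sc.e (sc.p s) (sc.p (s + 1))

/-- the label in direction `3` -/
def XRel_W3 (k h t a : ℤ) : FreeGroup S :=
  if sc.Rel (t / 2) ∧ a = 0 then (XRel_U sc k h (t / 2))⁻¹ else 1

lemma XRel_w0 (v : Cell 6) : sc.w v 0 = XRel_W0 sc (v 0) (v 1) (v 2) (v 3) := if_pos rfl

lemma XRel_w3 (v : Cell 6) : sc.w v 3 = XRel_W3 sc (v 0) (v 1) (v 2) (v 3) :=
  (if_neg (by decide)).trans (if_pos rfl)

lemma XRel_w (v : Cell 6) {i : Fin 6} (h0 : i ≠ 0) (h3 : i ≠ 3) : sc.w v i = 1 :=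
  (if_neg h0).trans (if_neg h3)

/-- a consequence of membership, in coordinates -/
lemma XRel_in {x : Cell 6} (hx : sc.InX x) {k h t a b c : ℤ} (e0 : x 0 = k) (e1 : x 1 = h)
    (e2 : x 2 = t) (e3 : x 3 = a) (e4 : x 4 = b) (e5 : x 5 = c) :
    ((k % 2 = 1 → h % 2 = 0) ∧ a = 0 ∧ b = 0 ∧ c = 0) ∨
      (sc.Kap k h t ∧ sc.Rel (t / 2) ∧ a = 1 ∧ b = 0 ∧ c = 0) ∨
      (sc.Lv t ∧ sc.Rel (t / 2) ∧ a = 2) ∨ (sc.Kap k h t ∧ ¬ sc.Rel (t / 2)) := by
  subst e0 e1 e2 e3 e4 e5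
  rcases hx with hx | hx | hx | hx
  · refine Or.inl ⟨?_, hx.2.2.2⟩
    have := hx.1
    unfold Tt Tp at this
    omega
  · exact Or.inr (Or.inl hx)
  · exact Or.inr (Or.inr (Or.inl ⟨hx.1, hx.2.1, hx.2.2.1⟩))
  · exact Or.inr (Or.inr (Or.inr ⟨hx.1, hx.2.1⟩))

lemma XRel_lv {t : ℤ} (h : sc.Lv t) : 0 ≤ t / 2 ∧ t / 2 < sc.N := by
  obtain ⟨h1, h2, -⟩ := h
  omega

lemma XRel_succ {t : ℤ} (ht : t % 2 = 0) (h : sc.Lv (t + 1)) :
    sc.p (t / 2 + 1) ≠ (0, 0) ∧ (sc.Rel ((t + 2) / 2) ↔ sc.Rel (t / 2)) := by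
  obtain ⟨h1, h2, h3⟩ := h
  have e1 : (t + 1) / 2 = t / 2 := by omega
  have e2 : (t + 2) / 2 = t / 2 + 1 := by omega
  rw [e1] at h3
  have h4 := h3.resolve_left (by omega)
  refine ⟨h4, ?_⟩
  rw [e2, Sch.Rel, Sch.Rel, sc.gid_succ _ (by omega) (by omega) h4]

lemma XRel_kapE {k h t : ℤ} (hk : sc.Kap k h t) (ho : k % 2 = 1 ∨ h % 2 = 1) :
    (k, h) = sc.E (t / 2) := by
  obtain ⟨h0, h1⟩ := XRel_lv sc hk.1
  obtain ⟨h2, h3, -⟩ := sc.step_cases h0 h1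
  unfold CVtx at h2 h3
  rcases hk.2 with h4 | h4 | ⟨-, h4 | h4⟩
  · simp only [Prod.ext_iff] at h4
    omega
  · simp only [Prod.ext_iff] at h4
    omega
  · simp only [Prod.ext_iff] at h4
    omega
  · exact h4

lemma XRel_U_fst {s k h : ℤ} (h0 : 0 ≤ s) (h1 : s < sc.N) (e : sc.p s = (k, h)) :
    XRel_U sc k h s = sc.u s := by
  unfold XRel_U
  split_ifs with h2 h3
  · exact (sc.u_fst s h0 h1 (e.trans h2)).symm
  · rfl
  · exact absurd e.symm h3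

lemma XRel_U_snd {s k h : ℤ} (h0 : (k, h) ≠ (0, 0)) (h1 : (k, h) ≠ sc.p s) :
    XRel_U sc k h s = sc.u s * ltr sc.e (sc.p s) (sc.p (s + 1)) := by
  rw [XRel_U, if_neg h0, if_neg h1]

lemma XRel_01 {k h t a b c : ℤ} {x : Cell 6} (hx : sc.InX x) (e0 : x 0 = k + 1) (e1 : x 1 = h + 1)
    (e2 : x 2 = t) (e3 : x 3 = a) (e4 : x 4 = b) (e5 : x 5 = c) (hk : k % 2 = 0) (hh : h % 2 = 0)
    (ha : a % 2 = 0) : XRel_W0 sc k (h + 2) t a = XRel_W0 sc k h t a := by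
  rcases XRel_in sc hx e0 e1 e2 e3 e4 e5 with h1 | h1 | h1 | h1
  · omega
  · omega
  · simp [XRel_W0, h1.2]
  · have h2 := XRel_kapE sc h1.1 (by omega)
    obtain ⟨h3, h4⟩ := XRel_lv sc h1.1.1
    obtain ⟨h5, h6, h7⟩ := sc.step_cases h3 h4
    unfold CVtx at h5 h6
    simp only [Prod.ext_iff] at h2
    omega

lemma XRel_02 {k h t a b c : ℤ} {x : Cell 6} (hx : sc.InX x) (e0 : x 0 = k + 1) (e1 : x 1 = h)
    (e2 : x 2 = t + 1) (e3 : x 3 = a) (e4 : x 4 = b) (e5 : x 5 = c) (ht : t % 2 = 0) :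
    XRel_W0 sc k h (t + 2) a = XRel_W0 sc k h t a := by
  rcases XRel_in sc hx e0 e1 e2 e3 e4 e5 with h1 | h1 | h1 | h1
  · simp [XRel_W0, h1.2.1]
  · simp only [XRel_W0, (XRel_succ sc ht h1.1.1).2]
  · simp only [XRel_W0, (XRel_succ sc ht h1.1).2]
  · simp only [XRel_W0, (XRel_succ sc ht h1.1.1).2]

lemma XRel_13 {k h t a b c : ℤ} {x : Cell 6} (hx : sc.InX x) (e0 : x 0 = k) (e1 : x 1 = h + 1)
    (e2 : x 2 = t) (e3 : x 3 = a + 1) (e4 : x 4 = b) (e5 : x 5 = c) (hk : k % 2 = 0)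
    (hh : h % 2 = 0) (ha : a % 2 = 0) : XRel_W3 sc k (h + 2) t a = XRel_W3 sc k h t a := by
  rcases XRel_in sc hx e0 e1 e2 e3 e4 e5 with h1 | h1 | h1 | h1
  · omega
  · have h2 := XRel_kapE sc h1.1 (by omega)
    obtain ⟨h3, h4⟩ := XRel_lv sc h1.1.1
    obtain ⟨h5, h6, h7⟩ := sc.step_cases h3 h4
    have h8 := sc.last _ h3 h4
    have h9 : ltr sc.e (sc.p (t / 2)) (sc.p (t / 2 + 1)) = 1 := by
      simp only [Prod.ext_iff] at h2
      rw [ltr, if_neg (by omega)]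
    have h10 : XRel_U sc k (h + 2) (t / 2) = XRel_U sc k h (t / 2) := by
      unfold CVtx at h5 h6
      simp only [Prod.ext_iff] at h2 h8
      by_cases h11 : (sc.p (t / 2)).2 = 0
      · rw [XRel_U_fst sc h3 h4 (h := h) (Prod.ext (by omega) (by omega)),
          XRel_U_snd sc (by simp only [ne_eq, Prod.ext_iff]; omega)
            (by simp only [ne_eq, Prod.ext_iff]; omega), h9, mul_one]
      · rw [XRel_U_fst sc h3 h4 (h := h + 2) (Prod.ext (by omega) (by omega)),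
          XRel_U_snd sc (by simp only [ne_eq, Prod.ext_iff]; omega)
            (by simp only [ne_eq, Prod.ext_iff]; omega), h9, mul_one]
    rw [XRel_W3, XRel_W3, h10]
  · omega
  · simp [XRel_W3, h1.2]

lemma XRel_23 {k h t a b c : ℤ} {x : Cell 6} (hx : sc.InX x) (e0 : x 0 = k) (e1 : x 1 = h)
    (e2 : x 2 = t + 1) (e3 : x 3 = a + 1) (e4 : x 4 = b) (e5 : x 5 = c) (ht : t % 2 = 0)
    (ha : a % 2 = 0) : XRel_W3 sc k h (t + 2) a = XRel_W3 sc k h t a := by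
  have h0 : sc.Kap k h (t + 1) := by
    rcases XRel_in sc hx e0 e1 e2 e3 e4 e5 with h1 | h1 | h1 | h1
    · omega
    · exact h1.1
    · omega
    · exact h1.1
  obtain ⟨h1, h2⟩ := XRel_succ sc ht h0.1
  obtain ⟨h3, h4⟩ := XRel_lv sc h0.1
  have e6 : (t + 1) / 2 = t / 2 := by omega
  have e7 : (t + 2) / 2 = t / 2 + 1 := by omega
  have h5 := h0.2
  rw [e6] at h3 h4 h5
  have h6 : XRel_U sc k h ((t + 2) / 2) = XRel_U sc k h (t / 2) := by
    rcases h5 with h5 | h5 | h5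
    · rw [XRel_U, XRel_U, if_pos h5, if_pos h5]
    · obtain ⟨⟨-, -, -, h9⟩, -, h7⟩ := sc.step_cases h3 h4
      have h8 : (k, h) ≠ sc.p (t / 2) := by
        simp only [ne_eq, Prod.ext_iff] at h5 ⊢
        omega
      rw [XRel_U_snd sc (h5 ▸ h1) h8, e7, XRel_U, if_neg (h5 ▸ h1), if_pos h5,
        sc.u_succ _ h3 h4 h1]
    · omega
  simp only [XRel_W3, h2, h6]

lemma XRel_03 {k h t a b c : ℤ} {x : Cell 6} (hx : sc.InX x) (e0 : x 0 = k + 1) (e1 : x 1 = h)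
    (e2 : x 2 = t) (e3 : x 3 = a + 1) (e4 : x 4 = b) (e5 : x 5 = c) (hk : k % 2 = 0)
    (ht : t % 2 = 0) (ha : a % 2 = 0) (hc : ∀ r, x ≠ sc.cr (.inr (.inr (.inl r)))) :
    XRel_W0 sc k h t a * XRel_W3 sc (k + 2) h t a * (XRel_W0 sc k h t (a + 2))⁻¹ *
      (XRel_W3 sc k h t a)⁻¹ = 1 := by
  rcases XRel_in sc hx e0 e1 e2 e3 e4 e5 with h1 | ⟨h1, hR, h0, hb, hc0⟩ | h1 | h1
  · omega
  · obtain rfl : a = 0 := by omega
    have h2 := XRel_kapE sc h1 (by omega)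
    obtain ⟨h3, h4⟩ := XRel_lv sc h1.1
    obtain ⟨h5, h6, h7⟩ := sc.step_cases h3 h4
    unfold CVtx at h5 h6
    simp only [Prod.ext_iff] at h2
    have h8 : XRel_W0 sc k h t 0 = if h = 2 then lab sc.e (k / 4) else 1 := by
      unfold XRel_W0
      refine if_congr ⟨fun h9 => h9.1, fun h9 => ⟨h9, by omega, by omega⟩⟩ rfl rfl
    have h9 : XRel_W0 sc k h t (0 + 2) = 1 := by simp [XRel_W0, hR]
    have h18 : ∀ k', XRel_W3 sc k' h t 0 = (XRel_U sc k' h (t / 2))⁻¹ := fun _ =>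
      if_pos ⟨hR, rfl⟩
    rw [h8, h9, h18, h18]
    by_cases h10 : (sc.p (t / 2)).1 = k
    · have h11 : sc.p (t / 2) = (k, h) := Prod.ext h10 (by omega)
      have h12 : sc.p (t / 2 + 1) = (k + 2, h) := Prod.ext (by omega) (by omega)
      rw [XRel_U_fst sc h3 h4 h11, XRel_U_snd sc (by simp only [ne_eq, Prod.ext_iff]; omega)
        (by simp only [ne_eq, Prod.ext_iff]; omega), h11, h12]
      by_cases h17 : h = 2 <;> simp [ltr, h17]
    · have h11 : sc.p (t / 2) = (k + 2, h) := Prod.ext (by omega) (by omega)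
      have h12 : sc.p (t / 2 + 1) = (k, h) := Prod.ext (by omega) (by omega)
      have h13 : (k, h) ≠ (0, 0) := by
        intro h14
        have h15 := sc.ls_uniq _ h3 h4 (h12.trans h14)
        obtain ⟨r, hr⟩ := Sum.isLeft_iff.1 hR
        rw [hr] at h15
        obtain ⟨rfl, rfl⟩ := Prod.mk.inj h14
        refine hc r (funext fun i => ?_)
        fin_cases i <;> simp [Sch.cr, e0, e1, e2, e3, e4, e5, hb, hc0, h15]
        omega
      rw [XRel_U_fst sc h3 h4 h11, XRel_U_snd sc h13 (by simp only [ne_eq, Prod.ext_iff]; omega),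
        h11, h12]
      have h16 : ¬ k + 2 < k := by omega
      by_cases h17 : h = 2 <;> simp [ltr, h16, h17]
  · omega
  · simp [XRel_W0, XRel_W3, h1.2]

theorem Sch.up_edge {v y : Cell 6} {i : Fin 6} (hv : Vtx v) (h : sc.InX (v + ee i))
    (h1 : sc.mv (v + ee i) = some (true, y)) : sc.w v i = 1 := by
  have p0 := hv 0
  have p1 := hv 1
  have p2 := hv 2
  have p3 := hv 3
  have p4 := hv 4
  have p5 := hv 5
  by_cases hi0 : i = 0
  · subst hi0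
    rw [XRel_w0, XRel_W0, if_neg]
    rintro ⟨h2, h3, h4⟩
    have e0 : (v + ee 0 : Cell 6) 0 = v 0 + 1 := by simp [LCB_ee]
    have e1 : (v + ee 0 : Cell 6) 1 = v 1 := by simp [LCB_ee]
    have e2 : (v + ee 0 : Cell 6) 2 = v 2 := by simp [LCB_ee]
    have e3 : (v + ee 0 : Cell 6) 3 = v 3 := by simp [LCB_ee]
    have e4 : (v + ee 0 : Cell 6) 4 = v 4 := by simp [LCB_ee]
    have e5 : (v + ee 0 : Cell 6) 5 = v 5 := by simp [LCB_ee]
    have h5 := XRel_in sc h e0 e1 e2 e3 e4 e5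
    generalize v + ee 0 = x at *
    by_cases h6 : x 3 = 0 ∧ x 4 = 0 ∧ x 5 = 0
    · rw [Sch.mv, if_pos h6, trR] at h1
      split_ifs at h1 <;> first | omega | simp at h1
    · by_cases h7 : sc.Rel (v 2 / 2)
      · rcases h5 with h5 | h5 | h5 | h5
        · omega
        · omega
        · exact h4 h5.2
        · exact h5.2 h7
      · rw [Sch.mv, if_neg h6, e2, if_neg h7, if_neg (by omega), srR] at h1
        split_ifs at h1 <;> first | omega | simp at h1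
  by_cases hi3 : i = 3
  · subst hi3
    rw [XRel_w3, XRel_W3]
    split_ifs with h2
    swap
    · rfl
    have e0 : (v + ee 3 : Cell 6) 0 = v 0 := by simp [LCB_ee]
    have e1 : (v + ee 3 : Cell 6) 1 = v 1 := by simp [LCB_ee]
    have e2 : (v + ee 3 : Cell 6) 2 = v 2 := by simp [LCB_ee]
    have e3 : (v + ee 3 : Cell 6) 3 = v 3 + 1 := by simp [LCB_ee]
    have e4 : (v + ee 3 : Cell 6) 4 = v 4 := by simp [LCB_ee]
    have e5 : (v + ee 3 : Cell 6) 5 = v 5 := by simp [LCB_ee]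
    have h5 : sc.Lv (v 2) := by
      rcases XRel_in sc h e0 e1 e2 e3 e4 e5 with h5 | h5 | h5 | h5
      · omega
      · exact h5.1.1
      · exact h5.1
      · exact h5.1.1
    generalize v + ee 3 = x at *
    obtain ⟨h3, h4⟩ := XRel_lv sc h5
    obtain ⟨h6, -, h7⟩ := sc.step_cases h3 h4
    have h8 : (v 0, v 1) ≠ sc.E (v 2 / 2) := by
      simp only [ne_eq, Prod.ext_iff]
      omega
    rw [Sch.mv, if_neg (by omega), e2, if_pos h2.1, if_neg (by omega), Sch.cmR, e0, e1, e2,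
      if_neg (by omega : ¬ v 2 % 2 = 1), if_neg h8] at h1
    split_ifs at h1 with h9
    · rw [XRel_U, if_pos (Prod.ext h9.2.2.1 h9.2.2.2), inv_one]
    all_goals simp at h1
  · exact XRel_w sc v hi0 hi3

theorem Sch.cr_edge {v : Cell 6} {i : Fin 6} {s : S} (hv : Vtx v)
    (h : v + ee i = sc.cr (.inr (.inl s))) : sc.w v i = FreeGroup.of s := by
  have p0 := hv 0
  have e0 := congrFun h 0
  have e1 := congrFun h 1
  have e3 := congrFun h 3
  obtain rfl : i = 0 := by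
    by_contra hi
    simp [LCB_ee_ne (Ne.symm hi), Sch.cr] at e0
    omega
  simp [LCB_ee, Sch.cr] at e0 e1 e3
  have e4 : v 0 / 4 = ((sc.e s).1 : ℤ) := by omega
  have h1 := (sc.e s).2
  rw [XRel_w0, XRel_W0, if_pos ⟨e1, by omega, by omega⟩, e4, lab, dif_pos (by omega)]
  simp

theorem Sch.rel_one {v : Cell 6} {i j : Fin 6} (hv : Vtx v) (hij : i < j)
    (h : sc.InX (v + ee i + ee j)) (h1 : ∀ k, v + ee i + ee j ≠ sc.cr (.inr (.inr (.inl k)))) :
    relw sc.w v i j = 1 := by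
  have p0 := hv 0
  have p1 := hv 1
  have p2 := hv 2
  have p3 := hv 3
  have w1 := fun x => XRel_w sc x (i := 1) (by decide) (by decide)
  have w2 := fun x => XRel_w sc x (i := 2) (by decide) (by decide)
  have hc : (i = 0 ∧ j = 1) ∨ (i = 0 ∧ j = 2) ∨ (i = 0 ∧ j = 3) ∨ (i = 1 ∧ j = 3) ∨
      (i = 2 ∧ j = 3) ∨ (i = 1 ∧ j = 2) ∨ j = 4 ∨ j = 5 := by
    clear h h1
    revert i j
    decide
  unfold relw
  rcases hc with ⟨rfl, rfl⟩ | ⟨rfl, rfl⟩ | ⟨rfl, rfl⟩ | ⟨rfl, rfl⟩ | ⟨rfl, rfl⟩ | ⟨rfl, rfl⟩ |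
    rfl | rfl
  · have := XRel_01 sc (k := v 0) (h := v 1) (t := v 2) (a := v 3) (b := v 4) (c := v 5) h
      (by simp [LCB_ee]) (by simp [LCB_ee]) (by simp [LCB_ee]) (by simp [LCB_ee])
      (by simp [LCB_ee]) (by simp [LCB_ee]) p0 p1 p3
    simp [XRel_w0, w1, LCB_ee, this]
  · have := XRel_02 sc (k := v 0) (h := v 1) (t := v 2) (a := v 3) (b := v 4) (c := v 5) h
      (by simp [LCB_ee]) (by simp [LCB_ee]) (by simp [LCB_ee]) (by simp [LCB_ee])
      (by simp [LCB_ee]) (by simp [LCB_ee]) p2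
    simp [XRel_w0, w2, LCB_ee, this]
  · have := XRel_03 sc (k := v 0) (h := v 1) (t := v 2) (a := v 3) (b := v 4) (c := v 5) h
      (by simp [LCB_ee]) (by simp [LCB_ee]) (by simp [LCB_ee]) (by simp [LCB_ee])
      (by simp [LCB_ee]) (by simp [LCB_ee]) p0 p2 p3 h1
    simpa [XRel_w0, XRel_w3, LCB_ee] using this
  · have := XRel_13 sc (k := v 0) (h := v 1) (t := v 2) (a := v 3) (b := v 4) (c := v 5) h
      (by simp [LCB_ee]) (by simp [LCB_ee]) (by simp [LCB_ee]) (by simp [LCB_ee])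
      (by simp [LCB_ee]) (by simp [LCB_ee]) p0 p1 p3
    simp [XRel_w3, w1, LCB_ee, this]
  · have := XRel_23 sc (k := v 0) (h := v 1) (t := v 2) (a := v 3) (b := v 4) (c := v 5) h
      (by simp [LCB_ee]) (by simp [LCB_ee]) (by simp [LCB_ee]) (by simp [LCB_ee])
      (by simp [LCB_ee]) (by simp [LCB_ee]) p2 p3
    simp [XRel_w3, w2, LCB_ee, this]
  · simp [w1, w2]
  · simp [Sch.w, Sch.uw, LCB_ee]
  · simp [Sch.w, Sch.uw, LCB_ee]

theorem Sch.rel_cr {v : Cell 6} {i j : Fin 6} {k : Rl} (hv : Vtx v) (hij : i < j)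
    (h : v + ee i + ee j = sc.cr (.inr (.inr (.inl k)))) : relw sc.w v i j = (wd (.inl k))⁻¹ := by
  have p0 := hv 0
  have p3 := hv 3
  have e0 := congrFun h 0
  have e1 := congrFun h 1
  have e2 := congrFun h 2
  have e3 := congrFun h 3
  have hj0 : (0 : Fin 6) ≠ j := (lt_of_le_of_lt (Fin.zero_le i) hij).ne
  obtain rfl : i = 0 := by
    by_contra hi
    simp [LCB_ee_ne (Ne.symm hi), LCB_ee_ne hj0, Sch.cr] at e0
    omega
  obtain rfl : j = 3 := by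
    by_contra hj
    simp [LCB_ee_ne (Ne.symm hj), LCB_ee, Sch.cr] at e3
    omega
  simp [LCB_ee, Sch.cr] at e0 e1 e2 e3
  obtain ⟨h0, h1, h2, h3⟩ := sc.ls_spec (.inl k)
  have h4 := sc.last _ h0 h1 h2
  have h5 := sc.u_lst _ h0 h1 h2
  have hR : sc.Rel (sc.ls (.inl k)) := by simp [Sch.Rel, h3]
  have h6 := XRel_U_fst sc h0 h1 h4
  have h7 : XRel_U sc 0 0 (sc.ls (.inl k)) = 1 := if_pos rfl
  simp [relw, XRel_w0, XRel_w3, LCB_ee, e0, e1, e2, e3, XRel_W0, XRel_W3, hR, h6, h7, h5, h3]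

end Pool.Agent.Work.MP_735653_gt
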