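import Pool.Agent.Work.MP_735653_gt.XK

/-! The matching is acyclic. -/

namespace Pool.Agent.Work.MP_735653_gt

variable {S Rl C : Type} {wd : Rl ⊕ C → FreeGroup S} (sc : Sch wd)

/-- coordinates of a cell -/
def XTri_Cd (y : Cell 6) (a0 a1 a2 a3 a4 a5 : ℤ) : Prop :=
  y 0 = a0 ∧ y 1 = a1 ∧ y 2 = a2 ∧ y 3 = a3 ∧ y 4 = a4 ∧ y 5 = a5

theorem XTri_a0 (x : Cell 6) : XTri_Cd (x + ee 0) (x 0 + 1) (x 1) (x 2) (x 3) (x 4) (x 5) :=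
  ⟨rfl, add_zero _, add_zero _, add_zero _, add_zero _, add_zero _⟩
theorem XTri_a1 (x : Cell 6) : XTri_Cd (x + ee 1) (x 0) (x 1 + 1) (x 2) (x 3) (x 4) (x 5) :=
  ⟨add_zero _, rfl, add_zero _, add_zero _, add_zero _, add_zero _⟩
theorem XTri_a2 (x : Cell 6) : XTri_Cd (x + ee 2) (x 0) (x 1) (x 2 + 1) (x 3) (x 4) (x 5) :=
  ⟨add_zero _, add_zero _, rfl, add_zero _, add_zero _, add_zero _⟩
theorem XTri_a3 (x : Cell 6) : XTri_Cd (x + ee 3) (x 0) (x 1) (x 2) (x 3 + 1) (x 4) (x 5) :=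
  ⟨add_zero _, add_zero _, add_zero _, rfl, add_zero _, add_zero _⟩
theorem XTri_a4 (x : Cell 6) : XTri_Cd (x + ee 4) (x 0) (x 1) (x 2) (x 3) (x 4 + 1) (x 5) :=
  ⟨add_zero _, add_zero _, add_zero _, add_zero _, rfl, add_zero _⟩
theorem XTri_a5 (x : Cell 6) : XTri_Cd (x + ee 5) (x 0) (x 1) (x 2) (x 3) (x 4) (x 5 + 1) :=
  ⟨add_zero _, add_zero _, add_zero _, add_zero _, add_zero _, rfl⟩
theorem XTri_s0 (x : Cell 6) : XTri_Cd (x - ee 0) (x 0 - 1) (x 1) (x 2) (x 3) (x 4) (x 5) :=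
  ⟨rfl, sub_zero _, sub_zero _, sub_zero _, sub_zero _, sub_zero _⟩
theorem XTri_s1 (x : Cell 6) : XTri_Cd (x - ee 1) (x 0) (x 1 - 1) (x 2) (x 3) (x 4) (x 5) :=
  ⟨sub_zero _, rfl, sub_zero _, sub_zero _, sub_zero _, sub_zero _⟩
theorem XTri_s2 (x : Cell 6) : XTri_Cd (x - ee 2) (x 0) (x 1) (x 2 - 1) (x 3) (x 4) (x 5) :=
  ⟨sub_zero _, sub_zero _, rfl, sub_zero _, sub_zero _, sub_zero _⟩
theorem XTri_s3 (x : Cell 6) : XTri_Cd (x - ee 3) (x 0) (x 1) (x 2) (x 3 - 1) (x 4) (x 5) :=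
  ⟨sub_zero _, sub_zero _, sub_zero _, rfl, sub_zero _, sub_zero _⟩
theorem XTri_s4 (x : Cell 6) : XTri_Cd (x - ee 4) (x 0) (x 1) (x 2) (x 3) (x 4 - 1) (x 5) :=
  ⟨sub_zero _, sub_zero _, sub_zero _, sub_zero _, rfl, sub_zero _⟩
theorem XTri_s5 (x : Cell 6) : XTri_Cd (x - ee 5) (x 0) (x 1) (x 2) (x 3) (x 4) (x 5 - 1) :=
  ⟨sub_zero _, sub_zero _, sub_zero _, sub_zero _, sub_zero _, rfl⟩
theorem XTri_kh (x : Cell 6) (a : ℤ × ℤ) :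
    XTri_Cd (setkh x a) a.1 a.2 (x 2) (x 3) (x 4) (x 5) := by
  simp [XTri_Cd, setkh]

theorem XTri_rk {y : Cell 6} {a0 a1 a2 a3 a4 a5 : ℤ} (h : XTri_Cd y a0 a1 a2 a3 a4 a5) :
    rkX y = a0 + 3 * a1 + 4 * a2 + 2 * a3 + a4 + a5 := by
  obtain ⟨rfl, rfl, rfl, rfl, rfl, rfl⟩ := h
  rfl

theorem XTri_ne {b y : Cell 6} (h : b ≠ y) :
    b 0 ≠ y 0 ∨ b 1 ≠ y 1 ∨ b 2 ≠ y 2 ∨ b 3 ≠ y 3 ∨ b 4 ≠ y 4 ∨ b 5 ≠ y 5 := by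
  by_contra hn
  simp only [not_or, ne_eq, not_not] at hn
  obtain ⟨h0, h1, h2, h3, h4, h5⟩ := hn
  refine h (funext fun i => ?_)
  fin_cases i
  exacts [h0, h1, h2, h3, h4, h5]

/-- upper cells of the tree rule -/
def XTri_TrU (x y : Cell 6) : Prop :=
  (x 0 % 2 = 0 ∧ x 1 = 1 ∧ XTri_Cd y (x 0) (x 1 + 1) (x 2) (x 3) (x 4) (x 5)) ∨
    (x 0 % 2 = 1 ∧ x 1 = 0 ∧ XTri_Cd y (x 0 + 1) (x 1) (x 2) (x 3) (x 4) (x 5))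

/-- lower cells of the tree rule -/
def XTri_TrD (b : Cell 6) (r : ℤ) : Prop :=
  b 0 % 2 = 0 ∧ ((b 1 = 2 ∧ r = rkX b - 3) ∨ (b 1 ≠ 1 ∧ b 1 ≠ 2 ∧ r = rkX b - 1))

theorem XTri_tr_up {x y : Cell 6} (h : trR x = some (true, y)) : XTri_TrU x y := by
  unfold trR at h
  split_ifs at h with h0 h1 h2 h3 h4 <;> cases h
  · exact Or.inl ⟨h0, h1, XTri_a1 x⟩
  · exact Or.inr ⟨by omega, h4, XTri_a0 x⟩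

theorem XTri_tr_dn {b z : Cell 6} (h : trR b = some (false, z)) : XTri_TrD b (rkX z) := by
  unfold trR at h
  split_ifs at h with h0 h1 h2 h3 h4 <;> cases h
  · refine ⟨h0, Or.inl ⟨h2, ?_⟩⟩
    rw [XTri_rk (XTri_s1 b), rkX]
    omega
  · refine ⟨h0, Or.inr ⟨h1, h2, ?_⟩⟩
    rw [XTri_rk (XTri_s0 b), rkX]
    omega

/-- upper cells of the sphere rule -/
def XTri_SrU (x y : Cell 6) : Prop :=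
  (x 3 = 1 ∧ XTri_Cd y (x 0) (x 1) (x 2) (x 3 + 1) (x 4) (x 5)) ∨
    (x 3 ≠ 1 ∧ x 3 ≠ 2 ∧ x 4 = 1 ∧ XTri_Cd y (x 0) (x 1) (x 2) (x 3) (x 4 + 1) (x 5)) ∨
    (x 3 ≠ 1 ∧ x 3 ≠ 2 ∧ x 4 ≠ 1 ∧ x 4 ≠ 2 ∧ x 5 = 1 ∧
      XTri_Cd y (x 0) (x 1) (x 2) (x 3) (x 4) (x 5 + 1))

/-- lower cells of the sphere rule -/
def XTri_SrD (b : Cell 6) (r : ℤ) : Prop :=
  (b 3 = 2 ∧ r = rkX b - 2) ∨ (b 3 ≠ 1 ∧ b 3 ≠ 2 ∧ b 4 ≠ 1 ∧ (b 4 = 2 ∨ b 5 ≠ 1) ∧ r = rkX b - 1)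

theorem XTri_sr_up {x y : Cell 6} (h : srR x = some (true, y)) : XTri_SrU x y := by
  unfold srR at h
  split_ifs at h with h0 h1 h2 h3 h4 <;> cases h
  · exact Or.inl ⟨h0, XTri_a3 x⟩
  · exact Or.inr (Or.inl ⟨h0, h1, h2, XTri_a4 x⟩)
  · exact Or.inr (Or.inr ⟨h0, h1, h2, h3, h4, XTri_a5 x⟩)

theorem XTri_sr_dn {b z : Cell 6} (h : srR b = some (false, z)) : XTri_SrD b (rkX z) := by
  unfold srR at h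
  split_ifs at h with h0 h1 h2 h3 h4 <;> cases h
  · refine Or.inl ⟨h1, ?_⟩
    rw [XTri_rk (XTri_s3 b), rkX]
    omega
  · refine Or.inr ⟨h0, h1, h2, Or.inl h3, ?_⟩
    rw [XTri_rk (XTri_s4 b), rkX]
    omega
  · refine Or.inr ⟨h0, h1, h2, Or.inr h4, ?_⟩
    rw [XTri_rk (XTri_s5 b), rkX]
    omega

/-- upper cells of the curve rule -/
def XTri_CmU (x y : Cell 6) (c e : ℤ × ℤ) : Prop :=
  (x 2 % 2 = 1 ∧ XTri_Cd y (x 0) (x 1) (x 2 + 1) (x 3) (x 4) (x 5)) ∨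
    (x 2 % 2 = 0 ∧ x 0 = e.1 ∧ x 1 = e.2 ∧ XTri_Cd y c.1 c.2 (x 2) (x 3) (x 4) (x 5))

/-- lower cells of the curve rule -/
def XTri_CmD (b : Cell 6) (r : ℤ) (c e : ℤ × ℤ) : Prop :=
  b 2 % 2 = 0 ∧ ((b 0 = c.1 ∧ b 1 = c.2 ∧ r = rkX b + (e.1 - c.1) + 3 * (e.2 - c.2)) ∨
    r = rkX b - 4)

theorem XTri_cm_up {x y : Cell 6} (h : sc.cmR x = some (true, y)) :
    XTri_CmU x y (sc.p (x 2 / 2 + 1)) (sc.E (x 2 / 2)) := by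
  unfold Sch.cmR at h
  split_ifs at h with h0 h1 h2 h3 h4 <;> cases h
  · exact Or.inl ⟨h0, XTri_a2 x⟩
  · exact Or.inr ⟨by omega, congrArg Prod.fst h1, congrArg Prod.snd h1, XTri_kh x _⟩

theorem XTri_cm_dn {b z : Cell 6} (h : sc.cmR b = some (false, z)) :
    XTri_CmD b (rkX z) (sc.p (b 2 / 2 + 1)) (sc.E (b 2 / 2)) := by
  unfold Sch.cmR at h
  split_ifs at h with h0 h1 h2 h3 h4 <;> cases h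
  · have h5 : b 0 = (sc.p (b 2 / 2 + 1)).1 := congrArg Prod.fst h3.1
    have h6 : b 1 = (sc.p (b 2 / 2 + 1)).2 := congrArg Prod.snd h3.1
    refine ⟨by omega, Or.inl ⟨h5, h6, ?_⟩⟩
    rw [XTri_rk (XTri_kh b _), rkX]
    omega
  · refine ⟨by omega, Or.inr ?_⟩
    rw [XTri_rk (XTri_s2 b), rkX]
    omega

/-- upper cells; `q = 1` over a relator and `q = 0` otherwise -/
def XTri_U (q : ℤ) (x y : Cell 6) (c e : ℤ × ℤ) : Prop :=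
  (x 3 = 0 ∧ x 4 = 0 ∧ x 5 = 0 ∧
    ((x 2 % 2 = 1 ∧ XTri_Cd y (x 0) (x 1) (x 2 + 1) (x 3) (x 4) (x 5)) ∨
      (x 2 = 0 ∧ XTri_TrU x y))) ∨
  (¬ (x 3 = 0 ∧ x 4 = 0 ∧ x 5 = 0) ∧
    ((q = 1 ∧ x 3 = 2 ∧
      ((x 0 % 2 = 1 ∧ x 1 = 1 ∧ XTri_Cd y (x 0) (x 1 + 1) (x 2) (x 3) (x 4) (x 5)) ∨
        (¬ (x 0 % 2 = 1 ∧ x 1 = 1) ∧ x 2 % 2 = 1 ∧
          XTri_Cd y (x 0) (x 1) (x 2 + 1) (x 3) (x 4) (x 5)) ∨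
        (x 2 % 2 = 0 ∧ XTri_TrU x y))) ∨
    (q = 1 ∧ x 3 ≠ 2 ∧
      ((x 2 % 2 = 0 ∧ x 0 = 0 ∧ x 1 = 0 ∧ XTri_Cd y (x 0) (x 1) (x 2) (x 3 + 1) (x 4) (x 5)) ∨
        XTri_CmU x y c e)) ∨
    (q = 0 ∧ x 3 = 2 ∧ x 4 = 1 ∧ x 5 = 1 ∧ XTri_CmU x y c e) ∨
    (q = 0 ∧ ¬ (x 3 = 2 ∧ x 4 = 1 ∧ x 5 = 1) ∧ XTri_SrU x y)))

/-- lower cells -/
def XTri_D (q : ℤ) (b : Cell 6) (r : ℤ) (c e : ℤ × ℤ) : Prop :=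
  (b 3 = 0 ∧ b 4 = 0 ∧ b 5 = 0 ∧ b 2 % 2 = 0 ∧ (r = rkX b - 4 ∨ XTri_TrD b r)) ∨
  (¬ (b 3 = 0 ∧ b 4 = 0 ∧ b 5 = 0) ∧
    ((q = 1 ∧ b 3 = 2 ∧
      ((b 0 % 2 = 1 ∧ b 1 = 2 ∧ r = rkX b - 3) ∨
        (b 2 % 2 = 0 ∧ (r = rkX b - 4 ∨ (b 0 = 0 ∧ b 1 = 0 ∧ r = rkX b - 2) ∨ XTri_TrD b r)))) ∨
    (q = 1 ∧ b 3 ≠ 2 ∧ XTri_CmD b r c e) ∨
    (q = 0 ∧ b 3 = 2 ∧ b 4 = 1 ∧ b 5 = 1 ∧ XTri_CmD b r c e) ∨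
    (q = 0 ∧ ¬ (b 3 = 2 ∧ b 4 = 1 ∧ b 5 = 1) ∧ XTri_SrD b r)))

/-- the indicator of the relators -/
def XTri_q (s : ℤ) : ℤ := if sc.Rel s then 1 else 0

theorem XTri_up {x y : Cell 6} (h : sc.mv x = some (true, y)) :
    XTri_U (XTri_q sc (x 2 / 2)) x y (sc.p (x 2 / 2 + 1)) (sc.E (x 2 / 2)) := by
  unfold Sch.mv at h
  split_ifs at h with h0 h1 h2 h3 h4 h5 h6 h7 h8 h9 h10 h11
  · cases h
    exact Or.inl ⟨h0.1, h0.2.1, h0.2.2, Or.inl ⟨h1, XTri_a2 x⟩⟩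
  · cases h
  · exact Or.inl ⟨h0.1, h0.2.1, h0.2.2, Or.inr ⟨not_not.1 h2, XTri_tr_up h⟩⟩
  · cases h
    exact Or.inr ⟨h0, Or.inl ⟨if_pos h3, h4, Or.inl ⟨h5.1, h5.2, XTri_a1 x⟩⟩⟩
  · cases h
  · cases h
    exact Or.inr ⟨h0, Or.inl ⟨if_pos h3, h4, Or.inr (Or.inl ⟨h5, h7, XTri_a2 x⟩)⟩⟩
  · cases h
  · cases h
  · exact Or.inr ⟨h0, Or.inl ⟨if_pos h3, h4, Or.inr (Or.inr ⟨by omega, XTri_tr_up h⟩)⟩⟩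
  · cases h
    exact Or.inr ⟨h0, Or.inr (Or.inl ⟨if_pos h3, h4,
      Or.inl ⟨h10.1, h10.2.2.1, h10.2.2.2, XTri_a3 x⟩⟩)⟩
  · exact Or.inr ⟨h0, Or.inr (Or.inl ⟨if_pos h3, h4, Or.inr (XTri_cm_up sc h)⟩)⟩
  · exact Or.inr ⟨h0, Or.inr (Or.inr (Or.inl ⟨if_neg h3, h11.1, h11.2.1, h11.2.2,
      XTri_cm_up sc h⟩))⟩
  · exact Or.inr ⟨h0, Or.inr (Or.inr (Or.inr ⟨if_neg h3, h11, XTri_sr_up h⟩))⟩

theorem XTri_dn {b z : Cell 6} (h : sc.mv b = some (false, z)) :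
    XTri_D (XTri_q sc (b 2 / 2)) b (rkX z) (sc.p (b 2 / 2 + 1)) (sc.E (b 2 / 2)) := by
  have e1 : rkX (b - ee 1) = rkX b - 3 := by
    rw [XTri_rk (XTri_s1 b), rkX]
    omega
  have e2 : rkX (b - ee 2) = rkX b - 4 := by
    rw [XTri_rk (XTri_s2 b), rkX]
    omega
  have e3 : rkX (b - ee 3) = rkX b - 2 := by
    rw [XTri_rk (XTri_s3 b), rkX]
    omega
  unfold Sch.mv at h
  split_ifs at h with h0 h1 h2 h3 h4 h5 h6 h7 h8 h9 h10 h11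
  · cases h
  · cases h
    exact Or.inl ⟨h0.1, h0.2.1, h0.2.2, by omega, Or.inl e2⟩
  · exact Or.inl ⟨h0.1, h0.2.1, h0.2.2, by omega, Or.inr (XTri_tr_dn h)⟩
  · cases h
  · cases h
    exact Or.inr ⟨h0, Or.inl ⟨if_pos h3, h4, Or.inl ⟨h6.1, h6.2, e1⟩⟩⟩
  · cases h
  · cases h
    exact Or.inr ⟨h0, Or.inl ⟨if_pos h3, h4, Or.inr ⟨by omega, Or.inl e2⟩⟩⟩
  · cases h
    exact Or.inr ⟨h0, Or.inl ⟨if_pos h3, h4, Or.inr ⟨by omega,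
      Or.inr (Or.inl ⟨h9.1, h9.2, e3⟩)⟩⟩⟩
  · exact Or.inr ⟨h0, Or.inl ⟨if_pos h3, h4, Or.inr ⟨by omega, Or.inr (Or.inr (XTri_tr_dn h))⟩⟩⟩
  · cases h
  · exact Or.inr ⟨h0, Or.inr (Or.inl ⟨if_pos h3, h4, XTri_cm_dn sc h⟩)⟩
  · exact Or.inr ⟨h0, Or.inr (Or.inr (Or.inl ⟨if_neg h3, h11.1, h11.2.1, h11.2.2,
      XTri_cm_dn sc h⟩))⟩
  · exact Or.inr ⟨h0, Or.inr (Or.inr (Or.inr ⟨if_neg h3, h11, XTri_sr_dn h⟩))⟩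

/-- what is used of the membership in the complex -/
def XTri_I (q q' : ℤ) (x : Cell 6) (c e : ℤ × ℤ) : Prop :=
  (x 3 = 0 ∧ x 4 = 0 ∧ x 5 = 0) ∨
    ((e.1 % 2 = 1 ∨ e.2 = 1) ∧ e.1 - c.1 + 3 * (e.2 - c.2) ≤ 3 ∧ (x 2 % 2 = 1 → q' = q) ∧
      ((q = 1 ∧ x 4 = 0 ∧ x 5 = 0 ∧
        (x 3 = 1 ∨ (x 3 = 2 ∧ (x 0 % 2 = 1 → x 1 = 0 ∨ x 2 % 2 = 0)))) ∨ (q = 0 ∧ x 3 ≤ 2)))

theorem XTri_lv {t : ℤ} (h : sc.Lv t) :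
    ((sc.E (t / 2)).1 % 2 = 1 ∨ (sc.E (t / 2)).2 = 1) ∧
      (sc.E (t / 2)).1 - (sc.p (t / 2 + 1)).1 + 3 * ((sc.E (t / 2)).2 - (sc.p (t / 2 + 1)).2) ≤ 3 ∧
      (t % 2 = 1 → XTri_q sc (t / 2 + 1) = XTri_q sc (t / 2)) := by
  obtain ⟨h0, h1, h2⟩ := h
  have h3 : 0 ≤ t / 2 := by omega
  have h4 : t / 2 < sc.N := by omega
  obtain ⟨-, ⟨-, -, -, h5⟩, h6⟩ := sc.step_cases h3 h4
  refine ⟨by omega, by omega, fun h7 => ?_⟩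
  have h8 := sc.gid_succ _ h3 h4 (h2.resolve_left (by omega))
  exact if_congr (by rw [Sch.Rel, Sch.Rel, h8]) rfl rfl

theorem XTri_in {x : Cell 6} (h : sc.InX x) : XTri_I (XTri_q sc (x 2 / 2))
    (XTri_q sc (x 2 / 2 + 1)) x (sc.p (x 2 / 2 + 1)) (sc.E (x 2 / 2)) := by
  rcases h with h | h | h | h
  · exact Or.inl h.2.2.2
  · obtain ⟨h1, h2, h3⟩ := XTri_lv sc h.1.1
    exact Or.inr ⟨h1, h2, h3, Or.inl ⟨if_pos h.2.1, h.2.2.2.1, h.2.2.2.2, Or.inl h.2.2.1⟩⟩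
  · obtain ⟨h1, h2, h3⟩ := XTri_lv sc h.1
    obtain ⟨-, h4, h5, h6, h7, h8⟩ := h
    refine Or.inr ⟨h1, h2, h3, Or.inl ⟨if_pos h4, h6, h7, Or.inr ⟨h5, fun h9 => ?_⟩⟩⟩
    exact h8.imp (fun h => h.2.2.2.2 h9) fun h => h.1
  · obtain ⟨h1, h2, h3⟩ := XTri_lv sc h.1.1
    exact Or.inr ⟨h1, h2, h3, Or.inr ⟨if_neg h.2.1, h.2.2.2.1⟩⟩

theorem XTri_sameA {q q' : ℤ} {x y b : Cell 6} {r : ℤ} {c e : ℤ × ℤ} (hx : XTri_I q q' x c e)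
    (hb : XTri_I q q' b c e) (hu : XTri_U q x y c e) (hd : XTri_D q b r c e) (h4 : b ≠ y)
    (h : (x 0 % 2 = 1 ∧ XTri_Cd b (x 0 + 1) (x 1) (x 2) (x 3) (x 4) (x 5)) ∨
      (x 1 % 2 = 1 ∧ XTri_Cd b (x 0) (x 1 + 1) (x 2) (x 3) (x 4) (x 5)) ∨
      (x 3 % 2 = 1 ∧ XTri_Cd b (x 0) (x 1) (x 2) (x 3 + 1) (x 4) (x 5))) : r < rkX x := by
  have h5 := XTri_ne h4
  dsimp only [XTri_I, XTri_U, XTri_D, XTri_TrU, XTri_TrD, XTri_CmU, XTri_CmD, XTri_SrU, XTri_SrD,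
    XTri_Cd, rkX] at hx hb hu hd h ⊢
  generalize b 0 = b0, b 1 = b1, b 2 = b2, b 3 = b3, b 4 = b4, b 5 = b5 at hb hd h h5
  clear h4
  rcases h with ⟨h, rfl, rfl, rfl, rfl, rfl, rfl⟩ | ⟨h, rfl, rfl, rfl, rfl, rfl, rfl⟩ |
    ⟨h, rfl, rfl, rfl, rfl, rfl, rfl⟩ <;>
  rcases hu with ⟨u3, u4, u5, hu | ⟨u2, hu | hu⟩⟩ |
    ⟨u0, ⟨uq, u3, hu | hu | ⟨u2, hu | hu⟩⟩ | ⟨uq, u3, hu | hu | hu⟩ | ⟨uq, u3, u4, u5, hu | hu⟩ |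
      ⟨uq, u3, hu | hu | hu⟩⟩ <;> lia

theorem XTri_sameB {q q' : ℤ} {x y b : Cell 6} {r : ℤ} {c e : ℤ × ℤ} (hx : XTri_I q q' x c e)
    (hb : XTri_I q q' b c e) (hu : XTri_U q x y c e) (hd : XTri_D q b r c e) (h4 : b ≠ y)
    (h : (x 4 % 2 = 1 ∧ XTri_Cd b (x 0) (x 1) (x 2) (x 3) (x 4 + 1) (x 5)) ∨
      (x 5 % 2 = 1 ∧ XTri_Cd b (x 0) (x 1) (x 2) (x 3) (x 4) (x 5 + 1)) ∨
      (x 2 % 2 = 1 ∧ XTri_Cd b (x 0) (x 1) (x 2 - 1) (x 3) (x 4) (x 5))) : r < rkX x := by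
  have h5 := XTri_ne h4
  dsimp only [XTri_I, XTri_U, XTri_D, XTri_TrU, XTri_TrD, XTri_CmU, XTri_CmD, XTri_SrU, XTri_SrD,
    XTri_Cd, rkX] at hx hb hu hd h ⊢
  generalize b 0 = b0, b 1 = b1, b 2 = b2, b 3 = b3, b 4 = b4, b 5 = b5 at hb hd h h5
  clear h4
  rcases h with ⟨h, rfl, rfl, rfl, rfl, rfl, rfl⟩ | ⟨h, rfl, rfl, rfl, rfl, rfl, rfl⟩ |
    ⟨h, rfl, rfl, rfl, rfl, rfl, rfl⟩ <;>
  rcases hu with ⟨u3, u4, u5, hu | ⟨u2, hu | hu⟩⟩ |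
    ⟨u0, ⟨uq, u3, hu | hu | ⟨u2, hu | hu⟩⟩ | ⟨uq, u3, hu | hu | hu⟩ | ⟨uq, u3, u4, u5, hu | hu⟩ |
      ⟨uq, u3, hu | hu | hu⟩⟩ <;> lia

theorem XTri_sameC {q q' : ℤ} {x y b : Cell 6} {r : ℤ} {c e : ℤ × ℤ} (hx : XTri_I q q' x c e)
    (hb : XTri_I q q' b c e) (hu : XTri_U q x y c e) (hd : XTri_D q b r c e) (h4 : b ≠ y)
    (h : (x 0 % 2 = 1 ∧ XTri_Cd b (x 0 - 1) (x 1) (x 2) (x 3) (x 4) (x 5)) ∨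
      (x 1 % 2 = 1 ∧ XTri_Cd b (x 0) (x 1 - 1) (x 2) (x 3) (x 4) (x 5)) ∨
      (x 3 % 2 = 1 ∧ XTri_Cd b (x 0) (x 1) (x 2) (x 3 - 1) (x 4) (x 5))) : r < rkX x := by
  have h5 := XTri_ne h4
  dsimp only [XTri_I, XTri_U, XTri_D, XTri_TrU, XTri_TrD, XTri_CmU, XTri_CmD, XTri_SrU, XTri_SrD,
    XTri_Cd, rkX] at hx hb hu hd h ⊢
  generalize b 0 = b0, b 1 = b1, b 2 = b2, b 3 = b3, b 4 = b4, b 5 = b5 at hb hd h h5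
  clear h4
  rcases h with ⟨h, rfl, rfl, rfl, rfl, rfl, rfl⟩ | ⟨h, rfl, rfl, rfl, rfl, rfl, rfl⟩ |
    ⟨h, rfl, rfl, rfl, rfl, rfl, rfl⟩ <;>
  rcases hu with ⟨u3, u4, u5, hu | ⟨u2, hu | hu⟩⟩ |
    ⟨u0, ⟨uq, u3, hu | hu | ⟨u2, hu | hu⟩⟩ | ⟨uq, u3, hu | hu | hu⟩ | ⟨uq, u3, u4, u5, hu | hu⟩ |
      ⟨uq, u3, hu | hu | hu⟩⟩ <;> lia

theorem XTri_sameD {q q' : ℤ} {x y b : Cell 6} {r : ℤ} {c e : ℤ × ℤ} (hx : XTri_I q q' x c e)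
    (hb : XTri_I q q' b c e) (hu : XTri_U q x y c e) (hd : XTri_D q b r c e) (h4 : b ≠ y)
    (h : (x 4 % 2 = 1 ∧ XTri_Cd b (x 0) (x 1) (x 2) (x 3) (x 4 - 1) (x 5)) ∨
      (x 5 % 2 = 1 ∧ XTri_Cd b (x 0) (x 1) (x 2) (x 3) (x 4) (x 5 - 1))) : r < rkX x := by
  have h5 := XTri_ne h4
  dsimp only [XTri_I, XTri_U, XTri_D, XTri_TrU, XTri_TrD, XTri_CmU, XTri_CmD, XTri_SrU, XTri_SrD,
    XTri_Cd, rkX] at hx hb hu hd h ⊢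
  generalize b 0 = b0, b 1 = b1, b 2 = b2, b 3 = b3, b 4 = b4, b 5 = b5 at hb hd h h5
  clear h4
  rcases h with ⟨h, rfl, rfl, rfl, rfl, rfl, rfl⟩ | ⟨h, rfl, rfl, rfl, rfl, rfl, rfl⟩ <;>
  rcases hu with ⟨u3, u4, u5, hu | ⟨u2, hu | hu⟩⟩ |
    ⟨u0, ⟨uq, u3, hu | hu | ⟨u2, hu | hu⟩⟩ | ⟨uq, u3, hu | hu | hu⟩ | ⟨uq, u3, u4, u5, hu | hu⟩ |
      ⟨uq, u3, hu | hu | hu⟩⟩ <;> lia

theorem XTri_next {q q' : ℤ} {x y b : Cell 6} {r : ℤ} {c e c' e' : ℤ × ℤ}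
    (hx : XTri_I q q' x c e) (hu : XTri_U q x y c e) (hd : XTri_D q' b r c' e') (h4 : b ≠ y)
    (h2 : x 2 % 2 = 1) (h : XTri_Cd b (x 0) (x 1) (x 2 + 1) (x 3) (x 4) (x 5)) : False := by
  have h5 := XTri_ne h4
  dsimp only [XTri_I, XTri_U, XTri_D, XTri_TrU, XTri_TrD, XTri_CmU, XTri_CmD, XTri_SrU, XTri_SrD,
    XTri_Cd, rkX] at hx hu hd h
  rcases hu with ⟨u3, u4, u5, hu | ⟨u2, hu | hu⟩⟩ |
    ⟨u0, ⟨uq, u3, hu | hu | ⟨u2, hu | hu⟩⟩ | ⟨uq, u3, hu | hu | hu⟩ | ⟨uq, u3, u4, u5, hu | hu⟩ |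
      ⟨uq, u3, hu | hu | hu⟩⟩ <;> lia

theorem Sch.mv_tri {x y b z : Cell 6} (hx : sc.InX x) (hb : sc.InX b)
    (h1 : sc.mv x = some (true, y)) (h2 : sc.mv b = some (false, z)) (h3 : Fc b x) (h4 : b ≠ y) :
    rkX z < rkX x := by
  have ix := XTri_in sc hx
  have ib := XTri_in sc hb
  have hu := XTri_up sc h1
  have hd := XTri_dn sc h2
  by_cases hs : b 2 / 2 = x 2 / 2
  · rw [hs] at ib hd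
    obtain ⟨i, hi, rfl | rfl⟩ := h3 <;> fin_cases i
    · exact XTri_sameA ix ib hu hd h4 (.inl ⟨hi, XTri_a0 x⟩)
    · exact XTri_sameA ix ib hu hd h4 (.inr (.inl ⟨hi, XTri_a1 x⟩))
    · have h5 : (x + ee 2 : Cell 6) 2 = x 2 + 1 := (XTri_a2 x).2.2.1
      have h6 : x 2 % 2 = 1 := hi
      have h7 : (x + ee 2 : Cell 6) 2 / 2 = x 2 / 2 := hs
      omega
    · exact XTri_sameA ix ib hu hd h4 (.inr (.inr ⟨hi, XTri_a3 x⟩))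
    · exact XTri_sameB ix ib hu hd h4 (.inl ⟨hi, XTri_a4 x⟩)
    · exact XTri_sameB ix ib hu hd h4 (.inr (.inl ⟨hi, XTri_a5 x⟩))
    · exact XTri_sameC ix ib hu hd h4 (.inl ⟨hi, XTri_s0 x⟩)
    · exact XTri_sameC ix ib hu hd h4 (.inr (.inl ⟨hi, XTri_s1 x⟩))
    · exact XTri_sameB ix ib hu hd h4 (.inr (.inr ⟨hi, XTri_s2 x⟩))
    · exact XTri_sameC ix ib hu hd h4 (.inr (.inr ⟨hi, XTri_s3 x⟩))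
    · exact XTri_sameD ix ib hu hd h4 (.inl ⟨hi, XTri_s4 x⟩)
    · exact XTri_sameD ix ib hu hd h4 (.inr ⟨hi, XTri_s5 x⟩)
  · have key : x 2 % 2 = 1 ∧ XTri_Cd b (x 0) (x 1) (x 2 + 1) (x 3) (x 4) (x 5) := by
      obtain ⟨i, hi, rfl | rfl⟩ := h3 <;> fin_cases i
      · exact absurd (congrArg (· / 2) (XTri_a0 x).2.2.1) hs
      · exact absurd (congrArg (· / 2) (XTri_a1 x).2.2.1) hs
      · exact ⟨hi, XTri_a2 x⟩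
      · exact absurd (congrArg (· / 2) (XTri_a3 x).2.2.1) hs
      · exact absurd (congrArg (· / 2) (XTri_a4 x).2.2.1) hs
      · exact absurd (congrArg (· / 2) (XTri_a5 x).2.2.1) hs
      · exact absurd (congrArg (· / 2) (XTri_s0 x).2.2.1) hs
      · exact absurd (congrArg (· / 2) (XTri_s1 x).2.2.1) hs
      · have h5 : (x - ee 2 : Cell 6) 2 = x 2 - 1 := (XTri_s2 x).2.2.1
        have h6 : x 2 % 2 = 1 := hi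
        have h7 : ¬ (x - ee 2 : Cell 6) 2 / 2 = x 2 / 2 := hs
        omega
      · exact absurd (congrArg (· / 2) (XTri_s3 x).2.2.1) hs
      · exact absurd (congrArg (· / 2) (XTri_s4 x).2.2.1) hs
      · exact absurd (congrArg (· / 2) (XTri_s5 x).2.2.1) hs
    have h5 : b 2 / 2 = x 2 / 2 + 1 := by
      have h6 := key.2.2.2.1
      have h7 := key.1
      omega
    rw [h5] at hd
    exact (XTri_next ix hu hd h4 key.1 key.2).elim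

end Pool.Agent.Work.MP_735653_gt
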