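import Pool.Agent.Work.MP_735653_gt.XSch
import Pool.Agent.Work.MP_735653_gt.XInv
import Pool.Agent.Work.MP_735653_gt.XTri
import Pool.Agent.Work.MP_735653_gt.XCr
import Pool.Agent.Work.MP_735653_gt.XRel
import Pool.Agent.Work.MP_735653_gt.XCube
import Pool.Agent.Work.MP_735653_gt.PMs
import Pool.Agent.Work.MP_735653_gt.PMh
import Pool.Agent.Work.MP_735653_gt.EtoP
import Pool.Agent.Work.MP_735653_gt.PtoE
import Pool.Agent.Work.MP_735653_gt.Resize

/-! A lattice complex of codimension at least three that models the small complex. -/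

namespace Pool.Agent.Work.MP_735653_gt

variable {G S Rl C : Type} [Group G] {wd : Rl ⊕ C → FreeGroup S}

/-- the matching of a schedule -/
noncomputable def Sch.lm (sc : Sch wd) : LM sc.K where
  up x := ∃ y, sc.mv x = some (true, y)
  dn x := ∃ y, sc.mv x = some (false, y)
  σ x := ((sc.mv x).map Prod.snd).getD x
  ρ := rkX
  up_σ a ha := by
    rintro ⟨y, h⟩
    obtain ⟨h1, h2, h3⟩ := sc.mv_up (sc.mem_K.1 ha) h
    simp only [h, Option.map_some, Option.getD_some, h2]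
    exact ⟨sc.mem_K.2 h1, ⟨_, rfl⟩, trivial, h3⟩
  dn_σ a ha := by
    rintro ⟨y, h⟩
    obtain ⟨h1, h2⟩ := sc.mv_dn (sc.mem_K.1 ha) h
    simp only [h, Option.map_some, Option.getD_some, h2]
    exact ⟨sc.mem_K.2 h1, ⟨_, rfl⟩, trivial⟩
  disj a _ := by
    rintro ⟨y, h⟩ ⟨z, h'⟩
    rw [h] at h'
    simp at h'
  tri a ha b hb := by
    rintro ⟨y, h⟩ ⟨z, h'⟩ h3 h4
    simp only [h, h', Option.map_some, Option.getD_some] at h4 ⊢
    exact sc.mv_tri (sc.mem_K.1 ha) (sc.mem_K.1 hb) h h' h3 h4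

/-- the model of a schedule -/
noncomputable def Sch.pm (sc : Sch wd) : PM sc.K wd where
  m := sc.lm
  w := sc.w
  cr := sc.cr
  top := sc.top
  uw := sc.uw
  dim_le := sc.dim_le
  cr_mem j := sc.mem_K.2 (sc.cr_mem j)
  cr_dim := sc.cr_dim
  cr_inj := sc.cr_inj
  crit a ha := by
    rw [← sc.crit (sc.mem_K.1 ha)]
    change (¬ (∃ y, sc.mv a = some (true, y)) ∧ ¬ ∃ y, sc.mv a = some (false, y)) ↔ _
    rcases sc.mv a with _ | ⟨_ | _, y⟩ <;> simp
  up_edge _ _ hv h := fun ⟨_, h1⟩ => sc.up_edge hv (sc.mem_K.1 h) h1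
  cr_edge _ _ _ hv h := sc.cr_edge hv h
  rel_one _ _ _ hv hij h h1 := sc.rel_one hv hij (sc.mem_K.1 h) h1
  rel_cr _ _ _ _ hv hij h := sc.rel_cr hv hij h
  top_dim a ha c h := by
    obtain ⟨h1, h2, h3⟩ := sc.top_dim (sc.mem_K.1 ha) h
    exact ⟨h1, fun ⟨y, hy⟩ => h2 y hy, h3⟩
  top_cr := sc.top_cr
  uw_cr := sc.uw_cr
  cube_rel _ ha _ k := sc.cube_rel (sc.mem_K.1 ha) k
  cube _ ha h3 c := sc.cube (sc.mem_K.1 ha) h3 c

theorem exists_lattice [Fintype S] [Fintype Rl] [Fintype C] [Nonempty Rl]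
    [DecidableEq (IR S Rl C)] {γ : S → G} {fx : FreeGroup S → S → ZG G} (hf : IsFox γ fx)
    (h : Pres γ fun j => wd (.inl j)) (D : ℕ) (hD : 6 ≤ D ∨ (5 ≤ D ∧ IsEmpty C)) :
    ∃ X : LC D G, (∀ a ∈ X.K, dim a + 3 ≤ D) ∧ SCp X ∧ Conn X ∧
      HE (dimS X.K) (bdS X.μ X.K) dR (AR γ fx wd) := by
  obtain ⟨sc⟩ := exists_sch wd
  obtain ⟨μ, h1, h2⟩ := exists_coc sc.down (sc.pm.ecoc h)
  let X : LC 6 G := ⟨sc.K, μ, sc.down, h1⟩
  have hμ : ∀ v i, Vtx v → v + ee i ∈ X.K → mue X.μ v i = FreeGroup.lift γ (sc.pm.w v i) := by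
    intro v i hv hm
    have hi : (v + ee i) i % 2 = 1 := by
      have := hv i
      simp only [ee, Pi.add_apply, Pi.single_eq_same]
      omega
    have hb : bot (v + ee i) = v := by
      funext j
      have := hv j
      by_cases hj : j = i
      · subst hj
        simp only [bot, ee, Pi.add_apply, Pi.single_eq_same]
        omega
      · simp only [bot, ee, Pi.add_apply, Pi.single_eq_of_ne hj]
        omega
    obtain ⟨h3, h4⟩ := h2 _ hm i hi
    rw [add_sub_cancel_right] at h3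
    rw [add_assoc, ← two_nsmul, hb] at h4
    change (μ _ _)⁻¹ * μ _ _ = _
    rw [h3, h4, inv_one, one_mul]
  obtain ⟨X', e1, e2, e3, e4⟩ := X.resize D fun a ha i hi => by
    rcases hD with hD | ⟨hD, hC⟩
    · omega
    · have : i = 5 := Fin.ext (by omega)
      rw [this]
      exact (sc.dim_le_two a ha).2.2
  refine ⟨X', fun a' ha' => ?_, e2 (PM.sce (X := X) sc.pm h hμ).scp,
    e3 (PM.connE (X := X) sc.pm h hμ).conn, e4.trans (PM.he (X := X) sc.pm hf h.rel h2)⟩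
  obtain ⟨a, ha, e⟩ := e1 a' ha'
  rcases hD with hD | ⟨hD, hC⟩
  · have := sc.dim_le a ha
    omega
  · have := (sc.dim_le_two a ha).1
    omega

end Pool.Agent.Work.MP_735653_gt
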