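import Pool.Agent.Work.MP_9d1ffa_al.TreeNil
import Pool.Agent.Work.MP_9d1ffa_al.Walls
import Pool.Agent.Work.MP_9d1ffa_al.Triv
import Pool.Agent.Work.MP_735653_gt.Defs
import Pool.Agent.Work.MP_735653_gt.KMV
import Pool.Agent.Work.MP_9d1ffa_al.Cyc
import Pool.Agent.Work.MP_735653_gt.GDefs
import Pool.Agent.Work.MP_735653_gt.HEB
import Pool.Agent.Work.MP_735653_gt.CovC
import Pool.Agent.Work.MP_735653_gt.TDefs
import Pool.Agent.Work.MP_735653_gt.Subd
import Pool.Agent.Work.MP_735653_gt.CovB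
import Pool.Agent.Work.MP_735653_gt.LCB
import Pool.Agent.Work.MP_735653_gt.XOut
import Pool.Agent.Work.MP_735653_gt.TorC
import Pool.Agent.Work.MP_735653_gt.WSC
import Pool.Agent.Work.MP_735653_gt.CovSC
import Pool.Agent.Work.MP_735653_gt.Level
import Pool.Agent.Work.MP_735653_gt.Homeo
import Pool.Agent.Work.MP_735653_gt.Statement

-- merged part: Pool.Agent.Work.MP_735653_gt.KCay
section
/-! The Cayley tree of a free group; the Whitehead group of a free group. -/

namespace Pool.Agent.Work.MP_735653_gt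

open Pool.Agent.Work.MP_9d1ffa_al Pool.Agent.Work.MP_904812_al

theorem KCay_inv_of {α : Type} (t : α) :
    (FreeGroup.of t)⁻¹ = FreeGroup.mk [(t, false)] := rfl

theorem KCay_word {α : Type} [DecidableEq α] (t : α) (u : FreeGroup α) :
    ((FreeGroup.of t)⁻¹ * u).toWord = (t, false) :: u.toWord ∨
      u.toWord = (t, true) :: ((FreeGroup.of t)⁻¹ * u).toWord := by
  have h : ((FreeGroup.of t)⁻¹ * u).toWord = FreeGroup.reduce ((t, false) :: u.toWord) := by
    rw [FreeGroup.toWord_mul, KCay_inv_of, FreeGroup.toWord_mk, FreeGroup.reduce_singleton]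
    rfl
  rw [h, FreeGroup.reduce.cons, FreeGroup.reduce_toWord]
  rcases hu : u.toWord with _ | ⟨⟨s, b⟩, L⟩
  · exact Or.inl rfl
  · by_cases c : t = s ∧ false = !b
    · right
      obtain ⟨rfl, hb⟩ := c
      cases b
      · simp at hb
      · simp
    · left
      simp only [c, if_false]

theorem KCay_last {α : Type} [DecidableEq α] (s t : α) (u : FreeGroup α) :
    (u.toWord.getLast? ≠ some (s, false) ↔
      ((FreeGroup.of t)⁻¹ * u).toWord.getLast? ≠ some (s, false)) ∨ (u = 1 ∧ t = s) := by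
  rcases KCay_word t u with h | h
  · rw [h]
    rcases hu : u.toWord with _ | ⟨a, L⟩
    · by_cases c : t = s
      · exact Or.inr ⟨FreeGroup.toWord_eq_nil_iff.1 hu, c⟩
      · left
        simp [c]
    · left
      rw [List.getLast?_cons_cons]
  · rw [h]
    rcases hu : ((FreeGroup.of t)⁻¹ * u).toWord with _ | ⟨a, L⟩
    · left
      simp
    · left
      rw [List.getLast?_cons_cons]

theorem KCay_wall {α : Type} [DecidableEq α] (x : FreeGroup α) (s : α) :
    ∃ S : FreeGroup α → Prop, S x ∧ ¬ S (x * FreeGroup.of s) ∧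
      ∀ (a : FreeGroup α) (t : α), (S a ↔ S (a * FreeGroup.of t)) ∨ (a = x ∧ t = s) := by
  refine ⟨fun z => (z⁻¹ * x).toWord.getLast? ≠ some (s, false), by simp, ?_, fun a t => ?_⟩
  · have e : (x * FreeGroup.of s)⁻¹ * x = FreeGroup.mk [(s, false)] := by
      rw [← KCay_inv_of]
      group
    simp only [e, FreeGroup.toWord_mk, FreeGroup.reduce_singleton]
    simp
  · have e : (a * FreeGroup.of t)⁻¹ * x = (FreeGroup.of t)⁻¹ * (a⁻¹ * x) := by group
    simp only [e]
    rcases KCay_last s t (a⁻¹ * x) with h | ⟨h, c⟩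
    · exact Or.inl h
    · exact Or.inr ⟨(inv_mul_eq_one.1 h), c⟩

theorem KCay_pred {α : Type} [DecidableEq α] (u : FreeGroup α) (n : ℕ)
    (h : FreeGroup.norm u = n + 1) :
    ∃ (v : FreeGroup α) (t : α), FreeGroup.norm v = n ∧
      (u = FreeGroup.of t * v ∨ u = (FreeGroup.of t)⁻¹ * v) := by
  rcases hu : u.toWord with _ | ⟨⟨t, b⟩, L⟩
  · simp [FreeGroup.norm, hu] at h
  · have hL : L.length = n := by simpa [FreeGroup.norm, hu] using h
    have e : u = FreeGroup.mk [(t, b)] * FreeGroup.mk L := by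
      rw [FreeGroup.mul_mk, List.singleton_append, ← hu, FreeGroup.mk_toWord]
    have h1 : FreeGroup.norm (FreeGroup.mk L) ≤ n := hL ▸ FreeGroup.norm_mk_le
    have h2 : FreeGroup.norm (FreeGroup.mk [(t, b)]) ≤ 1 := FreeGroup.norm_mk_le
    have h3 := FreeGroup.norm_mul_le (FreeGroup.mk [(t, b)]) (FreeGroup.mk L)
    rw [← e] at h3
    refine ⟨FreeGroup.mk L, t, by omega, ?_⟩
    cases b
    · exact Or.inr e
    · exact Or.inl e

theorem cay_tr {α : Type} [DecidableEq α] :
    Tr fun x y : FreeGroup α => ((FreeGroup.norm (x⁻¹ * y) : ℕ) : ℤ) := by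
  have sy : ∀ x y : FreeGroup α, FreeGroup.norm (x⁻¹ * y) = FreeGroup.norm (y⁻¹ * x) := by
    intro x y
    rw [← FreeGroup.norm_inv_eq, mul_inv_rev, inv_inv]
  refine Walls_tr (fun x y => ∃ s, y = x * FreeGroup.of s ∨ x = y * FreeGroup.of s)
    (fun x y => FreeGroup.norm (x⁻¹ * y)) (fun x => by simp)
    (fun x y h => inv_mul_eq_one.1 (FreeGroup.norm_eq_zero.1 h)) sy (fun x y z => ?_) ?_ ?_ ?_ ?_
  · have := FreeGroup.norm_mul_le (x⁻¹ * y) (y⁻¹ * z)
    rwa [show x⁻¹ * y * (y⁻¹ * z) = x⁻¹ * z by group] at this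
  · rintro x y ⟨s, rfl | rfl⟩
    · simp
    · rw [sy]
      simp
  · rintro x y ⟨s, h | h⟩ rfl
    · simp at h
    · simp at h
  · intro x y n h
    rw [sy] at h
    obtain ⟨v, t, hv, e⟩ := KCay_pred _ n h
    refine ⟨x * v⁻¹, ⟨t, ?_⟩, by simpa using hv⟩
    rcases e with e | e
    · right
      rw [inv_mul_eq_iff_eq_mul.1 e]
      group
    · left
      rw [inv_mul_eq_iff_eq_mul.1 e]
      group
  · rintro x y ⟨s, rfl | rfl⟩
    · obtain ⟨S, a1, a2, a3⟩ := KCay_wall x s
      refine ⟨S, a1, a2, ?_⟩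
      rintro a b ⟨t, rfl | rfl⟩
      · rcases a3 a t with h | ⟨rfl, rfl⟩
        · exact Or.inl h
        · exact Or.inr (Or.inl ⟨rfl, rfl⟩)
      · rcases a3 b t with h | ⟨rfl, rfl⟩
        · exact Or.inl h.symm
        · exact Or.inr (Or.inr ⟨rfl, rfl⟩)
    · obtain ⟨S, a1, a2, a3⟩ := KCay_wall y s
      refine ⟨fun z => ¬ S z, a2, not_not.2 a1, ?_⟩
      rintro a b ⟨t, rfl | rfl⟩
      · rcases a3 a t with h | ⟨rfl, rfl⟩
        · exact Or.inl (not_congr h)
        · exact Or.inr (Or.inr ⟨rfl, rfl⟩)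
      · rcases a3 b t with h | ⟨rfl, rfl⟩
        · exact Or.inl (not_congr h.symm)
        · exact Or.inr (Or.inl ⟨rfl, rfl⟩)

theorem KCay_stab {G : Type} [Group G] (σ : G × G) :
    Subsingleton (MulAction.stabilizer G σ) := by
  refine ⟨fun a b => Subtype.ext ?_⟩
  have ha : (a : G) * σ.1 = σ.1 := congrArg Prod.fst (MulAction.mem_stabilizer_iff.1 a.2)
  have hb : (b : G) * σ.1 = σ.1 := congrArg Prod.fst (MulAction.mem_stabilizer_iff.1 b.2)
  exact mul_right_cancel (ha.trans hb.symm)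

theorem whGen_bot {α : Type} (hK : ∀ (H : Type) [Group H] [Subsingleton H], K0Zero H ∧ RC H) :
    WhGen ({⊥} : Set (Subgroup (FreeGroup α))) := by
  classical
  refine tree_main (V := FreeGroup α) cay_tr 1 (fun g x y => ?_) (fun g x y h e1 e2 => ?_)
    (fun x y _ => ?_) (fun v => ⟨⊥, rfl, fun g hg => ?_⟩) (fun f _ => ⟨0, ?_⟩)
    (fun σ s _ _ h => absurd ?_ h)
  · simp only [smul_eq_mul]
    rw [show (g * x)⁻¹ * (g * y) = x⁻¹ * y by group]
  · simp only [smul_eq_mul] at e1 e2
    subst e1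
    have h2 : g ^ 2 = 1 := by
      rw [sq]
      exact mul_right_cancel (b := x) (by rw [mul_assoc, e2, one_mul])
    have h3 : g = 1 := (pow_eq_one_iff_left (two_ne_zero)).1 h2
    subst h3
    simp at h
  · have := KCay_stab (x, y)
    exact (hK _).1
  · have : g * v = v := MulAction.mem_stabilizer_iff.1 hg
    exact Subgroup.mem_bot.2 (by simpa using this)
  · have := KCay_stab (f 0)
    exact (hK _).2
  · have := KCay_stab σ
    exact (hK _).2

theorem KCay_map {G : Type} [Group G] (H : Subgroup G) {ι : Type} [Fintype ι] [DecidableEq ι]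
    {B : Matrix ι ι (ZG H)} (hB : B ∈ Submonoid.closure (Gen (∅ : Set (Subgroup H)) ι)) :
    Triv (∅ : Set (Subgroup G)) (B.map (incl H)) := by
  induction hB using Submonoid.closure_induction with
  | mem A hA =>
    rcases hA with ⟨i, j, r, hij, rfl⟩ | ⟨g, ε, rfl⟩ | ⟨K, hK, _⟩
    · have e : (1 + Matrix.single i j r).map (incl H) = 1 + Matrix.single i j (incl H r) := by
        rw [Matrix.map_add _ (map_add _), Matrix.map_one _ (map_zero _) (map_one _),
          Matrix.map_single]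
      rw [e]
      exact triv_elem hij _
    · rw [Matrix.diagonal_map (map_zero _)]
      have := triv_sgn (F := (∅ : Set (Subgroup G))) (fun i => (g i : G)) ε
      simpa using this
    · exact absurd hK (Set.notMem_empty _)
  | one =>
    rw [Matrix.map_one _ (map_zero _) (map_one _)]
    exact triv_one
  | mul A B _ _ h1 h2 =>
    rw [Matrix.map_mul]
    exact h1.mul h2

theorem whGen_reduce {G : Type} [Group G] (H : Subgroup G) (h1 : WhGen ({H} : Set (Subgroup G)))
    (h2 : WhGen (∅ : Set (Subgroup H))) : WhGen (∅ : Set (Subgroup G)) := by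
  intro n A hA
  obtain ⟨m, hm⟩ := h1 n A hA
  refine (triv_block_iff (κ := Fin m)).1 ?_
  generalize Matrix.fromBlocks A 0 0 (1 : Matrix (Fin m) (Fin m) (ZG G)) = C at hm
  induction hm using Submonoid.closure_induction with
  | mem C hC =>
    rcases hC with ⟨i, j, r, hij, rfl⟩ | ⟨g, ε, rfl⟩ | ⟨K, hK, B, hB, rfl⟩
    · exact triv_elem hij _
    · exact triv_sgn g ε
    · obtain rfl : K = H := hK
      obtain ⟨k, hk⟩ := h2.triv hB
      have := KCay_map K hk
      rw [Matrix.fromBlocks_map, Matrix.map_zero _ (map_zero _), Matrix.map_zero _ (map_zero _),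
        Matrix.map_one _ (map_zero _) (map_one _)] at this
      exact triv_block_iff.1 this
  | one => exact triv_one
  | mul A B _ _ h1 h2 => exact h1.mul h2

end Pool.Agent.Work.MP_735653_gt
end

-- merged part: Pool.Agent.Work.MP_735653_gt.KTriv
section
/-! The trivial group, and invariance under isomorphisms of groups. -/

namespace Pool.Agent.Work.MP_735653_gt

open Pool.Agent.Work.MP_9d1ffa_al

section

variable {G : Type} [Group G] {F : Set (Subgroup G)} {ι : Type} [Fintype ι] [DecidableEq ι]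

/-- an integer matrix is trivial over the group ring -/
def KTriv_T (F : Set (Subgroup G)) (A : Matrix ι ι ℤ) : Prop :=
  Triv F (A.map (Int.castRingHom (ZG G)))

theorem KTriv_left {E A : Matrix ι ι ℤ} (hE : KTriv_T F E) (h : KTriv_T F (E * A)) :
    KTriv_T F A := by
  unfold KTriv_T at *
  rw [Matrix.map_mul] at h
  exact hE.of_mul_left h

theorem KTriv_mul {E A : Matrix ι ι ℤ} (hE : KTriv_T F E) (h : KTriv_T F A) :
    KTriv_T F (E * A) := by
  unfold KTriv_T at *
  rw [Matrix.map_mul]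
  exact hE.mul h

theorem KTriv_tri (h : ι → ℕ) (a : Matrix ι ι ℤ) (ha : ∀ i j, a i j ≠ 0 → h i < h j) :
    KTriv_T F (1 + a) := by
  unfold KTriv_T
  rw [Matrix.map_add _ (map_add _), Matrix.map_one _ (map_zero _) (map_one _)]
  refine triv_tri h _ fun i j hij => ha i j fun h0 => hij ?_
  rw [Matrix.map_apply, h0, map_zero]

theorem KTriv_elem {i j : ι} (hij : i ≠ j) (r : ℤ) :
    KTriv_T F (1 + Matrix.single i j r) := by
  refine KTriv_tri (fun k => if k = i then 0 else 1) _ fun a b hab => ?_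
  by_cases h : i = a ∧ j = b
  · obtain ⟨rfl, rfl⟩ := h
    simp [hij.symm]
  · exact absurd (by simp [Matrix.single, h]) hab

theorem KTriv_sgn (ε : ι → ℤˣ) : KTriv_T F (Matrix.diagonal fun i => (ε i : ℤ)) := by
  unfold KTriv_T
  rw [Matrix.diagonal_map (map_zero _)]
  have := triv_sgn (F := F) (fun _ : ι => (1 : G)) ε
  convert this using 3 with i
  rw [eq_intCast, MonoidAlgebra.intCast_def]
  rfl

theorem KTriv_elem_unit {i j : ι} (hij : i ≠ j) (r : ℤ) :
    IsUnit (1 + Matrix.single i j r : Matrix ι ι ℤ) := by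
  have key : ∀ r s : ℤ, r + s = 0 →
      (1 + Matrix.single i j r) * (1 + Matrix.single i j s) = (1 : Matrix ι ι ℤ) := by
    intro r s hrs
    rw [add_mul, mul_add, mul_add, one_mul, one_mul, mul_one,
      Matrix.single_mul_single_of_ne _ _ _ _ hij.symm, add_zero, add_assoc,
      ← Matrix.single_add, add_comm s, hrs, Matrix.single_zero, add_zero]
  exact isUnit_iff_exists.2 ⟨1 + Matrix.single i j (-r), key _ _ (add_neg_cancel r),
    key _ _ (neg_add_cancel r)⟩

theorem KTriv_elem_mul (i j : ι) (r : ℤ) (A : Matrix ι ι ℤ) (a b : ι) :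
    ((1 + Matrix.single i j r) * A) a b = A a b + if a = i then r * A j b else 0 := by
  rw [add_mul, one_mul, Matrix.add_apply]
  by_cases h : a = i
  · subst h
    rw [Matrix.single_mul_apply_same, if_pos rfl]
  · rw [Matrix.single_mul_apply_of_ne _ _ _ _ _ h, if_neg h]

/-- the matrix is the identity outside `S` -/
def KTriv_Out (S : Finset ι) (A : Matrix ι ι ℤ) : Prop :=
  ∀ a b, a ∉ S ∨ b ∉ S → A a b = (1 : Matrix ι ι ℤ) a b

theorem KTriv_out_elem {S : Finset ι} {A : Matrix ι ι ℤ} (hA : KTriv_Out S A) {i j : ι}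
    (hi : i ∈ S) (hj : j ∈ S) (r : ℤ) : KTriv_Out S ((1 + Matrix.single i j r) * A) := by
  intro a b hab
  rw [KTriv_elem_mul, hA a b hab]
  by_cases h : a = i
  · subst h
    have hb : b ∉ S := hab.resolve_left (not_not.2 hi)
    have hjb : j ≠ b := fun e => hb (e ▸ hj)
    rw [if_pos rfl, hA j b (Or.inr hb), Matrix.one_apply_ne hjb, mul_zero, add_zero]
  · rw [if_neg h, add_zero]

/-- the column is a standard basis vector -/
theorem KTriv_step1 {S : Finset ι} {k : ι}
    (ih : ∀ A : Matrix ι ι ℤ, IsUnit A → KTriv_Out S A → KTriv_T F A)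
    (A : Matrix ι ι ℤ) (hu : IsUnit A) (ho : KTriv_Out (insert k S) A)
    (hc : ∀ i, A i k = (1 : Matrix ι ι ℤ) i k) : KTriv_T F A := by
  let A' : Matrix ι ι ℤ := Matrix.of fun a b => if a = k then (1 : Matrix ι ι ℤ) a b else A a b
  let N : Matrix ι ι ℤ := Matrix.of fun a b => if a = k ∧ b ≠ k then A k b else 0
  have hAN : A' * N = N := by
    ext a b
    rw [Matrix.mul_apply, Finset.sum_eq_single k]
    · by_cases ha : a = k
      · subst ha
        simp [A', N]
      · simp [A', N, ha, hc a, Matrix.one_apply_ne ha]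
    · intro c _ hck
      simp [N, hck]
    · simp
  have e : A = A' * (1 + N) := by
    rw [mul_add, mul_one, hAN]
    ext a b
    by_cases ha : a = k
    · subst ha
      by_cases hb : b = a
      · subst hb
        simp [A', N, hc b]
      · simp [A', N, hb, Matrix.one_apply_ne (Ne.symm hb)]
    · simp [A', N, ha]
  have hN : KTriv_T F (1 + N) := by
    refine KTriv_tri (fun c => if c = k then 0 else 1) _ fun a b hab => ?_
    by_cases h : a = k ∧ b ≠ k
    · simp [h.1, h.2]
    · exact absurd (by simp only [N, Matrix.of_apply, if_neg h]) hab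
  have hu' : IsUnit A' := by
    rw [Matrix.isUnit_iff_isUnit_det] at hu ⊢
    rw [e, Matrix.det_mul] at hu
    exact isUnit_of_mul_isUnit_left hu
  have ho' : KTriv_Out S A' := by
    intro a b hab
    by_cases ha : a = k
    · simp only [A', Matrix.of_apply, if_pos ha]
    · simp only [A', Matrix.of_apply, if_neg ha]
      by_cases hb : b = k
      · subst hb
        exact hc a
      · refine ho a b ?_
        simp only [Finset.mem_insert, ha, hb, false_or]
        exact hab
  rw [e]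
  exact KTriv_mul (ih A' hu' ho') hN

/-- the column is a multiple of the standard basis vector -/
theorem KTriv_step2 {S : Finset ι} {k : ι}
    (ih : ∀ A : Matrix ι ι ℤ, IsUnit A → KTriv_Out S A → KTriv_T F A)
    (A : Matrix ι ι ℤ) (hu : IsUnit A) (ho : KTriv_Out (insert k S) A)
    (hc : ∀ i, i ≠ k → A i k = 0) : KTriv_T F A := by
  obtain ⟨B, -, hB⟩ := isUnit_iff_exists.1 hu
  have h1 : B k k * A k k = 1 := by
    have := congrFun (congrFun hB k) k
    rw [Matrix.mul_apply, Finset.sum_eq_single k, Matrix.one_apply_eq] at this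
    · exact this
    · intro c _ hck
      rw [hc c hck, mul_zero]
    · simp
  let u : ℤˣ := ⟨B k k, A k k, h1, by rw [mul_comm, h1]⟩
  let ε : ι → ℤˣ := fun i => if i = k then u else 1
  refine KTriv_left (KTriv_sgn ε) (KTriv_step1 (k := k) ih _ ?_ ?_ ?_)
  · refine IsUnit.mul ?_ hu
    rw [Matrix.isUnit_iff_isUnit_det, Matrix.det_diagonal]
    exact IsUnit.prod_iff.2 fun i _ => (ε i).isUnit
  · intro a b hab
    rw [Matrix.diagonal_mul, ho a b hab]
    by_cases ha : a = k
    · subst ha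
      have hb : b ∉ insert a S := hab.resolve_left (not_not.2 (Finset.mem_insert_self _ _))
      have hab' : a ≠ b := fun e => hb (e ▸ Finset.mem_insert_self _ _)
      rw [Matrix.one_apply_ne hab', mul_zero]
    · simp [ε, ha]
  · intro i
    rw [Matrix.diagonal_mul]
    by_cases hi : i = k
    · subst hi
      simp [ε, u, h1]
    · rw [hc i hi, mul_zero, Matrix.one_apply_ne hi]

theorem KTriv_step3 {S : Finset ι} {k : ι}
    (ih : ∀ A : Matrix ι ι ℤ, IsUnit A → KTriv_Out S A → KTriv_T F A) (m : ℕ) :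
    ∀ A : Matrix ι ι ℤ, IsUnit A → KTriv_Out (insert k S) A →
      ∑ i, (A i k).natAbs = m → KTriv_T F A := by
  induction m using Nat.strong_induction_on with
  | _ m IH =>
  intro A hu ho hm
  have hk : k ∈ insert k S := Finset.mem_insert_self _ _
  have mem : ∀ i, A i k ≠ 0 → i ∈ insert k S := by
    intro i hi
    by_contra hn
    have hik : i ≠ k := fun e => hn (e ▸ hk)
    exact hi (by rw [ho i k (Or.inl hn), Matrix.one_apply_ne hik])
  by_cases h2 : ∃ i j, i ≠ j ∧ A j k ≠ 0 ∧ (A j k).natAbs ≤ (A i k).natAbs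
  · obtain ⟨i, j, hij, hj, hle⟩ := h2
    have hi : A i k ≠ 0 := by
      intro h0
      rw [h0] at hle
      exact hj (by omega)
    obtain ⟨r, hr⟩ : ∃ r : ℤ, (A i k + r * A j k).natAbs < (A i k).natAbs := by
      by_cases hs : 0 < A i k ↔ 0 < A j k
      · exact ⟨-1, by omega⟩
      · exact ⟨1, by omega⟩
    refine KTriv_left (KTriv_elem hij r) (IH _ ?_ _ ((KTriv_elem_unit hij r).mul hu)
      (KTriv_out_elem ho (mem i hi) (mem j hj) r) rfl)
    rw [← hm]
    refine Finset.sum_lt_sum (fun a _ => ?_) ⟨i, Finset.mem_univ _, ?_⟩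
    · rw [KTriv_elem_mul]
      by_cases ha : a = i
      · subst ha
        rw [if_pos rfl]
        exact hr.le
      · rw [if_neg ha, add_zero]
    · rw [KTriv_elem_mul, if_pos rfl]
      exact hr
  · by_cases h3 : ∀ i, i ≠ k → A i k = 0
    · exact KTriv_step2 (k := k) ih A hu ho h3
    · push Not at h2 h3
      obtain ⟨i, hik, hi⟩ := h3
      have h0 : ∀ j, j ≠ i → A j k = 0 := by
        intro j hji
        by_contra hj
        have a1 := h2 i j hji.symm hj
        have a2 := h2 j i hji hi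
        omega
      refine KTriv_left (KTriv_elem hik.symm 1) (KTriv_left (KTriv_elem hik (-1))
        (KTriv_step2 (k := k) ih _
          ((KTriv_elem_unit hik (-1)).mul ((KTriv_elem_unit hik.symm 1).mul hu))
          (KTriv_out_elem (KTriv_out_elem ho hk (mem i hi) 1) (mem i hi) hk (-1)) ?_))
      intro a hak
      rw [KTriv_elem_mul, KTriv_elem_mul, KTriv_elem_mul, if_neg hak, if_pos rfl,
        h0 k hik.symm]
      by_cases ha : a = i
      · subst ha
        rw [if_pos rfl]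
        ring
      · rw [if_neg ha, h0 a ha]
        ring

theorem KTriv_out (S : Finset ι) :
    ∀ A : Matrix ι ι ℤ, IsUnit A → KTriv_Out S A → KTriv_T F A := by
  induction S using Finset.induction_on with
  | empty =>
    intro A _ ho
    have : A = 1 := by
      ext a b
      exact ho a b (Or.inl (Finset.notMem_empty _))
    subst this
    unfold KTriv_T
    rw [Matrix.map_one _ (map_zero _) (map_one _)]
    exact triv_one
  | insert k S _ ih =>
    intro A hu ho
    exact KTriv_step3 ih _ A hu ho rfl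

theorem KTriv_int (A : Matrix ι ι ℤ) (hu : IsUnit A) :
    Triv F (A.map (Int.castRingHom (ZG G))) :=
  KTriv_out Finset.univ A hu fun a b h => by simp at h

end

theorem whGen_triv (H : Type) [Group H] [Subsingleton H] : WhGen (∅ : Set (Subgroup H)) := by
  intro n A hA
  let ψ : ZG H →+* ℤ := (MonoidAlgebra.lift ℤ ℤ H 1).toRingHom
  have hψ : (Int.castRingHom (ZG H)).comp ψ = RingHom.id _ := by
    refine MonoidAlgebra.ringHom_ext (fun r => ?_) (fun g => ?_)
    · simp [ψ, MonoidAlgebra.intCast_def]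
    · rw [Subsingleton.elim g 1]
      simp [ψ, MonoidAlgebra.one_def]
  have e : (A.map ψ).map (Int.castRingHom (ZG H)) = A := by
    ext a b : 1
    exact congrArg (fun f : ZG H →+* ZG H => f (A a b)) hψ
  have := KTriv_int (F := (∅ : Set (Subgroup H))) (A.map ψ) (hA.map ψ.mapMatrix)
  rwa [e] at this

theorem KTriv_map {G H ι : Type} [Group G] [Group H] [Fintype ι] [DecidableEq ι] (f : H →* G)
    {A : Matrix ι ι (ZG H)} (h : A ∈ Submonoid.closure (Gen (∅ : Set (Subgroup H)) ι)) :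
    A.map (MonoidAlgebra.mapDomainRingHom ℤ f) ∈
      Submonoid.closure (Gen (∅ : Set (Subgroup G)) ι) := by
  induction h using Submonoid.closure_induction with
  | one => rw [Matrix.map_one _ (map_zero _) (map_one _)]; exact one_mem _
  | mul A B _ _ hA hB => rw [Matrix.map_mul]; exact mul_mem hA hB
  | mem A hA =>
    refine Submonoid.subset_closure ?_
    rcases hA with ⟨i, j, r, hij, rfl⟩ | ⟨g, ε, rfl⟩ | ⟨K, hK, -⟩
    · refine Or.inl ⟨i, j, MonoidAlgebra.mapDomainRingHom ℤ f r, hij, ?_⟩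
      rw [Matrix.map_add _ (map_add _), Matrix.map_one _ (map_zero _) (map_one _),
        Matrix.map_single]
    · refine Or.inr (Or.inl ⟨fun i => f (g i), ε, ?_⟩)
      rw [Matrix.diagonal_map (map_zero _)]
      simp
    · exact absurd hK (Set.notMem_empty _)

theorem whGen_equiv {G H : Type} [Group G] [Group H] (e : G ≃* H)
    (h : WhGen (∅ : Set (Subgroup H))) : WhGen (∅ : Set (Subgroup G)) := by
  intro n A hA
  let φ : ZG G →+* ZG H := MonoidAlgebra.mapDomainRingHom ℤ e.toMonoidHom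
  let ψ : ZG H →+* ZG G := MonoidAlgebra.mapDomainRingHom ℤ e.symm.toMonoidHom
  have hψ : ψ.comp φ = RingHom.id _ := by
    refine MonoidAlgebra.ringHom_ext (fun r => ?_) (fun g => ?_)
    · simp [ψ, φ]
    · simp [ψ, φ]
  have e1 : (A.map φ).map ψ = A := by
    ext a b : 1
    exact congrArg (fun f : ZG G →+* ZG G => f (A a b)) hψ
  obtain ⟨m, hm⟩ := h n (A.map φ) (hA.map φ.mapMatrix)
  refine ⟨m, ?_⟩
  have := KTriv_map e.symm.toMonoidHom hm
  rw [Matrix.fromBlocks_map, Matrix.map_one _ (map_zero _) (map_one _),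
    Matrix.map_zero _ (map_zero _), Matrix.map_zero _ (map_zero _)] at this
  rwa [← e1]

end Pool.Agent.Work.MP_735653_gt
end

-- merged part: Pool.Agent.Work.MP_735653_gt.KFin
section
/-! The Whitehead group of a free-by-cyclic group vanishes. -/

namespace Pool.Agent.Work.MP_735653_gt

open Pool.Agent.Work.MP_9d1ffa_al in
theorem KFin_cap {G : Type} [Group G] (H : Subgroup G) [H.Normal] {S : Finset G}
    (hS : S.Nonempty) : CapT H S = H := by
  have h1 : ∀ g : G, H.map (MulAut.conj g).toMonoidHom = H := fun g => by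
    ext x
    constructor
    · rintro ⟨y, hy, rfl⟩
      exact Subgroup.Normal.conj_mem inferInstance y hy g
    · intro hx
      refine ⟨g⁻¹ * x * g⁻¹⁻¹, Subgroup.Normal.conj_mem inferInstance x hx g⁻¹, ?_⟩
      change g * (g⁻¹ * x * g⁻¹⁻¹) * g⁻¹ = x
      group
  obtain ⟨g, hg⟩ := hS
  refine le_antisymm ((iInf₂_le g hg).trans (h1 g).le) (le_iInf₂ fun g _ => (h1 g).ge)

open Pool.Agent.Work.MP_9d1ffa_al in
theorem KFin_zero {G : Type} [Group G] (h : WhGen (∅ : Set (Subgroup G))) : WhZero G := by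
  intro m A hA
  obtain ⟨k, hk⟩ := h m A hA
  refine ⟨k, Submonoid.closure_mono ?_ hk⟩
  rintro B (h1 | h1 | ⟨H, hH, -⟩)
  · exact Or.inl h1
  · exact Or.inr h1
  · exact absurd hH (Set.notMem_empty H)

open Pool.Agent.Work.MP_9d1ffa_al in
theorem whZero_cyc {G : Type} [Group G] (χ : G →* Multiplicative ℤ) (t : G)
    (ht : χ t = Multiplicative.ofAdd 1) {α : Type} [Fintype α] (e : χ.ker ≃* FreeGroup α) :
    WhZero G := by
  have hχ : Function.Surjective χ := fun z => ⟨t ^ z.toAdd, by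
    rw [map_zpow, ht, ← ofAdd_zsmul, smul_eq_mul, mul_one, ofAdd_toAdd]⟩
  obtain ⟨hK, hR⟩ := k0_rc_of_ff χ.ker (ff_free e)
  refine KFin_zero (whGen_reduce χ.ker ?_ (whGen_equiv e
    (whGen_reduce ⊥ (whGen_bot k0_rc_triv) (whGen_triv _))))
  refine cyc_main χ hχ hK {χ.ker} (fun H hH => le_of_eq hH) (fun Φ hΦ => ⟨_, rfl, hΦ⟩)
    (fun H hH S hS _ _ => ⟨0, ?_⟩) ⟨_, rfl, le_rfl⟩ fun H hH S hS _ _ _ hn => absurd ?_ hn
  · rw [Set.mem_singleton_iff.1 hH, KFin_cap _ hS]
    exact hR
  · rw [Set.mem_singleton_iff.1 hH, KFin_cap _ hS]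
    exact hR

theorem torsionFree_cyc {G : Type} [Group G] (χ : G →* Multiplicative ℤ) {α : Type}
    (e : χ.ker ≃* FreeGroup α) (g : G) (k : ℕ) (hk : 0 < k) (h : g ^ k = 1) : g = 1 := by
  have h1 : g ∈ χ.ker := by
    have h2 : χ g ^ k = 1 := by rw [← map_pow, h, map_one]
    exact (pow_eq_one_iff_left hk.ne').1 h2
  have h3 : e ⟨g, h1⟩ ^ k = 1 := by
    rw [← map_pow, ← map_one e]
    exact congrArg e (Subtype.ext h)
  have h4 := (pow_eq_one_iff_left hk.ne').1 h3
  exact congrArg Subtype.val ((map_eq_one_iff e e.injective).1 h4)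

end Pool.Agent.Work.MP_735653_gt
end

-- merged part: Pool.Agent.Work.MP_735653_gt.Grp
section
/-! The presented group is free-by-cyclic. -/

namespace Pool.Agent.Work.MP_735653_gt

section aux

variable {n : ℕ} {H H' : Type} [Group H] [Group H']

/-- a product of conjugates -/
def Grp_pr (x : Fin n → H) (y : ℤ → H) (l : List (FreeGroup (Fin n) × ℤ)) : H :=
  (l.map fun p => FreeGroup.lift x p.1 * y p.2 * (FreeGroup.lift x p.1)⁻¹).prod

theorem Grp_lift (φ : H →* H') {x : Fin n → H} {x' : Fin n → H'} (hx : ∀ i, φ (x i) = x' i)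
    (w : FreeGroup (Fin n)) : φ (FreeGroup.lift x w) = FreeGroup.lift x' w :=
  DFunLike.congr_fun (FreeGroup.ext_hom (φ.comp (FreeGroup.lift x)) (FreeGroup.lift x')
    fun i => by simp [hx]) w

theorem Grp_map (φ : H →* H') {x : Fin n → H} {x' : Fin n → H'} {y : ℤ → H} {y' : ℤ → H'}
    {l : List (FreeGroup (Fin n) × ℤ)} (hx : ∀ i, φ (x i) = x' i)
    (hy : ∀ p ∈ l, φ (y p.2) = y' p.2) : φ (Grp_pr x y l) = Grp_pr x' y' l := by
  rw [Grp_pr, map_list_prod, List.map_map, Grp_pr]
  refine congrArg _ (List.map_congr_left fun p hp => ?_)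
  simp only [Function.comp, map_mul, map_inv, Grp_lift φ hx, hy p hp]

theorem Grp_split (x : Fin n → H) (y : ℤ → H) (w₀ w₁ : FreeGroup (Fin n)) (a b : ℤ)
    (l : List (FreeGroup (Fin n) × ℤ)) : Grp_pr x y ((w₀, a) :: l ++ [(w₁, b)]) =
      FreeGroup.lift x w₀ * y a * (FreeGroup.lift x w₀)⁻¹ * Grp_pr x y l *
        (FreeGroup.lift x w₁ * y b * (FreeGroup.lift x w₁)⁻¹) := by
  simp only [Grp_pr, List.map_append, List.prod_append, List.map_cons, List.prod_cons,
    List.map_nil, List.prod_nil, mul_one]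

theorem Grp_rel (f : SG n → H) (l : List (FreeGroup (Fin n) × ℤ)) :
    FreeGroup.lift f (rl l none) = Grp_pr (fun i => f (some (some i)))
      (fun k => f none ^ k * f (some none) * (f none ^ k)⁻¹) l := by
  rw [rl, map_list_prod, List.map_map, Grp_pr]
  refine congrArg _ (List.map_congr_left fun p _ => ?_)
  have h : FreeGroup.lift f (FreeGroup.map (fun i => some (some i)) p.1) =
      FreeGroup.lift (fun i => f (some (some i))) p.1 :=
    DFunLike.congr_fun (FreeGroup.ext_hom ((FreeGroup.lift f).comp (FreeGroup.map _))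
      (FreeGroup.lift _) fun i => by simp) p.1
  simp only [Function.comp, gw, map_mul, map_inv, map_zpow, FreeGroup.lift_apply_of, h,
    mul_inv_rev, mul_assoc]

theorem Grp_conj (α : MulAut H) (f : H →* H') {T : H'} (h : ∀ w, f (α w) = T * f w * T⁻¹)
    (k : ℤ) : ∀ w, f ((α ^ k) w) = T ^ k * f w * (T ^ k)⁻¹ := by
  induction k using Int.induction_on with
  | zero => simp
  | succ k ih =>
    intro w
    rw [zpow_add_one, MulAut.mul_apply, ih, h, zpow_add_one]
    group
  | pred k ih =>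
    intro w
    have h' : f (α⁻¹ w) = T⁻¹ * f w * T := by
      rw [← MulAut.apply_inv_self H α w, h, MulAut.inv_apply_self]
      group
    rw [zpow_sub_one, MulAut.mul_apply, ih, h', zpow_sub_one]
    group

theorem Grp_step (T y : H) (k : ℤ) :
    T ^ (k + 1) * y * (T ^ (k + 1))⁻¹ = T * (T ^ k * y * (T ^ k)⁻¹) * T⁻¹ := by
  group

/-- the first generators -/
def Grp_x (n L : ℕ) (i : Fin n) : FreeGroup (Fin n ⊕ Fin L) := FreeGroup.of (.inl i)

/-- the other generators -/
def Grp_y (n L : ℕ) (k : ℤ) : FreeGroup (Fin n ⊕ Fin L) :=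
  if h : 0 ≤ k ∧ k < L then FreeGroup.of (.inr ⟨k.toNat, by omega⟩) else 1

theorem Grp_y_of {L : ℕ} (j : Fin L) : Grp_y n L (j : ℕ) = FreeGroup.of (.inr j) := by
  rw [Grp_y, dif_pos ⟨by omega, by omega⟩]
  rfl

theorem Grp_lift_y {L : ℕ} (x : Fin n → H) (y : ℤ → H) {k : ℤ} (h0 : 0 ≤ k) (h1 : k < L) :
    FreeGroup.lift (Sum.elim x fun j : Fin L => y (j : ℕ)) (Grp_y n L k) = y k := by
  rw [Grp_y, dif_pos ⟨h0, h1⟩, FreeGroup.lift_apply_of]
  exact congrArg y (Int.toNat_of_nonneg h0)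

theorem Grp_ext {L : ℕ} {φ ψ : FreeGroup (Fin n ⊕ Fin L) →* H}
    (hx : ∀ i, φ (Grp_x n L i) = ψ (Grp_x n L i))
    (hy : ∀ k : ℤ, 0 ≤ k → k < L → φ (Grp_y n L k) = ψ (Grp_y n L k)) : φ = ψ := by
  refine FreeGroup.ext_hom _ _ ?_
  rintro (i | j)
  · exact hx i
  · rw [← Grp_y_of]
    exact hy _ (by omega) (by omega)

theorem Grp_aut {L : ℕ} (hL : 0 < L) (w₀ w₁ : FreeGroup (Fin n))
    {mid : List (FreeGroup (Fin n) × ℤ)} (hm : ∀ p ∈ mid, 0 < p.2 ∧ p.2 < L) :
    ∃ α : MulAut (FreeGroup (Fin n ⊕ Fin L)), (∀ i, α (Grp_x n L i) = Grp_x n L i) ∧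
      (∀ k : ℤ, 0 ≤ k → k + 1 < L → α (Grp_y n L k) = Grp_y n L (k + 1)) ∧
      FreeGroup.lift (Grp_x n L) w₀ * Grp_y n L 0 * (FreeGroup.lift (Grp_x n L) w₀)⁻¹ *
        Grp_pr (Grp_x n L) (Grp_y n L) mid * (FreeGroup.lift (Grp_x n L) w₁ *
          α (Grp_y n L (L - 1)) * (FreeGroup.lift (Grp_x n L) w₁)⁻¹) = 1 := by
  set A := FreeGroup.lift (Grp_x n L) w₀ with hA
  set B := FreeGroup.lift (Grp_x n L) w₁ with hB
  set M := Grp_pr (Grp_x n L) (Grp_y n L) mid with hM
  set M' := Grp_pr (Grp_x n L) (fun k => Grp_y n L (k - 1)) mid with hM'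
  let ya : ℤ → FreeGroup (Fin n ⊕ Fin L) := fun k =>
    if k + 1 < L then Grp_y n L (k + 1) else B⁻¹ * (A * Grp_y n L 0 * A⁻¹ * M)⁻¹ * B
  let yb : ℤ → FreeGroup (Fin n ⊕ Fin L) := fun k =>
    if 0 < k then Grp_y n L (k - 1) else A⁻¹ * (M' * (B * Grp_y n L (L - 1) * B⁻¹))⁻¹ * A
  let α := FreeGroup.lift (Sum.elim (Grp_x n L) fun j : Fin L => ya (j : ℕ))
  let β := FreeGroup.lift (Sum.elim (Grp_x n L) fun j : Fin L => yb (j : ℕ))
  have ax : ∀ i, α (Grp_x n L i) = Grp_x n L i := fun i => FreeGroup.lift_apply_of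
  have bx : ∀ i, β (Grp_x n L i) = Grp_x n L i := fun i => FreeGroup.lift_apply_of
  have ay : ∀ k : ℤ, 0 ≤ k → k + 1 < L → α (Grp_y n L k) = Grp_y n L (k + 1) := fun k h0 h1 =>
    (Grp_lift_y _ ya h0 (by omega)).trans (if_pos h1)
  have by' : ∀ k : ℤ, 0 < k → k < L → β (Grp_y n L k) = Grp_y n L (k - 1) := fun k h0 h1 =>
    (Grp_lift_y _ yb h0.le h1).trans (if_pos h0)
  have at' : α (Grp_y n L (L - 1)) = B⁻¹ * (A * Grp_y n L 0 * A⁻¹ * M)⁻¹ * B :=
    (Grp_lift_y _ ya (by omega) (by omega)).trans (if_neg (by omega))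
  have bt : β (Grp_y n L 0) = A⁻¹ * (M' * (B * Grp_y n L (L - 1) * B⁻¹))⁻¹ * A :=
    (Grp_lift_y _ yb le_rfl (by omega)).trans (if_neg (by omega))
  have aM : α M' = M := Grp_map α ax fun p hp => by
    rw [ay _ (by linarith [(hm p hp).1]) (by linarith [(hm p hp).2]), sub_add_cancel]
  have bM : β M = M' := Grp_map β bx fun p hp => by' _ (hm p hp).1 (hm p hp).2
  have aA : α A = A := Grp_lift α ax w₀
  have aB : α B = B := Grp_lift α ax w₁
  have bA : β A = A := Grp_lift β bx w₀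
  have bB : β B = B := Grp_lift β bx w₁
  refine ⟨MonoidHom.toMulEquiv α β (Grp_ext (fun i => ?_) fun k h0 h1 => ?_)
    (Grp_ext (fun i => ?_) fun k h0 h1 => ?_), ax, ay, ?_⟩
  · exact (congrArg β (ax i)).trans (bx i)
  · change β (α _) = Grp_y n L k
    by_cases h : k + 1 < L
    · rw [ay k h0 h, by' _ (by omega) h, add_sub_cancel_right]
    · obtain rfl : k = L - 1 := by omega
      simp only [at', map_mul, map_inv, bA, bB, bM, bt]
      group
  · exact (congrArg α (bx i)).trans (ax i)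
  · change α (β _) = Grp_y n L k
    by_cases h : 0 < k
    · rw [by' k h h1, ay _ (by omega) (by omega), sub_add_cancel]
    · obtain rfl : k = 0 := by omega
      simp only [bt, map_mul, map_inv, aA, aB, aM, at']
      group
  · change _ * (B * α _ * _) = 1
    rw [at']
    group

end aux

theorem exists_group {n : ℕ} (L : ℕ) (hL : 0 < L) (w₀ w₁ : FreeGroup (Fin n))
    (mid : List (FreeGroup (Fin n) × ℤ)) (hm : ∀ p ∈ mid, 0 < p.2 ∧ p.2 < L) :
    ∃ (G : Type) (_ : Group G) (γ : SG n → G), Pres γ (rl ((w₀, 0) :: mid ++ [(w₁, (L : ℤ))])) ∧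
      ∃ χ : G →* Multiplicative ℤ, χ (γ none) = Multiplicative.ofAdd 1 ∧
        Nonempty (χ.ker ≃* FreeGroup (Fin n ⊕ Fin L)) := by
  obtain ⟨α, ax, ay, hα⟩ := Grp_aut hL w₀ w₁ hm
  let G := FreeGroup (Fin n ⊕ Fin L) ⋊[zpowersHom _ α] Multiplicative ℤ
  let ι : FreeGroup (Fin n ⊕ Fin L) →* G := SemidirectProduct.inl
  let t : G := SemidirectProduct.inr (Multiplicative.ofAdd 1)
  have ht : ∀ w, ι (α w) = t * ι w * t⁻¹ := fun w => by
    have := SemidirectProduct.inl_aut (φ := zpowersHom _ α) (Multiplicative.ofAdd 1) w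
    rwa [map_inv, zpowersHom_apply, toAdd_ofAdd, zpow_one] at this
  have hy : ∀ k : ℤ, 0 ≤ k → k < L → ι (Grp_y n L k) = t ^ k * ι (Grp_y n L 0) * (t ^ k)⁻¹ := by
    intro k h0
    induction k, h0 using Int.leInduction with
    | base => simp
    | succ k h0 ih =>
      intro h1
      rw [← ay k h0 h1, ht, ih (by omega), Grp_step]
  let γ : SG n → G := fun s => s.elim t fun s => ι (s.elim (Grp_y n L 0) (Grp_x n L))
  refine ⟨G, inferInstance, γ, ⟨?_, fun H _ f hf => ?_, ?_⟩, SemidirectProduct.rightHom, rfl,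
    ⟨(MulEquiv.subgroupCongr SemidirectProduct.range_inl_eq_ker_rightHom.symm).trans
      (MonoidHom.ofInjective SemidirectProduct.inl_injective).symm⟩⟩
  · rintro (_ | i)
    · have hx : ∀ i, ι (Grp_x n L i) = γ (some (some i)) := fun _ => rfl
      rw [Grp_rel, Grp_split, ← map_one ι, ← hα]
      simp only [map_mul, map_inv, Grp_lift ι hx, ht]
      rw [Grp_map ι hx (y' := fun k => t ^ k * ι (Grp_y n L 0) * (t ^ k)⁻¹) fun p hp =>
        hy _ (hm p hp).1.le (hm p hp).2, hy (L - 1) (by omega) (by omega)]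
      simp only [γ, Option.elim]
      group
    · have h1 := ht (Grp_x n L i)
      rw [ax] at h1
      simp only [rl, map_mul, map_inv, FreeGroup.lift_apply_of, γ, Option.elim]
      rw [eq_mul_inv_iff_mul_eq.1 h1]
      group
  · let y : ℤ → H := fun k => f none ^ k * f (some none) * (f none ^ k)⁻¹
    let f₁ := FreeGroup.lift (Sum.elim (fun i => f (some (some i))) fun j : Fin L => y (j : ℕ))
    have fx : ∀ i, f₁ (Grp_x n L i) = f (some (some i)) := fun i => FreeGroup.lift_apply_of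
    have fy : ∀ k : ℤ, 0 ≤ k → k < L → f₁ (Grp_y n L k) = y k := fun k => Grp_lift_y _ y
    have h1 : f₁.comp α.toMonoidHom = (MulAut.conj (f none)).toMonoidHom.comp f₁ := by
      refine Grp_ext (fun i => ?_) fun k h0 h1 => ?_
      · have h2 := hf (some i)
        simp only [rl, map_mul, map_inv, FreeGroup.lift_apply_of] at h2
        change f₁ (α _) = f none * f₁ _ * _
        rw [ax, fx, eq_mul_inv_iff_mul_eq, ← mul_inv_eq_iff_eq_mul, ← mul_inv_eq_one]
        exact h2
      · change f₁ (α _) = f none * f₁ _ * (f none)⁻¹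
        have h3 : y (k + 1) = f none * y k * (f none)⁻¹ := Grp_step _ _ _
        rw [fy k h0 h1, ← h3]
        by_cases h : k + 1 < L
        · rw [ay k h0 h, fy _ (by omega) h]
        · obtain rfl : k = L - 1 := by omega
          have h4 := congrArg f₁ hα
          have h5 := hf none
          rw [Grp_rel, Grp_split] at h5
          simp only [map_mul, map_inv, map_one, Grp_lift f₁ fx, fy 0 le_rfl (by omega)] at h4
          rw [Grp_map f₁ fx (y' := y) fun p hp => fy _ (hm p hp).1.le (hm p hp).2] at h4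
          rw [sub_add_cancel]
          exact mul_left_cancel (mul_right_cancel (mul_left_cancel (h4.trans h5.symm)))
    refine ⟨SemidirectProduct.lift f₁ (zpowersHom H (f none)) fun g => MonoidHom.ext fun w =>
      Grp_conj α f₁ (fun w => DFunLike.congr_fun h1 w) g.toAdd w, ?_⟩
    rintro (_ | _ | i)
    · exact (SemidirectProduct.lift_inr _ _ _ _).trans (zpow_one _)
    · refine (SemidirectProduct.lift_inl _ _ _ _).trans ((fy 0 le_rfl (by omega)).trans ?_)
      simp [y]
    · exact (SemidirectProduct.lift_inl _ _ _ _).trans (fx i)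
  · rw [eq_top_iff]
    intro g _
    have h0 : ∀ s, γ s ∈ Subgroup.closure (Set.range γ) := fun s =>
      Subgroup.subset_closure ⟨s, rfl⟩
    rw [← SemidirectProduct.inl_left_mul_inr_right g]
    refine mul_mem ?_ ?_
    · have h1 : ⊤ ≤ (Subgroup.closure (Set.range γ)).comap ι := by
        rw [← FreeGroup.closure_range_of, Subgroup.closure_le]
        rintro _ ⟨i | j, rfl⟩
        · exact h0 (some (some i))
        · refine Subgroup.mem_comap.2 ?_
          rw [← Grp_y_of, hy _ (by omega) (by omega)]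
          exact mul_mem (mul_mem (zpow_mem (h0 none) _) (h0 (some none)))
            (inv_mem (zpow_mem (h0 none) _))
      exact h1 trivial
    · have h1 : (SemidirectProduct.inr g.right : G) = t ^ g.right.toAdd := by
        rw [← map_zpow, ← ofAdd_zsmul, zsmul_one]
        rfl
      exact h1 ▸ zpow_mem (h0 none) _

end Pool.Agent.Work.MP_735653_gt
end

-- merged part: Pool.Agent.Work.MP_735653_gt.Ab
section
/-! The free abelian quotient, and words for lattice points. -/

namespace Pool.Agent.Work.MP_735653_gt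

open Pointwise

theorem Ab_none {H : Type} [CommGroup H] {n : ℕ} (f : SG n → H)
    (l : List (FreeGroup (Fin n) × ℤ)) :
    FreeGroup.lift f (rl l none) = f (some none) ^ l.length := by
  unfold rl
  induction l with
  | nil => simp
  | cons p l ih =>
    simp only [List.map_cons, List.prod_cons, map_mul, List.length_cons, pow_succ', map_inv,
      FreeGroup.lift_apply_of] at ih ⊢
    rw [ih, mul_inv_cancel_comm]

theorem Ab_some {H : Type} [CommGroup H] {n : ℕ} (f : SG n → H)
    (l : List (FreeGroup (Fin n) × ℤ)) (i : Fin n) : FreeGroup.lift f (rl l (some i)) = 1 := by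
  unfold rl
  simp only [map_mul, map_inv, FreeGroup.lift_apply_of]
  rw [mul_inv_cancel_comm, mul_inv_cancel]

theorem Ab_comp {G H S : Type} [Group G] [Group H] (θ : G →* H) (γ : S → G) (w : FreeGroup S) :
    θ (FreeGroup.lift γ w) = FreeGroup.lift (fun s => θ (γ s)) w := by
  have : θ.comp (FreeGroup.lift γ) = FreeGroup.lift (fun s => θ (γ s)) := by
    ext s
    simp
  exact DFunLike.congr_fun this w

theorem Ab_gw {n : ℕ} (c : Fin n → ℤ) (v : Fin (n + 1) → ℤ) :
    ∃ w : FreeGroup (Fin n), FreeGroup.lift (nuG c) (gw (w, v 0 + ∑ i, c i * v i.succ)) =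
      Multiplicative.ofAdd v := by
  refine ⟨(List.ofFn fun i => FreeGroup.of i ^ v i.succ).prod, ?_⟩
  unfold gw
  simp only [map_mul, map_list_prod, List.map_ofFn, map_zpow, FreeGroup.lift_apply_of]
  rw [List.prod_ofFn]
  apply Multiplicative.toAdd.injective
  simp only [Function.comp, map_zpow, FreeGroup.map.of, FreeGroup.lift_apply_of, nuG, toAdd_mul,
    toAdd_prod, toAdd_zpow, toAdd_ofAdd]
  funext j
  refine Fin.cases ?_ (fun j => ?_) j
  · simp [Finset.sum_apply, mul_comm]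
  · simp [Finset.sum_apply, Pi.single_apply]

theorem Ab_inj {n : ℕ} (V : Finset (Fin (n + 1) → ℤ)) : ∃ c : Fin n → ℤ, ∀ v ∈ V, ∀ w ∈ V,
    v 0 + ∑ i, c i * v i.succ = w 0 + ∑ i, c i * w i.succ → v = w := by
  classical
  let q : (Fin (n + 1) → ℤ) → Polynomial ℤ := fun d =>
    ∑ j : Fin (n + 1), Polynomial.monomial (j : ℕ) (d j)
  have hq : ∀ d, d ≠ 0 → q d ≠ 0 := by
    intro d hd h0
    apply hd
    funext j
    have := congrArg (fun p => Polynomial.coeff p j) h0
    simpa [q, Polynomial.coeff_monomial, Fin.val_inj] using this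
  let P : Polynomial ℤ := ∏ p ∈ V.offDiag, q (p.1 - p.2)
  have hP : P ≠ 0 := Finset.prod_ne_zero_iff.2 fun p hp =>
    hq _ (sub_ne_zero.2 (Finset.mem_offDiag.1 hp).2.2)
  obtain ⟨M, hM⟩ : ∃ M : ℤ, P.eval M ≠ 0 := by
    by_contra h
    push Not at h
    exact hP (Polynomial.funext fun r => by rw [h r, Polynomial.eval_zero])
  refine ⟨fun i => M ^ ((i : ℕ) + 1), fun v hv w hw e => ?_⟩
  by_contra hne
  apply hM
  rw [Polynomial.eval_prod]
  refine Finset.prod_eq_zero (i := (v, w)) (Finset.mem_offDiag.2 ⟨hv, hw, hne⟩) ?_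
  simp only [q, Polynomial.eval_add, Polynomial.eval_finsetSum, Polynomial.eval_monomial,
    Fin.sum_univ_succ,
    Pi.sub_apply, Fin.val_zero, pow_zero, mul_one, Fin.val_succ, sub_mul, Finset.sum_sub_distrib]
  simp only [mul_comm (M ^ _)] at e
  linarith

theorem exists_nu {G : Type} [Group G] {n : ℕ} {γ : SG n → G} {l : List (FreeGroup (Fin n) × ℤ)}
    (h : Pres γ (rl l)) (hl : l ≠ []) (c : Fin n → ℤ) :
    ∃ (ν : G →* Multiplicative (Fin (n + 1) → ℤ)) (s : (Fin (n + 1) → ℤ) → G),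
      IsAbFree ν s ∧ ∀ x, ν (γ x) = nuG c x := by
  obtain ⟨ν, hν⟩ := h.univ (Multiplicative (Fin (n + 1) → ℤ)) (nuG c) (fun j => by
    cases j with
    | none => rw [Ab_none]; exact one_pow _
    | some i => exact Ab_some _ _ _)
  have hs : ∀ v : Fin (n + 1) → ℤ, ∃ g, ν g = Multiplicative.ofAdd v := fun v => by
    obtain ⟨w, hw⟩ := Ab_gw c v
    refine ⟨FreeGroup.lift γ (gw (w, v 0 + ∑ i, c i * v i.succ)), Eq.trans ?_ hw⟩
    rw [Ab_comp]
    simp only [hν]
  choose s hs using hs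
  refine ⟨ν, s, ⟨hs, fun g => ⟨fun hg => ?_, ?_⟩⟩, hν⟩
  · let π : G →* Abelianization G := Abelianization.of
    let σ : Multiplicative (Fin (n + 1) → ℤ) →* Abelianization G := MonoidHom.mk'
      (fun v => π (γ none) ^ v.toAdd 0 *
        ∏ i, (π (γ (some (some i))) * π (γ none) ^ c i) ^ v.toAdd i.succ) fun v w => by
        simp only [toAdd_mul, Pi.add_apply, zpow_add, Finset.prod_mul_distrib]
        exact mul_mul_mul_comm _ _ _ _
    have hy : π (γ (some none)) ^ l.length = 1 := by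
      rw [← Ab_none (fun s => π (γ s)) l, ← Ab_comp, h.rel, map_one]
    have e : (powMonoidHom l.length).comp π = (powMonoidHom l.length).comp (σ.comp ν) := by
      refine MonoidHom.eq_of_eqOn_dense h.gen ?_
      rintro _ ⟨x, rfl⟩
      simp only [MonoidHom.comp_apply, powMonoidHom_apply, hν]
      rcases x with _ | _ | i
      · congr 1
        simp [σ, nuG]
      · rw [hy]
        simp [nuG]
      · congr 1
        simp [σ, nuG, Pi.single_apply]
    refine ⟨l.length, List.length_pos_iff.2 hl, ?_⟩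
    have := DFunLike.congr_fun e g
    simp only [MonoidHom.comp_apply, powMonoidHom_apply, hg, map_one] at this
    rw [← Abelianization.ker_of, MonoidHom.mem_ker, map_pow]
    exact this
  · rintro ⟨k, hk, hg⟩
    have h1 := Abelianization.commutator_subset_ker ν hg
    rw [MonoidHom.mem_ker, map_pow] at h1
    have h2 := congrArg Multiplicative.toAdd h1
    rw [toAdd_pow, toAdd_one, smul_eq_zero] at h2
    exact Multiplicative.toAdd.injective (h2.resolve_left hk.ne')

theorem exists_gw {n : ℕ} (c : Fin n → ℤ) (v : Fin (n + 1) → ℤ) :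
    ∃ w : FreeGroup (Fin n), FreeGroup.lift (nuG c) (gw (w, v 0 + ∑ i, c i * v i.succ)) =
      Multiplicative.ofAdd v := by
  exact Ab_gw c v

theorem exists_list {n : ℕ} (V : Finset (Fin (n + 1) → ℤ)) (hV : V.Nonempty) :
    ∃ (c : Fin n → ℤ) (L : ℕ) (w₀ w₁ : FreeGroup (Fin n)) (mid : List (FreeGroup (Fin n) × ℤ))
      (v₀ : Fin (n + 1) → ℤ), 0 < L ∧ (∀ p ∈ mid, 0 < p.2 ∧ p.2 < L) ∧
      (((w₀, 0) :: mid ++ [(w₁, (L : ℤ))]).map
        fun p => (FreeGroup.lift (nuG c) (gw p)).toAdd).toFinset =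
        {v₀} + (V + {0, Pi.single 0 1}) := by
  classical
  obtain ⟨c, hc⟩ := Ab_inj V
  let φ : (Fin (n + 1) → ℤ) →+ ℤ := AddMonoidHom.mk' (fun v => v 0 + ∑ i, c i * v i.succ)
    fun v w => by
      simp only [Pi.add_apply, mul_add, Finset.sum_add_distrib]
      ring
  have hφ : ∀ v ∈ V, ∀ w ∈ V, φ v = φ w → v = w := hc
  have he : φ (Pi.single 0 1) = 1 := by simp [φ]
  choose wd hwd using Ab_gw c
  have hwd' : ∀ v, (FreeGroup.lift (nuG c) (gw (wd v, φ v))).toAdd = v := fun v =>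
    congrArg Multiplicative.toAdd (hwd v)
  obtain ⟨a, ha, hmin⟩ := V.exists_min_image φ hV
  obtain ⟨b, hb, hmax⟩ := V.exists_max_image φ hV
  set W : Finset (Fin (n + 1) → ℤ) := {-a} + (V + {0, Pi.single 0 1}) with hW
  have hmem : ∀ x, x ∈ W ↔ ∃ v ∈ V, x = -a + v ∨ x = -a + v + Pi.single 0 1 := by
    intro x
    simp only [hW, Finset.mem_add, Finset.mem_singleton, Finset.mem_insert]
    constructor
    · rintro ⟨_, rfl, _, ⟨v, hv, _, rfl | rfl, rfl⟩, rfl⟩
      · exact ⟨v, hv, Or.inl (by rw [add_zero])⟩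
      · exact ⟨v, hv, Or.inr (by rw [add_assoc])⟩
    · rintro ⟨v, hv, rfl | rfl⟩
      · exact ⟨_, rfl, _, ⟨v, hv, _, Or.inl rfl, rfl⟩, by rw [add_zero]⟩
      · exact ⟨_, rfl, _, ⟨v, hv, _, Or.inr rfl, rfl⟩, by rw [add_assoc]⟩
  set top : Fin (n + 1) → ℤ := -a + b + Pi.single 0 1 with htop
  have h0W : (0 : Fin (n + 1) → ℤ) ∈ W := (hmem _).2 ⟨a, ha, Or.inl (by rw [neg_add_cancel])⟩
  have htW : top ∈ W := (hmem _).2 ⟨b, hb, Or.inr rfl⟩
  have hφt : φ top = -φ a + φ b + 1 := by rw [htop, map_add, map_add, map_neg, he]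
  have hab := hmin b hb
  have hL : ((φ top).toNat : ℤ) = φ top := Int.toNat_of_nonneg (by omega)
  refine ⟨c, (φ top).toNat, wd 0, wd top,
    ((W.erase 0).erase top).toList.map fun v => (wd v, φ v), -a, by omega, ?_, ?_⟩
  · intro p hp
    obtain ⟨x, hx, rfl⟩ := List.mem_map.1 hp
    rw [Finset.mem_toList, Finset.mem_erase, Finset.mem_erase, hmem] at hx
    obtain ⟨h1, h2, v, hv, hx⟩ := hx
    have h3 := hmin v hv
    have h4 := hmax v hv
    rw [hL]
    rcases hx with rfl | rfl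
    · have h5 : φ v ≠ φ a := fun e => h2 (by rw [hφ v hv a ha e, neg_add_cancel])
      simp only [map_add, map_neg]
      omega
    · have h5 : φ v ≠ φ b := fun e => h1 (by rw [hφ v hv b hb e])
      simp only [map_add, map_neg, he]
      omega
  · have e0 := hwd' 0
    rw [map_zero] at e0
    rw [hL]
    ext x
    simp only [List.map_append, List.map_cons, List.map_map, List.map_nil, e0, hwd',
      Function.comp_def, List.mem_toFinset, List.mem_append, List.mem_cons, List.mem_map,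
      Finset.mem_toList, Finset.mem_erase, List.not_mem_nil, or_false, exists_eq_right]
    constructor
    · rintro ((rfl | h) | rfl)
      · exact h0W
      · exact h.2.2
      · exact htW
    · intro hx
      by_cases h1 : x = top
      · exact Or.inr h1
      · by_cases h2 : x = 0
        · exact Or.inl (Or.inl h2)
        · exact Or.inl (Or.inr ⟨h1, h2, hx⟩)

end Pool.Agent.Work.MP_735653_gt
end

-- merged part: Pool.Agent.Work.MP_735653_gt.Fib
section
/-! A subcomplex is quasi-isomorphic to the fibre of the projection to the quotient. -/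

namespace Pool.Agent.Work.MP_735653_gt

open Matrix

set_option linter.unusedVariables false

variable {R I J I' J' : Type} [Ring R] [Fintype I] [Fintype J] [Fintype I'] [Fintype J']

theorem Fib_split {α β γ : Type} (x : α ⊕ β → γ) : ∃ a b, x = Sum.elim a b :=
  ⟨x ∘ Sum.inl, x ∘ Sum.inr, by ext (_ | _) <;> rfl⟩

theorem Fib_inj {α β γ : Type} {a a' : α → γ} {b b' : β → γ} :
    Sum.elim a b = Sum.elim a' b' ↔ a = a' ∧ b = b' :=
  ⟨fun h => ⟨funext fun i => congrFun h (.inl i), funext fun j => congrFun h (.inr j)⟩,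
    fun h => by rw [h.1, h.2]⟩

theorem Fib_zero {α β : Type} {a : α → R} {b : β → R} : Sum.elim a b = 0 ↔ a = 0 ∧ b = 0 :=
  ⟨fun h => ⟨funext fun i => congrFun h (.inl i), funext fun j => congrFun h (.inr j)⟩,
    fun h => by rw [h.1, h.2]; ext (_ | _) <;> rfl⟩

theorem Fib_add {α β : Type} (a a' : α → R) (b b' : β → R) :
    Sum.elim a b + Sum.elim a' b' = Sum.elim (a + a') (b + b') := by
  ext (_ | _) <;> rfl

theorem Fib_up {K L : Type} (A : Matrix I K R) (f : Matrix I L R) (D : Matrix J L R) (a : I → R)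
    (b : J → R) :
    Sum.elim a b ᵥ* fromBlocks A f 0 D = Sum.elim (a ᵥ* A) (a ᵥ* f + b ᵥ* D) := by
  rw [vecMul_fromBlocks, Sum.elim_comp_inl, Sum.elim_comp_inr, vecMul_zero, add_zero]

theorem Fib_low {K L : Type} (A : Matrix I K R) (f : Matrix J K R) (D : Matrix J L R) (a : I → R)
    (b : J → R) :
    Sum.elim a b ᵥ* fromBlocks A 0 f D = Sum.elim (a ᵥ* A + b ᵥ* f) (b ᵥ* D) := by
  rw [vecMul_fromBlocks, Sum.elim_comp_inl, Sum.elim_comp_inr, vecMul_zero, zero_add]

theorem Fib_comm {K L M : Type} [Fintype K] [Fintype L] {A : Matrix I K R} {B : Matrix K M R}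
    {C : Matrix I L R} {D : Matrix L M R} (h : A * B = C * D) (x : I → R) :
    x ᵥ* A ᵥ* B = x ᵥ* C ᵥ* D := by
  rw [vecMul_vecMul, vecMul_vecMul, h]

theorem Fib_sq {A : Matrix I I R} {B : Matrix J J R} {f : Matrix I J R} (hA : A * A = 0)
    (hB : B * B = 0) (hf : A * f = f * B) :
    fromBlocks A f 0 (-B) * fromBlocks A f 0 (-B) = 0 := by
  rw [fromBlocks_multiply]
  simp [hA, hB, hf]

theorem Fib_gr {α β γ δ : Type} {k : ℤ} {d1 : α → ℤ} {d2 : β → ℤ} {e1 : γ → ℤ} {e2 : δ → ℤ}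
    {P : Matrix α γ R} {Q : Matrix α δ R} {S : Matrix β γ R} {T : Matrix β δ R}
    (hP : Gr k d1 e1 P) (hQ : Gr k d1 e2 Q) (hS : Gr k d2 e1 S) (hT : Gr k d2 e2 T) :
    Gr k (Sum.elim d1 d2) (Sum.elim e1 e2) (fromBlocks P Q S T) := by
  rintro (i | i) (j | j) h
  · exact hP i j h
  · exact hQ i j h
  · exact hS i j h
  · exact hT i j h

theorem Fib_grRows {α β γ : Type} {k : ℤ} {d1 : α → ℤ} {d2 : β → ℤ} {e : γ → ℤ}
    {P : Matrix α γ R} {S : Matrix β γ R} (hP : Gr k d1 e P) (hS : Gr k d2 e S) :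
    Gr k (Sum.elim d1 d2) e (fromRows P S) := by
  rintro (i | i) j h
  · exact hP i j h
  · exact hS i j h

theorem QI.cone {da : I → ℤ} {A : Matrix I I R} {db : J → ℤ} {B : Matrix J J R} {da' : I' → ℤ}
    {A' : Matrix I' I' R} {db' : J' → ℤ} {B' : Matrix J' J' R} {f : Matrix I J R}
    {f' : Matrix I' J' R} {s : Matrix I I' R} {t : Matrix J J' R} {h : Matrix I J' R}
    (hA : A * A = 0) (hB : B * B = 0) (hA' : A' * A' = 0) (hB' : B' * B' = 0)
    (hf : A * f = f * B) (hf' : A' * f' = f' * B') (hs : QI da A da' A' s) (ht : QI db B db' B' t)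
    (gh : Gr 1 da db' h) (hh : s * f' - f * t = A * h + h * B') :
    QI (Sum.elim da fun j => db j - 1) (fromBlocks A f 0 (-B))
      (Sum.elim da' fun j => db' j - 1) (fromBlocks A' f' 0 (-B')) (fromBlocks s h 0 t) := by
  have eh : ∀ x : I → R, x ᵥ* s ᵥ* f' - x ᵥ* f ᵥ* t = x ᵥ* A ᵥ* h + x ᵥ* h ᵥ* B' := by
    intro x
    simp only [vecMul_vecMul]
    rw [← vecMul_sub, ← vecMul_add, hh]
  have ef := Fib_comm hf
  have ef' := Fib_comm hf'
  have es := Fib_comm hs.ch
  have et := Fib_comm ht.ch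
  refine ⟨?_, ?_, ?_, ?_⟩
  · refine Fib_gr hs.gr (fun i j hij => ?_) (Gr.zero _ _ _) fun i j hij => ?_
    · have := gh i j hij
      omega
    · have := ht.gr i j hij
      omega
  · rw [fromBlocks_multiply, fromBlocks_multiply, fromBlocks_inj]
    refine ⟨by simp [hs.ch], ?_, by simp, by simp [ht.ch]⟩
    rw [Matrix.mul_neg]
    linear_combination (norm := abel1) -hh
  · intro x hx ⟨y, hy⟩
    obtain ⟨a, b, rfl⟩ := Fib_split x
    obtain ⟨a', b', rfl⟩ := Fib_split y
    rw [Fib_up, Fib_zero, vecMul_neg] at hx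
    rw [Fib_up, Fib_up, Fib_inj, vecMul_neg] at hy
    obtain ⟨z, hz⟩ := hs.inj a hx.1 ⟨a', hy.1⟩
    obtain ⟨x, w, hx0, hw⟩ := hs.surj (a' - z ᵥ* s) (by
      rw [sub_vecMul, ← es, hz, hy.1, sub_self])
    have hw' := congrArg (· ᵥ* f') hw
    simp only [sub_vecMul, add_vecMul] at hw'
    have e1 := eh z
    have e2 := eh x
    have e3 := ef' w
    have e4 := ef z
    have e5 := ef x
    rw [hz] at e1 e4
    rw [hx0, zero_vecMul] at e2 e5
    obtain ⟨v, hv⟩ := ht.inj (z ᵥ* f - b + x ᵥ* f)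
      (by
        simp only [sub_vecMul, add_vecMul]
        linear_combination (norm := abel1) hx.2 - e4 - e5)
      ⟨b' - z ᵥ* h - w ᵥ* f' - x ᵥ* h, by
        simp only [sub_vecMul, add_vecMul]
        linear_combination (norm := abel1) e1 + e2 + e3 + hw' - hy.2⟩
    refine ⟨Sum.elim (z + x) v, ?_⟩
    rw [Fib_up, Fib_inj, vecMul_neg, add_vecMul, add_vecMul, hz, hx0, hv]
    exact ⟨add_zero _, by abel⟩
  · intro y hy
    obtain ⟨a', b', rfl⟩ := Fib_split y
    rw [Fib_up, Fib_zero, vecMul_neg] at hy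
    obtain ⟨x, z, hx0, hz⟩ := hs.surj a' hy.1
    have hz' := congrArg (· ᵥ* f') hz
    simp only [add_vecMul] at hz'
    have e2 := eh x
    have e3 := ef' z
    have e5 := ef x
    rw [hx0, zero_vecMul] at e2 e5
    have e6 : (b' - z ᵥ* f' - x ᵥ* h) ᵥ* B' = x ᵥ* f ᵥ* t := by
      simp only [sub_vecMul]
      linear_combination (norm := abel1) e2 + e3 + hz' - hy.2
    obtain ⟨v, hv⟩ := ht.inj (x ᵥ* f) e5.symm ⟨_, e6⟩
    have e7 := et v
    rw [hv] at e7
    obtain ⟨p, q, hp, hq⟩ := ht.surj (b' - z ᵥ* f' - x ᵥ* h - v ᵥ* t)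
      (by rw [sub_vecMul, e6, e7, sub_self])
    refine ⟨Sum.elim x (v + p), Sum.elim z (-q), ?_, ?_⟩
    · rw [Fib_up, Fib_zero, vecMul_neg, add_vecMul, hv, hp]
      exact ⟨hx0, by abel⟩
    · rw [Fib_up, Fib_up, Fib_add, Fib_inj, vecMul_neg, neg_vecMul, add_vecMul]
      exact ⟨hz, by linear_combination (norm := abel1) hq⟩

variable [DecidableEq I] [DecidableEq J] [DecidableEq I'] [DecidableEq J']

theorem Fib_psi {dE : I → ℤ} {AE : Matrix I I R} {dQ : J → ℤ} {AQ : Matrix J J R}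
    {Θ : Matrix J I R} (gΘ : Gr (-1) dQ dE Θ) (hΘ : Θ * AE + AQ * Θ = 0) :
    QI (Sum.elim (Sum.elim dE dQ) fun j => dQ j - 1)
      (fromBlocks (fromBlocks AE 0 Θ AQ) (fromRows 0 1) 0 (-AQ)) dE AE
      (fromRows (fromRows 1 0) (-Θ)) := by
  refine ⟨?_, ?_, ?_, ?_⟩
  · refine Fib_grRows (Fib_grRows (Gr.one _) (Gr.zero _ _ _)) fun i j hij => ?_
    have := gΘ.neg i j hij
    omega
  · rw [fromBlocks_mul_fromRows, fromBlocks_mul_fromRows, fromRows_mul, fromRows_mul, fromRows_mul,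
      fromRows_ext_iff]
    constructor
    · ext (i | i) j <;> simp
    · simp only [Matrix.zero_mul, Matrix.neg_mul, Matrix.mul_neg, neg_neg, zero_add]
      linear_combination (norm := abel1) hΘ
  · intro x hx ⟨y, hy⟩
    obtain ⟨u, q, rfl⟩ := Fib_split x
    obtain ⟨e, q1, rfl⟩ := Fib_split u
    rw [Fib_up, Fib_low, Fib_zero, sumElim_vecMul_fromRows, vecMul_neg, vecMul_zero,
      vecMul_one] at hx
    rw [sumElim_vecMul_fromRows, sumElim_vecMul_fromRows, vecMul_neg, vecMul_zero, vecMul_one] at hy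
    refine ⟨Sum.elim (Sum.elim y q) 0, ?_⟩
    rw [Fib_up, Fib_low, Fib_inj, Fib_inj, sumElim_vecMul_fromRows, vecMul_zero, vecMul_one,
      zero_vecMul]
    exact ⟨⟨by linear_combination (norm := abel1) hy,
      by linear_combination (norm := abel1) -hx.2⟩, by abel⟩
  · intro y hy
    refine ⟨Sum.elim (Sum.elim y 0) 0, 0, ?_, ?_⟩
    · rw [Fib_up, Fib_low, Fib_zero, Fib_zero, sumElim_vecMul_fromRows]
      simp [hy]
    · rw [sumElim_vecMul_fromRows, sumElim_vecMul_fromRows]
      simp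

theorem fib {dE : I → ℤ} {AE : Matrix I I R} {dQ : J → ℤ} {AQ : Matrix J J R} {Θ : Matrix J I R}
    {dR : I' → ℤ} {AR : Matrix I' I' R} {dB : J' → ℤ} {AB : Matrix J' J' R}
    (hW : Cx (Sum.elim dE dQ) (fromBlocks AE 0 Θ AQ)) (hR : Cx dR AR) (hB : Cx dB AB)
    (h1 : HE (Sum.elim dE dQ) (fromBlocks AE 0 Θ AQ) dR AR) (h2 : HE dQ AQ dB AB) :
    ∃ (Φ : Matrix I' J' R) (g : Matrix (I' ⊕ J') I R),
      Cx (Sum.elim dR fun j => dB j - 1) (fromBlocks AR Φ 0 (-AB)) ∧
      QI (Sum.elim dR fun j => dB j - 1) (fromBlocks AR Φ 0 (-AB)) dE AE g := by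
  obtain ⟨s1, r1, H1, H1', h1⟩ := h1.symm
  obtain ⟨r2, s2, H2, H2', h2⟩ := h2
  have q1 := h1.qi
  have q2 : QI dB AB dQ AQ s2 := HEd.qi
    (⟨h2.grF', h2.grF, h2.grH', h2.grH, h2.chF', h2.chF, h2.hH', h2.hH⟩ :
      HEd dB AB dQ AQ s2 r2 H2' H2)
  have hsq := hW.sq
  rw [fromBlocks_multiply, ← fromBlocks_zero, fromBlocks_inj] at hsq
  have hΘ : Θ * AE + AQ * Θ = 0 := hsq.2.2.1
  have hQ : AQ * AQ = 0 := by simpa using hsq.2.2.2
  have gΘ : Gr (-1) dQ dE Θ := fun j i h => hW.gr (.inr j) (.inl i) h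
  obtain ⟨P, hP⟩ : ∃ P : Matrix (I ⊕ J) J R, P = fromRows 0 1 := ⟨_, rfl⟩
  have gJ : Gr 0 (Sum.elim dE dQ) dQ P := by
    rw [hP]
    exact Fib_grRows (Gr.zero _ _ _) (Gr.one _)
  have hJ : fromBlocks AE 0 Θ AQ * P = P * AQ := by
    rw [hP, fromBlocks_mul_fromRows, fromRows_mul]
    simp
  have hψ := Fib_psi gΘ hΘ
  rw [← hP] at hψ
  have hsJ : AR * (s1 * P) = s1 * P * AQ := by
    rw [← Matrix.mul_assoc, q1.ch, Matrix.mul_assoc, hJ, Matrix.mul_assoc]
  have gsJ : Gr 0 dR dQ (s1 * P) := q1.gr.mul gJ (add_zero _).symm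
  have hΦ : AR * (s1 * P * r2) = s1 * P * r2 * AB := by
    rw [← Matrix.mul_assoc, hsJ, Matrix.mul_assoc, h2.chF, ← Matrix.mul_assoc]
  have gΦ : Gr 0 dR dB (s1 * P * r2) := gsJ.mul h2.grF (add_zero _).symm
  have hc := QI.cone (h := s1 * P * H2) hR.sq hB.sq hW.sq hQ hΦ hJ q1 q2
    (gsJ.mul h2.grH (zero_add _).symm) (by
      have e := congrArg (fun M : Matrix J J R => s1 * P * M) h2.hH
      simp only [Matrix.mul_sub, Matrix.mul_add, Matrix.mul_one, ← Matrix.mul_assoc] at e
      rw [e, ← Matrix.mul_assoc AR, hsJ])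
  refine ⟨s1 * P * r2, _, ⟨?_, Fib_sq hR.sq hB.sq hΦ⟩, QI.comp (Fib_sq hW.sq hQ hJ) hc hψ⟩
  refine Fib_gr hR.gr (fun i j hij => ?_) (Gr.zero _ _ _) fun i j hij => ?_
  · have := gΦ i j hij
    omega
  · have := hB.gr.neg i j hij
    omega

end Pool.Agent.Work.MP_735653_gt
end

-- merged part: Pool.Agent.Work.MP_735653_gt.Chn
section
/-! An equivariant chain map from cellular to singular chains. -/

namespace Pool.Agent.Work.MP_735653_gt

section

variable {G E I : Type} [Group G] [TopologicalSpace E] [MulAction G E] [ContinuousConstSMul G E]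

theorem sbd_act (g : G) (c : SC E) : sbd E (act E G g c) = act E G g (sbd E c) :=
  sbd_spush (⟨fun x => g • x, continuous_const_smul g⟩ : C(E, E)) c

theorem Chn_act_single (g : G) (s : Sx E) (c : ℤ) : act E G g (Finsupp.single s c) =
    Finsupp.single (spushSx (⟨fun x => g • x, continuous_const_smul g⟩ : C(E, E)) s) c :=
  spush_single _ s c

theorem aug_act (g : G) (c : SC E) : aug E (act E G g c) = aug E c := by
  induction c using Finsupp.induction_linear with
  | zero => simp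
  | add f f' hf hf' => rw [map_add, map_add, map_add, hf, hf']
  | single s c =>
    rw [Chn_act_single, aug_single, aug_single]
    rfl

theorem act_mem_SCq {U V : Set E} (g : G) (h : ∀ x ∈ U, g • x ∈ V) {q : ℕ} {c : SC E}
    (hc : c ∈ SCq U q) : act E G g c ∈ SCq V q := by
  refine map_supported_cmp _ (act E G g) ?_ hc
  rintro s ⟨h1, h2⟩
  rw [Chn_act_single]
  refine Finsupp.single_mem_supported _ _ ⟨h1, ?_⟩
  rintro _ ⟨t, rfl⟩
  exact h _ (h2 ⟨t, rfl⟩)

end

variable {D : ℕ} {G : Type} [Group G]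

/-- the conditions on the value `y` at the cell `a` -/
def Chn_ok (X : LC D G) (f : X.K → SC (Cov X)) (a : X.K) (y : SC (Cov X)) : Prop :=
  y ∈ SCq (Uc X (1, a)) (dim a.1).toNat ∧
    sbd (Cov X) y = ∑ b : X.K, inc a.1 b.1 • act (Cov X) G (X.μ a.1 b.1) (f b) ∧
    (dim a.1 = 0 → aug (Cov X) y = 1)

theorem Chn_sum_inc (X : LC D G) (a : X.K) : ∑ b : X.K, inc a.1 b.1 = 0 := by
  have h := sum_inc X.K a.1 fun _ => (1 : ℤ)
  simp only [smul_eq_mul, mul_one] at h
  rw [Finset.sum_coe_sort X.K fun b => inc a.1 b, h]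
  refine Finset.sum_eq_zero fun i _ => ?_
  split_ifs with h1 h2 h3 h3
  · simp
  · exact absurd (X.down _ a.2 _ (Fc.face ⟨i, h1, .inr rfl⟩)) h3
  · exact absurd (X.down _ a.2 _ (Fc.face ⟨i, h1, .inl rfl⟩)) h2
  · simp
  · rfl

theorem Chn_step (X : LC D G) (f : X.K → SC (Cov X)) (a : X.K)
    (h : ∀ b : X.K, dim b.1 < dim a.1 → Chn_ok X f b (f b)) : ∃ y, Chn_ok X f a y := by
  have := contractible_Uc (X := X) (1, a)
  have hb : ∀ b : X.K, inc a.1 b.1 ≠ 0 → Chn_ok X f b (f b) := fun b hb =>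
    h b (by have := (fc_of_inc hb).dim_eq; omega)
  obtain ⟨n, hn⟩ := Int.eq_ofNat_of_zero_le (dim_nonneg a.1)
  rcases n with _ | m
  · obtain ⟨x⟩ : Nonempty (Uc X (1, a)) := inferInstance
    obtain ⟨y, h1, h2⟩ := aug_surj ⟨x.1, x.2⟩ 1
    refine ⟨y, by simpa [hn] using h1, ?_, fun _ => h2⟩
    rw [sbd_zero _ h1]
    refine (Finset.sum_eq_zero fun b _ => ?_).symm
    by_cases h0 : inc a.1 b.1 = 0
    · rw [h0, zero_smul]
    · have := (fc_of_inc h0).dim_eq
      have := dim_nonneg b.1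
      omega
  have hz : ∑ b : X.K, inc a.1 b.1 • act (Cov X) G (X.μ a.1 b.1) (f b) ∈ SCq (Uc X (1, a)) m := by
    refine Submodule.sum_mem _ fun b _ => ?_
    by_cases h0 : inc a.1 b.1 = 0
    · rw [h0, zero_smul]
      exact Submodule.zero_mem _
    have h1 := (hb b h0).1
    have h2 : (dim b.1).toNat = m := by
      have := (fc_of_inc h0).dim_eq
      omega
    rw [h2] at h1
    refine Submodule.smul_mem _ _ (act_mem_SCq _ (fun x hx => ?_) h1)
    exact CLe.trans ((smul_mem_Uc (X.μ a.1 b.1)).2 hx)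
      ⟨(fc_of_inc h0).face, (mul_one _).trans (one_mul _).symm⟩
  have hd : (dim a.1).toNat = m + 1 := by omega
  have hd' : dim a.1 ≠ 0 := by omega
  rcases m with _ | q
  · obtain ⟨y, h1, h2⟩ := acyclic_zero _ hz (by
      rw [map_sum, ← Chn_sum_inc X a]
      refine Finset.sum_congr rfl fun b _ => ?_
      by_cases h0 : inc a.1 b.1 = 0
      · rw [h0, zero_smul, map_zero]
      · have := (fc_of_inc h0).dim_eq
        rw [map_smul, aug_act, (hb b h0).2.2 (by omega), smul_eq_mul, mul_one])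
    exact ⟨y, hd ▸ h1, h2, fun h0 => absurd h0 hd'⟩
  · obtain ⟨y, h1, h2⟩ := acyclic _ q hz (by
      have e : ∀ b : X.K, sbd (Cov X) (inc a.1 b.1 • act (Cov X) G (X.μ a.1 b.1) (f b)) =
          ∑ c : X.K, (inc a.1 b.1 * inc b.1 c.1) • act (Cov X) G (X.μ a.1 c.1) (f c) := by
        intro b
        by_cases h0 : inc a.1 b.1 = 0
        · simp [h0]
        rw [map_smul, sbd_act, (hb b h0).2.1, map_sum, Finset.smul_sum]
        refine Finset.sum_congr rfl fun c _ => ?_
        by_cases h3 : inc b.1 c.1 = 0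
        · simp [h3]
        rw [map_smul, smul_smul, X.coc _ a.2 _ _ (fc_of_inc h0).face (fc_of_inc h3).face, map_mul]
        rfl
      rw [map_sum, Finset.sum_congr rfl fun b _ => e b, Finset.sum_comm]
      refine Finset.sum_eq_zero fun c _ => ?_
      rw [← Finset.sum_smul, Finset.sum_coe_sort X.K fun b => inc a.1 b * inc b c.1,
        sum_inc_inc _ _ _ fun b hb _ => X.down _ a.2 _ hb, zero_smul])
    exact ⟨y, hd ▸ h1, h2, fun h0 => absurd h0 hd'⟩

theorem Chn_ind (X : LC D G) (n : ℕ) :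
    ∃ f : X.K → SC (Cov X), ∀ a : X.K, dim a.1 < n → Chn_ok X f a (f a) := by
  induction n with
  | zero => exact ⟨0, fun a ha => absurd (dim_nonneg a.1) (by omega)⟩
  | succ n ih =>
    obtain ⟨f, hf⟩ := ih
    have h : ∀ a : X.K, ∃ y, (dim a.1 = n → Chn_ok X f a y) ∧ (dim a.1 ≠ n → y = f a) := by
      intro a
      by_cases ha : dim a.1 = n
      · obtain ⟨y, hy⟩ := Chn_step X f a fun b hb => hf b (ha ▸ hb)
        exact ⟨y, fun _ => hy, fun h => absurd ha h⟩
      · exact ⟨f a, fun h => absurd h ha, fun _ => rfl⟩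
    choose f' h1 h2 using h
    refine ⟨f', fun a ha => ?_⟩
    have h3 : Chn_ok X f a (f' a) := by
      by_cases ha' : dim a.1 = n
      · exact h1 a ha'
      · rw [h2 a ha']
        exact hf a (by omega)
    refine ⟨h3.1, h3.2.1.trans (Finset.sum_congr rfl fun b _ => ?_), h3.2.2⟩
    by_cases h0 : inc a.1 b.1 = 0
    · rw [h0, zero_smul, zero_smul]
    · have := (fc_of_inc h0).dim_eq
      rw [h2 b (by omega)]

theorem exists_chain (X : LC D G) : ∃ f : X.K → SC (Cov X), ∀ a : X.K,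
    f a ∈ SCq (Uc X (1, a)) (dim a.1).toNat ∧
    sbd (Cov X) (f a) = ∑ b : X.K, inc a.1 b.1 • act (Cov X) G (X.μ a.1 b.1) (f b) ∧
    (dim a.1 = 0 → aug (Cov X) (f a) = 1) := by
  obtain ⟨f, hf⟩ := Chn_ind X (D + 1)
  exact ⟨f, fun a => hf a (by have := dim_le a.1; omega)⟩

end Pool.Agent.Work.MP_735653_gt
end

-- merged part: Pool.Agent.Work.MP_735653_gt.MV
section
/-! Small chains and the Mayer-Vietoris argument. -/

namespace Pool.Agent.Work.MP_735653_gt

open Finsupp

variable {P E : Type} [TopologicalSpace E]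

theorem SCq_le_SCs (U : Set E) (q : ℕ) : SCq U q ≤ SCs U :=
  supported_mono fun _ h => h.2

theorem SCs_mono {U V : Set E} (h : U ⊆ V) : SCs U ≤ SCs V :=
  supported_mono fun _ hs => Set.Subset.trans hs h

theorem SCs_inf (U V : Set E) : SCs U ⊓ SCs V = SCs (U ∩ V) := by
  unfold SCs
  rw [← supported_inter]
  congr 1
  ext s
  simp [Set.subset_inter_iff]

theorem MV_single_mem {U : Set E} {s : Sx E} (hs : Set.range s.2 ⊆ U) :
    single s (1 : ℤ) ∈ SCq U s.1 := single_mem_supported ℤ _ ⟨rfl, hs⟩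

theorem sbd_mem_SCs {U : Set E} {x : SC E} (h : x ∈ SCs U) : sbd E x ∈ SCs U := by
  refine map_supported_cmp _ _ ?_ h
  rintro ⟨_ | q, s⟩ hs
  · rw [sbd_zero U (MV_single_mem hs)]
    exact zero_mem _
  · exact SCq_le_SCs U q (sbd_mem U q (MV_single_mem hs))

variable (E) in
/-- The component of degree `q`. -/
noncomputable def MV_proj (q : ℕ) : SC E →ₗ[ℤ] SC E :=
  linearCombination ℤ fun s : Sx E => if s.1 = q then single s 1 else 0

theorem MV_proj_single (q : ℕ) (s : Sx E) :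
    MV_proj E q (single s 1) = if s.1 = q then single s 1 else 0 := by
  rw [MV_proj, linearCombination_single, one_smul]

theorem MV_proj_mem {U : Set E} (q : ℕ) {x : SC E} (h : x ∈ SCs U) : MV_proj E q x ∈ SCq U q := by
  refine map_supported_cmp _ _ (fun s hs => ?_) h
  rw [MV_proj_single]
  split_ifs with hq
  · exact single_mem_supported ℤ _ ⟨hq, hs⟩
  · exact zero_mem _

theorem MV_proj_of_mem {U : Set E} (q q' : ℕ) {x : SC E} (h : x ∈ SCq U q') :
    MV_proj E q x = if q' = q then x else 0 := by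
  split_ifs with hq
  · refine map_supported_cmp (LinearMap.eqLocus (MV_proj E q) LinearMap.id) LinearMap.id
      (fun s hs => ?_) h
    change MV_proj E q (single s 1) = single s 1
    rw [MV_proj_single, if_pos (hs.1.trans hq)]
  · refine (Submodule.mem_bot ℤ).1 (map_supported_cmp ⊥ _ (fun s hs => ?_) h)
    rw [MV_proj_single, if_neg fun h => hq (hs.1.symm.trans h)]
    exact zero_mem _

theorem MV_sbd_proj (q : ℕ) (x : SC E) : sbd E (MV_proj E (q + 1) x) = MV_proj E q (sbd E x) := by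
  suffices h : ∀ s : Sx E, (sbd E ∘ₗ MV_proj E (q + 1)) (single s 1) =
      (MV_proj E q ∘ₗ sbd E) (single s 1) by
    have := ext_sx_subdiv _ _ h x
    rwa [LinearMap.comp_apply, LinearMap.comp_apply] at this
  rintro ⟨_ | p, s⟩
  · have h : sbd E (single ⟨0, s⟩ 1) = 0 :=
      sbd_zero Set.univ (MV_single_mem (s := ⟨0, s⟩) (Set.subset_univ _))
    simp only [LinearMap.comp_apply, MV_proj_single, h, map_zero]
    rw [if_neg (by simp), map_zero]
  · have h : sbd E (single ⟨p + 1, s⟩ 1) ∈ SCq Set.univ p :=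
      sbd_mem Set.univ p (MV_single_mem (s := ⟨p + 1, s⟩) (Set.subset_univ _))
    simp only [LinearMap.comp_apply, MV_proj_single, MV_proj_of_mem q p h]
    by_cases hp : p = q
    · rw [if_pos hp, if_pos (by rw [hp])]
    · rw [if_neg hp, if_neg (by simpa using hp), map_zero]

theorem MV_aug_proj (x : SC E) : aug E (MV_proj E 0 x) = aug E x := by
  refine ext_sx_subdiv (aug E ∘ₗ MV_proj E 0) (aug E) (fun s => ?_) x
  simp only [LinearMap.comp_apply, MV_proj_single]
  split_ifs with h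
  · rfl
  · rw [aug_single, if_neg h, map_zero]

theorem MV_sum_proj (x : SC E) :
    ∃ N : ℕ, ∀ M, N ≤ M → ∑ q ∈ Finset.range M, MV_proj E q x = x := by
  induction x using Finsupp.induction_linear with
  | zero => exact ⟨0, fun M _ => by simp⟩
  | add a b ha hb =>
    obtain ⟨N₁, h₁⟩ := ha
    obtain ⟨N₂, h₂⟩ := hb
    refine ⟨max N₁ N₂, fun M hM => ?_⟩
    simp only [map_add, Finset.sum_add_distrib]
    rw [h₁ M (le_of_max_le_left hM), h₂ M (le_of_max_le_right hM)]
  | single s c =>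
    refine ⟨s.1 + 1, fun M hM => ?_⟩
    have : single s c = c • single s (1 : ℤ) := by simp
    rw [this]
    simp only [map_smul, ← Finset.smul_sum, MV_proj_single]
    rw [Finset.sum_ite_eq, if_pos (Finset.mem_range.2 hM)]

theorem acyclic_all (U : Set E) [ContractibleSpace U] {z : SC E} (hz : z ∈ SCs U)
    (h0 : sbd E z = 0) (h1 : aug E z = 0) : ∃ c ∈ SCs U, sbd E c = z := by
  obtain ⟨N, hN⟩ := MV_sum_proj z
  change z ∈ (SCs U).map (sbd E)
  rw [← hN N le_rfl]
  refine Submodule.sum_mem _ ?_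
  rintro (_ | q) -
  · obtain ⟨y, hy, h⟩ := acyclic_zero U (MV_proj_mem 0 hz) (by rw [MV_aug_proj, h1])
    exact ⟨y, SCq_le_SCs U _ hy, h⟩
  · obtain ⟨y, hy, h⟩ := acyclic U q (MV_proj_mem (q + 1) hz) (by rw [MV_sbd_proj, h0, map_zero])
    exact ⟨y, SCq_le_SCs U _ hy, h⟩

theorem MV_map_sup {U V : Set E} (L : SC E →ₗ[ℤ] SC E) (h : ∀ W : Set E, ∀ x ∈ SCs W, L x ∈ SCs W)
    {x : SC E} (hx : x ∈ SCs U ⊔ SCs V) : L x ∈ SCs U ⊔ SCs V := by
  obtain ⟨a, ha, b, hb, rfl⟩ := Submodule.mem_sup.1 hx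
  rw [map_add]
  exact Submodule.add_mem_sup (h U a ha) (h V b hb)

theorem small_cycle {U V : Set E} (hU : IsOpen U) (hV : IsOpen V) {z : SC E}
    (hz : z ∈ SCs (U ∪ V)) (h0 : sbd E z ∈ SCs U ⊔ SCs V) :
    ∃ z' ∈ SCs U ⊔ SCs V, ∃ c ∈ SCs (U ∪ V), z = z' + sbd E c := by
  obtain ⟨Sd, T, h1, h2, h3, h4⟩ := exists_subdiv E
  have hSd : ∀ W : Set E, ∀ x ∈ SCs W, Sd x ∈ SCs W := fun W x hx =>
    map_supported_cmp _ _ (fun s hs => SCq_le_SCs W _ (h3 W _ _ (MV_single_mem hs)).1) hx
  have hT : ∀ W : Set E, ∀ x ∈ SCs W, T x ∈ SCs W := fun W x hx =>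
    map_supported_cmp _ _ (fun s hs => SCq_le_SCs W _ (h3 W _ _ (MV_single_mem hs)).2) hx
  have hSdN : ∀ (N : ℕ) (W : Set E), ∀ x ∈ SCs W, (Sd ^ N) x ∈ SCs W := by
    intro N W
    induction N with
    | zero => intro x hx; simpa using hx
    | succ N ih => intro x hx; rw [pow_succ', Module.End.mul_apply]; exact hSd W _ (ih x hx)
  have hpow : ∀ (N : ℕ) (x : SC E), sbd E ((Sd ^ N) x) = (Sd ^ N) (sbd E x) := by
    intro N
    induction N with
    | zero => intro x; simp
    | succ N ih => intro x; rw [pow_succ', Module.End.mul_apply, h1, ih, Module.End.mul_apply]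
  have hev : ∀ x ∈ SCs (U ∪ V), ∃ N : ℕ, (Sd ^ N) x ∈ SCs U ⊔ SCs V := by
    intro x hx
    unfold SCs at hx
    rw [supported_eq_span_single] at hx
    induction hx using Submodule.span_induction with
    | mem z hz =>
      obtain ⟨s, hs, rfl⟩ := hz
      obtain ⟨N, hN⟩ := h4 Bool (fun b => cond b U V) (by rintro (_ | _); exacts [hV, hU]) s
        fun t => by
          rcases hs ⟨t, rfl⟩ with h | h
          · exact ⟨true, h⟩
          · exact ⟨false, h⟩
      refine ⟨N, ?_⟩
      rw [small_eq] at hN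
      refine (iSup_le ?_ : _ ≤ SCs U ⊔ SCs V) hN
      rintro (_ | _)
      · exact (SCq_le_SCs V _).trans le_sup_right
      · exact (SCq_le_SCs U _).trans le_sup_left
    | zero => exact ⟨0, by simp⟩
    | add u v _ _ hu hv =>
      obtain ⟨N, hN⟩ := hu
      obtain ⟨M, hM⟩ := hv
      refine ⟨N + M, ?_⟩
      rw [map_add]
      refine Submodule.add_mem _ ?_ ?_
      · rw [add_comm, pow_add, Module.End.mul_apply]
        exact MV_map_sup _ (hSdN M) hN
      · rw [pow_add, Module.End.mul_apply]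
        exact MV_map_sup _ (hSdN N) hM
    | smul c u _ hu =>
      obtain ⟨N, hN⟩ := hu
      exact ⟨N, by rw [map_smul]; exact Submodule.smul_mem _ c hN⟩
  have key : ∀ N : ℕ, ∃ y ∈ SCs U ⊔ SCs V, ∃ c ∈ SCs (U ∪ V), z = (Sd ^ N) z + y + sbd E c := by
    intro N
    induction N with
    | zero => exact ⟨0, zero_mem _, 0, zero_mem _, by simp⟩
    | succ N ih =>
      obtain ⟨y, hy, c, hc, h⟩ := ih
      refine ⟨y + T ((Sd ^ N) (sbd E z)), add_mem hy (MV_map_sup _ hT (MV_map_sup _ (hSdN N) h0)),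
        c + T ((Sd ^ N) z), add_mem hc (hT _ _ (hSdN N _ _ hz)), ?_⟩
      have h5 := h2 ((Sd ^ N) z)
      rw [hpow] at h5
      rw [pow_succ', Module.End.mul_apply, map_add]
      linear_combination (norm := abel1) h - h5
  obtain ⟨N, hN⟩ := hev z hz
  obtain ⟨y, hy, c, hc, h⟩ := key N
  exact ⟨_, add_mem hN hy, c, hc, h⟩

theorem QIon.union {d : (P →₀ ℤ) →ₗ[ℤ] (P →₀ ℤ)} {F : (P →₀ ℤ) →ₗ[ℤ] SC E} {L M : Set P}
    {U V : Set E} (hU : IsOpen U) (hV : IsOpen V) (hdd : ∀ x, d (d x) = 0)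
    (hF : ∀ x, sbd E (F x) = F (d x)) (dL : ∀ x ∈ supported ℤ ℤ L, d x ∈ supported ℤ ℤ L)
    (dM : ∀ x ∈ supported ℤ ℤ M, d x ∈ supported ℤ ℤ M) (FL : ∀ x ∈ supported ℤ ℤ L, F x ∈ SCs U)
    (FM : ∀ x ∈ supported ℤ ℤ M, F x ∈ SCs V) (h1 : QIon d F L U) (h2 : QIon d F M V)
    (h3 : QIon d F (L ∩ M) (U ∩ V)) : QIon d F (L ∪ M) (U ∪ V) := by
  have iL : supported ℤ ℤ (L ∩ M) ≤ supported ℤ ℤ L := supported_mono Set.inter_subset_left
  have iM : supported ℤ ℤ (L ∩ M) ≤ supported ℤ ℤ M := supported_mono Set.inter_subset_right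
  have jL : supported ℤ ℤ L ≤ supported ℤ ℤ (L ∪ M) := supported_mono Set.subset_union_left
  have jM : supported ℤ ℤ M ≤ supported ℤ ℤ (L ∪ M) := supported_mono Set.subset_union_right
  have iU : SCs (U ∩ V) ≤ SCs U := SCs_mono Set.inter_subset_left
  have iV : SCs (U ∩ V) ≤ SCs V := SCs_mono Set.inter_subset_right
  have jU : SCs U ≤ SCs (U ∪ V) := SCs_mono Set.subset_union_left
  have jV : SCs V ≤ SCs (U ∪ V) := SCs_mono Set.subset_union_right
  have hI : ∀ a ∈ SCs U, ∀ b ∈ SCs V, a + b = 0 → a ∈ SCs (U ∩ V) := fun a ha b hb hab => by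
    rw [← SCs_inf]
    exact ⟨ha, by rw [eq_neg_of_add_eq_zero_left hab]; exact neg_mem hb⟩
  constructor
  · rintro x hx hdx ⟨c, hc, hcx⟩
    rw [supported_union] at hx
    obtain ⟨x₁, hx₁, x₂, hx₂, rfl⟩ := Submodule.mem_sup.1 hx
    rw [map_add] at hdx hcx
    obtain ⟨c', hc', c₀, -, rfl⟩ := small_cycle hU hV hc (by
      rw [hcx]; exact Submodule.add_mem_sup (FL _ hx₁) (FM _ hx₂))
    obtain ⟨c₁, hc₁, c₂, hc₂, rfl⟩ := Submodule.mem_sup.1 hc'
    rw [map_add, map_add, sbd_sbd, add_zero] at hcx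
    have he : F x₁ - sbd E c₁ ∈ SCs (U ∩ V) :=
      hI _ (sub_mem (FL _ hx₁) (sbd_mem_SCs hc₁)) _ (sub_mem (FM _ hx₂) (sbd_mem_SCs hc₂))
        (by linear_combination (norm := abel1) -hcx)
    have hd₁ : d x₁ ∈ supported ℤ ℤ (L ∩ M) := by
      rw [supported_inter]
      exact ⟨dL _ hx₁, by rw [eq_neg_of_add_eq_zero_left hdx]; exact neg_mem (dM _ hx₂)⟩
    obtain ⟨y, hy, hdy⟩ := h3.inj _ hd₁ (hdd _) ⟨_, he, by rw [map_sub, sbd_sbd, sub_zero, hF]⟩
    have hFy : F y ∈ SCs (U ∩ V) := by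
      rw [← SCs_inf]
      exact ⟨FL _ (iL hy), FM _ (iM hy)⟩
    obtain ⟨x', hx', c'', hc'', hdx', e⟩ := h3.surj _ (sub_mem he hFy) (by
      rw [map_sub, map_sub, sbd_sbd, sub_zero, hF, hF, hdy, sub_self])
    obtain ⟨y₁, hy₁, e₁⟩ := h1.inj (x₁ - y - x') (sub_mem (sub_mem hx₁ (iL hy)) (iL hx'))
      (by rw [map_sub, map_sub, hdy, hdx', sub_self, sub_zero])
      ⟨c₁ + c'', add_mem hc₁ (iU hc''), by
        rw [map_add, map_sub, map_sub]; linear_combination (norm := abel1) -e⟩
    obtain ⟨y₂, hy₂, e₂⟩ := h2.inj (x₂ + y + x') (add_mem (add_mem hx₂ (iM hy)) (iM hx'))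
      (by rw [map_add, map_add, hdy, hdx', add_zero, add_comm, hdx])
      ⟨c₂ - c'', sub_mem hc₂ (iV hc''), by
        rw [map_sub, map_add, map_add]; linear_combination (norm := abel1) e + hcx⟩
    refine ⟨y₁ + y₂, add_mem (jL hy₁) (jM hy₂), ?_⟩
    rw [map_add, e₁, e₂]
    abel
  · intro z hz hz0
    obtain ⟨z', hz', c, hc, rfl⟩ := small_cycle hU hV hz (by rw [hz0]; exact zero_mem _)
    obtain ⟨z₁, hz₁, z₂, hz₂, rfl⟩ := Submodule.mem_sup.1 hz'
    rw [map_add, map_add, sbd_sbd, add_zero] at hz0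
    obtain ⟨x, hx, c', hc', hdx, e⟩ := h3.surj _
      (hI _ (sbd_mem_SCs hz₁) _ (sbd_mem_SCs hz₂) hz0) (sbd_sbd _)
    obtain ⟨y₁, hy₁, e₁⟩ := h1.inj x (iL hx) hdx ⟨z₁ - c', sub_mem hz₁ (iU hc'), by
      rw [map_sub]; linear_combination (norm := abel1) e⟩
    obtain ⟨y₂, hy₂, e₂⟩ := h2.inj x (iM hx) hdx ⟨-z₂ - c', sub_mem (neg_mem hz₂) (iV hc'), by
      rw [map_sub, map_neg]; linear_combination (norm := abel1) e - hz0⟩
    obtain ⟨x₁, hx₁, c₁, hc₁, hd₁, f₁⟩ := h1.surj (z₁ - c' - F y₁)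
      (sub_mem (sub_mem hz₁ (iU hc')) (FL _ hy₁)) (by
        rw [map_sub, map_sub, hF, e₁]; linear_combination (norm := abel1) e)
    obtain ⟨x₂, hx₂, c₂, hc₂, hd₂, f₂⟩ := h2.surj (z₂ + c' + F y₂)
      (add_mem (add_mem hz₂ (iV hc')) (FM _ hy₂)) (by
        rw [map_add, map_add, hF, e₂]; linear_combination (norm := abel1) hz0 - e)
    refine ⟨y₁ - y₂ + x₁ + x₂,
      add_mem (add_mem (sub_mem (jL hy₁) (jM hy₂)) (jL hx₁)) (jM hx₂), c₁ + c₂ + c,
      add_mem (add_mem (jU hc₁) (jV hc₂)) hc, ?_, ?_⟩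
    · rw [map_add, map_add, map_sub, e₁, e₂, hd₁, hd₂, sub_self, add_zero, add_zero]
    · simp only [map_add, map_sub]
      linear_combination (norm := abel1) f₁ + f₂

end Pool.Agent.Work.MP_735653_gt
end

-- merged part: Pool.Agent.Work.MP_735653_gt.Cmp
section
/-! Comparison of cellular and singular chains. -/

namespace Pool.Agent.Work.MP_735653_gt

open Finsupp

theorem Cmp_map {P V : Type} [AddCommGroup V] {S : Set P} (T : Submodule ℤ V)
    (F : (P →₀ ℤ) →ₗ[ℤ] V) (h : ∀ s ∈ S, F (single s 1) ∈ T) :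
    ∀ x ∈ supported ℤ ℤ S, F x ∈ T := by
  have : supported ℤ ℤ S ≤ T.comap F := by
    rw [supported_eq_span_single, Submodule.span_le]
    rintro _ ⟨s, hs, rfl⟩
    exact h s hs
  exact fun x hx => this hx

theorem Cmp_empty {E : Type} [TopologicalSpace E] {z : SC E} (hz : z ∈ SCs (∅ : Set E)) :
    z = 0 := by
  ext s
  by_contra h
  exact (mem_supported ℤ z).1 hz (mem_support_iff.2 h) ⟨stdSimplex.vertex 0, rfl⟩

theorem Cmp_cover {P E : Type} [TopologicalSpace E] (le : P → P → Prop) (hre : ∀ p, le p p)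
    (r : E → P) (ho : ∀ p, IsOpen {x | le (r x) p}) (s : Sx E) :
    ∃ T : Finset P, ∀ t, ∃ p ∈ T, le (r (s.2 t)) p := by
  obtain ⟨T, hT⟩ := (isCompact_range s.2.continuous).elim_finite_subcover
    (fun p => {x | le (r x) p}) ho fun x _ => Set.mem_iUnion.2 ⟨r x, hre _⟩
  refine ⟨T, fun t => ?_⟩
  obtain ⟨p, hp, h⟩ := Set.mem_iUnion₂.1 (hT ⟨t, rfl⟩)
  exact ⟨p, hp, h⟩

theorem qiOn_univ {P E : Type} [TopologicalSpace E] (le : P → P → Prop)
    (htr : ∀ p q r, le p q → le q r → le p r) (hre : ∀ p, le p p)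
    (han : ∀ p q, le p q → le q p → p = q) (hfi : ∀ p, {q | le q p}.Finite) (r : E → P)
    (ho : ∀ p, IsOpen {x | le (r x) p}) {d : (P →₀ ℤ) →ₗ[ℤ] (P →₀ ℤ)} {F : (P →₀ ℤ) →ₗ[ℤ] SC E}
    (hdd : ∀ x, d (d x) = 0) (hF : ∀ x, sbd E (F x) = F (d x))
    (hd : ∀ p, d (single p 1) ∈ supported ℤ ℤ {q | le q p})
    (hU : ∀ p, F (single p 1) ∈ SCs {x | le (r x) p})
    (h : ∀ p, QIon d F {q | le q p} {x | le (r x) p}) : QIon d F Set.univ Set.univ := by
  classical
  have hop : ∀ L : Set P, (∀ p ∈ L, ∀ q, le q p → q ∈ L) → IsOpen (r ⁻¹' L) := by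
    intro L hL
    refine isOpen_iff_forall_mem_open.2 fun x hx => ⟨_, fun y hy => hL _ hx _ hy, ho (r x), hre _⟩
  have hdL : ∀ L : Set P, (∀ p ∈ L, ∀ q, le q p → q ∈ L) →
      ∀ x ∈ supported ℤ ℤ L, d x ∈ supported ℤ ℤ L := fun L hL =>
    Cmp_map _ _ fun p hp => supported_mono (fun q hq => hL p hp q hq) (hd p)
  have hFL : ∀ L : Set P, (∀ p ∈ L, ∀ q, le q p → q ∈ L) →
      ∀ x ∈ supported ℤ ℤ L, F x ∈ SCs (r ⁻¹' L) := fun L hL =>
    Cmp_map _ _ fun p hp => SCs_mono (V := r ⁻¹' L) (fun x hx => hL p hp (r x) hx) (hU p)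
  have key : ∀ (n : ℕ) (L : Set P), L.Finite → L.ncard = n → (∀ p ∈ L, ∀ q, le q p → q ∈ L) →
      QIon d F L (r ⁻¹' L) := by
    intro n
    induction n using Nat.strong_induction_on with
    | _ n ih =>
      intro L hL hn hc
      rcases L.eq_empty_or_nonempty with rfl | hne
      · refine ⟨fun x hx _ _ => ⟨0, zero_mem _, ?_⟩, fun z hz _ => ⟨0, zero_mem _, 0, zero_mem _,
          map_zero _, ?_⟩⟩
        · rw [supported_empty, Submodule.mem_bot] at hx
          rw [hx, map_zero]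
        · rw [Cmp_empty hz, map_zero, map_zero, add_zero]
      obtain ⟨p, hp, hm⟩ := Set.exists_max_image L (fun p => {q | le q p}.ncard) hL hne
      have hmax : ∀ q ∈ L, le p q → q = p := fun q hq hpq => by
        have e : {q' | le q' p} = {q' | le q' q} :=
          Set.eq_of_subset_of_ncard_le (fun q' h' => htr _ _ _ h' hpq) (hm q hq) (hfi q)
        have : q ∈ {q' | le q' p} := e ▸ hre q
        exact han _ _ this hpq
      have h1 : ∀ q ∈ L \ {p}, ∀ q', le q' q → q' ∈ L \ {p} := fun q hq q' h' =>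
        ⟨hc q hq.1 q' h', fun e => hq.2 (hmax q hq.1 (by rwa [show q' = p from e] at h'))⟩
      have h2 : ∀ q ∈ {q | le q p}, ∀ q', le q' q → q' ∈ {q | le q p} := fun q hq q' h' =>
        htr _ _ _ h' hq
      have hlt : (L \ {p}).ncard < n := hn ▸ Set.ncard_sdiff_singleton_lt_of_mem hp hL
      have hf1 : (L \ {p}).Finite := hL.subset Set.sdiff_subset
      have e : L \ {p} ∪ {q | le q p} = L := by
        ext q
        constructor
        · rintro (hq | hq)
          · exact hq.1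
          · exact hc p hp q hq
        · intro hq
          by_cases e : q = p
          · exact Or.inr (e ▸ hre q)
          · exact Or.inl ⟨hq, e⟩
      have := QIon.union (hop _ h1) (hop _ h2) hdd hF (hdL _ h1) (hdL _ h2) (hFL _ h1) (hFL _ h2)
        (ih _ hlt _ hf1 rfl h1) (h p)
        (ih _ ((Set.ncard_le_ncard Set.inter_subset_left hf1).trans_lt hlt) _
          (hf1.subset Set.inter_subset_left) rfl
          fun q hq q' h' => ⟨h1 q hq.1 q' h', h2 q hq.2 q' h'⟩)
      rwa [← Set.preimage_union, e] at this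
  have fin : ∀ (x : P →₀ ℤ) (c : SC E), ∃ L : Set P, QIon d F L (r ⁻¹' L) ∧
      x ∈ supported ℤ ℤ L ∧ c ∈ SCs (r ⁻¹' L) := by
    intro x c
    choose T hT using Cmp_cover le hre r ho
    let T' : Finset P := x.support ∪ c.support.biUnion T
    refine ⟨⋃ p ∈ (T' : Set P), {q | le q p}, key _ _ (T'.finite_toSet.biUnion fun p _ => hfi p) rfl
      fun q hq q' h' => ?_, (mem_supported ℤ x).2 fun p hp => ?_,
      (mem_supported ℤ c).2 fun s hs => ?_⟩
    · obtain ⟨p, hp, hq⟩ := Set.mem_iUnion₂.1 hq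
      exact Set.mem_biUnion hp (htr _ _ _ h' hq)
    · exact Set.mem_biUnion (Finset.mem_coe.2 (Finset.mem_union_left _ hp)) (hre p)
    · rintro _ ⟨t, rfl⟩
      obtain ⟨p, hp, h'⟩ := hT s t
      exact Set.mem_biUnion (Finset.mem_coe.2 (Finset.mem_union_right _
        (Finset.mem_biUnion.2 ⟨s, hs, hp⟩))) h'
  refine ⟨fun x _ hx ⟨c, _, hc⟩ => ?_, fun z _ hz => ?_⟩
  · obtain ⟨L, hL, h1, h2⟩ := fin x c
    obtain ⟨y, hy, e⟩ := hL.inj x h1 hx ⟨c, h2, hc⟩
    exact ⟨y, supported_mono (Set.subset_univ _) hy, e⟩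
  · obtain ⟨L, hL, -, h2⟩ := fin 0 z
    obtain ⟨x, hx, c, hc, e⟩ := hL.surj z h2 hz
    exact ⟨x, supported_mono (Set.subset_univ _) hx, c, SCs_mono (Set.subset_univ _) hc, e⟩

theorem qiOn_local {P E : Type} [TopologicalSpace E] {d : (P →₀ ℤ) →ₗ[ℤ] (P →₀ ℤ)}
    {F : (P →₀ ℤ) →ₗ[ℤ] SC E} (hF : ∀ x, sbd E (F x) = F (d x)) (a : (P →₀ ℤ) →ₗ[ℤ] ℤ)
    (ha : ∀ x, aug E (F x) = a x) {L : Set P} {U : Set E} [ContractibleSpace U]
    (FL : ∀ x ∈ supported ℤ ℤ L, F x ∈ SCs U)
    (h1 : ∀ x ∈ supported ℤ ℤ L, d x = 0 → a x = 0 → ∃ y ∈ supported ℤ ℤ L, d y = x)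
    (h2 : ∃ x ∈ supported ℤ ℤ L, d x = 0 ∧ a x = 1) : QIon d F L U := by
  refine ⟨fun x hx h0 ⟨c, _, hc⟩ => h1 x hx h0 (by rw [← ha, ← hc, aug_sbd]), fun z hz h0 => ?_⟩
  obtain ⟨x, hx, hd, ha1⟩ := h2
  have hx' : aug E z • x ∈ supported ℤ ℤ L := Submodule.smul_mem _ _ hx
  have hd' : d (aug E z • x) = 0 := by rw [map_smul, hd, smul_zero]
  obtain ⟨c, hc, e⟩ := acyclic_all U (sub_mem hz (FL _ hx'))
    (by rw [map_sub, h0, hF, hd', map_zero, sub_zero])
    (by rw [map_sub, ha, map_smul, ha1, smul_eq_mul, mul_one, sub_self])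
  exact ⟨_, hx', c, hc, hd', by rw [e, add_sub_cancel]⟩

end Pool.Agent.Work.MP_735653_gt
end

-- merged part: Pool.Agent.Work.MP_735653_gt.Cube
section
/-! The cellular chains of the covering complex; closed cells are acyclic. -/

namespace Pool.Agent.Work.MP_735653_gt

open Finsupp

variable {D : ℕ} {G : Type} [Group G] {X : LC D G}

theorem Cube_ind {α M : Type} [AddCommGroup M] (f : (α →₀ ℤ) →ₗ[ℤ] M) (N : Submodule ℤ M)
    {s : Set α} (h : ∀ b ∈ s, f (single b 1) ∈ N) : ∀ x ∈ supported ℤ ℤ s, f x ∈ N := by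
  intro x hx
  rw [supported_eq_span_single] at hx
  have k : Submodule.span ℤ ((fun i => single i (1 : ℤ)) '' s) ≤ N.comap f :=
    Submodule.span_le.2 (by rintro _ ⟨b, hb, rfl⟩; exact h b hb)
  exact k hx

theorem Cube_ext {α M : Type} [AddCommGroup M] (f g : (α →₀ ℤ) →ₗ[ℤ] M)
    {s : Set α} (h : ∀ b ∈ s, f (single b 1) = g (single b 1)) :
    ∀ x ∈ supported ℤ ℤ s, f x = g x := by
  intro x hx
  have k := Cube_ind (f - g) ⊥ (s := s) (fun b hb => by
    rw [Submodule.mem_bot, LinearMap.sub_apply, h b hb, sub_self]) x hx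
  rwa [Submodule.mem_bot, LinearMap.sub_apply, sub_eq_zero] at k

theorem Cube_all {α : Type} (x : α →₀ ℤ) : x ∈ supported ℤ ℤ (Set.univ : Set α) := by
  rw [supported_univ]; trivial

/-- the boundary operator of the whole lattice -/
noncomputable def Cube_d (D : ℕ) : (Cell D →₀ ℤ) →ₗ[ℤ] (Cell D →₀ ℤ) :=
  linearCombination ℤ fun b => ∑ i, if b i % 2 = 1 then
    sg b i • (single (b + ee i) 1 - single (b - ee i) 1) else 0

/-- the augmentation of the whole lattice -/
noncomputable def Cube_e (D : ℕ) : (Cell D →₀ ℤ) →ₗ[ℤ] ℤ :=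
  linearCombination ℤ fun b => if dim b = 0 then 1 else 0

theorem Cube_d_single (b : Cell D) : Cube_d D (single b 1) = ∑ i, if b i % 2 = 1 then
    sg b i • (single (b + ee i) (1 : ℤ) - single (b - ee i) 1) else 0 := by
  rw [Cube_d, linearCombination_single, one_smul]

theorem Cube_e_single (b : Cell D) : Cube_e D (single b 1) = if dim b = 0 then 1 else 0 := by
  rw [Cube_e, linearCombination_single, one_smul]

theorem Cube_fc_add {b : Cell D} {i : Fin D} (h : b i % 2 = 1) : Fc (b + ee i) b :=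
  ⟨i, h, Or.inl rfl⟩

theorem Cube_fc_sub {b : Cell D} {i : Fin D} (h : b i % 2 = 1) : Fc (b - ee i) b :=
  ⟨i, h, Or.inr rfl⟩

/-- a linear map applied to the boundary of a cell -/
theorem Cube_map_d {M : Type} [AddCommGroup M] (f : (Cell D →₀ ℤ) →ₗ[ℤ] M) (b : Cell D) :
    f (Cube_d D (single b 1)) = ∑ i, if b i % 2 = 1 then
      sg b i • (f (single (b + ee i) 1) - f (single (b - ee i) 1)) else 0 := by
  rw [Cube_d_single, map_sum]
  refine Finset.sum_congr rfl fun i _ => ?_
  split_ifs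
  · rw [map_smul, map_sub]
  · exact map_zero f

theorem Cube_map_inc {M : Type} [AddCommGroup M] (f : (Cell D →₀ ℤ) →ₗ[ℤ] M) (b : Cell D)
    (S : Finset (Cell D)) (hS : ∀ c, Face c b → c ∈ S) :
    f (Cube_d D (single b 1)) = ∑ c ∈ S, inc b c • f (single c 1) := by
  rw [Cube_map_d, sum_inc]
  refine Finset.sum_congr rfl fun i _ => ?_
  by_cases h : b i % 2 = 1
  · rw [if_pos h, if_pos h, if_pos (hS _ (Cube_fc_add h).face),
      if_pos (hS _ (Cube_fc_sub h).face)]
  · rw [if_neg h, if_neg h]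

theorem Cube_dd (x : Cell D →₀ ℤ) : Cube_d D (Cube_d D x) = 0 := by
  refine Cube_ext (Cube_d D ∘ₗ Cube_d D) 0 (s := Set.univ) (fun b _ => ?_) x (Cube_all x)
  have hS : ∀ c, c ∈ (face_finite b).toFinset ↔ Face c b := fun c => by simp
  set S := (face_finite b).toFinset
  rw [LinearMap.comp_apply, LinearMap.zero_apply, Cube_map_inc _ b S fun c hc => (hS c).2 hc]
  have k : ∀ c ∈ S, inc b c • Cube_d D (single c 1)
      = ∑ e ∈ S, (inc b c * inc c e) • single e (1 : ℤ) := by
    intro c hc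
    have := Cube_map_inc LinearMap.id c S fun e he => (hS e).2 (he.trans ((hS c).1 hc))
    simp only [LinearMap.id_apply] at this
    rw [this, Finset.smul_sum]
    exact Finset.sum_congr rfl fun e _ => (mul_smul _ _ _).symm
  rw [Finset.sum_congr rfl k, Finset.sum_comm]
  refine Finset.sum_eq_zero fun e _ => ?_
  rw [← Finset.sum_smul, sum_inc_inc S b e fun c hc _ => (hS c).2 hc, zero_smul]

theorem Cube_ed (x : Cell D →₀ ℤ) : Cube_e D (Cube_d D x) = 0 := by
  refine Cube_ext (Cube_e D ∘ₗ Cube_d D) 0 (s := Set.univ) (fun b _ => ?_) x (Cube_all x)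
  rw [LinearMap.comp_apply, LinearMap.zero_apply, Cube_map_d]
  refine Finset.sum_eq_zero fun i _ => ?_
  split_ifs with h
  · have h1 := (Cube_fc_add h).dim_eq
    have h2 := (Cube_fc_sub h).dim_eq
    rw [Cube_e_single, Cube_e_single, show dim (b + ee i) = dim (b - ee i) by omega, sub_self,
      smul_zero]
  · rfl

theorem Cube_d_mem (a : Cell D) :
    ∀ x ∈ supported ℤ ℤ {b | Face b a}, Cube_d D x ∈ supported ℤ ℤ {b | Face b a} := by
  refine Cube_ind _ _ fun b hb => ?_
  rw [Cube_d_single]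
  refine Submodule.sum_mem _ fun i _ => ?_
  split_ifs with h
  · exact Submodule.smul_mem _ _ (Submodule.sub_mem _
      (single_mem_supported ℤ _ ((Cube_fc_add h).face.trans hb))
      (single_mem_supported ℤ _ ((Cube_fc_sub h).face.trans hb)))
  · exact Submodule.zero_mem _

/-- the homotopy that contracts one coordinate -/
noncomputable def Cube_h (a : Cell D) (k : Fin D) : (Cell D →₀ ℤ) →ₗ[ℤ] (Cell D →₀ ℤ) :=
  linearCombination ℤ fun b => if b k = a k + 1 then single (b - ee k) 1 else 0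

theorem Cube_h_single (a : Cell D) (k : Fin D) (b : Cell D) :
    Cube_h a k (single b 1) = if b k = a k + 1 then single (b - ee k) 1 else 0 := by
  rw [Cube_h, linearCombination_single, one_smul]

theorem Cube_ee_self (k : Fin D) : ee k k = 1 := by simp [ee]

theorem Cube_ee_ne {i k : Fin D} (h : i ≠ k) : ee i k = 0 := by
  simp [ee, Pi.single_eq_of_ne h.symm]

theorem Cube_h_mem {a : Cell D} (k : Fin D) :
    ∀ x ∈ supported ℤ ℤ {b | Face b a}, Cube_h a k x ∈ supported ℤ ℤ {b | Face b a} := by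
  refine Cube_ind _ _ fun b hb => ?_
  rw [Cube_h_single]
  split_ifs with h
  · refine single_mem_supported ℤ _ fun i => ?_
    by_cases hi : k = i
    · subst hi
      left
      rw [Pi.sub_apply, Cube_ee_self, h, add_sub_cancel_right]
    · rw [Pi.sub_apply, Cube_ee_ne hi, sub_zero]
      exact hb i
  · exact Submodule.zero_mem _

theorem Cube_sg_one {c : Cell D} {k : Fin D} (h : ∀ j, j < k → c j % 2 ≠ 1) : sg c k = 1 := by
  unfold sg
  rw [Finset.filter_eq_empty_iff.2 fun j _ hj => h j hj.1 hj.2, Finset.card_empty, pow_zero]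

theorem Cube_push {a : Cell D} {k : Fin D} (hk : a k % 2 = 1) (hm : ∀ j, j < k → a j % 2 ≠ 1) :
    ∀ x ∈ supported ℤ ℤ {b | Face b a},
      x - Cube_d D (Cube_h a k x) - Cube_h a k (Cube_d D x) ∈
        supported ℤ ℤ {b | Face b (a - ee k)} := by
  refine Cube_ind (LinearMap.id - Cube_d D ∘ₗ Cube_h a k - Cube_h a k ∘ₗ Cube_d D) _
    fun b hb => ?_
  have hb' : Face b a := hb
  have hlt : ∀ j, j < k → b j % 2 ≠ 1 := fun j hj => by
    have h1 := hm j hj
    have h2 := hb' j
    omega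
  have hface : ∀ c : Cell D, c k = a k - 1 → (∀ i, i ≠ k → c i = b i) → Face c (a - ee k) := by
    intro c h1 h2 i
    by_cases hi : k = i
    · subst hi
      left
      rw [Pi.sub_apply, Cube_ee_self, h1]
    · rw [Pi.sub_apply, Cube_ee_ne hi, sub_zero, h2 i (Ne.symm hi)]
      exact hb' i
  simp only [LinearMap.sub_apply, LinearMap.comp_apply, LinearMap.id_apply]
  rw [Cube_map_d (Cube_h a k), Cube_h_single]
  by_cases h1 : b k = a k + 1
  · rw [if_pos h1, Cube_d_single, sub_sub, ← Finset.sum_add_distrib,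
      Finset.sum_eq_single k _ (fun h => (h (Finset.mem_univ k)).elim)]
    · have e1 : (b - ee k) k % 2 = 1 := by
        rw [Pi.sub_apply, Cube_ee_self]; omega
      have e2 : sg (b - ee k) k = 1 := Cube_sg_one fun j hj => by
        rw [Pi.sub_apply, Cube_ee_ne hj.ne', sub_zero]; exact hlt j hj
      rw [if_pos e1, if_neg (show ¬ b k % 2 = 1 by omega), e2, one_smul, add_zero,
        sub_add_cancel, sub_sub_cancel]
      refine single_mem_supported ℤ _ (hface _ ?_ fun i hi => ?_)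
      · rw [Pi.sub_apply, Pi.sub_apply, Cube_ee_self]; omega
      · rw [Pi.sub_apply, Pi.sub_apply, Cube_ee_ne hi.symm, sub_zero, sub_zero]
    · intro i _ hi
      have e1 : (b - ee k) i = b i := by rw [Pi.sub_apply, Cube_ee_ne hi.symm, sub_zero]
      rw [e1]
      by_cases h2 : b i % 2 = 1
      · have h3 : k < i := lt_of_le_of_ne (not_lt.1 fun h => hlt i h h2) hi.symm
        rw [if_pos h2, if_pos h2, sg_sub_of_lt h3, Cube_h_single, Cube_h_single,
          if_pos (by rw [Pi.add_apply, Cube_ee_ne hi, add_zero]; exact h1),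
          if_pos (by rw [Pi.sub_apply, Cube_ee_ne hi, sub_zero]; exact h1),
          sub_add_eq_add_sub b, sub_right_comm b, neg_smul, neg_add_cancel]
      · rw [if_neg h2, if_neg h2, add_zero]
  · rw [if_neg h1, map_zero, sub_zero,
      Finset.sum_eq_single k _ (fun h => (h (Finset.mem_univ k)).elim)]
    · by_cases h2 : b k % 2 = 1
      · have h3 : b k = a k := by have := hb' k; omega
        rw [if_pos h2, Cube_sg_one hlt, one_smul, Cube_h_single, Cube_h_single,
          if_pos (by rw [Pi.add_apply, Cube_ee_self, h3]),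
          if_neg (by rw [Pi.sub_apply, Cube_ee_self, h3]; omega), sub_zero,
          add_sub_cancel_right, sub_self]
        exact Submodule.zero_mem _
      · rw [if_neg h2, sub_zero]
        exact single_mem_supported ℤ _ (hface _ (by have := hb' k; omega) fun _ _ => rfl)
    · intro i _ hi
      split_ifs
      · rw [Cube_h_single, Cube_h_single,
          if_neg (by rw [Pi.add_apply, Cube_ee_ne hi, add_zero]; exact h1),
          if_neg (by rw [Pi.sub_apply, Cube_ee_ne hi, sub_zero]; exact h1), sub_self, smul_zero]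
      · rfl

theorem Cube_lattice (n : ℕ) : ∀ a : Cell D, dim a = n → ∀ x ∈ supported ℤ ℤ {b | Face b a},
    Cube_d D x = 0 → Cube_e D x = 0 → ∃ y ∈ supported ℤ ℤ {b | Face b a}, Cube_d D y = x := by
  induction n with
  | zero =>
    intro a ha x hx _ he
    refine ⟨0, Submodule.zero_mem _, ?_⟩
    have k := Cube_ext LinearMap.id (LinearMap.toSpanSingleton ℤ _ (single a (1 : ℤ)) ∘ₗ Cube_e D)
      (s := {b | Face b a}) (fun b hb => by
        have hb' : Face b a := hb
        have h1 : b = a := hb'.eq_of_dim (by have := dim_nonneg b; omega)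
        rw [h1, LinearMap.comp_apply, Cube_e_single, if_pos (by exact_mod_cast ha),
          LinearMap.toSpanSingleton_apply, one_smul, LinearMap.id_apply]) x hx
    rw [LinearMap.comp_apply, he, map_zero, LinearMap.id_apply] at k
    rw [map_zero, k]
  | succ n ih =>
    intro a ha x hx hd he
    have hne : (Finset.univ.filter fun i => a i % 2 = 1).Nonempty := by
      rw [← Finset.card_pos]
      unfold dim at ha
      omega
    obtain ⟨k, hk, hmin⟩ := Finset.exists_min_image _ id hne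
    have hk' : a k % 2 = 1 := (Finset.mem_filter.1 hk).2
    have hm : ∀ j, j < k → a j % 2 ≠ 1 := fun j hj h =>
      absurd (hmin j (Finset.mem_filter.2 ⟨Finset.mem_univ j, h⟩)) (not_le.2 hj)
    have hf := Cube_fc_sub hk'
    have h1 := Cube_push hk' hm x hx
    rw [hd, map_zero, sub_zero] at h1
    obtain ⟨y, hy, hy2⟩ := ih (a - ee k) (by have := hf.dim_eq; push_cast at ha; omega) _ h1
      (by rw [map_sub, hd, Cube_dd, sub_zero]) (by rw [map_sub, he, Cube_ed, sub_zero])
    refine ⟨y + Cube_h a k x, Submodule.add_mem _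
      (supported_mono (fun b (hb : Face b (a - ee k)) => hb.trans hf.face) hy)
      (Cube_h_mem k x hx), ?_⟩
    rw [map_add, hy2, sub_add_cancel]

/-- lifting chains to the closed cell `p` -/
noncomputable def Cube_up (p : CC X) : (Cell D →₀ ℤ) →ₗ[ℤ] (CC X →₀ ℤ) :=
  linearCombination ℤ fun b => if h : b ∈ X.K then single (p.1 * X.μ p.2.1 b, ⟨b, h⟩) 1 else 0

/-- projecting chains to the lattice -/
noncomputable def Cube_dn (X : LC D G) : (CC X →₀ ℤ) →ₗ[ℤ] (Cell D →₀ ℤ) :=
  linearCombination ℤ fun q => single q.2.1 1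

theorem Cube_up_single (p : CC X) {b : Cell D} (h : b ∈ X.K) :
    Cube_up p (single b 1) = single (p.1 * X.μ p.2.1 b, ⟨b, h⟩) 1 := by
  rw [Cube_up, linearCombination_single, one_smul, dif_pos h]

theorem Cube_dn_single (q : CC X) (n : ℤ) : Cube_dn X (single q n) = n • single q.2.1 1 := by
  rw [Cube_dn, linearCombination_single]

theorem Cube_cbd_single (p : CC X) : cbd X (single p 1) =
    ∑ b : X.K, single (p.1 * X.μ p.2.1 b.1, b) (inc p.2.1 b.1) := by
  rw [cbd, linearCombination_single, one_smul]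

theorem Cube_caug_single (p : CC X) :
    caug X (single p 1) = if dim p.2.1 = 0 then 1 else 0 := by
  rw [caug, linearCombination_single, one_smul]

theorem Cube_cbd_up (p : CC X) : ∀ x ∈ supported ℤ ℤ {b | Face b p.2.1},
    cbd X (Cube_up p x) = Cube_up p (Cube_d D x) := by
  refine Cube_ext (cbd X ∘ₗ Cube_up p) (Cube_up p ∘ₗ Cube_d D) fun b hb => ?_
  have hb' : Face b p.2.1 := hb
  have hK : b ∈ X.K := X.down _ p.2.2 _ hb'
  rw [LinearMap.comp_apply, LinearMap.comp_apply, Cube_up_single p hK, Cube_cbd_single,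
    Cube_map_inc _ b X.K fun c hc => X.down _ hK _ hc, ← Finset.sum_coe_sort X.K]
  refine Finset.sum_congr rfl fun c _ => ?_
  by_cases h : inc b c.1 = 0
  · rw [h, zero_smul, single_zero]
  · rw [Cube_up_single p c.2, smul_single, smul_eq_mul, mul_one,
      X.coc _ p.2.2 _ _ hb' (fc_of_inc h).face, mul_assoc]

theorem Cube_dn_cbd (x : CC X →₀ ℤ) : Cube_dn X (cbd X x) = Cube_d D (Cube_dn X x) := by
  refine Cube_ext (Cube_dn X ∘ₗ cbd X) (Cube_d D ∘ₗ Cube_dn X) (s := Set.univ) (fun q _ => ?_) x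
    (Cube_all x)
  have k := Cube_map_inc LinearMap.id q.2.1 X.K fun c hc => X.down _ q.2.2 _ hc
  simp only [LinearMap.id_apply] at k
  rw [LinearMap.comp_apply, LinearMap.comp_apply, Cube_dn_single, one_smul, k, Cube_cbd_single,
    map_sum, ← Finset.sum_coe_sort X.K]
  exact Finset.sum_congr rfl fun c _ => Cube_dn_single _ _

theorem Cube_e_dn (x : CC X →₀ ℤ) : Cube_e D (Cube_dn X x) = caug X x := by
  refine Cube_ext (Cube_e D ∘ₗ Cube_dn X) (caug X) (s := Set.univ) (fun q _ => ?_) x (Cube_all x)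
  rw [LinearMap.comp_apply, Cube_dn_single, one_smul, Cube_e_single, Cube_caug_single]

theorem Cube_up_dn (p : CC X) : ∀ x ∈ supported ℤ ℤ {q | CLe X q p},
    Cube_up p (Cube_dn X x) = x := by
  refine Cube_ext (Cube_up p ∘ₗ Cube_dn X) LinearMap.id fun q hq => ?_
  have hq' : CLe X q p := hq
  rw [LinearMap.comp_apply, Cube_dn_single, one_smul, Cube_up_single p q.2.2, ← hq'.2,
    LinearMap.id_apply]

theorem Cube_dn_mem (p : CC X) : ∀ x ∈ supported ℤ ℤ {q | CLe X q p},
    Cube_dn X x ∈ supported ℤ ℤ {b | Face b p.2.1} := by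
  refine Cube_ind _ _ fun q hq => ?_
  have hq' : CLe X q p := hq
  rw [Cube_dn_single, one_smul]
  exact single_mem_supported ℤ _ hq'.1

theorem Cube_up_mem (p : CC X) : ∀ x ∈ supported ℤ ℤ {b | Face b p.2.1},
    Cube_up p x ∈ supported ℤ ℤ {q | CLe X q p} := by
  refine Cube_ind _ _ fun b hb => ?_
  rw [Cube_up_single p (X.down _ p.2.2 _ hb)]
  exact single_mem_supported ℤ _ ⟨hb, rfl⟩

theorem Cube_cbd_eq (p : CC X) : ∀ x ∈ supported ℤ ℤ {q | CLe X q p},
    cbd X x = Cube_up p (Cube_d D (Cube_dn X x)) := fun x hx => by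
  rw [← Cube_cbd_up p _ (Cube_dn_mem p x hx), Cube_up_dn p x hx]

theorem cbd_cbd (x : CC X →₀ ℤ) : cbd X (cbd X x) = 0 := by
  refine Cube_ext (cbd X ∘ₗ cbd X) 0 (s := Set.univ) (fun p _ => ?_) x (Cube_all x)
  have h : single p (1 : ℤ) ∈ supported ℤ ℤ {q | CLe X q p} :=
    single_mem_supported ℤ _ (CLe.refl p)
  rw [LinearMap.comp_apply, LinearMap.zero_apply, Cube_cbd_eq p _ h,
    Cube_cbd_up p _ (Cube_d_mem _ _ (Cube_dn_mem p _ h)), Cube_dd, map_zero]

theorem cbd_mem (p : CC X) : cbd X (single p 1) ∈ supported ℤ ℤ {q | CLe X q p} := by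
  have h : single p (1 : ℤ) ∈ supported ℤ ℤ {q | CLe X q p} :=
    single_mem_supported ℤ _ (CLe.refl p)
  rw [Cube_cbd_eq p _ h]
  exact Cube_up_mem p _ (Cube_d_mem _ _ (Cube_dn_mem p _ h))

theorem cube_vertex (p : CC X) :
    ∃ x ∈ supported ℤ ℤ {q | CLe X q p}, cbd X x = 0 ∧ caug X x = 1 := by
  have h : single (bot p.2.1) (1 : ℤ) ∈ supported ℤ ℤ {b | Face b p.2.1} :=
    single_mem_supported ℤ _ (bot_face _)
  refine ⟨_, Cube_up_mem p _ h, ?_, ?_⟩
  · rw [Cube_cbd_up p _ h, Cube_d_single, Finset.sum_eq_zero, map_zero]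
    intro i _
    exact if_neg (by have := vtx_bot p.2.1 i; omega)
  · rw [Cube_up_single p (X.down _ p.2.2 _ (bot_face _)), Cube_caug_single,
      if_pos (dim_eq_zero_iff.2 (vtx_bot _))]

theorem cube_acyclic (p : CC X) : ∀ x ∈ supported ℤ ℤ {q | CLe X q p}, cbd X x = 0 →
    caug X x = 0 → ∃ y ∈ supported ℤ ℤ {q | CLe X q p}, cbd X y = x := by
  intro x hx hd he
  obtain ⟨y, hy, hy2⟩ := Cube_lattice (dim p.2.1).toNat p.2.1
    (Int.toNat_of_nonneg (dim_nonneg _)).symm _ (Cube_dn_mem p x hx)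
    (by rw [← Cube_dn_cbd, hd, map_zero]) (by rw [Cube_e_dn, he])
  exact ⟨_, Cube_up_mem p y hy, by rw [Cube_cbd_up p y hy, hy2, Cube_up_dn p x hx]⟩

end Pool.Agent.Work.MP_735653_gt
end

-- merged part: Pool.Agent.Work.MP_735653_gt.WHE
section
/-! The neighbourhood collapses to the complex. -/

namespace Pool.Agent.Work.MP_735653_gt

variable {D : ℕ} {G : Type} [Group G]

theorem WHE_ee (i k : Fin D) : ee i k = if k = i then 1 else 0 := by
  simp [ee, Pi.single_apply]

theorem WHE_sum (i : Fin D) : ∑ k, ee i k = 1 := by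
  simp [WHE_ee]

/-- the partner of a cell -/
def WHE_σ (s : ℤ) (y : Cell D) : Cell D := fun k =>
  y k + if ∀ j < k, 2 ≤ (y j + s) % 4 then
    (if (y k + s) % 4 = 1 then -1 else if (y k + s) % 4 = 0 then 1 else 0) else 0

theorem WHE_up {s : ℤ} {y : Cell D} {i : Fin D} (h : (y i + s) % 4 = 1)
    (h' : ∀ j < i, 2 ≤ (y j + s) % 4) : WHE_σ s y = y - ee i := by
  funext k
  rw [WHE_σ, Pi.sub_apply, WHE_ee]
  rcases lt_trichotomy k i with c | rfl | c
  · have := h' k c
    rw [if_neg c.ne]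
    split_ifs <;> omega
  · rw [if_pos h', if_pos h, if_pos rfl]
    ring
  · rw [if_neg c.ne', if_neg fun e => by have := e i c; omega]
    ring

theorem WHE_dn {s : ℤ} {y : Cell D} {i : Fin D} (h : (y i + s) % 4 = 0)
    (h' : ∀ j < i, 2 ≤ (y j + s) % 4) : WHE_σ s y = y + ee i := by
  funext k
  rw [WHE_σ, Pi.add_apply, WHE_ee]
  rcases lt_trichotomy k i with c | rfl | c
  · have := h' k c
    rw [if_neg c.ne]
    split_ifs <;> omega
  · rw [if_pos h', if_neg (by omega), if_pos h, if_pos rfl]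
  · rw [if_neg c.ne', if_neg fun e => by have := e i c; omega]

theorem exists_LM_shift (s : ℤ) (hs : s % 2 = 0) (S : Finset (Cell D))
    (h1 : ∀ y ∈ S, ∀ i, (y i + s) % 4 = 0 → y + ee i ∈ S)
    (h2 : ∀ y ∈ S, ∀ i, (y i + s) % 4 = 1 → y - ee i ∈ S) :
    ∃ m : LM S, (∀ y, m.up y → ∃ i, (y i + s) % 4 = 1) ∧
      ∀ y, (¬ m.up y ∧ ¬ m.dn y) ↔ ∀ i, 2 ≤ (y i + s) % 4 := by
  refine ⟨{
    up := fun y => ∃ i, (y i + s) % 4 = 1 ∧ ∀ j < i, 2 ≤ (y j + s) % 4
    dn := fun y => ∃ i, (y i + s) % 4 = 0 ∧ ∀ j < i, 2 ≤ (y j + s) % 4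
    σ := WHE_σ s
    ρ := fun y => -∑ k, y k
    up_σ := ?_, dn_σ := ?_, disj := ?_, tri := ?_ }, fun y h => h.imp fun _ h => h.1, fun y => ?_⟩
  · rintro a ha ⟨i, h, h'⟩
    have e1 : ((a - ee i) i + s) % 4 = 0 := by
      rw [Pi.sub_apply, WHE_ee, if_pos rfl]
      omega
    have e2 : ∀ j < i, 2 ≤ ((a - ee i) j + s) % 4 := fun j hj => by
      rw [Pi.sub_apply, WHE_ee, if_neg hj.ne, sub_zero]
      exact h' j hj
    rw [WHE_up h h', WHE_dn e1 e2]
    exact ⟨h2 a ha i h, ⟨i, e1, e2⟩, sub_add_cancel _ _, i, by omega, .inr rfl⟩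
  · rintro a ha ⟨i, h, h'⟩
    have e1 : ((a + ee i) i + s) % 4 = 1 := by
      rw [Pi.add_apply, WHE_ee, if_pos rfl]
      omega
    have e2 : ∀ j < i, 2 ≤ ((a + ee i) j + s) % 4 := fun j hj => by
      rw [Pi.add_apply, WHE_ee, if_neg hj.ne, add_zero]
      exact h' j hj
    rw [WHE_dn h h', WHE_up e1 e2]
    exact ⟨h1 a ha i h, ⟨i, e1, e2⟩, add_sub_cancel_right _ _⟩
  · rintro a - ⟨i, h, h'⟩ ⟨k, g, g'⟩
    rcases lt_trichotomy k i with c | rfl | c
    · have := h' k c
      omega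
    · omega
    · have := g' i c
      omega
  · rintro a - b - ⟨i, h, h'⟩ ⟨k, g, g'⟩ ⟨l, -, rfl | rfl⟩ hne
    · rw [WHE_dn g g']
      simp only [Pi.add_apply, Finset.sum_add_distrib, WHE_sum]
      omega
    · exfalso
      have hl : i ≠ l := fun e => hne (by rw [WHE_up h h', e])
      rcases lt_trichotomy k i with c | rfl | c
      · have := h' k c
        rw [Pi.sub_apply, WHE_ee] at g
        split_ifs at g <;> omega
      · rw [Pi.sub_apply, WHE_ee, if_neg hl] at g
        omega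
      · have := g' i c
        rw [Pi.sub_apply, WHE_ee, if_neg hl] at this
        omega
  · constructor
    · rintro ⟨hu, hd⟩ i
      induction i using WellFoundedLT.induction with
      | ind i ih =>
        by_contra c
        rcases (by omega : (y i + s) % 4 = 1 ∨ (y i + s) % 4 = 0) with e | e
        exacts [hu ⟨i, e, ih⟩, hd ⟨i, e, ih⟩]
    · intro h
      constructor <;>
      · rintro ⟨i, e, -⟩
        have := h i
        omega

theorem WHE_lo {y z : Cell D} (i : Fin D) (t : ℤ) (h : ∀ k, k ≠ i → z k = y k)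
    (h' : lo z i = lo y i + t) : lo z = lo y + t • ee i := by
  funext k
  rw [Pi.add_apply, Pi.smul_apply, WHE_ee]
  by_cases c : k = i
  · subst c
    simpa using h'
  · simp [lo, h k c, c]

theorem WHE_add (y : Cell D) (i k : Fin D) (h : k ≠ i) : (y + ee i) k = y k := by
  simp [WHE_ee, h]

theorem WHE_sub (y : Cell D) (i k : Fin D) (h : k ≠ i) : (y - ee i) k = y k := by
  simp [WHE_ee, h]

theorem WHE_add' (y : Cell D) (i : Fin D) : (y + ee i) i = y i + 1 := by
  simp [WHE_ee]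

theorem WHE_sub' (y : Cell D) (i : Fin D) : (y - ee i) i = y i - 1 := by
  simp [WHE_ee]

theorem WHE_odd {y : Cell D} {i : Fin D} (h : y i % 4 ≠ 1) : lo y i % 2 = y i % 2 := by
  simp only [lo]
  split_ifs <;> omega

theorem WHE_chain {S : Finset (Cell D)} (hS : Down S) {y : Cell D} (hy : y ∈ S) (a : Cell D) :
    ∑ b ∈ S, inc y b • (if (∀ i, b i % 4 ≠ 1) ∧ lo b = a then (1 : ℤ) else 0) =
      if ∀ i, y i % 4 ≠ 1 then inc (lo y) a else 0 := by
  rw [sum_inc]
  have m1 : ∀ i, y i % 2 = 1 → y + ee i ∈ S := fun i h => hS y hy _ (Fc.face ⟨i, h, .inl rfl⟩)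
  have m2 : ∀ i, y i % 2 = 1 → y - ee i ∈ S := fun i h => hS y hy _ (Fc.face ⟨i, h, .inr rfl⟩)
  by_cases hg : ∀ i, y i % 4 ≠ 1
  · rw [if_pos hg, inc]
    refine Finset.sum_congr rfl fun i _ => ?_
    rw [WHE_odd (hg i)]
    by_cases c : y i % 2 = 1
    · have := hg i
      have g1 : ∀ k, (y + ee i) k % 4 ≠ 1 := fun k => by
        by_cases e : k = i
        · rw [e, WHE_add']
          omega
        · rw [WHE_add _ _ _ e]
          exact hg k
      have g2 : ∀ k, (y - ee i) k % 4 ≠ 1 := fun k => by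
        by_cases e : k = i
        · rw [e, WHE_sub']
          omega
        · rw [WHE_sub _ _ _ e]
          exact hg k
      have l1 := WHE_lo i 1 (WHE_add y i) (by
        simp only [lo, WHE_add']
        split_ifs <;> omega)
      have l2 := WHE_lo i (-1) (WHE_sub y i) (by
        simp only [lo, WHE_sub']
        split_ifs <;> omega)
      rw [one_smul] at l1
      rw [neg_one_smul, ← sub_eq_add_neg] at l2
      rw [if_pos c, if_pos c, if_pos (m1 i c), if_pos (m2 i c), l1, l2,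
        sg_congr (a := lo y) (b := y) fun j _ => WHE_odd (hg j)]
      simp only [g1, g2, ne_eq, not_false_eq_true, implies_true, true_and, eq_comm (a := a),
        smul_eq_mul]
    · rw [if_neg c, if_neg c]
  · rw [if_neg hg]
    refine Finset.sum_eq_zero fun i _ => ?_
    by_cases c : y i % 2 = 1
    · rw [if_pos c, if_pos (m1 i c), if_pos (m2 i c)]
      by_cases c' : y i % 4 = 1
      · have l1 := WHE_lo i 0 (fun k hk => (WHE_add y i k hk).trans (WHE_sub y i k hk).symm) (by
          simp only [lo, WHE_add', WHE_sub']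
          split_ifs <;> omega)
        rw [zero_smul, add_zero] at l1
        have g : (∀ k, (y + ee i) k % 4 ≠ 1) ↔ ∀ k, (y - ee i) k % 4 ≠ 1 :=
          forall_congr' fun k => by
            by_cases e : k = i
            · rw [e, WHE_add', WHE_sub']
              omega
            · rw [WHE_add _ _ _ e, WHE_sub _ _ _ e]
        simp only [l1, g, sub_self, smul_zero]
      · obtain ⟨j, hj⟩ := not_forall.1 hg
        have e : j ≠ i := fun e => hj (e ▸ c')
        rw [if_neg fun h => hj (WHE_add y i j e ▸ h.1 j),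
          if_neg fun h => hj (WHE_sub y i j e ▸ h.1 j), sub_self, smul_zero]
    · rw [if_neg c]

theorem LC.he_W (X : LC D G) :
    HE (dimS (WK X.K)) (bdS X.W.μ (WK X.K)) (dimS X.K) (bdS X.μ X.K) := by
  obtain ⟨m, hu, hm⟩ := exists_LM_shift 0 rfl (WK X.K)
    (fun y hy i h => by
      have l := WHE_lo i 0 (WHE_add y i) (by
        simp only [lo, WHE_add']
        split_ifs <;> omega)
      rw [mem_WK, l, zero_smul, add_zero]
      exact mem_WK.1 hy)
    (fun y hy i h => by
      have l := WHE_lo i 0 (WHE_sub y i) (by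
        simp only [lo, WHE_sub']
        split_ifs <;> omega)
      rw [mem_WK, l, zero_smul, add_zero]
      exact mem_WK.1 hy)
  have hcr : ∀ a : Cell D, lo (fun i => 2 * a i + 2 - a i % 2) = a := fun a => funext fun i => by
    simp only [lo]
    split_ifs <;> omega
  refine m.he (X.W.cx subset_rfl fun a ha _ _ b hb _ => X.W.down a ha b hb)
    (fun y a => if (∀ i, y i % 4 ≠ 1) ∧ lo y = a.1 then 1 else 0) (fun y _ a h => ?_)
    (fun y hy a => ?_) (fun y _ h a => ?_) (fun a i => 2 * a.1 i + 2 - a.1 i % 2)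
    (fun a => mem_WK.2 ((hcr a.1).symm ▸ a.2)) (fun y hy => ?_) (fun a a' h => ?_) fun a => ?_
  · obtain ⟨h1, h2⟩ : (∀ i, y i % 4 ≠ 1) ∧ lo y = a.1 := by_contra fun c => h (if_neg c)
    simp only [dimS, dim, ← h2, fun i => WHE_odd (h1 i)]
  · have e : ∀ b : Cell D, (MonoidAlgebra.single (X.W.μ y b) 1 *
        (if (∀ i, b i % 4 ≠ 1) ∧ lo b = a.1 then 1 else 0) : ZG G) =
        (if (∀ i, b i % 4 ≠ 1) ∧ lo b = a.1 then (1 : ℤ) else 0) •
          MonoidAlgebra.single (X.μ (lo y) a.1) 1 := fun b => by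
      split_ifs with c
      · rw [mul_one, one_smul, ← c.2]
        rfl
      · rw [mul_zero, zero_smul]
    simp only [e, ← smul_assoc, ← Finset.sum_smul]
    rw [show WK X.K = X.W.K from rfl, WHE_chain X.W.down hy,
      Finset.sum_eq_single ⟨lo y, mem_WK.1 hy⟩ (fun b _ hb => by
        rw [if_neg fun c => hb (Subtype.ext c.2.symm), zero_mul]) (by simp)]
    by_cases c : ∀ i, y i % 4 ≠ 1
    · rw [if_pos c, if_pos ⟨c, rfl⟩, one_mul, MonoidAlgebra.smul_single, smul_eq_mul, mul_one]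
      rfl
    · rw [if_neg c, if_neg fun h => c h.1, zero_mul, zero_smul]
  · obtain ⟨i, hi⟩ := hu y h
    exact if_neg fun c => c.1 i (by omega)
  · rw [hm]
    constructor
    · intro h
      refine ⟨⟨lo y, mem_WK.1 hy⟩, funext fun i => ?_⟩
      have := h i
      simp only [lo]
      split_ifs <;> omega
    · rintro ⟨a, rfl⟩ i
      simp only
      omega
  · exact if_neg fun c => h (Subtype.ext ((hcr a.1).symm.trans c.2))
  · rw [if_pos ⟨fun i => by simp only; omega, hcr a.1⟩]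
    exact isUnit_one

end Pool.Agent.Work.MP_735653_gt
end

-- merged part: Pool.Agent.Work.MP_735653_gt.QHE
section
/-! Duality: the interior cells of the neighbourhood collapse to the dual complex. -/

namespace Pool.Agent.Work.MP_735653_gt

variable {D : ℕ} {G : Type} [Group G]

theorem QHE_ee_self (i : Fin D) : ee i i = 1 := by simp [ee]

theorem QHE_ee_ne {i j : Fin D} (h : j ≠ i) : ee i j = 0 := by simp [ee, h]

/-- the orientation signs -/
def QHE_η (b : Cell D) : ℤ := ∏ j, if b j % 2 = 1 then (-1) ^ ((j : ℕ) + 1) else 1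

theorem QHE_η_sq (b : Cell D) : QHE_η b * QHE_η b = 1 := by
  rw [QHE_η, ← Finset.prod_mul_distrib]
  refine Finset.prod_eq_one fun j _ => ?_
  split_ifs
  · rw [← mul_pow]; simp
  · simp

theorem QHE_η_step {b c : Cell D} {i : Fin D} (hb : b i % 2 = 0) (hc : c i % 2 = 1)
    (h : ∀ j, j ≠ i → c j = b j) : QHE_η c = (-1) ^ ((i : ℕ) + 1) * QHE_η b := by
  rw [QHE_η, QHE_η, ← Finset.mul_prod_erase _ _ (Finset.mem_univ i),
    ← Finset.mul_prod_erase Finset.univ _ (Finset.mem_univ i), if_pos hc, if_neg (by omega),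
    one_mul]
  congr 1
  refine Finset.prod_congr rfl fun j hj => ?_
  rw [h j (Finset.ne_of_mem_erase hj)]

theorem QHE_sg_mul {y c : Cell D} {i : Fin D} (h : ∀ j, j < i → (y j % 2 = 1 ↔ ¬ c j % 2 = 1)) :
    sg y i * sg c i = (-1) ^ (i : ℕ) := by
  rw [sg, sg, ← pow_add]
  congr 1
  have h1 : (Finset.univ.filter fun j => j < i ∧ y j % 2 = 1) =
      (Finset.Iio i).filter fun j => ¬ c j % 2 = 1 := by
    ext j
    simp only [Finset.mem_filter, Finset.mem_univ, true_and, Finset.mem_Iio]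
    exact ⟨fun hh => ⟨hh.1, (h j hh.1).1 hh.2⟩, fun hh => ⟨hh.1, (h j hh.1).2 hh.2⟩⟩
  have h2 : (Finset.univ.filter fun j => j < i ∧ c j % 2 = 1) =
      (Finset.Iio i).filter fun j => c j % 2 = 1 := by
    ext j
    simp only [Finset.mem_filter, Finset.mem_univ, true_and, Finset.mem_Iio]
  rw [h1, h2, add_comm, Finset.card_filter_add_card_filter_not, Fin.card_Iio]

theorem QHE_sign {y b c : Cell D} {i : Fin D} (hy : ∀ j, y j % 2 = 1 ↔ ¬ b j % 2 = 1)
    (hb : b i % 2 = 0) (hc : c i % 2 = 1) (h : ∀ j, j ≠ i → c j = b j) :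
    QHE_η c * sg y i = -(QHE_η b * sg c i) := by
  have h1 : sg y i * sg c i = (-1) ^ (i : ℕ) :=
    QHE_sg_mul fun j hj => by rw [h j hj.ne]; exact hy j
  have h2 := sg_mul_self y i
  rw [QHE_η_step hb hc h, pow_succ, ← h1]
  linear_combination (-(QHE_η b * sg c i)) * h2

theorem QHE_inc_dual {y b : Cell D} (hy : ∀ j, y j % 2 = 1 ↔ ¬ b j % 2 = 1) (c : Cell D) :
    QHE_η c * ∑ i, (if y i % 2 = 1 then
      sg y i * ((if c = b + ee i then 1 else 0) - if c = b - ee i then 1 else 0) else 0) =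
      QHE_η b * inc c b := by
  rw [inc, Finset.mul_sum, Finset.mul_sum]
  refine Finset.sum_congr rfl fun i _ => ?_
  have e1 : (b = c - ee i) ↔ c = b + ee i := by
    constructor <;> rintro rfl <;> simp
  have e2 : (b = c + ee i) ↔ c = b - ee i := by
    constructor <;> rintro rfl <;> simp
  simp only [e1, e2]
  have hyi := hy i
  by_cases h1 : c = b + ee i
  · have hci : c i = b i + 1 := by rw [h1, Pi.add_apply, QHE_ee_self]
    have h2 : ¬ c = b - ee i := fun h2 => by
      have : c i = b i - 1 := by rw [h2, Pi.sub_apply, QHE_ee_self]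
      omega
    rw [if_pos h1, if_neg h2]
    by_cases h3 : y i % 2 = 1
    · have := QHE_sign (c := c) (i := i) hy (by omega) (by omega) fun j hj => by
        rw [h1, Pi.add_apply, QHE_ee_ne hj, add_zero]
      rw [if_pos h3, if_pos (by omega)]
      linear_combination this
    · rw [if_neg h3, if_neg (by omega)]
      simp
  · by_cases h2 : c = b - ee i
    · have hci : c i = b i - 1 := by rw [h2, Pi.sub_apply, QHE_ee_self]
      rw [if_neg h1, if_pos h2]
      by_cases h3 : y i % 2 = 1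
      · have := QHE_sign (c := c) (i := i) hy (by omega) (by omega) fun j hj => by
          rw [h2, Pi.sub_apply, QHE_ee_ne hj, sub_zero]
        rw [if_pos h3, if_pos (by omega)]
        linear_combination -this
      · rw [if_neg h3, if_neg (by omega)]
        simp
    · rw [if_neg h1, if_neg h2]
      simp

open Classical in
/-- the chain map to the dual complex -/
noncomputable def QHE_P (X : LC D G) (y : Cell D) (b : X.K) : ZG G :=
  if (∀ i, y i % 4 ≠ 3) ∧ hi y = b.1 then
    MonoidAlgebra.single (X.μ b.1 (lo y))⁻¹ (QHE_η b.1) else 0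

/-- the critical cells -/
def QHE_cr (b : Cell D) : Cell D := fun i => if b i % 2 = 0 then 2 * b i + 1 else 2 * b i + 2

theorem QHE_hi_cr (b : Cell D) : hi (QHE_cr b) = b := by
  funext i
  simp only [hi, QHE_cr]
  split_ifs <;> omega

theorem QHE_cr_mod (b : Cell D) (i : Fin D) : QHE_cr b i % 4 = 0 ∨ QHE_cr b i % 4 = 1 := by
  simp only [QHE_cr]
  split_ifs <;> omega

theorem QHE_cr_hi {y : Cell D} (h : ∀ i, 2 ≤ (y i + 2) % 4) : QHE_cr (hi y) = y := by
  funext i
  have := h i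
  simp only [hi, QHE_cr]
  split_ifs <;> omega

theorem QHE_par {y : Cell D} (h : ∀ i, y i % 4 ≠ 3) (j : Fin D) :
    y j % 2 = 1 ↔ ¬ hi y j % 2 = 1 := by
  have := h j
  simp only [hi]
  split_ifs <;> omega

theorem QHE_dim {y : Cell D} (h : ∀ i, y i % 4 ≠ 3) : (D : ℤ) - dim (hi y) = dim y := by
  have h1 : (Finset.univ.filter fun i => y i % 2 = 1) =
      Finset.univ.filter fun i => ¬ hi y i % 2 = 1 :=
    Finset.filter_congr fun i _ => QHE_par h i
  have h2 := Finset.card_filter_add_card_filter_not (s := (Finset.univ : Finset (Fin D)))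
    fun i => hi y i % 2 = 1
  rw [Finset.card_univ, Fintype.card_fin] at h2
  rw [dim, dim, h1]
  omega

theorem QHE_add1 {y : Cell D} {i : Fin D} (h : y i % 4 = 1) :
    hi (y + ee i) = hi y + ee i ∧ lo (y + ee i) = lo y := by
  constructor <;> funext j <;> by_cases hj : j = i
  · subst hj
    simp only [hi, Pi.add_apply, QHE_ee_self]
    split_ifs <;> omega
  · simp only [hi, Pi.add_apply, QHE_ee_ne hj, add_zero]
  · subst hj
    simp only [lo, Pi.add_apply, QHE_ee_self]
    split_ifs <;> omega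
  · simp only [lo, Pi.add_apply, QHE_ee_ne hj, add_zero]

theorem QHE_sub1 {y : Cell D} {i : Fin D} (h : y i % 4 = 1) :
    hi (y - ee i) = hi y - ee i ∧ lo (y - ee i) = lo y := by
  constructor <;> funext j <;> by_cases hj : j = i
  · subst hj
    simp only [hi, Pi.sub_apply, QHE_ee_self]
    split_ifs <;> omega
  · simp only [hi, Pi.sub_apply, QHE_ee_ne hj, sub_zero]
  · subst hj
    simp only [lo, Pi.sub_apply, QHE_ee_self]
    split_ifs <;> omega
  · simp only [lo, Pi.sub_apply, QHE_ee_ne hj, sub_zero]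

theorem QHE_add23 {y : Cell D} {i : Fin D} (h : y i % 4 = 2 ∨ y i % 4 = 3) :
    hi (y + ee i) = hi y := by
  funext j
  by_cases hj : j = i
  · subst hj
    simp only [hi, Pi.add_apply, QHE_ee_self]
    split_ifs <;> omega
  · simp only [hi, Pi.add_apply, QHE_ee_ne hj, add_zero]

theorem QHE_sub3 {y : Cell D} {i : Fin D} (h : y i % 4 = 3) : hi (y - ee i) = hi y := by
  funext j
  by_cases hj : j = i
  · subst hj
    simp only [hi, Pi.sub_apply, QHE_ee_self]
    split_ifs <;> omega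
  · simp only [hi, Pi.sub_apply, QHE_ee_ne hj, sub_zero]

theorem QHE_face_add {y : Cell D} {i : Fin D} (h : y i % 2 = 1) : Face (y + ee i) y :=
  Fc.face ⟨i, h, Or.inl rfl⟩

theorem QHE_face_sub {y : Cell D} {i : Fin D} (h : y i % 2 = 1) : Face (y - ee i) y :=
  Fc.face ⟨i, h, Or.inr rfl⟩

open Classical in
theorem QHE_term (X : LC D G) {y z : Cell D} (hz : Face z y) (c : X.K) :
    (if z ∈ QK X.K then MonoidAlgebra.single (X.W.μ y z) 1 * QHE_P X z c else 0) =
      if (∀ i, z i % 4 ≠ 3) ∧ hi z = c.1 then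
        MonoidAlgebra.single (X.μ c.1 (lo y))⁻¹ (QHE_η c.1) else 0 := by
  by_cases h : (∀ i, z i % 4 ≠ 3) ∧ hi z = c.1
  · have hq : z ∈ QK X.K := (mem_QK X.down).2 (h.2 ▸ c.2)
    have h1 : Face (lo y) c.1 := h.2 ▸ (lo_face_hi y).trans hz.hi
    have h2 := X.coc _ c.2 _ _ h1 hz.lo
    rw [if_pos hq, if_pos h, QHE_P, if_pos h, MonoidAlgebra.single_mul_single, one_mul, h2]
    congr 1
    change X.μ (lo y) (lo z) * _ = _
    group
  · rw [if_neg h, QHE_P, if_neg h]
    simp

theorem QHE_chain (X : LC D G) {y : Cell D} (hy : y ∈ QK X.K) (c : X.K) :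
    ∑ z ∈ QK X.K, inc y z • (MonoidAlgebra.single (X.W.μ y z) 1 * QHE_P X z c) =
      ∑ k, QHE_P X y k * ct (bdS X.μ X.K) k c := by
  classical
  have hb : hi y ∈ X.K := (mem_QK X.down).1 hy
  rw [sum_inc]
  by_cases h3 : ∀ i, y i % 4 ≠ 3
  · rw [Finset.sum_eq_single (⟨hi y, hb⟩ : X.K)]
    · have e : ∀ i, (if y i % 2 = 1 then sg y i •
          ((if y + ee i ∈ QK X.K then
            MonoidAlgebra.single (X.W.μ y (y + ee i)) 1 * QHE_P X (y + ee i) c else 0) -
          if y - ee i ∈ QK X.K then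
            MonoidAlgebra.single (X.W.μ y (y - ee i)) 1 * QHE_P X (y - ee i) c else 0) else 0) =
          (QHE_η c.1 * if y i % 2 = 1 then sg y i * ((if c.1 = hi y + ee i then 1 else 0) -
            if c.1 = hi y - ee i then 1 else 0) else 0) •
            (MonoidAlgebra.single (X.μ c.1 (lo y))⁻¹ 1 : ZG G) := by
        intro i
        by_cases hi2 : y i % 2 = 1
        · have h1 : y i % 4 = 1 := by have := h3 i; omega
          have a1 : ∀ j, (y + ee i) j % 4 ≠ 3 := fun j => by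
            by_cases hj : j = i
            · subst hj
              rw [Pi.add_apply, QHE_ee_self]
              omega
            · rw [Pi.add_apply, QHE_ee_ne hj, add_zero]
              exact h3 j
          have a2 : ∀ j, (y - ee i) j % 4 ≠ 3 := fun j => by
            by_cases hj : j = i
            · subst hj
              rw [Pi.sub_apply, QHE_ee_self]
              omega
            · rw [Pi.sub_apply, QHE_ee_ne hj, sub_zero]
              exact h3 j
          have hs : (MonoidAlgebra.single (X.μ c.1 (lo y))⁻¹ (QHE_η c.1) : ZG G) =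
              QHE_η c.1 • MonoidAlgebra.single (X.μ c.1 (lo y))⁻¹ 1 := by
            rw [MonoidAlgebra.smul_single, smul_eq_mul, mul_one]
          rw [if_pos hi2, if_pos hi2, QHE_term X (QHE_face_add hi2), QHE_term X (QHE_face_sub hi2),
            (QHE_add1 h1).1, (QHE_sub1 h1).1, hs]
          simp only [a1, a2, ne_eq, not_false_eq_true, implies_true, true_and,
            eq_comm (a := c.1)]
          split_ifs <;> module
        · rw [if_neg hi2, if_neg hi2, mul_zero, zero_smul]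
      rw [Finset.sum_congr rfl fun i _ => e i, ← Finset.sum_smul, ← Finset.mul_sum,
        QHE_inc_dual (QHE_par h3), QHE_P, if_pos ⟨h3, rfl⟩, ct, bdS, bar_single,
        MonoidAlgebra.single_mul_single, MonoidAlgebra.smul_single, smul_eq_mul, mul_one]
      by_cases h0 : inc c.1 (hi y) = 0
      · simp only [h0, mul_zero, MonoidAlgebra.single_zero]
      · rw [X.coc _ c.2 _ _ (fc_of_inc h0).face (lo_face_hi y), mul_inv_rev]
    · intro k _ hk
      rw [QHE_P, if_neg fun h => hk (Subtype.ext h.2.symm), zero_mul]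
    · intro h
      exact absurd (Finset.mem_univ _) h
  · rw [Finset.sum_eq_zero (s := Finset.univ) (f := fun k => QHE_P X y k * ct (bdS X.μ X.K) k c)
      fun k _ => by rw [QHE_P, if_neg fun h => h3 h.1, zero_mul]]
    refine Finset.sum_eq_zero fun i _ => ?_
    by_cases hi2 : y i % 2 = 1
    · rw [if_pos hi2, QHE_term X (QHE_face_add hi2), QHE_term X (QHE_face_sub hi2)]
      by_cases h1 : y i % 4 = 3
      · have a : (∀ j, (y + ee i) j % 4 ≠ 3) ↔ ∀ j, (y - ee i) j % 4 ≠ 3 := by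
          refine forall_congr' fun j => ?_
          by_cases hj : j = i
          · subst hj
            rw [Pi.add_apply, Pi.sub_apply, QHE_ee_self]
            omega
          · rw [Pi.add_apply, Pi.sub_apply, QHE_ee_ne hj, add_zero, sub_zero]
        rw [QHE_add23 (Or.inr h1), QHE_sub3 h1]
        simp only [a, sub_self, smul_zero]
      · push Not at h3
        obtain ⟨j, hj⟩ := h3
        have hji : j ≠ i := fun h => h1 (h ▸ hj)
        rw [if_neg fun h => h.1 j (by rw [Pi.add_apply, QHE_ee_ne hji, add_zero]; exact hj),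
          if_neg fun h => h.1 j (by rw [Pi.sub_apply, QHE_ee_ne hji, sub_zero]; exact hj)]
        simp
    · rw [if_neg hi2]

theorem LC.he_Q (X : LC D G) :
    HE (dimS (QK X.K)) (bdS X.W.μ (QK X.K)) (fun a => (D : ℤ) - dimS X.K a)
      (ct (bdS X.μ X.K)) := by
  classical
  obtain ⟨m, hm1, hm2⟩ := exists_LM_shift (D := D) 2 (by norm_num) (QK X.K)
    (fun y hy i h => by
      rw [mem_QK X.down] at hy ⊢
      rw [QHE_add23 (Or.inl (by omega))]
      exact hy)
    (fun y hy i h => by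
      rw [mem_QK X.down] at hy ⊢
      rw [QHE_sub3 (by omega)]
      exact hy)
  have hS : Cx (dimS (QK X.K)) (bdS X.W.μ (QK X.K)) :=
    X.W.cx (Finset.filter_subset _ _) fun a _ c hc b _ hcb =>
      (mem_QK X.down).2 (X.down _ ((mem_QK X.down).1 hc) _ hcb.hi)
  refine m.he hS (QHE_P X) (fun a _ j h => ?_) (fun a ha j => QHE_chain X ha j)
    (fun a _ h j => ?_) (fun j => QHE_cr j.1) (fun j => ?_) (fun a ha => ?_) (fun j j' h => ?_)
    (fun j => ?_)
  · have h1 : (∀ i, a i % 4 ≠ 3) ∧ hi a = j.1 := by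
      by_contra h1
      exact h (by rw [QHE_P, if_neg h1])
    rw [← QHE_dim h1.1, h1.2, dimS]
  · obtain ⟨i, hi⟩ := hm1 a h
    rw [QHE_P, if_neg fun h1 => h1.1 i (by omega)]
  · rw [mem_QK X.down, QHE_hi_cr]
    exact j.2
  · rw [hm2]
    refine ⟨fun h => ⟨⟨hi a, (mem_QK X.down).1 ha⟩, QHE_cr_hi h⟩, ?_⟩
    rintro ⟨j, rfl⟩ i
    have := QHE_cr_mod j.1 i
    beta_reduce
    omega
  · rw [QHE_P, if_neg fun h1 => h (Subtype.ext ((QHE_hi_cr _).symm.trans h1.2))]
  · rw [QHE_P, if_pos ⟨fun i => by have := QHE_cr_mod j.1 i; omega, QHE_hi_cr _⟩]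
    refine ⟨⟨MonoidAlgebra.single (X.μ j.1 (lo (QHE_cr j.1)))⁻¹ (QHE_η j.1),
      MonoidAlgebra.single (X.μ j.1 (lo (QHE_cr j.1))) (QHE_η j.1), ?_, ?_⟩, rfl⟩
    · rw [MonoidAlgebra.single_mul_single, inv_mul_cancel, QHE_η_sq, MonoidAlgebra.one_def]
    · rw [MonoidAlgebra.single_mul_single, mul_inv_cancel, QHE_η_sq, MonoidAlgebra.one_def]

theorem QHE_dim_top {z : Cell D} : dim z = D ↔ ∀ i, z i % 2 = 1 := by
  have h := Finset.card_eq_iff_eq_univ (Finset.univ.filter fun i => z i % 2 = 1)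
  rw [Fintype.card_fin, Finset.filter_eq_self] at h
  rw [dim, Nat.cast_inj, h]
  simp only [Finset.mem_univ, true_implies]

theorem QHE_inc_top {z y : Cell D} {i : Fin D} (hz : ∀ i, z i % 2 = 1) (hy : y i % 2 = 0) :
    inc z y = sg (fun _ => 1) i *
      ((if y - ee i = z then 1 else 0) - if y + ee i = z then 1 else 0) := by
  have e1 : (y = z - ee i) ↔ y + ee i = z := by
    constructor <;> rintro rfl <;> simp
  have e2 : (y = z + ee i) ↔ y - ee i = z := by
    constructor <;> rintro rfl <;> simp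
  rw [inc, Finset.sum_eq_single i]
  · rw [if_pos (hz i), sg_congr (b := fun _ => 1) fun j _ => by rw [hz j]; rfl]
    simp only [e1, e2]
  · intro k _ hk
    have := hz i
    rw [if_pos (hz k), if_neg, if_neg, sub_self, mul_zero]
    · rintro rfl
      rw [Pi.sub_apply, QHE_ee_ne hk.symm] at hy
      omega
    · rintro rfl
      rw [Pi.add_apply, QHE_ee_ne hk.symm] at hy
      omega
  · intro h
    exact absurd (Finset.mem_univ _) h

theorem QHE_sum_top {T : Finset (Cell D)} (hT : ∀ z ∈ T, ∀ i, z i % 2 = 1) {y : Cell D}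
    {i : Fin D} (hy : y i % 2 = 0) :
    ∑ z ∈ T, inc z y = sg (fun _ => 1) i *
      ((if y - ee i ∈ T then 1 else 0) - if y + ee i ∈ T then 1 else 0) := by
  rw [Finset.sum_congr rfl fun z hz => QHE_inc_top (hT z hz) hy, ← Finset.mul_sum,
    Finset.sum_sub_distrib, Finset.sum_ite_eq, Finset.sum_ite_eq]

theorem LC.fund_cycle (X : LC D G) (hne : X.K.Nonempty) (hD : 0 < D) :
    (∀ y ∈ EK X.K, dim y < D) ∧ ∃ x : Cell D → ℤ, (∃ y ∈ EK X.K, x y ≠ 0) ∧
      (∀ y, x y ≠ 0 → dim y + 1 = D) ∧ ∀ b, ∑ y ∈ EK X.K, x y * inc y b = 0 := by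
  classical
  refine ⟨fun y hy => ?_, ?_⟩
  · refine lt_of_le_of_ne (dim_le y) fun h => (mem_EK.1 hy).2 ?_
    have h1 := QHE_dim_top.1 h
    have : hi y = lo y := by
      funext i
      have := h1 i
      simp only [hi, lo]
      split_ifs <;> omega
    rw [this]
    exact (mem_EK.1 hy).1
  set T : Finset (Cell D) := (WK X.K).filter fun z => ∀ i, z i % 2 = 1 with hTdef
  have hT : ∀ z ∈ T, ∀ i, z i % 2 = 1 := fun z hz => (Finset.mem_filter.1 hz).2
  have hTm : ∀ z, z ∈ T ↔ lo z ∈ X.K ∧ ∀ i, z i % 2 = 1 := fun z => by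
    rw [hTdef, Finset.mem_filter, mem_WK]
  have hx : ∀ y, ∑ z ∈ T, inc z y ≠ 0 → ∃ z ∈ T, Fc y z := fun y h => by
    obtain ⟨z, hz, h1⟩ := Finset.exists_ne_zero_of_sum_ne_zero h
    exact ⟨z, hz, fc_of_inc h1⟩
  refine ⟨fun y => ∑ z ∈ T, inc z y, ?_, fun y h => ?_, fun b => ?_⟩
  · obtain ⟨a, ha, hmax⟩ := X.K.exists_max_image (fun a => a ⟨0, hD⟩) hne
    set i : Fin D := ⟨0, hD⟩
    have hn : a + ee i ∉ X.K := fun h => by
      have := hmax _ h
      rw [Pi.add_apply, QHE_ee_self] at this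
      omega
    have hev : a i % 2 = 0 := by
      by_contra h
      exact hn (X.down _ ha _ (QHE_face_add (by omega)))
    set w : Cell D := fun j => 2 * a j + 1 with hw
    have hwi : w i % 4 = 1 := by simp only [hw]; omega
    have hlo : lo w = a := by
      funext j
      simp only [lo, hw]
      split_ifs <;> omega
    have hhi : hi w = a := by
      funext j
      simp only [hi, hw]
      split_ifs <;> omega
    have hlo2 : lo (w + ee i + ee i) = a + ee i := by
      funext j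
      by_cases hj : j = i
      · subst hj
        simp only [lo, hw, Pi.add_apply, QHE_ee_self]
        split_ifs <;> omega
      · simp only [lo, hw, Pi.add_apply, QHE_ee_ne hj, add_zero]
        split_ifs <;> omega
    refine ⟨w + ee i, mem_EK.2 ⟨?_, ?_⟩, ?_⟩
    · rw [(QHE_add1 hwi).2, hlo]
      exact ha
    · rw [(QHE_add1 hwi).1, hhi]
      exact hn
    · have h1 : w ∈ T := (hTm w).2 ⟨hlo ▸ ha, fun j => by simp only [hw]; omega⟩
      have h2 : w + ee i + ee i ∉ T := fun h => hn (hlo2 ▸ ((hTm _).1 h).1)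
      beta_reduce
      rw [QHE_sum_top hT (i := i) (by rw [Pi.add_apply, QHE_ee_self]; omega), add_sub_cancel_right,
        if_pos h1, if_neg h2, sub_zero, mul_one]
      exact left_ne_zero_of_mul_eq_one (sg_mul_self _ _)
  · obtain ⟨z, hz, h1⟩ := hx y h
    rw [h1.dim_eq, QHE_dim_top.2 (hT z hz)]
  · have hQ : ∀ y ∈ WK X.K, hi y ∈ X.K → ∑ z ∈ T, inc z y = 0 := fun y _ hy => by
      by_contra h
      obtain ⟨z, hz, i, -, h1⟩ := hx y h
      have hzi := hT z hz i
      have hyi : y i % 2 = 0 := by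
        rcases h1 with rfl | rfl
        · rw [Pi.add_apply, QHE_ee_self]; omega
        · rw [Pi.sub_apply, QHE_ee_self]; omega
      have hyj : ∀ j, j ≠ i → y j % 2 = 1 := fun j hj => by
        have := hT z hz j
        rcases h1 with rfl | rfl
        · rw [Pi.add_apply, QHE_ee_ne hj]; omega
        · rw [Pi.sub_apply, QHE_ee_ne hj]; omega
      have o1 : ∀ j, (y - ee i) j % 2 = 1 := fun j => by
        by_cases hj : j = i
        · subst hj
          rw [Pi.sub_apply, QHE_ee_self]; omega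
        · rw [Pi.sub_apply, QHE_ee_ne hj, sub_zero]
          exact hyj j hj
      have o2 : ∀ j, (y + ee i) j % 2 = 1 := fun j => by
        by_cases hj : j = i
        · subst hj
          rw [Pi.add_apply, QHE_ee_self]; omega
        · rw [Pi.add_apply, QHE_ee_ne hj, add_zero]
          exact hyj j hj
      have f1 : Face y (y - ee i) := by
        have := QHE_face_add (o1 i)
        rwa [sub_add_cancel] at this
      have f2 : Face y (y + ee i) := by
        have := QHE_face_sub (o2 i)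
        rwa [add_sub_cancel_right] at this
      have m1 : y - ee i ∈ T := (hTm _).2 ⟨X.down _ hy _ ((lo_face_hi _).trans f1.hi), o1⟩
      have m2 : y + ee i ∈ T := (hTm _).2 ⟨X.down _ hy _ ((lo_face_hi _).trans f2.hi), o2⟩
      exact h (by rw [QHE_sum_top hT hyi, if_pos m1, if_pos m2, sub_self, mul_zero])
    have h1 : ∑ y ∈ EK X.K, (∑ z ∈ T, inc z y) * inc y b =
        ∑ y ∈ WK X.K, (∑ z ∈ T, inc z y) * inc y b := by
      refine Finset.sum_subset (Finset.filter_subset _ _) fun y hy hn => ?_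
      rw [hQ y hy, zero_mul]
      by_contra h
      exact hn (Finset.mem_filter.2 ⟨hy, h⟩)
    rw [h1]
    simp only [Finset.sum_mul]
    rw [Finset.sum_comm]
    exact Finset.sum_eq_zero fun z hz => sum_inc_inc _ _ _ fun y hy _ =>
      X.W.down _ (Finset.mem_filter.1 hz).1 _ hy

end Pool.Agent.Work.MP_735653_gt
end

-- merged part: Pool.Agent.Work.MP_735653_gt.Mod
section
/-! The cellular chain complex is a model of the singular chains; orientability. -/

namespace Pool.Agent.Work.MP_735653_gt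

variable {D : ℕ} {G : Type} [Group G]

/-- chains of the covering complex as row vectors over the group ring -/
noncomputable def Mod_σ (X : LC D G) : (CC X →₀ ℤ) →ₗ[ℤ] (X.K → ZG G) :=
  Finsupp.linearCombination ℤ fun p => Pi.single p.2 (MonoidAlgebra.single p.1 1)

/-- row vectors over the group ring as chains of the covering complex -/
noncomputable def Mod_τ (X : LC D G) (x : X.K → ZG G) : CC X →₀ ℤ :=
  ∑ a, Finsupp.mapDomain (fun g => (g, a)) (x a).coeff

theorem Mod_σ_single (X : LC D G) (p : CC X) (c : ℤ) :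
    Mod_σ X (Finsupp.single p c) = Pi.single p.2 (MonoidAlgebra.single p.1 c) := by
  rw [Mod_σ, Finsupp.linearCombination_single, ← Pi.single_smul', MonoidAlgebra.smul_single,
    smul_eq_mul, mul_one]

theorem Mod_τ_add (X : LC D G) (x y : X.K → ZG G) :
    Mod_τ X (x + y) = Mod_τ X x + Mod_τ X y := by
  simp only [Mod_τ, Pi.add_apply, MonoidAlgebra.coeff_add, Finsupp.mapDomain_add,
    Finset.sum_add_distrib]

theorem Mod_τ_σ (X : LC D G) (w : CC X →₀ ℤ) : Mod_τ X (Mod_σ X w) = w := by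
  induction w using Finsupp.induction_linear with
  | zero => simp [Mod_τ]
  | add u v hu hv => rw [map_add, Mod_τ_add, hu, hv]
  | single p c =>
    rw [Mod_σ_single, Mod_τ, Finset.sum_eq_single p.2]
    · rw [Pi.single_eq_same, MonoidAlgebra.coeff_single, Finsupp.mapDomain_single]
    · intro b _ hb
      rw [Pi.single_eq_of_ne hb, MonoidAlgebra.coeff_zero, Finsupp.mapDomain_zero]
    · intro h
      exact absurd (Finset.mem_univ _) h

theorem Mod_σ_injective (X : LC D G) : Function.Injective (Mod_σ X) :=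
  Function.LeftInverse.injective (Mod_τ_σ X)

theorem Mod_σ_surjective (X : LC D G) (x : X.K → ZG G) : ∃ w, Mod_σ X w = x := by
  have h1 : ∀ (a : X.K) (r : ZG G), ∃ w, Mod_σ X w = Pi.single a r := by
    intro a r
    induction r using MonoidAlgebra.induction_linear with
    | zero => exact ⟨0, by rw [map_zero, Pi.single_zero]⟩
    | add u v hu hv =>
      obtain ⟨w, hw⟩ := hu
      obtain ⟨w', hw'⟩ := hv
      exact ⟨w + w', by rw [map_add, hw, hw', Pi.single_add]⟩
    | single g c => exact ⟨Finsupp.single (g, a) c, Mod_σ_single X _ _⟩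
  choose w hw using h1
  refine ⟨∑ a, w a (x a), ?_⟩
  rw [map_sum]
  simp only [hw]
  exact Finset.univ_sum_single x

theorem Mod_σ_cbd (X : LC D G) (w : CC X →₀ ℤ) :
    Matrix.vecMul (Mod_σ X w) (bdS X.μ X.K) = Mod_σ X (cbd X w) := by
  induction w using Finsupp.induction_linear with
  | zero => simp
  | add u v hu hv => rw [map_add, map_add, map_add, Matrix.add_vecMul, hu, hv]
  | single p c =>
    rw [Mod_σ_single, cbd, Finsupp.linearCombination_single, map_smul, map_sum,
      Matrix.single_vecMul]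
    simp only [Mod_σ_single]
    rw [Finset.univ_sum_single (fun b : X.K =>
      (MonoidAlgebra.single (p.1 * X.μ p.2.1 b.1) (inc p.2.1 b.1) : ZG G))]
    funext b
    simp only [Pi.smul_apply, Matrix.row, bdS, smul_eq_mul, MonoidAlgebra.single_mul_single,
      MonoidAlgebra.smul_single]

section

variable {E I : Type} [TopologicalSpace E] [MulAction G E] [ContinuousConstSMul G E] [Fintype I]

theorem Mod_ev_add (f : I → SC E) (x y : I → ZG G) : ev f (x + y) = ev f x + ev f y := by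
  simp only [ev, Pi.add_apply, map_add, LinearMap.add_apply, Finset.sum_add_distrib]

theorem Mod_ev_zero (f : I → SC E) : ev f (0 : I → ZG G) = 0 := by
  simp only [ev, Pi.zero_apply, map_zero, LinearMap.zero_apply, Finset.sum_const_zero]

theorem Mod_ev_single [DecidableEq I] (f : I → SC E) (i : I) (g : G) (c : ℤ) :
    ev f (Pi.single i (MonoidAlgebra.single g c) : I → ZG G) = c • act E G g (f i) := by
  rw [ev, Finset.sum_eq_single i]
  · rw [Pi.single_eq_same, Representation.asAlgebraHom_single, LinearMap.smul_apply]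
  · intro b _ hb
    rw [Pi.single_eq_of_ne hb, map_zero, LinearMap.zero_apply]
  · intro h
    exact absurd (Finset.mem_univ _) h

theorem Mod_sbd_alg (r : ZG G) (c : SC E) :
    sbd E ((act E G).asAlgebraHom r c) = (act E G).asAlgebraHom r (sbd E c) := by
  induction r using MonoidAlgebra.induction_linear with
  | zero => simp
  | add u v hu hv => simp only [map_add, LinearMap.add_apply, hu, hv]
  | single g k =>
    simp only [Representation.asAlgebraHom_single, LinearMap.smul_apply, map_smul, sbd_act]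

theorem Mod_sbd_ev {A : Matrix I I (ZG G)} {f : I → SC E} (h : ∀ i, sbd E (f i) = ev f (A i))
    (x : I → ZG G) : sbd E (ev f x) = ev f (Matrix.vecMul x A) := by
  have h1 : sbd E (ev f x) =
      ∑ i, ∑ j, (act E G).asAlgebraHom (x i * A i j) (f j) := by
    rw [ev, map_sum]
    refine Finset.sum_congr rfl fun i _ => ?_
    rw [Mod_sbd_alg, h, ev, map_sum]
    refine Finset.sum_congr rfl fun j _ => ?_
    rw [map_mul, Module.End.mul_apply]
  rw [h1, Finset.sum_comm, ev]
  refine Finset.sum_congr rfl fun j _ => ?_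
  rw [Matrix.vecMul, dotProduct, map_sum, LinearMap.sum_apply]

end

theorem Mod_aug_pos {E : Type} [TopologicalSpace E] {U : Set E} {q : ℕ} (hq : q ≠ 0) {c : SC E}
    (hc : c ∈ SCq U q) : aug E c = 0 := by
  refine (Submodule.mem_bot ℤ).mp (map_supported_cmp ⊥ (aug E) ?_ hc)
  rintro s ⟨hs, -⟩
  rw [aug_single, if_neg (hs ▸ hq)]
  exact zero_mem _

theorem exists_model (X : LC D G) :
    ∃ f : X.K → SC (Cov X), IsModel (dimS X.K) (bdS X.μ X.K) f := by
  obtain ⟨f, hf⟩ := exists_chain X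
  let F : (CC X →₀ ℤ) →ₗ[ℤ] SC (Cov X) :=
    Finsupp.linearCombination ℤ fun p => act (Cov X) G p.1 (f p.2)
  have hF1 : ∀ (p : CC X) (c : ℤ), F (Finsupp.single p c) = c • act (Cov X) G p.1 (f p.2) :=
    fun p c => Finsupp.linearCombination_single _ _ _
  have hch : ∀ a, sbd (Cov X) (f a) = ev f (bdS X.μ X.K a) := by
    intro a
    rw [(hf a).2.1, ev]
    refine Finset.sum_congr rfl fun b _ => ?_
    rw [bdS, Representation.asAlgebraHom_single, LinearMap.smul_apply]
  have hev : ∀ w, ev f (Mod_σ X w) = F w := by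
    intro w
    induction w using Finsupp.induction_linear with
    | zero => rw [map_zero, map_zero, Mod_ev_zero]
    | add u v hu hv => rw [map_add, map_add, Mod_ev_add, hu, hv]
    | single p c => rw [Mod_σ_single, Mod_ev_single, hF1]
  have hF : ∀ w, sbd (Cov X) (F w) = F (cbd X w) := by
    intro w
    rw [← hev, ← hev, Mod_sbd_ev hch, Mod_σ_cbd]
  have hq : ∀ p : CC X, act (Cov X) G p.1 (f p.2) ∈ SCq (Uc X p) (dim p.2.1).toNat := by
    intro p
    refine act_mem_SCq p.1 (fun y hy => ?_) (hf p.2).1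
    have := (smul_mem_Uc p.1 (p := y) (c := (1, p.2))).2 hy
    rwa [mul_one] at this
  have hU : ∀ p : CC X, F (Finsupp.single p 1) ∈ SCs (Uc X p) := by
    intro p
    rw [hF1, one_smul]
    exact SCq_le_SCs _ _ (hq p)
  have ha : ∀ w, aug (Cov X) (F w) = caug X w := by
    intro w
    induction w using Finsupp.induction_linear with
    | zero => rw [map_zero, map_zero, map_zero]
    | add u v hu hv => rw [map_add, map_add, map_add, hu, hv]
    | single p c =>
      rw [hF1, map_smul, caug, Finsupp.linearCombination_single]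
      congr 1
      split_ifs with h
      · rw [aug_act, (hf p.2).2.2 h]
      · have := dim_nonneg p.2.1
        exact Mod_aug_pos (by omega) (hq p)
  have hloc : ∀ p : CC X, QIon (cbd X) F {q | CLe X q p} (Uc X p) := by
    intro p
    have := contractible_Uc p
    refine qiOn_local hF (caug X) ha (fun x hx => ?_) (cube_acyclic p) (cube_vertex p)
    have h1 : Finsupp.supported ℤ ℤ {q | CLe X q p} ≤ (SCs (Uc X p)).comap F := by
      rw [Finsupp.supported_eq_span_single, Submodule.span_le]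
      rintro _ ⟨q, hqp, rfl⟩
      exact SCs_mono (fun y hy => CLe.trans hy hqp) (hU q)
    exact h1 hx
  have huniv : QIon (cbd X) F Set.univ Set.univ :=
    qiOn_univ (CLe X) (fun _ _ _ => CLe.trans) CLe.refl (fun _ _ => CLe.antisymm) CLe.finite
      Cov.rc isOpen_Uc cbd_cbd hF cbd_mem hU hloc
  have hcx : Cx (dimS X.K) (bdS X.μ X.K) :=
    X.cx (Finset.Subset.refl _) fun a ha _ _ b hb _ => X.down a ha b hb
  have m1 : ∀ w : CC X →₀ ℤ, w ∈ Finsupp.supported ℤ ℤ (Set.univ : Set (CC X)) :=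
    fun w => Set.subset_univ _
  have m2 : ∀ c : SC (Cov X), c ∈ SCs (Set.univ : Set (Cov X)) :=
    fun c _ _ => Set.subset_univ _
  refine ⟨f, fun i j h => ?_, hcx.sq, fun a s hs => ?_, hch, fun x hx hc => ?_, fun z hz => ?_⟩
  · have := hcx.gr i j h
    omega
  · have h1 : s.1 = (dim a.1).toNat := ((hf a).1 hs).1
    have := dim_nonneg a.1
    rw [h1, dimS]
    omega
  · obtain ⟨w, rfl⟩ := Mod_σ_surjective X x
    obtain ⟨c, hc⟩ := hc
    rw [Mod_σ_cbd, map_eq_zero_iff _ (Mod_σ_injective X)] at hx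
    obtain ⟨y, -, hy⟩ := huniv.inj w (m1 w) hx ⟨c, m2 c, hc.trans (hev w)⟩
    exact ⟨Mod_σ X y, by rw [Mod_σ_cbd, hy]⟩
  · obtain ⟨w, -, c, -, h1, h2⟩ := huniv.surj z (m2 z) hz
    exact ⟨Mod_σ X w, c, by rw [Mod_σ_cbd, h1, map_zero], by rw [hev, h2]⟩

theorem Orientable.homeo {Y Z : Type} [TopologicalSpace Y] [TopologicalSpace Z] (e : Y ≃ₜ Z)
    {d : ℕ} (h : Orientable Y d) : Orientable Z d := by
  classical
  obtain ⟨z, h1, h2, h3⟩ := h
  refine ⟨spush (e : C(Y, Z)) z, fun s hs => ?_, ?_, ?_⟩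
  · obtain ⟨t, ht, rfl⟩ := Finset.mem_image.1 (Finsupp.mapDomain_support hs)
    exact h1 t ht
  · rw [sbd_spush, h2, map_zero]
  · rintro ⟨c, hc⟩
    refine h3 ⟨spush (e.symm : C(Z, Y)) c, ?_⟩
    rw [sbd_spush, hc]
    clear hc h1 h2 h3
    induction z using Finsupp.induction_linear with
    | zero => rw [map_zero, map_zero]
    | add u v hu hv => rw [map_add, map_add, hu, hv]
    | single s k =>
      rw [spush_single, spush_single]
      congr 1
      exact congrArg (Sigma.mk s.1) (ContinuousMap.ext fun t => e.symm_apply_apply _)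

/-- the covering space for the trivial group is the base -/
noncomputable def Mod_homeo (Y : LC D Unit) : Cov Y ≃ₜ Re Y.K where
  toFun := Cov.x
  invFun x := ⟨(), x⟩
  left_inv _ := rfl
  right_inv _ := rfl
  continuous_toFun := Cov.continuous_x
  continuous_invFun := by
    refine continuous_lift _ continuous_id fun z => ?_
    filter_upwards [continuous_subtype_val.continuousAt.eventually (eventually_face z.1)] with w hw
    exact ⟨hw, rfl⟩

theorem orientable_E {d : ℕ} (X : LC (d + 1) G) (hne : X.K.Nonempty) :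
    Orientable (Re (EK X.K)) d := by
  obtain ⟨hd, x, ⟨b, hb, hxb⟩, hx1, hx2⟩ := X.fund_cycle hne d.succ_pos
  obtain ⟨f, hf⟩ := exists_model X.E.triv
  refine Orientable.homeo (Mod_homeo X.E.triv) ?_
  let x' : X.E.triv.K → ZG Unit := fun a => MonoidAlgebra.single 1 (x a.1)
  have h0 : Matrix.vecMul x' (bdS X.E.triv.μ X.E.triv.K) = 0 := by
    funext c
    have h1 : ∑ a : X.E.triv.K, x a.1 * inc a.1 c.1 = 0 :=
      (Finset.sum_coe_sort (EK X.K) fun y => x y * inc y c.1).trans (hx2 c.1)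
    have h2 : Matrix.vecMul x' (bdS X.E.triv.μ X.E.triv.K) c =
        MonoidAlgebra.singleAddHom (1 : Unit) (∑ a : X.E.triv.K, x a.1 * inc a.1 c.1) := by
      rw [map_sum, Matrix.vecMul, dotProduct]
      refine Finset.sum_congr rfl fun a _ => ?_
      exact MonoidAlgebra.single_mul_single _ _ _ _
    rw [h2, h1, map_zero, Pi.zero_apply]
  refine ⟨ev f x', ?_, by rw [Mod_sbd_ev hf.chain, h0, Mod_ev_zero], fun hc => ?_⟩
  · have h1 : ev f x' ∈ Finsupp.supported ℤ ℤ {s : Sx (Cov X.E.triv) | s.1 = d} := by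
      refine Submodule.sum_mem _ fun a _ => ?_
      rw [Representation.asAlgebraHom_single, map_one, LinearMap.smul_apply, Module.End.one_apply]
      by_cases h : x a.1 = 0
      · rw [h, zero_smul]
        exact zero_mem _
      · refine Submodule.smul_mem _ _ fun s hs => ?_
        have h2 : (s.1 : ℤ) = dim a.1 := hf.degf a s hs
        have h3 := hx1 _ h
        change s.1 = d
        push_cast at h3
        omega
    exact fun s hs => h1 hs
  · obtain ⟨y, hy⟩ := hf.inj x' h0 hc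
    have h1 := congrFun hy ⟨b, hb⟩
    rw [Matrix.vecMul, dotProduct, Finset.sum_eq_zero] at h1
    · exact hxb (MonoidAlgebra.single_eq_zero.1 h1.symm)
    · intro a _
      have h2 : inc a.1 b = 0 := by
        by_contra h
        have h3 := (fc_of_inc h).dim_eq
        have h4 := hd a.1 a.2
        have h5 := hx1 b hxb
        omega
      change y a * MonoidAlgebra.single _ (inc a.1 b) = 0
      rw [h2, MonoidAlgebra.single_zero, mul_zero]

end Pool.Agent.Work.MP_735653_gt
end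

-- merged part: Pool.Agent.Work.MP_735653_gt.Main
section
/-! Assembly. -/

namespace Pool.Agent.Work.MP_735653_gt

open Pointwise
open scoped Manifold ContDiff

/-- there is a closed orientable smooth `d`-manifold that realises `Q` -/
def Real' (d : ℕ) {n : ℕ} (Q : PG n) : Prop :=
  ∃ (N : Type) (_ : TopologicalSpace N) (_ : ChartedSpace (EuclideanSpace ℝ (Fin d)) N),
    IsManifold (𝓡 d) ∞ N ∧ CompactSpace N ∧ T2Space N ∧ ConnectedSpace N ∧ Orientable N d ∧
    ∃ (G : Type) (_ : Group G) (E : Type) (_ : TopologicalSpace E) (_ : MulAction G E)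
      (_ : ContinuousConstSMul G E) (p : E → N),
      IsQuotientCoveringMap p G ∧ SimplyConnectedSpace E ∧
      (∀ x, Nonempty (FundamentalGroup N x ≃* G)) ∧ WhAC G ∧ Realises G E Q

theorem real_of_lattice {G : Type} [Group G] {d n : ℕ} (X : LC (d + 1) G)
    (hd : ∀ a ∈ X.K, dim a + 3 ≤ (d + 1 : ℕ)) (h1 : SCp X) (h2 : Conn X) (hG : WhAC G) {Q : PG n}
    (hQ : Realises G (Cov X.E) Q) : Real' d Q := by
  obtain ⟨e⟩ := homeo_level X
  obtain ⟨cs, hm⟩ := level_manifold (FK X.K) (contDiff_FK _) (1 / 2) (FK_regular X.down)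
  have hp := (isQuotientCoveringMap_x X.E).homeomorph_comp e
  haveI := simplyConnected_cov (h1.E hd) (h2.E hd)
  haveI : CompactSpace (Re (EK X.K)) := isCompact_iff_compactSpace.1 (isCompact_Re X.E.down)
  refine ⟨_, _, cs, hm, e.compactSpace, inferInstance,
    hp.surjective.connectedSpace hp.continuous, (orientable_E X h2.1).homeo e, G, _, Cov X.E, _, _,
    _, _, hp, inferInstance, fun x => ?_, hG, hQ⟩
  obtain ⟨y, hy⟩ := hp.surjective x
  exact ⟨(hp.fundamentalGroupEquiv ⟨y, hy⟩).trans (MulEquiv.inv' G).symm⟩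

theorem real_of_data {n : ℕ} (d : ℕ) (V : Finset (Fin (n + 1) → ℤ)) (hV : V.Nonempty) {C : Type}
    [Fintype C] (hd : 5 ≤ d ∨ (4 ≤ d ∧ IsEmpty C)) (z : C → Fin (n + 1) → ℤ) (hz : ∀ k, z k ≠ 0)
    (mir : PG (n + 1) →+ PG (n + 1)) (hmir : ∀ T, mir (cls T) = cls (-T)) (P : PG (n + 1))
    (hP : P = cls V + (n : ℤ) • cls {0, Pi.single 0 1} - ∑ k, cls {0, z k}) :
    Real' d (P + (-1 : ℤ) ^ (d + 1) • mir P) := by
  letI : DecidableEq (IR (SG n) (Option (Fin n)) C) := Classical.decEq _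
  obtain ⟨c, L, w₀, w₁, mid, v₀, hL, hm, hl⟩ := exists_list V hV
  obtain ⟨G, _, γ, hpr, χ, hχ, ⟨e⟩⟩ := exists_group L hL w₀ w₁ mid hm
  set l := (w₀, 0) :: mid ++ [(w₁, (L : ℤ))] with hl'
  have hne : l ≠ [] := by simp [hl']
  obtain ⟨ν, s, hab, hν⟩ := exists_nu hpr hne c
  obtain ⟨fx, hf⟩ := exists_isFox γ
  obtain ⟨U, _, j, hj⟩ := exists_isFrac G
  have hD := isDiv_cyc hj χ _ hχ e
  have hG : WhAC G := ⟨torsionFree_cyc χ e, whZero_cyc χ _ hχ e, atiyah_of_isDiv hj hD⟩
  choose wz hwz using fun k => exists_gw c (z k)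
  let g : C → FreeGroup (SG n) := fun k => gw (wz k, z k 0 + ∑ i, c i * z k i.succ)
  have hνl : ∀ w, ν (FreeGroup.lift γ w) = FreeGroup.lift (nuG c) w := fun w =>
    DFunLike.congr_fun (FreeGroup.ext_hom (ν.comp (FreeGroup.lift γ)) (FreeGroup.lift (nuG c))
      fun x => by simp [hν]) w
  have hg : ∀ k, ν (FreeGroup.lift γ (g k)) = Multiplicative.ofAdd (z k) := fun k =>
    (hνl _).trans (hwz k)
  obtain ⟨X, hX0, hX1, hX2, hX3⟩ := exists_lattice (wd := Sum.elim (rl l) g) hf hpr (d + 1)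
    (hd.imp (by omega) fun h => ⟨by omega, h.2⟩)
  refine real_of_lattice X hX0 hX1 hX2 hG ?_
  obtain ⟨Θ, hW, hW'⟩ := X.block
  have hR : Cx dR (AR γ fx (Sum.elim (rl l) g)) := cx_AR hf _ hpr.rel
  obtain ⟨Φ, F, hc, hq⟩ := fib hW hR (hR.dual ((d + 1 : ℕ) : ℤ)) ((hW'.trans X.he_W).trans hX3)
    (X.he_Q.trans (hX3.dual _))
  obtain ⟨f, hf'⟩ := exists_model X.E
  have hι : Function.Injective (j.comp (toVN G)) := hj.inj.comp toVN_injective
  obtain ⟨h1, Γ, h2⟩ := torPoly_double hι hD hab.sec hf hne hpr.rel hν g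
    (fun k h => hz k (Multiplicative.ofAdd.injective ((hg k).symm.trans h))) d Φ hc mir hmir P (by
      have h0 : ({0, Pi.single 0 1} : Finset (Fin (n + 1) → ℤ)).Nonempty :=
        Finset.insert_nonempty _ _
      rw [hl, cls_add (Finset.singleton_nonempty _) (hV.add h0), cls_add hV h0, cls_singleton, hP,
        sub_smul, one_smul]
      simp only [hg, toAdd_ofAdd]
      abel)
  have h3 := IsModel.comp hc hq hf'
  have h4 := hj.l2Acyc hc.sq Γ h2
  obtain ⟨Γ', h5⟩ := hj.exists_isAffil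
  exact ⟨_, _, _, _, _, _, U, _, Γ', _, ν, s, h3, h4, h5, hab, h1⟩

theorem real_main (d : ℕ) (hd : 4 ≤ d) (n : ℕ) (hn : 1 ≤ n) (T₁ T₂ : Finset (Fin n → ℤ))
    (h₁ : T₁.Nonempty) (h₂ : T₂.Nonempty) :
    Real' d ((cls T₁ - cls T₂) + (-1 : ℤ) ^ (d + 1) • (cls (-T₁) - cls (-T₂))) := by
  classical
  obtain ⟨n, rfl⟩ : ∃ m, n = m + 1 := ⟨n - 1, by omega⟩
  obtain ⟨mir, hmir⟩ := exists_mir (n + 1)
  have hseg : mir (cls {0, Pi.single 0 1}) = cls {0, Pi.single 0 1} := by
    rw [hmir, ← cls_pair_neg (Pi.single 0 1)]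
    congr 1
    simp [Finset.neg_insert]
  rcases Nat.even_or_odd d with he | ho
  · have h := real_of_data d (T₁ + -T₂) (h₁.add h₂.neg) (C := Empty) (Or.inr ⟨hd, inferInstance⟩)
      Empty.elim (fun k => k.elim) mir hmir _ rfl
    convert h using 1
    rw [he.add_one.neg_one_pow, cls_add h₁ h₂.neg]
    rw [Finset.univ_eq_empty, Finset.sum_empty, sub_zero, map_add, map_add, map_zsmul, hseg, hmir,
      hmir, neg_neg]
    simp only [neg_smul, one_smul]
    abel
  · obtain ⟨R, hR, hZ⟩ := zonotope h₂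
    have hd5 : 5 ≤ d := by
      obtain ⟨k, rfl⟩ := ho
      omega
    have h := real_of_data d (T₁ + R) (h₁.add hR) (C := T₂.offDiag ⊕ Fin n) (Or.inl hd5)
      (Sum.elim (fun p => p.1.2 - p.1.1) fun _ => Pi.single 0 1) (by
        rintro (p | k)
        · exact sub_ne_zero.2 (Finset.mem_offDiag.1 p.2).2.2.symm
        · simp) mir hmir (cls T₁ - cls T₂) (by
        rw [Fintype.sum_sum_type, cls_add h₁ hR]
        simp only [Sum.elim_inl, Sum.elim_inr, Finset.sum_const, Finset.card_univ,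
          Fintype.card_fin]
        rw [Finset.sum_coe_sort T₂.offDiag fun p => cls {0, p.2 - p.1}, hZ, natCast_zsmul]
        abel)
    rwa [map_sub, hmir, hmir] at h

end Pool.Agent.Work.MP_735653_gt
end

-- merged part: Pool.Agent.Work.MP_735653_gt.Bridge
section
/-! Passage from the working definitions to the definitions of the statement. -/

namespace Pool.Agent.Work.MP_735653_gt

open Pointwise

theorem br_cls {n : ℕ} (T : Finset (Fin n → ℤ)) : St.cls T = cls T := rfl

section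

variable {X : Type} [TopologicalSpace X]

theorem br_sbd1 (s : Sx X) : St.sbd1 s = sbd1 s := by
  obtain ⟨_ | q, s⟩ := s
  · rfl
  · refine Finset.sum_congr rfl fun i _ => ?_
    rw [Finsupp.smul_single, smul_eq_mul, mul_one]
    rfl

theorem br_sbd (c : SC X) : St.sbd c = sbd X c := by
  rw [sbd, Finsupp.linearCombination_apply]
  exact Finsupp.sum_congr fun s _ => congrArg _ (br_sbd1 s)

theorem Orientable.br {d : ℕ} (h : Orientable X d) : St.Orientable X d := by
  obtain ⟨z, h1, h2, h3⟩ := h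
  exact ⟨z, h1, (br_sbd z).trans h2, fun ⟨c, hc⟩ => h3 ⟨c, (br_sbd c).symm.trans hc⟩⟩

variable {G : Type} [Group G] [MulAction G X] [ContinuousConstSMul G X] {I : Type} [Fintype I]

theorem br_ev (f : I → SC X) (x : I → ZG G) : St.ev f x = ev f x := by
  refine Finset.sum_congr rfl fun i _ => ?_
  rw [Representation.asAlgebraHom_def, MonoidAlgebra.lift_apply, LinearMap.finsupp_sum_apply]
  rfl

theorem IsModel.br {deg : I → ℤ} {A : Matrix I I (ZG G)} {f : I → SC X} (h : IsModel deg A f) :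
    St.IsModel deg A f where
  degA := h.degA
  sq := h.sq
  degf := h.degf
  chain i := ((br_sbd _).trans (h.chain i)).trans (br_ev _ _).symm
  inj x hx := fun ⟨c, hc⟩ => h.inj x hx ⟨c, ((br_sbd c).symm.trans hc).trans (br_ev _ _)⟩
  surj z hz := by
    obtain ⟨x, c, h1, h2⟩ := h.surj z ((br_sbd z).symm.trans hz)
    exact ⟨x, c, h1, by rw [br_sbd, br_ev]; exact h2⟩

end

section

variable {G : Type} [Group G] {I J : Type} [Fintype I] [Fintype J]

omit [Fintype I] [Group G] in
theorem fn_inj : Function.Injective (St.fn : HS I G → I → G → ℂ) := fun v w h => by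
  ext i x
  exact congrFun (congrFun h i) x

theorem br_rmul (A : Matrix I J (ZG G)) (v : HS I G) :
    St.fn (rmul A v) = St.rmul A (St.fn v) := by
  funext j x
  unfold St.fn St.rmul rmul
  rw [op_apply, lp.coeFn_sum, Finset.sum_apply]
  refine Finset.sum_congr rfl fun i _ => ?_
  rw [Finsupp.sum, Finsupp.sum, sum_apply, lp.coeFn_sum, Finset.sum_apply]
  rfl

theorem br_ker (A : Matrix I J (ZG G)) :
    {v : HS I G | ∀ j x, St.rmul A (St.fn v) j x = 0} = ((rmul A).ker : Set (HS I G)) := by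
  ext v
  rw [Set.mem_ofPred_eq, ← br_rmul, SetLike.mem_coe, LinearMap.mem_ker]
  constructor
  · intro h
    ext j x
    exact h j x
  · intro h j x
    have h' : rmul A v = 0 := h
    rw [h']
    rfl

theorem br_vnDim (K : Submodule ℂ (HS I G)) : St.vnDim (K : Set (HS I G)) = vnDim K := by
  unfold St.vnDim vnDim St.wt
  simp only [Submodule.span_eq]

theorem WhAC.br (h : WhAC G) : St.WhAC G := by
  refine ⟨h.1, h.2.1, fun m k A => ?_⟩
  rw [br_ker, br_vnDim]
  exact h.2.2 m k A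

theorem L2Acyc.br {A : Matrix I I (ZG G)} (h : L2Acyc A) : St.L2Acyc A := by
  intro v hv
  have hv' : v ∈ ((rmul A).ker : Set (HS I G)) := br_ker A ▸ hv
  have h2 : v ∈ closure ((rmul A).range : Set (HS I G)) := h hv'
  refine closure_mono ?_ h2
  rintro _ ⟨u, rfl⟩
  exact ⟨u, br_rmul A u⟩

variable {U : Type} [Ring U]

theorem IsAffil.br {Γ : U → Submodule ℂ (L2 G × L2 G)} {ι : ZG G →+* U} (h : IsAffil Γ ι) :
    St.IsAffil St.lam St.rho (fun u => (Γ u : Set (L2 G × L2 G))) ι where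
  inj := SetLike.coe_injective.comp h.inj
  range W := by
    constructor
    · rintro ⟨u, rfl⟩
      exact ⟨⟨_, rfl⟩, (h.range _).1 ⟨u, rfl⟩⟩
    · rintro ⟨⟨M, rfl⟩, hM⟩
      obtain ⟨u, rfl⟩ := (h.range M).2 hM
      exact ⟨u, rfl⟩
  add := h.add
  mul := h.mul
  gen := h.gen

variable {n : ℕ} {ν : G →* Multiplicative (Fin n → ℤ)} {s : (Fin n → ℤ) → G}

theorem IsAbFree.br (h : IsAbFree ν s) : St.IsAbFree (fun g => (ν g).toAdd) s where
  hom g k := by rw [map_mul, toAdd_mul]
  sec k := by rw [h.sec, toAdd_ofAdd]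
  ker g := by rw [toAdd_eq_zero]; exact h.ker g

theorem TorPoly.br {ι : ZG G →+* U} [DecidableEq I] {deg : I → ℤ} {A : Matrix I I (ZG G)}
    {Q : PG n} (h : TorPoly ι ν s deg A Q) : St.TorPoly ι (fun g => (ν g).toAdd) s deg A Q := h

end

theorem Realises.br {G E : Type} [Group G] [TopologicalSpace E] [MulAction G E]
    [ContinuousConstSMul G E] {n : ℕ} {Q : PG n} (h : Realises G E Q) : St.Realises G E Q := by
  obtain ⟨I, _, _, deg, A, f, U, _, Γ, ι, ν, s, h1, h2, h3, h4, h5⟩ := h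
  exact ⟨I, _, _, deg, A, f, U, _, _, ι, _, s, h1.br, h2.br, h3.br, h4.br, h5.br⟩

open scoped Manifold ContDiff in
theorem real_final (d : ℕ) (hd : 4 ≤ d) (n : ℕ) (hn : 1 ≤ n) (T₁ T₂ : Finset (Fin n → ℤ))
    (h₁ : T₁.Nonempty) (h₂ : T₂.Nonempty) :
    ∃ (N : Type) (_ : TopologicalSpace N) (_ : ChartedSpace (EuclideanSpace ℝ (Fin d)) N),
      IsManifold (𝓡 d) ∞ N ∧ CompactSpace N ∧ T2Space N ∧ ConnectedSpace N ∧ St.Orientable N d ∧
      ∃ (G : Type) (_ : Group G) (E : Type) (_ : TopologicalSpace E) (_ : MulAction G E)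
        (_ : ContinuousConstSMul G E) (p : E → N),
        IsQuotientCoveringMap p G ∧ SimplyConnectedSpace E ∧
        (∀ x, Nonempty (FundamentalGroup N x ≃* G)) ∧ St.WhAC G ∧
        St.Realises G E ((St.cls T₁ - St.cls T₂) +
          (-1 : ℤ) ^ (d + 1) • (St.cls (-T₁) - St.cls (-T₂))) := by
  obtain ⟨N, _, _, h1, h2, h3, h4, h5, G, _, E, _, _, _, p, h6, h7, h8, h9, h10⟩ :=
    real_main d hd n hn T₁ T₂ h₁ h₂
  exact ⟨N, _, _, h1, h2, h3, h4, h5.br, G, _, E, _, _, _, p, h6, h7, h8, h9.br, h10.br⟩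

end Pool.Agent.Work.MP_735653_gt
end
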