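import Pool.Agent.Work.MP_735653_gt.SDefs

/-! The flow on the line. -/

namespace Pool.Agent.Work.MP_735653_gt

open Filter Topology

theorem Flw_den {q : ℝ} (h0 : 0 ≤ q) (h1 : q ≤ 1) (l : ℝ) : 0 < 1 - q + Real.exp l * q := by
  have := Real.exp_pos l
  rcases h0.eq_or_lt with rfl | h
  · simp
  · nlinarith [mul_pos this h]

theorem Flw_in {q : ℝ} (h0 : 0 < q) (h1 : q < 1) (l : ℝ) :
    lgs l q = Real.exp l * q / (1 - q + Real.exp l * q) := if_pos ⟨h0, h1⟩

theorem Flw_in' {q : ℝ} (h0 : 0 < q) (h1 : q < 1) (l : ℝ) :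
    lgs l q = 1 - (1 - q) / (1 - q + Real.exp l * q) := by
  have := (Flw_den h0.le h1.le l).ne'
  rw [Flw_in h0 h1]
  field_simp
  ring

theorem lgs_zero (q : ℝ) : lgs 0 q = q := by
  unfold lgs
  split_ifs <;> simp

theorem lgs_mem {q : ℝ} (h0 : 0 < q) (h1 : q < 1) (l : ℝ) : 0 < lgs l q ∧ lgs l q < 1 := by
  have h := Flw_den h0.le h1.le l
  rw [Flw_in h0 h1]
  exact ⟨div_pos (mul_pos (Real.exp_pos l) h0) h, (div_lt_one h).2 (by linarith)⟩

theorem lgs_add (l m q : ℝ) : lgs (l + m) q = lgs l (lgs m q) := by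
  by_cases h : 0 < q ∧ q < 1
  · obtain ⟨h2, h3⟩ := lgs_mem h.1 h.2 m
    have d1 := (Flw_den h.1.le h.2.le m).ne'
    have d2 := (Flw_den h.1.le h.2.le (l + m)).ne'
    rw [Flw_in h2 h3, Flw_in h.1 h.2, Flw_in h.1 h.2]
    rw [Real.exp_add] at d2 ⊢
    have e : 1 - Real.exp m * q / (1 - q + Real.exp m * q) +
        Real.exp l * (Real.exp m * q / (1 - q + Real.exp m * q)) =
        (1 - q + Real.exp l * Real.exp m * q) / (1 - q + Real.exp m * q) := by
      field_simp
      ring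
    rw [e]
    field_simp
  · simp only [lgs, if_neg h]

theorem lgs_strict {q : ℝ} (h0 : 0 < q) (h1 : q < 1) : StrictMono fun l => lgs l q := by
  intro l m h
  simp only [Flw_in' h0 h1]
  have h2 := mul_lt_mul_of_pos_right (Real.exp_lt_exp.2 h) h0
  have := div_lt_div_of_pos_left (sub_pos.2 h1) (Flw_den h0.le h1.le l)
    (by linarith : 1 - q + Real.exp l * q < 1 - q + Real.exp m * q)
  linarith

theorem lgs_atTop {q : ℝ} (h0 : 0 < q) (h1 : q < 1) : Tendsto (fun l => lgs l q) atTop (𝓝 1) := by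
  simp only [Flw_in' h0 h1]
  have h : Tendsto (fun l => 1 - q + Real.exp l * q) atTop atTop :=
    tendsto_atTop_add_const_left _ _ (Real.tendsto_exp_atTop.atTop_mul_const h0)
  simpa using tendsto_const_nhds.sub (tendsto_const_nhds.div_atTop h (a := 1 - q))

theorem lgs_atBot {q : ℝ} (h0 : 0 < q) (h1 : q < 1) : Tendsto (fun l => lgs l q) atBot (𝓝 0) := by
  simp only [Flw_in h0 h1]
  have h := Real.tendsto_exp_atBot.mul_const q
  have h2 := h.div (tendsto_const_nhds.add h (a := 1 - q)) (by simpa using (sub_pos.2 h1).ne')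
  rw [zero_mul, zero_div] at h2
  exact h2

theorem continuous_lgs : Continuous fun p : ℝ × ℝ => lgs p.1 p.2 := by
  have e : ∀ l q : ℝ, lgs l q = q + (Real.exp l * max 0 (min 1 q) /
      (1 - max 0 (min 1 q) + Real.exp l * max 0 (min 1 q)) - max 0 (min 1 q)) := fun l q => by
    by_cases h0 : 0 < q
    · by_cases h1 : q < 1
      · rw [Flw_in h0 h1, min_eq_right h1.le, max_eq_right h0.le]; ring
      · rw [lgs, if_neg fun h => h1 h.2, min_eq_left (not_lt.1 h1), max_eq_right zero_le_one]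
        simp
    · rw [lgs, if_neg fun h => h0 h.1, max_eq_left ((min_le_right _ _).trans (not_lt.1 h0))]
      simp
  simp only [e]
  refine continuous_snd.add (Continuous.sub (Continuous.div (by fun_prop) (by fun_prop)
    fun p => (Flw_den (le_max_left _ _) (max_le zero_le_one (min_le_left _ _)) _).ne') (by fun_prop))

theorem nk_spec (t : ℝ) : 2 * (nk t : ℝ) - 1 ≤ t ∧ t < 2 * (nk t : ℝ) + 1 := by
  have h1 := Int.floor_le (t / 2 + 1 / 2)
  have h2 := Int.lt_floor_add_one (t / 2 + 1 / 2)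
  unfold nk
  constructor <;> linarith

theorem Flw_nk {t : ℝ} {k : ℤ} (h1 : 2 * (k : ℝ) - 1 ≤ t) (h2 : t < 2 * (k : ℝ) + 1) : nk t = k :=
  Int.floor_eq_iff.2 ⟨by linarith, by linarith⟩

theorem Flw_dk (k : ℤ) : dk k = 1 ∨ dk k = -1 := by
  unfold dk; split_ifs <;> simp

theorem Flw_out {k : ℤ} {t : ℝ} (h : t ≤ 2 * k - 1 / 2 ∨ 2 * k + 1 / 2 ≤ t) (l : ℝ) :
    lgs l (qk k t) = qk k t := by
  refine if_neg fun ⟨a, b⟩ => ?_
  unfold qk at a b
  rcases Flw_dk k with e | e <;> rw [e] at a b <;> rcases h with h | h <;> linarith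

theorem nk_flw (l t : ℝ) : nk (flw l t) = nk t := by
  by_cases h : 0 < qk (nk t) t ∧ qk (nk t) t < 1
  · obtain ⟨a, b⟩ := lgs_mem h.1 h.2 l
    unfold flw
    generalize lgs l (qk (nk t) t) = s at a b
    unfold qk
    rcases Flw_dk (nk t) with e | e <;> rw [e] <;> refine Flw_nk ?_ ?_ <;> linarith
  · rw [flw, lgs, if_neg h]; simp

theorem qk_flw (l t : ℝ) : qk (nk t) (flw l t) = lgs l (qk (nk t) t) := by
  unfold flw
  generalize lgs l (qk (nk t) t) = s
  unfold qk
  rcases Flw_dk (nk t) with e | e <;> rw [e] <;> ring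

theorem flw_zero (t : ℝ) : flw 0 t = t := by
  simp [flw, lgs_zero]

theorem flw_add (l m t : ℝ) : flw (l + m) t = flw l (flw m t) := by
  rw [flw, flw, nk_flw, qk_flw, ← lgs_add, flw]
  ring

theorem continuous_flw : Continuous fun p : ℝ × ℝ => flw p.1 p.2 := by
  refine continuous_iff_continuousAt.2 fun p => ?_
  obtain ⟨k, hk⟩ : ∃ k, nk p.2 = k := ⟨_, rfl⟩
  have h := nk_spec p.2
  rw [hk] at h
  have c : Continuous fun p : ℝ × ℝ => p.2 + dk k * (lgs p.1 (qk k p.2) - qk k p.2) := by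
    have c1 : Continuous fun p : ℝ × ℝ => qk k p.2 := by unfold qk; fun_prop
    exact continuous_snd.add (continuous_const.mul
      ((continuous_lgs.comp (continuous_fst.prodMk c1)).sub c1))
  refine c.continuousAt.congr ?_
  filter_upwards [continuous_snd.continuousAt.eventually
    (Ioo_mem_nhds (a := 2 * (k : ℝ) - 3 / 2) (b := 2 * (k : ℝ) + 1) (by linarith) h.2)] with q hq
  by_cases a : 2 * (k : ℝ) - 1 ≤ q.2
  · rw [flw, Flw_nk a hq.2]
  · have e : nk q.2 = k - 1 := Flw_nk (by push_cast; linarith [hq.1]) (by push_cast; linarith)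
    rw [flw, e, Flw_out (Or.inl (by linarith)), Flw_out (Or.inr (by push_cast; linarith [hq.1]))]
    ring

theorem Flw_cell (t : ℝ) : (t < 2 * (nk t : ℝ) ∧ ⌊t / 2⌋ + ⌈t / 2⌉ = 2 * nk t - 1) ∨
    (t = 2 * (nk t : ℝ) ∧ ⌊t / 2⌋ + ⌈t / 2⌉ = 2 * nk t) ∨
    (2 * (nk t : ℝ) < t ∧ ⌊t / 2⌋ + ⌈t / 2⌉ = 2 * nk t + 1) := by
  obtain ⟨h1, h2⟩ := nk_spec t
  generalize nk t = k at h1 h2
  rcases lt_trichotomy t (2 * k) with h | h | h
  · refine Or.inl ⟨h, ?_⟩
    rw [(Int.floor_eq_iff (z := k - 1)).2 ⟨by push_cast; linarith, by push_cast; linarith⟩,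
      (Int.ceil_eq_iff (z := k)).2 ⟨by linarith, by linarith⟩]
    ring
  · refine Or.inr (Or.inl ⟨h, ?_⟩)
    rw [show t / 2 = k by linarith, Int.floor_intCast, Int.ceil_intCast]
    ring
  · refine Or.inr (Or.inr ⟨h, ?_⟩)
    rw [(Int.floor_eq_iff (z := k)).2 ⟨by linarith, by linarith⟩,
      (Int.ceil_eq_iff (z := k + 1)).2 ⟨by push_cast; linarith, by push_cast; linarith⟩]
    ring

theorem lo_cellOf {D : ℕ} (x : Fin D → ℝ) : lo (cellOf x) =
    cT (fun i => nk (x i)) (Finset.univ.filter fun i => 1 / 2 < qk (nk (x i)) (x i)) := by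
  funext i
  have H := Flw_cell (x i)
  change _ ∧ cellOf x i = _ ∨ _ ∧ cellOf x i = _ ∨ _ ∧ cellOf x i = _ at H
  simp only [lo, cT, Finset.mem_filter, Finset.mem_univ, true_and, qk, dk]
  generalize cellOf x i = y at H
  generalize nk (x i) = k at H
  rcases H with ⟨a, rfl⟩ | ⟨a, rfl⟩ | ⟨a, rfl⟩ <;>
    split_ifs <;> first | omega | (exfalso; linarith)

theorem hi_cellOf {D : ℕ} (x : Fin D → ℝ) : hi (cellOf x) =
    cT (fun i => nk (x i)) (Finset.univ.filter fun i => 1 / 2 ≤ qk (nk (x i)) (x i)) := by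
  funext i
  have H := Flw_cell (x i)
  change _ ∧ cellOf x i = _ ∨ _ ∧ cellOf x i = _ ∨ _ ∧ cellOf x i = _ at H
  simp only [hi, cT, Finset.mem_filter, Finset.mem_univ, true_and, qk, dk]
  generalize cellOf x i = y at H
  generalize nk (x i) = k at H
  rcases H with ⟨a, rfl⟩ | ⟨a, rfl⟩ | ⟨a, rfl⟩ <;>
    split_ifs <;> first | omega | (exfalso; linarith)

theorem homeo_of_flow {Z : Type} [TopologicalSpace Z] [T2Space Z] (φ : ℝ → Z → Z)
    (h0 : ∀ z, φ 0 z = z) (h1 : ∀ l m z, φ (l + m) z = φ l (φ m z))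
    (h2 : Continuous fun p : ℝ × Z => φ p.1 p.2) (F : Z → ℝ) (hF : Continuous F) (c : ℝ)
    {A : Set Z} (hA : IsCompact A)
    (h3 : ∀ z ∈ A, ∃ l, (∀ m, m < l → c < F (φ m z)) ∧ ∀ m, l < m → F (φ m z) < c)
    (h4 : ∀ z, F z = c → ∃ l, φ l z ∈ A) (h5 : ∀ z ∈ A, ∀ l, φ l z ∈ A → l = 0) :
    Nonempty (A ≃ₜ {z // F z = c}) := by
  have : CompactSpace A := isCompact_iff_compactSpace.1 hA
  choose τ t1 t2 using fun z : A => h3 z z.2
  have cz : ∀ m, Continuous fun z : A => F (φ m z) := fun m =>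
    hF.comp (h2.comp (continuous_const.prodMk continuous_subtype_val))
  have cl : ∀ z, Continuous fun m => F (φ m z) := fun z =>
    hF.comp (h2.comp (continuous_id.prodMk continuous_const))
  have cτ : Continuous τ := by
    refine continuous_iff_continuousAt.2 fun z => tendsto_order.2 ⟨fun a ha => ?_, fun a ha => ?_⟩
    · obtain ⟨b, b1, b2⟩ := exists_between ha
      filter_upwards [(cz b).continuousAt.eventually (lt_mem_nhds (t1 z b b2))] with w hw
      by_contra e
      exact absurd (t2 w b ((not_lt.1 e).trans_lt b1)) hw.not_gt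
    · obtain ⟨b, b1, b2⟩ := exists_between ha
      filter_upwards [(cz b).continuousAt.eventually (gt_mem_nhds (t2 z b b1))] with w hw
      by_contra e
      exact absurd (t1 w b (b2.trans_le (not_lt.1 e))) hw.not_gt
  have v : ∀ z : A, F (φ (τ z) z) = c := fun z => le_antisymm
    (le_of_tendsto ((cl z).continuousAt.tendsto.mono_left (nhdsWithin_le_nhds (s := Set.Ioi (τ z))))
      (eventually_nhdsWithin_of_forall fun m hm => (t2 z m hm).le))
    (ge_of_tendsto ((cl z).continuousAt.tendsto.mono_left (nhdsWithin_le_nhds (s := Set.Iio (τ z))))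
      (eventually_nhdsWithin_of_forall fun m hm => (t1 z m hm).le))
  let f : A → {z // F z = c} := fun z => ⟨φ (τ z) z, v z⟩
  have hb : Function.Bijective f := by
    refine ⟨fun z w e => ?_, fun y => ?_⟩
    · have e1 : φ (τ z) z = φ (τ w) w := congrArg Subtype.val e
      have e2 : φ (-τ w + τ z) z = w := by rw [h1, e1, ← h1, neg_add_cancel, h0]
      have e3 := h5 z z.2 (-τ w + τ z) (by rw [e2]; exact w.2)
      rw [e3, h0] at e2
      exact Subtype.ext e2
    · obtain ⟨l, hl⟩ := h4 y y.2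
      have e1 : φ (-l) (φ l y) = y := by rw [← h1, neg_add_cancel, h0]
      have e2 : τ ⟨_, hl⟩ = -l := by
        rcases lt_trichotomy (τ ⟨_, hl⟩) (-l) with a | a | a
        · exact absurd (t2 _ _ a) (by rw [e1, y.2]; exact lt_irrefl c)
        · exact a
        · exact absurd (t1 _ _ a) (by rw [e1, y.2]; exact lt_irrefl c)
      exact ⟨⟨_, hl⟩, Subtype.ext (by simp only [f, e2, e1])⟩
  exact ⟨Continuous.homeoOfEquivCompactToT2 (f := Equiv.ofBijective f hb)
    ((h2.comp (cτ.prodMk continuous_subtype_val)).subtype_mk _)⟩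

end Pool.Agent.Work.MP_735653_gt
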