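import Pool.Agent.Work.MP_735653_gt.ADefs

/-! Finite based chain complexes as graded matrices. -/

namespace Pool.Agent.Work.MP_735653_gt

open Matrix

variable {R I J : Type} [Ring R]

/-- the matrix has degree `k` -/
def Gr (k : ℤ) (da : I → ℤ) (db : J → ℤ) (F : Matrix I J R) : Prop :=
  ∀ i j, F i j ≠ 0 → db j = da i + k

variable [Fintype I] [Fintype J]

/-- chain complexes -/
structure Cx (d : I → ℤ) (A : Matrix I I R) : Prop where
  gr : Gr (-1) d d A
  sq : A * A = 0

/-- quasi-isomorphisms `x ↦ x F` -/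
structure QI (da : I → ℤ) (A : Matrix I I R) (db : J → ℤ) (B : Matrix J J R) (F : Matrix I J R) :
    Prop where
  gr : Gr 0 da db F
  ch : A * F = F * B
  inj : ∀ x, x ᵥ* A = 0 → (∃ y, y ᵥ* B = x ᵥ* F) → ∃ z, z ᵥ* A = x
  surj : ∀ y, y ᵥ* B = 0 → ∃ x z, x ᵥ* A = 0 ∧ y = x ᵥ* F + z ᵥ* B

variable [DecidableEq I] [DecidableEq J]

/-- the data of a chain homotopy equivalence -/
structure HEd (da : I → ℤ) (A : Matrix I I R) (db : J → ℤ) (B : Matrix J J R) (F : Matrix I J R)
    (F' : Matrix J I R) (H : Matrix I I R) (H' : Matrix J J R) : Prop where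
  grF : Gr 0 da db F
  grF' : Gr 0 db da F'
  grH : Gr 1 da da H
  grH' : Gr 1 db db H'
  chF : A * F = F * B
  chF' : B * F' = F' * A
  hH : 1 - F * F' = A * H + H * A
  hH' : 1 - F' * F = B * H' + H' * B

/-- chain homotopy equivalent complexes -/
def HE (da : I → ℤ) (A : Matrix I I R) (db : J → ℤ) (B : Matrix J J R) : Prop :=
  ∃ F F' H H', HEd da A db B F F' H H'

/-- an acyclic matching of the basis with invertible matched entries -/
structure Mt (A : Matrix I I R) where
  up : I → Prop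
  dn : I → Prop
  σ : I → I
  ρ : I → ℤ
  up_σ : ∀ i, up i → dn (σ i) ∧ σ (σ i) = i
  dn_σ : ∀ i, dn i → up (σ i) ∧ σ (σ i) = i
  disj : ∀ i, up i → ¬ dn i
  unit : ∀ i, up i → IsUnit (A i (σ i))
  tri : ∀ i j, up i → dn j → A i j ≠ 0 → j ≠ σ i → ρ (σ j) < ρ i

/-- the sign of a degree -/
def sgn (k : ℤ) : ℤ := if Even k then 1 else -1

/-- the image of the support of an element of the group ring -/
noncomputable def nsupp {G : Type} [Group G] {n : ℕ} (ν : G →* Multiplicative (Fin n → ℤ))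
    (x : ZG G) : Finset (Fin n → ℤ) :=
  x.coeff.support.image fun g => (ν g).toAdd

end Pool.Agent.Work.MP_735653_gt
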