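import Pool.Agent.Work.MP_735653_gt.Win

attribute [-instance] Subring.toCommRing

-- merged part: Pool.Agent.Work.MP_735653_gt.Ore
section
/-! The Ore conditions in commutants that contain the left translations. -/

namespace Pool.Agent.Work.MP_735653_gt

open scoped InnerProductSpace
open ContinuousLinearMap

set_option linter.unusedSectionVars false

variable {G : Type} [Group G]

theorem Ore_proj_comm {E : Type} [NormedAddCommGroup E] [InnerProductSpace ℂ E] [CompleteSpace E]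
    (K : Submodule ℂ E) [K.HasOrthogonalProjection] (c : E →L[ℂ] E) (h1 : ∀ v ∈ K, c v ∈ K)
    (h2 : ∀ v ∈ K, adjoint c v ∈ K) (v : E) :
    K.starProjection (c v) = c (K.starProjection v) := by
  refine Submodule.eq_starProjection_of_mem_orthogonal (h1 _ (K.starProjection_apply_mem v)) ?_
  intro w hw
  rw [← map_sub, ← adjoint_inner_left]
  exact K.sub_starProjection_mem_orthogonal v _ (h2 w hw)

theorem Ore_mem_VN {S : Set (L2 G →L[ℂ] L2 G)} (h1 : Set.range lam ⊆ S)
    {a : L2 G →L[ℂ] L2 G} (ha : a ∈ Subring.centralizer S) : a ∈ VN G :=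
  Subring.mem_centralizer_iff.2 fun g hg => Subring.mem_centralizer_iff.1 ha g (h1 hg)

theorem Ore_adj_mem {S : Set (L2 G →L[ℂ] L2 G)} (h2 : ∀ a ∈ S, adjoint a ∈ S)
    {a : L2 G →L[ℂ] L2 G} (ha : a ∈ Subring.centralizer S) :
    adjoint a ∈ Subring.centralizer S := by
  refine Subring.mem_centralizer_iff.2 fun c hc => ?_
  have h := congrArg star (Subring.mem_centralizer_iff.1 ha _ (h2 c hc))
  rw [star_mul, star_mul, star_eq_adjoint, star_eq_adjoint, adjoint_adjoint] at h
  exact h.symm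

/-- the operator `(x, y) ↦ a x + b y` -/
noncomputable def Ore_row (a b : L2 G →L[ℂ] L2 G) : HS (Fin 2) G →L[ℂ] HS Unit G :=
  op (Matrix.of fun _ i => ![a, b] i)

theorem Ore_row_apply (a b : L2 G →L[ℂ] L2 G) (v : HS (Fin 2) G) (u : Unit) :
    Ore_row a b v u = a (v 0) + b (v 1) := by
  rw [Ore_row, op_apply, Fin.sum_univ_two]
  rfl

theorem Ore_row_eq_zero (a b : L2 G →L[ℂ] L2 G) (v : HS (Fin 2) G) :
    Ore_row a b v = 0 ↔ a (v 0) + b (v 1) = 0 := by
  constructor
  · intro h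
    rw [← Ore_row_apply a b v (), h]
    rfl
  · intro h
    ext u : 1
    rw [Ore_row_apply, h]
    rfl

theorem Ore_row_eqv {a b : L2 G →L[ℂ] L2 G} (ha : a ∈ VN G) (hb : b ∈ VN G) :
    Eqv (Ore_row a b) := by
  intro g v
  ext u : 1
  rw [Ore_row_apply, dg_apply, dg_apply, dg_apply, Ore_row_apply, map_add, mem_VN.1 ha,
    mem_VN.1 hb]

theorem Ore_dg_single (c : L2 G →L[ℂ] L2 G) (v : L2 G) :
    dg (Fin 2) c (PiLp.single 2 0 v) = PiLp.single 2 0 (c v) := by
  ext i : 1
  rw [dg_apply]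
  fin_cases i <;> simp

theorem Ore_inner_single (w : HS (Fin 2) G) (v : L2 G) :
    ⟪w, (PiLp.single 2 0 v : HS (Fin 2) G)⟫_ℂ = ⟪w 0, v⟫_ℂ := by
  rw [PiLp.inner_apply, Fin.sum_univ_two]
  simp

/-- the first coordinates of the solutions of `a x = s y` are dense -/
theorem Ore_dense {a s : L2 G →L[ℂ] L2 G} (ha : a ∈ VN G) (hs : s ∈ VN G)
    (hi : Function.Injective s) {v : L2 G}
    (hv : ∀ w ∈ (Ore_row a (-s)).ker, ⟪w 0, v⟫_ℂ = 0) : v = 0 := by
  have hT : Eqv (Ore_row a (-s)) := Ore_row_eqv ha (neg_mem hs)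
  have hP : Eqv (Ore_row (1 : L2 G →L[ℂ] L2 G) 0) := Ore_row_eqv (one_mem _) (zero_mem _)
  have hP0 : ∀ (w : HS (Fin 2) G) (u : Unit), Ore_row (1 : L2 G →L[ℂ] L2 G) 0 w u = w 0 := by
    intro w u
    rw [Ore_row_apply]
    simp
  set W : Submodule ℂ (HS Unit G) :=
    (Ore_row a (-s)).ker.map (Ore_row (1 : L2 G →L[ℂ] L2 G) 0).toLinearMap with hW
  have hinv : Inv W := by
    rintro g _ ⟨w, hw, rfl⟩
    exact ⟨_, hT.inv_ker g w hw, hP g w⟩
  have hle : vnDim (Ore_row a (-s)).ker ≤ vnDim W := by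
    refine vn_mono hP hT.inv_ker (Ore_row a (-s)).isClosed_ker (fun w hw => ⟨w, hw, rfl⟩) ?_
    intro w hw h0
    have e0 : w 0 = 0 := by
      rw [← hP0 w (), h0]
      rfl
    have e1 : w 1 = 0 := by
      have h := (Ore_row_eq_zero a (-s) w).1 hw
      rw [e0, map_zero, zero_add, _root_.neg_apply, neg_eq_zero] at h
      exact hi (h.trans (map_zero s).symm)
    ext i : 1
    fin_cases i
    · exact e0
    · exact e1
  have h1 := rank_null hT
  have h2 := vn_le_card (Ore_row a (-s)).range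
  have hd : W.topologicalClosure = ⊤ := by
    refine vn_dense hinv ?_
    simp only [Fintype.card_fin, Fintype.card_unique, Nat.cast_ofNat, Nat.cast_one] at h1 h2 ⊢
    linarith
  rw [Submodule.topologicalClosure_eq_top_iff] at hd
  have hm : (PiLp.single 2 () v : HS Unit G) ∈ Wᗮ := by
    rintro _ ⟨w, hw, rfl⟩
    rw [PiLp.inner_apply, Fintype.sum_unique]
    have := hP0 w ()
    simp only [ContinuousLinearMap.coe_coe, PUnit.default_eq_unit, PiLp.single_eq_same]
    rw [this]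
    exact hv w hw
  rw [hd, Submodule.mem_bot] at hm
  have h := congrArg (fun x : HS Unit G => x ()) hm
  simpa using h

theorem ore_right {S : Set (L2 G →L[ℂ] L2 G)} (h1 : Set.range lam ⊆ S)
    (h2 : ∀ a ∈ S, adjoint a ∈ S) {a s : L2 G →L[ℂ] L2 G} (ha : a ∈ Subring.centralizer S)
    (hs : s ∈ Subring.centralizer S) (hi : Function.Injective s) :
    ∃ b ∈ Subring.centralizer S, ∃ t ∈ Subring.centralizer S,
      Function.Injective t ∧ a * t = s * b := by
  set K : Submodule ℂ (HS (Fin 2) G) := (Ore_row a (-s)).ker with hK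
  have hinv : ∀ c ∈ S, ∀ v ∈ K, dg (Fin 2) c v ∈ K := by
    intro c hc v hv
    have h := (Ore_row_eq_zero a (-s) v).1 hv
    refine (Ore_row_eq_zero a (-s) _).2 ?_
    have ea : a (c (v 0)) = c (a (v 0)) :=
      (congrArg (fun f : L2 G →L[ℂ] L2 G => f (v 0)) (Subring.mem_centralizer_iff.1 ha c hc)).symm
    have es : (-s) (c (v 1)) = c ((-s) (v 1)) :=
      (congrArg (fun f : L2 G →L[ℂ] L2 G => f (v 1))
        (Subring.mem_centralizer_iff.1 (neg_mem hs) c hc)).symm
    rw [dg_apply, dg_apply, ea, es, ← map_add, h, map_zero]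
  have hcomm : ∀ c ∈ S, ∀ v, K.starProjection (dg (Fin 2) c v) =
      dg (Fin 2) c (K.starProjection v) := by
    intro c hc v
    refine Ore_proj_comm K _ (hinv c hc) ?_ v
    rw [adjoint_dg]
    exact hinv _ (h2 c hc)
  have hent : ∀ i, ent K.starProjection i 0 ∈ Subring.centralizer S := by
    intro i
    refine Subring.mem_centralizer_iff.2 fun c hc => ?_
    ext v : 1
    rw [mul_apply_eq_comp, mul_apply_eq_comp, ent_apply, ent_apply,
      ← Ore_dg_single, hcomm c hc, dg_apply]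
  refine ⟨ent K.starProjection 1 0, hent 1, ent K.starProjection 0 0, hent 0, ?_, ?_⟩
  · refine (injective_iff_map_eq_zero _).2 fun v hv => ?_
    rw [ent_apply] at hv
    have h0 : K.starProjection (PiLp.single 2 0 v) = 0 := by
      rw [← inner_self_eq_zero (𝕜 := ℂ), Submodule.inner_starProjection_left_eq_right,
        Submodule.starProjection_eq_self_iff.2 (K.starProjection_apply_mem _), inner_eq_zero_symm,
        Ore_inner_single, hv, inner_zero_left]
    rw [Submodule.starProjection_apply_eq_zero_iff] at h0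
    refine Ore_dense (Ore_mem_VN h1 ha) (Ore_mem_VN h1 hs) hi fun w hw => ?_
    rw [← Ore_inner_single]
    exact h0 w hw
  · ext v : 1
    have h := (Ore_row_eq_zero a (-s) _).1 (K.starProjection_apply_mem (PiLp.single 2 0 v))
    rw [_root_.neg_apply, add_neg_eq_zero] at h
    rw [mul_apply_eq_comp, mul_apply_eq_comp, ent_apply, ent_apply, h]

theorem ore_left {S : Set (L2 G →L[ℂ] L2 G)} (h1 : Set.range lam ⊆ S)
    (h2 : ∀ a ∈ S, adjoint a ∈ S) {a s : L2 G →L[ℂ] L2 G} (ha : a ∈ Subring.centralizer S)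
    (hs : s ∈ Subring.centralizer S) (hi : Function.Injective s) :
    ∃ b ∈ Subring.centralizer S, ∃ t ∈ Subring.centralizer S,
      Function.Injective t ∧ t * a = b * s := by
  obtain ⟨b, hb, t, ht, hti, e⟩ := ore_right h1 h2 (Ore_adj_mem h2 ha) (Ore_adj_mem h2 hs)
    (vn_inj_adjoint (Ore_mem_VN h1 hs) hi)
  refine ⟨adjoint b, Ore_adj_mem h2 hb, adjoint t, Ore_adj_mem h2 ht,
    vn_inj_adjoint (Ore_mem_VN h1 ht) hti, ?_⟩
  have h := congrArg star e
  rw [star_mul, star_mul, star_eq_adjoint, star_eq_adjoint, star_eq_adjoint, star_eq_adjoint,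
    adjoint_adjoint, adjoint_adjoint] at h
  exact h

theorem Ore_lam_adj : ∀ a ∈ Set.range (lam : G → L2 G →L[ℂ] L2 G), adjoint a ∈ Set.range lam := by
  rintro _ ⟨g, rfl⟩
  exact ⟨g⁻¹, (adjoint_lam g).symm⟩

theorem exists_isFrac (G : Type) [Group G] :
    ∃ (U : Type) (_ : Ring U) (j : VN G →+* U), IsFrac j := by
  have hne : Nonempty (OreLocalization.OreSet (nonZeroDivisors (VN G))) := by
    refine OreLocalization.nonempty_oreSet_iff.2 ⟨fun r₁ r₂ s h => ⟨1, ?_⟩, fun r s => ?_⟩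
    · have h0 : (r₁ - r₂) * (s : VN G) = 0 := by rw [sub_mul, h, sub_self]
      rw [sub_eq_zero.1 (s.2.2 _ h0)]
    · obtain ⟨b, hb, t, ht, hti, e⟩ := ore_left subset_rfl Ore_lam_adj r.2 s.1.2
        ((mem_nzd_iff _).1 s.2)
      exact ⟨⟨b, hb⟩, ⟨⟨t, ht⟩, (mem_nzd_iff _).2 hti⟩, Subtype.ext e⟩
  obtain ⟨inst⟩ := hne
  refine ⟨OreLocalization (nonZeroDivisors (VN G)) (VN G), inferInstance,
    OreLocalization.numeratorRingHom, ⟨OreLocalization.numeratorHom_inj inf_le_left,
      fun s hs => OreLocalization.numerator_isUnit ⟨s, hs⟩, fun u => ?_⟩⟩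
  induction u using OreLocalization.ind with
  | _ r s =>
    obtain ⟨b, hb, t, ht, hti, e⟩ := ore_right subset_rfl Ore_lam_adj r.2 s.1.2
      ((mem_nzd_iff _).1 s.2)
    refine ⟨⟨b, hb⟩, ⟨t, ht⟩, (mem_nzd_iff _).2 hti, ?_⟩
    have e' : r * ⟨t, ht⟩ = (s : VN G) * ⟨b, hb⟩ := Subtype.ext e
    change OreLocalization.oreDiv r s * OreLocalization.oreDiv _ 1 = OreLocalization.oreDiv _ 1
    rw [OreLocalization.mul_div_one, e', OreLocalization.expand' (⟨b, hb⟩ : VN G) 1 s, mul_one]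
    rfl

end Pool.Agent.Work.MP_735653_gt
end

-- merged part: Pool.Agent.Work.MP_735653_gt.KdEq
section
/-! Common denominators; equivalent matrices have kernels of the same dimension; acyclicity. -/

namespace Pool.Agent.Work.MP_735653_gt

variable {G U : Type} [Group G] [Ring U] {j : VN G →+* U}

theorem KdEq_adj (a : L2 G →L[ℂ] L2 G) (ha : a ∈ Set.range (lam (G := G))) :
    ContinuousLinearMap.adjoint a ∈ Set.range (lam (G := G)) := by
  obtain ⟨g, rfl⟩ := ha
  exact ⟨g⁻¹, (adjoint_lam g).symm⟩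

theorem KdEq_ore_right (a : VN G) {s : VN G} (hs : s ∈ nonZeroDivisors (VN G)) :
    ∃ b : VN G, ∃ t ∈ nonZeroDivisors (VN G), a * t = s * b := by
  obtain ⟨b, hb, t, ht, hi, h⟩ :=
    ore_right subset_rfl KdEq_adj a.2 s.2 ((mem_nzd_iff s).1 hs)
  exact ⟨⟨b, hb⟩, ⟨t, ht⟩, (mem_nzd_iff _).2 hi, Subtype.ext h⟩

theorem KdEq_ore_left (a : VN G) {s : VN G} (hs : s ∈ nonZeroDivisors (VN G)) :
    ∃ b : VN G, ∃ t ∈ nonZeroDivisors (VN G), t * a = b * s := by
  obtain ⟨b, hb, t, ht, hi, h⟩ :=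
    ore_left subset_rfl KdEq_adj a.2 s.2 ((mem_nzd_iff s).1 hs)
  exact ⟨⟨b, hb⟩, ⟨t, ht⟩, (mem_nzd_iff _).2 hi, Subtype.ext h⟩

theorem KdEq_frac_left (hj : IsFrac j) (u : U) :
    ∃ a : VN G, ∃ s ∈ nonZeroDivisors (VN G), j s * u = j a := by
  obtain ⟨a, s, hs, h⟩ := hj.frac u
  obtain ⟨b, t, ht, h1⟩ := KdEq_ore_left a hs
  refine ⟨b, t, ht, (hj.unit s hs).mul_right_cancel ?_⟩
  rw [mul_assoc, h, ← j.map_mul, h1, j.map_mul]

theorem IsFrac.den_right (hj : IsFrac j) {ι : Type} [Finite ι] (u : ι → U) :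
    ∃ s ∈ nonZeroDivisors (VN G), ∃ a : ι → VN G, ∀ i, u i * j s = j (a i) := by
  classical
  have key : ∀ S : Finset ι, ∃ s ∈ nonZeroDivisors (VN G), ∀ i ∈ S, ∃ a, u i * j s = j a := by
    intro S
    induction S using Finset.induction_on with
    | empty => exact ⟨1, one_mem _, fun i hi => absurd hi (Finset.notMem_empty i)⟩
    | insert i S _ ih =>
      obtain ⟨s, hs, h⟩ := ih
      obtain ⟨a, t, ht, h1⟩ := hj.frac (u i)
      obtain ⟨b, t', ht', h2⟩ := KdEq_ore_right s ht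
      refine ⟨s * t', mul_mem hs ht', fun k hk => ?_⟩
      rcases Finset.mem_insert.1 hk with rfl | hk
      · exact ⟨a * b, by rw [h2, j.map_mul, ← mul_assoc, h1, j.map_mul]⟩
      · obtain ⟨c, hc⟩ := h k hk
        exact ⟨c * t', by rw [j.map_mul, ← mul_assoc, hc, j.map_mul]⟩
  have := Fintype.ofFinite ι
  obtain ⟨s, hs, h⟩ := key Finset.univ
  choose a ha using fun i => h i (Finset.mem_univ i)
  exact ⟨s, hs, a, ha⟩

theorem IsFrac.den_left (hj : IsFrac j) {ι : Type} [Finite ι] (u : ι → U) :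
    ∃ s ∈ nonZeroDivisors (VN G), ∃ a : ι → VN G, ∀ i, j s * u i = j (a i) := by
  classical
  have key : ∀ S : Finset ι, ∃ s ∈ nonZeroDivisors (VN G), ∀ i ∈ S, ∃ a, j s * u i = j a := by
    intro S
    induction S using Finset.induction_on with
    | empty => exact ⟨1, one_mem _, fun i hi => absurd hi (Finset.notMem_empty i)⟩
    | insert i S _ ih =>
      obtain ⟨s, hs, h⟩ := ih
      obtain ⟨a, t, ht, h1⟩ := KdEq_frac_left hj (u i)
      obtain ⟨b, t', ht', h2⟩ := KdEq_ore_left s ht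
      refine ⟨t' * s, mul_mem ht' hs, fun k hk => ?_⟩
      rcases Finset.mem_insert.1 hk with rfl | hk
      · exact ⟨b * a, by rw [h2, j.map_mul, mul_assoc, h1, j.map_mul]⟩
      · obtain ⟨c, hc⟩ := h k hk
        exact ⟨t' * c, by rw [j.map_mul, mul_assoc, hc, j.map_mul]⟩
  have := Fintype.ofFinite ι
  obtain ⟨s, hs, h⟩ := key Finset.univ
  choose a ha using fun i => h i (Finset.mem_univ i)
  exact ⟨s, hs, a, ha⟩

theorem IsFrac.isUnit_iff (hj : IsFrac j) (a : VN G) :
    IsUnit (j a) ↔ Function.Injective (a : L2 G →L[ℂ] L2 G) := by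
  rw [← mem_nzd_iff]
  refine ⟨fun h => mem_nonZeroDivisors_iff.2 ⟨fun x hx => hj.inj ?_, fun x hx => hj.inj ?_⟩,
    hj.unit a⟩
  · refine h.mul_left_cancel ?_
    rw [← j.map_mul, ← j.map_mul, hx, mul_zero]
  · refine h.mul_right_cancel ?_
    rw [← j.map_mul, ← j.map_mul, hx, zero_mul]

variable {I J : Type} [Fintype I] [DecidableEq I] [Fintype J] [DecidableEq J]

omit [Fintype I] [DecidableEq I] [Fintype J] [DecidableEq J] in
theorem KdEq_map_inj (hj : IsFrac j) {M N : Matrix J I (VN G)} (h : M.map j = N.map j) :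
    M = N := by
  ext1 a b
  exact hj.inj (congrFun (congrFun h a) b)

omit [Fintype I] in
theorem KdEq_map_diag (s : VN G) :
    (Matrix.diagonal fun _ : I => s).map j = Matrix.diagonal fun _ : I => j s :=
  Matrix.diagonal_map j.map_zero

theorem KdEq_unit_diag {x : U} (hx : IsUnit x) : IsUnit (Matrix.diagonal fun _ : I => x) :=
  hx.map (Matrix.scalar I)

omit [DecidableEq J] in
theorem KdEq_den_right (hj : IsFrac j) (N : Matrix J I U) :
    ∃ s ∈ nonZeroDivisors (VN G), ∃ N' : Matrix J I (VN G),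
      N'.map j = N * Matrix.diagonal fun _ : I => j s := by
  obtain ⟨s, hs, a, ha⟩ := hj.den_right fun p : J × I => N p.1 p.2
  refine ⟨s, hs, Matrix.of fun k i => a (k, i), ?_⟩
  ext k i
  rw [Matrix.mul_diagonal, Matrix.map_apply, Matrix.of_apply, ← ha (k, i)]

omit [DecidableEq I] in
theorem KdEq_den_left (hj : IsFrac j) (N : Matrix J I U) :
    ∃ s ∈ nonZeroDivisors (VN G), ∃ N' : Matrix J I (VN G),
      N'.map j = (Matrix.diagonal fun _ : J => j s) * N := by
  obtain ⟨s, hs, a, ha⟩ := hj.den_left fun p : J × I => N p.1 p.2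
  refine ⟨s, hs, Matrix.of fun k i => a (k, i), ?_⟩
  ext k i
  rw [Matrix.diagonal_mul, Matrix.map_apply, Matrix.of_apply, ← ha (k, i)]

theorem IsFrac.ker_eq_bot (hj : IsFrac j) {M : Matrix I I (VN G)} (h : IsUnit (M.map j)) :
    (opN M).ker = ⊥ := by
  obtain ⟨N, hN⟩ := h.exists_left_inv
  obtain ⟨s, hs, N', h1⟩ := KdEq_den_left hj N
  have h2 : N' * M = Matrix.diagonal fun _ : I => s := by
    refine KdEq_map_inj hj ?_
    rw [Matrix.map_mul, h1, Matrix.mul_assoc, hN, Matrix.mul_one, KdEq_map_diag]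
  have h3 := opN_mul N' M
  rw [h2, opN_diagonal] at h3
  refine (Submodule.eq_bot_iff _).2 fun v hv => ?_
  have hv' : opN M v = 0 := hv
  have h4 : dg I (s : L2 G →L[ℂ] L2 G) v = 0 := by
    rw [h3, ContinuousLinearMap.comp_apply, hv', map_zero]
  ext1 i
  refine (mem_nzd_iff s).1 hs ?_
  have h5 := dg_apply (s : L2 G →L[ℂ] L2 G) v i
  rw [h4] at h5
  rw [← h5]
  exact (map_zero (s : L2 G →L[ℂ] L2 G)).symm

theorem IsFrac.kd_eq (hj : IsFrac j) {X Y : Matrix J I (VN G)} {P : Matrix J J U}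
    {Q : Matrix I I U} (hP : IsUnit P) (hQ : IsUnit Q) (h : X.map j = P * Y.map j * Q) :
    kd X = kd Y := by
  obtain ⟨Q, rfl⟩ := hQ
  obtain ⟨s, hs, Q', h1⟩ := KdEq_den_right hj (↑Q⁻¹ : Matrix I I U)
  obtain ⟨t, ht, P', h2⟩ := KdEq_den_left hj P
  have h3 : (Matrix.diagonal fun _ : J => t) * (X * Q') =
      P' * (Y * Matrix.diagonal fun _ : I => s) := by
    refine KdEq_map_inj hj ?_
    rw [Matrix.map_mul, Matrix.map_mul, Matrix.map_mul, Matrix.map_mul, h, h1, h2, KdEq_map_diag,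
      KdEq_map_diag]
    simp only [Matrix.mul_assoc]
    rw [← Matrix.mul_assoc (Q : Matrix I I U), Units.mul_inv, Matrix.one_mul]
  have k1 : (opN (Matrix.diagonal fun _ : J => t)).ker = ⊥ := by
    refine hj.ker_eq_bot ?_
    rw [KdEq_map_diag]
    exact KdEq_unit_diag (hj.unit t ht)
  have k2 : (opN (Matrix.diagonal fun _ : I => s)).ker = ⊥ := by
    refine hj.ker_eq_bot ?_
    rw [KdEq_map_diag]
    exact KdEq_unit_diag (hj.unit s hs)
  have k3 : (opN Q').ker = ⊥ := by
    refine hj.ker_eq_bot ?_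
    rw [h1]
    exact (Units.isUnit _).mul (KdEq_unit_diag (hj.unit s hs))
  have k4 : (opN P').ker = ⊥ := by
    refine hj.ker_eq_bot ?_
    rw [h2]
    exact (KdEq_unit_diag (hj.unit t ht)).mul hP
  rw [← kd_mul_right X Q' k3, ← kd_mul_left _ _ k1, h3, kd_mul_left _ _ k4, kd_mul_right _ _ k2]

/-- The harmonic vectors vanish. -/
theorem KdEq_harm (hj : IsFrac j) {A : Matrix I I (VN G)} (γ : Matrix I I U)
    (h : A.map j * γ + γ * A.map j = 1) {v : HS I G} (h1 : opN A v = 0)
    (h2 : ContinuousLinearMap.adjoint (opN A) v = 0) : v = 0 := by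
  set T := opN A with hT
  set H : Submodule ℂ (HS I G) := T.ker ⊓ (ContinuousLinearMap.adjoint T).ker with hH
  have hI : Inv H := fun g w hw =>
    ⟨(eqv_opN A).inv_ker g w hw.1, (eqv_opN A).adj.inv_ker g w hw.2⟩
  have hc : H.topologicalClosure ≤ H :=
    H.topologicalClosure_minimal le_rfl
      (T.isClosed_ker.inter (ContinuousLinearMap.adjoint T).isClosed_ker)
  obtain ⟨q, hq⟩ := hI.eqv_proj.exists_opN
  have e1 : A * q = 0 := by
    refine opN_injective ?_
    rw [opN_mul, opN_zero, hq]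
    ext1 w
    exact (hc (H.topologicalClosure.starProjection_apply_mem w)).1
  have e2 : q * A = 0 := by
    refine opN_injective ?_
    rw [opN_mul, opN_zero, hq]
    ext1 w
    refine (Submodule.starProjection_apply_eq_zero_iff _).2 fun y hy => ?_
    have h3 : ContinuousLinearMap.adjoint T y = 0 := (hc hy).2
    change inner ℂ y (T w) = 0
    rw [← ContinuousLinearMap.adjoint_inner_left, h3, inner_zero_left]
  have e3 : q * q = 0 := by
    refine KdEq_map_inj hj ?_
    have e4 : (A.map j) * q.map j = 0 := by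
      rw [← Matrix.map_mul, e1, Matrix.map_zero _ j.map_zero]
    have e5 : q.map j * A.map j = 0 := by
      rw [← Matrix.map_mul, e2, Matrix.map_zero _ j.map_zero]
    have e6 : q.map j * (A.map j * γ + γ * A.map j) * q.map j = 0 := by
      rw [mul_add, ← mul_assoc, e5, zero_mul, zero_add, mul_assoc, mul_assoc, e4, mul_zero,
        mul_zero]
    rw [h, mul_one] at e6
    rw [Matrix.map_mul, e6, Matrix.map_zero _ j.map_zero]
  have h4 : H.topologicalClosure.starProjection v = v :=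
    Submodule.starProjection_eq_self_iff.2 (H.le_topologicalClosure ⟨h1, h2⟩)
  have h5 := opN_mul q q
  rw [e3, opN_zero, hq] at h5
  have h6 := DFunLike.congr_fun h5 v
  rw [ContinuousLinearMap.comp_apply, h4, h4] at h6
  exact h6.symm

theorem IsFrac.l2Acyc (hj : IsFrac j) {A : Matrix I I (ZG G)} (hA : A * A = 0) (γ : Matrix I I U)
    (h : A.map (j.comp (toVN G)) * γ + γ * A.map (j.comp (toVN G)) = 1) : L2Acyc A := by
  unfold L2Acyc
  rw [← adjoint_opN_toVN]
  set T := opN (A.map (toVN G)) with hT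
  have hTT : T ∘L T = 0 := by
    rw [hT, ← opN_mul, ← Matrix.map_mul, hA, Matrix.map_zero _ (toVN G).map_zero, opN_zero]
  have hS : ContinuousLinearMap.adjoint T ∘L ContinuousLinearMap.adjoint T = 0 := by
    rw [← ContinuousLinearMap.adjoint_comp, hTT, map_zero]
  set S := ContinuousLinearMap.adjoint T with hS'
  have hK : S.range.topologicalClosure ≤ S.ker := by
    refine S.range.topologicalClosure_minimal ?_ S.isClosed_ker
    rintro _ ⟨w, rfl⟩
    exact DFunLike.congr_fun hS w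
  intro v hv
  obtain ⟨a, ha, b, hb, rfl⟩ := S.range.topologicalClosure.exists_add_mem_mem_orthogonal v
  have h1 : b ∈ S.ker := by
    have := S.ker.sub_mem hv (hK ha)
    rwa [add_sub_cancel_left] at this
  have h2 : T b = 0 := by
    have h3 := hb (S (T b)) (S.range.le_topologicalClosure ⟨T b, rfl⟩)
    rw [hS', ContinuousLinearMap.adjoint_inner_left] at h3
    exact inner_self_eq_zero.1 h3
  have h4 : b = 0 := KdEq_harm hj (A := A.map (toVN G)) γ h h2 h1
  rw [h4, add_zero]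
  exact ha

end Pool.Agent.Work.MP_735653_gt
end
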