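import Pool.Agent.Work.MP_735653_gt.HDefs

/-! Finite subcomplexes of the cubical lattice, with a cocycle. -/

namespace Pool.Agent.Work.MP_735653_gt

/-- cells of the cubical lattice: an even coordinate is a point, an odd one `c` is the interval
from `c - 1` to `c + 1` -/
abbrev Cell (D : ℕ) : Type := Fin D → ℤ

variable {D : ℕ}

/-- unit vectors -/
def ee (i : Fin D) : Cell D := Pi.single i 1

/-- `b` is a face of `a` -/
def Face (b a : Cell D) : Prop :=
  ∀ i, b i = a i ∨ (a i % 2 = 1 ∧ (b i = a i + 1 ∨ b i = a i - 1))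

/-- `b` is a face of codimension one of `a` -/
def Fc (b a : Cell D) : Prop := ∃ i, a i % 2 = 1 ∧ (b = a + ee i ∨ b = a - ee i)

/-- vertices -/
def Vtx (v : Cell D) : Prop := ∀ i, v i % 2 = 0

/-- the dimension of a cell -/
def dim (a : Cell D) : ℤ := ((Finset.univ.filter fun i => a i % 2 = 1).card : ℕ)

/-- the lowest vertex of a cell -/
def bot (a : Cell D) : Cell D := fun i => a i - a i % 2

/-- signs -/
def sg (a : Cell D) (i : Fin D) : ℤ :=
  (-1) ^ (Finset.univ.filter fun j => j < i ∧ a j % 2 = 1).card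

/-- incidence numbers -/
def inc (a b : Cell D) : ℤ :=
  ∑ i, if a i % 2 = 1 then
    sg a i * ((if b = a + ee i then 1 else 0) - if b = a - ee i then 1 else 0) else 0

/-- closed under faces -/
def Down (K : Finset (Cell D)) : Prop := ∀ a ∈ K, ∀ b, Face b a → b ∈ K

/-- cocycles on the face poset -/
def Coc {H : Type} [Group H] (K : Finset (Cell D)) (ψ : Cell D → Cell D → H) : Prop :=
  ∀ a ∈ K, ∀ b c, Face b a → Face c b → ψ a c = ψ a b * ψ b c

/-- cocycles on edges: `ε v i` labels the edge from `v` to `v + 2 e_i` -/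
def ECoc {H : Type} [Group H] (K : Finset (Cell D)) (ε : Cell D → Fin D → H) : Prop :=
  ∀ v i j, Vtx v → i ≠ j → v + ee i + ee j ∈ K →
    ε v i * ε (v + 2 • ee i) j = ε v j * ε (v + 2 • ee j) i

/-- a finite subcomplex with a cocycle -/
structure LC (D : ℕ) (G : Type) [Group G] where
  K : Finset (Cell D)
  μ : Cell D → Cell D → G
  down : Down K
  coc : Coc K μ

variable {G : Type} [Group G]

/-- the boundary matrix on a set of cells -/
noncomputable def bdS (μ : Cell D → Cell D → G) (S : Finset (Cell D)) : Matrix S S (ZG G) :=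
  fun a b => MonoidAlgebra.single (μ a.1 b.1) (inc a.1 b.1)

/-- the dimension function on a set of cells -/
def dimS (S : Finset (Cell D)) : S → ℤ := fun a => dim a.1

/-- the holonomy along an edge -/
def mue (μ : Cell D → Cell D → G) (v : Cell D) (i : Fin D) : G :=
  (μ (v + ee i) v)⁻¹ * μ (v + ee i) (v + 2 • ee i)

/-- every cocycle is induced from the given one -/
def SCp (X : LC D G) : Prop :=
  ∀ (H : Type) [Group H] (ψ : Cell D → Cell D → H), Coc X.K ψ → ∃ (θ : G →* H) (f : Cell D → H),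
    ∀ a ∈ X.K, ∀ b, Face b a → ψ a b = f a * θ (X.μ a b) * (f b)⁻¹

/-- every edge cocycle is induced from the given one -/
def SCe (X : LC D G) : Prop :=
  ∀ (H : Type) [Group H] (ε : Cell D → Fin D → H), ECoc X.K ε → ∃ (θ : G →* H) (f : Cell D → H),
    ∀ v i, Vtx v → v + ee i ∈ X.K → ε v i = f v * θ (mue X.μ v i) * (f (v + 2 • ee i))⁻¹

/-- the covering complex is nonempty and connected -/
def Conn (X : LC D G) : Prop :=
  X.K.Nonempty ∧ ∀ φ : G → Cell D → Prop,
    (∀ g, ∀ a ∈ X.K, ∀ b, Face b a → (φ g a ↔ φ (g * X.μ a b) b)) →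
    ∀ g g', ∀ a ∈ X.K, ∀ b ∈ X.K, φ g a → φ g' b

/-- the 1-skeleton of the covering complex is nonempty and connected -/
def ConnE (X : LC D G) : Prop :=
  (∃ v ∈ X.K, Vtx v) ∧ ∀ φ : G → Cell D → Prop,
    (∀ g v i, Vtx v → v + ee i ∈ X.K → (φ g v ↔ φ (g * mue X.μ v i) (v + 2 • ee i))) →
    ∀ g g', ∀ a ∈ X.K, ∀ b ∈ X.K, Vtx a → Vtx b → φ g a → φ g' b

/-- an acyclic matching on a set of cells -/
structure LM (S : Finset (Cell D)) where
  up : Cell D → Prop
  dn : Cell D → Prop
  σ : Cell D → Cell D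
  ρ : Cell D → ℤ
  up_σ : ∀ a ∈ S, up a → σ a ∈ S ∧ dn (σ a) ∧ σ (σ a) = a ∧ Fc (σ a) a
  dn_σ : ∀ a ∈ S, dn a → σ a ∈ S ∧ up (σ a) ∧ σ (σ a) = a
  disj : ∀ a ∈ S, up a → ¬ dn a
  tri : ∀ a ∈ S, ∀ b ∈ S, up a → dn b → Fc b a → b ≠ σ a → ρ (σ b) < ρ a

/-- the smallest coarse cell whose fat cell contains a fine cell -/
def lo (y : Cell D) : Cell D := fun i => 2 * (y i / 4) + if y i % 4 = 3 then 1 else 0

/-- the largest coarse cell whose fat cell contains a fine cell -/
def hi (y : Cell D) : Cell D := fun i =>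
  2 * (y i / 4) + if y i % 4 = 0 then -1 else if y i % 4 = 1 then 0 else 1

/-- the cells of the regular neighbourhood -/
noncomputable def WK (K : Finset (Cell D)) : Finset (Cell D) :=
  K.biUnion fun a => (Fintype.piFinset fun i => Finset.Icc (2 * a i) (2 * a i + 2)).filter
    fun y => lo y = a

/-- the cells of the boundary of the regular neighbourhood -/
noncomputable def EK (K : Finset (Cell D)) : Finset (Cell D) := (WK K).filter fun y => hi y ∉ K

/-- the interior cells of the regular neighbourhood -/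
noncomputable def QK (K : Finset (Cell D)) : Finset (Cell D) := (WK K).filter fun y => hi y ∈ K

theorem mem_WK {K : Finset (Cell D)} {y : Cell D} : y ∈ WK K ↔ lo y ∈ K := by
  simp only [WK, Finset.mem_biUnion, Finset.mem_filter, Fintype.mem_piFinset, Finset.mem_Icc]
  refine ⟨fun ⟨a, ha, _, h⟩ => h ▸ ha, fun h => ⟨_, h, fun i => ?_, rfl⟩⟩
  simp only [lo]
  split_ifs <;> omega

theorem mem_EK {K : Finset (Cell D)} {y : Cell D} : y ∈ EK K ↔ lo y ∈ K ∧ hi y ∉ K := by
  rw [EK, Finset.mem_filter, mem_WK]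

theorem lo_face_hi (y : Cell D) : Face (lo y) (hi y) := fun i => by
  simp only [lo, hi]
  split_ifs <;> omega

theorem Face.lo {y z : Cell D} (h : Face z y) : Face (lo z) (lo y) := fun i => by
  have := h i
  simp only [MP_735653_gt.lo]
  split_ifs <;> omega

theorem Face.hi {y z : Cell D} (h : Face z y) : Face (hi y) (hi z) := fun i => by
  have := h i
  simp only [MP_735653_gt.hi]
  split_ifs <;> omega

theorem mem_QK {K : Finset (Cell D)} (hK : Down K) {y : Cell D} : y ∈ QK K ↔ hi y ∈ K := by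
  rw [QK, Finset.mem_filter, mem_WK]
  exact ⟨fun h => h.2, fun h => ⟨hK _ h _ (lo_face_hi y), h⟩⟩

/-- the regular neighbourhood -/
noncomputable def LC.W (X : LC D G) : LC D G where
  K := WK X.K
  μ y z := X.μ (lo y) (lo z)
  down _ ha _ hb := mem_WK.2 (X.down _ (mem_WK.1 ha) _ hb.lo)
  coc _ ha _ _ hb hc := X.coc _ (mem_WK.1 ha) _ _ hb.lo hc.lo

/-- the boundary of the regular neighbourhood -/
noncomputable def LC.E (X : LC D G) : LC D G where
  K := EK X.K
  μ y z := X.μ (lo y) (lo z)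
  down _ ha _ hb := mem_EK.2 ⟨X.down _ (mem_EK.1 ha).1 _ hb.lo,
    fun h => (mem_EK.1 ha).2 (X.down _ h _ hb.hi)⟩
  coc _ ha _ _ hb hc := X.coc _ (mem_EK.1 ha).1 _ _ hb.lo hc.lo

/-- the same complex with the trivial group -/
def LC.triv (X : LC D G) : LC D Unit where
  K := X.K
  μ _ _ := 1
  down := X.down
  coc _ _ _ _ _ _ := rfl

end Pool.Agent.Work.MP_735653_gt
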