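import Pool.Agent.Work.MP_735653_gt.SDefs

/-! Down-closed families and the local form of the smoothed indicator function. -/

namespace Pool.Agent.Work.MP_735653_gt

variable {D : ℕ} {𝒟 : Finset (Finset (Fin D))} {r r' : Fin D → ℝ}

/-- the product of the factors other than `i` -/
noncomputable def PD_w (i : Fin D) (r : Fin D → ℝ) (T : Finset (Fin D)) : ℝ :=
  ∏ j ∈ Finset.univ.erase i, if j ∈ T then r j else 1 - r j

theorem PD_upd (𝒟 : Finset (Finset (Fin D))) (r : Fin D → ℝ) (i : Fin D) (t : ℝ) :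
    pD 𝒟 (Function.update r i t) = ∑ T ∈ 𝒟, (if i ∈ T then t else 1 - t) * PD_w i r T := by
  refine Finset.sum_congr rfl fun T _ => ?_
  rw [← Finset.mul_prod_erase _ _ (Finset.mem_univ i), Function.update_self]
  congr 1
  exact Finset.prod_congr rfl fun j hj => by
    rw [Function.update_of_ne (Finset.ne_of_mem_erase hj)]

theorem pD_update (𝒟 : Finset (Finset (Fin D))) (r : Fin D → ℝ) (i : Fin D) (t : ℝ) :
    pD 𝒟 (Function.update r i t) =
      t * pD 𝒟 (Function.update r i 1) + (1 - t) * pD 𝒟 (Function.update r i 0) := by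
  simp only [PD_upd, Finset.mul_sum, ← Finset.sum_add_distrib]
  refine Finset.sum_congr rfl fun T _ => ?_
  split_ifs <;> ring

theorem PD_one (h : ∀ T ∈ 𝒟, ∀ S ⊆ T, S ∈ 𝒟) (r : Fin D → ℝ) (i : Fin D) :
    pD 𝒟 (Function.update r i 0) - pD 𝒟 (Function.update r i 1) =
      ∑ T ∈ 𝒟.filter fun T => i ∉ T ∧ insert i T ∉ 𝒟, PD_w i r T := by
  have h0 : pD 𝒟 (Function.update r i 0) = ∑ T ∈ 𝒟.filter fun T => i ∉ T, PD_w i r T := by
    rw [PD_upd, Finset.sum_filter]
    refine Finset.sum_congr rfl fun T _ => ?_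
    split_ifs <;> simp_all
  have h1 : pD 𝒟 (Function.update r i 1) =
      ∑ T ∈ (𝒟.filter fun T => i ∉ T).filter fun T => insert i T ∈ 𝒟, PD_w i r T := by
    have : pD 𝒟 (Function.update r i 1) = ∑ T ∈ 𝒟.filter fun T => i ∈ T, PD_w i r T := by
      rw [PD_upd, Finset.sum_filter]
      refine Finset.sum_congr rfl fun T _ => ?_
      split_ifs <;> simp_all
    rw [this]
    refine Finset.sum_bij' (fun T _ => T.erase i) (fun T _ => insert i T) ?_ ?_ ?_ ?_ ?_
    · intro T hT
      simp only [Finset.mem_filter] at hT ⊢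
      exact ⟨⟨h T hT.1 _ (Finset.erase_subset _ _), Finset.notMem_erase _ _⟩, by
        rw [Finset.insert_erase hT.2]; exact hT.1⟩
    · intro T hT
      simp only [Finset.mem_filter] at hT ⊢
      exact ⟨hT.2, Finset.mem_insert_self _ _⟩
    · intro T hT
      exact Finset.insert_erase (Finset.mem_filter.1 hT).2
    · intro T hT
      exact Finset.erase_insert (Finset.mem_filter.1 (Finset.mem_filter.1 hT).1).2
    · intro T _
      exact Finset.prod_congr rfl fun j hj => by simp [Finset.ne_of_mem_erase hj]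
  rw [h0, h1, ← Finset.sum_filter_add_sum_filter_not _ (fun T => insert i T ∈ 𝒟),
    add_sub_cancel_left, Finset.filter_filter]

theorem PD_w_nonneg (h0 : ∀ i, 0 ≤ r i) (h1 : ∀ i, r i ≤ 1) (i : Fin D) (T : Finset (Fin D)) :
    0 ≤ PD_w i r T :=
  Finset.prod_nonneg fun j _ => by
    split_ifs
    · exact h0 j
    · linarith [h1 j]

theorem pD_anti (h : ∀ T ∈ 𝒟, ∀ S ⊆ T, S ∈ 𝒟) (h0 : ∀ i, 0 ≤ r i) (h1 : ∀ i, r i ≤ r' i)
    (h2 : ∀ i, r' i ≤ 1) : pD 𝒟 r' ≤ pD 𝒟 r := by
  have key : ∀ s : Finset (Fin D), pD 𝒟 (s.piecewise r' r) ≤ pD 𝒟 r := by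
    intro s
    induction s using Finset.induction_on with
    | empty => simp
    | insert a s ha ih =>
      refine le_trans ?_ ih
      have h3 : s.piecewise r' r = Function.update (s.piecewise r' r) a (r a) := by
        rw [← Finset.piecewise_eq_of_notMem s r' r ha, Function.update_eq_self]
      have h4 : 0 ≤ pD 𝒟 (Function.update (s.piecewise r' r) a 0) -
          pD 𝒟 (Function.update (s.piecewise r' r) a 1) := by
        rw [PD_one h]
        refine Finset.sum_nonneg fun T _ => PD_w_nonneg (fun j => ?_) (fun j => ?_) _ _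
        · unfold Finset.piecewise
          split_ifs
          · exact (h0 j).trans (h1 j)
          · exact h0 j
        · unfold Finset.piecewise
          split_ifs
          · exact h2 j
          · exact (h1 j).trans (h2 j)
      rw [Finset.piecewise_insert, pD_update]
      conv_rhs => rw [h3, pD_update]
      nlinarith [h1 a]
  simpa using key Finset.univ

theorem PD_univ (r : Fin D → ℝ) : pD Finset.univ r = 1 := by
  have := Finset.prod_add r (fun i => 1 - r i) Finset.univ
  simp only [add_sub_cancel, Finset.prod_const_one, Finset.powerset_univ] at this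
  rw [this]
  refine Finset.sum_congr rfl fun T _ => ?_
  rw [Finset.prod_ite]
  congr 2 <;> ext <;> simp

theorem PD_pos (h0 : ∀ i, 0 ≤ r i) (h1 : ∀ i, r i ≤ 1) {𝒟 : Finset (Finset (Fin D))}
    (h : 0 < pD 𝒟 r) : ∃ T ∈ 𝒟, (∀ i ∈ T, 0 < r i) ∧ ∀ i ∉ T, r i < 1 := by
  obtain ⟨T, hT, h2⟩ := Finset.exists_ne_zero_of_sum_ne_zero h.ne'
  rw [Finset.prod_ne_zero_iff] at h2
  refine ⟨T, hT, fun i hi => ?_, fun i hi => ?_⟩
  · have := h2 i (Finset.mem_univ i)
    rw [if_pos hi] at this
    exact lt_of_le_of_ne (h0 i) this.symm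
  · have := h2 i (Finset.mem_univ i)
    rw [if_neg hi] at this
    exact lt_of_le_of_ne (h1 i) fun h => this (by rw [h, sub_self])

theorem pD_pivot (h : ∀ T ∈ 𝒟, ∀ S ⊆ T, S ∈ 𝒟) (h0 : ∀ i, 0 ≤ r i) (h1 : ∀ i, r i ≤ 1)
    (h2 : 0 < pD 𝒟 r) (h3 : pD 𝒟 r < 1) : ∃ i, 0 < r i ∧ r i < 1 ∧
      pD 𝒟 (Function.update r i 1) < pD 𝒟 (Function.update r i 0) := by
  obtain ⟨T1, a1, -, a2⟩ := PD_pos h0 h1 h2
  have h4 : 0 < pD 𝒟ᶜ r := by
    have : pD 𝒟 r + pD 𝒟ᶜ r = 1 := (Finset.sum_add_sum_compl _ _).trans (PD_univ r)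
    linarith
  obtain ⟨T2, b1, b2, b3⟩ := PD_pos h0 h1 h4
  rw [Finset.mem_compl] at b1
  obtain ⟨S, hS, hmax⟩ := Finset.exists_max_image (𝒟.filter fun S => T1 ∩ T2 ⊆ S ∧ S ⊆ T2)
    Finset.card ⟨T1 ∩ T2, Finset.mem_filter.2
      ⟨h T1 a1 _ Finset.inter_subset_left, subset_rfl, Finset.inter_subset_right⟩⟩
  obtain ⟨c1, c2, c3⟩ := Finset.mem_filter.1 hS
  obtain ⟨i, d1, d2⟩ := Finset.exists_of_ssubset
    (lt_of_le_of_ne c3 fun h => b1 (h ▸ c1) : S ⊂ T2)
  have hlt : ∀ j ∉ S, r j < 1 := fun j hj => by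
    by_cases h5 : j ∈ T2
    · exact a2 j fun h6 => hj (c2 (Finset.mem_inter.2 ⟨h6, h5⟩))
    · exact b3 j h5
  refine ⟨i, b2 i d1, hlt i d2, sub_pos.1 ?_⟩
  rw [PD_one h]
  refine Finset.sum_pos' (fun T _ => PD_w_nonneg h0 h1 _ _) ⟨S, Finset.mem_filter.2
    ⟨c1, d2, fun h5 => ?_⟩, Finset.prod_pos fun j _ => ?_⟩
  · have := hmax _ (Finset.mem_filter.2
      ⟨h5, c2.trans (Finset.subset_insert _ _), Finset.insert_subset d1 c3⟩)
    rw [Finset.card_insert_of_notMem d2] at this
    omega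
  · split_ifs with h5
    · exact b2 j (c3 h5)
    · linarith [hlt j h5]

theorem pD_indicator (𝒟 : Finset (Finset (Fin D))) (T : Finset (Fin D)) :
    pD 𝒟 (fun i => if i ∈ T then 1 else 0) = if T ∈ 𝒟 then 1 else 0 := by
  rw [← Finset.sum_ite_eq' 𝒟 T fun _ => (1 : ℝ)]
  refine Finset.sum_congr rfl fun S _ => ?_
  split_ifs with h
  · subst h
    exact Finset.prod_eq_one fun i _ => by by_cases hi : i ∈ S <;> simp [hi]
  · obtain ⟨i, hi⟩ := not_forall.1 fun h' => h (Finset.ext h')
    refine Finset.prod_eq_zero (Finset.mem_univ i) ?_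
    split_ifs <;> simp_all

theorem famK_down {K : Finset (Cell D)} (hK : Down K) (k : Cell D) :
    ∀ T ∈ famK K k, ∀ S ⊆ T, S ∈ famK K k := by
  intro T hT S hS
  simp only [famK, Finset.mem_filter, Finset.mem_univ, true_and] at hT ⊢
  refine hK _ hT _ fun i => ?_
  simp only [cT]
  by_cases h1 : i ∈ S
  · simp [h1, hS h1]
  · split_ifs <;> omega

theorem PD_sym (x : ℝ) : Real.smoothTransition (1 - x) = 1 - Real.smoothTransition x := by
  have := Real.smoothTransition.pos_denom x
  simp only [Real.smoothTransition, sub_sub_cancel]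
  rw [add_comm (expNegInvGlue (1 - x))]
  field_simp
  ring

theorem PD_psi (k a : ℤ) (t : ℝ) (h : |t - 2 * k| < 3 / 2) :
    psi a t = if a = k then Real.smoothTransition (t - 2 * k + 1 / 2) else
      if a = k - 1 then 1 - Real.smoothTransition (t - 2 * k + 1 / 2) else 0 := by
  obtain ⟨h1, h2⟩ := abs_lt.1 h
  unfold psi
  split_ifs with h3 h4
  · subst h3
    rw [Real.smoothTransition.zero_of_nonpos (x := t - 2 * a - 2 + 1 / 2) (by linarith), sub_zero]
  · subst h4
    push_cast
    rw [Real.smoothTransition.one_of_one_le (by linarith)]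
    congr 2
    ring
  · rcases (by omega : k + 1 ≤ a ∨ a + 2 ≤ k) with h5 | h5
    · have h6 : (k : ℝ) + 1 ≤ a := by exact_mod_cast h5
      rw [Real.smoothTransition.zero_of_nonpos (by linarith),
        Real.smoothTransition.zero_of_nonpos (by linarith), sub_zero]
    · have h6 : (a : ℝ) + 2 ≤ k := by exact_mod_cast h5
      rw [Real.smoothTransition.one_of_one_le (by linarith),
        Real.smoothTransition.one_of_one_le (by linarith), sub_self]

theorem FK_eq (K : Finset (Cell D)) (k : Cell D) (x : Fin D → ℝ)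
    (h : ∀ i, |x i - 2 * k i| < 3 / 2) :
    FK K x = pD (famK K k) fun i => Real.smoothTransition (qk (k i) (x i)) := by
  have hinj : Function.Injective (cT k) := fun S T hST => Finset.ext fun i => by
    have := congrFun hST i
    simp only [cT] at this
    by_contra h1
    split_ifs at this <;> first | omega | tauto
  have h1 : ∀ T, (∏ i, if i ∈ T then Real.smoothTransition (qk (k i) (x i)) else
      1 - Real.smoothTransition (qk (k i) (x i))) = ∏ i, psi (cT k T i) (x i) := by
    refine fun T => Finset.prod_congr rfl fun i _ => ?_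
    have h2 : k i - 1 ≠ k i := by omega
    have h3 : -1 * (x i - 2 * k i) + 1 / 2 = 1 - (x i - 2 * k i + 1 / 2) := by ring
    rw [PD_psi (k i) _ _ (h i)]
    simp only [cT, qk, dk]
    by_cases h4 : i ∈ T <;> by_cases h5 : k i % 2 = 1 <;>
      simp only [h4, h5, if_true, if_false, h2, one_mul, h3, PD_sym, sub_sub_cancel]
  unfold FK pD
  simp only [h1]
  rw [← Finset.sum_image (f := fun a : Cell D => ∏ i, psi (a i) (x i)) hinj.injOn]
  refine (Finset.sum_subset (fun a ha => ?_) fun a ha hn => ?_).symm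
  · obtain ⟨T, hT, rfl⟩ := Finset.mem_image.1 ha
    exact (Finset.mem_filter.1 hT).2
  · by_contra h2
    replace h2 := Finset.prod_ne_zero_iff.1 h2
    have h3 : cT k (Finset.univ.filter fun i => a i % 2 = 1) = a := by
      funext i
      have h4 := h2 i (Finset.mem_univ i)
      rw [PD_psi (k i) _ _ (h i)] at h4
      have h5 : a i = k i ∨ a i = k i - 1 := by
        by_contra h6
        push Not at h6
        exact h4 (by rw [if_neg h6.1, if_neg h6.2])
      simp only [cT, Finset.mem_filter, Finset.mem_univ, true_and]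
      split_ifs <;> omega
    exact hn (Finset.mem_image.2 ⟨_, Finset.mem_filter.2 ⟨Finset.mem_univ _, h3.symm ▸ ha⟩, h3⟩)

end Pool.Agent.Work.MP_735653_gt
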