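import Pool.Agent.Work.MP_735653_gt.TDefs

/-! A smooth function whose level set is homeomorphic to the boundary of the neighbourhood. -/

namespace Pool.Agent.Work.MP_735653_gt

variable {D : ℕ}

/-- a smooth partition of unity of the line; `psi j` is `1` on `[2j + 1/2, 2j + 3/2]` -/
noncomputable def psi (j : ℤ) (t : ℝ) : ℝ :=
  Real.smoothTransition (t - 2 * j + 1 / 2) - Real.smoothTransition (t - 2 * j - 2 + 1 / 2)

/-- the smoothed indicator function of the regular neighbourhood -/
noncomputable def FK (K : Finset (Cell D)) (x : Fin D → ℝ) : ℝ := ∑ a ∈ K, ∏ i, psi (a i) (x i)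

/-- the probability that a random set lies in a family -/
noncomputable def pD (𝒟 : Finset (Finset (Fin D))) (r : Fin D → ℝ) : ℝ :=
  ∑ T ∈ 𝒟, ∏ i, if i ∈ T then r i else 1 - r i

/-- `2 * nk t` is the nearest even integer -/
noncomputable def nk (t : ℝ) : ℤ := ⌊t / 2 + 1 / 2⌋

/-- the direction towards the odd coarse cell -/
def dk (k : ℤ) : ℝ := if k % 2 = 1 then 1 else -1

/-- the local coordinate near `2 k` -/
noncomputable def qk (k : ℤ) (t : ℝ) : ℝ := dk k * (t - 2 * k) + 1 / 2

/-- the coarse cell that is odd in the coordinates of `T` and even in the others -/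
def cT (k : Cell D) (T : Finset (Fin D)) : Cell D := fun i =>
  if i ∈ T then (if k i % 2 = 1 then k i else k i - 1) else (if k i % 2 = 1 then k i - 1 else k i)

/-- the family of sets whose coarse cell is in the complex -/
def famK (K : Finset (Cell D)) (k : Cell D) : Finset (Finset (Fin D)) :=
  Finset.univ.filter fun T => cT k T ∈ K

/-- the logistic flow on the unit interval, extended by the identity -/
noncomputable def lgs (l q : ℝ) : ℝ :=
  if 0 < q ∧ q < 1 then Real.exp l * q / (1 - q + Real.exp l * q) else q

/-- a flow on the line that moves points near even integers towards the odd coarse cells -/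
noncomputable def flw (l t : ℝ) : ℝ := t + dk (nk t) * (lgs l (qk (nk t) t) - qk (nk t) t)

end Pool.Agent.Work.MP_735653_gt
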