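import Pool.Agent.Work.MP_735653_gt.Defs

/-! Singular chains over a commutative ring: comparison with the library. -/

namespace Pool.Agent.Work.MP_735653_gt.SingG

open Finsupp

variable {k : Type} [CommRing k] {X : Type} [TopologicalSpace X]

/-- chains -/
abbrev GSC (k : Type) [CommRing k] (X : Type) [TopologicalSpace X] : Type := Sx X →₀ k

variable (k) in
/-- boundary of a simplex -/
noncomputable def gsbd1 : Sx X → GSC k X
  | ⟨0, _⟩ => 0
  | ⟨q + 1, s⟩ => ∑ i : Fin (q + 2), (-1 : k) ^ (i : ℕ) • Finsupp.single ⟨q, face s i⟩ 1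

variable (k X) in
/-- boundary -/
noncomputable def gsbd : GSC k X →ₗ[k] GSC k X := Finsupp.linearCombination k (gsbd1 k)

variable (k) in
/-- chains of degree `q` in `U` -/
def GSCq (U : Set X) (q : ℕ) : Submodule k (GSC k X) :=
  supported k k {s | s.1 = q ∧ Set.range s.2 ⊆ U}

theorem map_supported_cmp {S : Set (Sx X)} {V : Type} [AddCommGroup V] [Module k V]
    (T : Submodule k V) (F : GSC k X →ₗ[k] V) (h : ∀ s ∈ S, F (single s 1) ∈ T) {x : GSC k X}
    (hx : x ∈ supported k k S) : F x ∈ T := by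
  have : supported k k S ≤ T.comap F := by
    rw [supported_eq_span_single, Submodule.span_le]
    rintro _ ⟨s, hs, rfl⟩
    exact h s hs
  exact this hx

theorem sbd_single_cmp (s : Sx X) : gsbd k X (single s 1) = gsbd1 k s := by
  rw [gsbd, linearCombination_single, one_smul]

theorem sbd_mem (U : Set X) (q : ℕ) {x : GSC k X} (hx : x ∈ GSCq k U (q + 1)) : gsbd k X x ∈ GSCq k U q := by
  refine map_supported_cmp _ _ ?_ hx
  rintro ⟨q', s⟩ ⟨rfl, hs⟩
  rw [sbd_single_cmp, gsbd1]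
  refine Submodule.sum_mem _ fun i _ => Submodule.smul_mem _ _ (single_mem_supported k _ ?_)
  refine ⟨rfl, ?_⟩
  rintro _ ⟨y, rfl⟩
  exact hs ⟨_, rfl⟩

theorem sbd_zero (U : Set X) {x : GSC k X} (hx : x ∈ GSCq k U 0) : gsbd k X x = 0 := by
  refine (Submodule.mem_bot k).mp (map_supported_cmp _ _ ?_ hx)
  rintro ⟨q', s⟩ ⟨rfl, hs⟩
  rw [sbd_single_cmp, gsbd1]
  exact zero_mem _

section Cmp

open CategoryTheory Limits AlgebraicTopology Simplicial

variable (X) in
/-- The singular simplicial set. -/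
noncomputable abbrev SSCmp : SSet.{0} := TopCat.toSSet.obj (TopCat.of X)

variable (k X) in
/-- The singular chain complex of the library. -/
noncomputable abbrev CXCmp : ChainComplex (ModuleCat.{0} k) ℕ :=
  (SSCmp X).chainComplex (ModuleCat.of k k)

/-- The basis element of a singular simplex. -/
noncomputable def basCmp {n : ℕ} (s : SSCmp X _⦋n⦌) : (CXCmp k X).X n :=
  ((SSCmp X).ιChainComplex (R := ModuleCat.of k k) s).hom (1 : k)

theorem d_basCmp {n : ℕ} (s : SSCmp X _⦋n + 1⦌) :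
    ((CXCmp k X).d (n + 1) n).hom (basCmp s) =
      ∑ i : Fin (n + 2), (-1 : k) ^ (i : ℕ) • basCmp ((SSCmp X).δ i s) := by
  have h := congrArg (fun φ => φ.hom (1 : k)) ((SSCmp X).ιChainComplex_d (ModuleCat.of k k) s)
  simp only [ModuleCat.hom_comp, LinearMap.comp_apply, ModuleCat.hom_sum,
    LinearMap.sum_apply] at h
  refine h.trans (Finset.sum_congr rfl (fun i _ => ?_))
  rw [ModuleCat.hom_zsmul, LinearMap.smul_apply, ← Int.cast_smul_eq_zsmul k]
  simp [basCmp]

theorem span_basCmp {n : ℕ} (T : Submodule k ((CXCmp k X).X n)) (h : ∀ s, basCmp s ∈ T)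
    (c : (CXCmp k X).X n) : c ∈ T := by
  have h1 : ModuleCat.ofHom T.mkQ = 0 := by
    refine SSet.chainComplex_hom_ext (fun s => ?_)
    rw [comp_zero]
    ext
    exact (Submodule.Quotient.mk_eq_zero T).2 (h s)
  have h2 := congrArg (fun φ => φ.hom c) h1
  exact (Submodule.Quotient.mk_eq_zero T).1 h2

theorem exists_descCmp {n : ℕ} {M : Type} [AddCommGroup M] [Module k M]
    (f : SSCmp X _⦋n⦌ → M) : ∃ φ : (CXCmp k X).X n →ₗ[k] M, ∀ s, φ (basCmp s) = f s := by
  let c : Cofan (fun _ : SSCmp X _⦋n⦌ => ModuleCat.of k k) := Cofan.mk (ModuleCat.of k M)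
    (fun s => ModuleCat.ofHom (LinearMap.toSpanSingleton k M (f s)))
  refine ⟨(((SSCmp X).isColimitChainComplexXCofan (ModuleCat.of k k) n).desc c).hom,
    fun s => ?_⟩
  have h := congrArg (fun φ => φ.hom (1 : k))
    (((SSCmp X).isColimitChainComplexXCofan (ModuleCat.of k k) n).fac c ⟨s⟩)
  exact h.trans (one_smul _ _)

/-- Singular simplices as continuous maps. -/
noncomputable def eqvCmp (n : ℕ) : SSCmp X _⦋n⦌ ≃ C(stdSimplex ℝ (Fin (n + 1)), X) :=
  (TopCat.of X).toSSetObjEquiv (Opposite.op ⦋n⦌)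

theorem eqvCmp_δ {n : ℕ} (s : SSCmp X _⦋n + 1⦌) (i : Fin (n + 2)) :
    eqvCmp n ((SSCmp X).δ i s) = face (eqvCmp (n + 1) s) i := rfl

variable (k X) in
/-- The comparison map. -/
noncomputable def phiCmp (n : ℕ) : (CXCmp k X).X n →ₗ[k] GSC k X :=
  (exists_descCmp (fun s => (single ⟨n, eqvCmp n s⟩ 1 : GSC k X))).choose

theorem phiCmp_bas {n : ℕ} (s : SSCmp X _⦋n⦌) :
    phiCmp k X n (basCmp s) = single ⟨n, eqvCmp n s⟩ 1 :=
  (exists_descCmp (fun s => (single ⟨n, eqvCmp n s⟩ 1 : GSC k X))).choose_spec s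

theorem phiCmp_injective (n : ℕ) : Function.Injective (phiCmp k X n) := by
  classical
  let ψ : GSC k X →ₗ[k] (CXCmp k X).X n := linearCombination k
    (fun s : Sx X => if h : s.1 = n then basCmp ((eqvCmp n).symm (h ▸ s.2)) else 0)
  refine Function.LeftInverse.injective (g := ψ) fun c => ?_
  refine span_basCmp (LinearMap.eqLocus (ψ ∘ₗ phiCmp k X n) LinearMap.id) (fun s => ?_) c
  rw [LinearMap.mem_eqLocus, LinearMap.comp_apply, phiCmp_bas, linearCombination_single,
    one_smul, dif_pos rfl, Equiv.symm_apply_apply, LinearMap.id_apply]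

theorem range_phiCmp (n : ℕ) : LinearMap.range (phiCmp k X n) = GSCq k Set.univ n := by
  apply le_antisymm
  · rintro _ ⟨c, rfl⟩
    refine span_basCmp ((GSCq k Set.univ n).comap (phiCmp k X n)) (fun s => ?_) c
    rw [Submodule.mem_comap, phiCmp_bas]
    exact single_mem_supported k _ ⟨rfl, Set.subset_univ _⟩
  · intro x hx
    refine map_supported_cmp _ LinearMap.id ?_ hx
    rintro ⟨q, s⟩ ⟨rfl, -⟩
    exact ⟨basCmp ((eqvCmp q).symm s), by rw [phiCmp_bas, Equiv.apply_symm_apply]; rfl⟩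

theorem sbd_phiCmp (n : ℕ) (c : (CXCmp k X).X (n + 1)) :
    gsbd k X (phiCmp k X (n + 1) c) = phiCmp k X n (((CXCmp k X).d (n + 1) n).hom c) := by
  refine span_basCmp (LinearMap.eqLocus (gsbd k X ∘ₗ phiCmp k X (n + 1))
    (phiCmp k X n ∘ₗ ((CXCmp k X).d (n + 1) n).hom)) (fun s => ?_) c
  rw [LinearMap.mem_eqLocus, LinearMap.comp_apply, LinearMap.comp_apply, d_basCmp, map_sum,
    phiCmp_bas, sbd_single_cmp, gsbd1]
  refine Finset.sum_congr rfl fun i _ => ?_
  rw [map_smul, phiCmp_bas, eqvCmp_δ]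

theorem sbd_phiCmp_eq_zero_iff (n : ℕ) (c : (CXCmp k X).X n) :
    gsbd k X (phiCmp k X n c) = 0 ↔ ((CXCmp k X).d n ((ComplexShape.down ℕ).next n)).hom c = 0 := by
  rcases n with _ | n
  · rw [(CXCmp k X).shape 0 _ (by simp)]
    refine iff_of_true (sbd_zero Set.univ ?_) rfl
    rw [← range_phiCmp]
    exact ⟨c, rfl⟩
  · rw [ChainComplex.next_nat_succ, sbd_phiCmp, map_eq_zero_iff _ (phiCmp_injective n)]

theorem exact_Cmp (n : ℕ) (h : IsZero ((CXCmp k X).homology n)) (c : (CXCmp k X).X n)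
    (hc : gsbd k X (phiCmp k X n c) = 0) : ∃ c', ((CXCmp k X).d (n + 1) n).hom c' = c := by
  let S := (CXCmp k X).sc' (n + 1) n ((ComplexShape.down ℕ).next n)
  let e1 : (CXCmp k X).homology n ≅ S.homology :=
    (CXCmp k X).homologyIsoSc' (n + 1) n _ (by simp) rfl
  have h2 : S.Exact := S.exact_iff_isZero_homology.2 (h.of_iso e1.symm)
  exact (S.moduleCat_exact_iff.1 h2) c ((sbd_phiCmp_eq_zero_iff n c).1 hc)

end Cmp

theorem sbd_sbd (x : GSC k X) : gsbd k X (gsbd k X x) = 0 := by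
  have : gsbd k X ∘ₗ gsbd k X = 0 := by
    refine Finsupp.lhom_ext' fun s => LinearMap.ext_ring ?_
    change gsbd k X (gsbd k X (single s 1)) = 0
    obtain ⟨q, s⟩ := s
    have hs : (single ⟨q, s⟩ 1 : GSC k X) ∈ GSCq k Set.univ q :=
      single_mem_supported k _ ⟨rfl, Set.subset_univ _⟩
    rcases q with _ | _ | q
    · rw [sbd_zero _ hs, map_zero]
    · exact sbd_zero _ (sbd_mem _ _ hs)
    · rw [← range_phiCmp] at hs
      obtain ⟨c, hc⟩ := hs
      rw [← hc, sbd_phiCmp, sbd_phiCmp, ← LinearMap.comp_apply ((CXCmp k X).d (q + 1) q).hom,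
        ← ModuleCat.hom_comp, HomologicalComplex.d_comp_d, ModuleCat.hom_zero,
        LinearMap.zero_apply, map_zero]
  exact LinearMap.congr_fun this x

open CategoryTheory Limits AlgebraicTopology in
theorem isZero_homology_contr (k : Type) [CommRing k] (Z : Type) [TopologicalSpace Z] [ContractibleSpace Z] (n : ℕ)
    (hk : n ≠ 0) :
    IsZero (((singularHomologyFunctor (ModuleCat.{0} k) n).obj (ModuleCat.of k k)).obj
      (TopCat.of Z)) := by
  obtain ⟨z, ⟨H⟩⟩ := id_nullhomotopic Z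
  let F := (singularHomologyFunctor (ModuleCat.{0} k) n).obj (ModuleCat.of k k)
  let p : TopCat.of Z ⟶ TopCat.of PUnit.{1} := TopCat.ofHom (ContinuousMap.const _ PUnit.unit)
  let i : TopCat.of PUnit.{1} ⟶ TopCat.of Z := TopCat.ofHom (ContinuousMap.const _ z)
  have h0 : IsZero (F.obj (TopCat.of PUnit.{1})) :=
    isZero_singularHomologyFunctor_of_totallyDisconnectedSpace _ _ _ _ hk
  have h1 : F.map (𝟙 (TopCat.of Z)) = F.map (p ≫ i) :=
    TopCat.Homotopy.congr_homologyMap_singularChainComplexFunctor (f := 𝟙 _) (g := p ≫ i) H _ n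
  change IsZero (F.obj (TopCat.of Z))
  rw [IsZero.iff_id_eq_zero, ← F.map_id, h1, F.map_comp, h0.eq_zero_of_tgt (F.map p), zero_comp]

theorem acyclic (X : Type) [TopologicalSpace X] [ContractibleSpace X] (q : ℕ) {x : GSC k X}
    (hx : x ∈ GSCq k Set.univ (q + 1)) (h0 : gsbd k X x = 0) :
    ∃ y ∈ GSCq k Set.univ (q + 2), gsbd k X y = x := by
  have hz := isZero_homology_contr k X (q + 1) (Nat.succ_ne_zero q)
  rw [← range_phiCmp] at hx
  obtain ⟨c, rfl⟩ := hx
  obtain ⟨c', rfl⟩ := exact_Cmp (q + 1) hz c h0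
  refine ⟨phiCmp k X (q + 1 + 1) c', ?_, sbd_phiCmp (q + 1) c'⟩
  rw [← range_phiCmp]
  exact ⟨c', rfl⟩

end Pool.Agent.Work.MP_735653_gt.SingG
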