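import Pool.Agent.Work.MP_735653_gt.Sing
import Pool.Agent.Lib.RipsHom.Chains

/-! Barycentric subdivision of linear chains. -/

set_option autoImplicit false

namespace Pool.Agent.Work.MP_735653_gt

open Finsupp Pool.Agent.Lib.RipsHom

/-- The centroid of a list of vectors. -/
noncomputable def bary {V : Type} [AddCommGroup V] [Module ℝ V] (l : List V) : V :=
  (l.length : ℝ)⁻¹ • l.sum

section aux

variable {E E' : Type} [NormedAddCommGroup E] [NormedSpace ℝ E] [NormedAddCommGroup E']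
  [NormedSpace ℝ E']

/-- Subdivision in a fixed length. -/
noncomputable def sdNSL : ℕ → List E → Ch ℤ E
  | 0 => fun l => single l 1
  | n + 1 => fun l => cone ℤ (bary l) (linearCombination ℤ (sdNSL n) (bdL ℤ l))

/-- Homotopy in a fixed length. -/
noncomputable def ttNSL : ℕ → List E → Ch ℤ E
  | 0 => fun _ => 0
  | n + 1 => fun l => cone ℤ (bary l) (single l 1 - linearCombination ℤ (ttNSL n) (bdL ℤ l))

/-- Barycentric subdivision. -/
noncomputable def sdSL : Ch ℤ E →ₗ[ℤ] Ch ℤ E := linearCombination ℤ fun l => sdNSL l.length l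

/-- The homotopy from the subdivision to the identity. -/
noncomputable def ttSL : Ch ℤ E →ₗ[ℤ] Ch ℤ E := linearCombination ℤ fun l => ttNSL l.length l

lemma sdSL_nil : sdSL (single ([] : List E) 1) = single [] 1 := by simp [sdSL, sdNSL]

lemma ttSL_nil : ttSL (single ([] : List E) 1) = 0 := by simp [ttSL, ttNSL]

lemma sdSL_succ {l : List E} {n : ℕ} (h : l.length = n + 1) :
    sdSL (single l 1) = cone ℤ (bary l) (sdSL (bdL ℤ l)) := by
  have : sdSL (bdL ℤ l) = linearCombination ℤ (sdNSL n) (bdL ℤ l) := by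
    refine map_eq (R := ℤ) _ _ (fun m hm => ?_) _ (bdL_mem l)
    have : m.length = n := by have := hm.2; omega
    simp [sdSL, this]
  rw [this, sdSL, linearCombination_single, one_smul, h, sdNSL]

lemma ttSL_succ {l : List E} {n : ℕ} (h : l.length = n + 1) :
    ttSL (single l 1) = cone ℤ (bary l) (single l 1 - ttSL (bdL ℤ l)) := by
  have : ttSL (bdL ℤ l) = linearCombination ℤ (ttNSL n) (bdL ℤ l) := by
    refine map_eq (R := ℤ) _ _ (fun m hm => ?_) _ (bdL_mem l)
    have : m.length = n := by have := hm.2; omega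
    simp [ttSL, this]
  rw [this, ttSL, linearCombination_single, one_smul, h, ttNSL]

/-- Induction on the length for identities between linear maps. -/
lemma ext_len_SL {V W : Type} (F G : Ch ℤ V →ₗ[ℤ] Ch ℤ W)
    (h0 : F (single [] 1) = G (single [] 1))
    (h1 : ∀ (l : List V) (n : ℕ), l.length = n + 1 → F (bdL ℤ l) = G (bdL ℤ l) →
      F (single l 1) = G (single l 1)) (c : Ch ℤ V) : F c = G c := by
  have : ∀ n (l : List V), l.length = n → F (single l 1) = G (single l 1) := by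
    intro n
    induction n with
    | zero =>
      intro l hl
      rw [List.length_eq_zero_iff.1 hl, h0]
    | succ n ih =>
      intro l hl
      exact h1 l n hl (map_eq F G (fun m hm => ih m (by have := hm.2; omega)) _ (bdL_mem l))
  exact map_eq (K := Set.univ) F G (fun l _ => this _ l rfl) c fun _ _ => trivial

lemma bd_sdSL (c : Ch ℤ E) : bd ℤ (sdSL c) = sdSL (bd ℤ c) := by
  rw [← LinearMap.comp_apply (bd ℤ) sdSL, ← LinearMap.comp_apply sdSL (bd ℤ)]
  refine ext_len_SL _ _ ?_ (fun l n hl h => ?_) c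
  · simp [sdSL_nil, bdL]
  · simp only [LinearMap.comp_apply] at h ⊢
    rw [sdSL_succ hl, bd_cone, h, bd_bdL]
    simp

lemma bd_ttSL (c : Ch ℤ E) : bd ℤ (ttSL c) + ttSL (bd ℤ c) = c - sdSL c := by
  refine ext_len_SL (bd ℤ ∘ₗ ttSL + ttSL ∘ₗ bd ℤ) (LinearMap.id - sdSL) ?_ (fun l n hl h => ?_) c
  · simp [sdSL_nil, ttSL_nil, bdL]
  · simp only [LinearMap.comp_apply, LinearMap.add_apply, LinearMap.sub_apply,
      LinearMap.id_apply] at h ⊢
    rw [bd_bdL, map_zero, add_zero] at h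
    rw [ttSL_succ hl, sdSL_succ hl, bd_cone, map_sub, h, bd_single, one_smul, sub_sub_cancel]
    abel

lemma bary_map_SL (f : E →ₗ[ℝ] E') (l : List E) : bary (l.map f) = f (bary l) := by
  simp [bary, map_list_sum]

lemma push_sdSL (f : E →ₗ[ℝ] E') (c : Ch ℤ E) : push f (sdSL c) = sdSL (push f c) := by
  refine ext_len_SL (push f ∘ₗ sdSL) (sdSL ∘ₗ push f) ?_ (fun l n hl h => ?_) c
  · simp [sdSL_nil]
  · simp only [LinearMap.comp_apply] at h ⊢
    rw [sdSL_succ hl, push_cone, h, push_single, sdSL_succ (n := n) (by simpa using hl),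
      push_bdL, bary_map_SL]

lemma push_ttSL (f : E →ₗ[ℝ] E') (c : Ch ℤ E) : push f (ttSL c) = ttSL (push f c) := by
  refine ext_len_SL (push f ∘ₗ ttSL) (ttSL ∘ₗ push f) ?_ (fun l n hl h => ?_) c
  · simp [ttSL_nil]
  · simp only [LinearMap.comp_apply] at h ⊢
    rw [ttSL_succ hl, push_cone, map_sub, h, push_single, ttSL_succ (n := n) (by simpa using hl),
      push_bdL, bary_map_SL]

lemma bary_mem_SL {A : Set E} (hA : Convex ℝ A) {l : List E} (hl : l ≠ [])
    (h : ∀ x ∈ l, x ∈ A) : bary l ∈ A := by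
  have hpos : (0 : ℝ) < l.length := by exact_mod_cast List.length_pos_iff.2 hl
  have := hA.sum_mem (t := Finset.univ) (w := fun _ : Fin l.length => (l.length : ℝ)⁻¹)
    (z := fun i => l[i.1]) (fun _ _ => by positivity) (by simp [hpos.ne'])
    (fun i _ => h _ (List.getElem_mem _))
  rwa [← Finset.smul_sum, Fin.sum_univ_getElem] at this

lemma norm_sum_sub_SL (x : E) (r : ℝ) (m : List E) (h : ∀ y ∈ m, dist y x ≤ r) :
    ‖m.sum - (m.length : ℝ) • x‖ ≤ m.length * r := by
  induction m with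
  | nil => simp
  | cons a m ih =>
    have h1 := ih fun y hy => h y (List.mem_cons_of_mem _ hy)
    have h2 := h a List.mem_cons_self
    rw [dist_eq_norm] at h2
    have : (a :: m).sum - ((a :: m).length : ℝ) • x = (a - x) + (m.sum - (m.length : ℝ) • x) := by
      simp only [List.sum_cons, List.length_cons, Nat.cast_succ, add_smul, one_smul]
      abel
    rw [this]
    refine (norm_add_le _ _).trans ?_
    simp only [List.length_cons, Nat.cast_succ]
    linarith

lemma dist_bary_SL {l : List E} {r : ℝ} (h : ∀ x ∈ l, ∀ y ∈ l, dist x y ≤ r) {x : E}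
    (hx : x ∈ l) : dist x (bary l) ≤ (1 - 1 / (l.length : ℝ)) * r := by
  obtain ⟨s, t, rfl⟩ := List.append_of_mem hx
  have h1 := norm_sum_sub_SL x r s fun y hy => h y (by simp [hy]) x hx
  have h2 := norm_sum_sub_SL x r t fun y hy => h y (by simp [hy]) x hx
  have hlen : ((s ++ x :: t).length : ℝ) = s.length + t.length + 1 := by
    simp only [List.length_append, List.length_cons]; push_cast; ring
  have hpos : (0 : ℝ) < s.length + t.length + 1 := by positivity
  have : bary (s ++ x :: t) - x = (s.length + t.length + 1 : ℝ)⁻¹ •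
      ((s.sum - (s.length : ℝ) • x) + (t.sum - (t.length : ℝ) • x)) := by
    rw [bary, hlen, List.sum_append, List.sum_cons]
    have hx : x = (s.length + t.length + 1 : ℝ)⁻¹ • ((s.length + t.length + 1 : ℝ) • x) := by
      rw [smul_smul, inv_mul_cancel₀ hpos.ne', one_smul]
    conv_lhs => enter [2]; rw [hx]
    rw [← smul_sub]
    congr 1
    simp only [add_smul, one_smul]
    abel
  rw [dist_comm, dist_eq_norm, this, norm_smul, Real.norm_eq_abs, abs_of_pos (inv_pos.2 hpos),
    hlen]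
  calc _ ≤ (s.length + t.length + 1 : ℝ)⁻¹ * (s.length * r + t.length * r) := by
        gcongr
        exact (norm_add_le _ _).trans (add_le_add h1 h2)
    _ = _ := by field_simp; ring

lemma ttSL_mem {A : Set E} (hA : Convex ℝ A) (n : ℕ) : ∀ l : List E, l.length = n →
    (∀ x ∈ l, x ∈ A) →
      ttSL (single l 1) ∈ C ℤ {l' | l'.length = n + 1 ∧ ∀ x ∈ l', x ∈ A} := by
  induction n with
  | zero =>
    intro l hl _
    rw [List.length_eq_zero_iff.1 hl, ttSL_nil]
    exact Submodule.zero_mem _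
  | succ n ih =>
    intro l hl h
    have hne : l ≠ [] := by rintro rfl; simp at hl
    rw [ttSL_succ hl]
    refine map_mem (K := {l' | l'.length = n + 1 ∧ ∀ x ∈ l', x ∈ A}) _ (fun m hm => ?_) _
      (Submodule.sub_mem _ (single_mem (And.intro hl h) _) (map_mem _ (fun m hm => ?_) _ (bdL_mem l)))
    · rw [cone_single]
      refine single_mem (And.intro (by simp [hm.1]) fun x hx => ?_) _
      rcases List.mem_cons.1 hx with rfl | hx
      exacts [bary_mem_SL hA hne h, hm.2 x hx]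
    · exact ih m (by have := hm.2; omega) fun x hx => h x (hm.1.subset hx)

lemma sdSL_mem (r : ℝ) (n : ℕ) : ∀ (A : Set E), Convex ℝ A → ∀ l : List E, l.length = n →
    (∀ x ∈ l, x ∈ A) → (∀ x ∈ l, ∀ y ∈ l, dist x y ≤ r) →
      sdSL (single l 1) ∈ C ℤ {l' | l'.length = n ∧ (∀ x ∈ l', x ∈ A) ∧
        ∀ x ∈ l', ∀ y ∈ l', dist x y ≤ (1 - 1 / (n + 1 : ℝ)) * r} := by
  induction n with
  | zero =>
    intro A _ l hl _ _
    rw [List.length_eq_zero_iff.1 hl, sdSL_nil]
    exact single_mem (And.intro rfl ⟨by simp, by simp⟩) _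
  | succ n ih =>
    intro A hA l hl h hd
    have hne : l ≠ [] := by rintro rfl; simp at hl
    obtain ⟨a, ha⟩ := List.exists_mem_of_ne_nil l hne
    have hr : 0 ≤ r := dist_nonneg.trans (hd a ha a ha)
    have hle : (1 - 1 / (n + 1 : ℝ)) * r ≤ (1 - 1 / ((n + 1 : ℕ) + 1 : ℝ)) * r := by
      gcongr
      omega
    have h0 : 0 ≤ (1 - 1 / (n + 1 : ℝ)) * r := by
      refine mul_nonneg (sub_nonneg.2 ?_) hr
      rw [div_le_one (by positivity)]
      simp
    set A' := A ∩ Metric.closedBall (bary l) ((1 - 1 / (n + 1 : ℝ)) * r) with hA'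
    rw [sdSL_succ hl]
    refine map_mem (K := {l' | l'.length = n ∧ (∀ x ∈ l', x ∈ A') ∧
        ∀ x ∈ l', ∀ y ∈ l', dist x y ≤ (1 - 1 / (n + 1 : ℝ)) * r}) _ (fun m hm => ?_) _
      (map_mem _ (fun m hm => ?_) _ (bdL_mem l))
    · rw [cone_single]
      refine single_mem
        (And.intro (by simp [hm.1]) ⟨fun x hx => ?_, fun x hx y hy => le_trans ?_ hle⟩) _
      · rcases List.mem_cons.1 hx with rfl | hx
        exacts [bary_mem_SL hA hne h, (hm.2.1 x hx).1]
      · rcases List.mem_cons.1 hx with rfl | hx <;> rcases List.mem_cons.1 hy with rfl | hy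
        · rwa [dist_self]
        · rw [dist_comm]; exact (hm.2.1 y hy).2
        · exact (hm.2.1 x hx).2
        · exact hm.2.2 x hx y hy
    · refine ih A' (hA.inter (convex_closedBall _ _)) m (by have := hm.2; omega)
        (fun x hx => ⟨h x (hm.1.subset hx), ?_⟩)
        fun x hx y hy => hd x (hm.1.subset hx) y (hm.1.subset hy)
      have := dist_bary_SL hd (hm.1.subset hx)
      rwa [hl, Nat.cast_succ] at this

end aux

/-- Subdivision and homotopy on chains of lists of vectors, natural under linear maps. -/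
theorem exists_subdivLin :
    ∃ (sd tt : ∀ (ι : Type) [Fintype ι], Ch ℤ (ι → ℝ) →ₗ[ℤ] Ch ℤ (ι → ℝ)),
      (∀ (ι : Type) [Fintype ι] (c : Ch ℤ (ι → ℝ)), bd ℤ (sd ι c) = sd ι (bd ℤ c)) ∧
      (∀ (ι : Type) [Fintype ι] (c : Ch ℤ (ι → ℝ)),
        bd ℤ (tt ι c) + tt ι (bd ℤ c) = c - sd ι c) ∧
      (∀ (ι : Type) [Fintype ι], tt ι (single [] 1) = 0) ∧
      (∀ (ι ι' : Type) [Fintype ι] [Fintype ι'] (f : (ι → ℝ) →ₗ[ℝ] (ι' → ℝ)) (c : Ch ℤ (ι → ℝ)),
        push f (sd ι c) = sd ι' (push f c) ∧ push f (tt ι c) = tt ι' (push f c)) ∧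
      (∀ (ι : Type) [Fintype ι] (A : Set (ι → ℝ)), Convex ℝ A → ∀ l : List (ι → ℝ),
        (∀ x ∈ l, x ∈ A) →
          tt ι (single l 1) ∈ C ℤ {l' | l'.length = l.length + 1 ∧ ∀ x ∈ l', x ∈ A}) ∧
      (∀ (ι : Type) [Fintype ι] (A : Set (ι → ℝ)), Convex ℝ A → ∀ (l : List (ι → ℝ)) (r : ℝ),
        (∀ x ∈ l, x ∈ A) → (∀ x ∈ l, ∀ y ∈ l, dist x y ≤ r) →
          sd ι (single l 1) ∈ C ℤ {l' | l'.length = l.length ∧ (∀ x ∈ l', x ∈ A) ∧
            ∀ x ∈ l', ∀ y ∈ l', dist x y ≤ (1 - 1 / (l.length + 1 : ℝ)) * r}) :=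
  ⟨fun _ _ => sdSL, fun _ _ => ttSL, fun _ _ => bd_sdSL, fun _ _ => bd_ttSL, fun _ _ => ttSL_nil,
    fun _ _ _ _ f c => ⟨push_sdSL f c, push_ttSL f c⟩,
    fun _ _ _ hA l h => ttSL_mem hA _ l rfl h, fun _ _ A hA l r h hd => sdSL_mem r _ A hA l rfl h hd⟩

end Pool.Agent.Work.MP_735653_gt
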