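import Pool.Agent.Work.MP_735653_gt.LCB
import Pool.Agent.Work.MP_735653_gt.XDefs

/-! The lattice model is a complex of dimension at most three. -/

namespace Pool.Agent.Work.MP_735653_gt

variable {S Rl C : Type} {wd : Rl ⊕ C → FreeGroup S} (sc : Sch wd)

theorem Sch.step_cases {s : ℤ} (h0 : 0 ≤ s) (h1 : s < sc.N) :
    CVtx sc.m (sc.p s) ∧ CVtx sc.m (sc.p (s + 1)) ∧
    (((sc.E s).2 = (sc.p s).2 ∧ (sc.E s).2 = (sc.p (s + 1)).2 ∧ (sc.E s).1 % 2 = 1 ∧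
        ((sc.E s).2 = 0 ∨ (sc.E s).1 % 4 = 3) ∧
        (((sc.p s).1 = (sc.E s).1 - 1 ∧ (sc.p (s + 1)).1 = (sc.E s).1 + 1) ∨
          ((sc.p s).1 = (sc.E s).1 + 1 ∧ (sc.p (s + 1)).1 = (sc.E s).1 - 1))) ∨
      ((sc.E s).1 = (sc.p s).1 ∧ (sc.E s).1 = (sc.p (s + 1)).1 ∧ (sc.E s).2 = 1 ∧
        (sc.p s).2 + (sc.p (s + 1)).2 = 2)) := by
  have ha := sc.vtx s h0 h1.le
  have hb := sc.vtx (s + 1) (by omega) (by omega)
  have hs := sc.step s h0 h1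
  refine ⟨ha, hb, ?_⟩
  simp only [CVtx, CStep, Sch.E] at *
  clear h0 h1
  rcases hs with ⟨c1, c2 | c2, c3⟩ | ⟨c1, c2⟩
  · left
    omega
  · left
    omega
  · right
    omega

/-- faces in one coordinate -/
def XK_F (b a : ℤ) : Prop := b = a ∨ (a % 2 = 1 ∧ (b = a + 1 ∨ b = a - 1))

theorem Sch.XK_lv {t : ℤ} (h : sc.Lv t) : 0 ≤ t / 2 ∧ t / 2 < sc.N := by
  obtain ⟨h0, h1, -⟩ := h
  omega

theorem Sch.kap_graph {k h t : ℤ} (hk : sc.Kap k h t) : Tt sc.m k h ∨ Tp sc.m k h := by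
  obtain ⟨hl, hk⟩ := hk
  have := sc.step_cases (sc.XK_lv hl).1 (sc.XK_lv hl).2
  simp only [CVtx, Tt, Tp, Prod.ext_iff] at *
  omega

theorem Sch.XK_kap_dim {k h t : ℤ} (hk : sc.Kap k h t) : k % 2 + h % 2 + t % 2 ≤ 1 := by
  obtain ⟨hl, hk⟩ := hk
  have := sc.step_cases (sc.XK_lv hl).1 (sc.XK_lv hl).2
  simp only [CVtx, Prod.ext_iff] at *
  omega

theorem Sch.XK_bound {x : Cell 6} (h : sc.InX x) :
    (0 ≤ x 0 ∧ x 0 ≤ 4 * sc.m + 2) ∧ (0 ≤ x 1 ∧ x 1 ≤ 2) ∧ (0 ≤ x 2 ∧ x 2 ≤ 2 * sc.N) ∧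
      (0 ≤ x 3 ∧ x 3 ≤ 2) ∧ (0 ≤ x 4 ∧ x 4 ≤ 2) ∧ (0 ≤ x 5 ∧ x 5 ≤ 2) := by
  rcases h with h | h | h | h
  · simp only [Sch.Base, Tt, Tp] at h
    omega
  · obtain ⟨h1, -, h3⟩ := h
    have h4 := sc.kap_graph h1
    obtain ⟨⟨h5, h6, -⟩, -⟩ := h1
    simp only [Tt, Tp] at h4
    omega
  · obtain ⟨⟨h5, h6, -⟩, -, h3⟩ := h
    simp only [Tt, Tp] at h3
    omega
  · obtain ⟨h1, -, h3⟩ := h
    have h4 := sc.kap_graph h1
    obtain ⟨⟨h5, h6, -⟩, -⟩ := h1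
    simp only [Tt, Tp] at h4
    omega

theorem Sch.mem_K {x : Cell 6} : x ∈ sc.K ↔ sc.InX x := by
  classical
  rw [Sch.K, Finset.mem_filter]
  refine ⟨fun h => h.2, fun h => ⟨?_, h⟩⟩
  have hb := sc.XK_bound h
  have hN := sc.N_nonneg
  rw [Fintype.mem_piFinset]
  intro i
  rw [Finset.mem_Icc]
  fin_cases i <;> simp only [Fin.zero_eta, Fin.mk_one, Fin.reduceFinMk, Fin.isValue] <;> omega

theorem Sch.XK_lv_face {t t' : ℤ} (h : sc.Lv t) (ht : XK_F t' t) :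
    sc.Lv t' ∧ sc.gid (t' / 2) = sc.gid (t / 2) := by
  obtain ⟨h0, h1⟩ := sc.XK_lv h
  rcases ht with rfl | ⟨ho, rfl | rfl⟩
  · exact ⟨h, rfl⟩
  · obtain ⟨h2, h3, h4⟩ := h
    have h5 : sc.p (t / 2 + 1) ≠ (0, 0) := h4.resolve_left (by omega)
    have h6 : t / 2 + 1 ≠ sc.N := fun e => h5 (e ▸ sc.p_N)
    refine ⟨⟨by omega, by omega, Or.inl (by omega)⟩, ?_⟩
    rw [show (t + 1) / 2 = t / 2 + 1 by omega, sc.gid_succ _ h0 h1 h5]
  · obtain ⟨h2, h3, h4⟩ := h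
    refine ⟨⟨by omega, by omega, Or.inl (by omega)⟩, ?_⟩
    rw [show (t - 1) / 2 = t / 2 by omega]

theorem XK_F_even {b a : ℤ} (h : XK_F b a) (ha : a % 2 = 0) : b = a := by
  unfold XK_F at h
  omega

theorem Sch.XK_kap_face {k h t k' h' t' : ℤ} (hk : sc.Kap k h t) (h1 : XK_F k' k) (h2 : XK_F h' h)
    (ht : XK_F t' t) : sc.Kap k' h' t' := by
  obtain ⟨hl, hk⟩ := hk
  refine ⟨(sc.XK_lv_face hl ht).1, ?_⟩
  obtain ⟨⟨a1, -, -, a2⟩, ⟨b1, -, -, b2⟩, hE⟩ := sc.step_cases (sc.XK_lv hl).1 (sc.XK_lv hl).2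
  have hv : k % 2 = 0 → h % 2 = 0 → (k', h') = (k, h) := fun e1 e2 => by
    rw [XK_F_even h1 e1, XK_F_even h2 e2]
  rcases hk with hk | hk | ⟨he, hk | hk⟩
  · have := Prod.ext_iff.1 hk
    simp only at this
    rw [hv (by omega) (by omega)]
    exact Or.inl hk
  · have := Prod.ext_iff.1 hk
    simp only at this
    rw [hv (by omega) (by omega)]
    rcases ht with rfl | ⟨ho, rfl | rfl⟩
    · exact Or.inr (Or.inl hk)
    · rw [show (t + 1) / 2 = t / 2 + 1 by omega]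
      exact Or.inr (Or.inr ⟨by omega, Or.inl hk⟩)
    · rw [show (t - 1) / 2 = t / 2 by omega]
      exact Or.inr (Or.inl hk)
  · have := Prod.ext_iff.1 hk
    simp only at this
    rw [hv (by omega) (by omega), XK_F_even ht he]
    exact Or.inr (Or.inr ⟨he, Or.inl hk⟩)
  · have := Prod.ext_iff.1 hk
    simp only at this
    rw [XK_F_even ht he]
    have key : (k', h') = sc.p (t / 2 + 1) ∨ (k', h') = sc.p (t / 2) ∨ (k', h') = sc.E (t / 2) := by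
      simp only [XK_F, Prod.ext_iff] at h1 h2 ⊢
      clear hk hv ht hl he
      rcases hE with ⟨c1, c2, c3, -, c4⟩ | hE <;> omega
    rcases key with key | key
    · exact Or.inr (Or.inl key)
    · exact Or.inr (Or.inr ⟨he, key⟩)

theorem Sch.XK_rel_face {t t' : ℤ} (h : sc.Lv t) (ht : XK_F t' t) :
    sc.Rel (t' / 2) ↔ sc.Rel (t / 2) := by
  unfold Sch.Rel
  rw [(sc.XK_lv_face h ht).2]

theorem Sch.down : Down sc.K := by
  intro a ha b hb
  rw [sc.mem_K] at ha ⊢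
  have h0 : XK_F (b 0) (a 0) := hb 0
  have h1 : XK_F (b 1) (a 1) := hb 1
  have h2 : XK_F (b 2) (a 2) := hb 2
  have h3 : XK_F (b 3) (a 3) := hb 3
  have h4 : XK_F (b 4) (a 4) := hb 4
  have h5 : XK_F (b 5) (a 5) := hb 5
  rcases ha with h | h | h | h
  · left
    obtain ⟨g1, g2, g3, g4, g5, g6⟩ := h
    refine ⟨?_, ?_, ?_, (XK_F_even h3 (by omega)).trans g4, (XK_F_even h4 (by omega)).trans g5,
      (XK_F_even h5 (by omega)).trans g6⟩
    · simp only [Tt, Tp, XK_F] at g1 h0 h1 ⊢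
      omega
    · simp only [XK_F] at h2
      omega
    · simp only [XK_F] at h2
      omega
  · obtain ⟨k1, k2, k3, k4, k5⟩ := h
    have e1 := sc.XK_kap_face k1 h0 h1 h2
    have e2 := (sc.XK_rel_face k1.1 h2).2 k2
    have e3 := sc.kap_graph e1
    have e4 : b 4 = 0 := by simp only [XK_F] at h4; omega
    have e5 : b 5 = 0 := by simp only [XK_F] at h5; omega
    rcases h3 with h3 | ⟨-, h3 | h3⟩
    · exact Or.inr (Or.inl ⟨e1, e2, h3.trans k3, e4, e5⟩)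
    · refine Or.inr (Or.inr (Or.inl ⟨e1.1, e2, by omega, e4, e5, ?_⟩))
      rcases e3 with e3 | e3
      · exact Or.inl e3
      · right
        obtain ⟨hl, hk⟩ := e1
        have := sc.step_cases (sc.XK_lv hl).1 (sc.XK_lv hl).2
        clear * - this e3 hk
        simp only [CVtx, Tp, Prod.ext_iff] at *
        omega
    · obtain ⟨⟨l1, l2, -⟩, -⟩ := e1
      exact Or.inl ⟨e3, l1, l2.le, by omega, e4, e5⟩
  · obtain ⟨k1, k2, k3, k4, k5, k6⟩ := h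
    have e1 := (sc.XK_lv_face k1 h2).1
    have e2 := (sc.XK_rel_face k1 h2).2 k2
    have e3 : b 3 = 2 := by simp only [XK_F] at h3; omega
    have e4 : b 4 = 0 := by simp only [XK_F] at h4; omega
    have e5 : b 5 = 0 := by simp only [XK_F] at h5; omega
    refine Or.inr (Or.inr (Or.inl ⟨e1, e2, e3, e4, e5, ?_⟩))
    rcases k6 with k6 | k6
    · left
      simp only [Tt, XK_F] at k6 h0 h1 ⊢
      omega
    · have e6 : b 2 = a 2 := by simp only [XK_F] at h2; omega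
      rw [e6]
      clear * - k6 h0 h1
      simp only [Tt, Tp, XK_F] at *
      omega
  · obtain ⟨k1, k2, k3⟩ := h
    refine Or.inr (Or.inr (Or.inr ⟨sc.XK_kap_face k1 h0 h1 h2,
      fun e => k2 ((sc.XK_rel_face k1.1 h2).1 e), ?_⟩))
    simp only [XK_F] at h3 h4 h5
    clear * - k3 h3 h4 h5
    omega

theorem XK_dim_six (x : Cell 6) :
    dim x = x 0 % 2 + x 1 % 2 + x 2 % 2 + x 3 % 2 + x 4 % 2 + x 5 % 2 := by
  have h : ∀ y : ℤ, (((if y % 2 = 1 then 1 else 0 : ℕ) : ℕ) : ℤ) = y % 2 := fun y => by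
    split_ifs <;> push_cast <;> omega
  rw [dim, Finset.card_filter, Fin.sum_univ_six]
  simp only [Nat.cast_add, h]

theorem Sch.dim_le : ∀ a ∈ sc.K, dim a ≤ 3 := by
  intro a ha
  rw [sc.mem_K] at ha
  rw [XK_dim_six]
  rcases ha with h | h | h | h
  · simp only [Sch.Base] at h
    omega
  · obtain ⟨k1, -, k3⟩ := h
    have := sc.XK_kap_dim k1
    omega
  · obtain ⟨-, -, k3⟩ := h
    omega
  · obtain ⟨k1, -, k3⟩ := h
    have := sc.XK_kap_dim k1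
    omega

theorem Sch.dim_le_two [IsEmpty C] : ∀ a ∈ sc.K, dim a ≤ 2 ∧ a 4 = 0 ∧ a 5 = 0 := by
  intro a ha
  rw [sc.mem_K] at ha
  rw [XK_dim_six]
  rcases ha with h | h | h | h
  · simp only [Sch.Base, Tt, Tp] at h
    omega
  · obtain ⟨k1, -, k3⟩ := h
    have := sc.XK_kap_dim k1
    omega
  · obtain ⟨-, -, k3⟩ := h
    simp only [Tt, Tp] at k3
    omega
  · obtain ⟨-, k2, -⟩ := h
    refine (k2 ?_).elim
    unfold Sch.Rel
    rcases sc.gid (a 2 / 2) with j | c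
    · rfl
    · exact isEmptyElim c

theorem dim_six (x : Cell 6) (h : ∀ i, 0 ≤ x i) :
    dim x = x 0 % 2 + x 1 % 2 + x 2 % 2 + x 3 % 2 + x 4 % 2 + x 5 % 2 := by
  have _ := h
  exact XK_dim_six x

end Pool.Agent.Work.MP_735653_gt
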