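import Pool.Agent.Work.MP_735653_gt.XDefs

/-! Existence of a schedule. -/

namespace Pool.Agent.Work.MP_735653_gt

section

variable {S I : Type} {m : ℕ} (e : S ≃ Fin m)

/-- one step of a walk that avoids the root, with the word read so far -/
def XSch_St (x y : (ℤ × ℤ) × FreeGroup S) : Prop :=
  (CVtx m x.1 ∧ x.1 ≠ (0, 0)) ∧ (CVtx m y.1 ∧ y.1 ≠ (0, 0)) ∧ CStep x.1 y.1 ∧
    y.2 = x.2 * ltr e x.1 y.1

theorem XSch_ltr {a b : ℤ × ℤ} (h : CStep a b) : ltr e b a = (ltr e a b)⁻¹ := by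
  unfold ltr
  unfold CStep at h
  by_cases h1 : a.2 = 2 ∧ b.2 = 2
  · rw [if_pos h1, if_pos h1.symm]
    by_cases h2 : a.1 < b.1
    · rw [if_pos h2, if_neg (by omega)]
    · rw [if_neg h2, if_pos (by omega), inv_inv]
  · rw [if_neg h1, if_neg fun h => h1 h.symm, inv_one]

theorem XSch_symm {x y : (ℤ × ℤ) × FreeGroup S} (h : XSch_St e x y) : XSch_St e y x := by
  refine ⟨h.2.1, h.1, ?_, ?_⟩
  · have := h.2.2.1
    unfold CStep at this ⊢
    omega
  · rw [XSch_ltr e h.2.2.1, h.2.2.2, mul_inv_cancel_right]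

/-- walks -/
abbrev XSch_W (a b : ℤ × ℤ) (v w : FreeGroup S) : Prop :=
  Relation.ReflTransGen (XSch_St e) (a, v) (b, w)

theorem XSch_rev {x y : (ℤ × ℤ) × FreeGroup S} (h : Relation.ReflTransGen (XSch_St e) x y) :
    Relation.ReflTransGen (XSch_St e) y x := by
  induction h with
  | refl => exact .refl
  | tail _ h ih => exact .head (XSch_symm e h) ih

theorem XSch_mul {a b : ℤ × ℤ} {v w : FreeGroup S} (h : XSch_W e a b v w) (g : FreeGroup S) :
    XSch_W e a b (g * v) (g * w) :=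
  Relation.ReflTransGen.lift (fun x : (ℤ × ℤ) × FreeGroup S => (x.1, g * x.2))
    (p := XSch_St e) (fun _ _ h => ⟨h.1, h.2.1, h.2.2.1, by
      dsimp only
      rw [h.2.2.2, mul_assoc]⟩) _ _ h

theorem XSch_spine (k : ℕ) (hk : k ≤ 2 * m) : XSch_W e (2, 0) (2 * k + 2, 0) 1 1 := by
  induction k with
  | zero => exact .refl
  | succ k ih =>
    refine (ih (by omega)).tail ⟨⟨?_, ?_⟩, ⟨?_, ?_⟩, ?_, ?_⟩
    · simp only [CVtx, true_or, and_true]
      omega
    · simp only [ne_eq, Prod.mk.injEq]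
      omega
    · simp only [CVtx, true_or, and_true]
      omega
    · simp only [ne_eq, Prod.mk.injEq]
      omega
    · simp only [CStep, true_or, true_and, and_true]
      omega
    · simp [ltr]

theorem XSch_step {a b : ℤ × ℤ} (ha : CVtx m a) (ha' : 0 < a.1) (hb : CVtx m b) (hb' : 0 < b.1)
    (h : CStep a b) (v : FreeGroup S) : XSch_W e a b v (v * ltr e a b) :=
  .single ⟨⟨ha, fun h => ha'.ne' (congrArg Prod.fst h)⟩,
    ⟨hb, fun h => hb'.ne' (congrArg Prod.fst h)⟩, h, rfl⟩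

theorem XSch_gen (s : S) : XSch_W e (2, 0) (2, 0) 1 (FreeGroup.of s) := by
  have hi := (e s).2
  set i : ℕ := (e s).1 with hi'
  have h1 := XSch_spine e (2 * i) (by omega)
  have h5 := XSch_mul e (XSch_rev e (XSch_spine e (2 * i + 1) (by omega))) (FreeGroup.of s)
  have h2 := XSch_step e (a := (2 * (2 * i : ℕ) + 2, 0)) (b := (2 * (2 * i : ℕ) + 2, 2))
    (by unfold CVtx; dsimp only; omega) (by simp only; omega) (by unfold CVtx; dsimp only; omega)
    (by simp only; omega) (by unfold CStep; dsimp only; omega) 1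
  have h3 := XSch_step e (a := (2 * (2 * i : ℕ) + 2, 2)) (b := (2 * (2 * i + 1 : ℕ) + 2, 2))
    (by unfold CVtx; dsimp only; omega) (by simp only; omega) (by unfold CVtx; dsimp only; omega)
    (by simp only; omega) (by unfold CStep; dsimp only; omega) 1
  have h4 := XSch_step e (a := (2 * (2 * i + 1 : ℕ) + 2, 2)) (b := (2 * (2 * i + 1 : ℕ) + 2, 0))
    (by unfold CVtx; dsimp only; omega) (by simp only; omega) (by unfold CVtx; dsimp only; omega)
    (by simp only; omega) (by unfold CStep; dsimp only; omega) (FreeGroup.of s)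
  have e2 : ltr e (2 * (2 * i : ℕ) + 2, 0) (2 * (2 * i : ℕ) + 2, 2) = 1 := by simp [ltr]
  have e4 : ltr e (2 * (2 * i + 1 : ℕ) + 2, 2) (2 * (2 * i + 1 : ℕ) + 2, 0) = 1 := by simp [ltr]
  have e3 : ltr e (2 * (2 * i : ℕ) + 2, 2) (2 * (2 * i + 1 : ℕ) + 2, 2) = FreeGroup.of s := by
    have e5 : (2 * ((2 * i : ℕ) : ℤ) + 2) / 4 = i := by omega
    unfold ltr
    rw [if_pos ⟨rfl, rfl⟩, if_pos (by simp only; omega)]
    simp only [e5]
    unfold lab
    rw [dif_pos (by omega)]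
    congr 1
    rw [Equiv.symm_apply_eq]
    exact Fin.ext (Int.toNat_natCast i)
  rw [e2, mul_one] at h2
  rw [e3, one_mul] at h3
  rw [e4, mul_one] at h4
  rw [mul_one] at h5
  exact (((h1.trans h2).trans h3).trans h4).trans h5

theorem XSch_all (w : FreeGroup S) : XSch_W e (2, 0) (2, 0) 1 w := by
  induction w using FreeGroup.induction_on with
  | C1 => exact .refl
  | of s => exact XSch_gen e s
  | inv_of s h =>
    have := XSch_mul e (XSch_rev e h) (FreeGroup.of s)⁻¹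
    rwa [inv_mul_cancel, mul_one] at this
  | mul v w hv hw =>
    have := XSch_mul e hw v
    rw [mul_one] at this
    exact hv.trans this

theorem XSch_fun {y : (ℤ × ℤ) × FreeGroup S}
    (h : Relation.ReflTransGen (XSch_St e) ((2, 0), 1) y) :
    ∃ (n : ℤ) (q : ℤ → ℤ × ℤ) (v : ℤ → FreeGroup S), 0 < n ∧ q 0 = (0, 0) ∧ v 0 = 1 ∧ q n = y.1 ∧
      v n = y.2 ∧ (∀ s, 0 < s → s ≤ n → q s ≠ (0, 0)) ∧ (∀ s, 0 ≤ s → s ≤ n → CVtx m (q s)) ∧
      ∀ s, 0 ≤ s → s < n → CStep (q s) (q (s + 1)) ∧ v (s + 1) = v s * ltr e (q s) (q (s + 1)) := by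
  induction h with
  | refl =>
    refine ⟨1, fun s => if s ≤ 0 then (0, 0) else (2, 0), fun _ => 1, one_pos, by simp, rfl,
      by simp, rfl, fun s h1 _ => ?_, fun s _ _ => ?_, fun s h1 h2 => ?_⟩
    · simp [not_le.2 h1]
    · dsimp only
      split_ifs <;> unfold CVtx <;> dsimp only <;> omega
    · obtain rfl : s = 0 := by omega
      simp [CStep, ltr]
  | @tail b c _ h ih =>
    obtain ⟨n, q, v, h0, h1, h2, h3, h4, h5, h6, h7⟩ := ih
    refine ⟨n + 1, fun s => if s ≤ n then q s else c.1, fun s => if s ≤ n then v s else c.2,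
      by omega, by simp [h0.le, h1], by simp [h0.le, h2], by simp, by simp, fun s a1 a2 => ?_,
      fun s a1 a2 => ?_, fun s a1 a2 => ?_⟩
    · dsimp only
      split_ifs with a3
      exacts [h5 s a1 a3, h.2.1.2]
    · dsimp only
      split_ifs with a3
      exacts [h6 s a1 a3, h.2.1.1]
    · dsimp only
      rw [if_pos (by omega : s ≤ n), if_pos (by omega : s ≤ n)]
      by_cases a3 : s < n
      · rw [if_pos (by omega : s + 1 ≤ n), if_pos (by omega : s + 1 ≤ n)]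
        exact h7 s a1 a3
      · obtain rfl : s = n := by omega
        rw [if_neg (by omega), if_neg (by omega), h3, h4]
        exact h.2.2

theorem XSch_piece (w : FreeGroup S) :
    ∃ (n : ℤ) (q : ℤ → ℤ × ℤ) (v : ℤ → FreeGroup S), 0 < n ∧ q 0 = (0, 0) ∧ v 0 = 1 ∧
      q n = (2, 0) ∧ v n = w ∧ q (n + 1) = (0, 0) ∧ (∀ s, 0 < s → s ≤ n → q s ≠ (0, 0)) ∧
      (∀ s, 0 ≤ s → s ≤ n + 1 → CVtx m (q s)) ∧
      (∀ s, 0 ≤ s → s ≤ n → CStep (q s) (q (s + 1))) ∧
      ∀ s, 0 ≤ s → s < n → v (s + 1) = v s * ltr e (q s) (q (s + 1)) := by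
  obtain ⟨n, q, v, h0, h1, h2, h3, h4, h5, h6, h7⟩ := XSch_fun e (XSch_all e w)
  refine ⟨n, fun s => if s ≤ n then q s else (0, 0), v, h0, by simp [h1], h2, by simp [h3],
    h4, by simp, fun s a1 a2 => ?_, fun s a1 a2 => ?_, fun s a1 a2 => ?_, fun s a1 a2 => ?_⟩
  · dsimp only
    rw [if_pos a2]
    exact h5 s a1 a2
  · dsimp only
    split_ifs with a3
    · exact h6 s a1 a3
    · unfold CVtx
      dsimp only
      omega
  · dsimp only
    rw [if_pos a2]
    by_cases a3 : s < n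
    · rw [if_pos (by omega)]
      exact (h7 s a1 a3).1
    · obtain rfl : s = n := by omega
      rw [if_neg (by omega), h3]
      simp [CStep]
  · dsimp only
    rw [if_pos a2.le, if_pos (by omega)]
    exact (h7 s a1 a2).2

/-- a schedule for some of the pieces -/
structure XSch_P (wd : I → FreeGroup S) (J : Finset I) where
  N : ℤ
  p : ℤ → ℤ × ℤ
  gid : ℤ → I
  u : ℤ → FreeGroup S
  fs : I → ℤ
  ls : I → ℤ
  N_nonneg : 0 ≤ N
  p_zero : p 0 = (0, 0)
  p_N : p N = (0, 0)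
  vtx : ∀ s, 0 ≤ s → s ≤ N → CVtx m (p s)
  step : ∀ s, 0 ≤ s → s < N → CStep (p s) (p (s + 1))
  last : ∀ s, 0 ≤ s → s < N → p (s + 1) = (0, 0) → p s = (2, 0)
  gid_succ : ∀ s, 0 ≤ s → s < N → p (s + 1) ≠ (0, 0) → gid (s + 1) = gid s
  gid_mem : ∀ s, 0 ≤ s → s < N → gid s ∈ J
  fs_spec : ∀ j ∈ J, 0 ≤ fs j ∧ fs j < N ∧ p (fs j) = (0, 0) ∧ gid (fs j) = j
  fs_uniq : ∀ s, 0 ≤ s → s < N → p s = (0, 0) → fs (gid s) = s
  ls_spec : ∀ j ∈ J, 0 ≤ ls j ∧ ls j < N ∧ p (ls j + 1) = (0, 0) ∧ gid (ls j) = j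
  ls_uniq : ∀ s, 0 ≤ s → s < N → p (s + 1) = (0, 0) → ls (gid s) = s
  u_fst : ∀ s, 0 ≤ s → s < N → p s = (0, 0) → u s = 1
  u_succ : ∀ s, 0 ≤ s → s < N → p (s + 1) ≠ (0, 0) → u (s + 1) = u s * ltr e (p s) (p (s + 1))
  u_lst : ∀ s, 0 ≤ s → s < N → p (s + 1) = (0, 0) → u s = wd (gid s)

theorem XSch_ext [DecidableEq I] {wd : I → FreeGroup S} {J : Finset I} {j : I} (hj : j ∉ J)
    (P : XSch_P e wd J) : Nonempty (XSch_P e wd (insert j J)) := by
  obtain ⟨n, q, v, h0, q0, v0, qn, vn, qe, qne, qv, qs, vs⟩ := XSch_piece e (wd j)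
  have hN := P.N_nonneg
  obtain ⟨p, p1, p2⟩ : ∃ p : ℤ → ℤ × ℤ, (∀ s, s ≤ P.N → p s = P.p s) ∧
      ∀ s, P.N ≤ s → p s = q (s - P.N) := by
    refine ⟨fun s => if s ≤ P.N then P.p s else q (s - P.N), fun s hs => if_pos hs, fun s hs => ?_⟩
    dsimp only
    split_ifs with h
    · rw [le_antisymm h hs, P.p_N, sub_self, q0]
    · rfl
  have p3 : ∀ s, P.N ≤ s → p (s + 1) = q (s - P.N + 1) := fun s hs => by
    rw [p2 _ (by omega), add_sub_right_comm]
  obtain ⟨g, g1, g2⟩ : ∃ g : ℤ → I, (∀ s, s < P.N → g s = P.gid s) ∧ ∀ s, P.N ≤ s → g s = j :=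
    ⟨fun s => if s < P.N then P.gid s else j, fun s hs => if_pos hs,
      fun s hs => if_neg (not_lt.2 hs)⟩
  obtain ⟨u, u1, u2⟩ : ∃ u : ℤ → FreeGroup S, (∀ s, s < P.N → u s = P.u s) ∧
      ∀ s, P.N ≤ s → u s = v (s - P.N) :=
    ⟨fun s => if s < P.N then P.u s else v (s - P.N), fun s hs => if_pos hs,
      fun s hs => if_neg (not_lt.2 hs)⟩
  have ne : ∀ i ∈ J, i ≠ j := fun i hi h => hj (h ▸ hi)
  have z0 : ∀ s, P.N ≤ s → s < P.N + n + 1 → p s = (0, 0) → s = P.N := fun s a1 a2 a3 => by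
    by_contra h
    rw [p2 s a1] at a3
    exact qne _ (by omega) (by omega) a3
  have z1 : ∀ s, P.N ≤ s → s < P.N + n + 1 → p (s + 1) = (0, 0) → s = P.N + n :=
    fun s a1 a2 a3 => by
      by_contra h
      rw [p3 s a1] at a3
      exact qne _ (by omega) (by omega) a3
  have z2 : ∀ s, s < P.N → p (s + 1) ≠ (0, 0) → s + 1 < P.N := fun s a1 a2 => by
    by_contra h
    rw [p1 _ (by omega), show s + 1 = P.N by omega] at a2
    exact a2 P.p_N
  have z3 : ∀ s, P.N ≤ s → s < P.N + n + 1 → p (s + 1) ≠ (0, 0) → s < P.N + n :=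
    fun s a1 a2 a3 => by
      by_contra h
      rw [p3 s a1, show s - P.N = n by omega] at a3
      exact a3 qe
  refine ⟨⟨P.N + n + 1, p, g, u, Function.update P.fs j P.N, Function.update P.ls j (P.N + n),
    by omega, by rw [p1 0 hN, P.p_zero], ?_, fun s a1 a2 => ?_, fun s a1 a2 => ?_,
    fun s a1 a2 a3 => ?_, fun s a1 a2 a3 => ?_, fun s a1 a2 => ?_, fun i hi => ?_,
    fun s a1 a2 a3 => ?_, fun i hi => ?_, fun s a1 a2 a3 => ?_, fun s a1 a2 a3 => ?_,
    fun s a1 a2 a3 => ?_, fun s a1 a2 a3 => ?_⟩⟩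
  · rw [p3 _ (by omega), add_sub_cancel_left, qe]
  · rcases le_total s P.N with h | h
    · rw [p1 s h]
      exact P.vtx s a1 h
    · rw [p2 s h]
      exact qv _ (by omega) (by omega)
  · rcases lt_or_ge s P.N with h | h
    · rw [p1 s h.le, p1 _ (by omega)]
      exact P.step s a1 h
    · rw [p2 s h, p3 s h]
      exact qs _ (by omega) (by omega)
  · rcases lt_or_ge s P.N with h | h
    · rw [p1 s h.le]
      rw [p1 _ (by omega)] at a3
      exact P.last s a1 h a3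
    · rw [p2 s h, z1 s h a2 a3, add_sub_cancel_left, qn]
  · rcases lt_or_ge s P.N with h | h
    · rw [g1 s h, g1 _ (z2 s h a3)]
      rw [p1 _ (by omega)] at a3
      exact P.gid_succ s a1 h a3
    · rw [g2 s h, g2 _ (by omega)]
  · rcases lt_or_ge s P.N with h | h
    · rw [g1 s h]
      exact Finset.mem_insert_of_mem (P.gid_mem s a1 h)
    · rw [g2 s h]
      exact Finset.mem_insert_self _ _
  · rcases Finset.mem_insert.1 hi with rfl | hi
    · rw [Function.update_self]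
      exact ⟨hN, by omega, by rw [p1 _ le_rfl, P.p_N], g2 _ le_rfl⟩
    · obtain ⟨b1, b2, b3, b4⟩ := P.fs_spec i hi
      rw [Function.update_of_ne (ne i hi)]
      exact ⟨b1, by omega, by rw [p1 _ b2.le, b3], by rw [g1 _ b2, b4]⟩
  · rcases lt_or_ge s P.N with h | h
    · rw [g1 s h, Function.update_of_ne (ne _ (P.gid_mem s a1 h))]
      rw [p1 s h.le] at a3
      exact P.fs_uniq s a1 h a3
    · rw [g2 s h, Function.update_self, z0 s h a2 a3]
  · rcases Finset.mem_insert.1 hi with rfl | hi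
    · rw [Function.update_self]
      exact ⟨by omega, by omega, by rw [p3 _ (by omega), add_sub_cancel_left, qe],
        g2 _ (by omega)⟩
    · obtain ⟨b1, b2, b3, b4⟩ := P.ls_spec i hi
      rw [Function.update_of_ne (ne i hi)]
      exact ⟨b1, by omega, by rw [p1 _ (by omega), b3], by rw [g1 _ b2, b4]⟩
  · rcases lt_or_ge s P.N with h | h
    · rw [g1 s h, Function.update_of_ne (ne _ (P.gid_mem s a1 h))]
      rw [p1 _ (by omega)] at a3
      exact P.ls_uniq s a1 h a3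
    · rw [g2 s h, Function.update_self, ← z1 s h a2 a3]
  · rcases lt_or_ge s P.N with h | h
    · rw [u1 s h]
      rw [p1 s h.le] at a3
      exact P.u_fst s a1 h a3
    · rw [u2 s h, z0 s h a2 a3, sub_self, v0]
  · rcases lt_or_ge s P.N with h | h
    · have h' := z2 s h a3
      rw [u1 s h, u1 _ h', p1 s h.le]
      rw [p1 _ h'.le] at a3 ⊢
      exact P.u_succ s a1 h a3
    · have h' := z3 s h a2 a3
      rw [u2 s h, u2 _ (by omega), p2 s h, p3 s h, add_sub_right_comm]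
      exact vs _ (by omega) (by omega)
  · rcases lt_or_ge s P.N with h | h
    · rw [u1 s h, g1 s h]
      rw [p1 _ (by omega)] at a3
      exact P.u_lst s a1 h a3
    · rw [u2 s h, g2 s h, z1 s h a2 a3, add_sub_cancel_left, vn]

theorem XSch_ex [Nonempty I] (wd : I → FreeGroup S) (J : Finset I) :
    Nonempty (XSch_P e wd J) := by
  classical
  induction J using Finset.induction_on with
  | empty =>
    refine ⟨⟨0, fun _ => (0, 0), fun _ => Classical.arbitrary I, fun _ => 1, fun _ => 0, fun _ => 0,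
      le_rfl, rfl, rfl, fun s _ _ => ?_, ?_, ?_, ?_, ?_, by simp, ?_, by simp, ?_, ?_, ?_, ?_⟩⟩
    · unfold CVtx
      dsimp only
      omega
    all_goals
      intro s a1 a2
      omega
  | insert j J hj ih => exact ih.elim (XSch_ext e hj)

end

theorem exists_sch {S Rl C : Type} [Finite S] [Finite Rl] [Finite C] [Nonempty Rl]
    (wd : Rl ⊕ C → FreeGroup S) : Nonempty (Sch wd) := by
  have := Fintype.ofFinite (Rl ⊕ C)
  obtain ⟨P⟩ := XSch_ex (Finite.equivFin S) wd Finset.univ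
  exact ⟨⟨_, Finite.equivFin S, P.N, P.p, P.gid, P.u, P.fs, P.ls, P.N_nonneg, P.p_zero, P.p_N,
    P.vtx, P.step, P.last, P.gid_succ, fun j => P.fs_spec j (Finset.mem_univ _), P.fs_uniq,
    fun j => P.ls_spec j (Finset.mem_univ _), P.ls_uniq, P.u_fst, P.u_succ, P.u_lst⟩⟩

end Pool.Agent.Work.MP_735653_gt
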